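import Pool.Agent.Gabow87.Refute

/-! Certificate; see `Pool/Agent/Gabow87/Refute.lean`. -/

set_option autoImplicit false
set_option maxRecDepth 100000

namespace Pool.Agent.Gabow87.K3.C101

open Pool.Agent.Gabow87.Sat

def v : Tr VC := (.node (.node (.node (.node (.node (.node (.node (.leaf ⟨0, 7, 0, 0⟩)
(.leaf ⟨5, 10, 24, 6⟩))
(.node (.leaf ⟨1, 11, 0, 0⟩)
(.leaf ⟨5, 36, 65, 3⟩)))
(.node (.node (.leaf ⟨0, 74, 0, 0⟩)
(.leaf ⟨5, 96, 20, 1⟩))
(.leaf ⟨1, 50, 0, 0⟩)))
(.node (.node (.node (.leaf ⟨0, 35, 0, 0⟩)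
(.leaf ⟨5, 96, 10, 4⟩))
(.node (.leaf ⟨1, 81, 0, 0⟩)
(.leaf ⟨5, 3, 24, 5⟩)))
(.node (.node (.leaf ⟨0, 100, 0, 0⟩)
(.leaf ⟨5, 96, 80, 1⟩))
(.leaf ⟨1, 56, 0, 0⟩))))
(.node (.node (.node (.node (.leaf ⟨1, 14, 0, 0⟩)
(.leaf ⟨5, 48, 6, 6⟩))
(.node (.leaf ⟨1, 73, 0, 0⟩)
(.leaf ⟨5, 96, 68, 0⟩)))
(.node (.node (.leaf ⟨0, 98, 0, 0⟩)
(.leaf ⟨5, 96, 72, 4⟩))
(.leaf ⟨1, 76, 0, 0⟩)))
(.node (.node (.node (.leaf ⟨0, 81, 0, 0⟩)
(.leaf ⟨5, 96, 66, 2⟩))
(.node (.leaf ⟨1, 42, 0, 0⟩)
(.leaf ⟨5, 40, 65, 1⟩)))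
(.node (.node (.leaf ⟨0, 112, 0, 0⟩)
(.leaf ⟨5, 33, 12, 4⟩))
(.leaf ⟨5, 6, 24, 6⟩)))))
(.node (.node (.node (.node (.node (.leaf ⟨0, 14, 0, 0⟩)
(.leaf ⟨5, 40, 6, 6⟩))
(.node (.leaf ⟨1, 37, 0, 0⟩)
(.leaf ⟨5, 40, 5, 4⟩)))
(.node (.node (.leaf ⟨0, 50, 0, 0⟩)
(.leaf ⟨5, 96, 68, 3⟩))
(.leaf ⟨1, 98, 0, 0⟩)))
(.node (.node (.node (.leaf ⟨0, 67, 0, 0⟩)
(.leaf ⟨5, 96, 66, 4⟩))
(.node (.leaf ⟨1, 26, 0, 0⟩)
(.leaf ⟨5, 24, 3, 6⟩)))
(.node (.node (.leaf ⟨0, 88, 0, 0⟩)
(.leaf ⟨5, 5, 24, 5⟩))
(.leaf ⟨1, 104, 0, 0⟩))))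
(.node (.node (.node (.node (.leaf ⟨0, 41, 0, 0⟩)
(.leaf ⟨5, 96, 6, 4⟩))
(.node (.leaf ⟨1, 67, 0, 0⟩)
(.leaf ⟨5, 96, 72, 0⟩)))
(.node (.node (.leaf ⟨0, 52, 0, 0⟩)
(.leaf ⟨5, 96, 80, 3⟩))
(.leaf ⟨1, 84, 0, 0⟩)))
(.node (.node (.node (.leaf ⟨0, 42, 0, 0⟩)
(.leaf ⟨5, 96, 12, 1⟩))
(.leaf ⟨1, 74, 0, 0⟩))
(.node (.node (.leaf ⟨1, 13, 0, 0⟩)
(.leaf ⟨5, 12, 65, 4⟩))
(.leaf ⟨5, 6, 80, 5⟩))))))
(.node (.node (.node (.node (.node (.node (.leaf ⟨1, 7, 0, 0⟩)
(.leaf ⟨5, 10, 24, 5⟩))
(.node (.leaf ⟨1, 41, 0, 0⟩)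
(.leaf ⟨5, 40, 5, 6⟩)))
(.node (.node (.leaf ⟨0, 70, 0, 0⟩)
(.leaf ⟨5, 96, 68, 4⟩))
(.leaf ⟨1, 82, 0, 0⟩)))
(.node (.node (.node (.leaf ⟨0, 69, 0, 0⟩)
(.leaf ⟨5, 96, 10, 2⟩))
(.node (.leaf ⟨1, 97, 0, 0⟩)
(.leaf ⟨5, 10, 24, 0⟩)))
(.node (.node (.leaf ⟨0, 56, 0, 0⟩)
(.leaf ⟨5, 5, 24, 6⟩))
(.leaf ⟨1, 88, 0, 0⟩))))
(.node (.node (.node (.node (.leaf ⟨1, 28, 0, 0⟩)
(.leaf ⟨5, 48, 6, 3⟩))
(.node (.leaf ⟨1, 69, 0, 0⟩)
(.leaf ⟨5, 96, 24, 0⟩)))
(.node (.node (.leaf ⟨0, 44, 0, 0⟩)
(.leaf ⟨5, 96, 72, 2⟩))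
(.leaf ⟨1, 52, 0, 0⟩)))
(.node (.node (.node (.leaf ⟨0, 97, 0, 0⟩)
(.leaf ⟨5, 96, 12, 4⟩))
(.node (.leaf ⟨1, 38, 0, 0⟩)
(.leaf ⟨5, 96, 66, 0⟩)))
(.node (.node (.leaf ⟨1, 25, 0, 0⟩)
(.leaf ⟨5, 12, 65, 5⟩))
(.leaf ⟨5, 6, 24, 5⟩)))))
(.node (.node (.node (.node (.node (.leaf ⟨0, 28, 0, 0⟩)
(.leaf ⟨5, 40, 6, 4⟩))
(.node (.leaf ⟨1, 35, 0, 0⟩)
(.leaf ⟨5, 40, 65, 4⟩)))
(.node (.node (.leaf ⟨0, 82, 0, 0⟩)
(.leaf ⟨5, 96, 24, 2⟩))
(.leaf ⟨1, 44, 0, 0⟩)))
(.node (.node (.node (.leaf ⟨0, 49, 0, 0⟩)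
(.leaf ⟨5, 96, 66, 3⟩))
(.node (.leaf ⟨1, 22, 0, 0⟩)
(.leaf ⟨5, 24, 3, 5⟩)))
(.node (.node (.leaf ⟨0, 104, 0, 0⟩)
(.leaf ⟨5, 33, 12, 6⟩))
(.leaf ⟨1, 112, 0, 0⟩))))
(.node (.node (.node (.node (.leaf ⟨0, 37, 0, 0⟩)
(.leaf ⟨5, 96, 6, 3⟩))
(.node (.leaf ⟨1, 49, 0, 0⟩)
(.leaf ⟨5, 3, 24, 6⟩)))
(.node (.node (.leaf ⟨0, 84, 0, 0⟩)
(.leaf ⟨5, 96, 80, 2⟩))
(.leaf ⟨1, 100, 0, 0⟩)))
(.node (.node (.node (.leaf ⟨0, 38, 0, 0⟩)
(.leaf ⟨5, 96, 20, 3⟩))
(.leaf ⟨1, 70, 0, 0⟩))
(.node (.node (.leaf ⟨1, 21, 0, 0⟩)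
(.leaf ⟨5, 36, 65, 4⟩))
(.leaf ⟨5, 6, 80, 3⟩)))))))

def g : Tr Nat := (.node (.node (.node (.node (.node (.node (.node (.node (.node (.leaf 1)
(.leaf 470057018))
(.leaf 233618))
(.node (.leaf 8042108624990)
(.leaf 553766968)))
(.node (.node (.node (.leaf 3505448321082)
(.leaf 229494))
(.leaf 331966))
(.node (.leaf 138366913111562420242)
(.leaf 130))))
(.node (.node (.node (.node (.leaf 1306022387740)
(.leaf 28))
(.leaf 200872))
(.node (.leaf 133754095007904604166)
(.leaf 1795584092)))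
(.node (.node (.leaf 8042108624970)
(.leaf 471248))
(.node (.leaf 127100)
(.leaf 14090362019882)))))
(.node (.node (.node (.node (.node (.leaf 2817985224722)
(.leaf 16332147564679204))
(.leaf 233628))
(.node (.leaf 8179547578478)
(.leaf 1157877864)))
(.node (.node (.leaf 6392505213006)
(.leaf 13541008490526))
(.node (.leaf 138366913798891421716)
(.leaf 12166283730972))))
(.node (.node (.node (.node (.leaf 1993083002924)
(.leaf 45))
(.leaf 61622))
(.node (.leaf 138366911599431942162)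
(.leaf 8109838204972)))
(.node (.node (.leaf 27309189965791324)
(.leaf 119002))
(.node (.leaf 209032)
(.leaf 3640967212))))))
(.node (.node (.node (.node (.node (.node (.leaf 9)
(.leaf 32290812216427905127))
(.leaf 225432))
(.node (.leaf 6254630027368)
(.leaf 3230469820470)))
(.node (.node (.node (.leaf 5704874508360)
(.leaf 36))
(.leaf 299202))
(.node (.leaf 138366912974089936918)
(.leaf 561176))))
(.node (.node (.node (.node (.leaf 3368043077668)
(.leaf 206))
(.leaf 200880))
(.node (.leaf 138366913523946471456)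
(.leaf 1527009384)))
(.node (.node (.leaf 7216568778762)
(.leaf 59400224501710854))
(.node (.leaf 8729471033346)
(.leaf 864387)))))
(.node (.node (.node (.node (.node (.leaf 2817985314834)
(.leaf 114744))
(.leaf 168098))
(.node (.leaf 6942059978872)
(.leaf 1560547406)))
(.node (.node (.leaf 6942227914830)
(.leaf 110796))
(.node (.leaf 52)
(.leaf 3171659854))))
(.node (.node (.node (.node (.leaf 2405500461106)
(.leaf 95))
(.leaf 94394))
(.node (.leaf 138366913111562502176)
(.leaf 122)))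
(.node (.node (.leaf 6254663581786)
(.leaf 587329586))
(.node (.leaf 9554305761304)
(.leaf 1925353480248)))))))
(.node (.node (.node (.node (.node (.node (.node (.leaf 5)
(.leaf 114745))
(.leaf 10104196046876))
(.node (.leaf 6667316330598)
(.leaf 587288618)))
(.node (.node (.node (.leaf 4742667730948)
(.leaf 119))
(.leaf 331968))
(.node (.leaf 138366911874376957970)
(.leaf 544782))))
(.node (.node (.node (.node (.leaf 3917933142044)
(.leaf 202))
(.leaf 200876))
(.node (.leaf 136060506327560003590)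
(.leaf 1527017562)))
(.node (.node (.leaf 8042041475156)
(.leaf 14365843570690))
(.node (.leaf 127102)
(.leaf 209)))))
(.node (.node (.node (.node (.node (.leaf 1580799811602)
(.leaf 541806773868959843440058417))
(.leaf 10791558570012))
(.node (.leaf 7354611761266)
(.leaf 1829146700)))
(.node (.node (.leaf 6942227800142)
(.leaf 110794))
(.node (.leaf 138366913111562444822)
(.leaf 741462))))
(.node (.node (.node (.node (.leaf 3780427079724)
(.leaf 137))
(.leaf 110776))
(.node (.leaf 138366913798891487264)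
(.leaf 8109838164002)))
(.node (.node (.leaf 7629590405212)
(.leaf 110812))
(.node (.leaf 389258)
(.leaf 7886247855104120))))))
(.node (.node (.node (.node (.node (.node (.leaf 2405701984258)
(.leaf 16330773292843058))
(.leaf 200858))
(.node (.leaf 7629389037672)
(.leaf 855822394)))
(.node (.node (.node (.leaf 5017780346958)
(.leaf 0))
(.leaf 307396))
(.node (.leaf 138366913798891503652)
(.leaf 170))))
(.node (.node (.node (.node (.leaf 2405534015522)
(.leaf 185))
(.leaf 49833099689009180))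
(.node (.leaf 138366913523946381328)
(.leaf 8042041462904)))
(.node (.node (.leaf 6117459959818)
(.leaf 209112))
(.node (.leaf 118916)
(.leaf 213)))))
(.node (.node (.node (.node (.node (.leaf 3505448321048)
(.leaf 114778))
(.leaf 446628))
(.node (.leaf 32940201831604344)
(.leaf 1762029680)))
(.node (.node (.leaf 7492184621132)
(.leaf 110798))
(.node (.leaf 53)
(.leaf 798750))))
(.node (.node (.node (.node (.leaf 3505414766648)
(.leaf 364664))
(.leaf 176316))
(.node (.leaf 138366911874376949776)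
(.leaf 128)))
(.node (.node (.leaf 6942194270298)
(.leaf 855822360))
(.node (.leaf 225424)
(.leaf 470057079))))))))
(.node (.node (.node (.node (.node (.node (.node (.node (.leaf 3)
(.leaf 114760))
(.leaf 200852))
(.node (.leaf 8179547578468)
(.leaf 587288610)))
(.node (.node (.node (.leaf 4880173735940)
(.leaf 109))
(.leaf 12991118761990))
(.node (.leaf 136060505915209842706)
(.leaf 136))))
(.node (.node (.node (.node (.leaf 3367942357020)
(.leaf 184))
(.leaf 471210))
(.node (.leaf 136060507289867558918)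
(.leaf 1829146720)))
(.node (.node (.leaf 8179547578450)
(.leaf 69842))
(.node (.leaf 8454525927426)
(.leaf 208)))))
(.node (.node (.node (.node (.node (.leaf 2543140921362)
(.leaf 132448809151105324953632))
(.leaf 168094))
(.node (.leaf 7079599317106)
(.leaf 1560670286)))
(.node (.node (.leaf 6804788830286)
(.leaf 209096))
(.node (.leaf 138366911874376974356)
(.leaf 180))))
(.node (.node (.node (.node (.leaf 3367506133036)
(.leaf 57))
(.leaf 12441228763138))
(.node (.leaf 136060507839724372000)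
(.leaf 8109838147614)))
(.node (.node (.leaf 7354712113244)
(.leaf 14915465429036))
(.node (.leaf 9279360745486)
(.leaf 7886248090140791))))))
(.node (.node (.node (.node (.node (.node (.leaf 11)
(.leaf 469991453))
(.leaf 381080))
(.node (.leaf 7354511097960)
(.leaf 855814200)))
(.node (.node (.node (.leaf 5705042460744)
(.leaf 22))
(.leaf 13266063777824))
(.node (.leaf 138366911736904474646)
(.leaf 2399719452))))
(.node (.node (.node (.node (.leaf 3780427079710)
(.leaf 220))
(.leaf 168114))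
(.node (.leaf 138366912836617486368)
(.leaf 1728417906)))
(.node (.node (.leaf 7217273569290)
(.leaf 315606))
(.node (.leaf 471170)
(.leaf 216)))))
(.node (.node (.node (.node (.node (.leaf 2818119540754)
(.leaf 114791))
(.leaf 11066503594012))
(.node (.leaf 7629254738040)
(.leaf 1761857612)))
(.node (.node (.leaf 5705076015182)
(.leaf 13952855924778))
(.node (.leaf 113)
(.leaf 198))))
(.node (.node (.node (.node (.leaf 13232004384432182)
(.leaf 1493663856))
(.leaf 12716173467666))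
(.node (.leaf 138366913798891397136)
(.leaf 503868)))
(.node (.node (.leaf 6941858652250)
(.leaf 486666258))
(.node (.leaf 356494)
(.leaf 470057002)))))))
(.node (.node (.node (.node (.node (.node (.node (.leaf 7)
(.leaf 4880022491254))
(.leaf 405654))
(.node (.leaf 7354041303052)
(.leaf 587280434)))
(.node (.node (.node (.leaf 4605195264066)
(.leaf 101))
(.leaf 176322))
(.node (.leaf 138366913661418995748)
(.leaf 140))))
(.node (.node (.node (.node (.leaf 2268229500934)
(.leaf 204))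
(.leaf 471214))
(.node (.leaf 136060506602505019398)
(.leaf 1795420240)))
(.node (.node (.leaf 6392002174986)
(.leaf 241876))
(.node (.leaf 471168)
(.leaf 17)))))
(.node (.node (.node (.node (.node (.leaf 11543017152536594)
(.leaf 469991541))
(.leaf 225440))
(.node (.leaf 6942059978870)
(.leaf 1157918788)))
(.node (.node (.leaf 23367440847503438)
(.leaf 56587811767582762))
(.node (.leaf 138366911874376982550)
(.leaf 3104534546))))
(.node (.node (.node (.node (.leaf 3367841693744)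
(.leaf 41))
(.leaf 430264))
(.node (.leaf 136060507152395386912)
(.leaf 116)))
(.node (.node (.leaf 7492184621152)
(.leaf 61653399040819250))
(.node (.leaf 209036)
(.leaf 1925353537655))))))
(.node (.node (.node (.node (.node (.node (.leaf 1993384943634)
(.leaf 1122449901101623655358701603))
(.leaf 43076050577842204))
(.node (.leaf 8042108625002)
(.leaf 1191448666)))
(.node (.node (.leaf 5567502598222)
(.leaf 209094))
(.node (.leaf 138366913111562518564)
(.leaf 174))))
(.node (.node (.node (.node (.leaf 2405534015530)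
(.leaf 23))
(.leaf 471220))
(.node (.leaf 138366912836617404434)
(.leaf 475190)))
(.node (.node (.leaf 6941858652252)
(.leaf 14778261061640))
(.node (.leaf 389254)
(.leaf 77)))))
(.node (.node (.node (.node (.node (.leaf 3917866033176)
(.leaf 114780))
(.leaf 225446))
(.node (.leaf 7629556809848)
(.leaf 1493520498)))
(.node (.node (.leaf 4742835093572)
(.leaf 57714124091940906))
(.node (.leaf 471162)
(.leaf 200))))
(.node (.node (.node (.node (.leaf 2817951604794)
(.leaf 89))
(.leaf 340156))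
(.node (.leaf 136060507152395304978)
(.leaf 512082)))
(.node (.node (.leaf 6942295031898)
(.leaf 318853148))
(.node (.leaf 9829250777116)
(.leaf 470057015)))))))))

def h : Tr Nat := (.node (.node (.node (.node (.node (.node (.node (.node (.node (.leaf 0)
(.leaf 354796696150245554294566116474889389056696015804666482595304812510067529473730845380751537585034799066227912760084517875467120625668869428654017449281676980749175669063789))
(.leaf 0))
(.node (.leaf 0)
(.leaf 5368971267)))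
(.node (.node (.node (.leaf 0)
(.leaf 325843705122261446184547190401396317531352093815082114297830849281264693543160))
(.leaf 0))
(.node (.leaf 0)
(.leaf 31682920668))))
(.node (.node (.node (.node (.leaf 0)
(.leaf 32977143890020135479132693214649791180299735085838800672441070121105434838052331140538185686992952482270370578266737866407219700356559896877390502683158653002904631360246111383613546172210562653413243086850359429412631015148748911))
(.leaf 0))
(.node (.leaf 0)
(.leaf 15569911814)))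
(.node (.node (.leaf 0)
(.leaf 0))
(.node (.leaf 0)
(.leaf 47255716071)))))
(.node (.node (.node (.node (.node (.leaf 0)
(.leaf 7861326102745224563962807943695543738823098328350829))
(.leaf 0))
(.node (.leaf 0)
(.leaf 9395372034)))
(.node (.node (.leaf 0)
(.leaf 0))
(.node (.leaf 0)
(.leaf 40545091816))))
(.node (.node (.node (.node (.leaf 0)
(.leaf 13763897691993407768))
(.leaf 0))
(.node (.leaf 0)
(.leaf 5908863449940885507)))
(.node (.node (.leaf 0)
(.leaf 0))
(.node (.leaf 0)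
(.leaf 49942036720))))))
(.node (.node (.node (.node (.node (.node (.leaf 0)
(.leaf 673200540616937410676270129758433652890626443798399667873362363691535988621532))
(.leaf 0))
(.node (.leaf 0)
(.leaf 8053063681)))
(.node (.node (.node (.leaf 0)
(.leaf 144968456559809189671255089422255454840684836))
(.leaf 0))
(.node (.leaf 0)
(.leaf 9009644629804580866))))
(.node (.node (.node (.node (.leaf 0)
(.leaf 46977974545))
(.leaf 0))
(.node (.leaf 0)
(.leaf 18522177538)))
(.node (.node (.leaf 0)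
(.leaf 0))
(.node (.leaf 0)
(.leaf 3501658375093390856186757123)))))
(.node (.node (.node (.node (.node (.leaf 0)
(.leaf 21494978697187080056554723919082353805348386842102573349142637))
(.leaf 0))
(.node (.leaf 0)
(.leaf 13959168005)))
(.node (.node (.leaf 0)
(.leaf 0))
(.node (.leaf 0)
(.leaf 43486806019))))
(.node (.node (.node (.node (.leaf 0)
(.leaf 33026474267))
(.leaf 0))
(.node (.leaf 0)
(.leaf 30072307932)))
(.node (.node (.leaf 0)
(.leaf 1879048193))
(.node (.leaf 0)
(.leaf 205850846481925148841143051886959788625319513160421443753664961476650093108202545972350626288220641234905333270027907036236480623)))))))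
(.node (.node (.node (.node (.node (.node (.node (.leaf 0)
(.leaf 6570769982346302038313481506672785410269889973420687239457213517525645823849466136516604370481733372186500743204830722270602471899627346550362615720546172908529225821298495948348618922350494351471))
(.leaf 0))
(.node (.leaf 0)
(.leaf 6442450945)))
(.node (.node (.node (.leaf 0)
(.leaf 1412568445310057927972487458))
(.leaf 0))
(.node (.leaf 0)
(.leaf 8793401478409748482))))
(.node (.node (.node (.node (.leaf 0)
(.leaf 45904232721))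
(.leaf 0))
(.node (.leaf 0)
(.leaf 16374693890)))
(.node (.node (.leaf 0)
(.leaf 0))
(.node (.leaf 0)
(.leaf 3463341094676365653567340545)))))
(.node (.node (.node (.node (.node (.leaf 0)
(.leaf 1335848446560851327957457759875219103059956418352106351365817610845130794355714087967277523217506131273893631174735965438455962349596404895738756828658542283260124))
(.leaf 0))
(.node (.leaf 0)
(.leaf 12617121798)))
(.node (.node (.leaf 0)
(.leaf 0))
(.node (.leaf 0)
(.leaf 11100018545956749313))))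
(.node (.node (.node (.node (.leaf 0)
(.leaf 61473161496))
(.leaf 0))
(.node (.leaf 0)
(.leaf 6052978638016741379)))
(.node (.node (.leaf 0)
(.leaf 0))
(.node (.leaf 0)
(.leaf 399934892694449614161420926537695476))))))
(.node (.node (.node (.node (.node (.node (.leaf 0)
(.leaf 380772115039743130840455190364408885148972326032257846663209006514108380881686996189432))
(.leaf 0))
(.node (.leaf 0)
(.leaf 8858763268)))
(.node (.node (.node (.leaf 0)
(.leaf 3772037472321930322827870502))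
(.leaf 0))
(.node (.leaf 0)
(.leaf 39199113436))))
(.node (.node (.node (.node (.leaf 0)
(.leaf 17005873733437948178))
(.leaf 0))
(.node (.leaf 0)
(.leaf 21206925317)))
(.node (.node (.leaf 0)
(.leaf 0))
(.node (.leaf 0)
(.leaf 3560092939465488582295552004)))))
(.node (.node (.node (.node (.node (.leaf 0)
(.leaf 121445010505290248563867988627310524054849858552349588062601781115641659208797279100220785243958119389183668130317780070078225842795283134306985065643982830290377217302601958567255351139595983175124460049245289466444316781))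
(.leaf 0))
(.node (.leaf 0)
(.leaf 14496038917)))
(.node (.node (.leaf 0)
(.leaf 0))
(.node (.leaf 0)
(.leaf 12181199116948340738))))
(.node (.node (.node (.node (.leaf 0)
(.leaf 1906503012688308464045502002482066296860493548916408624258510845954207611400493209195361546899039179364683754154243391598))
(.leaf 0))
(.node (.leaf 0)
(.leaf 31146049756)))
(.node (.node (.leaf 0)
(.leaf 4026925060))
(.node (.leaf 0)
(.leaf 308972572477075204024269256148676449272312471973250372768756261321443424376844222398684))))))))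
(.node (.node (.node (.node (.node (.node (.node (.node (.leaf 0)
(.leaf 11209227498678646624368590114467878588501213443011264241162476088473132222329826780451138474743318324819963097005064245904835427337398365943347103585534062))
(.leaf 0))
(.node (.leaf 0)
(.leaf 6174015489)))
(.node (.node (.node (.leaf 0)
(.leaf 561456922253035327378648737892698556563185860757866133731236698370503849579794938069277))
(.leaf 0))
(.node (.leaf 0)
(.leaf 32484032621))))
(.node (.node (.node (.node (.leaf 0)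
(.leaf 41609265425))
(.leaf 0))
(.node (.leaf 0)
(.leaf 16106782726)))
(.node (.node (.leaf 0)
(.leaf 0))
(.node (.leaf 0)
(.leaf 47520612572)))))
(.node (.node (.node (.node (.node (.leaf 0)
(.leaf 367975907163994878029298841297907868228124920))
(.leaf 0))
(.node (.leaf 0)
(.leaf 11006377989)))
(.node (.node (.leaf 0)
(.leaf 0))
(.node (.leaf 0)
(.leaf 40809726172))))
(.node (.node (.node (.node (.leaf 0)
(.leaf 309730580877744459235066136))
(.leaf 0))
(.node (.leaf 0)
(.leaf 5980921043978813443)))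
(.node (.node (.leaf 0)
(.leaf 0))
(.node (.leaf 0)
(.leaf 51115598694540341441116445542073826280446077422266103407728245323701062645444527640754546016504))))))
(.node (.node (.node (.node (.node (.node (.leaf 0)
(.leaf 54420527709695917011190206894542515324755016284156916678978023495072275835401009504025200640157705327938109104320880251251950370362709076509693643531788874306569247063906950959669898913984898207521499210166249712935583288014342235235064570360049561570562654677277324017773))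
(.leaf 0))
(.node (.leaf 0)
(.leaf 8321892356)))
(.node (.node (.node (.leaf 0)
(.leaf 149149846284533681510293036598060353342144804))
(.leaf 0))
(.node (.leaf 0)
(.leaf 34359869442))))
(.node (.node (.node (.node (.leaf 0)
(.leaf 50199200017))
(.leaf 0))
(.node (.leaf 0)
(.leaf 19864748037)))
(.node (.node (.leaf 0)
(.leaf 0))
(.node (.leaf 0)
(.leaf 49127030893)))))
(.node (.node (.node (.node (.node (.leaf 0)
(.leaf 320884475068275993289990273798273978767338508069689440285395119396588970055408577104346401024625814144353700741566448672446667052563280231548226569077775885761366688006388))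
(.leaf 0))
(.node (.leaf 0)
(.leaf 14227603461)))
(.node (.node (.leaf 0)
(.leaf 0))
(.node (.leaf 0)
(.leaf 45100499053))))
(.node (.node (.node (.node (.leaf 0)
(.leaf 246458854768779703894088967854081925111144049173932311564354662670933695469564207876272927423918840555551951886150485002146545774))
(.leaf 0))
(.node (.leaf 0)
(.leaf 8216694434159394817)))
(.node (.node (.leaf 0)
(.leaf 2147745795))
(.node (.leaf 0)
(.leaf 441478297759569173685802921251031894147996173796709625972130281152799591311803482573430387980425185323454739129523328396412322040)))))))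
(.node (.node (.node (.node (.node (.node (.node (.leaf 0)
(.leaf 3457880370884890327402620377872687322970118552741647726500225350567915717309970920434458189501841498536773091437))
(.leaf 0))
(.node (.leaf 0)
(.leaf 7784628225)))
(.node (.node (.node (.leaf 0)
(.leaf 4766440327512024779590450876413248346529889501614613689477167480952854422118956160530728710052391740301064293389880567749627502851996204021453981781590264))
(.leaf 0))
(.node (.leaf 0)
(.leaf 33289338989))))
(.node (.node (.node (.node (.leaf 0)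
(.leaf 46441103633))
(.leaf 0))
(.node (.leaf 0)
(.leaf 18254266374)))
(.node (.node (.leaf 0)
(.leaf 0))
(.node (.leaf 0)
(.leaf 47795142899)))))
(.node (.node (.node (.node (.node (.leaf 0)
(.leaf 14016156224802288351781127117128243669994246460330759705266989547972304296819818245363127469771043356943942912137922587797134557486434478400846466983182450766426231731963945876628828647395861659757))
(.leaf 0))
(.node (.leaf 0)
(.leaf 12885032962)))
(.node (.node (.leaf 0)
(.leaf 0))
(.node (.leaf 0)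
(.leaf 42413326341))))
(.node (.node (.node (.node (.leaf 0)
(.leaf 619097543209732330703290650))
(.leaf 0))
(.node (.leaf 0)
(.leaf 57985466479)))
(.node (.node (.leaf 0)
(.leaf 0))
(.node (.leaf 0)
(.leaf 51115598694540341390457406500669005760413331460168000199508046729253122305786569442755619848440))))))
(.node (.node (.node (.node (.node (.node (.leaf 0)
(.leaf 73710013124895051701248573362485630287432892145205496))
(.leaf 0))
(.node (.leaf 0)
(.leaf 9126936578)))
(.node (.node (.leaf 0)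
(.leaf 0))
(.node (.leaf 0)
(.leaf 39735984348))))
(.node (.node (.node (.node (.leaf 0)
(.leaf 42156425495))
(.leaf 0))
(.node (.leaf 0)
(.leaf 420588722163408533375257903324463107)))
(.node (.node (.leaf 0)
(.leaf 0))
(.node (.leaf 0)
(.leaf 48869146871)))))
(.node (.node (.node (.node (.node (.leaf 0)
(.leaf 235323415622324816504866404217788346452662756266672248035718836924227964918253727026936536848189979485821596170097315897850295202293869076157112628620694412145944260208058062533619989787202038471633076333))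
(.leaf 0))
(.node (.leaf 0)
(.leaf 14764474373)))
(.node (.node (.leaf 0)
(.leaf 0))
(.node (.leaf 0)
(.leaf 45637369965))))
(.node (.node (.node (.node (.leaf 0)
(.leaf 59015140870113681537453150278918095014843784534324202616593443389967418303083513520975439471093755651312757046851934327254968032325290506513377617391966259037343939856606843160601148719380))
(.leaf 0))
(.node (.leaf 0)
(.leaf 8432972769926316033)))
(.node (.node (.leaf 0)
(.leaf 4563402753))
(.node (.leaf 0)
(.leaf 6206808433192237350178716211095652506167515698601654843197715269945677114782309337883595701535440367492540439738254140095779025885556990223490035149567620525594711840956429539498479369745016815727)))))))))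

def l0 : List Ax := [.Y false,
  .Y true,
  .u1 false,
  .u2 false,
  .u1 true,
  .u2 true,
  .ex2 false 2 0 1 5 6,
  .ex2 false 1 0 5 2 3,
  .ex2 false 1 0 5 3 6,
  .ex2 false 5 0 1 2 4,
  .ex2 false 5 1 0 2 4,
  .ex3 false 0 1 5 3 4 6,
  .ex2 false 5 0 1 3 6,
  .ex2 false 5 0 1 4 6,
  .ex2 false 4 0 5 2 3,
  .ex2 false 4 0 5 3 6,
  .ex2 false 0 5 6 1 2,
  .ex2 false 5 0 6 1 2,
  .ex2 false 6 0 5 3 4,
  .ex2 false 3 2 1 5 6,
  .ex2 false 2 1 6 4 5,
  .ex2 false 3 1 5 4 6,
  .ex2 false 1 3 6 0 2,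
  .ex2 false 1 5 6 0 2,
  .ex2 false 5 2 3 0 1,
  .ex2 false 5 3 2 0 6,
  .ex2 false 3 2 5 4 6,
  .ex2 false 2 4 6 1 5,
  .ex2 false 2 5 6 0 1,
  .ex3 false 3 4 6 0 1 2,
  .ex2 false 3 6 5 2 4,
  .ex2 false 5 4 6 0 1,
  .ex2 false 4 6 5 2 3,
  .ex2 true 1 2 0 3 5,
  .ex2 true 2 1 0 3 5,
  .ex2 true 3 1 0 4 5,
  .ex2 true 0 1 5 2 6,
  .ex2 true 5 1 0 4 6,
  .ex2 true 0 1 6 2 3,
  .ex2 true 0 1 6 3 4,
  .ex2 true 1 0 6 2 3,
  .ex2 true 1 0 6 3 4,
  .ex2 true 1 0 6 3 5,
  .ex3 true 1 0 6 2 3 5,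
  .ex2 true 6 0 1 3 5,
  .ex2 true 6 1 0 4 5,
  .ex2 true 2 0 6 3 4,
  .ex2 true 0 3 5 1 2,
  .ex2 true 3 0 6 4 5,
  .ex2 true 4 0 6 3 5,
  .ex2 true 5 0 6 2 3,
  .ex2 true 1 2 3 0 6,
  .ex2 true 2 1 3 0 6,
  .ex2 true 2 1 3 5 6,
  .ex2 true 3 2 1 4 5,
  .ex2 true 1 2 5 0 6,
  .ex3 true 2 1 5 0 3 4,
  .ex2 true 2 1 5 3 4,
  .ex2 true 2 1 5 3 6,
  .ex2 true 2 1 6 3 4,
  .ex2 true 1 3 5 0 2,
  .ex2 true 1 3 5 0 6,
  .ex2 true 1 3 5 2 6,
  .ex2 true 5 3 1 4 6,
  .ex2 true 3 1 6 4 5,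
  .ex2 true 4 1 6 3 5,
  .ex2 true 1 6 5 2 4,
  .ex2 true 4 3 2 0 5,
  .ex2 true 2 3 5 0 1,
  .ex2 true 2 3 5 1 4,
  .ex2 true 2 3 5 1 6,
  .ex2 true 3 2 6 4 5,
  .ex2 true 4 2 6 3 5,
  .ex2 true 3 4 5 1 2,
  .ex2 true 4 3 5 1 2,
  .ex2 true 6 3 5 0 1,
  .ex2 true 6 4 5 0 1,
  .ex2 true 6 4 5 0 2,
  .ex3 true 4 5 6 1 2 3,
  .ex2 true 6 4 5 1 2,
  .ch 3 4 6 0 1 2,
  .ch 3 5 6 0 1 2,
  .ch 3 5 6 0 2 1,
  .ch 3 6 5 0 2 1,
  .ch 5 4 6 0 1 2,
  .ch 5 4 6 0 2 1,
  .ch 5 4 6 1 0 2,
  .ch 5 4 6 2 0 1,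
  .ch 5 4 6 2 1 0,
  .ch 5 6 3 0 1 2,
  .ch 5 6 4 0 1 2,
  .ch 5 6 3 0 2 1,
  .ch 5 6 4 0 2 1,
  .ch 5 6 4 1 0 2,
  .ch 5 6 4 1 2 0,
  .ch 5 6 3 2 0 1,
  .ch 5 6 4 2 0 1,
  .ch 5 6 3 2 1 0,
  .ch 5 6 4 2 1 0,
  .ch 6 4 5 0 1 2,
  .ch 6 4 5 2 0 1,
  .ch 6 4 5 2 1 0,
  .ch 6 5 4 0 1 2,
  .ch 6 5 4 0 2 1,
  .ch 6 5 4 1 0 2,
  .ch 6 5 4 1 2 0,
  .ch 6 5 4 2 0 1,
  .ch 6 5 4 2 1 0,
  .tA false 5,
  .tA true 5,
  .tC false 6,
  .w2 6 24 6,
  .w1 6 24 5,
  .O 1 2 3 4 0,
  .w1 6 80 5,
  .w2 6 80 3,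
  .O 1 2 4 6 0,
  .w2 10 24 6,
  .w1 10 24 5,
  .w2 40 6 6,
  .w1 40 6 4,
  .O 3 5 1 2 0,
  .w2 48 6 6,
  .w1 48 6 3,
  .O 4 5 1 2 0,
  .w2 96 6 4,
  .w1 96 6 3,
  .O 5 6 1 2 0,
  .w1 96 10 4,
  .w1 96 10 2,
  .O 5 6 1 3 0,
  .w2 96 66 4,
  .w1 96 66 3,
  .w2 96 66 3,
  .w1 96 66 2,
  .O 5 6 1 6 0,
  .w1 96 12 4,
  .w1 96 12 1,
  .O 5 6 2 3 0,
  .w1 96 20 3,
  .w1 96 20 1,
  .O 5 6 2 4 0,
  .w2 96 68 4,
  .w1 96 68 3,
  .w1 96 24 2,
  .w2 96 72 4,
  .w1 96 72 2,
  .w2 96 80 3,
  .w1 96 80 2,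
  .w1 96 80 1,
  .O 5 6 4 6 0,
  .w2 5 24 6,
  .w1 5 24 5,
  .O 0 2 3 4 1,
  .w1 33 12 6,
  .w2 33 12 6,
  .w1 33 12 4,
  .O 0 5 2 3 1,
  .w1 12 65 5,
  .w2 12 65 5,
  .w2 12 65 4,
  .O 2 3 0 6 1,
  .w2 36 65 4,
  .w1 36 65 3,
  .w2 36 65 3,
  .O 2 5 0 6 1,
  .w2 40 5 6,
  .w1 40 5 4,
  .O 3 5 0 2 1,
  .w1 40 65 4,
  .w1 96 68 0,
  .O 5 6 2 6 1,
  .w1 96 24 0,
  .O 5 6 3 4 1,
  .w1 96 72 0,
  .O 5 6 3 6 1,
  .w2 3 24 6,
  .w1 3 24 5,
  .O 0 1 3 4 2,
  .w2 10 24 0,
  .O 1 3 3 4 2,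
  .w2 24 3 6,
  .w1 24 3 5,
  .O 3 4 0 1 2,
  .w1 40 65 1,
  .O 3 5 0 6 2,
  .w1 96 66 0,
  .O 5 6 1 6 2]

theorem a0 : axchk 7 1 0 true (Tr.get ⟨9, 0, 0, 0⟩ v) (Tr.get 0 g) l0 188 0 = true := by
  decide +kernel

theorem t0 : chk (Tr.get 0 g) (Tr.get 0 h) 107 188 = true := by decide +kernel

theorem z : Tr.get 0 g 294 = 0 := by decide +kernel

theorem bad {α : Type*} [DecidableEq α] (c : Cx α) (hn : c.n = 7) (ha : c.a = 1) (hb : c.b = 0)
    (hcl : c.closed = true) : False := by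
  have s0 := axchk_sound c hn ha hb hcl (by norm_num) _ _ _ _ _ a0
  have s0 := chk_sound' t0 (e := 295) rfl s0
  exact s0.false z

end Pool.Agent.Gabow87.K3.C101
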