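import Pool.Agent.Gabow87.Refute

/-! Certificate; see `Pool/Agent/Gabow87/Refute.lean`. -/

set_option autoImplicit false
set_option maxRecDepth 100000

namespace Pool.Agent.Gabow87.K3.C111

open Pool.Agent.Gabow87.Sat

def v : Tr VC := (.node (.node (.node (.node (.node (.node (.node (.node (.node (.leaf ⟨0, 7, 0, 0⟩)
(.leaf ⟨5, 5, 129, 5⟩))
(.leaf ⟨3, 6, 1, 0⟩))
(.node (.node (.leaf ⟨1, 69, 0, 0⟩)
(.leaf ⟨5, 40, 9, 2⟩))
(.leaf ⟨5, 24, 10, 7⟩)))
(.node (.node (.node (.leaf ⟨0, 50, 0, 0⟩)
(.leaf ⟨5, 33, 160, 3⟩))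
(.leaf ⟨5, 34, 132, 6⟩))
(.node (.node (.leaf ⟨1, 196, 0, 0⟩)
(.leaf ⟨5, 129, 10, 4⟩))
(.leaf ⟨5, 160, 10, 6⟩))))
(.node (.node (.node (.node (.leaf ⟨0, 137, 0, 0⟩)
(.leaf ⟨5, 9, 20, 6⟩))
(.leaf ⟨5, 6, 130, 4⟩))
(.node (.node (.leaf ⟨1, 70, 0, 0⟩)
(.leaf ⟨5, 160, 129, 4⟩))
(.leaf ⟨5, 48, 12, 6⟩)))
(.node (.node (.node (.leaf ⟨0, 104, 0, 0⟩)
(.leaf ⟨5, 20, 129, 5⟩))
(.leaf ⟨5, 20, 130, 5⟩))
(.node (.leaf ⟨2, 3, 7, 0⟩)
(.leaf ⟨5, 160, 132, 4⟩)))))
(.node (.node (.node (.node (.node (.leaf ⟨0, 11, 0, 0⟩)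
(.leaf ⟨5, 5, 136, 4⟩))
(.leaf ⟨3, 6, 7, 0⟩))
(.node (.node (.leaf ⟨1, 97, 0, 0⟩)
(.leaf ⟨5, 96, 33, 7⟩))
(.leaf ⟨5, 40, 36, 7⟩)))
(.node (.node (.node (.leaf ⟨0, 52, 0, 0⟩)
(.leaf ⟨5, 129, 144, 6⟩))
(.leaf ⟨5, 34, 160, 2⟩))
(.node (.node (.leaf ⟨1, 208, 0, 0⟩)
(.leaf ⟨5, 24, 10, 0⟩))
(.leaf ⟨5, 160, 130, 3⟩))))
(.node (.node (.node (.node (.leaf ⟨0, 26, 0, 0⟩)
(.leaf ⟨5, 33, 132, 6⟩))
(.leaf ⟨5, 10, 24, 7⟩))
(.node (.node (.leaf ⟨1, 44, 0, 0⟩)
(.leaf ⟨5, 3, 24, 5⟩))
(.leaf ⟨5, 96, 144, 3⟩)))
(.node (.node (.node (.leaf ⟨1, 13, 0, 0⟩)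
(.leaf ⟨5, 36, 144, 0⟩))
(.leaf ⟨5, 36, 192, 3⟩))
(.node (.leaf ⟨3, 5, 7, 0⟩)
(.leaf ⟨5, 160, 144, 3⟩))))))
(.node (.node (.node (.node (.node (.node (.leaf ⟨1, 14, 0, 0⟩)
(.leaf ⟨5, 5, 24, 6⟩))
(.leaf ⟨3, 6, 4, 0⟩))
(.node (.node (.leaf ⟨1, 131, 0, 0⟩)
(.leaf ⟨5, 48, 12, 0⟩))
(.leaf ⟨5, 24, 130, 5⟩)))
(.node (.node (.node (.leaf ⟨0, 194, 0, 0⟩)
(.leaf ⟨5, 129, 132, 6⟩))
(.leaf ⟨5, 34, 144, 3⟩))
(.node (.node (.leaf ⟨1, 104, 0, 0⟩)
(.leaf ⟨5, 66, 144, 0⟩))
(.leaf ⟨5, 160, 34, 4⟩))))
(.node (.node (.node (.node (.leaf ⟨0, 145, 0, 0⟩)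
(.leaf ⟨5, 17, 132, 3⟩))
(.leaf ⟨5, 6, 24, 5⟩))
(.node (.node (.leaf ⟨1, 146, 0, 0⟩)
(.leaf ⟨5, 160, 144, 0⟩))
(.leaf ⟨5, 96, 10, 7⟩)))
(.node (.node (.node (.leaf ⟨0, 176, 0, 0⟩)
(.leaf ⟨5, 36, 9, 4⟩))
(.leaf ⟨5, 36, 18, 3⟩))
(.node (.leaf ⟨2, 5, 3, 0⟩)
(.leaf ⟨5, 160, 136, 4⟩)))))
(.node (.node (.node (.node (.node (.leaf ⟨0, 35, 0, 0⟩)
(.leaf ⟨5, 5, 192, 5⟩))
(.leaf ⟨3, 7, 3, 0⟩))
(.node (.node (.leaf ⟨1, 22, 0, 0⟩)
(.leaf ⟨5, 96, 132, 0⟩))
(.leaf ⟨5, 48, 6, 7⟩)))
(.node (.node (.node (.leaf ⟨0, 196, 0, 0⟩)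
(.leaf ⟨5, 12, 129, 6⟩))
(.leaf ⟨5, 130, 144, 5⟩))
(.node (.node (.leaf ⟨2, 3, 5, 0⟩)
(.leaf ⟨5, 160, 34, 0⟩))
(.leaf ⟨5, 160, 20, 6⟩))))
(.node (.node (.node (.node (.leaf ⟨0, 74, 0, 0⟩)
(.leaf ⟨5, 33, 40, 6⟩))
(.leaf ⟨5, 10, 160, 4⟩))
(.node (.node (.leaf ⟨1, 84, 0, 0⟩)
(.leaf ⟨5, 33, 40, 1⟩))
(.leaf ⟨5, 96, 160, 2⟩)))
(.node (.node (.node (.leaf ⟨1, 41, 0, 0⟩)
(.leaf ⟨5, 40, 5, 4⟩))
(.leaf ⟨5, 132, 144, 3⟩))
(.node (.leaf ⟨2, 6, 6, 0⟩)
(.leaf ⟨5, 160, 160, 4⟩)))))))
(.node (.node (.node (.node (.node (.node (.node (.leaf ⟨0, 14, 0, 0⟩)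
(.leaf ⟨5, 5, 129, 3⟩))
(.leaf ⟨3, 6, 3, 0⟩))
(.node (.node (.leaf ⟨1, 137, 0, 0⟩)
(.leaf ⟨5, 48, 5, 6⟩))
(.leaf ⟨5, 24, 10, 5⟩)))
(.node (.node (.node (.leaf ⟨0, 98, 0, 0⟩)
(.leaf ⟨5, 129, 12, 5⟩))
(.leaf ⟨5, 34, 132, 3⟩))
(.node (.node (.leaf ⟨1, 88, 0, 0⟩)
(.leaf ⟨5, 10, 160, 0⟩))
(.leaf ⟨5, 160, 10, 2⟩))))
(.node (.node (.node (.node (.leaf ⟨0, 131, 0, 0⟩)
(.leaf ⟨5, 17, 132, 6⟩))
(.leaf ⟨5, 6, 24, 7⟩))
(.node (.node (.leaf ⟨1, 134, 0, 0⟩)
(.leaf ⟨5, 160, 12, 0⟩))
(.leaf ⟨5, 96, 6, 4⟩)))
(.node (.node (.node (.leaf ⟨0, 200, 0, 0⟩)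
(.leaf ⟨5, 36, 9, 7⟩))
(.leaf ⟨5, 36, 18, 7⟩))
(.node (.leaf ⟨2, 5, 5, 0⟩)
(.leaf ⟨5, 160, 132, 1⟩)))))
(.node (.node (.node (.node (.node (.leaf ⟨0, 41, 0, 0⟩)
(.leaf ⟨5, 5, 144, 5⟩))
(.leaf ⟨3, 7, 7, 0⟩))
(.node (.node (.leaf ⟨1, 193, 0, 0⟩)
(.leaf ⟨5, 96, 33, 3⟩))
(.leaf ⟨5, 40, 36, 4⟩)))
(.node (.node (.node (.leaf ⟨0, 100, 0, 0⟩)
(.leaf ⟨5, 129, 144, 3⟩))
(.leaf ⟨5, 66, 144, 3⟩))
(.node (.node (.leaf ⟨2, 3, 3, 0⟩)
(.leaf ⟨5, 96, 10, 0⟩))
(.leaf ⟨5, 160, 12, 4⟩))))
(.node (.node (.node (.node (.leaf ⟨0, 42, 0, 0⟩)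
(.leaf ⟨5, 33, 132, 3⟩))
(.leaf ⟨5, 10, 24, 5⟩))
(.node (.node (.leaf ⟨1, 140, 0, 0⟩)
(.leaf ⟨5, 33, 10, 6⟩))
(.leaf ⟨5, 96, 160, 4⟩)))
(.node (.node (.node (.leaf ⟨1, 11, 0, 0⟩)
(.leaf ⟨5, 40, 5, 7⟩))
(.leaf ⟨5, 132, 144, 6⟩))
(.node (.leaf ⟨4, 6, 1, 0⟩)
(.leaf ⟨5, 160, 144, 1⟩))))))
(.node (.node (.node (.node (.node (.node (.leaf ⟨0, 25, 0, 0⟩)
(.leaf ⟨5, 5, 136, 6⟩))
(.leaf ⟨3, 6, 5, 0⟩))
(.node (.node (.leaf ⟨1, 81, 0, 0⟩)
(.leaf ⟨5, 96, 5, 4⟩))
(.leaf ⟨5, 40, 6, 6⟩)))
(.node (.node (.node (.leaf ⟨0, 76, 0, 0⟩)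
(.leaf ⟨5, 129, 132, 4⟩))
(.leaf ⟨5, 34, 160, 4⟩))
(.node (.node (.leaf ⟨1, 200, 0, 0⟩)
(.leaf ⟨5, 24, 3, 6⟩))
(.leaf ⟨5, 160, 130, 6⟩))))
(.node (.node (.node (.node (.leaf ⟨0, 161, 0, 0⟩)
(.leaf ⟨5, 33, 12, 6⟩))
(.leaf ⟨5, 6, 144, 5⟩))
(.node (.node (.leaf ⟨1, 162, 0, 0⟩)
(.leaf ⟨5, 3, 24, 7⟩))
(.leaf ⟨5, 96, 132, 4⟩)))
(.node (.node (.node (.leaf ⟨0, 224, 0, 0⟩)
(.leaf ⟨5, 36, 129, 4⟩))
(.leaf ⟨5, 36, 144, 3⟩))
(.node (.leaf ⟨2, 5, 6, 0⟩)
(.leaf ⟨5, 160, 136, 1⟩)))))
(.node (.node (.node (.node (.node (.leaf ⟨0, 69, 0, 0⟩)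
(.leaf ⟨5, 5, 192, 3⟩))
(.leaf ⟨5, 6, 130, 6⟩))
(.node (.node (.leaf ⟨1, 38, 0, 0⟩)
(.leaf ⟨5, 96, 160, 0⟩))
(.leaf ⟨5, 48, 6, 3⟩)))
(.node (.node (.node (.leaf ⟨0, 88, 0, 0⟩)
(.leaf ⟨5, 12, 129, 4⟩))
(.leaf ⟨5, 130, 144, 2⟩))
(.node (.leaf ⟨2, 3, 6, 0⟩)
(.leaf ⟨5, 160, 20, 1⟩))))
(.node (.node (.node (.node (.leaf ⟨0, 138, 0, 0⟩)
(.leaf ⟨5, 33, 160, 6⟩))
(.leaf ⟨5, 18, 132, 5⟩))
(.node (.node (.leaf ⟨1, 100, 0, 0⟩)
(.leaf ⟨5, 129, 10, 6⟩))
(.leaf ⟨5, 160, 6, 4⟩)))
(.node (.node (.node (.leaf ⟨1, 35, 0, 0⟩)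
(.leaf ⟨5, 40, 9, 6⟩))
(.leaf ⟨5, 24, 6, 6⟩))
(.node (.leaf ⟨3, 6, 6, 0⟩)
(.leaf ⟨5, 160, 160, 1⟩))))))))
(.node (.node (.node (.node (.node (.node (.node (.node (.leaf ⟨1, 7, 0, 0⟩)
(.leaf ⟨5, 5, 129, 4⟩))
(.leaf ⟨2, 6, 3, 0⟩))
(.node (.node (.leaf ⟨1, 67, 0, 0⟩)
(.leaf ⟨5, 48, 5, 7⟩))
(.leaf ⟨5, 24, 10, 6⟩)))
(.node (.node (.node (.leaf ⟨0, 146, 0, 0⟩)
(.leaf ⟨5, 129, 12, 6⟩))
(.leaf ⟨5, 34, 132, 4⟩))
(.node (.node (.leaf ⟨1, 56, 0, 0⟩)
(.leaf ⟨5, 10, 24, 0⟩))
(.leaf ⟨5, 160, 10, 4⟩))))
(.node (.node (.node (.node (.leaf ⟨0, 133, 0, 0⟩)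
(.leaf ⟨5, 9, 20, 5⟩))
(.leaf ⟨5, 6, 130, 3⟩))
(.node (.node (.leaf ⟨1, 138, 0, 0⟩)
(.leaf ⟨5, 160, 129, 3⟩))
(.leaf ⟨5, 96, 6, 7⟩)))
(.node (.node (.node (.leaf ⟨0, 168, 0, 0⟩)
(.leaf ⟨5, 20, 129, 3⟩))
(.leaf ⟨5, 20, 130, 3⟩))
(.node (.leaf ⟨3, 3, 7, 0⟩)
(.leaf ⟨5, 160, 132, 3⟩)))))
(.node (.node (.node (.node (.node (.leaf ⟨0, 19, 0, 0⟩)
(.leaf ⟨5, 5, 144, 6⟩))
(.leaf ⟨2, 7, 7, 0⟩))
(.node (.node (.leaf ⟨1, 161, 0, 0⟩)
(.leaf ⟨5, 96, 33, 4⟩))
(.leaf ⟨5, 40, 36, 6⟩)))
(.node (.node (.node (.leaf ⟨0, 148, 0, 0⟩)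
(.leaf ⟨5, 129, 144, 5⟩))
(.leaf ⟨5, 66, 144, 5⟩))
(.node (.node (.leaf ⟨1, 224, 0, 0⟩)
(.leaf ⟨5, 24, 130, 0⟩))
(.leaf ⟨5, 160, 12, 6⟩))))
(.node (.node (.node (.node (.leaf ⟨0, 22, 0, 0⟩)
(.leaf ⟨5, 33, 132, 4⟩))
(.leaf ⟨5, 10, 24, 6⟩))
(.node (.node (.leaf ⟨1, 76, 0, 0⟩)
(.leaf ⟨5, 33, 10, 7⟩))
(.leaf ⟨5, 96, 144, 1⟩)))
(.node (.node (.node (.leaf ⟨1, 21, 0, 0⟩)
(.leaf ⟨5, 132, 144, 0⟩))
(.leaf ⟨5, 36, 192, 1⟩))
(.node (.leaf ⟨4, 6, 0, 0⟩)
(.leaf ⟨5, 160, 144, 2⟩))))))
(.node (.node (.node (.node (.node (.node (.leaf ⟨1, 28, 0, 0⟩)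
(.leaf ⟨5, 5, 24, 5⟩))
(.leaf ⟨2, 6, 5, 0⟩))
(.node (.node (.leaf ⟨1, 49, 0, 0⟩)
(.leaf ⟨5, 96, 5, 7⟩))
(.leaf ⟨5, 40, 6, 7⟩)))
(.node (.node (.node (.leaf ⟨0, 44, 0, 0⟩)
(.leaf ⟨5, 129, 132, 5⟩))
(.leaf ⟨5, 34, 160, 6⟩))
(.node (.node (.leaf ⟨1, 168, 0, 0⟩)
(.leaf ⟨5, 24, 3, 7⟩))
(.leaf ⟨5, 160, 34, 3⟩))))
(.node (.node (.node (.node (.leaf ⟨0, 97, 0, 0⟩)
(.leaf ⟨5, 33, 12, 7⟩))
(.leaf ⟨5, 6, 144, 6⟩))
(.node (.node (.leaf ⟨1, 98, 0, 0⟩)
(.leaf ⟨5, 160, 160, 0⟩))
(.leaf ⟨5, 96, 10, 4⟩)))
(.node (.node (.node (.leaf ⟨0, 208, 0, 0⟩)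
(.leaf ⟨5, 36, 129, 6⟩))
(.leaf ⟨5, 36, 144, 6⟩))
(.node (.leaf ⟨3, 5, 3, 0⟩)
(.leaf ⟨5, 160, 136, 2⟩)))))
(.node (.node (.node (.node (.node (.leaf ⟨0, 73, 0, 0⟩)
(.leaf ⟨5, 5, 192, 4⟩))
(.leaf ⟨2, 7, 6, 0⟩))
(.node (.node (.leaf ⟨1, 42, 0, 0⟩)
(.leaf ⟨5, 96, 144, 0⟩))
(.leaf ⟨5, 48, 6, 6⟩)))
(.node (.node (.node (.leaf ⟨0, 56, 0, 0⟩)
(.leaf ⟨5, 12, 129, 5⟩))
(.leaf ⟨5, 130, 144, 3⟩))
(.node (.node (.leaf ⟨3, 3, 5, 0⟩)
(.leaf ⟨5, 160, 130, 0⟩))
(.leaf ⟨5, 160, 20, 3⟩))))
(.node (.node (.node (.node (.leaf ⟨0, 70, 0, 0⟩)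
(.leaf ⟨5, 33, 40, 4⟩))
(.leaf ⟨5, 18, 132, 6⟩))
(.node (.node (.leaf ⟨1, 148, 0, 0⟩)
(.leaf ⟨5, 33, 160, 1⟩))
(.leaf ⟨5, 160, 6, 6⟩)))
(.node (.node (.node (.leaf ⟨1, 37, 0, 0⟩)
(.leaf ⟨5, 40, 9, 7⟩))
(.leaf ⟨5, 24, 6, 7⟩))
(.node (.leaf ⟨2, 6, 2, 0⟩)
(.leaf ⟨5, 160, 160, 3⟩)))))))
(.node (.node (.node (.node (.node (.node (.node (.leaf ⟨0, 28, 0, 0⟩)
(.leaf ⟨5, 5, 24, 7⟩))
(.leaf ⟨2, 6, 4, 0⟩))
(.node (.node (.leaf ⟨1, 133, 0, 0⟩)
(.leaf ⟨5, 48, 5, 3⟩))
(.leaf ⟨5, 24, 130, 6⟩)))
(.node (.node (.node (.leaf ⟨0, 162, 0, 0⟩)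
(.leaf ⟨5, 129, 12, 4⟩))
(.leaf ⟨5, 34, 144, 6⟩))
(.node (.node (.leaf ⟨1, 152, 0, 0⟩)
(.leaf ⟨5, 34, 144, 0⟩))
(.leaf ⟨5, 160, 34, 6⟩))))
(.node (.node (.node (.node (.leaf ⟨0, 49, 0, 0⟩)
(.leaf ⟨5, 17, 132, 5⟩))
(.leaf ⟨5, 6, 24, 6⟩))
(.node (.node (.leaf ⟨1, 50, 0, 0⟩)
(.leaf ⟨5, 160, 132, 0⟩))
(.leaf ⟨5, 96, 6, 3⟩)))
(.node (.node (.node (.leaf ⟨0, 112, 0, 0⟩)
(.leaf ⟨5, 36, 9, 6⟩))
(.leaf ⟨5, 36, 18, 6⟩))
(.node (.leaf ⟨3, 5, 2, 0⟩)
(.leaf ⟨5, 160, 136, 6⟩)))))
(.node (.node (.node (.node (.node (.leaf ⟨0, 37, 0, 0⟩)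
(.leaf ⟨5, 5, 144, 3⟩))
(.leaf ⟨2, 7, 3, 0⟩))
(.node (.node (.leaf ⟨1, 26, 0, 0⟩)
(.leaf ⟨5, 96, 33, 2⟩))
(.leaf ⟨5, 40, 36, 1⟩)))
(.node (.node (.node (.leaf ⟨0, 164, 0, 0⟩)
(.leaf ⟨5, 129, 144, 2⟩))
(.leaf ⟨5, 130, 144, 6⟩))
(.node (.node (.leaf ⟨3, 3, 3, 0⟩)
(.leaf ⟨5, 160, 129, 1⟩))
(.leaf ⟨5, 160, 12, 1⟩))))
(.node (.node (.node (.node (.leaf ⟨0, 38, 0, 0⟩)
(.leaf ⟨5, 33, 40, 7⟩))
(.leaf ⟨5, 10, 160, 6⟩))
(.node (.node (.leaf ⟨1, 52, 0, 0⟩)
(.leaf ⟨5, 33, 10, 4⟩))
(.leaf ⟨5, 96, 160, 3⟩)))
(.node (.node (.node (.leaf ⟨1, 19, 0, 0⟩)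
(.leaf ⟨5, 40, 5, 6⟩))
(.leaf ⟨5, 132, 144, 5⟩))
(.node (.leaf ⟨4, 6, 2, 0⟩)
(.leaf ⟨5, 160, 160, 6⟩))))))
(.node (.node (.node (.node (.node (.node (.leaf ⟨0, 21, 0, 0⟩)
(.leaf ⟨5, 5, 136, 5⟩))
(.leaf ⟨2, 6, 7, 0⟩))
(.node (.node (.leaf ⟨1, 145, 0, 0⟩)
(.leaf ⟨5, 96, 5, 3⟩))
(.leaf ⟨5, 40, 6, 4⟩)))
(.node (.node (.node (.leaf ⟨0, 140, 0, 0⟩)
(.leaf ⟨5, 129, 132, 3⟩))
(.leaf ⟨5, 34, 160, 3⟩))
(.node (.node (.leaf ⟨1, 176, 0, 0⟩)
(.leaf ⟨5, 24, 3, 5⟩))
(.leaf ⟨5, 160, 130, 4⟩))))
(.node (.node (.node (.node (.leaf ⟨0, 193, 0, 0⟩)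
(.leaf ⟨5, 33, 12, 4⟩))
(.leaf ⟨5, 6, 144, 3⟩))
(.node (.node (.leaf ⟨1, 194, 0, 0⟩)
(.leaf ⟨5, 3, 24, 6⟩))
(.leaf ⟨5, 96, 132, 3⟩)))
(.node (.node (.node (.leaf ⟨1, 25, 0, 0⟩)
(.leaf ⟨5, 36, 129, 3⟩))
(.leaf ⟨5, 36, 192, 4⟩))
(.node (.leaf ⟨3, 5, 6, 0⟩)
(.leaf ⟨5, 160, 144, 6⟩)))))
(.node (.node (.node (.node (.node (.leaf ⟨0, 67, 0, 0⟩)
(.leaf ⟨5, 9, 20, 7⟩))
(.leaf ⟨5, 6, 130, 5⟩))
(.node (.node (.leaf ⟨1, 74, 0, 0⟩)
(.leaf ⟨5, 160, 129, 6⟩))
(.leaf ⟨5, 48, 12, 7⟩)))
(.node (.node (.node (.leaf ⟨0, 152, 0, 0⟩)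
(.leaf ⟨5, 20, 129, 6⟩))
(.leaf ⟨5, 20, 130, 6⟩))
(.node (.leaf ⟨3, 3, 6, 0⟩)
(.leaf ⟨5, 160, 132, 6⟩))))
(.node (.node (.node (.node (.leaf ⟨0, 134, 0, 0⟩)
(.leaf ⟨5, 33, 160, 4⟩))
(.leaf ⟨5, 18, 132, 3⟩))
(.node (.node (.leaf ⟨1, 164, 0, 0⟩)
(.leaf ⟨5, 129, 10, 5⟩))
(.leaf ⟨5, 160, 6, 3⟩)))
(.node (.node (.node (.leaf ⟨1, 73, 0, 0⟩)
(.leaf ⟨5, 40, 9, 4⟩))
(.leaf ⟨5, 24, 6, 5⟩))
(.node (.leaf ⟨3, 6, 0, 0⟩)
(.leaf ⟨5, 5, 129, 6⟩)))))))))

def g : Tr Nat := (.node (.node (.node (.node (.node (.node (.node (.node (.node (.node (.node (.leaf 1)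
(.leaf 3423223908))
(.leaf 356844))
(.node (.leaf 14227264323780)
(.leaf 2768793782)))
(.node (.node (.leaf 6254831370346)
(.leaf 187210484805165126))
(.node (.leaf 50958174291841306)
(.leaf 45572036223046))))
(.node (.node (.node (.leaf 6116520165436)
(.leaf 193092))
(.node (.leaf 239837519202065358886)
(.leaf 392)))
(.node (.node (.leaf 59405585896718486)
(.leaf 889417754))
(.node (.leaf 373126)
(.leaf 2215080053)))))
(.node (.node (.node (.node (.node (.leaf 5017713434662)
(.leaf 141))
(.leaf 150625748930699266))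
(.node (.leaf 244450334282233798712)
(.leaf 3373326598)))
(.node (.node (.leaf 41386650693812362)
(.leaf 455364))
(.node (.leaf 225618)
(.leaf 35473406979891348))))
(.node (.node (.node (.leaf 5703968374866)
(.leaf 307824))
(.node (.leaf 962793)
(.leaf 526)))
(.node (.node (.leaf 14364871033008)
(.leaf 2735362186))
(.node (.leaf 627134)
(.leaf 196718))))))
(.node (.node (.node (.node (.node (.node (.leaf 3643055038490)
(.leaf 45))
(.leaf 610816))
(.node (.leaf 53210524061548756)
(.leaf 104)))
(.node (.node (.leaf 9554038112382)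
(.leaf 815790))
(.node (.leaf 217398)
(.leaf 720))))
(.node (.node (.node (.leaf 4879703793738)
(.leaf 307804))
(.node (.leaf 195)
(.leaf 430)))
(.node (.node (.leaf 11615588622488)
(.leaf 6392438263878))
(.node (.leaf 741792)
(.leaf 590348874598559152451702)))))
(.node (.node (.node (.node (.node (.leaf 2680411971630)
(.leaf 191))
(.leaf 733742))
(.node (.leaf 244450333182487158810)
(.leaf 342)))
(.node (.node (.leaf 10241400414336)
(.leaf 176854))
(.node (.leaf 101637142874652696)
(.leaf 35504124586131556))))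
(.node (.node (.node (.leaf 6942328545376)
(.leaf 553604))
(.node (.leaf 1118479)
(.leaf 43093404065856)))
(.node (.node (.leaf 11340978602166)
(.leaf 2601087172))
(.node (.leaf 291288)
(.leaf 9898524532842)))))))
(.node (.node (.node (.node (.node (.node (.node (.leaf 4330250076162)
(.leaf 606373))
(.leaf 446968))
(.node (.leaf 11890936291536)
(.leaf 3339432144)))
(.node (.node (.leaf 8316919758966)
(.leaf 190590796502704200))
(.node (.leaf 225578)
(.leaf 25))))
(.node (.node (.node (.leaf 28998589816537158)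
(.leaf 681542438332077334566))
(.node (.leaf 239837522501371985956)
(.leaf 412)))
(.node (.node (.leaf 10653616529566)
(.leaf 1359261752))
(.node (.leaf 397716)
(.leaf 2097561804)))))
(.node (.node (.node (.node (.node (.leaf 1443394330658)
(.leaf 670))
(.leaf 154004273486209042))
(.node (.leaf 244450333182487289912)
(.leaf 1216624)))
(.node (.node (.leaf 10241400414338)
(.leaf 561868))
(.node (.leaf 402467300638682841126)
(.leaf 2440401022206016701585875044))))
(.node (.node (.node (.leaf 5429895651416)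
(.leaf 397944))
(.node (.leaf 250)
(.leaf 2199728)))
(.node (.node (.leaf 56027060636418060)
(.leaf 2164797590))
(.node (.leaf 700872)
(.leaf 14294423429192))))))
(.node (.node (.node (.node (.node (.node (.leaf 19989465879961626)
(.leaf 54))
(.leaf 147247224375050242))
(.node (.leaf 235224146945754832902)
(.leaf 5154850033898)))
(.node (.node (.leaf 10241433927818)
(.leaf 635578))
(.node (.leaf 266564)
(.leaf 10083815571))))
(.node (.node (.node (.leaf 6392438464520)
(.leaf 545382))
(.node (.leaf 930017)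
(.leaf 33886940192814)))
(.node (.node (.leaf 10516076445864)
(.leaf 1325650016))
(.node (.leaf 422318)
(.leaf 48366425715452842716906429098385552)))))
(.node (.node (.node (.node (.leaf 7491647995952)
(.leaf 741942))
(.node (.leaf 244450331532817088544)
(.leaf 6224961560)))
(.node (.node (.leaf 8454592807060)
(.leaf 842916537556628299864))
(.node (.leaf 356728)
(.leaf 2597711754927585411782430845087103062474851))))
(.node (.node (.node (.leaf 5429392457830)
(.leaf 397968))
(.node (.leaf 56589943582023942)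
(.leaf 648)))
(.node (.node (.leaf 12716106367166)
(.leaf 3339120784))
(.node (.leaf 430562)
(.leaf 606))))))))
(.node (.node (.node (.node (.node (.node (.node (.node (.leaf 9)
(.leaf 2535523))
(.leaf 815602))
(.node (.leaf 11890936291532)
(.leaf 2970202308)))
(.node (.node (.leaf 7217206394990)
(.leaf 610976))
(.node (.leaf 667940)
(.leaf 46806336184392))))
(.node (.node (.node (.leaf 6804755316790)
(.leaf 791114))
(.node (.leaf 235224146395865440320)
(.leaf 1617942)))
(.node (.node (.leaf 12165243707402)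
(.leaf 587354158))
(.node (.leaf 397710)
(.leaf 13519459516338339)))))
(.node (.node (.node (.node (.node (.leaf 5429895651364)
(.leaf 145))
(.leaf 152315011208511490))
(.node (.leaf 239837522501372076088)
(.leaf 12440960520474)))
(.node (.node (.leaf 10104163074186)
(.leaf 586440))
(.node (.leaf 856408)
(.leaf 9848717472751865059013394635))))
(.node (.node (.node (.leaf 7491144573014)
(.leaf 175946949143994424))
(.node (.leaf 16496634790068)
(.leaf 536)))
(.node (.node (.leaf 13677038731276)
(.leaf 3339407494))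
(.node (.leaf 651714)
(.leaf 580))))))
(.node (.node (.node (.node (.node (.node (.leaf 19989191002030106)
(.leaf 101))
(.leaf 596205412756411162626))
(.node (.leaf 14228338262228)
(.leaf 5292356120798)))
(.node (.node (.leaf 10241366851716)
(.leaf 668340))
(.node (.leaf 266558)
(.leaf 2961574))))
(.node (.node (.node (.leaf 6253690576904)
(.leaf 610912))
(.node (.leaf 214)
(.leaf 440)))
(.node (.node (.leaf 57715910093897888)
(.leaf 989974614))
(.node (.leaf 397736)
(.leaf 144146157127294615760)))))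
(.node (.node (.node (.node (.leaf 7492084326446)
(.leaf 791090))
(.node (.leaf 244450334282233815100)
(.leaf 364)))
(.node (.node (.leaf 10241400414350)
(.leaf 838363975717923356760))
(.node (.leaf 840050)
(.leaf 1342587062))))
(.node (.node (.node (.leaf 5979349549156)
(.leaf 160394))
(.node (.leaf 23369024348946696)
(.leaf 638)))
(.node (.node (.leaf 11340978602172)
(.leaf 2567401640))
(.node (.leaf 291294)
(.leaf 589930)))))))
(.node (.node (.node (.node (.node (.node (.node (.leaf 2680411971610)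
(.leaf 173))
(.leaf 406012))
(.node (.leaf 57152548594819280)
(.leaf 14020451614774)))
(.node (.node (.leaf 9966656741502)
(.leaf 586410))
(.node (.leaf 815408)
(.leaf 48727361548480))))
(.node (.node (.node (.leaf 5017142755400)
(.leaf 143960))
(.node (.leaf 239837519477010374694)
(.leaf 422)))
(.node (.node (.leaf 13128591745182)
(.leaf 1359015960))
(.node (.leaf 676250)
(.leaf 144145872011091304566)))))
(.node (.node (.node (.node (.node (.leaf 5704840904746)
(.leaf 663))
(.leaf 155693535764045844))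
(.node (.leaf 239837519477010317336)
(.leaf 306)))
(.node (.node (.leaf 9829251375216)
(.leaf 53970))
(.node (.leaf 99947880596938768)
(.leaf 9985031108365346390440002330831))))
(.node (.node (.node (.leaf 4604892962912)
(.leaf 397950))
(.node (.leaf 1057014)
(.leaf 598)))
(.node (.node (.leaf 13128491139250)
(.leaf 3037139080))
(.node (.leaf 430544)
(.leaf 264505592620197266407598))))))
(.node (.node (.node (.node (.node (.node (.leaf 3093098323994)
(.leaf 193))
(.leaf 148936486652887042))
(.node (.leaf 239837521951515598904)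
(.leaf 6117258359056)))
(.node (.node (.leaf 49269737284935818)
(.leaf 193214))
(.node (.leaf 815434)
(.leaf 35469009370296420))))
(.node (.node (.node (.leaf 5841642160206)
(.leaf 348780))
(.node (.leaf 53210524062445788)
(.leaf 145557962098733194)))
(.node (.node (.leaf 13127886864558)
(.leaf 6804688105582))
(.node (.leaf 422326)
(.leaf 9003694882965)))))
(.node (.node (.node (.node (.leaf 3642417586182)
(.leaf 160316))
(.node (.leaf 239837520989208076352)
(.leaf 384)))
(.node (.node (.leaf 13128323195028)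
(.leaf 1057189960))
(.node (.leaf 373120)
(.leaf 13519459549925485))))
(.node (.node (.node (.leaf 5979349549162)
(.leaf 397974))
(.node (.leaf 278)
(.leaf 656)))
(.node (.node (.leaf 14364871033026)
(.leaf 13678481600688))
(.node (.leaf 291302)
(.leaf 712)))))))))
(.node (.node (.node (.node (.node (.node (.node (.node (.node (.leaf 5)
(.leaf 11889678114926))
(.leaf 568528539596735668270))
(.node (.leaf 12578466685124)
(.leaf 3104518334)))
(.node (.node (.leaf 27872002480037998)
(.leaf 602782))
(.node (.leaf 708896)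
(.leaf 45980729401414))))
(.node (.node (.node (.leaf 5017713434688)
(.leaf 168520))
(.node (.leaf 239837522501372108864)
(.leaf 398)))
(.node (.node (.leaf 11203238207498)
(.leaf 1325649954))
(.node (.leaf 373130)
(.leaf 3300749992046)))))
(.node (.node (.node (.node (.node (.leaf 2817716789264)
(.leaf 148))
(.leaf 856604))
(.node (.leaf 244450331257872048154)
(.leaf 14502729949454)))
(.node (.node (.leaf 10103995285642)
(.leaf 602822))
(.node (.leaf 282964)
(.leaf 3300380532886))))
(.node (.node (.node (.leaf 4054935674966)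
(.leaf 175401595671453752))
(.node (.leaf 21114265738825962)
(.leaf 2158756)))
(.node (.node (.leaf 59405585896718512)
(.leaf 2970210428))
(.node (.leaf 125849902189133870)
(.leaf 196751))))))
(.node (.node (.node (.node (.node (.node (.leaf 2680445804570)
(.leaf 409725))
(.leaf 586244))
(.node (.leaf 14227398508756)
(.leaf 206)))
(.node (.node (.leaf 11891272122494)
(.leaf 103090))
(.node (.leaf 848186)
(.leaf 137))))
(.node (.node (.node (.leaf 3504944979976)
(.leaf 586334))
(.node (.leaf 198)
(.leaf 434)))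
(.node (.node (.leaf 11890567192732)
(.leaf 1560653928))
(.node (.leaf 676260)
(.leaf 29850643599106086)))))
(.node (.node (.node (.node (.leaf 5979785887790)
(.leaf 157382798041194522))
(.node (.leaf 239837519477010325530)
(.leaf 348)))
(.node (.node (.leaf 13678212595846)
(.leaf 187773709703692374))
(.node (.leaf 815470)
(.leaf 55377395578722279496))))
(.node (.node (.node (.leaf 4879837929572)
(.leaf 373384))
(.node (.leaf 23930115386741004)
(.leaf 634)))
(.node (.node (.leaf 13953393246390)
(.leaf 2634535068))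
(.node (.leaf 446938)
(.leaf 2416431209)))))))
(.node (.node (.node (.node (.node (.node (.node (.leaf 4055372226562)
(.leaf 708718))
(.leaf 430586))
(.node (.leaf 13677575471312)
(.leaf 819296)))
(.node (.node (.leaf 10103827234942)
(.leaf 782969687103905620040))
(.node (.leaf 856364)
(.leaf 48459028353060))))
(.node (.node (.node (.leaf 4329947799624)
(.leaf 184916))
(.node (.leaf 235224146395865325606)
(.leaf 1675304)))
(.node (.node (.leaf 13128390369438)
(.leaf 1057116232))
(.node (.leaf 643480)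
(.leaf 590348874595469862854811)))))
(.node (.node (.node (.node (.node (.leaf 7217072177192)
(.leaf 69))
(.leaf 160296))
(.node (.leaf 239837522501371936792)
(.leaf 304)))
(.node (.node (.leaf 9141653905520)
(.leaf 373456))
(.node (.leaf 708962)
(.leaf 212589512784932360810595))))
(.node (.node (.node (.leaf 7491211681882)
(.leaf 178217032800550966))
(.node (.leaf 254)
(.leaf 40073204871206)))
(.node (.node (.leaf 13678481842188)
(.leaf 2600947838))
(.node (.leaf 635340)
(.leaf 982305298304384249659498))))))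
(.node (.node (.node (.node (.node (.node (.leaf 3093031198746)
(.leaf 55))
(.leaf 94736))
(.node (.leaf 239837522226427043892)
(.leaf 13885378593004)))
(.node (.node (.leaf 11891204800650)
(.leaf 709308))
(.node (.leaf 91501569207992346)
(.leaf 145281062387277250666))))
(.node (.node (.node (.leaf 3779957104716)
(.leaf 332394))
(.node (.leaf 25056290238484706)
(.leaf 498)))
(.node (.node (.leaf 12028106809516)
(.leaf 1560596582))
(.node (.leaf 397746)
(.leaf 40573544192280942321403657168543887)))))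
(.node (.node (.node (.node (.leaf 7492117872688)
(.leaf 184888))
(.node (.leaf 235224143646448721958)
(.leaf 378)))
(.node (.node (.leaf 57152548594819220)
(.leaf 587296814))
(.node (.leaf 676220)
(.leaf 35474918842269814))))
(.node (.node (.node (.leaf 6392203214950)
(.leaf 602770))
(.node (.leaf 59403181520658702)
(.leaf 10890113090)))
(.node (.node (.leaf 14503216193728)
(.leaf 3339284644))
(.node (.leaf 405988)
(.leaf 626))))))))
(.node (.node (.node (.node (.node (.node (.node (.node (.leaf 2405567750146)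
(.leaf 11889678114840))
(.leaf 291318))
(.node (.leaf 13678212595916)
(.leaf 3339407564)))
(.node (.node (.leaf 8316919529590)
(.leaf 545444))
(.node (.leaf 815398)
(.leaf 688))))
(.node (.node (.node (.leaf 7217072177218)
(.leaf 168526))
(.node (.leaf 244450333182487322688)
(.leaf 406)))
(.node (.node (.leaf 11203875889162)
(.leaf 889262106))
(.node (.leaf 112335803966832662)
(.leaf 805847166)))))
(.node (.node (.node (.node (.node (.leaf 6804755316758)
(.leaf 72))
(.leaf 111138))
(.node (.leaf 235224146395865407544)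
(.leaf 294)))
(.node (.node (.leaf 10241669152906)
(.leaf 586442))
(.node (.leaf 815452)
(.leaf 55377395577950494766))))
(.node (.node (.node (.leaf 5979517517910)
(.leaf 722987925230775345216))
(.node (.leaf 57716255604277484)
(.leaf 540)))
(.node (.node (.leaf 13677709901836)
(.leaf 2064109716))
(.node (.leaf 356806)
(.leaf 3422842980))))))
(.node (.node (.node (.node (.node (.node (.leaf 4879972450330)
(.leaf 100))
(.leaf 807434))
(.node (.leaf 235224146670809817094)
(.leaf 12303454433504)))
(.node (.node (.leaf 8179581288580)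
(.leaf 160440))
(.node (.leaf 89812306930204692)
(.leaf 45843189842006))))
(.node (.node (.node (.leaf 6254294687752)
(.leaf 545380))
(.node (.leaf 897241)
(.leaf 488)))
(.node (.node (.leaf 13678212595876)
(.leaf 1325658200))
(.node (.leaf 668074)
(.leaf 144146157129677209646)))))
(.node (.node (.node (.node (.leaf 7492185014318)
(.leaf 766516))
(.node (.leaf 244450334557178830908)
(.leaf 368)))
(.node (.node (.leaf 14228271153296)
(.leaf 840609005285136785496))
(.node (.leaf 104452580004421656)
(.leaf 145309499597957374133))))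
(.node (.node (.node (.leaf 7491614449764)
(.leaf 553612))
(.node (.leaf 34070708528144646)
(.leaf 44059838603318)))
(.node (.node (.leaf 14228271153340)
(.leaf 2701668528))
(.node (.leaf 446944)
(.leaf 589998)))))))
(.node (.node (.node (.node (.node (.node (.node (.leaf 3093030936602)
(.leaf 85))
(.leaf 291326))
(.node (.leaf 13678313259216)
(.leaf 14020451647550)))
(.node (.node (.leaf 10104196391038)
(.leaf 185004))
(.node (.leaf 815410)
(.leaf 49002675159100))))
(.node (.node (.node (.leaf 4879703711818)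
(.leaf 315994))
(.node (.leaf 244450331532817113126)
(.leaf 1716268)))
(.node (.node (.leaf 12028811591846)
(.leaf 1359163448))
(.node (.leaf 373150)
(.leaf 144128142731167727779)))))
(.node (.node (.node (.node (.node (.leaf 30687852195348524)
(.leaf 23))
(.leaf 741932))
(.node (.leaf 235224146395865276442)
(.leaf 328)))
(.node (.node (.leaf 10103860797562)
(.leaf 53972))
(.node (.leaf 348520)
(.leaf 226825812290446456823918))))
(.node (.node (.node (.leaf 6803782033504)
(.leaf 463490))
(.node (.leaf 1085703)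
(.leaf 41585402548362)))
(.node (.node (.leaf 57715910093897908)
(.leaf 2600947834))
(.node (.leaf 446932)
(.leaf 2416107668))))))
(.node (.node (.node (.node (.node (.node (.leaf 4880207355942)
(.leaf 111))
(.leaf 94742))
(.node (.leaf 239837521951515459608)
(.leaf 4530938118)))
(.node (.node (.leaf 11891238502538)
(.leaf 168642))
(.node (.leaf 266574)
(.leaf 595071347755499250380899))))
(.node (.node (.node (.leaf 6942227824718)
(.leaf 332398))
(.node (.leaf 57716942362788064)
(.leaf 522)))
(.node (.node (.leaf 14503216193710)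
(.leaf 2097631388))
(.node (.leaf 782778)
(.leaf 2534314790192420922604486831)))))
(.node (.node (.node (.node (.leaf 5978980540472)
(.leaf 160320))
(.node (.leaf 239837519202065350692)
(.leaf 388)))
(.node (.node (.leaf 8867010330774)
(.leaf 990081110))
(.node (.leaf 668034)
(.leaf 13519871967420487))))
(.node (.node (.node (.leaf 5979785887850)
(.leaf 764573057811103604806))
(.node (.leaf 21677490671038744)
(.leaf 660)))
(.node (.node (.leaf 59405585896718530)
(.leaf 3339473106))
(.node (.leaf 840168)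
(.leaf 698993296551080901816523))))))))))
(.node (.node (.node (.node (.node (.node (.node (.node (.node (.node (.leaf 3)
(.leaf 41665859252486190))
(.leaf 291310))
(.node (.leaf 12165947891908)
(.leaf 2768793788)))
(.node (.node (.leaf 4879837929582)
(.leaf 586396))
(.node (.leaf 717086)
(.leaf 11157528646))))
(.node (.node (.node (.leaf 5979920187456)
(.leaf 184902))
(.node (.leaf 235224147633084457024)
(.leaf 394)))
(.node (.node (.leaf 10653482344458)
(.leaf 1325658148))
(.node (.leaf 381320)
(.leaf 1677861028)))))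
(.node (.node (.node (.node (.node (.leaf 3230570831910)
(.leaf 125))
(.leaf 94746))
(.node (.leaf 244450331257872039960)
(.leaf 11274441269510)))
(.node (.node (.leaf 11891204997258)
(.leaf 815202500626840862726))
(.node (.leaf 388628864058845118490)
(.leaf 602285))))
(.node (.node (.node (.leaf 7217072177234)
(.leaf 545392))
(.node (.leaf 979181)
(.leaf 530)))
(.node (.node (.leaf 14502310002864)
(.leaf 9829117096074))
(.node (.leaf 405952)
(.leaf 805892700))))))
(.node (.node (.node (.node (.node (.node (.leaf 4880240779290)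
(.leaf 315461))
(.leaf 94722))
(.node (.leaf 11890936291540)
(.leaf 200)))
(.node (.node (.leaf 10103793959038)
(.leaf 807600))
(.node (.leaf 864568)
(.leaf 715))))
(.node (.node (.node (.leaf 4880106668106)
(.leaf 602716))
(.node (.leaf 94)
(.leaf 432)))
(.node (.node (.leaf 10791055016092)
(.leaf 1560653922))
(.node (.leaf 422306)
(.leaf 805818477)))))
(.node (.node (.node (.node (.node (.leaf 27872002480037934)
(.leaf 0))
(.leaf 160304))
(.node (.leaf 235224144608722673690)
(.leaf 344)))
(.node (.node (.leaf 13952789176454)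
(.leaf 204098708462149718))
(.node (.leaf 856428)
(.leaf 152221112702312341578))))
(.node (.node (.node (.leaf 29559752392523876)
(.leaf 422534))
(.node (.leaf 21114265738981636)
(.leaf 632)))
(.node (.node (.leaf 13677407699126)
(.leaf 3138080934))
(.node (.leaf 132606951300735022)
(.leaf 2416431278)))))))
(.node (.node (.node (.node (.node (.node (.node (.leaf 4330183016450)
(.leaf 708707))
(.leaf 864760))
(.node (.leaf 13127886864592)
(.leaf 12990850601172)))
(.node (.node (.leaf 9829217812600)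
(.leaf 185000))
(.node (.leaf 83618345244884994)
(.leaf 47771665772568))))
(.node (.node (.node (.leaf 30687852195348550)
(.leaf 856658))
(.node (.leaf 244450334419706216484)
(.leaf 414)))
(.node (.node (.leaf 11890567192734)
(.leaf 7079733841990))
(.node (.leaf 373142)
(.leaf 590418065932909772308636)))))
(.node (.node (.node (.node (.node (.leaf 5429862096930)
(.leaf 44))
(.leaf 791078))
(.node (.leaf 235224147633084284952)
(.leaf 300)))
(.node (.node (.leaf 13265963565186)
(.leaf 381646))
(.node (.leaf 717152)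
(.leaf 3206569862924279457116334))))
(.node (.node (.node (.leaf 5567535939672)
(.leaf 373370))
(.node (.leaf 1032440)
(.leaf 38423534678042)))
(.node (.node (.leaf 13678481825804)
(.leaf 14365810757782))
(.node (.leaf 430538)
(.leaf 58549958365732963))))))
(.node (.node (.node (.node (.node (.node (.leaf 4880173801498)
(.leaf 619))
(.leaf 840206))
(.node (.leaf 235224145708502261766)
(.leaf 5842313326830)))
(.node (.node (.leaf 11204042989706)
(.leaf 803747050033569800216))
(.node (.leaf 741702)
(.leaf 35470796546023598))))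
(.node (.node (.node (.leaf 6392438489096)
(.leaf 348776))
(.node (.leaf 21677490670751966)
(.leaf 496)))
(.node (.node (.leaf 14228271153322)
(.leaf 1527033956))
(.node (.leaf 397744)
(.leaf 805847085)))))
(.node (.node (.node (.node (.leaf 7354678902832)
(.leaf 159072060319621146))
(.node (.leaf 235224143646448713764)
(.leaf 374)))
(.node (.node (.leaf 9966421819540)
(.leaf 3225963287588337533845592))
(.node (.leaf 815482)
(.leaf 595100167438991435685994))))
(.node (.node (.node (.leaf 7491211681894)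
(.leaf 184410994485772358))
(.node (.leaf 56024794806690054)
(.leaf 2633794)))
(.node (.node (.leaf 12853578875072)
(.leaf 13678481436822))
(.node (.leaf 766434)
(.leaf 622))))))))
(.node (.node (.node (.node (.node (.node (.node (.node (.leaf 11)
(.leaf 48700121558384728))
(.leaf 356852))
(.node (.leaf 13127886864588)
(.leaf 3305844938)))
(.node (.node (.leaf 8591898165252)
(.leaf 430754))
(.node (.leaf 335581523836133744642)
(.leaf 686))))
(.node (.node (.node (.leaf 4742164095034)
(.leaf 184908))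
(.node (.leaf 239837521264153092160)
(.leaf 404)))
(.node (.node (.leaf 10653482328074)
(.leaf 6804688105518))
(.node (.leaf 373136)
(.leaf 595563643574334849351786)))))
(.node (.node (.node (.node (.node (.leaf 2817817591822)
(.leaf 17))
(.leaf 766496))
(.node (.leaf 244450334419706306616)
(.leaf 81929082967806090)))
(.node (.node (.leaf 12028811755658)
(.leaf 200151322636042296))
(.node (.leaf 291162)
(.leaf 349537031206775884136548))))
(.node (.node (.node (.leaf 5292389589078)
(.leaf 143988))
(.node (.leaf 11340979532018)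
(.leaf 2183338)))
(.node (.node (.leaf 56027059965222924)
(.leaf 3339432080))
(.node (.leaf 430532)
(.leaf 702))))))
(.node (.node (.node (.node (.node (.node (.leaf 12669054364287002)
(.leaf 33))
(.leaf 815624))
(.node (.leaf 230611323343901597702)
(.leaf 1443750106)))
(.node (.node (.leaf 10241635336324)
(.leaf 176822))
(.node (.leaf 741696)
(.leaf 12165222486))))
(.node (.node (.node (.leaf 5567133483016)
(.leaf 332386))
(.node (.leaf 216)
(.leaf 30725073776686)))
(.node (.node (.leaf 13677407699108)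
(.leaf 1292087382))
(.node (.leaf 119092853077983276)
(.leaf 805847190)))))
(.node (.node (.node (.node (.leaf 3230369472558)
(.leaf 160308))
(.node (.leaf 244450333045014798396)
(.leaf 366)))
(.node (.node (.leaf 13678313259152)
(.leaf 185050))
(.node (.leaf 717172)
(.leaf 162592511776934108199844349630558313))))
(.node (.node (.node (.leaf 30686752247365732)
(.leaf 182705922869600322))
(.node (.leaf 18558722531524)
(.leaf 640)))
(.node (.node (.leaf 11615991275708)
(.leaf 2634535086))
(.node (.leaf 134296213578530862)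
(.leaf 589911)))))))
(.node (.node (.node (.node (.node (.node (.node (.leaf 2955289935898)
(.leaf 348206))
(.leaf 831996))
(.node (.leaf 13678011842768)
(.leaf 14020451721296)))
(.node (.node (.leaf 10104095703166)
(.leaf 785280034812526764104))
(.node (.leaf 85307607522803714)
(.leaf 11929370680))))
(.node (.node (.node (.leaf 7217206394952)
(.leaf 690768062718635843622))
(.node (.leaf 244450331395344605222)
(.leaf 424)))
(.node (.node (.leaf 13127685587110)
(.leaf 1526779926))
(.node (.leaf 422300)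
(.leaf 3300632481892)))))
(.node (.node (.node (.node (.node (.leaf 28998589816537132)
(.leaf 441))
(.leaf 184876))
(.node (.leaf 244450331395344547864)
(.leaf 308)))
(.node (.node (.leaf 8454592807034)
(.leaf 831365925188373880840))
(.node (.leaf 692582)
(.leaf 595156540091115894538346))))
(.node (.node (.node (.leaf 7216233111648)
(.leaf 373376))
(.node (.leaf 1069315)
(.leaf 41172949704742)))
(.node (.node (.leaf 13265023828148)
(.leaf 2970030202))
(.node (.leaf 668114)
(.leaf 2416107625))))))
(.node (.node (.node (.node (.node (.node (.leaf 3230537015328)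
(.leaf 211))
(.leaf 856596))
(.node (.leaf 239837520851735535672)
(.leaf 5707928764680)))
(.node (.node (.leaf 9829150867594)
(.leaf 185024))
(.node (.leaf 864588)
(.leaf 7561256558664))))
(.node (.node (.node (.leaf 5842145607758)
(.leaf 610924))
(.node (.leaf 50394949359595744)
(.leaf 520)))
(.node (.node (.leaf 14228338262190)
(.leaf 7079733842030))
(.node (.leaf 397752)
(.leaf 805757078)))))
(.node (.node (.node (.node (.leaf 4192777568262)
(.leaf 176702))
(.node (.leaf 239837522226426970148)
(.leaf 1552398)))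
(.node (.node (.leaf 14228338262164)
(.leaf 1057173588))
(.node (.leaf 107831104559398926)
(.leaf 13519459382079560))))
(.node (.node (.node (.leaf 5704404582506)
(.leaf 504472))
(.node (.leaf 1151255)
(.leaf 2666566)))
(.node (.node (.leaf 58842360561893570)
(.leaf 3339473102))
(.node (.leaf 559302915210177183790)
(.leaf 714)))))))))
(.node (.node (.node (.node (.node (.node (.node (.node (.node (.leaf 7)
(.leaf 20277616141762623))
(.leaf 856560))
(.node (.leaf 13540740088010)
(.leaf 3138080960)))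
(.node (.node (.leaf 28998589816537198)
(.leaf 771428647221892669510))
(.node (.leaf 209186)
(.leaf 46530956177480))))
(.node (.node (.node (.leaf 18863290524557362)
(.leaf 164139847152345126))
(.node (.leaf 244450334419706339392)
(.leaf 400)))
(.node (.node (.leaf 12440121671690)
(.leaf 7079733841964))
(.node (.leaf 676236)
(.leaf 55375706178921836644)))))
(.node (.node (.node (.node (.node (.leaf 3230537015326)
(.leaf 140))
(.leaf 840222))
(.node (.leaf 235224147633084424248)
(.leaf 6117258359068)))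
(.node (.node (.leaf 11891305676938)
(.leaf 199587272902574086))
(.node (.leaf 815446)
(.leaf 221378949332016029900))))
(.node (.node (.node (.leaf 27307815106322518)
(.leaf 586354))
(.node (.leaf 23930115386659054)
(.leaf 532)))
(.node (.node (.leaf 12577594130444)
(.leaf 2064109690))
(.node (.leaf 446914)
(.leaf 48))))))
(.node (.node (.node (.node (.node (.node (.leaf 2955323727898)
(.leaf 77))
(.leaf 545286))
(.node (.leaf 58279273135964372)
(.leaf 210)))
(.node (.node (.leaf 10104095965310)
(.leaf 193983480726601730))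
(.node (.leaf 790844)
(.leaf 2953601))))
(.node (.node (.node (.leaf 5566529372168)
(.leaf 170333808838090758))
(.node (.leaf 95)
(.leaf 438)))
(.node (.node (.leaf 12028106809504)
(.leaf 922841164))
(.node (.leaf 422310)
(.leaf 29850643598557320)))))
(.node (.node (.node (.node (.leaf 7217206394926)
(.leaf 176690))
(.node (.leaf 244450331395344556058)
(.leaf 23988886110246)))
(.node (.node (.leaf 13953393246342)
(.leaf 291544))
(.node (.leaf 856432)
(.leaf 145404632504082137236))))
(.node (.node (.node (.leaf 29560851904135268)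
(.leaf 182158644782055490))
(.node (.leaf 25056290238599440)
(.leaf 2576438)))
(.node (.node (.leaf 13540102963386)
(.leaf 3339407524))
(.node (.leaf 405980)
(.leaf 589949)))))))
(.node (.node (.node (.node (.node (.node (.node (.leaf 1993251053570)
(.leaf 708774))
(.leaf 848378))
(.node (.leaf 14364770394320)
(.leaf 14020451704908)))
(.node (.node (.leaf 10103793672318)
(.leaf 185002))
(.node (.leaf 225582)
(.leaf 2896181))))
(.node (.node (.node (.leaf 5979349549128)
(.leaf 815702))
(.node (.leaf 239837521264152977446)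
(.leaf 418)))
(.node (.node (.leaf 13128491057310)
(.leaf 208911))
(.node (.leaf 469353077441231831062)
(.leaf 590421506955567367307320)))))
(.node (.node (.node (.node (.node (.leaf 2680378466346)
(.leaf 87))
(.leaf 741930))
(.node (.leaf 244450334419706167320)
(.leaf 1233040)))
(.node (.node (.leaf 9141586788464)
(.leaf 202429792115507208))
(.node (.leaf 668004)
(.leaf 2437761180173719530182451408))))
(.node (.node (.node (.leaf 29559477447532640)
(.leaf 545404))
(.node (.leaf 1048820)
(.leaf 594)))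
(.node (.node (.leaf 10791021461682)
(.leaf 2735165578))
(.node (.leaf 717262)
(.leaf 2416107646))))))
(.node (.node (.node (.node (.node (.node (.leaf 4880240926746)
(.leaf 149))
(.leaf 815634))
(.node (.leaf 235224142821613625370)
(.leaf 5842313326860)))
(.node (.node (.leaf 40260063625003146)
(.leaf 806054582305061339160))
(.node (.leaf 856392)
(.leaf 595071270628888489836717))))
(.node (.node (.node (.leaf 6804755316812)
(.leaf 173712333393584184))
(.node (.leaf 27308986190389466)
(.leaf 34436830265390)))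
(.node (.node (.leaf 10791055016110)
(.leaf 1527058538))
(.node (.leaf 283060)
(.leaf 196740)))))
(.node (.node (.node (.node (.leaf 3092930510896)
(.leaf 823866))
(.node (.leaf 239837522226427093056)
(.leaf 382)))
(.node (.node (.leaf 13128323162260)
(.leaf 620884016))
(.node (.leaf 381310)
(.leaf 13519459499561065))))
(.node (.node (.node (.leaf 4879837929578)
(.leaf 422548))
(.node (.leaf 276)
(.leaf 654)))
(.node (.node (.leaf 58842360125522114)
(.leaf 3339284650))
(.node (.leaf 741860)
(.leaf 682))))))))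
(.node (.node (.node (.node (.node (.node (.node (.node (.leaf 2543140929538)
(.leaf 2902753446))
(.leaf 577754163983294201902))
(.node (.leaf 11890936242384)
(.leaf 13953258934480)))
(.node (.node (.leaf 7629757792374)
(.leaf 184998))
(.node (.leaf 807208)
(.leaf 689))))
(.node (.node (.node (.leaf 5017713434692)
(.leaf 741968))
(.node (.leaf 235224147633084334116)
(.leaf 27975555203094)))
(.node (.node (.leaf 10654053056522)
(.leaf 1023627336))
(.node (.leaf 782738)
(.leaf 144241608617919660137)))))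
(.node (.node (.node (.node (.node (.leaf 3230537015324)
(.leaf 658))
(.leaf 86564))
(.node (.leaf 239837521264153059384)
(.leaf 296)))
(.node (.node (.leaf 12165981446268)
(.leaf 200715097424511036))
(.node (.leaf 258398)
(.leaf 2437714695510178517394022547))))
(.node (.node (.node (.leaf 30687852195348566)
(.leaf 553590))
(.node (.leaf 4144976115)
(.leaf 542)))
(.node (.node (.leaf 13677709926412)
(.leaf 13953258934420))
(.node (.leaf 127539164467388462)
(.leaf 40535559857029191))))))
(.node (.node (.node (.node (.node (.node (.leaf 3092729184282)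
(.leaf 22))
(.leaf 94732))
(.node (.leaf 235224145158612230150)
(.leaf 3557703904)))
(.node (.node (.leaf 10103994949770)
(.leaf 195672743004381208))
(.node (.leaf 790850)
(.leaf 35473406980030676))))
(.node (.node (.node (.leaf 26183427128844296)
(.leaf 172023071115878452))
(.node (.leaf 913629)
(.leaf 490)))
(.node (.node (.leaf 13953393246372)
(.leaf 1359261784))
(.node (.leaf 422316)
(.leaf 805847139)))))
(.node (.node (.node (.node (.leaf 3092997316656)
(.leaf 86582))
(.node (.leaf 244450331532817080350)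
(.leaf 370)))
(.node (.node (.leaf 10241400414354)
(.leaf 185052))
(.node (.leaf 856438)
(.leaf 8659879096430))))
(.node (.node (.node (.leaf 6254730707044)
(.leaf 422542))
(.node (.leaf 43642094720442630)
(.leaf 646)))
(.node (.node (.leaf 13265023828158)
(.leaf 3070701692))
(.node (.leaf 791008)
(.leaf 144)))))))
(.node (.node (.node (.node (.node (.node (.node (.leaf 3093098070042)
(.leaf 109))
(.leaf 709118))
(.node (.leaf 14503216193744)
(.leaf 98)))
(.node (.node (.leaf 11891104178302)
(.leaf 602796))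
(.node (.leaf 807220)
(.leaf 718))))
(.node (.node (.node (.leaf 7491211681866)
(.leaf 610906))
(.node (.leaf 92)
(.leaf 428)))
(.node (.node (.leaf 12853578875046)
(.leaf 1526927414))
(.node (.leaf 116277415948337192)
(.leaf 144128142731167727772)))))
(.node (.node (.node (.node (.node (.leaf 2405802450990)
(.leaf 123))
(.leaf 176686))
(.node (.leaf 239837521264152928282)
(.leaf 330)))
(.node (.node (.leaf 10103827234938)
(.leaf 203533421476732936))
(.node (.leaf 307562)
(.leaf 35469009369841770))))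
(.node (.node (.node (.leaf 5429862096992)
(.leaf 739202590748067717174))
(.node (.leaf 1102091)
(.leaf 10486456376)))
(.node (.node (.leaf 13815920738484)
(.leaf 2735321262))
(.node (.leaf 430550)
(.leaf 589870))))))
(.node (.node (.node (.node (.node (.node (.leaf 3093064753190)
(.leaf 208))
(.leaf 815640))
(.node (.leaf 239837518927153848346)
(.leaf 10655831744774)))
(.node (.node (.leaf 48706787298001034)
(.leaf 198488180134027300))
(.node (.leaf 831824)
(.leaf 53170913923583001055))))
(.node (.node (.node (.leaf 28435639997734990)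
(.leaf 586350))
(.node (.leaf 230)
(.leaf 2142360)))
(.node (.node (.leaf 11066033586352)
(.leaf 1862733942))
(.node (.leaf 446908)
(.leaf 9004097556688)))))
(.node (.node (.node (.node (.leaf 5567535939640)
(.leaf 832066))
(.node (.leaf 239837520989207961638)
(.leaf 390)))
(.node (.node (.leaf 58842360863309974)
(.leaf 486633558))
(.node (.leaf 381316)
(.leaf 9071776751736))))
(.node (.node (.node (.leaf 6254563106922)
(.leaf 553626))
(.node (.leaf 25056290238705948)
(.leaf 662)))
(.node (.node (.leaf 10653549420740)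
(.leaf 2634526898))
(.node (.leaf 815594)
(.leaf 48700121558638803)))))))))))

def h : Tr Nat := (.node (.node (.node (.node (.node (.node (.node (.node (.node (.node (.node (.leaf 0)
(.leaf 1016098464398102293889610429742137080535253778))
(.leaf 0))
(.node (.leaf 0)
(.leaf 64693075970)))
(.node (.node (.leaf 0)
(.leaf 0))
(.node (.leaf 0)
(.leaf 46056431265772667775))))
(.node (.node (.node (.leaf 0)
(.leaf 0))
(.node (.leaf 0)
(.leaf 120802050386)))
(.node (.node (.leaf 0)
(.leaf 4563664899))
(.node (.leaf 0)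
(.leaf 3961913921224237800670145066385802131)))))
(.node (.node (.node (.node (.node (.leaf 0)
(.leaf 3346982040312794881061028892))
(.leaf 0))
(.node (.leaf 0)
(.leaf 27169125926870778219)))
(.node (.node (.leaf 0)
(.leaf 0))
(.node (.leaf 0)
(.leaf 34875554682932668184291583232991947012915552642439256287259889305919655391508199434041615219724848279924860519305))))
(.node (.node (.node (.leaf 0)
(.leaf 0))
(.node (.leaf 0)
(.leaf 144431710995)))
(.node (.node (.leaf 0)
(.leaf 41339584517))
(.node (.leaf 0)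
(.leaf 2221587797904640358136597950153684561563621822280702181698552005165869930539415579390247132198319452819498090056201721824982246224074553120548750354259755715445666030717415274013295172282366956236141831759028944511954020562544164685402811627009140230390545))))))
(.node (.node (.node (.node (.node (.node (.leaf 0)
(.leaf 343981779256940126017475854661895444878263939392563301366201517638972306585726127042091984075956538671737296291272991764661697469350374351682619550387925189362266426979900281374196684306760817764691520938341349618543857006391447706085670535591678752448459905936484167779300))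
(.leaf 0))
(.node (.leaf 0)
(.leaf 52099241468552347986)))
(.node (.node (.leaf 0)
(.leaf 0))
(.node (.leaf 0)
(.leaf 183347380560))))
(.node (.node (.node (.leaf 0)
(.leaf 0))
(.node (.leaf 0)
(.leaf 126976721681)))
(.node (.node (.leaf 0)
(.leaf 23622713348))
(.node (.leaf 0)
(.leaf 30234101932692135647904580735980217907338135242455503379497297)))))
(.node (.node (.node (.node (.node (.leaf 0)
(.leaf 128609420334))
(.leaf 0))
(.node (.leaf 0)
(.leaf 112755933970)))
(.node (.node (.leaf 0)
(.leaf 0))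
(.node (.leaf 0)
(.leaf 2633110491597375099669886592302761263807147205235602786535232508158478876268016904509969120251410616735075849141326053716))))
(.node (.node (.node (.leaf 0)
(.leaf 0))
(.node (.leaf 0)
(.leaf 44322052809484993338)))
(.node (.node (.leaf 0)
(.leaf 53687615493))
(.node (.leaf 0)
(.leaf 7980604967211460333696470288005946364249969180140876858822944620675409)))))))
(.node (.node (.node (.node (.node (.node (.node (.leaf 0)
(.leaf 20106021774832418195867362993353366088461811061342265914029789037488651675311294788188002692520621650445307749613883761693317176078632762323528912666542821083657873370444716651645779918417426810669701268371))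
(.leaf 0))
(.node (.leaf 0)
(.leaf 72746663942)))
(.node (.node (.leaf 0)
(.leaf 0))
(.node (.leaf 0)
(.leaf 176944055176))))
(.node (.node (.node (.leaf 0)
(.leaf 0))
(.node (.leaf 0)
(.leaf 124023931665)))
(.node (.node (.leaf 0)
(.leaf 17180262404))
(.node (.leaf 0)
(.leaf 15451298741504222522807097164237335304333284102026956217004657235560233775264132613278272687665027122958800275597209218388387300701738137770393885688398160)))))
(.node (.node (.node (.node (.node (.leaf 0)
(.leaf 172613633059))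
(.leaf 0))
(.node (.leaf 0)
(.leaf 7622461523190759572469972993)))
(.node (.node (.leaf 0)
(.leaf 0))
(.node (.leaf 0)
(.leaf 13698825505085770174775163847026749731587405851661450381567596457100179))))
(.node (.node (.node (.leaf 0)
(.leaf 0))
(.node (.leaf 0)
(.leaf 10621759262605839571838042113)))
(.node (.node (.leaf 0)
(.leaf 51271303170))
(.node (.leaf 0)
(.leaf 27129628912940158420049028598949746345776524913857430633109815603241581358817854480594950882065))))))
(.node (.node (.node (.node (.node (.node (.leaf 0)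
(.leaf 1335098031805123307552048151))
(.leaf 0))
(.node (.leaf 0)
(.leaf 95309594976)))
(.node (.node (.leaf 0)
(.leaf 0))
(.node (.leaf 0)
(.leaf 59761514939202303643129649875055335748503548134306713784812435))))
(.node (.node (.node (.leaf 0)
(.leaf 0))
(.node (.leaf 0)
(.leaf 37118263738321273687)))
(.node (.node (.leaf 0)
(.leaf 30065033219))
(.node (.leaf 0)
(.leaf 2323149479924580793636644799532415148488451160525309969033780332097066648011540)))))
(.node (.node (.node (.node (.leaf 0)
(.leaf 0))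
(.node (.leaf 0)
(.leaf 31639775520515621687)))
(.node (.node (.leaf 0)
(.leaf 0))
(.node (.leaf 0)
(.leaf 1357942158000713162386144609101959512066073268162574147171654559235204669321995410407760))))
(.node (.node (.node (.leaf 0)
(.leaf 0))
(.node (.leaf 0)
(.leaf 168314995024)))
(.node (.node (.leaf 0)
(.leaf 61472374790))
(.node (.leaf 0)
(.leaf 159728468984))))))))
(.node (.node (.node (.node (.node (.node (.node (.node (.leaf 0)
(.leaf 4422911169890332166261615004056475946227561207809208407049030464681058991210836))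
(.leaf 0))
(.node (.leaf 0)
(.leaf 69256871941)))
(.node (.node (.leaf 0)
(.leaf 0))
(.node (.leaf 0)
(.leaf 47134410047887442778))))
(.node (.node (.node (.leaf 0)
(.leaf 0))
(.node (.leaf 0)
(.leaf 8802864251268298318012350466)))
(.node (.node (.leaf 0)
(.leaf 12884901889))
(.node (.leaf 0)
(.leaf 1388898052792435881547101720011100154002314071052378652929571964162406566959083726353730885498378820759882863053479138132939715688738671600998726875100368230401191332276205757522979910383577924965114480081537925904)))))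
(.node (.node (.node (.node (.node (.leaf 0)
(.leaf 2727993134374953694108845089))
(.leaf 0))
(.node (.leaf 0)
(.leaf 103365804413)))
(.node (.node (.leaf 0)
(.leaf 0))
(.node (.leaf 0)
(.leaf 14100743251286279592836248683392726380680625645479910302920270005338898))))
(.node (.node (.node (.leaf 0)
(.leaf 0))
(.node (.leaf 0)
(.leaf 146041930514)))
(.node (.node (.leaf 0)
(.leaf 48050601990))
(.node (.leaf 0)
(.leaf 154890339300))))))
(.node (.node (.node (.node (.node (.node (.leaf 0)
(.leaf 1838011172764844229137269780))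
(.leaf 0))
(.node (.leaf 0)
(.leaf 92892627285)))
(.node (.node (.leaf 0)
(.leaf 0))
(.node (.leaf 0)
(.leaf 13309711372448517921716961284))))
(.node (.node (.node (.leaf 0)
(.leaf 0))
(.node (.leaf 0)
(.leaf 128318505744)))
(.node (.node (.leaf 0)
(.leaf 26575110145))
(.node (.leaf 0)
(.leaf 236757486553698110278470185890141402486050407384324286022997459980293546100737489265567004525415072582455232016936064157407536926203875475811554265905919700810559739861791587900926672458423978838737723523098935632)))))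
(.node (.node (.node (.node (.leaf 0)
(.leaf 0))
(.node (.leaf 0)
(.leaf 116514685716)))
(.node (.node (.leaf 0)
(.leaf 0))
(.node (.leaf 0)
(.leaf 15127033790561188228041736978))))
(.node (.node (.node (.leaf 0)
(.leaf 0))
(.node (.leaf 0)
(.leaf 166704775952)))
(.node (.node (.leaf 0)
(.leaf 58250625026))
(.node (.leaf 0)
(.leaf 140872070325514899187818888513161206480141657705313205171850633614876067163585203609824879801339147500403471906685973586273567789105177052600723638840465794246609506098232285808017061052753)))))))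
(.node (.node (.node (.node (.node (.node (.node (.leaf 0)
(.leaf 74654552819108021154))
(.leaf 0))
(.node (.leaf 0)
(.leaf 20176267069450616835)))
(.node (.node (.leaf 0)
(.leaf 0))
(.node (.leaf 0)
(.leaf 181462630403))))
(.node (.node (.node (.leaf 0)
(.leaf 0))
(.node (.leaf 0)
(.leaf 125634544401)))
(.node (.node (.leaf 0)
(.leaf 22548971524))
(.node (.leaf 0)
(.leaf 8221781895296189916410633510164132718082483031583291852851231120366276775748894922484319572902652634225031726882801961001800734547192046016849751291181840367556462623774986593636639870612465394154279122074446050976354460944140251476479922610569552)))))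
(.node (.node (.node (.node (.node (.leaf 0)
(.leaf 17351089012791164798632002600))
(.leaf 0))
(.node (.leaf 0)
(.leaf 107118789394)))
(.node (.node (.leaf 0)
(.leaf 0))
(.node (.leaf 0)
(.leaf 111610983812169167897187236013394991391560617089295306410960514167812625480170787669996596232529))))
(.node (.node (.node (.leaf 0)
(.leaf 0))
(.node (.leaf 0)
(.leaf 157853090578)))
(.node (.node (.leaf 0)
(.leaf 52613873669))
(.node (.leaf 0)
(.leaf 2128015346205348109391086719570353778573195132531671756600656929134553151374096))))))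
(.node (.node (.node (.node (.node (.node (.leaf 0)
(.leaf 14430725614300124296437302300))
(.leaf 0))
(.node (.leaf 0)
(.leaf 99874308457)))
(.node (.node (.leaf 0)
(.leaf 0))
(.node (.leaf 0)
(.leaf 40670326520075418000331768264664909935147584864563785932216234310273036259217753303686824359633957575055516737366592996660791387242297888147054324942249875297603945234963375471965549253897793635092))))
(.node (.node (.node (.leaf 0)
(.leaf 0))
(.node (.leaf 0)
(.leaf 143076098049)))
(.node (.node (.leaf 0)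
(.leaf 35165306883))
(.node (.leaf 0)
(.leaf 11107434846392990969228448269659244879507795505562044607553896965145885552867335650491546987465619687558552706946880608077987643494225320700108786099297285547950866)))))
(.node (.node (.node (.node (.leaf 0)
(.leaf 0))
(.node (.leaf 0)
(.leaf 119459742032)))
(.node (.node (.leaf 0)
(.leaf 2415919105))
(.node (.leaf 0)
(.leaf 7211570996339304005769078976402874546925496088416838970513453986726858863429967910827655765350088072242437470778660812305094430854623065228784975622452679190821801413226792511388841448039722902050183600564294588574648042412314707790531042885501843))))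
(.node (.node (.node (.leaf 0)
(.leaf 0))
(.node (.leaf 0)
(.leaf 169926001424)))
(.node (.node (.leaf 0)
(.leaf 62546116614))
(.node (.leaf 0)
(.leaf 181740176376)))))))))
(.node (.node (.node (.node (.node (.node (.node (.node (.node (.leaf 0)
(.leaf 877331013087834074904135950251085868149277067688874128153627064439243223788869788989088161603492654466176854774552064632585388817))
(.leaf 0))
(.node (.leaf 0)
(.leaf 66841083910)))
(.node (.node (.leaf 0)
(.leaf 0))
(.node (.leaf 0)
(.leaf 46412813759103173460))))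
(.node (.node (.node (.leaf 0)
(.leaf 0))
(.node (.leaf 0)
(.leaf 121607619344)))
(.node (.node (.leaf 0)
(.leaf 11274551299))
(.node (.leaf 0)
(.leaf 2929939160408114748880190584824261969086039706117140370112903610892808828469603047890622953093367198385687599266551256197037228835357388084731417737613129995115725697888059324756353608330119025755219519116221610862273807278852408167207064556403865996982242557229798384758015620087363111589611237266126646760238491551799054264887037745066491367855249307147518384196134320562570137793611196477910331236614734622112801302352426526060389634907984025346837975679189477550819115913)))))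
(.node (.node (.node (.node (.node (.leaf 0)
(.leaf 429304322901176972883646463375478530113668126))
(.leaf 0))
(.node (.leaf 0)
(.leaf 101753618795)))
(.node (.node (.leaf 0)
(.leaf 0))
(.node (.leaf 0)
(.leaf 466993312893574030981674344049059081606726419))))
(.node (.node (.node (.leaf 0)
(.leaf 0))
(.node (.leaf 0)
(.leaf 10466960088864780745290285057)))
(.node (.node (.leaf 0)
(.leaf 45097680901))
(.node (.leaf 0)
(.leaf 5726223564407092545462984927127590902034680699173649576746090345446842117694305151153164871516012571734328689671305053930592367927161665918993790382034602259638363357441420987456324234238059377238169903433629524478257215842949767577350936766939633232708368))))))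
(.node (.node (.node (.node (.node (.node (.leaf 0)
(.leaf 717499664603561356497959808627409203489518267671986113305340111618643429867523511867878265665905437056457322950139726666485769935788966929))
(.leaf 0))
(.node (.leaf 0)
(.leaf 55199582784716210962)))
(.node (.node (.leaf 0)
(.leaf 0))
(.node (.leaf 0)
(.leaf 182851339154))))
(.node (.node (.node (.leaf 0)
(.leaf 0))
(.node (.leaf 0)
(.leaf 127513199376)))
(.node (.node (.leaf 0)
(.leaf 24159584260))
(.node (.leaf 0)
(.leaf 566012337464265000070457021138731923)))))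
(.node (.node (.node (.node (.leaf 0)
(.leaf 0))
(.node (.leaf 0)
(.leaf 113561240338)))
(.node (.node (.leaf 0)
(.leaf 0))
(.node (.leaf 0)
(.leaf 75143332769002786505792717405574664374661835897710616111577448928074586024915716164842166062019942675846538575693427849152891210107217993281501827844156573067846130888096123446349774801337729528922117330730726828064668473975969290726051887188678652798632580477810179899462232897241053867461018290174513191845860124592256368376334186019807919436546215765168742042634094321456813103560679904204010061053751929632260883))))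
(.node (.node (.node (.leaf 0)
(.leaf 0))
(.node (.leaf 0)
(.leaf 165899075920)))
(.node (.node (.leaf 0)
(.leaf 56371576834))
(.node (.leaf 0)
(.leaf 82662826203761697889920296730620382268051395154306975915939335090881393637515041706109336140445952365454222058261533540584143127057317298079465515205015343913700882491947749160606334190899179994212551566103007647459979648189302842283078161017730176975295522329221973545995198878423992544687260176524388219587510072489607989820465188302201059243898815337057137197971)))))))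
(.node (.node (.node (.node (.node (.node (.node (.leaf 0)
(.leaf 19341389387903564030283354153800884543459425969571049114555556219335187841286921706909056607019851355876255876366214427425238034452653935535863313795384390998270751023098341004638377835324768361904768287625))
(.leaf 0))
(.node (.leaf 0)
(.leaf 1443471203294769576195765680180822019)))
(.node (.node (.leaf 0)
(.leaf 0))
(.node (.leaf 0)
(.leaf 180389150725))))
(.node (.node (.node (.leaf 0)
(.leaf 0))
(.node (.leaf 0)
(.leaf 8977015682856156950645833730)))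
(.node (.node (.leaf 0)
(.leaf 20132659201))
(.node (.leaf 0)
(.leaf 3879075635050962296634883778681849622453011050227113774768343624388103041581393)))))
(.node (.node (.node (.node (.node (.leaf 0)
(.leaf 519352663126673520924539842355790886))
(.leaf 0))
(.node (.leaf 0)
(.leaf 106581918482)))
(.node (.node (.leaf 0)
(.leaf 0))
(.node (.leaf 0)
(.leaf 233351786045029232935901481164726635328009941551918547694100454884808071789682103502492029759682239428593874901923034177751391189071692116))))
(.node (.node (.node (.leaf 0)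
(.leaf 0))
(.node (.leaf 0)
(.leaf 155693088773)))
(.node (.node (.leaf 0)
(.leaf 52077002757))
(.node (.leaf 0)
(.leaf 370814887795608953556162790814021012273234825))))))
(.node (.node (.node (.node (.node (.node (.leaf 0)
(.leaf 50801026252141823001))
(.leaf 0))
(.node (.leaf 0)
(.leaf 96381764371)))
(.node (.node (.leaf 0)
(.leaf 0))
(.node (.leaf 0)
(.leaf 71106348245172713904250705986981421895557482888561545))))
(.node (.node (.node (.leaf 0)
(.leaf 0))
(.node (.leaf 0)
(.leaf 138794173202)))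
(.node (.node (.leaf 0)
(.leaf 33017954308))
(.node (.leaf 0)
(.leaf 80986167849726134803951308749853253915486887342357594067249338427288082510007340592098728898202435410853017115154524471866321583675212007970702227)))))
(.node (.node (.node (.node (.leaf 0)
(.leaf 0))
(.node (.leaf 0)
(.leaf 118661514002)))
(.node (.node (.leaf 0)
(.leaf 1879048193))
(.node (.leaf 0)
(.leaf 148252379838930716858023084892813849988732227617125461357691941658609849782574289956915954221687659622166624723429419414430255258435235144492415483656808119712673625154451373580366287060474112235177970238002045388012556774188094024109983681244309927075262469672606277058462874907716319790338179088068267681752919158900785489))))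
(.node (.node (.node (.leaf 0)
(.leaf 0))
(.node (.leaf 0)
(.leaf 45403620412035170309)))
(.node (.node (.leaf 0)
(.leaf 62009245702))
(.node (.leaf 0)
(.leaf 164291871736))))))))
(.node (.node (.node (.node (.node (.node (.node (.node (.leaf 0)
(.leaf 717239913981736562839508428407130200887983053312405077242866069701690179831378792827061230068220415064185318925627906546992247859398918524597965300923860344844309818835728))
(.leaf 0))
(.node (.leaf 0)
(.leaf 70599180294)))
(.node (.node (.leaf 0)
(.leaf 0))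
(.node (.leaf 0)
(.leaf 176643440979))))
(.node (.node (.node (.leaf 0)
(.leaf 0))
(.node (.leaf 0)
(.leaf 122949402960)))
(.node (.node (.leaf 0)
(.leaf 16374824963))
(.node (.leaf 0)
(.leaf 3834740543641677746915360548087182074708138485400343132131978479514523870287230217565551920294699043438685992836976402582266885851095177017831221949682747006484605970675370270470117288721352111357377492030014226772)))))
(.node (.node (.node (.node (.node (.leaf 0)
(.leaf 17911652802549447745592886306))
(.leaf 0))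
(.node (.leaf 0)
(.leaf 104971305746)))
(.node (.node (.leaf 0)
(.leaf 0))
(.node (.leaf 0)
(.leaf 161170656137413575928037487608511145446606869796962063849932256661768980726671504843017930021434324381496052633380028891340799836366397064036672593559222925807313930787273164472316504303591663328468940665890277411238586010542273207567221244889758311595720860633855892783604534521909672009035457408938622618678271304246745052770777574391421822468439850615689))))
(.node (.node (.node (.leaf 0)
(.leaf 0))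
(.node (.leaf 0)
(.leaf 146847892244)))
(.node (.node (.leaf 0)
(.leaf 49660690434))
(.node (.leaf 0)
(.leaf 77638995144426775401923174485328724940408014492471031754326352))))))
(.node (.node (.node (.node (.node (.node (.leaf 0)
(.leaf 34910076376080657140065776839561024342103285728431454209916816118194142971953849951324870766409851084759726752530))
(.leaf 0))
(.node (.leaf 0)
(.leaf 93966500182)))
(.node (.node (.leaf 0)
(.leaf 0))
(.node (.leaf 0)
(.leaf 185517278035))))
(.node (.node (.node (.leaf 0)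
(.leaf 0))
(.node (.leaf 0)
(.leaf 137183953683)))
(.node (.node (.leaf 0)
(.leaf 28185985027))
(.node (.leaf 0)
(.leaf 14759279553885656228324377362)))))
(.node (.node (.node (.node (.leaf 0)
(.leaf 0))
(.node (.leaf 0)
(.leaf 117051556628)))
(.node (.node (.leaf 0)
(.leaf 0))
(.node (.leaf 0)
(.leaf 40316704367347566473938561832070672354407565362794425796839124323712006211711980905174557523253299512211))))
(.node (.node (.node (.leaf 0)
(.leaf 0))
(.node (.leaf 0)
(.leaf 44975180324424975221)))
(.node (.node (.leaf 0)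
(.leaf 60129673218))
(.node (.leaf 0)
(.leaf 8491043177045897075655240197686980472471663516739776329336577248589595019721088646335515579005934173967690078649706954973516854801302464639627013181072570419256808795914407187060874971180381480104441023876236627456620745982681985970812733265358373705586734570068663964543619729896100659984)))))))
(.node (.node (.node (.node (.node (.node (.node (.leaf 0)
(.leaf 51173456844028241065035100388721715623511226579955799133913090514093784298463060695875222662913508089443097024959705970492643329162953626461541618354110755631609007362559769256582575794448694182673))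
(.leaf 0))
(.node (.leaf 0)
(.leaf 20320382257526472707)))
(.node (.node (.leaf 0)
(.leaf 0))
(.node (.leaf 0)
(.leaf 182558458673))))
(.node (.node (.node (.leaf 0)
(.leaf 0))
(.node (.leaf 0)
(.leaf 9093119785492396346955661314)))
(.node (.node (.leaf 0)
(.leaf 23085842436))
(.node (.leaf 0)
(.leaf 793477380404315801861698602610636667357767977294184474242576977817762310710719004884199761914530566541003077896843434316346884432)))))
(.node (.node (.node (.node (.node (.leaf 0)
(.leaf 387253015929505046913025066))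
(.leaf 0))
(.node (.leaf 0)
(.leaf 110609105684)))
(.node (.node (.leaf 0)
(.leaf 0))
(.node (.leaf 0)
(.leaf 5288382841034818309934290066836948970529401434074566088329931891830627553591669460983373277311130284635805496370499603002698538914381807758306894638831642057366963256141016255460834317152727900925879360545322963883506349488165069931992909206483500239894473417391859860719094335359371782232910731406785152641121340824030644781397102848037976409941453585806307239319828262715605488739332483831079717356513750369232849446995982688256787))))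
(.node (.node (.node (.leaf 0)
(.leaf 0))
(.node (.leaf 0)
(.leaf 159987793923)))
(.node (.node (.leaf 0)
(.leaf 53150744581))
(.node (.leaf 0)
(.leaf 764903151926490480105089497438134863163524042239158313350726158885303275031656374262775230390735500625735482554057047098477858881627955380208945541709974189248732541412406507012882))))))
(.node (.node (.node (.node (.node (.node (.leaf 0)
(.leaf 14740163400312384622886650908))
(.leaf 0))
(.node (.leaf 0)
(.leaf 100407574865)))
(.node (.node (.leaf 0)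
(.leaf 0))
(.node (.leaf 0)
(.leaf 3662255229193504484902555123309203604222908326777557769196060117091190388425044))))
(.node (.node (.node (.leaf 0)
(.leaf 0))
(.node (.leaf 0)
(.leaf 143625879891)))
(.node (.node (.leaf 0)
(.leaf 35970482178))
(.node (.leaf 0)
(.leaf 110594778795121290484553592979645117770576081630217754425463251389404985534076680905316400713484523864852)))))
(.node (.node (.node (.node (.leaf 0)
(.leaf 0))
(.node (.leaf 0)
(.leaf 120265179474)))
(.node (.node (.leaf 0)
(.leaf 2952790017))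
(.node (.leaf 0)
(.leaf 18085738054928852835871753097))))
(.node (.node (.node (.leaf 0)
(.leaf 0))
(.node (.leaf 0)
(.leaf 170731701009)))
(.node (.node (.leaf 0)
(.leaf 63082987526))
(.node (.leaf 0)
(.leaf 100288693701224421771797366836744800461999574934024522359001480192003884335377657973814199772865466793819198913286014869600751079901346363177576500350814445050231366642294526985391331549610193882082421501102714178770109204))))))))))
(.node (.node (.node (.node (.node (.node (.node (.node (.node (.node (.leaf 0)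
(.leaf 14372291016419697100657787785))
(.leaf 0))
(.node (.leaf 0)
(.leaf 65766817794)))
(.node (.node (.leaf 0)
(.leaf 0))
(.node (.leaf 0)
(.leaf 46196500238695203665))))
(.node (.node (.node (.leaf 0)
(.leaf 0))
(.node (.leaf 0)
(.leaf 121070354768)))
(.node (.node (.leaf 0)
(.leaf 9932374019))
(.node (.leaf 0)
(.leaf 264527321830862813182734228098369437350995364661363474)))))
(.node (.node (.node (.node (.node (.leaf 0)
(.leaf 376020075285415872650842239117953939137619678823842846))
(.leaf 0))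
(.node (.leaf 0)
(.leaf 101481644818)))
(.node (.node (.leaf 0)
(.leaf 0))
(.node (.leaf 0)
(.leaf 59460361179216744966494530450677111046744735420039872529957201))))
(.node (.node (.node (.leaf 0)
(.leaf 0))
(.node (.leaf 0)
(.leaf 144968188690)))
(.node (.node (.leaf 0)
(.leaf 41876586502))
(.node (.leaf 0)
(.leaf 200702641307558648484999429976115989458156323437983603461230287846846989656868246262647137719676133339670838990225993733262295761403422917026582159956831567446852212716759251186120742994704))))))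
(.node (.node (.node (.node (.node (.node (.leaf 0)
(.leaf 13873437613931152647727781415358563241080721469475852544649541867400467209265042137818215508930142052709004771233989567095139941050247166569054907272452449516322347271402505995683950897953628226575))
(.leaf 0))
(.node (.leaf 0)
(.leaf 209117380948)))
(.node (.node (.leaf 0)
(.leaf 0))
(.node (.leaf 0)
(.leaf 3552442509682760570269817086016880644))))
(.node (.node (.node (.leaf 0)
(.leaf 0))
(.node (.leaf 0)
(.leaf 127244763920)))
(.node (.node (.leaf 0)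
(.leaf 23891148804))
(.node (.leaf 0)
(.leaf 46720536506335889953778164860249117546501338417628495480003053058437994582551839392655935933251539629806238634985090896435113161938446800812908529490872455920576535799280884935916451325223479661835323667393650756172615446973024641512845254970048082932568343688783599167970406802207959968487018896965590701260375536455257343140087271824331137722529391341205490971670374538208136628938700979188540742969829197868031620859220486015368323189469139669276321511387002424667495528247374010737319741745323815070197640159571636687367751364642805554539176857669725746416004007858942821288758796315163986692468415227968920960309611178796249449233)))))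
(.node (.node (.node (.node (.node (.leaf 0)
(.leaf 112262509425101658067693321224744222905736721596023856))
(.leaf 0))
(.node (.leaf 0)
(.leaf 113025024788)))
(.node (.node (.leaf 0)
(.leaf 0))
(.node (.leaf 0)
(.leaf 100080652048185947480389275762358961036694682955587643389376254249842985691157523639036422732837875845092658962354935538432966028195875399442349421077215199588734219213482801391942808719028214588671698485744926525790964765966205833))))
(.node (.node (.node (.leaf 0)
(.leaf 0))
(.node (.leaf 0)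
(.leaf 165631034128)))
(.node (.node (.leaf 0)
(.leaf 55835230214))
(.node (.leaf 0)
(.leaf 535411117392176093943291868581089400491115182157338083836896291948953888374753668530841341302172041067379449039587183635686999045135344455544733743748904070411738541191223834074881965793113566621144577864619057696725291520762443360096263164965939185634775839212306)))))))
(.node (.node (.node (.node (.node (.node (.node (.leaf 0)
(.leaf 1375678352194569961368740772681080730759052358888342496761316773909848666814791227814948648012838768963170058973588433159692460590028777675352655764810856878545405612736382375656068431468996020364725009183615134205154081502869558225604978263095739089830528249692496))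
(.leaf 0))
(.node (.leaf 0)
(.leaf 73283010562)))
(.node (.node (.leaf 0)
(.leaf 0))
(.node (.leaf 0)
(.leaf 178241667077))))
(.node (.node (.node (.leaf 0)
(.leaf 0))
(.node (.leaf 0)
(.leaf 124291580240)))
(.node (.node (.leaf 0)
(.leaf 19596181508))
(.node (.leaf 0)
(.leaf 5726209425272720832313426835)))))
(.node (.node (.node (.node (.node (.leaf 0)
(.leaf 405666268068146920741652442066519771812201509))
(.leaf 0))
(.node (.leaf 0)
(.leaf 106045702932)))
(.node (.node (.leaf 0)
(.leaf 0))
(.node (.leaf 0)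
(.leaf 983079152436942892444214979857581626245908409156768001009133158484580612342750925422929))))
(.node (.node (.node (.leaf 0)
(.leaf 0))
(.node (.leaf 0)
(.leaf 151129686021)))
(.node (.node (.leaf 0)
(.leaf 51540262918))
(.node (.leaf 0)
(.leaf 3990987036200654621209905741924988569508453304644909532153324750176592))))))
(.node (.node (.node (.node (.node (.node (.leaf 0)
(.leaf 276226573335))
(.leaf 0))
(.node (.leaf 0)
(.leaf 95578030432)))
(.node (.node (.leaf 0)
(.leaf 0))
(.node (.leaf 0)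
(.leaf 1152952312150152825858322814448698249))))
(.node (.node (.node (.leaf 0)
(.leaf 0))
(.node (.leaf 0)
(.leaf 138526393108)))
(.node (.node (.leaf 0)
(.leaf 32212647940))
(.node (.leaf 0)
(.leaf 1547253611898165474040748848679047326621372208417100116071866320947649130691037196733326513645763170630168462094542496076555931562296278632772341407108329401165901868895826847106683090170241535305639945164297770682525792948685475186579721547667864353324093304198147614251364294050292848789107438755469206311176924329679163014646457936234455471731517016328128602131102670452438853900481845847852180388499161644406581104258866050081711015920400)))))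
(.node (.node (.node (.node (.leaf 0)
(.leaf 0))
(.node (.leaf 0)
(.leaf 118125298452)))
(.node (.node (.leaf 0)
(.leaf 0))
(.node (.leaf 0)
(.leaf 13697387791864130646563096810222395799003572568056666845705223940023709732396203042986704501000534793547537457225501492027978804331741579010170863960418558063780777770440028861424518322532893942338115077001))))
(.node (.node (.node (.leaf 0)
(.leaf 0))
(.node (.leaf 0)
(.leaf 12150342070672758905988317186)))
(.node (.node (.leaf 0)
(.leaf 61740810246))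
(.node (.leaf 0)
(.leaf 163218129912))))))))
(.node (.node (.node (.node (.node (.node (.node (.node (.leaf 0)
(.leaf 43571209676036076804987964835986253452645016881942363496094394338147089465700778306889563427341112735875240294911911373625448303311636048224203742411220258318969367714954509091600))
(.leaf 0))
(.node (.leaf 0)
(.leaf 69793873926)))
(.node (.node (.leaf 0)
(.leaf 0))
(.node (.leaf 0)
(.leaf 176375137042))))
(.node (.node (.node (.leaf 0)
(.leaf 0))
(.node (.leaf 0)
(.leaf 122681361168)))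
(.node (.node (.leaf 0)
(.leaf 13422034947))
(.node (.leaf 0)
(.leaf 4829055387872138574821271738202456969)))))
(.node (.node (.node (.node (.node (.leaf 0)
(.leaf 793206528767314386327241752))
(.leaf 0))
(.node (.leaf 0)
(.leaf 104689827841)))
(.node (.node (.leaf 0)
(.leaf 0))
(.node (.leaf 0)
(.leaf 250185777234))))
(.node (.node (.node (.leaf 0)
(.leaf 0))
(.node (.leaf 0)
(.leaf 10544359675735292566378119169)))
(.node (.node (.leaf 0)
(.leaf 48855908358))
(.node (.leaf 0)
(.leaf 179586401252))))))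
(.node (.node (.node (.node (.node (.node (.leaf 0)
(.leaf 1044733931141872477681222677))
(.leaf 0))
(.node (.leaf 0)
(.leaf 25077749377712587093)))
(.node (.node (.leaf 0)
(.leaf 0))
(.node (.leaf 0)
(.leaf 49727251977245032453))))
(.node (.node (.node (.leaf 0)
(.leaf 0))
(.node (.leaf 0)
(.leaf 129654456322)))
(.node (.node (.leaf 0)
(.leaf 27380678659))
(.node (.leaf 0)
(.leaf 5065958684830298554838496029487291333927456278728530805413034289951967762252563)))))
(.node (.node (.node (.node (.leaf 0)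
(.leaf 0))
(.node (.leaf 0)
(.leaf 116782465810)))
(.node (.node (.leaf 0)
(.leaf 0))
(.node (.leaf 0)
(.leaf 89755017896985339231177782022779953432523654871631782197624041774758326682986505427420836890341023653111235171178218754136964013547982430271702710156829738715029259082406887989314070446416))))
(.node (.node (.node (.leaf 0)
(.leaf 0))
(.node (.leaf 0)
(.leaf 166972817744)))
(.node (.node (.leaf 0)
(.leaf 59055931394))
(.node (.leaf 0)
(.leaf 6171618990742956972236557737980702691738020656838136652677600150685094398123005288450860342291581162640524499167756048733544348594908535560425031751583959559679264589412594472583237409379461524600310283912338496866156719181375698894322194279779034620238057346035694169275315549136717758520537134762800241420411628902293695662781918188711377064388821019939772452056491195404500386999028291145262522995393113558651687969817360)))))))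
(.node (.node (.node (.node (.node (.node (.node (.leaf 0)
(.leaf 487220665359947612133107122061471542814131878849197980920124630652884331794514643588021078523749610041147730767011690698594167015389903116313734425041131409967021461778350479017632467503213314852450290019445185350985646864))
(.leaf 0))
(.node (.leaf 0)
(.leaf 20248324663488544771)))
(.node (.node (.leaf 0)
(.leaf 0))
(.node (.leaf 0)
(.leaf 48860836805988516655))))
(.node (.node (.node (.leaf 0)
(.leaf 0))
(.node (.leaf 0)
(.leaf 125902586640)))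
(.node (.node (.leaf 0)
(.leaf 22817406980))
(.node (.leaf 0)
(.leaf 2025425918990630774047806539539134904639753821233713253217443394433464433395303823208184041197089026849119079138106631468236210960)))))
(.node (.node (.node (.node (.node (.leaf 0)
(.leaf 17389510187146140157728326697))
(.leaf 0))
(.node (.leaf 0)
(.leaf 107387093331)))
(.node (.node (.leaf 0)
(.leaf 0))
(.node (.leaf 0)
(.leaf 18182433223969849092922147721))))
(.node (.node (.node (.leaf 0)
(.leaf 0))
(.node (.leaf 0)
(.leaf 42524483252902757228)))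
(.node (.node (.leaf 0)
(.leaf 52882309125))
(.node (.leaf 0)
(.leaf 40156789086124097234021385405260641131284643541692022412713094317426414846471269129526086387367091970187324693999601731024140669762874122208646254144460631609713719862889372425404716932365157144928509304782352711163195864635116348380243018684983619799598724659340535830268218617504715966870878590386533711616176989581470697158264470890323950752410627785522738033063708262736))))))
(.node (.node (.node (.node (.node (.node (.leaf 0)
(.leaf 1002373177294049471300820015898690588))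
(.leaf 0))
(.node (.leaf 0)
(.leaf 100132585812)))
(.node (.node (.leaf 0)
(.leaf 0))
(.node (.leaf 0)
(.leaf 1000259445167487325134718416151900537070482739350583586523827842364458411923837794582812513419041231129850430099087367122333855106483073795146483407879449115375386023691155))))
(.node (.node (.node (.leaf 0)
(.leaf 0))
(.node (.leaf 0)
(.leaf 143357575954)))
(.node (.node (.leaf 0)
(.leaf 35433873412))
(.node (.leaf 0)
(.leaf 85466203084597739583046729957355045749344758614891891041918219952088682640028074707750049147922267063921858956450098924934550956526256365882114832)))))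
(.node (.node (.node (.node (.leaf 0)
(.leaf 0))
(.node (.leaf 0)
(.leaf 8628703374875381167409987586)))
(.node (.node (.leaf 0)
(.leaf 2684354561))
(.node (.leaf 0)
(.leaf 26402734079316980728932718460111531327994438091145710415086874237727759670068944469890921750561223959236343259808510951820084849698297549420250956140577104))))
(.node (.node (.node (.leaf 0)
(.leaf 0))
(.node (.leaf 0)
(.leaf 12266436728575997378635628546)))
(.node (.node (.leaf 0)
(.leaf 62814552070))
(.node (.leaf 0)
(.leaf 182277047288)))))))))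
(.node (.node (.node (.node (.node (.node (.node (.node (.node (.leaf 0)
(.leaf 12881916165882363641442473583024481387076252119521929702389878851236758150153733347879471835920111961085))
(.leaf 0))
(.node (.leaf 0)
(.leaf 67109519366)))
(.node (.node (.leaf 0)
(.leaf 0))
(.node (.leaf 0)
(.leaf 174215135237))))
(.node (.node (.node (.leaf 0)
(.leaf 0))
(.node (.leaf 0)
(.leaf 121875661136)))
(.node (.node (.leaf 0)
(.leaf 12348424196))
(.node (.leaf 0)
(.leaf 331963421597128890845897778535423712141993569815039606489675316713231298873541918563408234221068529373809288380028359334645417478005926244596482632127148900515143674049926019318417659514579945542521454450745216487719847506230688446998107166175667541330743628070532924133930125341319617644222512671423005456)))))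
(.node (.node (.node (.node (.node (.leaf 0)
(.leaf 5320265379217061445813339168))
(.leaf 0))
(.node (.leaf 0)
(.leaf 103097237884)))
(.node (.node (.leaf 0)
(.leaf 0))
(.node (.leaf 0)
(.leaf 14256432478570793736327398291))))
(.node (.node (.node (.leaf 0)
(.leaf 0))
(.node (.leaf 0)
(.leaf 145505714964)))
(.node (.node (.leaf 0)
(.leaf 46707900418))
(.node (.leaf 0)
(.leaf 53217715562682257153765048643285568961720379627310577128822417973881940410852162931803061707016069483859743681017699104302982174149584825667575406100022190450407413110814552575537754597722773979921))))))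
(.node (.node (.node (.node (.node (.node (.leaf 0)
(.leaf 99333681351658766467849655952821318256082257053715804505538475263356078905229061398608174787249249416431305156893536118270427828558814341324669266))
(.leaf 0))
(.node (.leaf 0)
(.leaf 55271640378754138898)))
(.node (.node (.leaf 0)
(.leaf 0))
(.node (.leaf 0)
(.leaf 3562408777133428660827918210127233028))))
(.node (.node (.node (.leaf 0)
(.leaf 0))
(.node (.leaf 0)
(.leaf 128050463505)))
(.node (.node (.leaf 0)
(.leaf 24427626497))
(.node (.leaf 0)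
(.leaf 654281384020747001249036649818948370)))))
(.node (.node (.node (.node (.leaf 0)
(.leaf 0))
(.node (.leaf 0)
(.leaf 30630582174547903282)))
(.node (.node (.leaf 0)
(.leaf 0))
(.node (.leaf 0)
(.leaf 50623280835838878084258042403054166487853432137966052078781321))))
(.node (.node (.node (.leaf 0)
(.leaf 0))
(.node (.leaf 0)
(.leaf 11976190639084900273354833922)))
(.node (.node (.leaf 0)
(.leaf 57714278406))
(.node (.leaf 0)
(.leaf 3332663632922337981239803062578031149073113964831451056952612142910218979302182699623259826633619092285168664042017636508077590257675498821260048886861587477037393)))))))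
(.node (.node (.node (.node (.node (.node (.node (.leaf 0)
(.leaf 202373307825744781046508699395957075994619647522704393771776419655723824122497771979233471581383119819262087804656166386388052440158702123782781518261228624113462073140509670321995913074136035819862988911208226022900271687617572033838570136436495307770174150071601226253284))
(.leaf 0))
(.node (.leaf 0)
(.leaf 20104209475412688899)))
(.node (.node (.leaf 0)
(.leaf 0))
(.node (.leaf 0)
(.leaf 3499997267133234143077019503248539651))))
(.node (.node (.node (.leaf 0)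
(.leaf 0))
(.node (.leaf 0)
(.leaf 125097673489)))
(.node (.node (.leaf 0)
(.leaf 5980780305416847364))
(.node (.leaf 0)
(.leaf 296875133605361462906511836943064008464715066785840524368679063607454490408805784894482468826299737576065109248830601518913896916051832745254134208599357632070520403581212305720080)))))
(.node (.node (.node (.node (.node (.leaf 0)
(.leaf 14178749602168376248811062311))
(.leaf 0))
(.node (.leaf 0)
(.leaf 7699870554794237132848234497)))
(.node (.node (.leaf 0)
(.leaf 0))
(.node (.leaf 0)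
(.leaf 716718246723338288778456709811667849))))
(.node (.node (.node (.leaf 0)
(.leaf 0))
(.node (.leaf 0)
(.leaf 157316875028)))
(.node (.node (.leaf 0)
(.leaf 52345438213))
(.node (.leaf 0)
(.leaf 155761105139429871755091394944958675217960327502090372356097758085875570690703906614945577413532329639652937316040736035935646929017033501205881230677962888744180512872124425273176972451431571552507549841856929400435218940299863608014227390583713806821880264968274937012367476028538589185626454146809681471349476804388842811676014177703095448371373917180236353386080994292177288566215890271558996172718075827554349190562509192996873187287437754696466))))))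
(.node (.node (.node (.node (.node (.node (.leaf 0)
(.leaf 162712388634))
(.leaf 0))
(.node (.leaf 0)
(.leaf 99605873001)))
(.node (.node (.leaf 0)
(.leaf 0))
(.node (.leaf 0)
(.leaf 404947301264048774678291358831383227640946970347502869040133406824318532567540656194158969515490164412041813158681878313896026008426971924))))
(.node (.node (.node (.leaf 0)
(.leaf 0))
(.node (.leaf 0)
(.leaf 37478692446805099354)))
(.node (.node (.leaf 0)
(.leaf 34628567044))
(.node (.leaf 0)
(.leaf 1093610304620265276075544132636299559511923213543612276681509748922387671284421531988927246311852497755970469186602135372602848976380769919687007834445520887952735715829623566306933197970040032416921122839760314841433259740897693109022756253949294548337583538642683715851938774142303731221732197266491414632924674765136663935743512956199670649061713)))))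
(.node (.node (.node (.node (.leaf 0)
(.leaf 0))
(.node (.leaf 0)
(.leaf 119191437650)))
(.node (.node (.leaf 0)
(.leaf 2147483649))
(.node (.leaf 0)
(.leaf 351659598241877753644155050041594101412693547173344871848957421143948256690551449356787396396889691757408016320457796475563693496792495105350146305831322213942163))))
(.node (.node (.node (.leaf 0)
(.leaf 0))
(.node (.leaf 0)
(.leaf 169657959185)))
(.node (.node (.leaf 0)
(.leaf 62277681158))
(.node (.leaf 0)
(.leaf 175297725432))))))))
(.node (.node (.node (.node (.node (.node (.node (.node (.leaf 0)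
(.leaf 31225250492088664070218341054390788533207663454332773186951344756483864927366221655426308658215516192564519734730737247685281883390470095072526673))
(.leaf 0))
(.node (.leaf 0)
(.leaf 72209661957)))
(.node (.node (.leaf 0)
(.leaf 0))
(.node (.leaf 0)
(.leaf 3427786820065138156258009581195624449))))
(.node (.node (.node (.leaf 0)
(.leaf 0))
(.node (.leaf 0)
(.leaf 33153618318038598470)))
(.node (.node (.leaf 0)
(.leaf 16643260419))
(.node (.leaf 0)
(.leaf 295836346987176314259229025114496525656174699091200504115292484057396096723514906274995535687023439407387421763062288824140062172793653125335825257729980440640203950851280292675924)))))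
(.node (.node (.node (.node (.node (.leaf 0)
(.leaf 170466149411))
(.leaf 0))
(.node (.leaf 0)
(.leaf 105239609683)))
(.node (.node (.leaf 0)
(.leaf 0))
(.node (.leaf 0)
(.leaf 66094015633816666743797813134990698644225825922292965009976289459476548422920180032150443107181942362952716110288758162496248942447030450871997490240654086278695057337884144598393268536083))))
(.node (.node (.node (.leaf 0)
(.leaf 0))
(.node (.leaf 0)
(.leaf 147116065555)))
(.node (.node (.leaf 0)
(.leaf 50197954565))
(.node (.leaf 0)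
(.leaf 5859169690382677163835651198950955829531090284967165768070487504268445864718860658316393295261515441920427304207252075297039865356549911575584237754221693872915663334637254539343052534039763479175930970449))))))
(.node (.node (.node (.node (.node (.node (.leaf 0)
(.leaf 754813638390101303693083671))
(.leaf 0))
(.node (.leaf 0)
(.leaf 25295822116724605270)))
(.node (.node (.leaf 0)
(.leaf 0))
(.node (.leaf 0)
(.leaf 1422908648692634463692318880877249417))))
(.node (.node (.node (.leaf 0)
(.leaf 0))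
(.node (.leaf 0)
(.leaf 137451995922)))
(.node (.node (.leaf 0)
(.leaf 28454551556))
(.node (.leaf 0)
(.leaf 1211478793919534620680042570854589479976774578469242770326614814480699251804467947114111611297217819988867373258314301092903446884298326392322928335287421857261432914772304)))))
(.node (.node (.node (.node (.leaf 0)
(.leaf 0))
(.node (.leaf 0)
(.leaf 117319729939)))
(.node (.node (.leaf 0)
(.leaf 0))
(.node (.leaf 0)
(.leaf 92494681041017921537848516965551846049247599066502441463366844294099767513237552276911588031026777416887317971585328745327563289439071834288517798734278944665850045348656371992740632669479579272298368884753648320859392185502326365099983186))))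
(.node (.node (.node (.leaf 0)
(.leaf 0))
(.node (.leaf 0)
(.leaf 168047346449)))
(.node (.node (.leaf 0)
(.leaf 61203939334))
(.node (.leaf 0)
(.leaf 494082057047213020870371591629498220844073888035432475027952945560016980472299729268649902950473007610899676748145839601023516766336448962467768704740938104433733892682202156667059734308323222779845236133102972142252562809751131939358838328563963124229783718200201)))))))
(.node (.node (.node (.node (.node (.node (.node (.leaf 0)
(.leaf 540118039021086445949148564477445135))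
(.leaf 0))
(.node (.leaf 0)
(.leaf 52027183874514420050)))
(.node (.node (.leaf 0)
(.leaf 0))
(.node (.leaf 0)
(.leaf 183079076178))))
(.node (.node (.node (.leaf 0)
(.leaf 0))
(.node (.leaf 0)
(.leaf 126708286225)))
(.node (.node (.leaf 0)
(.leaf 23354277892))
(.node (.leaf 0)
(.leaf 2955933587269171334287891546676443203842149882771154217301899371229679371598301563224072787339601544113282544072860041552)))))
(.node (.node (.node (.node (.node (.leaf 0)
(.leaf 171305206829))
(.leaf 0))
(.node (.leaf 0)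
(.leaf 110876885778)))
(.node (.node (.leaf 0)
(.leaf 0))
(.node (.leaf 0)
(.leaf 143955168693328908185907733266031242827702324854057915238812999690619268164469957515322419839891))))
(.node (.node (.node (.leaf 0)
(.leaf 0))
(.node (.leaf 0)
(.leaf 44177726513833771829)))
(.node (.node (.leaf 0)
(.leaf 53419180037))
(.node (.leaf 0)
(.leaf 57176070955452701415392687373442162981058823858644340788101821691372731993275886461364546628897295669542191514724726038222859779486590224635658577))))))
(.node (.node (.node (.node (.node (.node (.leaf 0)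
(.leaf 5184860945886349714221433884))
(.leaf 0))
(.node (.leaf 0)
(.leaf 100944445777)))
(.node (.node (.leaf 0)
(.leaf 0))
(.node (.leaf 0)
(.leaf 981275450775859255100964889514339391031618146159167882299692235348818691034583651582857))))
(.node (.node (.node (.leaf 0)
(.leaf 0))
(.node (.leaf 0)
(.leaf 10389551057261303184912023553)))
(.node (.node (.leaf 0)
(.leaf 36507877382))
(.node (.leaf 0)
(.leaf 4092628453692257771612791992198533276334717030287881072157476689091268932251654303221847580682491727482412363841333961868542018048696239650952387028536274824561920769901164906619180210769638415631175181403477312272)))))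
(.node (.node (.node (.node (.leaf 0)
(.leaf 0))
(.node (.leaf 0)
(.leaf 120533483856)))
(.node (.node (.leaf 0)
(.leaf 3221225473))
(.node (.leaf 0)
(.leaf 7131642488564254579438705940278430193917823004659710727513849861847431090462602997070114895212251535812797998185668804945))))
(.node (.node (.node (.leaf 0)
(.leaf 0))
(.node (.leaf 0)
(.leaf 170999743248)))
(.node (.node (.leaf 0)
(.leaf 63350898690))
(.node (.leaf 0)
(.leaf 2955067871537618270892117807921908834328629320923051765187048967831320633826337418597555415686778815742248774718004777674958486104171666713265515031019456920741740590990099)))))))))))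

def l0 : List Ax := [.Y false,
  .Y true,
  .u1 false,
  .u2 false,
  .u1 true,
  .u2 true,
  .ex2 false 0 1 2 5 7,
  .ex2 false 0 2 1 6 7,
  .ex2 false 1 0 2 5 7,
  .ex2 false 2 0 1 4 7,
  .ex2 false 2 0 1 5 6,
  .ex2 false 2 1 0 5 6,
  .ex2 false 0 1 5 3 4,
  .ex2 false 0 1 5 3 6,
  .ex2 false 0 1 5 4 7,
  .ex2 false 0 1 5 6 7,
  .ex2 false 1 0 5 2 3,
  .ex2 false 1 0 5 6 7,
  .ex2 false 5 1 0 2 4,
  .ex2 false 5 1 0 2 6,
  .ex3 false 0 1 5 3 4 7,
  .ex3 false 1 0 5 3 4 7,
  .ex2 false 5 0 1 3 7,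
  .ex2 false 5 1 0 3 7,
  .ex3 false 0 1 5 3 6 7,
  .ex2 false 5 0 1 4 7,
  .ex2 false 5 1 0 4 7,
  .ex2 false 5 0 1 6 7,
  .ex2 false 5 1 0 6 7,
  .ex2 false 0 1 6 5 7,
  .ex2 false 7 0 1 4 5,
  .ex2 false 7 1 0 4 5,
  .ex2 false 7 0 1 5 6,
  .ex2 false 7 1 0 5 6,
  .ex2 false 0 2 4 3 7,
  .ex2 false 0 2 6 5 7,
  .ex2 false 2 0 7 1 3,
  .ex2 false 4 3 0 1 7,
  .ex2 false 3 0 5 4 7,
  .ex2 false 0 3 6 5 7,
  .ex2 false 0 7 3 1 5,
  .ex2 false 3 0 7 1 2,
  .ex2 false 4 0 5 3 7,
  .ex2 false 0 7 4 1 5,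
  .ex2 false 7 0 4 1 2,
  .ex3 false 0 5 6 2 3 4,
  .ex3 false 0 5 6 3 4 7,
  .ex2 false 0 5 7 1 2,
  .ex2 false 0 7 5 3 4,
  .ex3 false 0 5 7 1 2 3,
  .ex2 false 5 0 7 1 2,
  .ex2 false 7 0 5 3 4,
  .ex2 false 7 0 5 3 6,
  .ex2 false 7 5 0 3 6,
  .ex2 false 7 0 5 4 6,
  .ex2 false 0 6 7 1 5,
  .ex2 false 7 0 6 1 5,
  .ex2 false 7 0 6 3 4,
  .ex2 false 7 0 6 3 5,
  .ex2 false 7 6 0 3 5,
  .ex2 false 1 2 3 0 5,
  .ex2 false 1 2 3 5 7,
  .ex2 false 5 1 2 0 7,
  .ex2 false 2 1 5 3 4,
  .ex2 false 6 1 2 0 7,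
  .ex2 false 2 1 7 3 5,
  .ex2 false 7 2 1 5 6,
  .ex3 false 3 1 4 0 5 7,
  .ex2 false 3 1 5 4 7,
  .ex2 false 1 3 6 0 5,
  .ex2 false 4 1 5 3 7,
  .ex2 false 7 4 1 5 6,
  .ex3 false 1 5 6 2 3 4,
  .ex3 false 1 5 6 3 4 7,
  .ex2 false 1 5 7 0 2,
  .ex2 false 5 1 7 0 2,
  .ex2 false 7 5 1 0 6,
  .ex2 false 7 1 5 3 4,
  .ex2 false 1 6 7 0 5,
  .ex2 false 7 1 6 0 5,
  .ex2 false 7 6 1 0 5,
  .ex2 false 7 6 1 3 5,
  .ex2 false 2 3 4 0 1,
  .ex2 false 2 3 4 0 5,
  .ex2 false 3 2 4 0 5,
  .ex2 false 2 3 4 1 5,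
  .ex2 false 3 2 4 1 5,
  .ex3 false 2 3 4 1 5 6,
  .ex2 false 3 2 4 5 6,
  .ex2 false 4 2 3 5 6,
  .ex2 false 2 3 5 0 1,
  .ex2 false 3 2 5 4 7,
  .ex2 false 2 3 6 0 5,
  .ex2 false 2 3 6 1 5,
  .ex2 false 3 2 6 4 7,
  .ex3 false 2 3 6 4 5 7,
  .ex2 false 2 5 4 0 7,
  .ex2 false 4 2 5 3 7,
  .ex2 false 2 5 6 0 1,
  .ex3 false 2 5 6 0 1 3,
  .ex2 false 5 2 6 0 7,
  .ex2 false 2 5 6 1 3,
  .ex2 false 5 6 2 1 7,
  .ex3 false 2 5 6 3 4 7,
  .ex2 false 2 5 7 1 3,
  .ex2 false 2 7 5 3 4,
  .ex2 false 7 2 6 0 5,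
  .ex3 false 3 4 7 0 1 5,
  .ex2 false 7 3 4 0 1,
  .ex2 false 7 3 4 0 5,
  .ex2 false 7 4 3 0 5,
  .ex2 false 3 4 7 1 2,
  .ex2 false 7 4 3 5 6,
  .ex3 false 3 5 7 0 1 4,
  .ex2 false 5 3 7 0 1,
  .ex3 false 3 5 7 0 2 4,
  .ex2 false 5 3 7 0 2,
  .ex3 false 3 5 7 1 2 6,
  .ex2 false 7 3 5 1 6,
  .ex2 false 3 7 5 2 4,
  .ex2 false 7 6 3 0 2,
  .ex2 false 7 3 6 0 5,
  .ex2 false 3 7 6 2 4,
  .ex2 false 5 4 7 0 1,
  .ex2 false 5 4 7 0 2,
  .ex2 false 7 5 4 0 2,
  .ex2 false 5 4 7 1 2,
  .ex2 false 4 7 5 1 3,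
  .ex2 false 4 7 5 2 3,
  .ex2 false 5 6 7 0 1,
  .ex3 false 6 5 7 1 2 3,
  .ex3 false 7 5 6 2 3 4,
  .ex2 false 7 6 5 3 4,
  .ex2 true 1 2 0 3 5,
  .ex2 true 0 1 3 4 5,
  .ex2 true 3 1 0 2 4,
  .ex2 true 3 1 0 4 5,
  .ex2 true 0 1 4 5 7,
  .ex2 true 0 1 5 2 7,
  .ex2 true 0 1 5 3 7,
  .ex2 true 0 1 5 4 6,
  .ex2 true 0 1 5 4 7,
  .ex2 true 0 1 5 6 7,
  .ex2 true 1 0 5 2 7,
  .ex2 true 5 1 0 3 4,
  .ex2 true 5 1 0 3 7,
  .ex2 true 5 0 1 4 7,
  .ex2 true 5 1 0 4 7,
  .ex2 true 0 1 6 2 7,
  .ex2 true 0 1 6 5 7,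
  .ex2 true 1 6 0 3 4,
  .ex2 true 0 1 7 3 5,
  .ex2 true 0 1 7 3 6,
  .ex2 true 1 0 7 2 3,
  .ex2 true 1 0 7 3 5,
  .ex3 true 1 0 7 2 3 4,
  .ex3 true 0 1 7 2 4 6,
  .ex2 true 7 1 0 2 4,
  .ex2 true 7 0 1 2 5,
  .ex3 true 0 1 7 3 4 5,
  .ex3 true 1 0 7 3 4 5,
  .ex2 true 7 0 1 3 5,
  .ex2 true 7 1 0 3 5,
  .ex2 true 7 0 1 4 5,
  .ex2 true 7 1 0 4 5,
  .ex2 true 7 0 1 5 6,
  .ex2 true 7 1 0 5 6,
  .ex2 true 2 0 5 1 3,
  .ex2 true 0 2 6 1 7,
  .ex2 true 2 0 6 4 7,
  .ex2 true 0 4 3 1 7,
  .ex2 true 0 4 3 2 7,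
  .ex2 true 0 3 4 6 7,
  .ex2 true 0 3 5 1 2,
  .ex2 true 0 3 5 1 7,
  .ex2 true 0 3 5 2 7,
  .ex2 true 0 3 6 1 7,
  .ex2 true 7 0 3 1 5,
  .ex2 true 3 0 7 2 4,
  .ex2 true 3 0 7 4 5,
  .ex2 true 0 4 6 1 7,
  .ex2 true 4 0 7 2 3,
  .ex2 true 4 0 7 3 5,
  .ex2 true 0 5 6 1 7,
  .ex2 true 0 7 5 1 2,
  .ex2 true 0 7 5 1 6,
  .ex3 true 0 5 7 1 2 3,
  .ex2 true 5 0 7 1 2,
  .ex2 true 7 0 5 1 2,
  .ex2 true 5 0 7 3 4,
  .ex2 true 0 7 6 1 2,
  .ex3 true 0 6 7 2 3 4,
  .ex3 true 0 6 7 3 4 5,
  .ex2 true 1 2 3 0 5,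
  .ex2 true 1 2 3 0 7,
  .ex2 true 2 1 3 0 7,
  .ex2 true 3 1 2 0 5,
  .ex2 true 3 2 1 0 5,
  .ex2 true 1 2 3 5 7,
  .ex2 true 3 2 1 4 5,
  .ex2 true 1 2 5 0 3,
  .ex2 true 1 2 5 0 7,
  .ex2 true 2 1 5 3 7,
  .ex2 true 2 1 5 4 7,
  .ex2 true 2 1 5 6 7,
  .ex2 true 7 1 2 0 5,
  .ex2 true 1 2 7 5 6,
  .ex2 true 2 1 7 3 4,
  .ex2 true 1 3 4 0 7,
  .ex2 true 1 3 5 0 2,
  .ex2 true 1 3 5 0 7,
  .ex2 true 1 3 6 0 7,
  .ex3 true 1 3 6 0 4 7,
  .ex2 true 3 1 7 0 4,
  .ex2 true 3 1 7 2 4,
  .ex2 true 3 1 7 4 5,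
  .ex2 true 1 5 4 0 2,
  .ex2 true 4 1 7 3 5,
  .ex2 true 1 5 6 0 7,
  .ex2 true 1 7 5 0 2,
  .ex2 true 7 1 5 0 2,
  .ex2 true 5 1 7 3 4,
  .ex2 true 5 1 7 3 6,
  .ex2 true 1 7 6 0 2,
  .ex2 true 7 1 6 0 4,
  .ex2 true 7 1 6 0 5,
  .ex3 true 1 6 7 3 4 5,
  .ex2 true 2 3 4 0 5,
  .ex2 true 4 2 3 0 7,
  .ex3 true 2 3 4 0 6 7,
  .ex2 true 3 2 4 1 7,
  .ex2 true 4 2 3 1 7,
  .ex3 true 2 3 4 1 6 7,
  .ex2 true 3 2 4 6 7,
  .ex2 true 4 2 3 6 7,
  .ex2 true 2 3 5 0 1,
  .ex2 true 5 3 2 4 7,
  .ex2 true 2 3 6 0 7,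
  .ex3 true 2 3 6 0 4 7,
  .ex2 true 3 2 6 4 5,
  .ex2 true 2 3 7 0 1,
  .ex2 true 3 2 7 0 4,
  .ex2 true 3 2 7 4 5,
  .ex2 true 4 2 6 0 3,
  .ex2 true 2 4 7 0 1,
  .ex2 true 7 2 4 0 1,
  .ex2 true 4 2 7 3 5,
  .ex2 true 2 5 6 0 7,
  .ex2 true 2 5 6 3 4,
  .ex2 true 2 5 7 3 4,
  .ex2 true 5 2 7 3 6,
  .ex3 true 2 6 7 0 3 4,
  .ex2 true 7 2 6 0 4,
  .ex3 true 2 6 7 1 3 4,
  .ex3 true 2 6 7 3 4 5,
  .ex2 true 3 4 5 0 1,
  .ex2 true 5 3 4 0 7,
  .ex2 true 3 4 5 1 2,
  .ex2 true 5 3 4 1 2,
  .ex2 true 3 5 6 2 4,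
  .ex2 true 7 3 5 0 1,
  .ex2 true 7 3 5 0 2,
  .ex2 true 3 5 7 2 4,
  .ex2 true 5 4 7 0 1,
  .ex2 true 7 4 5 0 1,
  .ex2 true 7 4 5 0 2,
  .ex2 true 4 5 7 0 3,
  .ex2 true 7 5 4 0 6,
  .ex3 true 4 5 7 1 2 3,
  .ex2 true 4 5 7 1 3,
  .ex2 true 4 5 7 2 3,
  .ex2 true 5 4 7 3 6,
  .ex3 true 7 5 6 0 1 2,
  .ex2 true 7 6 5 0 1,
  .ex2 true 5 6 7 0 4,
  .ex3 true 6 5 7 1 3 4,
  .ex2 true 5 6 7 3 4,
  .ch 3 4 7 0 1 2,
  .ch 3 5 7 0 1 2,
  .ch 3 5 7 0 2 1,
  .ch 3 7 5 0 1 2,
  .ch 3 7 5 0 2 1,
  .ch 4 7 5 0 1 2,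
  .ch 5 3 7 2 1 0,
  .ch 5 4 7 0 1 2,
  .ch 5 4 7 0 2 1,
  .ch 5 4 7 1 0 2,
  .ch 5 4 7 2 1 0,
  .ch 5 6 7 0 1 2,
  .ch 5 6 7 1 2 0,
  .ch 5 6 7 2 1 0,
  .ch 5 7 3 0 1 2,
  .ch 5 7 4 0 1 2,
  .ch 5 7 6 0 1 2,
  .ch 5 7 3 0 2 1,
  .ch 5 7 4 0 2 1,
  .ch 5 7 6 0 2 1,
  .ch 5 7 3 1 0 2,
  .ch 5 7 4 1 0 2,
  .ch 5 7 6 1 0 2,
  .ch 5 7 4 1 2 0,
  .ch 5 7 6 1 2 0,
  .ch 5 7 3 2 0 1,
  .ch 5 7 4 2 0 1,
  .ch 5 7 6 2 0 1,
  .ch 5 7 3 2 1 0,
  .ch 5 7 4 2 1 0,
  .ch 5 7 6 2 1 0,
  .ch 6 5 7 0 1 2,
  .ch 6 5 7 0 2 1,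
  .ch 6 7 5 0 1 2,
  .ch 6 7 5 1 2 0,
  .ch 6 7 5 2 1 0,
  .ch 7 3 5 1 2 0,
  .ch 7 3 5 2 1 0,
  .ch 7 4 5 0 1 2,
  .ch 7 4 5 0 2 1,
  .ch 7 4 5 1 0 2,
  .ch 7 4 5 1 2 0,
  .ch 7 4 5 2 0 1,
  .ch 7 4 5 2 1 0,
  .ch 7 5 3 0 1 2,
  .ch 7 5 4 0 1 2,
  .ch 7 5 6 0 1 2,
  .ch 7 5 3 0 2 1,
  .ch 7 5 4 0 2 1,
  .ch 7 5 6 0 2 1,
  .ch 7 5 3 1 0 2,
  .ch 7 5 4 1 0 2,
  .ch 7 5 6 1 0 2,
  .ch 7 5 3 2 0 1,
  .ch 7 5 4 2 0 1,
  .ch 7 5 4 2 1 0,
  .ch 7 5 6 2 1 0,
  .ch 7 6 5 2 1 0,
  .tA false 5,
  .tA true 5,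
  .tB false 6,
  .tB true 6,
  .tC false 7,
  .ux false 3,
  .ux true 3,
  .uc 3 5,
  .uc 3 6,
  .uc 3 7,
  .u4 false 3 6 3,
  .u4 false 3 7 6,
  .u5 false 3 5 6 3 2,
  .u4 true 3 5 6,
  .u4 true 3 6 3,
  .u5 true 3 6 7 3 5,
  .ux false 5,
  .uc 5 3,
  .uc 5 6,
  .u4 false 5 3 5,
  .u4 false 5 6 5,
  .u3 true 5 2 3 6,
  .u4 true 5 7 2,
  .u5 true 5 3 6 7 5,
  .uy 6,
  .ux false 6,
  .uyj false 6 2,
  .ux true 6,
  .uyj true 6 0,
  .uyj true 6 1,
  .uc 6 3,
  .uc 6 4,
  .uc 6 5,
  .uc 6 7,
  .u4 false 6 3 5,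
  .u4 false 6 5 6,
  .u4 false 6 7 6,
  .u5 false 6 4 7 2 3,
  .u3 true 6 3 4 5,
  .u5 true 6 3 5 0 2,
  .u5 true 6 3 5 1 4,
  .u5 true 6 3 5 6 4,
  .u5 true 6 3 7 4 1,
  .u5 true 6 5 7 6 1,
  .ux false 7,
  .ux true 7,
  .uc 7 3,
  .u4 false 7 3 6,
  .u4 false 7 6 7,
  .u4 true 7 3 7,
  .w2 6 130 6,
  .w2 6 130 5,
  .w1 6 130 4,
  .w2 6 130 3,
  .O 1 2 1 7 0,
  .w2 6 24 7,
  .w2 6 24 6,
  .w1 6 24 5,
  .O 1 2 3 4 0,
  .w2 6 144 6,
  .w1 6 144 5,
  .w2 6 144 3,
  .O 1 2 4 7 0,
  .w2 10 24 7,
  .w2 10 24 6,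
  .w1 10 24 5,
  .w2 10 160 6,
  .w2 10 160 4,
  .w2 18 132 6,
  .w1 18 132 5,
  .w2 18 132 3,
  .O 1 4 2 7 0,
  .w2 34 132 6,
  .w1 34 132 4,
  .w2 34 132 3,
  .O 1 5 2 7 0,
  .w2 34 144 6,
  .w2 34 144 3,
  .w2 34 160 6,
  .w1 34 160 4,
  .w2 34 160 3,
  .w1 34 160 2,
  .O 1 5 5 7 0,
  .w1 66 144 5,
  .w2 66 144 3,
  .w2 130 144 6,
  .w1 130 144 5,
  .w2 130 144 3,
  .w1 130 144 2,
  .O 1 7 4 7 0,
  .w2 20 130 6,
  .w2 20 130 5,
  .w2 20 130 3,
  .O 2 4 1 7 0,
  .w2 36 18 7,
  .w1 36 18 6,
  .w1 36 18 3,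
  .O 2 5 1 4 0,
  .w2 36 144 6,
  .w2 36 144 3,
  .w2 36 192 4,
  .w2 36 192 3,
  .w2 36 192 1,
  .O 2 5 6 7 0,
  .w2 132 144 6,
  .w1 132 144 5,
  .w2 132 144 3,
  .w2 24 6 7,
  .w1 24 6 6,
  .w1 24 6 5,
  .O 3 4 1 2 0,
  .w2 24 10 7,
  .w1 24 10 6,
  .w1 24 10 5,
  .w1 24 130 6,
  .w1 24 130 5,
  .w2 40 6 7,
  .w1 40 6 6,
  .w1 40 6 4,
  .O 3 5 1 2 0,
  .w2 40 36 7,
  .w1 40 36 6,
  .w1 40 36 4,
  .w2 40 36 1,
  .O 3 5 2 5 0,
  .w2 48 6 7,
  .w1 48 6 6,
  .w1 48 6 3,
  .O 4 5 1 2 0,
  .w2 48 12 7,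
  .w1 48 12 6,
  .w2 96 6 7,
  .w1 96 6 4,
  .w1 96 6 3,
  .O 5 6 1 2 0,
  .w2 96 10 7,
  .w1 96 10 4,
  .w1 96 132 4,
  .w1 96 132 3,
  .w1 96 144 3,
  .w1 96 144 1,
  .w1 96 160 4,
  .w1 96 160 3,
  .w2 96 160 2,
  .w1 160 6 6,
  .w2 160 6 4,
  .w1 160 6 3,
  .O 5 7 1 2 0,
  .w1 160 10 6,
  .w2 160 10 6,
  .w1 160 10 4,
  .w1 160 10 2,
  .O 5 7 1 3 0,
  .w2 160 34 6,
  .w1 160 34 4,
  .w2 160 34 3,
  .w2 160 130 6,
  .w1 160 130 4,
  .w2 160 130 3,
  .w1 160 12 6,
  .w1 160 12 4,
  .w1 160 12 1,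
  .O 5 7 2 3 0,
  .w1 160 20 6,
  .w1 160 20 3]

theorem a0 : axchk 8 1 1 true (Tr.get ⟨9, 0, 0, 0⟩ v) (Tr.get 0 g) l0 500 0 = true := by
  decide +kernel

def l1 : List Ax := [.w1 160 20 1,
  .O 5 7 2 4 0,
  .w1 160 132 6,
  .w2 160 132 6,
  .w1 160 132 4,
  .w2 160 132 4,
  .w1 160 132 3,
  .w2 160 132 3,
  .w1 160 132 1,
  .O 5 7 2 7 0,
  .w2 160 136 6,
  .w2 160 136 4,
  .w1 160 136 2,
  .w1 160 136 1,
  .O 5 7 3 7 0,
  .w2 160 144 6,
  .w2 160 144 3,
  .w1 160 144 2,
  .w1 160 144 1,
  .O 5 7 4 7 0,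
  .w1 160 160 6,
  .w2 160 160 6,
  .w1 160 160 4,
  .w2 160 160 4,
  .w1 160 160 3,
  .w2 160 160 3,
  .w1 160 160 1,
  .w2 160 160 1,
  .w2 5 129 6,
  .w1 5 129 5,
  .w2 5 129 4,
  .w2 5 129 3,
  .O 0 2 0 7 1,
  .w2 5 24 7,
  .w2 5 24 6,
  .w1 5 24 5,
  .O 0 2 3 4 1,
  .w2 5 136 6,
  .w1 5 136 5,
  .w2 5 136 4,
  .O 0 2 3 7 1,
  .w2 5 144 6,
  .w1 5 144 5,
  .w2 5 144 3,
  .O 0 2 4 7 1,
  .w1 5 192 5,
  .w2 5 192 4,
  .w2 5 192 3,
  .O 0 2 6 7 1,
  .w2 9 20 7,
  .w1 9 20 6,
  .w1 9 20 5,
  .O 0 3 2 4 1,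
  .w2 17 132 6,
  .w1 17 132 5,
  .w2 17 132 3,
  .O 0 4 2 7 1,
  .w1 33 12 7,
  .w2 33 12 7,
  .w1 33 12 6,
  .w2 33 12 6,
  .w1 33 12 4,
  .O 0 5 2 3 1,
  .w1 33 132 6,
  .w2 33 132 6,
  .w1 33 132 4,
  .w2 33 132 4,
  .w1 33 132 3,
  .w2 33 132 3,
  .O 0 5 2 7 1,
  .w1 33 40 7,
  .w2 33 40 6,
  .w1 33 40 4,
  .w1 33 160 6,
  .w1 33 160 4,
  .w2 33 160 3,
  .w1 129 12 6,
  .w1 129 12 5,
  .w1 129 12 4,
  .O 0 7 2 3 1,
  .w2 129 132 6,
  .w1 129 132 5,
  .w1 129 132 4,
  .w2 129 132 3,
  .O 0 7 2 7 1,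
  .w2 129 144 6,
  .w1 129 144 5,
  .w2 129 144 3,
  .w1 129 144 2,
  .O 0 7 4 7 1,
  .w1 12 129 6,
  .w2 12 129 6,
  .w1 12 129 5,
  .w2 12 129 5,
  .w2 12 129 4,
  .O 2 3 0 7 1,
  .w2 20 129 6,
  .w1 20 129 5,
  .w2 20 129 3,
  .O 2 4 0 7 1,
  .w2 36 9 7,
  .w1 36 9 6,
  .w1 36 9 4,
  .O 2 5 0 3 1,
  .w1 36 129 6,
  .w2 36 129 6,
  .w1 36 129 4,
  .w2 36 129 4,
  .w1 36 129 3,
  .w2 36 129 3,
  .O 2 5 0 7 1,
  .w2 36 144 0,
  .O 2 5 4 7 1,
  .w1 132 144 0,
  .O 2 7 4 7 1,
  .w2 40 5 7,
  .w1 40 5 6,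
  .w1 40 5 4,
  .O 3 5 0 2 1,
  .w2 40 9 7,
  .w1 40 9 6,
  .w1 40 9 4,
  .w2 40 9 2,
  .O 3 5 0 3 1,
  .w2 48 5 7,
  .w1 48 5 6,
  .w1 48 5 3,
  .O 4 5 0 2 1,
  .w1 48 12 0,
  .O 4 5 2 3 1,
  .w2 96 5 7,
  .w1 96 5 4,
  .w1 96 5 3,
  .O 5 6 0 2 1,
  .w2 96 33 7,
  .w1 96 33 4,
  .w1 96 33 3,
  .w2 96 33 2,
  .O 5 6 0 5 1,
  .w2 96 132 0,
  .O 5 6 2 7 1,
  .w2 96 144 0,
  .w2 96 160 0,
  .O 5 6 5 7 1,
  .w2 160 129 6,
  .w1 160 129 4,
  .w2 160 129 3,
  .w1 160 12 0,
  .O 5 7 2 3 1,
  .w1 160 132 0,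
  .O 5 7 2 7 1,
  .w1 160 144 0,
  .w2 160 144 0,
  .O 5 7 4 7 1,
  .w1 160 160 0,
  .w2 160 160 0,
  .w2 3 24 7,
  .w2 3 24 6,
  .w1 3 24 5,
  .O 0 1 3 4 2,
  .w2 33 10 7,
  .w1 33 10 6,
  .w1 33 10 4,
  .O 0 5 1 3 2,
  .w2 33 40 1,
  .O 0 5 3 5 2,
  .w2 33 160 1,
  .O 0 5 5 7 2,
  .w1 129 10 6,
  .w1 129 10 5,
  .w1 129 10 4,
  .O 0 7 1 3 2,
  .w2 10 24 0,
  .O 1 3 3 4 2,
  .w2 10 160 0,
  .O 1 3 5 7 2,
  .w2 34 144 0,
  .O 1 5 4 7 2,
  .w2 66 144 0,
  .O 1 6 4 7 2,
  .w2 24 3 7,
  .w1 24 3 6,
  .w1 24 3 5,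
  .O 3 4 0 1 2,
  .w1 24 10 0,
  .O 3 4 1 3 2,
  .w1 24 130 0,
  .O 3 4 1 7 2,
  .w1 96 10 0,
  .O 5 6 1 3 2,
  .O 5 6 4 7 2,
  .w1 160 129 1,
  .O 5 7 0 7 2,
  .w1 160 34 0,
  .O 5 7 1 5 2,
  .w1 160 130 0,
  .O 5 7 1 7 2,
  .O 5 7 5 7 2]

theorem a1 : axchk 8 1 1 true (Tr.get ⟨9, 0, 0, 0⟩ v) (Tr.get 0 g) l1 698 500 = true := by
  decide +kernel

theorem t0 : chk (Tr.get 0 g) (Tr.get 0 h) 376 698 = true := by decide +kernel

theorem z : Tr.get 0 g 1073 = 0 := by decide +kernel

theorem bad {α : Type*} [DecidableEq α] (c : Cx α) (hn : c.n = 8) (ha : c.a = 1) (hb : c.b = 1)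
    (hcl : c.closed = true) : False := by
  have s0 := axchk_sound c hn ha hb hcl (by norm_num) _ _ _ _ _ a0
  have s0 := s0.trans (axchk_sound c hn ha hb hcl (by norm_num) _ _ _ _ _ a1)
  have s0 := chk_sound' t0 (e := 1074) rfl s0
  exact s0.false z

end Pool.Agent.Gabow87.K3.C111
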