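import Pool.Agent.Gabow87.Refute

/-! Certificate; see `Pool/Agent/Gabow87/Refute.lean`. -/

set_option autoImplicit false
set_option maxRecDepth 100000

namespace Pool.Agent.Gabow87.K3.C201

open Pool.Agent.Gabow87.Sat

def v : Tr VC := (.node (.node (.node (.node (.node (.node (.node (.node (.node (.leaf ⟨0, 7, 0, 0⟩)
(.leaf ⟨5, 192, 136, 1⟩))
(.node (.leaf ⟨5, 10, 6, 5⟩)
(.leaf ⟨5, 72, 129, 1⟩)))
(.node (.node (.leaf ⟨1, 41, 0, 0⟩)
(.leaf ⟨5, 72, 5, 4⟩))
(.leaf ⟨5, 72, 132, 4⟩)))
(.node (.node (.node (.leaf ⟨0, 138, 0, 0⟩)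
(.leaf ⟨5, 33, 24, 7⟩))
(.leaf ⟨5, 36, 144, 6⟩))
(.node (.node (.leaf ⟨1, 164, 0, 0⟩)
(.leaf ⟨5, 192, 144, 0⟩))
(.leaf ⟨5, 144, 160, 2⟩))))
(.node (.node (.node (.node (.leaf ⟨0, 67, 0, 0⟩)
(.leaf ⟨5, 17, 12, 6⟩))
(.leaf ⟨5, 66, 132, 3⟩))
(.node (.node (.leaf ⟨1, 74, 0, 0⟩)
(.leaf ⟨5, 144, 129, 6⟩))
(.leaf ⟨5, 144, 130, 5⟩)))
(.node (.node (.node (.leaf ⟨0, 196, 0, 0⟩)
(.leaf ⟨5, 12, 129, 6⟩))
(.leaf ⟨5, 24, 10, 5⟩))
(.node (.node (.leaf ⟨3, 6, 3, 0⟩)
(.leaf ⟨5, 17, 72, 1⟩))
(.leaf ⟨5, 160, 192, 3⟩)))))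
(.node (.node (.node (.node (.node (.leaf ⟨0, 21, 0, 0⟩)
(.leaf ⟨5, 5, 129, 6⟩))
(.node (.leaf ⟨5, 18, 72, 7⟩)
(.leaf ⟨5, 144, 3, 5⟩)))
(.node (.node (.leaf ⟨1, 49, 0, 0⟩)
(.leaf ⟨5, 80, 5, 7⟩))
(.leaf ⟨5, 136, 192, 5⟩)))
(.node (.node (.node (.leaf ⟨0, 44, 0, 0⟩)
(.leaf ⟨5, 129, 24, 5⟩))
(.leaf ⟨5, 132, 160, 6⟩))
(.node (.node (.leaf ⟨1, 208, 0, 0⟩)
(.leaf ⟨5, 9, 136, 1⟩))
(.leaf ⟨5, 96, 132, 3⟩))))
(.node (.node (.node (.node (.leaf ⟨0, 161, 0, 0⟩)
(.leaf ⟨5, 17, 192, 5⟩))
(.leaf ⟨5, 20, 130, 6⟩))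
(.node (.node (.leaf ⟨1, 194, 0, 0⟩)
(.leaf ⟨5, 96, 5, 3⟩))
(.leaf ⟨5, 144, 132, 3⟩)))
(.node (.node (.node (.leaf ⟨0, 176, 0, 0⟩)
(.leaf ⟨5, 132, 160, 0⟩))
(.leaf ⟨5, 72, 10, 4⟩))
(.node (.node (.leaf ⟨3, 7, 3, 0⟩)
(.leaf ⟨5, 34, 24, 0⟩))
(.leaf ⟨5, 192, 24, 5⟩))))))
(.node (.node (.node (.node (.node (.node (.leaf ⟨1, 14, 0, 0⟩)
(.leaf ⟨5, 5, 9, 7⟩))
(.node (.leaf ⟨5, 10, 24, 5⟩)
(.leaf ⟨5, 80, 129, 1⟩)))
(.node (.node (.leaf ⟨1, 67, 0, 0⟩)
(.leaf ⟨5, 136, 129, 5⟩))
(.leaf ⟨5, 72, 192, 2⟩)))
(.node (.node (.node (.leaf ⟨0, 146, 0, 0⟩)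
(.leaf ⟨5, 65, 136, 5⟩))
(.leaf ⟨5, 68, 130, 4⟩))
(.node (.node (.leaf ⟨1, 152, 0, 0⟩)
(.leaf ⟨5, 3, 10, 4⟩))
(.leaf ⟨5, 96, 6, 3⟩))))
(.node (.node (.node (.node (.leaf ⟨0, 49, 0, 0⟩)
(.leaf ⟨5, 17, 24, 5⟩))
(.leaf ⟨5, 130, 130, 3⟩))
(.node (.node (.leaf ⟨1, 50, 0, 0⟩)
(.leaf ⟨5, 144, 132, 0⟩))
(.leaf ⟨5, 144, 12, 5⟩)))
(.node (.node (.node (.leaf ⟨0, 104, 0, 0⟩)
(.leaf ⟨5, 68, 129, 5⟩))
(.leaf ⟨5, 40, 132, 4⟩))
(.node (.node (.leaf ⟨3, 6, 5, 0⟩)
(.leaf ⟨5, 129, 24, 1⟩))
(.leaf ⟨5, 192, 12, 4⟩)))))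
(.node (.node (.node (.node (.node (.leaf ⟨0, 37, 0, 0⟩)
(.leaf ⟨5, 9, 136, 6⟩))
(.leaf ⟨5, 34, 24, 7⟩))
(.node (.node (.leaf ⟨1, 193, 0, 0⟩)
(.leaf ⟨5, 80, 129, 3⟩))
(.leaf ⟨5, 80, 10, 5⟩)))
(.node (.node (.node (.leaf ⟨0, 84, 0, 0⟩)
(.leaf ⟨5, 129, 160, 2⟩))
(.leaf ⟨5, 24, 6, 6⟩))
(.node (.node (.leaf ⟨2, 4, 6, 0⟩)
(.leaf ⟨5, 17, 130, 6⟩))
(.leaf ⟨5, 160, 144, 6⟩))))
(.node (.node (.node (.node (.leaf ⟨0, 42, 0, 0⟩)
(.leaf ⟨5, 33, 12, 4⟩))
(.leaf ⟨5, 20, 40, 6⟩))
(.node (.node (.leaf ⟨1, 52, 0, 0⟩)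
(.leaf ⟨5, 192, 132, 0⟩))
(.leaf ⟨5, 144, 72, 5⟩)))
(.node (.node (.node (.leaf ⟨1, 13, 0, 0⟩)
(.leaf ⟨5, 24, 129, 6⟩))
(.leaf ⟨5, 72, 12, 5⟩))
(.node (.node (.leaf ⟨5, 6, 10, 5⟩)
(.leaf ⟨5, 24, 3, 5⟩))
(.leaf ⟨5, 192, 40, 1⟩)))))))
(.node (.node (.node (.node (.node (.node (.node (.leaf ⟨0, 14, 0, 0⟩)
(.leaf ⟨5, 192, 144, 3⟩))
(.node (.leaf ⟨5, 10, 24, 7⟩)
(.leaf ⟨5, 72, 130, 0⟩)))
(.node (.node (.leaf ⟨1, 73, 0, 0⟩)
(.leaf ⟨5, 72, 129, 4⟩))
(.leaf ⟨5, 72, 192, 5⟩)))
(.node (.node (.node (.leaf ⟨0, 50, 0, 0⟩)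
(.leaf ⟨5, 65, 24, 7⟩))
(.leaf ⟨5, 36, 144, 1⟩))
(.node (.node (.leaf ⟨1, 56, 0, 0⟩)
(.leaf ⟨5, 3, 10, 6⟩))
(.leaf ⟨5, 96, 6, 7⟩))))
(.node (.node (.node (.node (.leaf ⟨0, 133, 0, 0⟩)
(.leaf ⟨5, 17, 24, 7⟩))
(.leaf ⟨5, 130, 130, 5⟩))
(.node (.node (.leaf ⟨1, 138, 0, 0⟩)
(.leaf ⟨5, 144, 129, 3⟩))
(.leaf ⟨5, 144, 130, 2⟩)))
(.node (.node (.node (.leaf ⟨0, 88, 0, 0⟩)
(.leaf ⟨5, 12, 129, 4⟩))
(.leaf ⟨5, 24, 130, 5⟩))
(.node (.node (.leaf ⟨3, 6, 4, 0⟩)
(.leaf ⟨5, 33, 24, 1⟩))
(.leaf ⟨5, 160, 192, 1⟩)))))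
(.node (.node (.node (.node (.node (.leaf ⟨0, 19, 0, 0⟩)
(.leaf ⟨5, 5, 129, 4⟩))
(.node (.leaf ⟨5, 18, 192, 5⟩)
(.leaf ⟨5, 144, 129, 1⟩)))
(.node (.node (.leaf ⟨1, 145, 0, 0⟩)
(.leaf ⟨5, 80, 5, 3⟩))
(.leaf ⟨5, 136, 192, 2⟩)))
(.node (.node (.node (.leaf ⟨0, 140, 0, 0⟩)
(.leaf ⟨5, 129, 160, 4⟩))
(.leaf ⟨5, 132, 160, 3⟩))
(.node (.node (.leaf ⟨2, 4, 4, 0⟩)
(.leaf ⟨5, 17, 10, 6⟩))
(.leaf ⟨5, 96, 24, 7⟩))))
(.node (.node (.node (.node (.leaf ⟨0, 26, 0, 0⟩)
(.leaf ⟨5, 33, 12, 7⟩))
(.leaf ⟨5, 20, 130, 3⟩))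
(.node (.node (.leaf ⟨1, 76, 0, 0⟩)
(.leaf ⟨5, 160, 144, 0⟩))
(.leaf ⟨5, 144, 40, 2⟩)))
(.node (.node (.node (.leaf ⟨0, 224, 0, 0⟩)
(.leaf ⟨5, 24, 5, 6⟩))
(.leaf ⟨5, 72, 130, 4⟩))
(.node (.node (.leaf ⟨5, 6, 10, 7⟩)
(.leaf ⟨5, 24, 3, 7⟩))
(.leaf ⟨5, 192, 40, 4⟩))))))
(.node (.node (.node (.node (.node (.node (.leaf ⟨0, 25, 0, 0⟩)
(.leaf ⟨5, 5, 9, 5⟩))
(.node (.leaf ⟨5, 18, 132, 5⟩)
(.leaf ⟨5, 80, 130, 0⟩)))
(.node (.node (.leaf ⟨1, 133, 0, 0⟩)
(.leaf ⟨5, 136, 20, 0⟩))
(.leaf ⟨5, 136, 20, 6⟩)))
(.node (.node (.node (.leaf ⟨0, 162, 0, 0⟩)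
(.leaf ⟨5, 65, 136, 2⟩))
(.leaf ⟨5, 132, 80, 5⟩))
(.node (.node (.leaf ⟨1, 200, 0, 0⟩)
(.leaf ⟨5, 9, 130, 5⟩))
(.leaf ⟨5, 96, 10, 4⟩))))
(.node (.node (.node (.node (.leaf ⟨0, 145, 0, 0⟩)
(.leaf ⟨5, 17, 72, 5⟩))
(.leaf ⟨5, 20, 10, 6⟩))
(.node (.node (.leaf ⟨1, 146, 0, 0⟩)
(.leaf ⟨5, 96, 5, 7⟩))
(.leaf ⟨5, 144, 132, 6⟩)))
(.node (.node (.node (.leaf ⟨0, 200, 0, 0⟩)
(.leaf ⟨5, 68, 129, 3⟩))
(.leaf ⟨5, 72, 10, 7⟩))
(.node (.node (.leaf ⟨3, 7, 7, 0⟩)
(.leaf ⟨5, 18, 72, 0⟩))
(.leaf ⟨5, 192, 132, 4⟩)))))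
(.node (.node (.node (.node (.node (.leaf ⟨0, 73, 0, 0⟩)
(.leaf ⟨5, 9, 136, 4⟩))
(.leaf ⟨5, 66, 132, 5⟩))
(.node (.node (.leaf ⟨1, 22, 0, 0⟩)
(.leaf ⟨5, 144, 5, 5⟩))
(.leaf ⟨5, 80, 130, 3⟩)))
(.node (.node (.node (.leaf ⟨0, 100, 0, 0⟩)
(.leaf ⟨5, 12, 17, 6⟩))
(.leaf ⟨5, 24, 10, 7⟩))
(.node (.node (.leaf ⟨2, 6, 6, 0⟩)
(.leaf ⟨5, 17, 130, 3⟩))
(.leaf ⟨5, 160, 144, 1⟩))))
(.node (.node (.node (.node (.leaf ⟨0, 74, 0, 0⟩)
(.leaf ⟨5, 33, 132, 4⟩))
(.leaf ⟨5, 20, 192, 5⟩))
(.node (.node (.leaf ⟨1, 148, 0, 0⟩)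
(.leaf ⟨5, 192, 40, 0⟩))
(.leaf ⟨5, 144, 160, 6⟩)))
(.node (.node (.node (.leaf ⟨1, 11, 0, 0⟩)
(.leaf ⟨5, 72, 5, 7⟩))
(.leaf ⟨5, 72, 12, 1⟩))
(.node (.node (.leaf ⟨5, 10, 6, 7⟩)
(.leaf ⟨5, 24, 10, 0⟩))
(.leaf ⟨5, 192, 136, 4⟩))))))))
(.node (.node (.node (.node (.node (.node (.node (.node (.leaf ⟨1, 7, 0, 0⟩)
(.leaf ⟨5, 192, 144, 5⟩))
(.node (.leaf ⟨5, 10, 6, 4⟩)
(.leaf ⟨5, 72, 10, 0⟩)))
(.node (.node (.leaf ⟨1, 35, 0, 0⟩)
(.leaf ⟨5, 72, 129, 5⟩))
(.leaf ⟨5, 72, 132, 1⟩)))
(.node (.node (.node (.leaf ⟨0, 134, 0, 0⟩)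
(.leaf ⟨5, 33, 24, 6⟩))
(.leaf ⟨5, 36, 144, 3⟩))
(.node (.node (.leaf ⟨1, 196, 0, 0⟩)
(.leaf ⟨5, 3, 10, 7⟩))
(.leaf ⟨5, 144, 160, 1⟩))))
(.node (.node (.node (.node (.leaf ⟨0, 137, 0, 0⟩)
(.leaf ⟨5, 17, 12, 5⟩))
(.leaf ⟨5, 130, 130, 6⟩))
(.node (.node (.leaf ⟨1, 70, 0, 0⟩)
(.leaf ⟨5, 144, 129, 5⟩))
(.leaf ⟨5, 144, 130, 3⟩)))
(.node (.node (.node (.leaf ⟨0, 56, 0, 0⟩)
(.leaf ⟨5, 12, 129, 5⟩))
(.leaf ⟨5, 24, 130, 6⟩))
(.node (.node (.leaf ⟨2, 6, 4, 0⟩)
(.leaf ⟨5, 17, 192, 1⟩))
(.leaf ⟨5, 160, 192, 2⟩)))))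
(.node (.node (.node (.node (.node (.leaf ⟨0, 11, 0, 0⟩)
(.leaf ⟨5, 5, 129, 5⟩))
(.node (.leaf ⟨5, 18, 72, 5⟩)
(.leaf ⟨5, 144, 3, 3⟩)))
(.node (.node (.leaf ⟨1, 81, 0, 0⟩)
(.leaf ⟨5, 80, 5, 5⟩))
(.leaf ⟨5, 136, 192, 4⟩)))
(.node (.node (.node (.leaf ⟨0, 76, 0, 0⟩)
(.leaf ⟨5, 129, 160, 6⟩))
(.leaf ⟨5, 132, 160, 4⟩))
(.node (.node (.leaf ⟨1, 224, 0, 0⟩)
(.leaf ⟨5, 17, 10, 7⟩))
(.leaf ⟨5, 96, 132, 1⟩))))
(.node (.node (.node (.node (.leaf ⟨0, 193, 0, 0⟩)
(.leaf ⟨5, 17, 192, 3⟩))
(.leaf ⟨5, 20, 130, 5⟩))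
(.node (.node (.leaf ⟨1, 44, 0, 0⟩)
(.leaf ⟨5, 96, 24, 0⟩))
(.leaf ⟨5, 144, 40, 6⟩)))
(.node (.node (.node (.leaf ⟨0, 208, 0, 0⟩)
(.leaf ⟨5, 24, 5, 7⟩))
(.leaf ⟨5, 72, 130, 5⟩))
(.node (.node (.leaf ⟨2, 7, 6, 0⟩)
(.leaf ⟨5, 130, 130, 0⟩))
(.leaf ⟨5, 192, 24, 2⟩))))))
(.node (.node (.node (.node (.node (.node (.leaf ⟨1, 28, 0, 0⟩)
(.leaf ⟨5, 5, 9, 6⟩))
(.node (.leaf ⟨5, 18, 132, 6⟩)
(.leaf ⟨5, 80, 10, 0⟩)))
(.node (.node (.leaf ⟨1, 137, 0, 0⟩)
(.leaf ⟨5, 136, 129, 4⟩))
(.leaf ⟨5, 72, 192, 1⟩)))
(.node (.node (.node (.leaf ⟨0, 98, 0, 0⟩)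
(.leaf ⟨5, 65, 136, 4⟩))
(.leaf ⟨5, 68, 130, 3⟩))
(.node (.node (.leaf ⟨1, 168, 0, 0⟩)
(.leaf ⟨5, 9, 130, 6⟩))
(.leaf ⟨5, 96, 10, 7⟩))))
(.node (.node (.node (.node (.leaf ⟨0, 81, 0, 0⟩)
(.leaf ⟨5, 17, 72, 7⟩))
(.leaf ⟨5, 20, 10, 7⟩))
(.node (.node (.leaf ⟨1, 82, 0, 0⟩)
(.leaf ⟨5, 144, 72, 0⟩))
(.leaf ⟨5, 144, 12, 1⟩)))
(.node (.node (.node (.leaf ⟨0, 168, 0, 0⟩)
(.leaf ⟨5, 68, 129, 4⟩))
(.leaf ⟨5, 40, 132, 1⟩))
(.node (.node (.leaf ⟨2, 7, 7, 0⟩)
(.leaf ⟨5, 10, 24, 0⟩))
(.leaf ⟨5, 192, 132, 5⟩)))))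
(.node (.node (.node (.node (.node (.leaf ⟨0, 35, 0, 0⟩)
(.leaf ⟨5, 9, 136, 5⟩))
(.leaf ⟨5, 34, 24, 6⟩))
(.node (.node (.leaf ⟨1, 26, 0, 0⟩)
(.leaf ⟨5, 144, 5, 6⟩))
(.leaf ⟨5, 80, 130, 5⟩)))
(.node (.node (.node (.leaf ⟨0, 148, 0, 0⟩)
(.leaf ⟨5, 12, 17, 7⟩))
(.leaf ⟨5, 24, 6, 5⟩))
(.node (.node (.leaf ⟨3, 4, 6, 0⟩)
(.leaf ⟨5, 17, 130, 5⟩))
(.leaf ⟨5, 160, 144, 3⟩))))
(.node (.node (.node (.node (.leaf ⟨0, 38, 0, 0⟩)
(.leaf ⟨5, 33, 132, 6⟩))
(.leaf ⟨5, 20, 40, 1⟩))
(.node (.node (.leaf ⟨1, 84, 0, 0⟩)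
(.leaf ⟨5, 192, 24, 0⟩))
(.leaf ⟨5, 144, 72, 2⟩)))
(.node (.node (.node (.leaf ⟨1, 21, 0, 0⟩)
(.leaf ⟨5, 24, 129, 5⟩))
(.leaf ⟨5, 72, 12, 4⟩))
(.node (.node (.leaf ⟨5, 6, 10, 4⟩)
(.leaf ⟨5, 24, 129, 1⟩))
(.leaf ⟨5, 192, 136, 5⟩)))))))
(.node (.node (.node (.node (.node (.node (.node (.leaf ⟨0, 28, 0, 0⟩)
(.leaf ⟨5, 192, 144, 1⟩))
(.node (.leaf ⟨5, 10, 24, 6⟩)
(.leaf ⟨5, 136, 129, 1⟩)))
(.node (.node (.leaf ⟨1, 69, 0, 0⟩)
(.leaf ⟨5, 136, 129, 6⟩))
(.leaf ⟨5, 72, 192, 4⟩)))
(.node (.node (.node (.leaf ⟨0, 82, 0, 0⟩)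
(.leaf ⟨5, 65, 24, 5⟩))
(.leaf ⟨5, 68, 130, 5⟩))
(.node (.node (.leaf ⟨1, 88, 0, 0⟩)
(.leaf ⟨5, 3, 10, 5⟩))
(.leaf ⟨5, 96, 6, 4⟩))))
(.node (.node (.node (.node (.leaf ⟨0, 131, 0, 0⟩)
(.leaf ⟨5, 17, 24, 6⟩))
(.leaf ⟨5, 130, 130, 4⟩))
(.node (.node (.leaf ⟨1, 134, 0, 0⟩)
(.leaf ⟨5, 144, 12, 0⟩))
(.leaf ⟨5, 144, 12, 6⟩)))
(.node (.node (.node (.leaf ⟨0, 152, 0, 0⟩)
(.leaf ⟨5, 20, 192, 0⟩))
(.leaf ⟨5, 40, 132, 6⟩))
(.node (.node (.leaf ⟨2, 6, 5, 0⟩)
(.leaf ⟨5, 65, 24, 1⟩))
(.leaf ⟨5, 192, 12, 5⟩)))))
(.node (.node (.node (.node (.node (.leaf ⟨0, 41, 0, 0⟩)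
(.leaf ⟨5, 5, 129, 3⟩))
(.node (.leaf ⟨5, 18, 192, 3⟩)
(.leaf ⟨5, 96, 10, 0⟩)))
(.node (.node (.leaf ⟨1, 161, 0, 0⟩)
(.leaf ⟨5, 80, 129, 5⟩))
(.leaf ⟨5, 80, 10, 7⟩)))
(.node (.node (.node (.leaf ⟨0, 52, 0, 0⟩)
(.leaf ⟨5, 129, 160, 3⟩))
(.leaf ⟨5, 24, 6, 7⟩))
(.node (.node (.leaf ⟨3, 4, 4, 0⟩)
(.leaf ⟨5, 17, 10, 5⟩))
(.leaf ⟨5, 96, 24, 1⟩))))
(.node (.node (.node (.node (.leaf ⟨0, 22, 0, 0⟩)
(.leaf ⟨5, 33, 12, 6⟩))
(.leaf ⟨5, 20, 40, 7⟩))
(.node (.node (.leaf ⟨1, 140, 0, 0⟩)
(.leaf ⟨5, 192, 12, 0⟩))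
(.leaf ⟨5, 144, 40, 1⟩)))
(.node (.node (.node (.leaf ⟨1, 25, 0, 0⟩)
(.leaf ⟨5, 24, 5, 5⟩))
(.leaf ⟨5, 72, 12, 7⟩))
(.node (.node (.leaf ⟨5, 6, 10, 6⟩)
(.leaf ⟨5, 24, 3, 6⟩))
(.leaf ⟨5, 192, 40, 2⟩))))))
(.node (.node (.node (.node (.node (.node (.leaf ⟨0, 13, 0, 0⟩)
(.leaf ⟨5, 5, 9, 4⟩))
(.node (.leaf ⟨5, 18, 132, 3⟩)
(.leaf ⟨5, 144, 3, 6⟩)))
(.node (.node (.leaf ⟨1, 131, 0, 0⟩)
(.leaf ⟨5, 136, 192, 0⟩))
(.leaf ⟨5, 136, 20, 5⟩)))
(.node (.node (.node (.leaf ⟨0, 194, 0, 0⟩)
(.leaf ⟨5, 129, 24, 6⟩))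
(.leaf ⟨5, 132, 80, 3⟩))
(.node (.node (.leaf ⟨1, 176, 0, 0⟩)
(.leaf ⟨5, 9, 130, 4⟩))
(.leaf ⟨5, 96, 132, 4⟩))))
(.node (.node (.node (.node (.leaf ⟨0, 97, 0, 0⟩)
(.leaf ⟨5, 17, 72, 2⟩))
(.leaf ⟨5, 20, 10, 5⟩))
(.node (.node (.leaf ⟨1, 162, 0, 0⟩)
(.leaf ⟨5, 96, 5, 4⟩))
(.leaf ⟨5, 144, 132, 5⟩)))
(.node (.node (.node (.leaf ⟨0, 112, 0, 0⟩)
(.leaf ⟨5, 132, 80, 0⟩))
(.leaf ⟨5, 72, 10, 5⟩))
(.node (.node (.leaf ⟨2, 7, 3, 0⟩)
(.leaf ⟨5, 18, 192, 0⟩))
(.leaf ⟨5, 192, 132, 3⟩)))))
(.node (.node (.node (.node (.node (.leaf ⟨0, 69, 0, 0⟩)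
(.leaf ⟨5, 17, 12, 7⟩))
(.leaf ⟨5, 66, 132, 4⟩))
(.node (.node (.leaf ⟨1, 42, 0, 0⟩)
(.leaf ⟨5, 144, 5, 3⟩))
(.leaf ⟨5, 144, 130, 6⟩)))
(.node (.node (.node (.leaf ⟨0, 164, 0, 0⟩)
(.leaf ⟨5, 12, 17, 5⟩))
(.leaf ⟨5, 24, 10, 6⟩))
(.node (.node (.leaf ⟨2, 6, 3, 0⟩)
(.leaf ⟨5, 17, 24, 1⟩))
(.leaf ⟨5, 160, 192, 4⟩))))
(.node (.node (.node (.node (.leaf ⟨0, 70, 0, 0⟩)
(.leaf ⟨5, 33, 132, 3⟩))
(.leaf ⟨5, 20, 192, 3⟩))
(.node (.node (.leaf ⟨1, 100, 0, 0⟩)
(.leaf ⟨5, 192, 136, 0⟩))
(.leaf ⟨5, 144, 160, 3⟩)))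
(.node (.node (.node (.leaf ⟨1, 19, 0, 0⟩)
(.leaf ⟨5, 72, 5, 5⟩))
(.leaf ⟨5, 72, 132, 5⟩))
(.node (.node (.leaf ⟨5, 10, 6, 6⟩)
(.leaf ⟨5, 24, 130, 0⟩))
(.leaf ⟨5, 192, 136, 2⟩)))))))))

def g : Tr Nat := (.node (.node (.node (.node (.node (.node (.node (.node (.node (.node (.node (.leaf 1)
(.leaf 46121995579466))
(.leaf 93190831485812768))
(.node (.leaf 11341415522430)
(.leaf 206371404097683474)))
(.node (.node (.node (.leaf 5429392474174)
(.leaf 872890578))
(.leaf 176680))
(.node (.leaf 242146177373430087702)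
(.leaf 2366083212))))
(.node (.node (.node (.node (.leaf 3505314471972)
(.leaf 245722191242266669424680))
(.leaf 373180))
(.node (.leaf 56587123834814476)
(.leaf 620826670)))
(.node (.node (.node (.leaf 7904568967266)
(.leaf 219))
(.leaf 414342))
(.node (.leaf 23366615442510048)
(.leaf 346)))))
(.node (.node (.node (.node (.node (.leaf 22241678144749602)
(.leaf 195094945987289184))
(.leaf 108957279411822622))
(.node (.leaf 8454626361492)
(.leaf 215915845946867720)))
(.node (.node (.node (.leaf 5292624732240)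
(.leaf 12578047074396))
(.leaf 693074468815275491368))
(.node (.leaf 239839771551769092134)
(.leaf 3037335752))))
(.node (.node (.node (.node (.leaf 3092997283892)
(.leaf 245655349103716490195053))
(.leaf 397812))
(.node (.leaf 13815785767120)
(.leaf 1090736232)))
(.node (.node (.leaf 7903595651182)
(.leaf 193204))
(.node (.leaf 839960)
(.leaf 7835541552))))))
(.node (.node (.node (.node (.node (.node (.leaf 2680412217346)
(.leaf 760))
(.leaf 405866))
(.node (.leaf 12166116466832)
(.leaf 210843659993309240)))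
(.node (.node (.node (.leaf 4604859261002)
(.leaf 696))
(.leaf 750144))
(.node (.leaf 237532803604989771844)
(.leaf 2768900274))))
(.node (.node (.node (.node (.leaf 3505347952686)
(.leaf 59990770859461042386))
(.leaf 823766))
(.node (.leaf 14502746333378)
(.leaf 285298702)))
(.node (.node (.leaf 7491513811048)
(.leaf 496288))
(.node (.leaf 684286)
(.leaf 26188412592158)))))
(.node (.node (.node (.node (.node (.leaf 27309327337685030)
(.leaf 38847122044985550))
(.leaf 717218))
(.node (.leaf 11341415637002)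
(.leaf 463634)))
(.node (.node (.node (.leaf 29561814245466196)
(.leaf 749648))
(.leaf 174838508245549120))
(.node (.leaf 242146177648408723496)
(.leaf 112))))
(.node (.node (.node (.node (.leaf 4467655606278)
(.leaf 87812962095533054400333121397847067378201))
(.leaf 607737443239609229314))
(.node (.leaf 237532803604989124614)
(.leaf 1694904426)))
(.node (.node (.leaf 7491278749812)
(.leaf 635594))
(.node (.leaf 717108)
(.leaf 42135292612752)))))))
(.node (.node (.node (.node (.node (.node (.node (.leaf 2130589171714)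
(.leaf 202980507016462352))
(.leaf 405852))
(.node (.leaf 12166217146506)
(.leaf 208612756000129050)))
(.node (.node (.node (.leaf 5429493186626)
(.leaf 872571022))
(.leaf 864818))
(.node (.leaf 242146177235957620770)
(.leaf 3171643534))))
(.node (.node (.node (.node (.leaf 3092728938540)
(.leaf 182120232809717969))
(.leaf 430538))
(.node (.leaf 54900748916146364)
(.leaf 69647)))
(.node (.node (.node (.leaf 7903495012456)
(.leaf 224))
(.leaf 578194))
(.node (.leaf 23366615442600176)
(.leaf 362)))))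
(.node (.node (.node (.node (.node (.leaf 5292624912424)
(.leaf 44793703157609357311985515256545356))
(.leaf 438674))
(.node (.leaf 10516412817560)
(.leaf 893697450889940885590)))
(.node (.node (.node (.leaf 28435776094273544)
(.leaf 3070681202))
(.leaf 619108))
(.node (.leaf 242146179298146025540)
(.leaf 14020585848890))))
(.node (.node (.node (.node (.leaf 3367842005044)
(.leaf 239820623556167336050))
(.leaf 324098))
(.node (.leaf 235226397233370931206)
(.leaf 1124233296)))
(.node (.node (.leaf 27308502435242100)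
(.leaf 196785308078555216))
(.node (.leaf 315686)
(.leaf 37598699581462))))))
(.node (.node (.node (.node (.node (.node (.leaf 10979792287916034)
(.leaf 12936728660))
(.leaf 749944))
(.node (.leaf 13403335393416)
(.leaf 414456)))
(.node (.node (.node (.leaf 5154413936718)
(.leaf 211024617022467694706))
(.leaf 127566))
(.node (.leaf 242146180122980966438)
(.leaf 13815215779984))))
(.node (.node (.node (.node (.leaf 8041470951474)
(.leaf 10935943483740390544672565653677))
(.leaf 315878))
(.node (.leaf 12028442378444)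
(.leaf 620916788)))
(.node (.node (.leaf 8041001074796)
(.leaf 578218))
(.node (.leaf 291084)
(.leaf 412)))))
(.node (.node (.node (.node (.node (.leaf 3368043102232)
(.leaf 4122534354061896188246758723661))
(.leaf 799150))
(.node (.leaf 11615722815662)
(.leaf 799108898906123788384)))
(.node (.node (.node (.leaf 5704773558362)
(.leaf 270444))
(.leaf 177653945374621750))
(.node (.leaf 897241)
(.leaf 6667114852596))))
(.node (.node (.node (.node (.leaf 5429862522944)
(.leaf 20785247735416807565))
(.leaf 823838))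
(.node (.leaf 242146178885694783510)
(.leaf 1426329704)))
(.node (.node (.leaf 31250939520254070)
(.leaf 676564))
(.node (.leaf 840000)
(.leaf 2609214))))))))
(.node (.node (.node (.node (.node (.node (.node (.node (.leaf 9)
(.leaf 2805836))
(.leaf 373076))
(.node (.leaf 11891339239552)
(.leaf 207485343896395794)))
(.node (.node (.node (.leaf 4604859260994)
(.leaf 872890408))
(.leaf 168494))
(.node (.leaf 235226396683481399324)
(.leaf 2366083256))))
(.node (.node (.node (.node (.leaf 31250526800961578)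
(.leaf 623499985166714070696046))
(.leaf 299460))
(.node (.leaf 11341046284472)
(.leaf 654446644)))
(.node (.node (.node (.leaf 6254227431528)
(.leaf 110))
(.leaf 144014))
(.node (.leaf 16084217241798)
(.leaf 354)))))
(.node (.node (.node (.node (.node (.leaf 5429962997800)
(.leaf 92266383011826442418))
(.leaf 250252))
(.node (.leaf 14228304715926)
(.leaf 889006369544456937556)))
(.node (.node (.node (.leaf 5978879795208)
(.leaf 219070012572798754889))
(.leaf 170896896263979014))
(.node (.leaf 239839771551769100328)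
(.leaf 14090765013202))))
(.node (.node (.node (.node (.leaf 7491748634676)
(.leaf 3575728521326))
(.leaf 142179437541597236))
(.node (.leaf 13815785767122)
(.leaf 1023668296)))
(.node (.node (.leaf 6254227513458)
(.leaf 195658720808575056))
(.node (.leaf 774432)
(.leaf 518))))))
(.node (.node (.node (.node (.node (.node (.leaf 2543141134338)
(.leaf 3125390))
(.leaf 430448))
(.node (.leaf 12166250700944)
(.leaf 211970109789487164)))
(.node (.node (.node (.leaf 5429929631818)
(.leaf 704))
(.leaf 823878))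
(.node (.leaf 242146180122981072964)
(.leaf 2768900302))))
(.node (.node (.node (.node (.leaf 2543274958898)
(.leaf 9484160745600))
(.leaf 709086))
(.node (.leaf 12303453954246)
(.leaf 620916782)))
(.node (.node (.leaf 7904636133480)
(.leaf 570022))
(.node (.leaf 298679026289899225108)
(.leaf 390)))))
(.node (.node (.node (.node (.node (.leaf 1168583434254)
(.leaf 92266374216538169552))
(.leaf 471464))
(.node (.leaf 13815685103782)
(.leaf 909845672090973823068)))
(.node (.node (.node (.leaf 26746514118492248)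
(.leaf 1644650605))
(.leaf 720671946647894949956))
(.node (.leaf 199)
(.leaf 5704740098272))))
(.node (.node (.node (.node (.leaf 21678315807342652)
(.leaf 872878246))
(.leaf 569880))
(.node (.leaf 239839771139317940242)
(.leaf 1493512286)))
(.node (.node (.leaf 5292221907062)
(.leaf 709328))
(.node (.leaf 364858)
(.leaf 634)))))))
(.node (.node (.node (.node (.node (.node (.node (.leaf 2680512782338)
(.leaf 12467859488))
(.leaf 405858))
(.node (.leaf 12166116286608)
(.leaf 209739618214527014)))
(.node (.node (.node (.leaf 7766962241606)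
(.leaf 213198))
(.leaf 168506))
(.node (.leaf 237532804429858250786)
(.leaf 2064117910))))
(.node (.node (.node (.node (.leaf 2543274958894)
(.leaf 245722195748135046553665))
(.leaf 455120))
(.node (.leaf 13815115120830)
(.leaf 2680512655468)))
(.node (.node (.node (.leaf 6254697398376)
(.leaf 225))
(.leaf 455320))
(.node (.leaf 258296)
(.leaf 372)))))
(.node (.node (.node (.node (.node (.leaf 3368043102234)
(.leaf 32662643412902062))
(.leaf 455066))
(.node (.leaf 11341415522314)
(.leaf 219297119951954010)))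
(.node (.node (.node (.leaf 7354645381202)
(.leaf 12576889708660))
(.leaf 173129037509238840))
(.node (.leaf 237532804429858275368)
(.leaf 14158058455126))))
(.node (.node (.node (.node (.leaf 4192206970886)
(.leaf 3575309062251))
(.leaf 569866))
(.node (.leaf 237532801405362364436)
(.leaf 1493241888)))
(.node (.node (.leaf 30687439106408564)
(.leaf 209602))
(.node (.leaf 364846)
(.leaf 582))))))
(.node (.node (.node (.node (.node (.node (.leaf 5017411420182)
(.leaf 13103693914))
(.leaf 439369798184916721694))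
(.node (.leaf 10516379009158)
(.leaf 214809054718517256)))
(.node (.node (.node (.leaf 4604859261008)
(.leaf 51517482263519345))
(.leaf 209492))
(.node (.leaf 242146179023167356968)
(.leaf 2802372798))))
(.node (.node (.node (.node (.leaf 8042075078706)
(.leaf 890119052082382720639762546))
(.leaf 791020))
(.node (.leaf 12165914886350)
(.leaf 1023488030)))
(.node (.node (.leaf 5429694464110)
(.leaf 578222))
(.node (.leaf 76298208707928086)
(.leaf 1855536)))))
(.node (.node (.node (.node (.node (.leaf 7216568778782)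
(.leaf 872894513))
(.leaf 373174))
(.node (.leaf 14228338270384)
(.leaf 285274126)))
(.node (.node (.node (.leaf 32940201899098206)
(.leaf 90))
(.leaf 430720))
(.node (.leaf 921823)
(.leaf 262))))
(.node (.node (.node (.node (.leaf 5430130819140)
(.leaf 14644673772085285))
(.leaf 741922))
(.node (.leaf 239839771414262956050)
(.leaf 1661300850)))
(.node (.node (.leaf 9004382855172)
(.leaf 204682141819248658))
(.node (.leaf 91501569208049690)
(.leaf 662)))))))))
(.node (.node (.node (.node (.node (.node (.node (.node (.node (.leaf 5)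
(.leaf 688))
(.leaf 348496))
(.node (.leaf 10241266409600)
(.leaf 847552999421795942418)))
(.node (.node (.node (.leaf 5429392523326)
(.leaf 3575359111310))
(.leaf 184876))
(.node (.leaf 235226398333218603036)
(.leaf 2198335658))))
(.node (.node (.node (.node (.leaf 7492218609700)
(.leaf 1006478095328325926140715048))
(.leaf 831936))
(.node (.leaf 11203539648694)
(.leaf 654422066)))
(.node (.node (.node (.leaf 5017276866664)
(.leaf 80))
(.leaf 438922))
(.node (.leaf 25056152732422372)
(.leaf 1404942)))))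
(.node (.node (.node (.node (.node (.leaf 5429862522914)
(.leaf 198475532630483042))
(.leaf 414088))
(.node (.leaf 8454626361494)
(.leaf 216498591941320788)))
(.node (.node (.node (.leaf 5017612746832)
(.leaf 12577510318121))
(.leaf 340574))
(.node (.leaf 244452585119840534568)
(.leaf 3372970190))))
(.node (.node (.node (.node (.leaf 3230536998964)
(.leaf 872980560))
(.leaf 397816))
(.node (.leaf 12165914886354)
(.leaf 4467789615220)))
(.node (.node (.leaf 7904065527918)
(.leaf 610998))
(.node (.leaf 307484)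
(.leaf 476))))))
(.node (.node (.node (.node (.node (.node (.leaf 1168482795522)
(.leaf 757))
(.leaf 102200230300672024))
(.node (.leaf 12028811739280)
(.leaf 211406884891803704)))
(.node (.node (.node (.leaf 4467890085962)
(.leaf 700))
(.leaf 823874))
(.node (.leaf 237532801817779961896)
(.leaf 3070972100))))
(.node (.node (.node (.node (.leaf 32940201899098160)
(.leaf 37164181086535806))
(.leaf 479706))
(.node (.leaf 52084486715752646)
(.leaf 1426329636)))
(.node (.node (.leaf 7904266952808)
(.leaf 471714))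
(.node (.leaf 233730)
(.leaf 386)))))
(.node (.node (.node (.node (.node (.leaf 6667316445222)
(.leaf 14079111169777872))
(.leaf 373158))
(.node (.leaf 13403368939688)
(.leaf 221574764597100636)))
(.node (.node (.node (.leaf 7492117889108)
(.leaf 203))
(.leaf 175381937102962756))
(.node (.leaf 197)
(.leaf 6117224788186))))
(.node (.node (.node (.node (.leaf 18300066263941126)
(.leaf 3575308685326))
(.leaf 102932))
(.node (.leaf 237532801817779888148)
(.leaf 1392767066)))
(.node (.node (.leaf 7491748634740)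
(.leaf 119500))
(.node (.leaf 86996869800591378)
(.leaf 632)))))))
(.node (.node (.node (.node (.node (.node (.node (.leaf 2542906040322)
(.leaf 50518095458322))
(.leaf 676190))
(.node (.leaf 10241534558352)
(.leaf 209175980898566176)))
(.node (.node (.node (.leaf 5430063874114)
(.leaf 872992951))
(.leaf 750134))
(.node (.leaf 242146180535398465568)
(.leaf 3372970124))))
(.node (.node (.node (.node (.leaf 3505247289388)
(.leaf 245722219389214316355700))
(.leaf 676300))
(.node (.leaf 56588361288638654)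
(.leaf 620884066)))
(.node (.node (.node (.leaf 5842246066280)
(.leaf 76))
(.leaf 414358))
(.node (.leaf 51521261784715506)
(.leaf 368)))))
(.node (.node (.node (.node (.node (.leaf 2542906228752)
(.leaf 751518965801590985759462033453525504565296))
(.leaf 348566))
(.node (.leaf 11340811403274)
(.leaf 218751766480085082)))
(.node (.node (.node (.leaf 6942328553480)
(.leaf 749678))
(.leaf 172586158541832198))
(.node (.leaf 242146180535398490150)
(.leaf 14158058364990))))
(.node (.node (.node (.node (.leaf 3642451091462)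
(.leaf 12645021769838))
(.leaf 823814))
(.node (.leaf 237532804704802742278)
(.leaf 225297)))
(.node (.node (.leaf 28433852452126836)
(.leaf 209600))
(.node (.leaf 676138)
(.leaf 39110897258524))))))
(.node (.node (.node (.node (.node (.node (.leaf 2680512782356)
(.leaf 13036478554))
(.leaf 414076))
(.node (.leaf 10241333330040)
(.leaf 214254628060020744)))
(.node (.node (.node (.leaf 5154950996046)
(.leaf 211024615922955915301))
(.leaf 209488))
(.node (.leaf 242146177373430145062)
(.leaf 2735239350))))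
(.node (.node (.node (.node (.leaf 7767096459314)
(.leaf 3575728586831))
(.leaf 479720))
(.node (.leaf 13815685103820)
(.leaf 889270286)))
(.node (.node (.leaf 27308502435242094)
(.leaf 185004))
(.node (.leaf 282894)
(.leaf 456)))))
(.node (.node (.node (.node (.node (.leaf 2130857435166)
(.leaf 2669903320150633381366292529))
(.leaf 750002))
(.node (.leaf 14228304715950)
(.leaf 810648249388386451554)))
(.node (.node (.node (.leaf 4604825706588)
(.leaf 44))
(.leaf 406140))
(.node (.leaf 52647574142546140)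
(.leaf 70667334449057918))))
(.node (.node (.node (.node (.leaf 22241540336435268)
(.leaf 872878234))
(.leaf 750112))
(.node (.leaf 239839774163813777426)
(.leaf 6667114852462)))
(.node (.node (.leaf 9691476836356)
(.leaf 660182))
(.node (.leaf 823620)
(.leaf 646))))))))
(.node (.node (.node (.node (.node (.node (.node (.node (.leaf 1168482820098)
(.leaf 197912032786931792))
(.leaf 684376))
(.node (.leaf 10516345446538)
(.leaf 208048706267398162)))
(.node (.node (.node (.leaf 5017176301634)
(.leaf 638287982))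
(.leaf 157382798041817110))
(.node (.leaf 237532803330044633122)
(.leaf 2768924816))))
(.node (.node (.node (.node (.leaf 6804687847466)
(.leaf 38849045217099986))
(.leaf 684486))
(.node (.leaf 13953426809016)
(.leaf 654397514)))
(.node (.node (.node (.leaf 5841742880872)
(.leaf 62))
(.leaf 144016))
(.node (.leaf 238)
(.leaf 358)))))
(.node (.node (.node (.node (.node (.leaf 5429929631784)
(.leaf 7560954634424))
(.leaf 446862))
(.node (.leaf 14228338270360)
(.leaf 217605795587194964)))
(.node (.node (.node (.leaf 6803446398984)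
(.leaf 51517756000284717))
(.leaf 627298))
(.node (.leaf 242146180535398596676)
(.leaf 827496))))
(.node (.node (.node (.node (.leaf 2955457962036)
(.leaf 833715701514915409961))
(.leaf 823806))
(.node (.leaf 232919418152928976902)
(.leaf 1090793546)))
(.node (.node (.leaf 6529642414194)
(.leaf 803725652711384449104))
(.node (.leaf 81365995541291042)
(.leaf 150625748932169872))))))
(.node (.node (.node (.node (.node (.node (.leaf 10979379836796930)
(.leaf 3141800))
(.leaf 430452))
(.node (.leaf 8866809798778)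
(.leaf 3565729195308708189077572)))
(.node (.node (.node (.leaf 22241403266826316)
(.leaf 51517482263584808))
(.leaf 193098))
(.node (.leaf 242146179023167455300)
(.leaf 3372970150))))
(.node (.node (.node (.node (.leaf 7354276126770)
(.leaf 3575728566381))
(.leaf 840162))
(.node (.leaf 12440457158856)
(.leaf 419541042)))
(.node (.node (.leaf 6803614130284)
(.leaf 496296))
(.node (.leaf 250120)
(.leaf 27150787387422)))))
(.node (.node (.node (.node (.node (.leaf 6941556596750)
(.leaf 44794020998789960200930592054173746))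
(.leaf 299436))
(.node (.leaf 14090865770662)
(.leaf 222678393957687390)))
(.node (.node (.node (.leaf 6253757751386)
(.leaf 475215))
(.leaf 414326))
(.node (.leaf 214)
(.leaf 6392169820392))))
(.node (.node (.node (.node (.leaf 5430030147648)
(.leaf 872878187))
(.leaf 119322))
(.node (.leaf 239839771139317956630)
(.leaf 1527074914)))
(.node (.node (.leaf 7353806241910)
(.leaf 676562))
(.node (.leaf 88686132078321682)
(.leaf 640)))))))
(.node (.node (.node (.node (.node (.node (.node (.leaf 2680613453826)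
(.leaf 12533666055))
(.leaf 405862))
(.node (.leaf 10241568399504)
(.leaf 861306972887744299014)))
(.node (.node (.node (.leaf 4192945070152)
(.leaf 592))
(.leaf 799292))
(.node (.leaf 237532802780121047074)
(.leaf 2768752784))))
(.node (.node (.node (.node (.leaf 3505347764270)
(.leaf 1006478120715680321879941262))
(.leaf 307668))
(.node (.leaf 14228304715966)
(.leaf 2680613351542)))
(.node (.node (.node (.leaf 7766525927528)
(.leaf 234))
(.leaf 553628))
(.node (.leaf 225532)
(.leaf 378)))))
(.node (.node (.node (.node (.node (.leaf 3505347764262)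
(.leaf 147606606850436456638))
(.leaf 414110))
(.node (.leaf 12578701721610)
(.leaf 219860344851038298)))
(.node (.node (.node (.leaf 6941690781780)
(.leaf 3070529633))
(.leaf 610924))
(.node (.leaf 244452585257313042472)
(.leaf 14158058381378))))
(.node (.node (.node (.node (.leaf 18300065693253638)
(.leaf 18456884603584663736))
(.leaf 102926))
(.node (.leaf 237532804842275250182)
(.leaf 1526796334)))
(.node (.node (.leaf 6941388628084)
(.leaf 135878))
(.node (.leaf 85307607522730002)
(.leaf 40485587148834))))))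
(.node (.node (.node (.node (.node (.node (.leaf 21678315807342620)
(.leaf 13272658014))
(.leaf 414082))
(.node (.leaf 13953426808972)
(.leaf 882084335817408421896)))
(.node (.node (.node (.leaf 5292054224976)
(.leaf 12577510318242))
(.leaf 832088))
(.node (.leaf 242146177373430153256)
(.leaf 12715939139782))))
(.node (.node (.node (.node (.leaf 1993418555444)
(.leaf 92246675777860870183))
(.leaf 750064))
(.node (.leaf 13815685103822)
(.leaf 4467789475892)))
(.node (.node (.leaf 6666645037166)
(.leaf 430770))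
(.node (.leaf 282900)
(.leaf 464)))))
(.node (.node (.node (.node (.node (.leaf 7492117889054)
(.leaf 245722182802415366148124))
(.leaf 123597552485933102))
(.node (.leaf 11891272048818)
(.leaf 520163372)))
(.node (.node (.node (.leaf 4604825706594)
(.leaf 218))
(.leaf 180469382504267838))
(.node (.leaf 954599)
(.leaf 324))))
(.node (.node (.node (.node (.leaf 5017679896630)
(.leaf 131492163883710341165))
(.leaf 154004273485619222))
(.node (.leaf 239839773064000176150)
(.leaf 1694863476)))
(.node (.node (.leaf 9691477016580)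
(.leaf 168668))
(.node (.leaf 364874)
(.leaf 664))))))))))
(.node (.node (.node (.node (.node (.node (.node (.node (.node (.node (.leaf 3)
(.leaf 46667656753226))
(.leaf 389454))
(.node (.leaf 8866809798782)
(.leaf 635616)))
(.node (.node (.node (.leaf 22241402796826686)
(.leaf 60010749260850298989))
(.leaf 168490))
(.node (.leaf 239839772789055176732)
(.leaf 2198335634))))
(.node (.node (.node (.node (.leaf 3505448763428)
(.leaf 245722197437053625905202))
(.leaf 471486))
(.node (.leaf 13815216005132)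
(.leaf 654397486)))
(.node (.node (.node (.leaf 25619240157454440)
(.leaf 229))
(.leaf 447112))
(.node (.leaf 24493065306534116)
(.leaf 348)))))
(.node (.node (.node (.node (.node (.leaf 10979379836796962)
(.leaf 197912170225959010))
(.leaf 430470))
(.node (.leaf 43074813392814228)
(.leaf 250626)))
(.node (.node (.node (.leaf 7904568967248)
(.leaf 51517480920838258))
(.leaf 610908))
(.node (.leaf 239839773201506304040)
(.leaf 3372970188))))
(.node (.node (.node (.node (.leaf 3367875223604)
(.leaf 9484160532596))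
(.leaf 471542))
(.node (.leaf 14365743677648)
(.leaf 1090769006)))
(.node (.node (.leaf 6941690781806)
(.leaf 201398))
(.node (.leaf 823578)
(.leaf 470))))))
(.node (.node (.node (.node (.node (.node (.leaf 2680512897026)
(.leaf 762))
(.leaf 233836))
(.node (.leaf 10516412817552)
(.leaf 627440)))
(.node (.node (.node (.leaf 3642484645962)
(.leaf 698))
(.leaf 161887497449275420))
(.node (.leaf 235226395858612846632)
(.leaf 3037409472))))
(.node (.node (.node (.node (.leaf 31250939218452528)
(.leaf 38851106801774632))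
(.leaf 307672))
(.node (.leaf 11203539648708)
(.leaf 520228894)))
(.node (.node (.leaf 7354410467432)
(.leaf 188915693893206090))
(.node (.leaf 250112)
(.leaf 384)))))
(.node (.node (.node (.node (.node (.leaf 3505347952678)
(.leaf 14646183924740285))
(.leaf 676260))
(.node (.leaf 12991051382952)
(.leaf 512788)))
(.node (.node (.node (.leaf 7216568778836)
(.leaf 183))
(.leaf 152176))
(.node (.leaf 100)
(.leaf 202))))
(.node (.node (.node (.node (.leaf 4467789848582)
(.leaf 14644464375095405))
(.leaf 627218))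
(.node (.leaf 235226395858612772884)
(.leaf 1694904432)))
(.node (.node (.leaf 6941858553972)
(.leaf 822233210227093708802))
(.node (.leaf 676150)
(.leaf 630)))))))
(.node (.node (.node (.node (.node (.node (.node (.leaf 2268095234050)
(.leaf 49971226030098))
(.leaf 97695530892673038))
(.node (.leaf 10516547051658)
(.leaf 135912)))
(.node (.node (.node (.leaf 5292624912450)
(.leaf 213030))
(.leaf 840244))
(.node (.leaf 242146180535398580288)
(.leaf 2265485446))))
(.node (.node (.node (.node (.leaf 7629053411372)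
(.leaf 14646184224551021))
(.leaf 128665339318779952))
(.node (.leaf 11478518218942)
(.leaf 419500120)))
(.node (.node (.node (.leaf 7491010379880)
(.leaf 48))
(.leaf 455316))
(.node (.leaf 27308502436196596)
(.leaf 6090711064)))))
(.node (.node (.node (.node (.node (.leaf 5430130991144)
(.leaf 152199717718971236560))
(.leaf 856468))
(.node (.leaf 14365810786458)
(.leaf 291594)))
(.node (.node (.node (.leaf 6942328528904)
(.leaf 3070681162))
(.leaf 610918))
(.node (.leaf 244452585257313140804)
(.leaf 14158058446932))))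
(.node (.node (.node (.node (.leaf 8042108624948)
(.leaf 213130))
(.leaf 479748))
(.node (.leaf 235226395171216678932)
(.leaf 1023668304)))
(.node (.node (.leaf 30686202155843700)
(.leaf 209598))
(.node (.leaf 708904)
(.leaf 550))))))
(.node (.node (.node (.node (.node (.node (.leaf 2680412102676)
(.leaf 12969476180))
(.leaf 430458))
(.node (.leaf 12991051382926)
(.leaf 406266)))
(.node (.node (.node (.leaf 8041001074766)
(.leaf 211024651176013647945))
(.leaf 165829109430771746))
(.node (.leaf 239839771414263029798)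
(.leaf 3372855470))))
(.node (.node (.node (.node (.leaf 11542055012565042)
(.leaf 14646184291659838))
(.leaf 559302915210177257522))
(.node (.leaf 13815383777484)
(.leaf 7492050677812)))
(.node (.node (.leaf 6804587184236)
(.leaf 785261452927471091786))
(.node (.leaf 798988)
(.leaf 414)))))
(.node (.node (.node (.node (.node (.leaf 7354645381144)
(.leaf 59990769346306801871))
(.leaf 463280))
(.node (.leaf 11753161793710)
(.leaf 197348670416044130)))
(.node (.node (.node (.leaf 7904434749530)
(.leaf 116))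
(.leaf 414330))
(.node (.leaf 25056152732389594)
(.leaf 12578433052914))))
(.node (.node (.node (.node (.leaf 5430030319680)
(.leaf 20764979956881219708))
(.leaf 184864))
(.node (.leaf 242146177235957579798)
(.leaf 1661276268)))
(.node (.node (.leaf 7767096459382)
(.leaf 176854))
(.node (.leaf 381250)
(.leaf 644))))))))
(.node (.node (.node (.node (.node (.node (.node (.node (.leaf 11)
(.leaf 47768242384976))
(.leaf 831830))
(.node (.leaf 12028744630404)
(.leaf 725732)))
(.node (.node (.node (.leaf 3917329039426)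
(.leaf 872890509))
(.leaf 70192))
(.node (.leaf 239839771551769051164)
(.leaf 2366091454))))
(.node (.node (.node (.node (.leaf 3367707664426)
(.leaf 595059700642234249953487))
(.leaf 520094011567303655470))
(.node (.leaf 13815383777464)
(.leaf 654389314)))
(.node (.node (.node (.leaf 6254227513448)
(.leaf 30))
(.leaf 183830585524478018))
(.node (.leaf 236)
(.leaf 356)))))
(.node (.node (.node (.node (.node (.leaf 3367842005032)
(.leaf 89959977052792963280))
(.leaf 455514640861394214942))
(.node (.leaf 14365743677590)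
(.leaf 119558)))
(.node (.node (.node (.leaf 6116318773256)
(.leaf 12577577148590))
(.leaf 340578))
(.node (.leaf 237532805667110944836)
(.leaf 3372994770))))
(.node (.node (.node (.node (.leaf 3367908991028)
(.leaf 9484160528493))
(.leaf 479740))
(.node (.leaf 14228304715986)
(.leaf 1124233290)))
(.node (.node (.leaf 6803916120178)
(.leaf 209594))
(.node (.leaf 250146)
(.leaf 148373399228420222))))))
(.node (.node (.node (.node (.node (.node (.leaf 10978967519920130)
(.leaf 3133789))
(.leaf 414066))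
(.node (.leaf 10516580606096)
(.leaf 160500)))
(.node (.node (.node (.leaf 32940201899098188)
(.leaf 706))
(.leaf 193096))
(.node (.leaf 239839773064000340036)
(.leaf 3171643560))))
(.node (.node (.node (.node (.leaf 1718439911474)
(.leaf 520401))
(.leaf 463328))
(.node (.leaf 11753497297096)
(.leaf 620916786)))
(.node (.node (.leaf 7492218609768)
(.leaf 185000))
(.node (.leaf 823558)
(.leaf 392)))))
(.node (.node (.node (.node (.node (.leaf 3092661821454)
(.leaf 59990769346323579087))
(.leaf 463274))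
(.node (.leaf 13953426808998)
(.leaf 193304)))
(.node (.node (.node (.leaf 7766962241624)
(.leaf 1946480850))
(.leaf 578164))
(.node (.leaf 103)
(.leaf 6117224788196))))
(.node (.node (.node (.node (.leaf 22240715602018368)
(.leaf 2768994412))
(.leaf 616963067626167795714))
(.node (.leaf 239839772789055160342)
(.leaf 1124225122)))
(.node (.node (.leaf 5292221956214)
(.leaf 202429792116178960))
(.node (.leaf 225596)
(.leaf 636)))))))
(.node (.node (.node (.node (.node (.node (.node (.leaf 2543140945922)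
(.leaf 51205961478182))
(.leaf 414052))
(.node (.leaf 41949325902790800)
(.leaf 78572)))
(.node (.node (.node (.leaf 22240715602018376)
(.leaf 52))
(.leaf 160198235170840604))
(.node (.leaf 242146179298145902626)
(.leaf 3372994710))))
(.node (.node (.node (.node (.leaf 3367908786222)
(.leaf 4122418306626793234401554129011))
(.leaf 430546))
(.node (.leaf 13815517921470)
(.leaf 2680613318766)))
(.node (.node (.node (.leaf 32377388847644776)
(.leaf 232))
(.leaf 414362))
(.node (.leaf 241914)
(.leaf 374)))))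
(.node (.node (.node (.node (.node (.leaf 14358179236708384)
(.leaf 40895678142220270279423660921233484))
(.leaf 455068))
(.node (.leaf 12441229197322)
(.leaf 176910)))
(.node (.node (.node (.leaf 7216031793236)
(.leaf 749683))
(.leaf 619114))
(.node (.leaf 242146179298145927208)
(.leaf 14020585873474))))
(.node (.node (.node (.node (.leaf 5841407328262)
(.leaf 14644464375095840))
(.leaf 545292))
(.node (.leaf 235226398883108134918)
(.leaf 1660997656)))
(.node (.node (.leaf 6254227431540)
(.leaf 676548))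
(.node (.leaf 356656)
(.leaf 588))))))
(.node (.node (.node (.node (.node (.node (.leaf 3368043102236)
(.leaf 54095401513052))
(.leaf 430464))
(.node (.leaf 13815685103756)
(.leaf 54014)))
(.node (.node (.node (.leaf 4192441811024)
(.leaf 239847693603477856294))
(.leaf 184918))
(.node (.leaf 239839771414263037992)
(.leaf 2735239364))))
(.node (.node (.node (.node (.leaf 2543274958900)
(.leaf 14646183419392113))
(.leaf 471534))
(.node (.leaf 13403268219086)
(.leaf 1426124836)))
(.node (.node (.leaf 6666645012590)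
(.leaf 455344))
(.node (.leaf 839954)
(.leaf 462)))))
(.node (.node (.node (.node (.node (.leaf 3505213808670)
(.leaf 2669931709694263946092404852))
(.leaf 299448))
(.node (.leaf 13402865459378)
(.leaf 654389284)))
(.node (.node (.node (.leaf 8041001074784)
(.leaf 502))
(.leaf 414338))
(.node (.leaf 938211)
(.leaf 282))))
(.node (.node (.node (.node (.leaf 20552552735260726)
(.leaf 32102580951867534))
(.leaf 168484))
(.node (.leaf 242146177373430071314)
(.leaf 6667114852468)))
(.node (.node (.leaf 8454525730820)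
(.leaf 725722))
(.node (.leaf 717128)
(.leaf 2691144)))))))))
(.node (.node (.node (.node (.node (.node (.node (.node (.node (.leaf 7)
(.leaf 690))
(.leaf 864594))
(.node (.leaf 10241635582080)
(.leaf 660194)))
(.node (.node (.node (.leaf 7492117889086)
(.leaf 14639451024629870))
(.leaf 840236))
(.node (.leaf 239839773201506254876)
(.leaf 503929))))
(.node (.node (.node (.node (.leaf 3368043102250)
(.leaf 604608190869831132733648))
(.leaf 373186))
(.node (.leaf 11478518218936)
(.leaf 620884020)))
(.node (.node (.node (.leaf 5017276940392)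
(.leaf 506))
(.leaf 610956))
(.node (.leaf 26182327584280808)
(.leaf 352)))))
(.node (.node (.node (.node (.node (.leaf 5430030319650)
(.leaf 30969670182117560))
(.leaf 799114))
(.node (.leaf 13815785767062)
(.leaf 119556)))
(.node (.node (.node (.leaf 3779856441352)
(.leaf 3070681150))
(.leaf 332384))
(.node (.leaf 235226396683481448488)
(.leaf 3372994768))))
(.node (.node (.node (.node (.leaf 30687439576129588)
(.leaf 3575728496847))
(.leaf 324090))
(.node (.leaf 57715773493256402)
(.leaf 1124233282)))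
(.node (.node (.leaf 6942059692142)
(.leaf 209592))
(.node (.leaf 307486)
(.leaf 510))))))
(.node (.node (.node (.node (.node (.node (.leaf 1718272491522)
(.leaf 143))
(.leaf 676206))
(.node (.leaf 10379141644432)
(.leaf 488178)))
(.node (.node (.node (.leaf 5429962997834)
(.leaf 702))
(.leaf 193092))
(.node (.leaf 239839774163813957700)
(.leaf 2768892108))))
(.node (.node (.node (.node (.leaf 14358179236708400)
(.leaf 680046))
(.leaf 823772))
(.node (.leaf 12302951096518)
(.leaf 1661300778)))
(.node (.node (.leaf 7491849429096)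
(.leaf 463524))
(.node (.leaf 643332)
(.leaf 6493364254)))))
(.node (.node (.node (.node (.node (.leaf 3505515880486)
(.leaf 69164649801814415351198897727336554574))
(.leaf 485497920117709275182))
(.node (.leaf 11890600771740)
(.leaf 299798)))
(.node (.node (.node (.leaf 7354074849366)
(.leaf 205))
(.leaf 152178))
(.node (.leaf 102)
(.leaf 12853411655900))))
(.node (.node (.node (.node (.leaf 5017411420216)
(.leaf 872878097))
(.leaf 70166))
(.node (.leaf 239839773888868900920)
(.leaf 1124225116)))
(.node (.node (.leaf 6942160355444)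
(.leaf 94926))
(.node (.leaf 831800)
(.leaf 2568246)))))))
(.node (.node (.node (.node (.node (.node (.node (.leaf 2680412102658)
(.leaf 12434288666))
(.leaf 414048))
(.node (.leaf 11341515497616)
(.leaf 160490)))
(.node (.node (.node (.leaf 21678727620673606)
(.leaf 213133))
(.leaf 193080))
(.node (.leaf 242146177648408690720)
(.leaf 2064117908))))
(.node (.node (.node (.node (.leaf 7904434749484)
(.leaf 245689895955522459742321))
(.leaf 455118))
(.node (.leaf 11890969870526)
(.leaf 2680411992168)))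
(.node (.node (.node (.leaf 6254697349224)
(.leaf 94))
(.leaf 186100256763560008))
(.node (.leaf 676086)
(.leaf 370)))))
(.node (.node (.node (.node (.node (.leaf 2405400215568)
(.leaf 7560719941679))
(.leaf 676248))
(.node (.leaf 12577694867466)
(.leaf 176908)))
(.node (.node (.node (.leaf 5979013980242)
(.leaf 12576889454671))
(.leaf 70248))
(.node (.leaf 242146177648408715302)
(.leaf 14020585947222))))
(.node (.node (.node (.node (.leaf 3917329039366)
(.leaf 75770036751091959414949))
(.leaf 324104))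
(.node (.leaf 237532803330044108806)
(.leaf 1459687450)))
(.node (.node (.leaf 5429694464116)
(.leaf 810647686438432956496))
(.node (.leaf 676140)
(.leaf 578))))))
(.node (.node (.node (.node (.node (.node (.leaf 3092662042646)
(.leaf 13071118426))
(.leaf 250238))
(.node (.leaf 9279427854470)
(.leaf 217852)))
(.node (.node (.node (.leaf 5430063874126)
(.leaf 51517482263519382))
(.leaf 201298))
(.node (.leaf 239839773064000241704)
(.leaf 2802372792))))
(.node (.node (.node (.node (.leaf 8041974390834)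
(.leaf 872980612))
(.leaf 471530))
(.node (.leaf 14090865770700)
(.leaf 956379160)))
(.node (.node (.leaf 5429694439534)
(.leaf 192277859220987978))
(.node (.leaf 749840)
(.leaf 458)))))
(.node (.node (.node (.node (.node (.leaf 6941690781726)
(.leaf 4122534382451439818811350925430))
(.leaf 471476))
(.node (.leaf 14365743677614)
(.leaf 812955781797350465634)))
(.node (.node (.node (.leaf 6117425971294)
(.leaf 72))
(.leaf 578174))
(.node (.leaf 222)
(.leaf 72919684152807444))))
(.node (.node (.node (.node (.leaf 5429493186628)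
(.leaf 213105))
(.leaf 176674))
(.node (.leaf 242146180122980892690)
(.leaf 1694838894)))
(.node (.node (.leaf 9004382756868)
(.leaf 168664))
(.node (.leaf 708934)
(.leaf 660))))))))
(.node (.node (.node (.node (.node (.node (.node (.node (.leaf 2680378507266)
(.leaf 49008918418115))
(.leaf 414042))
(.node (.leaf 12166216999050)
(.leaf 111334)))
(.node (.node (.node (.leaf 30688126032871490)
(.leaf 213108))
(.leaf 168498))
(.node (.leaf 242146178885694824482)
(.leaf 10241534644368))))
(.node (.node (.node (.node (.leaf 7766962241578)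
(.leaf 147611116770762940496))
(.leaf 455112))
(.node (.leaf 14090865770680)
(.leaf 654422094)))
(.node (.node (.node (.leaf 7766056050792)
(.leaf 84))
(.leaf 755277610583730102338))
(.node (.leaf 987375)
(.leaf 360)))))
(.node (.node (.node (.node (.node (.leaf 3505280966696)
(.leaf 6340497135938417773727569485898))
(.leaf 438672))
(.node (.leaf 9966489198744)
(.leaf 267016)))
(.node (.node (.node (.leaf 6253757784072)
(.leaf 12577510203483))
(.leaf 332388))
(.node (.leaf 237532804429858373700)
(.leaf 14020585930834))))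
(.node (.node (.node (.node (.leaf 7904568967220)
(.leaf 751517630742402033264068766456384004980863))
(.leaf 397824))
(.node (.leaf 235226398608163119110)
(.leaf 1124233294)))
(.node (.node (.leaf 6804687847538)
(.leaf 209596))
(.node (.leaf 323876)
(.leaf 542))))))
(.node (.node (.node (.node (.node (.node (.leaf 10979792153665538)
(.leaf 12902260820))
(.leaf 414070))
(.node (.leaf 10241669144700)
(.leaf 586486)))
(.node (.node (.node (.leaf 4604859261006)
(.leaf 864398297378333693530186))
(.leaf 823884))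
(.node (.leaf 239839774163813851174)
(.leaf 2634543278))))
(.node (.node (.node (.node (.leaf 3093031067698)
(.leaf 14646184291659892))
(.leaf 799204))
(.node (.leaf 12440926462152)
(.leaf 2817884524594)))
(.node (.node (.leaf 7766123143276)
(.leaf 191150722060951626))
(.node (.leaf 233738)
(.leaf 410)))))
(.node (.node (.node (.node (.node (.leaf 3092662042638)
(.leaf 59990767285846548690))
(.leaf 120219027930325038))
(.node (.leaf 10791088570542)
(.leaf 194531583649169502)))
(.node (.node (.node (.leaf 7628583534682)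
(.leaf 327790))
(.leaf 406136))
(.node (.leaf 216)
(.leaf 3926810850))))
(.node (.node (.node (.node (.leaf 22241403266826304)
(.leaf 872878129))
(.leaf 94748))
(.node (.leaf 242146177235957563410)
(.leaf 6254697304168)))
(.node (.node (.leaf 7903595651190)
(.leaf 831408719832745213968))
(.node (.leaf 356670)
(.leaf 642)))))))
(.node (.node (.node (.node (.node (.node (.node (.leaf 2680378630146)
(.leaf 12634402876))
(.leaf 430440))
(.node (.leaf 49832962116321424)
(.leaf 545518)))
(.node (.node (.node (.leaf 7904434749512)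
(.leaf 596))
(.leaf 168510))
(.node (.leaf 242146177648408698914)
(.leaf 3070726286))))
(.node (.node (.node (.node (.leaf 2955625562158)
(.leaf 4122534363656489243242766876788))
(.leaf 131480776448991280))
(.node (.leaf 14365743677630)
(.leaf 1426337830)))
(.node (.node (.node (.leaf 7903964889192)
(.leaf 0))
(.leaf 463518))
(.node (.leaf 289453401903341232130)
(.leaf 380)))))
(.node (.node (.node (.node (.node (.leaf 5842279620646)
(.leaf 183476310011043676983011707939375603820))
(.leaf 725408))
(.node (.leaf 11341382074378)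
(.leaf 561936)))
(.node (.node (.node (.leaf 7216568705108)
(.leaf 749641))
(.leaf 340590))
(.node (.leaf 237532802780121071656)
(.leaf 106))))
(.node (.node (.node (.node (.leaf 4467789725702)
(.leaf 1159726563285687936414257683299112646319640741))
(.leaf 70160))
(.node (.leaf 235226397645822009350)
(.leaf 6942328148016)))
(.node (.node (.leaf 6941388693620)
(.leaf 111304))
(.node (.leaf 725298)
(.leaf 41722875064448))))))
(.node (.node (.node (.node (.node (.node (.leaf 3505213808674)
(.leaf 11594985566))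
(.leaf 250244))
(.node (.leaf 14090865770636)
(.leaf 54016)))
(.node (.node (.node (.leaf 4192945070160)
(.leaf 51521878581780554))
(.leaf 152154))
(.node (.leaf 239839773201506402372)
(.leaf 3003773126))))
(.node (.node (.node (.node (.leaf 3230369169460)
(.leaf 3575728373875))
(.leaf 479730))
(.node (.leaf 12028442378448)
(.leaf 1090768976)))
(.node (.node (.leaf 6941153747054)
(.leaf 193983480726569036))
(.node (.leaf 282902)
(.leaf 466)))))
(.node (.node (.node (.node (.node (.leaf 5842246066212)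
(.leaf 245722182802415296913455))
(.leaf 463290))
(.node (.leaf 14365810786482)
(.leaf 553734188)))
(.node (.node (.node (.leaf 6254898479202)
(.leaf 228))
(.leaf 430724))
(.node (.leaf 22803390510559456)
(.leaf 22339216039962))))
(.node (.node (.node (.node (.leaf 7354645381178)
(.leaf 3575359807638))
(.leaf 823846))
(.node (.leaf 239839771414262972438)
(.leaf 7629623906422)))
(.node (.node (.leaf 9691510595588)
(.leaf 676574))
(.node (.leaf 676172)
(.leaf 666)))))))))))

def h : Tr Nat := (.node (.node (.node (.node (.node (.node (.node (.node (.node (.node (.node (.leaf 0)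
(.leaf 193810530306))
(.leaf 0))
(.node (.leaf 0)
(.leaf 0)))
(.node (.node (.node (.leaf 0)
(.leaf 23104917871409130965686683062363111794960991206778027637798204087010226))
(.leaf 0))
(.node (.leaf 0)
(.leaf 67377430530))))
(.node (.node (.node (.node (.leaf 0)
(.leaf 1433265356340274871479600898416444436))
(.leaf 0))
(.node (.leaf 0)
(.leaf 2952790017)))
(.node (.node (.node (.leaf 0)
(.leaf 118394258623))
(.leaf 0))
(.node (.leaf 0)
(.leaf 139593056692)))))
(.node (.node (.node (.node (.node (.leaf 0)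
(.leaf 221490381795))
(.leaf 0))
(.node (.leaf 0)
(.leaf 0)))
(.node (.node (.node (.leaf 0)
(.leaf 6397578314703215873371551471378726852533498599769485455505984374711151919760404))
(.leaf 0))
(.node (.leaf 0)
(.leaf 92342321157))))
(.node (.node (.node (.node (.leaf 0)
(.leaf 66504362494185158160328540027784122464293919960496102901764868248134257282624265790430897286630509442243786167265257400547273363461046459239418308215606708421899993894682800464249784026949010915764))
(.leaf 0))
(.node (.leaf 0)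
(.leaf 30333468675)))
(.node (.node (.leaf 0)
(.leaf 0))
(.node (.leaf 0)
(.leaf 42666276303282308063))))))
(.node (.node (.node (.node (.node (.node (.leaf 0)
(.leaf 212875936180))
(.leaf 0))
(.node (.leaf 0)
(.leaf 0)))
(.node (.node (.node (.leaf 0)
(.leaf 198645580942))
(.leaf 0))
(.node (.leaf 0)
(.leaf 80799596549))))
(.node (.node (.node (.node (.leaf 0)
(.leaf 58714452925527689628616571726110271466874557744781491563185468635197104534653176983046467527912193846078932050861418158268913539254307170510834202889167781480517532212194840616095934508722084217813546917385573428051065965340058125809923976688718850122667030352441378692067508945332))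
(.leaf 0))
(.node (.leaf 0)
(.leaf 14227079169)))
(.node (.node (.leaf 0)
(.leaf 0))
(.node (.leaf 0)
(.leaf 38989826075047560143)))))
(.node (.node (.node (.node (.node (.leaf 0)
(.leaf 16190118779701407097467831316))
(.leaf 0))
(.node (.leaf 0)
(.leaf 0)))
(.node (.node (.node (.leaf 0)
(.leaf 10702372930919194973118453372612721756202965082131481248769596779913417196490924959226932002198300277943330752662151758868))
(.leaf 0))
(.node (.leaf 0)
(.leaf 63556539684378444212))))
(.node (.node (.node (.node (.leaf 0)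
(.leaf 23967952153055612235553983050317564338223144875707256656446393950798262))
(.leaf 0))
(.node (.leaf 0)
(.leaf 45634420740)))
(.node (.node (.leaf 0)
(.leaf 0))
(.node (.leaf 0)
(.leaf 183341678595)))))))
(.node (.node (.node (.node (.node (.node (.node (.leaf 0)
(.leaf 204046402536))
(.leaf 0))
(.node (.leaf 0)
(.leaf 0)))
(.node (.node (.node (.leaf 0)
(.leaf 15684218062304066245423105050861164277873614350923730889612533996082711790457923718247604654386482811519085546150516147914353454050129182937872208892653003234937925119900790638566566584918208923829180737228476124927899900956457370980651398185998876355841530753063674881259767777960198013365))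
(.leaf 0))
(.node (.leaf 0)
(.leaf 75699453958))))
(.node (.node (.node (.node (.leaf 0)
(.leaf 1826159037955241882761920824909817237929231588451822970668630574858178025639991258251701))
(.leaf 0))
(.node (.leaf 0)
(.leaf 1369199840910639105)))
(.node (.node (.node (.leaf 0)
(.leaf 18356721689646176123362280646))
(.leaf 0))
(.node (.leaf 0)
(.leaf 142008844722)))))
(.node (.node (.node (.node (.node (.leaf 0)
(.leaf 84653346858055536605901026291488091701123995800302229371877886231151874898458483541509569217582519724634861624205957610350684675769134457380170950927996442326631929077415041192048920406552151556122169457444835404510221865420936368431104436))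
(.leaf 0))
(.node (.leaf 0)
(.leaf 0)))
(.node (.node (.node (.leaf 0)
(.leaf 3035333634054352853662351455492782656764625679629285749192840166649609987561850582826012887625319457814553419023662599246968076908179888355172107978186065602346411112127518828259769257816389509568101539181199382600240196961705850995531229663774355447087539))
(.leaf 0))
(.node (.leaf 0)
(.leaf 26012932186522779651))))
(.node (.node (.node (.node (.leaf 0)
(.leaf 1649335852185898956157196219136502341739619501773357352477949004392537878874701467026354))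
(.leaf 0))
(.node (.leaf 0)
(.leaf 42144366593)))
(.node (.node (.leaf 0)
(.leaf 0))
(.node (.leaf 0)
(.leaf 171530780677))))))
(.node (.node (.node (.node (.node (.node (.leaf 0)
(.leaf 15572707179915040667095007237))
(.leaf 0))
(.node (.leaf 0)
(.leaf 0)))
(.node (.node (.node (.leaf 0)
(.leaf 46299693544609629538008335021197795030423417062512808327094527998163157348667277261201470333810603089097221878338290739967348983672777240479513759021531571))
(.leaf 0))
(.node (.leaf 0)
(.leaf 86168436742))))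
(.node (.node (.node (.node (.leaf 0)
(.leaf 14886340465275160489806696796092657341212305973653616361350536768898623156144551101287405950120024272708855303212623854029255296954859931460546645147742448100055010440636764161860514823630843037116129773551709814333616894862373852095656180702696000665383067176776980308729140159342950220211))
(.leaf 0))
(.node (.leaf 0)
(.leaf 25232932865)))
(.node (.node (.leaf 0)
(.leaf 0))
(.node (.leaf 0)
(.leaf 149794259889)))))
(.node (.node (.node (.node (.node (.leaf 0)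
(.leaf 300918246957864486447576493299999227753725483699810046810799641513126629270555195614641021046800760452023949342742317681242588089037593433066139527994284098478592165053011245531574))
(.leaf 0))
(.node (.leaf 0)
(.leaf 0)))
(.node (.node (.node (.leaf 0)
(.leaf 22090271834349985299940377778))
(.leaf 0))
(.node (.leaf 0)
(.leaf 122958840262))))
(.node (.node (.node (.node (.leaf 0)
(.leaf 142934313325103183363294266694696413206227500990333365))
(.leaf 0))
(.node (.leaf 0)
(.leaf 54492659715)))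
(.node (.node (.leaf 0)
(.leaf 0))
(.node (.leaf 0)
(.leaf 13601024729162625621556330498))))))))
(.node (.node (.node (.node (.node (.node (.node (.node (.leaf 0)
(.leaf 14239564236375863125377941506))
(.leaf 0))
(.node (.leaf 0)
(.leaf 0)))
(.node (.node (.node (.leaf 0)
(.leaf 3416633880951742829399845295703667871199871715824477735909953805750555073289294040203155238559819534718349127705856462106447723367656270581130844755771991031415828))
(.leaf 0))
(.node (.leaf 0)
(.leaf 68451172354))))
(.node (.node (.node (.node (.leaf 0)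
(.leaf 112586882721705969420016442857742282618194902550474260053284430500938280606219190640506650329439366276596655426742520055940013497368827145350813354317159114968066499541455072876059257796509792196749966931486639806527438633600156085))
(.leaf 0))
(.node (.leaf 0)
(.leaf 4026531841)))
(.node (.node (.node (.leaf 0)
(.leaf 18819986836720991676111200043533328337693185514127166607330574552429394587910034887063486916159337921851538869312033186721221779312297356400227665571577790085782028173260510054303544900534675735539717454209685523502744079819030599800162529356202860501805513215901971726681339300278347620238576364293148100156384445344431520126751915676297466865966783037426858708766384343535323513268))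
(.leaf 0))
(.node (.leaf 0)
(.leaf 140935102898)))))
(.node (.node (.node (.node (.node (.leaf 0)
(.leaf 16789878211987485921360348180))
(.leaf 0))
(.node (.leaf 0)
(.leaf 0)))
(.node (.node (.node (.leaf 0)
(.leaf 23941031642154081519388395817869125096188925623812309667408299075830195))
(.leaf 0))
(.node (.leaf 0)
(.leaf 95563546629))))
(.node (.node (.node (.node (.leaf 0)
(.leaf 66484515094074559413313999972120500713899447064272275637513115214739976374402285108653090875168450634965008531152810627736143848560908984798895038202916429109675427222981665056291770192077012818335598480375630512174493147885161086098171989636188433514108830544527917597817600196640458471030833996728462683297288305713059233689792521974765005378660358381686567726169974307204727263022913997270812673522576180006748597))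
(.leaf 0))
(.node (.leaf 0)
(.leaf 38386532355)))
(.node (.node (.leaf 0)
(.leaf 0))
(.node (.leaf 0)
(.leaf 166174720946))))))
(.node (.node (.node (.node (.node (.node (.leaf 0)
(.leaf 15419220827519909940714405892))
(.leaf 0))
(.node (.leaf 0)
(.leaf 0)))
(.node (.node (.node (.leaf 0)
(.leaf 200524629134))
(.leaf 0))
(.node (.leaf 0)
(.leaf 81873338373))))
(.node (.node (.node (.node (.leaf 0)
(.leaf 49650225634659176006533969810538538752241867672355418290201695115902675469726340651078274996550153894552363760431342514755873215056725434283183281145792802207152815836122984157229638648942937637908))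
(.leaf 0))
(.node (.leaf 0)
(.leaf 20669530113)))
(.node (.node (.leaf 0)
(.leaf 0))
(.node (.leaf 0)
(.leaf 146572641200)))))
(.node (.node (.node (.node (.node (.leaf 0)
(.leaf 103654172567663359048670130293213525994771326429627314))
(.leaf 0))
(.node (.leaf 0)
(.leaf 0)))
(.node (.node (.node (.leaf 0)
(.leaf 1310204851455825743520853234852580500519125430))
(.leaf 0))
(.node (.leaf 0)
(.leaf 120542003644))))
(.node (.node (.node (.node (.leaf 0)
(.leaf 6433848165591665063807759247491685450847260588089174098585620021278103304733618))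
(.leaf 0))
(.node (.leaf 0)
(.leaf 50466258948)))
(.node (.node (.leaf 0)
(.leaf 0))
(.node (.leaf 0)
(.leaf 187374567860)))))))
(.node (.node (.node (.node (.node (.node (.node (.leaf 0)
(.leaf 56143087085415956486))
(.leaf 0))
(.node (.leaf 0)
(.leaf 0)))
(.node (.node (.node (.leaf 0)
(.leaf 1824241981940187839186596314479080017187917592103727311450095615649548200432814334017974))
(.leaf 0))
(.node (.leaf 0)
(.leaf 78114848770))))
(.node (.node (.node (.node (.leaf 0)
(.leaf 5056264763054517221261734722907692738924465945631033523310507418871057008295696397233569767349575679313352500447752538374094141045856733917168081784996434778470900740934660428850700929069619081089651179958))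
(.leaf 0))
(.node (.leaf 0)
(.leaf 6174015489)))
(.node (.node (.node (.leaf 0)
(.leaf 119468393673))
(.leaf 0))
(.node (.leaf 0)
(.leaf 143619851184)))))
(.node (.node (.node (.node (.node (.leaf 0)
(.leaf 16828563836918117357704840212))
(.leaf 0))
(.node (.leaf 0)
(.leaf 0)))
(.node (.node (.node (.leaf 0)
(.leaf 553299712298027912066245029123205424122119660873092479536813862249609732556297734831375291122708))
(.leaf 0))
(.node (.leaf 0)
(.leaf 26445277750750347267))))
(.node (.node (.node (.node (.leaf 0)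
(.leaf 5633704208150447675262114671620391350))
(.leaf 0))
(.node (.leaf 0)
(.leaf 44560678916)))
(.node (.node (.leaf 0)
(.leaf 0))
(.node (.leaf 0)
(.leaf 177449010098))))))
(.node (.node (.node (.node (.node (.node (.leaf 0)
(.leaf 58734204978451907545))
(.leaf 0))
(.node (.leaf 0)
(.leaf 0)))
(.node (.node (.node (.leaf 0)
(.leaf 92894255682030888861691431399983390615989618208995250030106451083979429177865037679099901305059508495030675926974833885040088047113129174648610632968873650947205764065960701515112043648202127051283658433863374892270636484315055596616529962568195166902093060041729733061021234758069))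
(.leaf 0))
(.node (.leaf 0)
(.leaf 88583831554))))
(.node (.node (.node (.node (.leaf 0)
(.leaf 10272542777702926797525514860163071587432108213272675034386919154320306))
(.leaf 0))
(.node (.leaf 0)
(.leaf 29259726851)))
(.node (.node (.leaf 0)
(.leaf 0))
(.node (.leaf 0)
(.leaf 11337046677390342188976701442)))))
(.node (.node (.node (.node (.node (.leaf 0)
(.leaf 18656019310196007036001825256308073297412035090961314948314540211865838540479616057445353466085103812889296357676423465502374024678842676675941431101393343032597222775972977242959077531643268970316151980976))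
(.leaf 0))
(.node (.leaf 0)
(.leaf 1879048193)))
(.node (.node (.node (.leaf 0)
(.leaf 3598244952117392244185695418))
(.leaf 0))
(.node (.leaf 0)
(.leaf 126177838002))))
(.node (.node (.node (.node (.leaf 0)
(.leaf 13798905617055740982158675227699613457111177152714160077238535427180784827302283435340454591389943266922807817874887428485367250602825442479762600939114974076881224487475917879082137362555633598898))
(.leaf 0))
(.node (.leaf 0)
(.leaf 62277419012)))
(.node (.node (.leaf 0)
(.leaf 0))
(.node (.leaf 0)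
(.leaf 191937970612)))))))))
(.node (.node (.node (.node (.node (.node (.node (.node (.node (.leaf 0)
(.leaf 197038900145))
(.leaf 0))
(.node (.leaf 0)
(.leaf 0)))
(.node (.node (.node (.leaf 0)
(.leaf 682529956734229705575328424426032523847717671364978259628089276436925764979889222378444806824757193749608260686925538311818663611819688882))
(.leaf 0))
(.node (.leaf 0)
(.leaf 67914301442))))
(.node (.node (.node (.node (.leaf 0)
(.leaf 124231750220789907998324901072942801726475037160571826))
(.leaf 0))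
(.node (.leaf 0)
(.leaf 3489660929)))
(.node (.node (.node (.leaf 0)
(.leaf 23366628268766827365107172538))
(.leaf 0))
(.node (.leaf 0)
(.leaf 10098587175916413660673736706)))))
(.node (.node (.node (.node (.node (.leaf 0)
(.leaf 222298440677))
(.leaf 0))
(.node (.leaf 0)
(.leaf 0)))
(.node (.node (.node (.leaf 0)
(.leaf 117976450479215947240497403208695371963288080642055394272435980683899249115984274150914772415261906212759756237637331116426939185926091488120657013137885195900888873658255858036488474019751836028399628192782167404176155959801774604477418620494197060856752556611029305444992376577130124788346883177567355317))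
(.leaf 0))
(.node (.leaf 0)
(.leaf 94221500422))))
(.node (.node (.node (.node (.leaf 0)
(.leaf 301192053856))
(.leaf 0))
(.node (.leaf 0)
(.leaf 30870339587)))
(.node (.node (.leaf 0)
(.leaf 0))
(.node (.leaf 0)
(.leaf 160000705458))))))
(.node (.node (.node (.node (.node (.node (.leaf 0)
(.leaf 4128840704800757263043869812680163332))
(.leaf 0))
(.node (.leaf 0)
(.leaf 0)))
(.node (.node (.node (.leaf 0)
(.leaf 199719322766))
(.leaf 0))
(.node (.leaf 0)
(.leaf 81336467461))))
(.node (.node (.node (.node (.leaf 0)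
(.leaf 15549501240721555708801372126616976134180755538323203685023212901508713573616324030626750779261566746847362182154372450810307745449647481671000093833881630362108850))
(.leaf 0))
(.node (.leaf 0)
(.leaf 17180131331)))
(.node (.node (.leaf 0)
(.leaf 0))
(.node (.leaf 0)
(.leaf 145767072180)))))
(.node (.node (.node (.node (.node (.leaf 0)
(.leaf 490675945952456383596588134938995444560036884))
(.leaf 0))
(.node (.leaf 0)
(.leaf 0)))
(.node (.node (.node (.leaf 0)
(.leaf 6326049152056728785876550834))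
(.leaf 0))
(.node (.leaf 0)
(.leaf 118662431159))))
(.node (.node (.node (.node (.leaf 0)
(.leaf 4046940482130370324100919870989116202045938127572080674659189669019513872830535105263361432634408229756259606319471030875120381282374625834025610991456218904046170568532787106093002269917580353045979869778122799009229608671992116056588980310866904558410034312830947611525557687046218444300257264050))
(.leaf 0))
(.node (.leaf 0)
(.leaf 49660821507)))
(.node (.node (.leaf 0)
(.leaf 0))
(.node (.leaf 0)
(.leaf 186837565874)))))))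
(.node (.node (.node (.node (.node (.node (.node (.leaf 0)
(.leaf 55566063382353805318))
(.leaf 0))
(.node (.leaf 0)
(.leaf 0)))
(.node (.node (.node (.leaf 0)
(.leaf 300947787642800945048170102672614972508909734932426505462377307121533577397646823248465306082893160382151709382034160178276899542796730806))
(.leaf 0))
(.node (.leaf 0)
(.leaf 76773195782))))
(.node (.node (.node (.node (.leaf 0)
(.leaf 11513174170352013718132075649256813715493461352703763860597821019849650))
(.leaf 0))
(.node (.leaf 0)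
(.leaf 5637144577)))
(.node (.node (.node (.leaf 0)
(.leaf 784136993615401563150432848068805831))
(.leaf 0))
(.node (.leaf 0)
(.leaf 143082980272)))))
(.node (.node (.node (.node (.node (.leaf 0)
(.leaf 934267099315421822597601684928845790586297103943013932689987658352699540403394693420923838820173186617332743394172908262188975026))
(.leaf 0))
(.node (.leaf 0)
(.leaf 0)))
(.node (.node (.node (.leaf 0)
(.leaf 1723652637050850162114583065835224837174912240607873113137373178063439537390716388775932422426695363087445943922677250133973904121260916145658058473541457447764737100876494350522987836633656351319372826230404578700733204846424171863892384483427025502644670366701591799152133988270136806374885943306025816952293359540125953683440206894466068))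
(.leaf 0))
(.node (.leaf 0)
(.leaf 26229104968636563459))))
(.node (.node (.node (.node (.leaf 0)
(.leaf 117307280405095910431059244047399694901948172295996870524682392401755777467098718306585457169265695523253))
(.leaf 0))
(.node (.leaf 0)
(.leaf 11817445422489010180)))
(.node (.node (.leaf 0)
(.leaf 0))
(.node (.leaf 0)
(.leaf 175557312517))))))
(.node (.node (.node (.node (.node (.node (.leaf 0)
(.leaf 58450407843400451071))
(.leaf 0))
(.node (.leaf 0)
(.leaf 0)))
(.node (.node (.node (.leaf 0)
(.leaf 5694246717334838683541822967483458985535551461634089488264346345499201964253482814893294253062437405004620582080796718335140809173219738185960648431601555002491924))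
(.leaf 0))
(.node (.leaf 0)
(.leaf 86704783362))))
(.node (.node (.node (.node (.leaf 0)
(.leaf 97647472990619743133623275141091923633306091190277404526346858182581086260961241151701937150604558115703816671276361359281983482494435467256135264527186098696419744691239092355720266105914882322156952380696367810998015292692468069968487957156771020697643714881581567658378700187595922424110554926372988412323545705657663923))
(.leaf 0))
(.node (.leaf 0)
(.leaf 28722855939)))
(.node (.node (.leaf 0)
(.leaf 0))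
(.node (.leaf 0)
(.leaf 156773581745)))))
(.node (.node (.node (.node (.node (.leaf 0)
(.leaf 2569449723477203019143534263727378513762067985130371951909682642649445649220628))
(.leaf 0))
(.node (.leaf 0)
(.leaf 0)))
(.node (.node (.node (.leaf 0)
(.leaf 1470535509595644896702825658))
(.leaf 0))
(.node (.leaf 0)
(.leaf 124554051585))))
(.node (.node (.node (.node (.leaf 0)
(.leaf 1210102738503717879438683283805632782244555871323132855913660416491329284311247857543045689084341734898668372135167233885228424699509422146501197586541590427770042476624489425576819656653788720598988243337358170440318976437))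
(.leaf 0))
(.node (.leaf 0)
(.leaf 58787364865)))
(.node (.node (.leaf 0)
(.leaf 0))
(.node (.leaf 0)
(.leaf 189253616052))))))))
(.node (.node (.node (.node (.node (.node (.node (.node (.leaf 0)
(.leaf 200823079908))
(.leaf 0))
(.node (.leaf 0)
(.leaf 0)))
(.node (.node (.node (.leaf 0)
(.leaf 17621893124013235421198550036))
(.leaf 0))
(.node (.leaf 0)
(.leaf 71941226501))))
(.node (.node (.node (.node (.leaf 0)
(.leaf 494858016304224815148285154375730371729687572))
(.leaf 0))
(.node (.leaf 0)
(.leaf 4563402753)))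
(.node (.node (.node (.leaf 0)
(.leaf 2553733043970352637239166149))
(.leaf 0))
(.node (.leaf 0)
(.leaf 141471973810)))))
(.node (.node (.node (.node (.node (.leaf 0)
(.leaf 332622154167955434429835078403669917617587340167414706))
(.leaf 0))
(.node (.leaf 0)
(.leaf 0)))
(.node (.node (.node (.leaf 0)
(.leaf 200696930723299257167145241311780365281961934429320439246038656952169067817791647473975591458064958780080127091477294557852526809484412704786983081423801587463560282602210517330588156035507))
(.leaf 0))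
(.node (.leaf 0)
(.leaf 1864047248836090614106735882847649795))))
(.node (.node (.node (.node (.leaf 0)
(.leaf 4408281602956840538065223512691507838))
(.leaf 0))
(.node (.leaf 0)
(.leaf 39460274179)))
(.node (.node (.leaf 0)
(.leaf 0))
(.node (.leaf 0)
(.leaf 169114337281))))))
(.node (.node (.node (.node (.node (.node (.leaf 0)
(.leaf 15495279258701410886406766596))
(.leaf 0))
(.node (.leaf 0)
(.leaf 0)))
(.node (.node (.node (.leaf 0)
(.leaf 1645036180880841320015588241000508561364378373073489900591532079125110321201368451643933743833885799222341566787759869498346067866217884953555768268365764875987050474247678019222944357868321218584925803294076884631418747258988507975771051691518034116213381751741814773375590358809233501661034198695601125569978222511588329912608631689609341531431919799345461672774967336460599704863027397936617357747))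
(.leaf 0))
(.node (.leaf 0)
(.leaf 82947211270))))
(.node (.node (.node (.node (.leaf 0)
(.leaf 59435128076526756313787083507837563160258712779935952029893656688702935564534834769890044107112672892722593730592158819343796070124820493879191136031730714748056698631809302000473836673606208783282))
(.leaf 0))
(.node (.leaf 0)
(.leaf 23085449217)))
(.node (.node (.leaf 0)
(.leaf 0))
(.node (.leaf 0)
(.leaf 39638555529232843733)))))
(.node (.node (.node (.node (.node (.leaf 0)
(.leaf 2569449723477203019143534263727378508186881981459904656897090560956808764982292))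
(.leaf 0))
(.node (.leaf 0)
(.leaf 0)))
(.node (.node (.node (.leaf 0)
(.leaf 51978460268143763911717819199438998287513717389436613451477818903941448641204965300246130070681912833612439953118863634485037265951000506408213300421109101412827491575232098291009517247518050550933))
(.leaf 0))
(.node (.leaf 0)
(.leaf 121347310012))))
(.node (.node (.node (.node (.leaf 0)
(.leaf 20987183631026922495848874422))
(.leaf 0))
(.node (.leaf 0)
(.leaf 51540000772)))
(.node (.node (.leaf 0)
(.leaf 0))
(.node (.leaf 0)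
(.leaf 188180136880)))))))
(.node (.node (.node (.node (.node (.node (.node (.leaf 0)
(.leaf 15146655274743396695888101379))
(.leaf 0))
(.node (.leaf 0)
(.leaf 0)))
(.node (.node (.node (.leaf 0)
(.leaf 179049792654))
(.leaf 0))
(.node (.leaf 0)
(.leaf 80262725637))))
(.node (.node (.node (.node (.leaf 0)
(.leaf 13671891355159310935313940968315893416882351638627851558414618767030775252707154961846671392122330531876077579768459706766916624005308057631321264505487795))
(.leaf 0))
(.node (.leaf 0)
(.leaf 6710886401)))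
(.node (.node (.node (.leaf 0)
(.leaf 68602840869494588621))
(.leaf 0))
(.node (.leaf 0)
(.leaf 144425157552)))))
(.node (.node (.node (.node (.node (.leaf 0)
(.leaf 536682461816762036542976877896960454414959636))
(.leaf 0))
(.node (.leaf 0)
(.leaf 0)))
(.node (.node (.node (.leaf 0)
(.leaf 240234848933260731932629685043256498767112868028763262301512017472440367754758950047029921789855484287900805330378442610903293704394038331129154968116063411560868135478246496793342339153532654282835322543916641037136052808553542603859943860734967512318012885251614625468371567435416723873971537422755694969918262904385785421421234753910898290087981690599252714324403))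
(.leaf 0))
(.node (.leaf 0)
(.leaf 26589392938826203139))))
(.node (.node (.node (.node (.leaf 0)
(.leaf 22377012472820757801911840990695134004426904253419363120544680707163058))
(.leaf 0))
(.node (.leaf 0)
(.leaf 45097549828)))
(.node (.node (.leaf 0)
(.leaf 0))
(.node (.leaf 0)
(.leaf 178816484334))))))
(.node (.node (.node (.node (.node (.node (.leaf 0)
(.leaf 59311510156732792837))
(.leaf 0))
(.node (.leaf 0)
(.leaf 0)))
(.node (.node (.node (.leaf 0)
(.leaf 895566319461173629711929587004166108904564764891940657464698170571115679066738246347254694965054259549657237818749620549702973649844190813479895947887915227822485242773324630852019))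
(.leaf 0))
(.node (.leaf 0)
(.leaf 90999750658))))
(.node (.node (.node (.node (.leaf 0)
(.leaf 4277353748186599066138059367912670246834319427967255578560479057665010595965207828538045898974085281311418132116542129074))
(.leaf 0))
(.node (.leaf 0)
(.leaf 29796597763)))
(.node (.node (.leaf 0)
(.leaf 0))
(.node (.leaf 0)
(.leaf 158115759025)))))
(.node (.node (.node (.node (.node (.leaf 0)
(.leaf 678075394598501356825229461324856208879516686798620646743888529488445989571970241987506))
(.leaf 0))
(.node (.leaf 0)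
(.leaf 2415919105)))
(.node (.node (.node (.leaf 0)
(.leaf 18318064396824947592134329531))
(.leaf 0))
(.node (.leaf 0)
(.leaf 136109949874))))
(.node (.node (.node (.node (.leaf 0)
(.leaf 38066551790671591182694682935705221115048387529061868960481715))
(.leaf 0))
(.node (.leaf 0)
(.leaf 65498644484)))
(.node (.node (.leaf 0)
(.leaf 0))
(.node (.leaf 0)
(.leaf 192475497393))))))))))
(.node (.node (.node (.node (.node (.node (.node (.node (.node (.node (.leaf 0)
(.leaf 195421536261))
(.leaf 0))
(.node (.leaf 0)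
(.leaf 0)))
(.node (.node (.node (.leaf 0)
(.leaf 68235795545336946468578707651283149447732396024673429955068081464825566399185473587069969744596090381317182594479914308513151576808531852833507116596590643460643754765907454671203187007123238862355261157110784773873685830425772469))
(.leaf 0))
(.node (.leaf 0)
(.leaf 67645865986))))
(.node (.node (.node (.node (.leaf 0)
(.leaf 2046328995657169380030901595545254012007535620719520065680501642611690202151359003970054078504349796255200104254770927761785288991276189055482724932917858712292685400917028560801925414224382504345999778954311172532))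
(.leaf 0))
(.node (.leaf 0)
(.leaf 3221225473)))
(.node (.node (.node (.leaf 0)
(.leaf 119737091264))
(.leaf 0))
(.node (.leaf 0)
(.leaf 139861361074)))))
(.node (.node (.node (.node (.node (.leaf 0)
(.leaf 222029480932))
(.leaf 0))
(.node (.leaf 0)
(.leaf 0)))
(.node (.node (.node (.leaf 0)
(.leaf 602960074355619604146550249298032588895339230599595999724097219968844621006773776835829567903017713550894399378695320342464819444530789960718810863251788426946890698819646362425478236370835278134593004519241126741979562421))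
(.leaf 0))
(.node (.leaf 0)
(.leaf 93147758598))))
(.node (.node (.node (.node (.leaf 0)
(.leaf 82736054172911529153128592388702100582301512448287986976985134485261905877435144518519292500823561799558343632933246729908877295586497697858060725))
(.leaf 0))
(.node (.leaf 0)
(.leaf 30601904131)))
(.node (.node (.leaf 0)
(.leaf 0))
(.node (.leaf 0)
(.leaf 159195399090))))))
(.node (.node (.node (.node (.node (.node (.leaf 0)
(.leaf 213144240562))
(.leaf 0))
(.node (.leaf 0)
(.leaf 0)))
(.node (.node (.node (.leaf 0)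
(.leaf 199182451854))
(.leaf 0))
(.node (.leaf 0)
(.leaf 81068032005))))
(.node (.node (.node (.node (.leaf 0)
(.leaf 290450375734))
(.leaf 0))
(.node (.leaf 0)
(.leaf 15837691905)))
(.node (.node (.leaf 0)
(.leaf 0))
(.node (.leaf 0)
(.leaf 145498899376)))))
(.node (.node (.node (.node (.node (.leaf 0)
(.leaf 7765667429313796787787547874349841939350293810400324311543262733528138030580658))
(.leaf 0))
(.node (.leaf 0)
(.leaf 0)))
(.node (.node (.node (.leaf 0)
(.leaf 1303000676588691630973811063473719189900340381843764689372693630885384798531371284542124610234616034765912177864842333321741982711249329271540273897909735428687609965508744909080779075534559020226358103250685524207246119330432080703947209448154285189098947472085172520824833898272282916324693417464015749557))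
(.leaf 0))
(.node (.leaf 0)
(.leaf 250993836470))))
(.node (.node (.node (.node (.leaf 0)
(.leaf 22282690386232538588926836837664451848809366607222974228097571630855598711485374502892529190533456653651124406950858321047769359991710436964667831401057094265258120478381866855149486137924788203827585286578))
(.leaf 0))
(.node (.leaf 0)
(.leaf 45902856196)))
(.node (.node (.leaf 0)
(.leaf 0))
(.node (.leaf 0)
(.leaf 186569261492)))))))
(.node (.node (.node (.node (.node (.node (.node (.leaf 0)
(.leaf 205353648133))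
(.leaf 0))
(.node (.leaf 0)
(.leaf 0)))
(.node (.node (.node (.leaf 0)
(.leaf 113651875855588372933939020325649151053729929917379041479749796918357945018326863796206067658065271826872859237375135610465368264696125707012469345715578881168124494413995854578222662783512232251150422772971102895642974849834037945511248818))
(.leaf 0))
(.node (.leaf 0)
(.leaf 76235800578))))
(.node (.node (.node (.node (.leaf 0)
(.leaf 2813362021696904667207874038935056689999569143790261894254702224473950429384404147786276220268906680936268991961948802922047283844904709495050486437461096645434297178587728812120480789686618804855638580012620875839399047719724939286565050382680502))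
(.leaf 0))
(.node (.leaf 0)
(.leaf 5368709121)))
(.node (.node (.node (.leaf 0)
(.leaf 436217608851460400248864202064463046))
(.leaf 0))
(.node (.leaf 0)
(.leaf 38268933473439253448)))))
(.node (.node (.node (.node (.node (.leaf 0)
(.leaf 6809496658165096711365461012))
(.leaf 0))
(.node (.leaf 0)
(.leaf 0)))
(.node (.node (.node (.leaf 0)
(.leaf 20958510459527502964397215122020771323337577099093369226570516112221892369548003975450631568825104807834221872018530113655244483305613457975557190867094546595708946297884157450134630087043682249753886390688875901844217761089430968131474893009690994753050085861844441438615001581822690106072285143496597257650542008956210188311200181))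
(.leaf 0))
(.node (.leaf 0)
(.leaf 26157047374598635523))))
(.node (.node (.node (.node (.leaf 0)
(.leaf 4529575024493646513532458497556082945071887144096763313503996558545252606464645430084634497153026683145474717550799724217124479017558860680187933804735894765519739462300493563230408941221844816122072274335111785894472021405322998915495983509656737670341060169245743959461673757493903884845937408946295511982395283162926459739518659856112149526924231232174901773400101160437577005504374636982))
(.leaf 0))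
(.node (.leaf 0)
(.leaf 42949935107)))
(.node (.node (.leaf 0)
(.leaf 0))
(.node (.leaf 0)
(.leaf 171811865522))))))
(.node (.node (.node (.node (.node (.node (.leaf 0)
(.leaf 58157040535482860493))
(.leaf 0))
(.node (.leaf 0)
(.leaf 0)))
(.node (.node (.node (.leaf 0)
(.leaf 1957732459946458319067362226347810735719290911013968274866710800313738619333596278610585936294505845309823963311704261123296330772))
(.leaf 0))
(.node (.leaf 0)
(.leaf 86436872198))))
(.node (.node (.node (.node (.leaf 0)
(.leaf 106343077946311561299327238416912158106855149001850331513644618066626380568030346403920034443616333007001300187165636628781480909709689745563490539466151803371034870039939659929128444844193509604834568218669156861441783010697825402423169919501732902859892943041359982605219851108991405721334622563696098116270308076842982488304917385487216589846742159453811544162739))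
(.leaf 0))
(.node (.leaf 0)
(.leaf 26843807747)))
(.node (.node (.leaf 0)
(.leaf 0))
(.node (.leaf 0)
(.leaf 150062039476)))))
(.node (.node (.node (.node (.node (.leaf 0)
(.leaf 779924924442011217771771047048689112510013160789080966729901186349077692908704517269315608371997340018147979203329111811838227857887592886))
(.leaf 0))
(.node (.leaf 0)
(.leaf 0)))
(.node (.node (.node (.leaf 0)
(.leaf 6878020390202448806299445688299502555478109365038447574980689228861531583498032795392816160315835563029234941968221967321896341063380153572934216518968111018909851469194868113799236278576464697288736582549732640978798165127693650124796153964546184425913178763499992310747867353071237157011739133660121012840214431538474435991335872410419845699640281995812942838426466482322865615713479214215996832908748044387971011142032094631625140))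
(.leaf 0))
(.node (.leaf 0)
(.leaf 123227406791))))
(.node (.node (.node (.node (.leaf 0)
(.leaf 20178747668892418424))
(.leaf 0))
(.node (.leaf 0)
(.leaf 58519322628)))
(.node (.node (.leaf 0)
(.leaf 0))
(.node (.leaf 0)
(.leaf 188985443248))))))))
(.node (.node (.node (.node (.node (.node (.node (.node (.leaf 0)
(.leaf 198911197189))
(.leaf 0))
(.node (.leaf 0)
(.leaf 0)))
(.node (.node (.node (.leaf 0)
(.leaf 345310392509663265856175558703508489938358093256700307594525745850553120107804185416815055740417132114630379548889859917826655397168920261285268422477658073088196185031727888892973434223394890116171324089283004728761383056805790642))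
(.leaf 0))
(.node (.leaf 0)
(.leaf 68719607810))))
(.node (.node (.node (.node (.leaf 0)
(.leaf 16852263893295005816962253361106582183996851577914760291251760455852114511882080380113028622320260490871355288043801976706242924495030353855053661444806745789326455466905556954612552560751537598667566547378))
(.leaf 0))
(.node (.leaf 0)
(.leaf 4294967297)))
(.node (.node (.node (.leaf 0)
(.leaf 1219078939115802028363547845))
(.leaf 0))
(.node (.leaf 0)
(.leaf 141203669428)))))
(.node (.node (.node (.node (.node (.leaf 0)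
(.leaf 5320100050417873233577378836))
(.leaf 0))
(.node (.leaf 0)
(.leaf 0)))
(.node (.node (.node (.leaf 0)
(.leaf 31920833594001005495355569944405014355745107200881524579370611360661939))
(.leaf 0))
(.node (.leaf 0)
(.leaf 95832113158))))
(.node (.node (.node (.node (.leaf 0)
(.leaf 298240115786))
(.leaf 0))
(.node (.leaf 0)
(.leaf 38923141121)))
(.node (.node (.leaf 0)
(.leaf 0))
(.node (.leaf 0)
(.leaf 167772160001))))))
(.node (.node (.node (.node (.node (.node (.leaf 0)
(.leaf 4149092689298680115123617997605175300))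
(.leaf 0))
(.node (.leaf 0)
(.leaf 0)))
(.node (.node (.node (.leaf 0)
(.leaf 201061500046))
(.leaf 0))
(.node (.leaf 0)
(.leaf 82141904902))))
(.node (.node (.node (.node (.leaf 0)
(.leaf 92503171876846826553450904715436198764405919481895713293861301))
(.leaf 0))
(.node (.leaf 0)
(.leaf 22817013761)))
(.node (.node (.leaf 0)
(.leaf 0))
(.node (.leaf 0)
(.leaf 146840814004)))))
(.node (.node (.node (.node (.node (.leaf 0)
(.leaf 219047826327822765487416206760746425909014061483606337982335859148517830140773961631846013404082))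
(.leaf 0))
(.node (.leaf 0)
(.leaf 0)))
(.node (.node (.node (.leaf 0)
(.leaf 21213975217634652588969439633856740852845829510281406185082895253754827661328563824490056924481712153079994473649162402853105323928423098684016945919820820))
(.leaf 0))
(.node (.leaf 0)
(.leaf 121078874556))))
(.node (.node (.node (.node (.leaf 0)
(.leaf 92468469772238832349344605493448606708627169440944391230436842234317596209559233045198459982170760188704327487524415636094896253796240456513110194912916102516986939286370038597171897304084))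
(.leaf 0))
(.node (.leaf 0)
(.leaf 51271172097)))
(.node (.node (.leaf 0)
(.leaf 0))
(.node (.leaf 0)
(.leaf 187642872242)))))))
(.node (.node (.node (.node (.node (.node (.node (.leaf 0)
(.leaf 209648746502))
(.leaf 0))
(.node (.leaf 0)
(.leaf 0)))
(.node (.node (.node (.leaf 0)
(.leaf 159577224573477842317698866927620138072743879507008187284013502525551956089470851084983072302997940712328117897205580608506151896375319912668165342461178430063358309818938490190016502578715214368357041695058896237304664328279228852))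
(.leaf 0))
(.node (.leaf 0)
(.leaf 78383808518))))
(.node (.node (.node (.node (.leaf 0)
(.leaf 51126682946638499542809429491728620761777347967470880131455891808795294763384371924951257821386649288358055107514348048202293376058890006234005942))
(.leaf 0))
(.node (.leaf 0)
(.leaf 6442450945)))
(.node (.node (.node (.leaf 0)
(.leaf 18395454539827149621236270282))
(.leaf 0))
(.node (.leaf 0)
(.leaf 143888023988)))))
(.node (.node (.node (.node (.node (.leaf 0)
(.leaf 2309679979901286878602346695966004136652714084816558488462371177800207761663423714340067059559973120584719235976586657560179311536))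
(.leaf 0))
(.node (.leaf 0)
(.leaf 0)))
(.node (.node (.node (.leaf 0)
(.leaf 2580488165877051452786407989552252425771544294595347845346878949506620903122891356757685346402844754508198950946661345537383007154))
(.leaf 0))
(.node (.leaf 0)
(.leaf 26517335344788275203))))
(.node (.node (.node (.node (.leaf 0)
(.leaf 982462999635544246865323722700882041213129760872599628833462183756939411523557781992184450831977998527321735575071108878940383680628902175500643636197522598754940242528166902716044364265126530222497502518192871926285389501258482622598704670633203379798962))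
(.leaf 0))
(.node (.leaf 0)
(.leaf 44829114372)))
(.node (.node (.leaf 0)
(.leaf 0))
(.node (.leaf 0)
(.leaf 178254316466))))))
(.node (.node (.node (.node (.node (.node (.leaf 0)
(.leaf 219848769538))
(.leaf 0))
(.node (.leaf 0)
(.leaf 0)))
(.node (.node (.node (.leaf 0)
(.leaf 12921230586057248798504060047))
(.leaf 0))
(.node (.leaf 0)
(.leaf 90731315202))))
(.node (.node (.node (.node (.leaf 0)
(.leaf 2113646528244908094798039329190852560639341394723490943009280994339779982253024069616052))
(.leaf 0))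
(.node (.leaf 0)
(.leaf 29528162307)))
(.node (.node (.leaf 0)
(.leaf 0))
(.node (.leaf 0)
(.leaf 157847323569)))))
(.node (.node (.node (.node (.node (.leaf 0)
(.leaf 3924306846476474483367762428430896104128150721287845183931746342228790418355966007329803127604616466405730128160385925555))
(.leaf 0))
(.node (.leaf 0)
(.leaf 2147483649)))
(.node (.node (.node (.leaf 0)
(.leaf 163753166010))
(.leaf 0))
(.node (.leaf 0)
(.leaf 129399063474))))
(.node (.node (.node (.node (.leaf 0)
(.leaf 40979126996267804944180443303979330727224278737724269591265715))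
(.leaf 0))
(.node (.leaf 0)
(.leaf 62545461249)))
(.node (.node (.leaf 0)
(.leaf 0))
(.node (.leaf 0)
(.leaf 13852575747332765698052194306)))))))))
(.node (.node (.node (.node (.node (.node (.node (.node (.node (.leaf 0)
(.leaf 197306942384))
(.leaf 0))
(.node (.leaf 0)
(.leaf 0)))
(.node (.node (.node (.leaf 0)
(.leaf 9248137143885186702596265896227920222030361331022673365368483745169844))
(.leaf 0))
(.node (.leaf 0)
(.leaf 18302804809104883714))))
(.node (.node (.node (.node (.leaf 0)
(.leaf 1718839147542919183939601489463935922))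
(.leaf 0))
(.node (.leaf 0)
(.leaf 3758096385)))
(.node (.node (.node (.leaf 0)
(.leaf 164287677635))
(.leaf 0))
(.node (.leaf 0)
(.leaf 140666798516)))))
(.node (.node (.node (.node (.node (.leaf 0)
(.leaf 94311100004139613886711187322828632627848564767936526825030067))
(.leaf 0))
(.node (.leaf 0)
(.leaf 0)))
(.node (.node (.node (.leaf 0)
(.leaf 79571486848388437983330340162539625534469348571923988030240651720991337720277247489171099695305285149297546988314639207297305521505436374260347696606276944545875292541833758225673090516727709080333648538539998884359204047011232362092682151829841561875262312902994961464542884004275))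
(.leaf 0))
(.node (.leaf 0)
(.leaf 94758371334))))
(.node (.node (.node (.node (.leaf 0)
(.leaf 183601838496476108851861882436119594767287308180158518573899774765010271879179659185517678166641334343565091115752544884968780926780934384911975346))
(.leaf 0))
(.node (.leaf 0)
(.leaf 35701915649)))
(.node (.node (.leaf 0)
(.leaf 0))
(.node (.leaf 0)
(.leaf 165100979122))))))
(.node (.node (.node (.node (.node (.node (.leaf 0)
(.leaf 212650427411))
(.leaf 0))
(.node (.leaf 0)
(.leaf 0)))
(.node (.node (.node (.leaf 0)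
(.leaf 200256193678))
(.leaf 0))
(.node (.leaf 0)
(.leaf 81604902917))))
(.node (.node (.node (.node (.leaf 0)
(.leaf 89287579630151561884926588585520467391445720168672265899475381))
(.leaf 0))
(.node (.leaf 0)
(.leaf 19059310596)))
(.node (.node (.leaf 0)
(.leaf 0))
(.node (.leaf 0)
(.leaf 39278162005121237970)))))
(.node (.node (.node (.node (.node (.leaf 0)
(.leaf 2088466764153276121562021848756441900842931895153770800281171028227430641027608679416246))
(.leaf 0))
(.node (.leaf 0)
(.leaf 0)))
(.node (.node (.node (.leaf 0)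
(.leaf 6345391965170598037580809394))
(.leaf 0))
(.node (.leaf 0)
(.leaf 118930997688))))
(.node (.node (.node (.node (.leaf 0)
(.leaf 900636100053390152476454308239914441673170861048616372827637454665310859328931393166492060396616304831386473217131905623605583477066901792392279790680508844269525441910287787819442))
(.leaf 0))
(.node (.leaf 0)
(.leaf 50197430273)))
(.node (.node (.leaf 0)
(.leaf 0))
(.node (.leaf 0)
(.leaf 13484920626454328630940139522)))))))
(.node (.node (.node (.node (.node (.node (.node (.leaf 0)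
(.leaf 55998901528327487494))
(.leaf 0))
(.node (.leaf 0)
(.leaf 0)))
(.node (.node (.node (.leaf 0)
(.leaf 2245782160061547202460916154041712386291947139215821615485762623758960113603120262939062))
(.leaf 0))
(.node (.leaf 0)
(.leaf 77577977858))))
(.node (.node (.node (.node (.leaf 0)
(.leaf 7693258519458153462917596411366569206779334818502477045236582830338286505296310))
(.leaf 0))
(.node (.leaf 0)
(.leaf 5905580033)))
(.node (.node (.node (.leaf 0)
(.leaf 63772536753741825224))
(.leaf 0))
(.node (.leaf 0)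
(.leaf 143351153076)))))
(.node (.node (.node (.node (.node (.leaf 0)
(.leaf 148809261781935340096210644446782938520837365978296994639975590305445845080988289246725117840665033900468))
(.leaf 0))
(.node (.leaf 0)
(.leaf 0)))
(.node (.node (.node (.leaf 0)
(.leaf 229667795593376431363413353492662444637022271450986715010324417288801528509734995928168104043255335049603640778288888706127669171957059155889402124352246478187796889819189944320269280287929014747681734294184854307656504631350128593225099972972843923774277314316551569941286913026751322215776229197984264670322171540893731121154770501877735572281677828894368948676832568717787301611885923157123779365926338995))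
(.leaf 0))
(.node (.leaf 0)
(.leaf 26373220156712419331))))
(.node (.node (.node (.node (.leaf 0)
(.leaf 30248712328899400323120145743345662525724557714783509620255683070037033789140791941983109382579))
(.leaf 0))
(.node (.leaf 0)
(.leaf 44292243460)))
(.node (.node (.leaf 0)
(.leaf 0))
(.node (.leaf 0)
(.leaf 176912139186))))))
(.node (.node (.node (.node (.node (.node (.leaf 0)
(.leaf 58590019421068591109))
(.leaf 0))
(.node (.leaf 0)
(.leaf 0)))
(.node (.node (.node (.leaf 0)
(.leaf 2162062260663075410397103050690170733041618357149770021594920569479137966719617126079454351614908311350714065972025061470515101814469989707242225710976601391918608035541976672171518501054178501549922095876610064821))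
(.leaf 0))
(.node (.leaf 0)
(.leaf 86973218818))))
(.node (.node (.node (.node (.leaf 0)
(.leaf 538016720763905684960476768572652610540382596097956826790173568704557273116143788297992331252249959492357418894024815564999777825194666738388101752969646082037335185456148385341683541952491042981737786484207914141291709362))
(.leaf 0))
(.node (.leaf 0)
(.leaf 28991291395)))
(.node (.node (.leaf 0)
(.leaf 0))
(.node (.leaf 0)
(.leaf 157041623984)))))
(.node (.node (.node (.node (.node (.leaf 0)
(.leaf 5623319633543959377048034633417950129))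
(.leaf 0))
(.node (.leaf 0)
(.leaf 0)))
(.node (.node (.node (.leaf 0)
(.leaf 2785846801336361438783145146))
(.leaf 0))
(.node (.leaf 0)
(.leaf 125896359938))))
(.node (.node (.node (.node (.leaf 0)
(.leaf 87197091868842213105662778777731322593484612529167092763049824840787508551576946293078460851086579915733699764811431689922597772184998105509337302558132477427387144946858390913557753441432669053032077819917083001064522973665991468091900338))
(.leaf 0))
(.node (.leaf 0)
(.leaf 61203677188)))
(.node (.node (.leaf 0)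
(.leaf 0))
(.node (.leaf 0)
(.leaf 191670191025))))))))
(.node (.node (.node (.node (.node (.node (.node (.node (.leaf 0)
(.leaf 54331566643428196353))
(.leaf 0))
(.node (.leaf 0)
(.leaf 0)))
(.node (.node (.node (.leaf 0)
(.leaf 4140750858986746458823700584003203824046366822940194525949780677049221633060428353350262541748514563223165891610969901386390504029306674603351336752055322721223324025094582))
(.leaf 0))
(.node (.leaf 0)
(.leaf 72478228486))))
(.node (.node (.node (.node (.leaf 0)
(.leaf 684852193733246441867664722525468811278397301423086067996602198695926741998792833677034141949429237895905434256515190905277110017740405323123991283432041564198453462302961665507762))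
(.leaf 0))
(.node (.leaf 0)
(.leaf 4831838209)))
(.node (.node (.node (.leaf 0)
(.leaf 3462845260320553776618210501))
(.leaf 0))
(.node (.leaf 0)
(.leaf 141740802992)))))
(.node (.node (.node (.node (.node (.leaf 0)
(.leaf 27322188854223621497832358417143837960336183905621790675567636))
(.leaf 0))
(.node (.leaf 0)
(.leaf 0)))
(.node (.node (.node (.leaf 0)
(.leaf 537980179409894521322519824170109696163299501454249839290208921825220568382582696671457206322624337187778322459327385530487368386127571205603269705767857518224399509819825927766927763505597774677067362430637363427711123891))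
(.leaf 0))
(.node (.leaf 0)
(.leaf 25940874592484851715))))
(.node (.node (.node (.node (.leaf 0)
(.leaf 13738883655861167111761324665341033870257518524221400245598908876660044707984329812759795760839723436879774030196041345845844862749224925922115505791537255303043840927873375479583228147510680334510253650796528441687841874707574191689096108033246130))
(.leaf 0))
(.node (.leaf 0)
(.leaf 40802189313)))
(.node (.node (.leaf 0)
(.leaf 0))
(.node (.leaf 0)
(.leaf 169932817330))))))
(.node (.node (.node (.node (.node (.node (.leaf 0)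
(.leaf 57873595246032651258))
(.leaf 0))
(.node (.leaf 0)
(.leaf 0)))
(.node (.node (.node (.leaf 0)
(.leaf 161487379682468051301267235174952508847240817055019942301030799314926279537116734008506386328023352671581992722969081645793240192456458923815140234782520451728828469445106772822651686351066300282664600145317707734913366875825242547))
(.leaf 0))
(.node (.leaf 0)
(.leaf 83751993346))))
(.node (.node (.node (.node (.leaf 0)
(.leaf 59374140497106665610948959704851022408231195621198386939987695586123036415900688663973371919458123890177100598426492434103407830680648108100085517338319654768604367257544310077360829632586670477664793483556929914477331470234504608463021709180334237265305068187896665173844304683939478508363191771606917877252276745609941278603015729202748297732835760104031097027605425181437168478490307782331981263985052679705723315))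
(.leaf 0))
(.node (.leaf 0)
(.leaf 24159584260)))
(.node (.node (.leaf 0)
(.leaf 0))
(.node (.leaf 0)
(.leaf 149525824433)))))
(.node (.node (.node (.node (.node (.leaf 0)
(.leaf 6867534542960175778477507604))
(.leaf 0))
(.node (.leaf 0)
(.leaf 0)))
(.node (.node (.node (.leaf 0)
(.leaf 452654221141194495418025775410802264217889635385034452593472607126459551032748239367836571927730))
(.leaf 0))
(.node (.leaf 0)
(.leaf 121614107059))))
(.node (.node (.node (.node (.leaf 0)
(.leaf 341898911738256028116828102755333158291590120004368904254615946450803026079692999980571018981675875719064802463687326917698737250173710402960620035584066438209367795834245524555828518574351122451406722674850706450451363331712549300))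
(.leaf 0))
(.node (.leaf 0)
(.leaf 52076478465)))
(.node (.node (.leaf 0)
(.leaf 0))
(.node (.leaf 0)
(.leaf 188448309684)))))))
(.node (.node (.node (.node (.node (.node (.node (.leaf 0)
(.leaf 56858385357365444614))
(.leaf 0))
(.node (.leaf 0)
(.leaf 0)))
(.node (.node (.node (.leaf 0)
(.leaf 179586663566))
(.leaf 0))
(.node (.leaf 0)
(.leaf 80531161093))))
(.node (.node (.node (.node (.leaf 0)
(.leaf 141439927014434156970957756232136335757813644653822388))
(.leaf 0))
(.node (.leaf 0)
(.leaf 12885164035)))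
(.node (.node (.node (.leaf 0)
(.leaf 32213843844761322702))
(.leaf 0))
(.node (.leaf 0)
(.leaf 144693330356)))))
(.node (.node (.node (.node (.node (.leaf 0)
(.leaf 35106657062829729997387395811053791358013329303407470277362902203696339301146607823375267505878138858236596747845883498478098051645930141598257464556097910287237219717165326280401888558314494406474163888157853460849104778995575415978131892))
(.leaf 0))
(.node (.leaf 0)
(.leaf 0)))
(.node (.node (.node (.leaf 0)
(.leaf 25210048931203129154596484044281301639921214545546327344441277777329702174109008414711758630781887723033101043477836712468387725167602770820090170980184422743059080124988322273894485982859109603594549983593097244518272612669584014988249211199161364))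
(.leaf 0))
(.node (.leaf 0)
(.leaf 63484482090340516276))))
(.node (.node (.node (.node (.leaf 0)
(.leaf 287851915689620430425118669872970267759477264486309781009886157577678458356203387085799957748607981099648037405158479377448641901112132530))
(.leaf 0))
(.node (.leaf 0)
(.leaf 45365985284)))
(.node (.node (.leaf 0)
(.leaf 0))
(.node (.leaf 0)
(.leaf 181731065859))))))
(.node (.node (.node (.node (.node (.node (.leaf 0)
(.leaf 59383708489332948998))
(.leaf 0))
(.node (.leaf 0)
(.leaf 0)))
(.node (.node (.node (.leaf 0)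
(.leaf 10946172847448599942270781580764122778775726473095120873486684393440276))
(.leaf 0))
(.node (.leaf 0)
(.leaf 91537014789))))
(.node (.node (.node (.node (.leaf 0)
(.leaf 109574289776860683358126077910918880735367686869746664062976438))
(.leaf 0))
(.node (.leaf 0)
(.leaf 30065033219)))
(.node (.node (.leaf 0)
(.leaf 0))
(.node (.leaf 0)
(.leaf 158383801264)))))
(.node (.node (.node (.node (.node (.leaf 0)
(.leaf 387681305122525949140697171276911060320567936264897172))
(.leaf 0))
(.node (.leaf 0)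
(.leaf 2684354561)))
(.node (.node (.node (.leaf 0)
(.leaf 18376092836166449792520225979))
(.leaf 0))
(.node (.leaf 0)
(.leaf 136654816191))))
(.node (.node (.node (.node (.leaf 0)
(.leaf 2125179679284091202055952120031658568373402893361300849914054200977246718420593819336807061634064029798681656657219026159262359359923370184630149166096841558510456940105856202309170461676065728654286130861767459252))
(.leaf 0))
(.node (.leaf 0)
(.leaf 66840821764)))
(.node (.node (.leaf 0)
(.leaf 0))
(.node (.leaf 0)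
(.leaf 192743276980)))))))))))

def l0 : List Ax := [.Y false,
  .Y true,
  .u1 false,
  .u2 false,
  .u1 true,
  .u2 true,
  .ex2 false 0 1 2 3 4,
  .ex2 false 0 2 1 3 7,
  .ex2 false 0 1 2 4 6,
  .ex2 false 0 2 1 4 6,
  .ex2 false 0 1 2 4 7,
  .ex2 false 0 2 1 4 7,
  .ex2 false 0 2 1 5 7,
  .ex2 false 0 1 2 6 7,
  .ex2 false 0 2 1 6 7,
  .ex2 false 1 2 0 3 7,
  .ex2 false 1 2 0 4 7,
  .ex2 false 1 2 0 5 7,
  .ex2 false 2 1 0 3 4,
  .ex2 false 2 1 0 4 5,
  .ex2 false 2 1 0 6 7,
  .ex3 false 2 0 1 3 4 7,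
  .ex3 false 2 0 1 3 5 7,
  .ex3 false 2 0 1 3 6 7,
  .ex3 false 2 0 1 5 6 7,
  .ex2 false 0 3 1 4 7,
  .ex2 false 0 3 1 5 7,
  .ex2 false 4 1 0 2 7,
  .ex2 false 4 0 1 3 7,
  .ex2 false 0 1 5 6 7,
  .ex3 false 0 1 5 3 4 7,
  .ex2 false 6 1 0 2 7,
  .ex3 false 0 1 6 3 5 7,
  .ex3 false 6 0 1 3 5 7,
  .ex2 false 6 0 1 3 7,
  .ex2 false 6 0 1 4 7,
  .ex2 false 1 0 7 2 6,
  .ex2 false 7 1 0 3 5,
  .ex2 false 7 0 1 3 6,
  .ex2 false 7 1 0 3 6,
  .ex2 false 7 0 1 4 5,
  .ex2 false 7 0 1 5 6,
  .ex2 false 2 3 0 4 7,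
  .ex2 false 3 2 0 4 7,
  .ex2 false 0 2 5 6 7,
  .ex3 false 2 0 6 3 4 7,
  .ex2 false 0 2 7 1 6,
  .ex2 false 2 0 7 1 3,
  .ex3 false 0 2 7 1 4 6,
  .ex2 false 7 2 0 1 6,
  .ex2 false 7 0 2 4 6,
  .ex2 false 7 2 0 5 6,
  .ex2 false 0 3 4 1 2,
  .ex2 false 0 3 4 2 7,
  .ex2 false 3 0 4 1 6,
  .ex2 false 4 3 0 2 7,
  .ex2 false 0 3 5 6 7,
  .ex2 false 3 0 5 4 7,
  .ex2 false 0 3 6 1 2,
  .ex2 false 3 0 6 1 4,
  .ex2 false 6 0 3 1 5,
  .ex2 false 6 3 0 2 7,
  .ex2 false 3 0 6 4 7,
  .ex2 false 3 0 7 1 2,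
  .ex2 false 7 3 0 2 6,
  .ex2 false 7 3 0 4 6,
  .ex2 false 7 0 3 5 6,
  .ex2 false 0 4 5 6 7,
  .ex3 false 0 4 5 1 3 6,
  .ex2 false 5 4 0 1 7,
  .ex2 false 4 0 5 2 3,
  .ex2 false 4 0 5 3 7,
  .ex2 false 0 6 4 1 7,
  .ex2 false 6 0 4 1 5,
  .ex2 false 6 4 0 1 7,
  .ex2 false 4 0 6 3 7,
  .ex2 false 0 4 7 1 2,
  .ex2 false 0 4 7 1 5,
  .ex2 false 0 4 7 1 6,
  .ex2 false 0 7 4 5 6,
  .ex2 false 7 4 0 1 6,
  .ex3 false 0 5 6 1 3 4,
  .ex3 false 0 5 6 3 4 7,
  .ex3 false 5 0 6 3 4 7,
  .ex2 false 0 5 7 1 2,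
  .ex2 false 0 7 5 1 2,
  .ex2 false 7 0 5 1 3,
  .ex2 false 7 5 0 1 4,
  .ex2 false 7 0 5 1 6,
  .ex3 false 7 0 5 2 3 4,
  .ex2 false 7 0 5 3 4,
  .ex2 false 7 0 5 3 6,
  .ex2 false 7 0 5 4 6,
  .ex2 false 0 6 7 1 2,
  .ex2 false 0 7 6 1 3,
  .ex2 false 0 7 6 1 5,
  .ex2 false 0 6 7 2 4,
  .ex2 false 0 6 7 2 5,
  .ex2 false 0 7 6 4 5,
  .ex3 false 0 6 7 1 2 3,
  .ex2 false 7 0 6 1 3,
  .ex2 false 7 6 0 1 5,
  .ex2 false 6 7 0 2 4,
  .ex2 false 7 0 6 3 4,
  .ex2 false 7 6 0 3 5,
  .ex2 false 7 0 6 4 5,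
  .ex2 false 3 2 1 0 4,
  .ex2 false 3 2 1 0 5,
  .ex2 false 3 2 1 0 6,
  .ex2 false 3 1 2 0 7,
  .ex3 false 2 1 3 0 6 7,
  .ex2 false 1 2 3 6 7,
  .ex2 false 3 2 1 4 7,
  .ex2 false 3 2 1 6 7,
  .ex3 false 2 1 3 4 6 7,
  .ex2 false 4 2 1 3 7,
  .ex3 false 2 1 5 3 4 7,
  .ex3 false 2 1 6 0 3 7,
  .ex2 false 1 2 6 4 7,
  .ex3 false 2 1 6 3 4 7,
  .ex2 false 6 2 1 3 7,
  .ex2 false 6 2 1 4 7,
  .ex3 false 2 1 7 0 4 6,
  .ex2 false 7 2 1 0 6,
  .ex2 false 1 2 7 5 6,
  .ex3 false 3 1 4 0 6 7,
  .ex2 false 4 3 1 5 7,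
  .ex2 false 3 1 5 4 7,
  .ex2 false 1 3 6 0 7,
  .ex3 false 3 1 6 0 4 7,
  .ex2 false 6 3 1 0 7,
  .ex2 false 3 1 6 4 7,
  .ex2 false 1 3 7 0 2,
  .ex2 false 3 7 1 0 5,
  .ex2 false 7 3 1 0 4,
  .ex3 false 1 3 7 0 5 6,
  .ex2 false 7 3 1 0 6,
  .ex2 false 7 3 1 4 5,
  .ex2 false 7 3 1 4 6,
  .ex3 false 4 1 5 0 6 7,
  .ex2 false 4 1 5 3 7,
  .ex3 false 4 1 6 0 3 7,
  .ex2 false 1 4 6 2 3,
  .ex2 false 4 1 6 3 7,
  .ex2 false 1 4 7 0 2,
  .ex2 false 4 7 1 0 3,
  .ex2 false 1 4 7 2 3,
  .ex2 false 1 4 7 2 6,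
  .ex2 false 7 4 1 3 6,
  .ex3 false 1 5 6 3 4 7,
  .ex3 false 5 1 6 3 4 7,
  .ex2 false 1 5 7 0 2,
  .ex2 false 5 7 1 0 6,
  .ex2 false 7 1 5 0 6,
  .ex2 false 5 7 1 2 6,
  .ex2 false 7 5 1 4 6,
  .ex2 false 1 6 7 0 2,
  .ex2 false 1 7 6 0 3,
  .ex2 false 7 6 1 0 5,
  .ex2 false 1 7 6 2 3,
  .ex2 false 1 6 7 4 5,
  .ex2 false 7 1 6 3 4,
  .ex2 false 7 6 1 3 4,
  .ex2 false 2 3 4 0 1,
  .ex2 false 2 3 4 0 5,
  .ex2 false 2 3 4 0 6,
  .ex2 false 3 2 4 0 5,
  .ex2 false 4 3 2 0 7,
  .ex3 false 2 3 4 0 5 6,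
  .ex2 false 3 2 4 5 6,
  .ex2 false 4 2 3 5 6,
  .ex2 false 2 3 5 0 4,
  .ex2 false 3 2 5 4 7,
  .ex2 false 6 2 3 0 5,
  .ex2 false 3 2 6 1 4,
  .ex2 false 3 2 6 1 5,
  .ex3 false 2 3 6 1 4 5,
  .ex2 false 6 2 3 1 5,
  .ex2 false 3 2 6 4 7,
  .ex2 false 7 2 3 1 5,
  .ex3 false 4 2 5 0 6 7,
  .ex2 false 4 2 5 3 7,
  .ex2 false 2 6 4 0 7,
  .ex2 false 6 2 4 0 5,
  .ex2 false 2 4 6 1 3,
  .ex2 false 4 2 6 3 7,
  .ex2 false 2 4 7 0 1,
  .ex2 false 2 5 6 3 4,
  .ex3 false 2 5 6 3 4 7,
  .ex2 false 7 2 5 0 6,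
  .ex2 false 2 6 7 0 1,
  .ex2 false 2 6 7 3 4,
  .ex2 false 7 2 6 3 4,
  .ex3 false 3 4 7 0 1 2,
  .ex2 false 4 3 7 0 1,
  .ex2 false 7 3 4 0 1,
  .ex2 false 4 3 7 0 2,
  .ex2 false 7 3 4 0 2,
  .ex2 false 7 4 3 0 2,
  .ex2 false 7 3 4 0 5,
  .ex2 false 7 3 4 0 6,
  .ex2 false 7 4 3 0 6,
  .ex2 false 3 4 7 1 2,
  .ex2 false 4 3 7 1 2,
  .ex2 false 7 3 4 1 2,
  .ex3 false 3 4 7 1 5 6,
  .ex2 false 7 3 4 1 5,
  .ex2 false 7 3 4 1 6,
  .ex2 false 7 4 3 1 6,
  .ex2 false 7 4 3 2 5,
  .ex2 false 7 3 4 2 6,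
  .ex2 false 7 4 3 2 6,
  .ex2 false 7 3 4 5 6,
  .ex2 false 7 4 3 5 6,
  .ex2 false 3 7 5 0 4,
  .ex2 false 7 3 5 0 4,
  .ex2 false 7 3 5 0 6,
  .ex2 false 3 7 5 2 4,
  .ex3 false 3 6 7 0 1 2,
  .ex2 false 6 3 7 0 1,
  .ex2 false 7 3 6 0 1,
  .ex2 false 6 3 7 0 2,
  .ex2 false 7 3 6 0 2,
  .ex2 false 3 7 6 0 4,
  .ex2 false 7 3 6 0 4,
  .ex2 false 3 7 6 1 4,
  .ex2 false 7 3 6 1 4,
  .ex2 false 3 7 6 2 4,
  .ex2 false 7 5 4 0 2,
  .ex2 false 4 7 5 0 3,
  .ex2 false 7 4 5 1 2,
  .ex2 false 4 7 5 2 3,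
  .ex3 false 4 6 7 0 1 2,
  .ex3 false 4 6 7 0 1 3,
  .ex3 false 7 4 6 0 1 3,
  .ex2 false 7 4 6 0 1,
  .ex3 false 4 6 7 0 2 3,
  .ex2 false 4 6 7 0 2,
  .ex2 false 4 7 6 0 3,
  .ex2 false 6 7 4 0 3,
  .ex2 false 7 4 6 0 3,
  .ex2 false 4 7 6 1 3,
  .ex2 false 7 4 6 1 3,
  .ex2 false 4 7 6 2 3,
  .ex2 false 5 6 7 0 1,
  .ex2 false 7 6 5 0 1,
  .ex2 false 7 6 5 0 3,
  .ex2 false 7 5 6 0 4,
  .ex3 false 7 5 6 2 3 4,
  .ex2 false 7 6 5 3 4,
  .ex2 true 0 1 2 3 7,
  .ex2 true 0 2 1 4 5,
  .ex2 true 1 2 0 4 5,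
  .ex2 true 2 1 0 3 4,
  .ex2 true 2 1 0 3 7,
  .ex2 true 2 1 0 4 7,
  .ex2 true 1 0 3 6 7,
  .ex2 true 3 1 0 4 5,
  .ex2 true 4 1 0 2 7,
  .ex2 true 4 1 0 5 7,
  .ex2 true 4 0 1 6 7,
  .ex2 true 5 0 1 4 7,
  .ex2 true 0 1 6 2 7,
  .ex2 true 1 0 6 4 7,
  .ex2 true 6 0 1 4 7,
  .ex2 true 6 1 0 4 7,
  .ex2 true 0 1 7 3 4,
  .ex2 true 1 0 7 2 3,
  .ex2 true 1 0 7 3 6,
  .ex3 true 1 0 7 2 3 4,
  .ex2 true 7 1 0 2 4,
  .ex3 true 0 1 7 3 4 6,
  .ex2 true 7 0 1 3 6,
  .ex2 true 7 1 0 3 6,
  .ex2 true 7 0 1 4 5,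
  .ex2 true 7 1 0 4 5,
  .ex2 true 7 0 1 4 6,
  .ex2 true 7 1 0 4 6,
  .ex2 true 3 2 0 4 5,
  .ex2 true 4 2 0 6 7,
  .ex2 true 2 0 6 3 7,
  .ex2 true 2 0 7 3 4,
  .ex2 true 0 3 4 1 7,
  .ex2 true 0 3 6 1 2,
  .ex2 true 0 3 6 1 7,
  .ex2 true 3 0 7 2 4,
  .ex2 true 3 0 7 4 5,
  .ex2 true 3 0 7 4 6,
  .ex2 true 0 6 4 1 2,
  .ex3 true 4 0 6 2 3 7,
  .ex2 true 0 7 4 1 2,
  .ex2 true 4 0 7 2 3,
  .ex2 true 4 0 7 3 5,
  .ex2 true 4 0 7 3 6,
  .ex2 true 5 0 7 3 4,
  .ex2 true 5 7 0 3 4,
  .ex2 true 7 5 0 3 6,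
  .ex2 true 6 0 7 3 4,
  .ex2 true 1 2 3 0 7,
  .ex2 true 2 1 3 0 7,
  .ex2 true 1 2 3 6 7,
  .ex2 true 2 1 3 5 6,
  .ex2 true 2 1 3 6 7,
  .ex2 true 3 2 1 5 7,
  .ex2 true 3 2 1 6 7,
  .ex2 true 2 1 7 3 4,
  .ex2 true 2 1 7 3 6,
  .ex2 true 1 3 4 0 7,
  .ex2 true 3 1 7 2 4,
  .ex2 true 3 1 7 4 5,
  .ex2 true 3 1 7 4 6,
  .ex2 true 1 7 4 0 2,
  .ex2 true 1 7 4 0 5,
  .ex2 true 1 7 4 0 6,
  .ex2 true 4 1 7 3 5,
  .ex2 true 4 1 7 3 6,
  .ex2 true 5 1 7 3 4,
  .ex2 true 7 1 6 0 2,
  .ex2 true 7 6 1 2 4,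
  .ex2 true 6 1 7 3 4,
  .ex3 true 2 3 4 0 1 7,
  .ex2 true 4 2 3 1 7,
  .ex2 true 2 3 6 0 1,
  .ex2 true 2 3 7 0 1,
  .ex2 true 7 2 3 0 1,
  .ex2 true 7 2 3 1 4,
  .ex2 true 3 2 7 4 5,
  .ex2 true 3 2 7 4 6,
  .ex3 true 4 2 6 3 5 7,
  .ex2 true 2 4 7 0 1,
  .ex3 true 2 4 7 0 1 3,
  .ex2 true 7 2 4 0 1,
  .ex2 true 4 2 7 0 3,
  .ex2 true 4 2 7 1 3,
  .ex2 true 4 2 7 3 5,
  .ex2 true 4 2 7 3 6,
  .ex2 true 7 2 5 1 6,
  .ex2 true 2 7 6 0 1,
  .ex3 true 3 4 5 0 1 2,
  .ex2 true 3 4 5 0 2,
  .ex2 true 3 4 5 1 2,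
  .ex2 true 4 3 6 0 1,
  .ex2 true 3 4 6 0 2,
  .ex2 true 3 4 6 1 2,
  .ex2 true 7 3 5 0 1,
  .ex2 true 7 5 3 1 4,
  .ex2 true 3 5 7 2 4,
  .ex2 true 3 5 7 4 6,
  .ex2 true 7 3 6 0 1,
  .ex2 true 7 3 6 1 2,
  .ex2 true 3 6 7 2 4,
  .ex2 true 7 4 5 0 1,
  .ex2 true 4 5 7 2 3,
  .ex2 true 4 5 7 3 6,
  .ex2 true 7 4 6 0 1,
  .ex3 true 4 6 7 1 2 3,
  .ex2 true 4 6 7 2 3,
  .ex2 true 4 6 7 3 5,
  .ch 3 4 7 0 1 2,
  .ch 3 5 7 0 1 2,
  .ch 3 5 7 0 2 1,
  .ch 3 5 7 2 1 0,
  .ch 3 6 7 0 1 2,
  .ch 3 6 7 0 2 1,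
  .ch 3 6 7 2 1 0,
  .ch 3 7 5 0 1 2,
  .ch 3 7 6 0 1 2,
  .ch 3 7 5 0 2 1,
  .ch 3 7 6 0 2 1,
  .ch 3 7 5 2 1 0,
  .ch 3 7 6 2 1 0,
  .ch 4 5 7 0 1 2,
  .ch 4 5 7 1 2 0,
  .ch 4 5 7 2 0 1,
  .ch 4 5 7 2 1 0,
  .ch 4 6 7 1 2 0,
  .ch 4 6 7 2 0 1,
  .ch 4 6 7 2 1 0,
  .ch 4 7 5 1 0 2,
  .ch 4 7 6 1 0 2,
  .ch 4 7 5 1 2 0,
  .ch 4 7 6 1 2 0,
  .ch 4 7 5 2 0 1,
  .ch 4 7 5 2 1 0,
  .ch 4 7 6 2 1 0,
  .ch 5 4 7 2 0 1,
  .ch 5 7 3 2 0 1,
  .ch 5 7 4 2 0 1,
  .ch 5 7 3 2 1 0,
  .ch 5 7 4 2 1 0,
  .ch 6 3 7 2 0 1,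
  .ch 6 4 7 2 0 1,
  .ch 6 4 7 2 1 0,
  .ch 6 7 4 0 1 2,
  .ch 6 7 4 1 0 2,
  .ch 6 7 4 1 2 0,
  .ch 6 7 3 2 0 1,
  .ch 6 7 4 2 0 1,
  .ch 6 7 3 2 1 0,
  .ch 6 7 4 2 1 0,
  .ch 7 3 6 0 2 1,
  .ch 7 3 5 2 1 0,
  .ch 7 3 6 2 1 0,
  .ch 7 4 5 0 1 2,
  .ch 7 4 6 0 1 2,
  .ch 7 4 5 0 2 1,
  .ch 7 4 6 0 2 1,
  .ch 7 4 5 1 0 2,
  .ch 7 4 6 1 0 2,
  .ch 7 4 5 1 2 0,
  .ch 7 4 6 1 2 0,
  .ch 7 4 5 2 0 1,
  .ch 7 4 6 2 0 1,
  .ch 7 4 5 2 1 0,
  .ch 7 4 6 2 1 0,
  .ch 7 5 4 0 2 1,
  .ch 7 5 4 1 2 0,
  .ch 7 5 4 2 0 1,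
  .ch 7 5 6 2 0 1,
  .ch 7 5 3 2 1 0,
  .ch 7 5 4 2 1 0,
  .ch 7 6 3 0 1 2,
  .ch 7 6 4 0 1 2,
  .ch 7 6 3 0 2 1,
  .ch 7 6 4 0 2 1,
  .ch 7 6 5 0 2 1,
  .ch 7 6 4 1 0 2,
  .ch 7 6 4 1 2 0,
  .ch 7 6 3 2 0 1,
  .ch 7 6 4 2 0 1,
  .ch 7 6 5 2 0 1,
  .ch 7 6 3 2 1 0,
  .ch 7 6 4 2 1 0,
  .tA false 5,
  .tA true 5,
  .tA false 6,
  .tA true 6,
  .tC false 7,
  .ux false 4,
  .ux true 4,
  .uc 4 6,
  .u4 false 4 6 4,
  .u4 true 4 6 4,
  .ux false 6,
  .uc 6 3,
  .uc 6 4,
  .uc 6 5,
  .u4 false 6 3 5,
  .u4 false 6 3 6,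
  .u4 false 6 4 5,
  .u4 false 6 4 6,
  .u4 false 6 5 6,
  .u3 true 6 3 4 5,
  .ux false 7,
  .ux true 7,
  .uc 7 3,
  .u4 false 7 3 6,
  .u4 false 7 6 7,
  .u4 true 7 3 7,
  .w2 6 10 7,
  .w1 6 10 6,
  .w1 6 10 5,
  .w1 6 10 4,
  .O 1 2 1 3 0,
  .w2 10 6 7,
  .w1 10 6 6,
  .w1 10 6 5,
  .w2 10 6 4,
  .O 1 3 1 2 0,
  .w2 10 24 7,
  .w1 10 24 6,
  .w1 10 24 5,
  .w1 18 132 6,
  .w2 18 132 6,
  .w1 18 132 5,
  .w2 18 132 3,
  .O 1 4 2 7 0,
  .w2 18 72 7,
  .w1 18 72 5,
  .w1 18 192 5,
  .w2 18 192 3,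
  .w2 34 24 7,
  .w1 34 24 6,
  .w1 66 132 5,
  .w2 66 132 4,
  .w1 66 132 3,
  .O 1 6 2 7 0,
  .w1 130 130 6,
  .w1 130 130 5,
  .w2 130 130 4,
  .w2 130 130 3,
  .w2 20 10 7,
  .w1 20 10 6,
  .w1 20 10 5,
  .O 2 4 1 3 0,
  .w2 20 130 6,
  .w2 20 130 5,
  .w2 20 130 3,
  .O 2 4 1 7 0,
  .w2 20 40 7]

theorem a0 : axchk 8 2 0 true (Tr.get ⟨9, 0, 0, 0⟩ v) (Tr.get 0 g) l0 500 0 = true := by
  decide +kernel

def l1 : List Ax := [.w1 20 40 6,
  .w1 20 40 1,
  .O 2 4 3 5 0,
  .w1 20 192 5,
  .w2 20 192 3,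
  .w1 36 144 6,
  .w2 36 144 3,
  .w2 36 144 1,
  .O 2 5 4 7 0,
  .w2 68 130 5,
  .w1 68 130 4,
  .w2 68 130 3,
  .O 2 6 1 7 0,
  .w1 132 80 5,
  .w1 132 80 3,
  .w2 132 160 6,
  .w1 132 160 4,
  .w2 132 160 3,
  .w2 24 6 7,
  .w1 24 6 6,
  .w1 24 6 5,
  .O 3 4 1 2 0,
  .w2 24 10 7,
  .w1 24 10 6,
  .w1 24 10 5,
  .w1 24 130 6,
  .w1 24 130 5,
  .w1 40 132 6,
  .w1 40 132 4,
  .w1 40 132 1,
  .O 3 5 2 7 0,
  .w2 72 10 7,
  .w1 72 10 5,
  .w1 72 10 4,
  .w1 72 130 5,
  .w1 72 130 4,
  .w2 72 12 7,
  .w1 72 12 5,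
  .w1 72 12 4,
  .w1 72 12 1,
  .O 3 6 2 3 0,
  .w1 72 132 5,
  .w1 72 132 4,
  .w1 72 132 1,
  .O 3 6 2 7 0,
  .w1 72 192 5,
  .w1 72 192 4,
  .w2 72 192 2,
  .w1 72 192 1,
  .O 3 6 6 7 0,
  .w1 136 20 6,
  .w1 136 20 5,
  .w1 136 192 5,
  .w2 136 192 4,
  .w1 136 192 2,
  .w2 80 10 7,
  .w1 80 10 5,
  .w1 80 130 5,
  .w1 80 130 3,
  .w2 144 130 6,
  .w2 144 130 5,
  .w2 144 130 3,
  .w1 144 130 2,
  .O 4 7 1 7 0,
  .w1 144 12 6,
  .w1 144 12 5,
  .w1 144 12 1,
  .O 4 7 2 3 0,
  .w2 144 132 6,
  .w1 144 132 5,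
  .w2 144 132 3,
  .w1 144 40 6,
  .w1 144 40 2,
  .w1 144 40 1,
  .O 4 7 3 5 0,
  .w1 144 72 5,
  .w1 144 72 2,
  .w1 144 160 6,
  .w2 144 160 3,
  .w1 144 160 2,
  .w1 144 160 1,
  .O 4 7 5 7 0,
  .w2 96 6 7,
  .w1 96 6 4,
  .w1 96 6 3,
  .O 5 6 1 2 0,
  .w2 96 10 7,
  .w1 96 10 4,
  .w1 96 132 4,
  .w1 96 132 3,
  .w1 96 132 1,
  .O 5 6 2 7 0,
  .w2 96 24 7,
  .w1 96 24 1,
  .w1 160 144 6,
  .w2 160 144 3,
  .w2 160 144 1,
  .w1 160 192 4,
  .w2 160 192 3,
  .w2 160 192 2,
  .w1 160 192 1,
  .O 5 7 6 7 0,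
  .w1 192 12 5,
  .w1 192 12 4,
  .w2 192 132 5,
  .w1 192 132 4,
  .w2 192 132 3,
  .w1 192 24 5,
  .w1 192 24 2,
  .w1 192 40 4,
  .w1 192 40 2,
  .w1 192 40 1,
  .O 6 7 3 5 0,
  .w1 192 136 5,
  .w2 192 136 4,
  .w1 192 136 2,
  .w1 192 136 1,
  .w1 192 144 5,
  .w2 192 144 3,
  .w1 192 144 1,
  .w2 5 9 7,
  .w2 5 9 6,
  .w1 5 9 5,
  .w1 5 9 4,
  .O 0 2 0 3 1,
  .w2 5 129 6,
  .w1 5 129 5,
  .w1 5 129 4,
  .w2 5 129 3,
  .O 0 2 0 7 1,
  .w1 9 136 6,
  .w1 9 136 5,
  .w2 9 136 4,
  .w1 17 12 7,
  .w2 17 12 7,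
  .w1 17 12 6,
  .w2 17 12 6,
  .w1 17 12 5,
  .O 0 4 2 3 1,
  .w2 17 24 7,
  .w1 17 24 6,
  .w1 17 24 5,
  .w1 17 72 7,
  .w2 17 72 7,
  .w1 17 72 5,
  .w1 17 72 2,
  .O 0 4 3 6 1,
  .w1 17 192 5,
  .w2 17 192 5,
  .w2 17 192 3,
  .w2 33 12 7,
  .w1 33 12 6,
  .w1 33 12 4,
  .O 0 5 2 3 1,
  .w2 33 132 6,
  .w1 33 132 4,
  .w2 33 132 3,
  .O 0 5 2 7 1,
  .w2 33 24 7,
  .w1 33 24 6,
  .w2 65 24 7,
  .w1 65 24 5,
  .w1 65 136 5,
  .w2 65 136 4,
  .w1 65 136 2,
  .O 0 6 3 7 1,
  .w1 129 24 6,
  .w1 129 24 5,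
  .w1 129 160 6,
  .w1 129 160 4,
  .w2 129 160 3,
  .w1 129 160 2,
  .O 0 7 5 7 1,
  .w2 12 17 7,
  .w1 12 17 6,
  .w1 12 17 5,
  .O 2 3 0 4 1,
  .w1 12 129 6,
  .w2 12 129 6,
  .w1 12 129 5,
  .w2 12 129 5,
  .w2 12 129 4,
  .O 2 3 0 7 1,
  .w1 20 192 0,
  .O 2 4 6 7 1,
  .w2 68 129 5,
  .w2 68 129 4,
  .w1 68 129 3,
  .O 2 6 0 7 1,
  .w1 132 80 0,
  .O 2 7 4 6 1,
  .w1 132 160 0,
  .O 2 7 5 7 1,
  .w2 24 5 7,
  .w1 24 5 6,
  .w1 24 5 5,
  .O 3 4 0 2 1,
  .w1 24 129 6,
  .w1 24 129 5,
  .w2 72 5 7,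
  .w1 72 5 5,
  .w1 72 5 4,
  .O 3 6 0 2 1,
  .w1 72 129 5,
  .w1 72 129 4,
  .w1 136 129 6,
  .w1 136 129 5,
  .w2 136 129 4,
  .w1 136 20 0,
  .O 3 7 2 4 1,
  .w1 136 192 0,
  .O 3 7 6 7 1,
  .w2 80 5 7,
  .w1 80 5 5,
  .w1 80 5 3,
  .O 4 6 0 2 1,
  .w1 80 129 5,
  .w1 80 129 3,
  .w2 144 5 6,
  .w1 144 5 5,
  .w2 144 5 3,
  .O 4 7 0 2 1,
  .w1 144 129 6,
  .w1 144 129 5,
  .w2 144 129 3,
  .w1 144 12 0,
  .w2 144 12 0,
  .O 4 7 2 3 1,
  .w2 144 132 0,
  .O 4 7 2 7 1,
  .w1 144 72 0,
  .O 4 7 3 6 1,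
  .w2 96 5 7,
  .w1 96 5 4,
  .w1 96 5 3,
  .O 5 6 0 2 1,
  .w1 96 24 0,
  .w1 160 144 0,
  .w2 160 144 0,
  .w1 192 12 0,
  .O 6 7 2 3 1,
  .w1 192 132 0,
  .O 6 7 2 7 1,
  .w1 192 24 0,
  .O 6 7 3 4 1,
  .w1 192 40 0,
  .w1 192 136 0,
  .O 6 7 3 7 1,
  .w1 192 144 0,
  .w2 3 10 7,
  .w1 3 10 6,
  .w1 3 10 5,
  .w2 3 10 4,
  .O 0 1 1 3 2,
  .w1 9 130 6,
  .w1 9 130 5,
  .w2 9 130 4,
  .O 0 3 1 7 2,
  .w2 9 136 1,
  .O 0 3 3 7 2,
  .w2 17 10 7,
  .w1 17 10 6,
  .w2 17 10 6,
  .w1 17 10 5,
  .O 0 4 1 3 2,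
  .w2 17 130 6,
  .w1 17 130 5,
  .w2 17 130 3,
  .O 0 4 1 7 2,
  .w2 17 24 1,
  .O 0 4 3 4 2,
  .w2 17 72 1,
  .O 0 4 3 6 2,
  .w2 17 192 1,
  .O 0 4 6 7 2,
  .w1 33 24 1,
  .O 0 5 3 4 2,
  .w1 65 24 1,
  .O 0 6 3 4 2,
  .w1 129 24 1,
  .O 0 7 3 4 2,
  .w1 10 24 0,
  .O 1 3 3 4 2,
  .w2 18 72 0,
  .O 1 4 3 6 2,
  .w2 18 192 0,
  .O 1 4 6 7 2,
  .w2 34 24 0,
  .O 1 5 3 4 2,
  .w1 130 130 0,
  .O 1 7 1 7 2,
  .w2 24 3 7,
  .w1 24 3 6,
  .w1 24 3 5,
  .O 3 4 0 1 2,
  .w1 24 129 1,
  .O 3 4 0 7 2,
  .w1 24 10 0,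
  .O 3 4 1 3 2,
  .w1 24 130 0,
  .O 3 4 1 7 2,
  .w1 72 129 1,
  .O 3 6 0 7 2,
  .w1 72 10 0,
  .O 3 6 1 3 2,
  .w1 72 130 0,
  .O 3 6 1 7 2,
  .w1 136 129 1,
  .O 3 7 0 7 2,
  .w1 80 129 1,
  .O 4 6 0 7 2,
  .w1 80 10 0,
  .O 4 6 1 3 2,
  .w1 80 130 0,
  .O 4 6 1 7 2,
  .w2 144 3 6,
  .w1 144 3 5,
  .w2 144 3 3,
  .O 4 7 0 1 2,
  .w1 144 129 1,
  .O 4 7 0 7 2,
  .w1 96 10 0,
  .O 5 6 1 3 2,
  .O 5 6 3 4 2,
  .O 5 7 4 7 2,
  .O 6 7 3 5 2,
  .O 6 7 3 7 2,
  .O 6 7 4 7 2]

theorem a1 : axchk 8 2 0 true (Tr.get ⟨9, 0, 0, 0⟩ v) (Tr.get 0 g) l1 828 500 = true := by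
  decide +kernel

theorem t0 : chk (Tr.get 0 g) (Tr.get 0 h) 404 828 = true := by decide +kernel

theorem z : Tr.get 0 g 1231 = 0 := by decide +kernel

theorem bad {α : Type*} [DecidableEq α] (c : Cx α) (hn : c.n = 8) (ha : c.a = 2) (hb : c.b = 0)
    (hcl : c.closed = true) : False := by
  have s0 := axchk_sound c hn ha hb hcl (by norm_num) _ _ _ _ _ a0
  have s0 := s0.trans (axchk_sound c hn ha hb hcl (by norm_num) _ _ _ _ _ a1)
  have s0 := chk_sound' t0 (e := 1232) rfl s0
  exact s0.false z

end Pool.Agent.Gabow87.K3.C201
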