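import Pool.Agent.Gabow87.Refute

/-! Certificate; see `Pool/Agent/Gabow87/Refute.lean`. -/

set_option autoImplicit false
set_option maxRecDepth 100000

namespace Pool.Agent.Gabow87.K3.C202

open Pool.Agent.Gabow87.Sat

def v : Tr VC := (.node (.node (.node (.node (.node (.node (.node (.node (.node (.node (.leaf ⟨0, 7, 0, 0⟩)
(.leaf ⟨5, 36, 257, 6⟩))
(.leaf ⟨5, 66, 272, 7⟩))
(.node (.leaf ⟨1, 44, 0, 0⟩)
(.leaf ⟨5, 144, 72, 8⟩)))
(.node (.node (.node (.leaf ⟨0, 152, 0, 0⟩)
(.leaf ⟨5, 65, 10, 5⟩))
(.leaf ⟨5, 24, 258, 6⟩))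
(.node (.leaf ⟨2, 7, 6, 0⟩)
(.leaf ⟨5, 17, 72, 8⟩))))
(.node (.node (.node (.node (.leaf ⟨0, 26, 0, 0⟩)
(.leaf ⟨5, 72, 272, 0⟩))
(.leaf ⟨5, 36, 72, 7⟩))
(.node (.leaf ⟨1, 448, 0, 0⟩)
(.leaf ⟨5, 320, 68, 4⟩)))
(.node (.node (.leaf ⟨1, 261, 0, 0⟩)
(.leaf ⟨5, 72, 20, 5⟩))
(.node (.leaf ⟨5, 10, 80, 7⟩)
(.leaf ⟨5, 65, 40, 8⟩)))))
(.node (.node (.node (.node (.node (.leaf ⟨0, 67, 0, 0⟩)
(.leaf ⟨5, 24, 17, 6⟩))
(.leaf ⟨5, 20, 10, 7⟩))
(.node (.leaf ⟨1, 280, 0, 0⟩)
(.leaf ⟨5, 272, 320, 5⟩)))
(.node (.node (.node (.leaf ⟨0, 448, 0, 0⟩)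
(.leaf ⟨5, 66, 258, 0⟩))
(.leaf ⟨5, 24, 272, 6⟩))
(.node (.leaf ⟨5, 6, 320, 5⟩)
(.leaf ⟨5, 65, 12, 8⟩))))
(.node (.node (.node (.node (.leaf ⟨0, 194, 0, 0⟩)
(.leaf ⟨5, 192, 257, 4⟩))
(.leaf ⟨5, 68, 80, 5⟩))
(.node (.leaf ⟨3, 6, 6, 0⟩)
(.leaf ⟨5, 9, 264, 6⟩)))
(.node (.node (.leaf ⟨1, 74, 0, 0⟩)
(.leaf ⟨5, 80, 10, 8⟩))
(.node (.leaf ⟨5, 34, 80, 7⟩)
(.leaf ⟨5, 257, 24, 2⟩))))))
(.node (.node (.node (.node (.node (.node (.leaf ⟨0, 21, 0, 0⟩)
(.leaf ⟨5, 68, 272, 0⟩))
(.leaf ⟨5, 12, 264, 6⟩))
(.node (.leaf ⟨1, 100, 0, 0⟩)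
(.leaf ⟨5, 272, 258, 2⟩)))
(.node (.node (.node (.leaf ⟨0, 112, 0, 0⟩)
(.leaf ⟨5, 10, 24, 0⟩))
(.leaf ⟨5, 24, 20, 6⟩))
(.node (.leaf ⟨3, 8, 4, 0⟩)
(.leaf ⟨5, 33, 24, 8⟩))))
(.node (.node (.node (.node (.leaf ⟨0, 262, 0, 0⟩)
(.leaf ⟨5, 80, 272, 0⟩))
(.leaf ⟨5, 68, 10, 7⟩))
(.node (.leaf ⟨2, 5, 5, 0⟩)
(.leaf ⟨5, 5, 160, 6⟩)))
(.node (.node (.leaf ⟨1, 289, 0, 0⟩)
(.leaf ⟨5, 72, 272, 1⟩))
(.node (.leaf ⟨5, 18, 288, 6⟩)
(.leaf ⟨5, 65, 80, 8⟩)))))
(.node (.node (.node (.node (.node (.leaf ⟨0, 81, 0, 0⟩)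
(.leaf ⟨5, 24, 272, 0⟩))
(.leaf ⟨5, 20, 72, 7⟩))
(.node (.leaf ⟨1, 176, 0, 0⟩)
(.leaf ⟨5, 160, 260, 3⟩)))
(.node (.node (.node (.leaf ⟨1, 35, 0, 0⟩)
(.leaf ⟨5, 24, 257, 1⟩))
(.leaf ⟨5, 72, 10, 5⟩))
(.node (.leaf ⟨5, 10, 24, 7⟩)
(.leaf ⟨5, 65, 132, 8⟩))))
(.node (.node (.node (.node (.leaf ⟨0, 148, 0, 0⟩)
(.leaf ⟨5, 17, 10, 7⟩))
(.leaf ⟨5, 68, 320, 4⟩))
(.node (.leaf ⟨3, 6, 7, 0⟩)
(.leaf ⟨5, 17, 24, 8⟩)))
(.node (.node (.leaf ⟨1, 146, 0, 0⟩)
(.leaf ⟨5, 80, 264, 1⟩))
(.node (.leaf ⟨5, 66, 258, 7⟩)
(.leaf ⟨5, 20, 257, 5⟩)))))))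
(.node (.node (.node (.node (.node (.node (.node (.leaf ⟨1, 14, 0, 0⟩)
(.leaf ⟨5, 68, 17, 7⟩))
(.leaf ⟨5, 66, 192, 5⟩))
(.node (.leaf ⟨1, 52, 0, 0⟩)
(.leaf ⟨5, 272, 258, 7⟩)))
(.node (.node (.node (.leaf ⟨0, 296, 0, 0⟩)
(.leaf ⟨5, 10, 3, 6⟩))
(.leaf ⟨5, 24, 12, 6⟩))
(.node (.leaf ⟨3, 8, 8, 0⟩)
(.leaf ⟨5, 17, 272, 7⟩))))
(.node (.node (.node (.node (.leaf ⟨0, 74, 0, 0⟩)
(.leaf ⟨5, 136, 257, 2⟩))
(.leaf ⟨5, 36, 320, 4⟩))
(.node (.leaf ⟨2, 3, 7, 0⟩)
(.leaf ⟨5, 5, 24, 7⟩)))
(.node (.node (.leaf ⟨1, 145, 0, 0⟩)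
(.leaf ⟨5, 72, 24, 5⟩))
(.node (.leaf ⟨5, 18, 12, 7⟩)
(.leaf ⟨5, 65, 48, 8⟩)))))
(.node (.node (.node (.node (.node (.leaf ⟨0, 265, 0, 0⟩)
(.leaf ⟨5, 24, 257, 5⟩))
(.leaf ⟨5, 20, 258, 6⟩))
(.node (.leaf ⟨1, 200, 0, 0⟩)
(.leaf ⟨5, 160, 20, 6⟩)))
(.node (.node (.node (.leaf ⟨1, 11, 0, 0⟩)
(.leaf ⟨5, 24, 3, 7⟩))
(.leaf ⟨5, 24, 320, 5⟩))
(.node (.leaf ⟨5, 10, 258, 6⟩)
(.leaf ⟨5, 65, 20, 8⟩))))
(.node (.node (.node (.node (.leaf ⟨0, 140, 0, 0⟩)
(.leaf ⟨5, 3, 24, 7⟩))
(.leaf ⟨5, 68, 272, 5⟩))
(.node (.leaf ⟨3, 6, 4, 0⟩)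
(.leaf ⟨5, 17, 12, 8⟩)))
(.node (.node (.leaf ⟨1, 266, 0, 0⟩)
(.leaf ⟨5, 80, 260, 5⟩))
(.node (.leaf ⟨5, 66, 66, 5⟩)
(.leaf ⟨5, 20, 9, 6⟩))))))
(.node (.node (.node (.node (.node (.node (.leaf ⟨0, 37, 0, 0⟩)
(.leaf ⟨5, 24, 9, 5⟩))
(.leaf ⟨5, 12, 272, 7⟩))
(.node (.leaf ⟨1, 388, 0, 0⟩)
(.leaf ⟨5, 272, 72, 7⟩)))
(.node (.node (.node (.leaf ⟨0, 336, 0, 0⟩)
(.leaf ⟨5, 66, 257, 7⟩))
(.leaf ⟨5, 24, 264, 6⟩))
(.node (.leaf ⟨3, 8, 6, 0⟩)
(.leaf ⟨5, 33, 264, 7⟩))))
(.node (.node (.node (.node (.leaf ⟨0, 274, 0, 0⟩)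
(.leaf ⟨5, 272, 320, 0⟩))
(.leaf ⟨5, 68, 24, 7⟩))
(.node (.leaf ⟨3, 5, 4, 0⟩)
(.leaf ⟨5, 5, 288, 6⟩)))
(.node (.node (.leaf ⟨1, 26, 0, 0⟩)
(.leaf ⟨5, 136, 320, 1⟩))
(.node (.leaf ⟨5, 34, 24, 7⟩)
(.leaf ⟨5, 65, 80, 2⟩)))))
(.node (.node (.node (.node (.node (.leaf ⟨0, 161, 0, 0⟩)
(.leaf ⟨5, 72, 9, 5⟩))
(.leaf ⟨5, 20, 272, 5⟩))
(.node (.leaf ⟨1, 400, 0, 0⟩)
(.leaf ⟨5, 192, 320, 2⟩)))
(.node (.node (.node (.leaf ⟨1, 137, 0, 0⟩)
(.leaf ⟨5, 72, 10, 0⟩))
(.leaf ⟨5, 72, 12, 5⟩))
(.node (.leaf ⟨5, 10, 264, 6⟩)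
(.leaf ⟨5, 65, 24, 8⟩))))
(.node (.node (.node (.node (.leaf ⟨0, 196, 0, 0⟩)
(.leaf ⟨5, 17, 72, 1⟩))
(.leaf ⟨5, 24, 10, 7⟩))
(.node (.leaf ⟨3, 7, 7, 0⟩)
(.leaf ⟨5, 17, 40, 8⟩)))
(.node (.node (.leaf ⟨1, 290, 0, 0⟩)
(.leaf ⟨5, 80, 272, 1⟩))
(.node (.leaf ⟨5, 66, 260, 7⟩)
(.leaf ⟨5, 36, 17, 7⟩))))))))
(.node (.node (.node (.node (.node (.node (.node (.node (.leaf ⟨0, 14, 0, 0⟩)
(.leaf ⟨5, 36, 257, 3⟩))
(.leaf ⟨5, 66, 272, 3⟩))
(.node (.leaf ⟨1, 140, 0, 0⟩)
(.leaf ⟨5, 144, 72, 2⟩)))
(.node (.node (.node (.leaf ⟨0, 104, 0, 0⟩)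
(.leaf ⟨5, 10, 3, 8⟩))
(.leaf ⟨5, 24, 12, 8⟩))
(.node (.leaf ⟨3, 7, 8, 0⟩)
(.leaf ⟨5, 17, 72, 5⟩))))
(.node (.node (.node (.node (.leaf ⟨0, 42, 0, 0⟩)
(.leaf ⟨5, 136, 257, 5⟩))
(.leaf ⟨5, 36, 72, 1⟩))
(.node (.leaf ⟨3, 3, 3, 0⟩)
(.leaf ⟨5, 320, 68, 1⟩)))
(.node (.node (.leaf ⟨1, 49, 0, 0⟩)
(.leaf ⟨5, 72, 24, 8⟩))
(.node (.leaf ⟨5, 10, 80, 2⟩)
(.leaf ⟨5, 65, 40, 4⟩)))))
(.node (.node (.node (.node (.node (.leaf ⟨0, 133, 0, 0⟩)
(.leaf ⟨5, 24, 257, 7⟩))
(.leaf ⟨5, 20, 10, 5⟩))
(.node (.leaf ⟨1, 168, 0, 0⟩)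
(.leaf ⟨5, 272, 320, 2⟩)))
(.node (.node (.node (.leaf ⟨1, 13, 0, 0⟩)
(.leaf ⟨5, 66, 192, 0⟩))
(.leaf ⟨5, 24, 272, 1⟩))
(.node (.leaf ⟨5, 6, 320, 3⟩)
(.leaf ⟨5, 65, 12, 5⟩))))
(.node (.node (.node (.node (.leaf ⟨0, 44, 0, 0⟩)
(.leaf ⟨5, 192, 257, 2⟩))
(.leaf ⟨5, 68, 80, 1⟩))
(.node (.leaf ⟨3, 6, 3, 0⟩)
(.leaf ⟨5, 9, 264, 4⟩)))
(.node (.node (.leaf ⟨1, 138, 0, 0⟩)
(.leaf ⟨5, 80, 10, 5⟩))
(.node (.leaf ⟨5, 66, 66, 8⟩)
(.leaf ⟨5, 20, 9, 8⟩))))))
(.node (.node (.node (.node (.node (.node (.leaf ⟨0, 19, 0, 0⟩)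
(.leaf ⟨5, 24, 9, 7⟩))
(.leaf ⟨5, 12, 264, 4⟩))
(.node (.leaf ⟨1, 196, 0, 0⟩)
(.leaf ⟨5, 272, 40, 6⟩)))
(.node (.node (.node (.leaf ⟨0, 304, 0, 0⟩)
(.leaf ⟨5, 10, 80, 0⟩))
(.leaf ⟨5, 24, 20, 1⟩))
(.node (.leaf ⟨3, 8, 5, 0⟩)
(.leaf ⟨5, 33, 24, 6⟩))))
(.node (.node (.node (.node (.leaf ⟨0, 82, 0, 0⟩)
(.leaf ⟨5, 272, 40, 0⟩))
(.leaf ⟨5, 68, 10, 4⟩))
(.node (.leaf ⟨3, 5, 3, 0⟩)
(.leaf ⟨5, 5, 160, 3⟩)))
(.node (.node (.leaf ⟨1, 321, 0, 0⟩)
(.leaf ⟨5, 136, 320, 4⟩))
(.node (.leaf ⟨5, 18, 288, 2⟩)
(.leaf ⟨5, 65, 80, 5⟩)))))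
(.node (.node (.node (.node (.node (.leaf ⟨0, 273, 0, 0⟩)
(.leaf ⟨5, 72, 9, 8⟩))
(.leaf ⟨5, 20, 272, 7⟩))
(.node (.leaf ⟨1, 208, 0, 0⟩)
(.leaf ⟨5, 192, 320, 4⟩)))
(.node (.node (.node (.leaf ⟨1, 69, 0, 0⟩)
(.leaf ⟨5, 24, 258, 0⟩))
(.leaf ⟨5, 72, 12, 8⟩))
(.node (.leaf ⟨5, 10, 24, 5⟩)
(.leaf ⟨5, 65, 132, 4⟩))))
(.node (.node (.node (.node (.leaf ⟨0, 100, 0, 0⟩)
(.leaf ⟨5, 17, 10, 5⟩))
(.leaf ⟨5, 68, 320, 1⟩))
(.node (.leaf ⟨3, 6, 8, 0⟩)
(.leaf ⟨5, 17, 24, 6⟩)))
(.node (.node (.leaf ⟨1, 98, 0, 0⟩)
(.leaf ⟨5, 80, 272, 5⟩))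
(.node (.leaf ⟨5, 66, 258, 4⟩)
(.leaf ⟨5, 20, 72, 0⟩)))))))
(.node (.node (.node (.node (.node (.node (.node (.leaf ⟨0, 25, 0, 0⟩)
(.leaf ⟨5, 68, 17, 3⟩))
(.leaf ⟨5, 66, 192, 3⟩))
(.node (.leaf ⟨1, 148, 0, 0⟩)
(.leaf ⟨5, 272, 258, 5⟩)))
(.node (.node (.node (.leaf ⟨0, 328, 0, 0⟩)
(.leaf ⟨5, 10, 3, 4⟩))
(.leaf ⟨5, 24, 20, 8⟩))
(.node (.leaf ⟨3, 8, 3, 0⟩)
(.leaf ⟨5, 17, 272, 5⟩))))
(.node (.node (.node (.node (.leaf ⟨0, 138, 0, 0⟩)
(.leaf ⟨5, 80, 260, 0⟩))
(.leaf ⟨5, 36, 320, 1⟩))
(.node (.leaf ⟨2, 3, 8, 0⟩)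
(.leaf ⟨5, 5, 24, 5⟩)))
(.node (.node (.leaf ⟨1, 97, 0, 0⟩)
(.leaf ⟨5, 72, 272, 7⟩))
(.node (.leaf ⟨5, 18, 12, 5⟩)
(.leaf ⟨5, 65, 48, 3⟩)))))
(.node (.node (.node (.node (.node (.leaf ⟨0, 259, 0, 0⟩)
(.leaf ⟨5, 24, 12, 0⟩))
(.leaf ⟨5, 20, 258, 3⟩))
(.node (.leaf ⟨1, 392, 0, 0⟩)
(.leaf ⟨5, 160, 260, 6⟩)))
(.node (.node (.node (.leaf ⟨1, 41, 0, 0⟩)
(.leaf ⟨5, 24, 3, 5⟩))
(.leaf ⟨5, 72, 10, 8⟩))
(.node (.leaf ⟨5, 10, 258, 4⟩)
(.leaf ⟨5, 65, 20, 5⟩))))
(.node (.node (.node (.node (.leaf ⟨0, 52, 0, 0⟩)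
(.leaf ⟨5, 3, 24, 5⟩))
(.leaf ⟨5, 68, 320, 7⟩))
(.node (.leaf ⟨3, 6, 5, 0⟩)
(.leaf ⟨5, 17, 12, 6⟩)))
(.node (.node (.leaf ⟨1, 50, 0, 0⟩)
(.leaf ⟨5, 80, 264, 7⟩))
(.node (.leaf ⟨5, 66, 66, 3⟩)
(.leaf ⟨5, 20, 257, 7⟩))))))
(.node (.node (.node (.node (.node (.node (.leaf ⟨0, 73, 0, 0⟩)
(.leaf ⟨5, 24, 17, 8⟩))
(.leaf ⟨5, 12, 272, 5⟩))
(.node (.leaf ⟨1, 88, 0, 0⟩)
(.leaf ⟨5, 272, 72, 2⟩)))
(.node (.node (.node (.leaf ⟨0, 224, 0, 0⟩)
(.leaf ⟨5, 66, 257, 4⟩))
(.leaf ⟨5, 24, 264, 1⟩))
(.node (.leaf ⟨3, 8, 7, 0⟩)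
(.leaf ⟨5, 33, 264, 4⟩))))
(.node (.node (.node (.node (.leaf ⟨0, 162, 0, 0⟩)
(.leaf ⟨5, 160, 260, 0⟩))
(.leaf ⟨5, 68, 80, 8⟩))
(.node (.leaf ⟨3, 5, 6, 0⟩)
(.leaf ⟨5, 5, 288, 3⟩)))
(.node (.node (.leaf ⟨1, 42, 0, 0⟩)
(.leaf ⟨5, 264, 160, 4⟩))
(.node (.leaf ⟨5, 34, 24, 2⟩)
(.leaf ⟨5, 257, 24, 6⟩)))))
(.node (.node (.node (.node (.node (.leaf ⟨0, 193, 0, 0⟩)
(.leaf ⟨5, 72, 12, 0⟩))
(.leaf ⟨5, 20, 272, 1⟩))
(.node (.leaf ⟨1, 352, 0, 0⟩)
(.leaf ⟨5, 320, 68, 7⟩)))
(.node (.node (.node (.leaf ⟨1, 131, 0, 0⟩)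
(.leaf ⟨5, 192, 257, 1⟩))
(.leaf ⟨5, 72, 20, 8⟩))
(.node (.leaf ⟨5, 10, 264, 4⟩)
(.leaf ⟨5, 65, 24, 5⟩))))
(.node (.node (.node (.node (.leaf ⟨0, 56, 0, 0⟩)
(.leaf ⟨5, 65, 10, 8⟩))
(.leaf ⟨5, 24, 10, 5⟩))
(.node (.leaf ⟨3, 7, 3, 0⟩)
(.leaf ⟨5, 17, 40, 6⟩)))
(.node (.node (.leaf ⟨1, 322, 0, 0⟩)
(.leaf ⟨5, 144, 12, 6⟩))
(.node (.leaf ⟨5, 66, 260, 4⟩)
(.leaf ⟨5, 36, 17, 3⟩)))))))))
(.node (.node (.node (.node (.node (.node (.node (.node (.node (.leaf ⟨1, 7, 0, 0⟩)
(.leaf ⟨5, 36, 257, 4⟩))
(.leaf ⟨5, 66, 272, 5⟩))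
(.node (.leaf ⟨1, 76, 0, 0⟩)
(.leaf ⟨5, 144, 72, 5⟩)))
(.node (.node (.node (.leaf ⟨0, 280, 0, 0⟩)
(.leaf ⟨5, 65, 10, 4⟩))
(.leaf ⟨5, 24, 258, 5⟩))
(.node (.leaf ⟨2, 7, 8, 0⟩)
(.leaf ⟨5, 17, 72, 7⟩))))
(.node (.node (.node (.node (.leaf ⟨0, 22, 0, 0⟩)
(.leaf ⟨5, 136, 257, 6⟩))
(.leaf ⟨5, 36, 72, 4⟩))
(.node (.leaf ⟨2, 3, 3, 0⟩)
(.leaf ⟨5, 320, 68, 3⟩)))
(.node (.node (.leaf ⟨1, 259, 0, 0⟩)
(.leaf ⟨5, 72, 20, 1⟩))
(.node (.leaf ⟨5, 10, 80, 5⟩)
(.leaf ⟨5, 65, 40, 7⟩)))))
(.node (.node (.node (.node (.node (.leaf ⟨0, 137, 0, 0⟩)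
(.leaf ⟨5, 24, 17, 5⟩))
(.leaf ⟨5, 20, 10, 6⟩))
(.node (.leaf ⟨1, 104, 0, 0⟩)
(.leaf ⟨5, 272, 320, 3⟩)))
(.node (.node (.node (.leaf ⟨1, 25, 0, 0⟩)
(.leaf ⟨5, 66, 272, 0⟩))
(.leaf ⟨5, 24, 272, 5⟩))
(.node (.leaf ⟨5, 6, 320, 4⟩)
(.leaf ⟨5, 65, 12, 7⟩))))
(.node (.node (.node (.node (.leaf ⟨0, 322, 0, 0⟩)
(.leaf ⟨5, 192, 257, 3⟩))
(.leaf ⟨5, 68, 80, 3⟩))
(.node (.leaf ⟨2, 6, 3, 0⟩)
(.leaf ⟨5, 9, 264, 5⟩)))
(.node (.node (.leaf ⟨1, 70, 0, 0⟩)
(.leaf ⟨5, 80, 10, 7⟩))
(.node (.leaf ⟨5, 34, 80, 3⟩)
(.leaf ⟨5, 12, 272, 0⟩))))))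
(.node (.node (.node (.node (.node (.node (.leaf ⟨0, 11, 0, 0⟩)
(.leaf ⟨5, 24, 9, 8⟩))
(.leaf ⟨5, 12, 264, 5⟩))
(.node (.leaf ⟨1, 292, 0, 0⟩)
(.leaf ⟨5, 272, 40, 7⟩)))
(.node (.node (.node (.leaf ⟨0, 176, 0, 0⟩)
(.leaf ⟨5, 10, 264, 0⟩))
(.leaf ⟨5, 24, 20, 5⟩))
(.node (.leaf ⟨2, 8, 5, 0⟩)
(.leaf ⟨5, 33, 24, 7⟩))))
(.node (.node (.node (.node (.leaf ⟨0, 50, 0, 0⟩)
(.leaf ⟨5, 144, 12, 0⟩))
(.leaf ⟨5, 68, 10, 5⟩))
(.node (.leaf ⟨2, 5, 3, 0⟩)
(.leaf ⟨5, 5, 160, 4⟩)))
(.node (.node (.leaf ⟨1, 193, 0, 0⟩)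
(.leaf ⟨5, 136, 320, 5⟩))
(.node (.leaf ⟨5, 18, 288, 3⟩)
(.leaf ⟨5, 65, 80, 7⟩)))))
(.node (.node (.node (.node (.node (.leaf ⟨0, 145, 0, 0⟩)
(.leaf ⟨5, 24, 320, 0⟩))
(.leaf ⟨5, 20, 72, 5⟩))
(.node (.leaf ⟨1, 304, 0, 0⟩)
(.leaf ⟨5, 192, 320, 5⟩)))
(.node (.node (.node (.leaf ⟨1, 73, 0, 0⟩)
(.leaf ⟨5, 24, 10, 0⟩))
(.leaf ⟨5, 72, 10, 4⟩))
(.node (.leaf ⟨5, 10, 24, 6⟩)
(.leaf ⟨5, 65, 132, 5⟩))))
(.node (.node (.node (.node (.leaf ⟨0, 276, 0, 0⟩)
(.leaf ⟨5, 17, 10, 6⟩))
(.leaf ⟨5, 68, 320, 3⟩))
(.node (.leaf ⟨2, 6, 8, 0⟩)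
(.leaf ⟨5, 17, 24, 7⟩)))
(.node (.node (.leaf ⟨1, 274, 0, 0⟩)
(.leaf ⟨5, 80, 272, 7⟩))
(.node (.leaf ⟨5, 66, 258, 5⟩)
(.leaf ⟨5, 20, 257, 3⟩)))))))
(.node (.node (.node (.node (.node (.node (.node (.leaf ⟨1, 28, 0, 0⟩)
(.leaf ⟨5, 68, 17, 5⟩))
(.leaf ⟨5, 66, 192, 4⟩))
(.node (.leaf ⟨1, 84, 0, 0⟩)
(.leaf ⟨5, 272, 258, 6⟩)))
(.node (.node (.node (.leaf ⟨0, 200, 0, 0⟩)
(.leaf ⟨5, 10, 3, 5⟩))
(.leaf ⟨5, 24, 12, 5⟩))
(.node (.leaf ⟨2, 8, 3, 0⟩)
(.leaf ⟨5, 17, 272, 6⟩))))
(.node (.node (.node (.node (.leaf ⟨0, 70, 0, 0⟩)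
(.leaf ⟨5, 264, 160, 0⟩))
(.leaf ⟨5, 36, 320, 3⟩))
(.node (.leaf ⟨3, 3, 7, 0⟩)
(.leaf ⟨5, 5, 24, 6⟩)))
(.node (.node (.leaf ⟨1, 273, 0, 0⟩)
(.leaf ⟨5, 72, 24, 1⟩))
(.node (.leaf ⟨5, 18, 12, 6⟩)
(.leaf ⟨5, 65, 48, 7⟩)))))
(.node (.node (.node (.node (.node (.leaf ⟨0, 261, 0, 0⟩)
(.leaf ⟨5, 24, 257, 2⟩))
(.leaf ⟨5, 20, 258, 5⟩))
(.node (.leaf ⟨1, 328, 0, 0⟩)
(.leaf ⟨5, 160, 20, 3⟩)))
(.node (.node (.node (.leaf ⟨1, 19, 0, 0⟩)
(.leaf ⟨5, 24, 3, 6⟩))
(.leaf ⟨5, 24, 320, 1⟩))
(.node (.leaf ⟨5, 10, 258, 5⟩)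
(.leaf ⟨5, 65, 20, 7⟩))))
(.node (.node (.node (.node (.leaf ⟨0, 268, 0, 0⟩)
(.leaf ⟨5, 3, 24, 6⟩))
(.leaf ⟨5, 68, 272, 3⟩))
(.node (.leaf ⟨2, 6, 5, 0⟩)
(.leaf ⟨5, 17, 12, 7⟩)))
(.node (.node (.leaf ⟨1, 262, 0, 0⟩)
(.leaf ⟨5, 80, 260, 3⟩))
(.node (.leaf ⟨5, 66, 66, 4⟩)
(.leaf ⟨5, 20, 9, 5⟩))))))
(.node (.node (.node (.node (.node (.node (.leaf ⟨0, 35, 0, 0⟩)
(.leaf ⟨5, 24, 9, 2⟩))
(.leaf ⟨5, 12, 272, 6⟩))
(.node (.leaf ⟨1, 56, 0, 0⟩)
(.leaf ⟨5, 272, 72, 5⟩)))
(.node (.node (.node (.leaf ⟨0, 400, 0, 0⟩)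
(.leaf ⟨5, 66, 257, 5⟩))
(.leaf ⟨5, 24, 264, 5⟩))
(.node (.leaf ⟨2, 8, 7, 0⟩)
(.leaf ⟨5, 33, 264, 6⟩))))
(.node (.node (.node (.node (.leaf ⟨0, 98, 0, 0⟩)
(.leaf ⟨5, 160, 20, 0⟩))
(.leaf ⟨5, 68, 24, 5⟩))
(.node (.leaf ⟨2, 5, 6, 0⟩)
(.leaf ⟨5, 5, 288, 4⟩)))
(.node (.node (.leaf ⟨1, 22, 0, 0⟩)
(.leaf ⟨5, 264, 160, 6⟩))
(.node (.leaf ⟨5, 34, 24, 6⟩)
(.leaf ⟨5, 257, 24, 7⟩)))))
(.node (.node (.node (.node (.node (.leaf ⟨0, 289, 0, 0⟩)
(.leaf ⟨5, 72, 9, 4⟩))
(.leaf ⟨5, 20, 272, 3⟩))
(.node (.leaf ⟨1, 224, 0, 0⟩)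
(.leaf ⟨5, 192, 320, 1⟩)))
(.node (.node (.node (.leaf ⟨1, 133, 0, 0⟩)
(.leaf ⟨5, 80, 10, 0⟩))
(.leaf ⟨5, 72, 12, 4⟩))
(.node (.leaf ⟨5, 10, 264, 5⟩)
(.leaf ⟨5, 65, 24, 7⟩))))
(.node (.node (.node (.node (.leaf ⟨0, 324, 0, 0⟩)
(.leaf ⟨5, 17, 272, 1⟩))
(.leaf ⟨5, 24, 10, 6⟩))
(.node (.leaf ⟨2, 7, 3, 0⟩)
(.leaf ⟨5, 17, 40, 7⟩)))
(.node (.node (.leaf ⟨1, 194, 0, 0⟩)
(.leaf ⟨5, 144, 12, 8⟩))
(.node (.leaf ⟨5, 66, 260, 5⟩)
(.leaf ⟨5, 36, 17, 6⟩))))))))
(.node (.node (.node (.node (.node (.node (.node (.node (.leaf ⟨0, 28, 0, 0⟩)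
(.leaf ⟨5, 68, 17, 8⟩))
(.leaf ⟨5, 66, 192, 8⟩))
(.node (.leaf ⟨1, 268, 0, 0⟩)
(.leaf ⟨5, 144, 72, 1⟩)))
(.node (.node (.node (.leaf ⟨0, 168, 0, 0⟩)
(.leaf ⟨5, 10, 3, 7⟩))
(.leaf ⟨5, 24, 12, 7⟩))
(.node (.leaf ⟨2, 8, 8, 0⟩)
(.leaf ⟨5, 17, 72, 2⟩))))
(.node (.node (.node (.node (.leaf ⟨0, 38, 0, 0⟩)
(.leaf ⟨5, 136, 257, 4⟩))
(.leaf ⟨5, 36, 320, 7⟩))
(.node (.leaf ⟨2, 3, 6, 0⟩)
(.leaf ⟨5, 5, 24, 8⟩)))
(.node (.node (.leaf ⟨1, 81, 0, 0⟩)
(.leaf ⟨5, 72, 24, 7⟩))
(.node (.leaf ⟨5, 18, 12, 8⟩)
(.leaf ⟨5, 65, 40, 2⟩)))))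
(.node (.node (.node (.node (.node (.leaf ⟨0, 131, 0, 0⟩)
(.leaf ⟨5, 24, 257, 6⟩))
(.leaf ⟨5, 20, 258, 7⟩))
(.node (.leaf ⟨1, 296, 0, 0⟩)
(.leaf ⟨5, 160, 20, 8⟩)))
(.node (.node (.node (.leaf ⟨1, 21, 0, 0⟩)
(.leaf ⟨5, 24, 3, 8⟩))
(.leaf ⟨5, 24, 320, 7⟩))
(.node (.leaf ⟨5, 10, 258, 7⟩)
(.leaf ⟨5, 65, 12, 4⟩))))
(.node (.node (.node (.node (.leaf ⟨0, 76, 0, 0⟩)
(.leaf ⟨5, 3, 24, 8⟩))
(.leaf ⟨5, 68, 272, 7⟩))
(.node (.leaf ⟨2, 6, 4, 0⟩)
(.leaf ⟨5, 9, 264, 2⟩)))
(.node (.node (.leaf ⟨1, 134, 0, 0⟩)
(.leaf ⟨5, 80, 260, 7⟩))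
(.node (.leaf ⟨5, 66, 66, 7⟩)
(.leaf ⟨5, 20, 9, 7⟩))))))
(.node (.node (.node (.node (.node (.node (.leaf ⟨0, 41, 0, 0⟩)
(.leaf ⟨5, 24, 9, 6⟩))
(.leaf ⟨5, 12, 264, 1⟩))
(.node (.leaf ⟨1, 324, 0, 0⟩)
(.leaf ⟨5, 272, 40, 2⟩)))
(.node (.node (.node (.leaf ⟨0, 208, 0, 0⟩)
(.leaf ⟨5, 34, 80, 0⟩))
(.leaf ⟨5, 24, 264, 7⟩))
(.node (.leaf ⟨2, 8, 6, 0⟩)
(.leaf ⟨5, 33, 24, 2⟩))))
(.node (.node (.node (.node (.leaf ⟨0, 146, 0, 0⟩)
(.leaf ⟨5, 272, 72, 0⟩))
(.leaf ⟨5, 68, 24, 8⟩))
(.node (.leaf ⟨2, 5, 4, 0⟩)
(.leaf ⟨5, 5, 288, 7⟩)))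
(.node (.node (.leaf ⟨1, 385, 0, 0⟩)
(.leaf ⟨5, 136, 320, 2⟩))
(.node (.leaf ⟨5, 34, 24, 8⟩)
(.leaf ⟨5, 65, 80, 3⟩)))))
(.node (.node (.node (.node (.node (.leaf ⟨0, 97, 0, 0⟩)
(.leaf ⟨5, 72, 9, 7⟩))
(.leaf ⟨5, 20, 272, 6⟩))
(.node (.leaf ⟨1, 336, 0, 0⟩)
(.leaf ⟨5, 192, 320, 3⟩)))
(.node (.node (.node (.leaf ⟨1, 67, 0, 0⟩)
(.leaf ⟨5, 72, 9, 1⟩))
(.leaf ⟨5, 72, 12, 7⟩))
(.node (.leaf ⟨5, 10, 264, 7⟩)
(.leaf ⟨5, 65, 132, 3⟩))))
(.node (.node (.node (.node (.leaf ⟨0, 292, 0, 0⟩)
(.leaf ⟨5, 17, 24, 1⟩))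
(.leaf ⟨5, 24, 10, 8⟩))
(.node (.leaf ⟨2, 7, 7, 0⟩)
(.leaf ⟨5, 17, 24, 5⟩)))
(.node (.node (.leaf ⟨1, 162, 0, 0⟩)
(.leaf ⟨5, 80, 272, 3⟩))
(.node (.leaf ⟨5, 66, 258, 3⟩)
(.leaf ⟨5, 36, 17, 8⟩)))))))
(.node (.node (.node (.node (.node (.node (.node (.leaf ⟨0, 13, 0, 0⟩)
(.leaf ⟨5, 68, 24, 0⟩))
(.leaf ⟨5, 12, 264, 7⟩))
(.node (.leaf ⟨1, 276, 0, 0⟩)
(.leaf ⟨5, 272, 258, 3⟩)))
(.node (.node (.node (.leaf ⟨0, 392, 0, 0⟩)
(.leaf ⟨5, 10, 258, 0⟩))
(.leaf ⟨5, 24, 20, 7⟩))
(.node (.leaf ⟨2, 8, 4, 0⟩)
(.leaf ⟨5, 17, 272, 3⟩))))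
(.node (.node (.node (.node (.leaf ⟨0, 266, 0, 0⟩)
(.leaf ⟨5, 80, 264, 0⟩))
(.leaf ⟨5, 68, 10, 8⟩))
(.node (.leaf ⟨3, 3, 8, 0⟩)
(.leaf ⟨5, 5, 160, 8⟩)))
(.node (.node (.leaf ⟨1, 161, 0, 0⟩)
(.leaf ⟨5, 72, 272, 5⟩))
(.node (.leaf ⟨5, 18, 288, 7⟩)
(.leaf ⟨5, 65, 48, 2⟩)))))
(.node (.node (.node (.node (.node (.leaf ⟨0, 49, 0, 0⟩)
(.leaf ⟨5, 24, 264, 0⟩))
(.leaf ⟨5, 20, 72, 8⟩))
(.node (.leaf ⟨1, 112, 0, 0⟩)
(.leaf ⟨5, 160, 260, 4⟩)))
(.node (.node (.node (.leaf ⟨1, 37, 0, 0⟩)
(.leaf ⟨5, 24, 17, 1⟩))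
(.leaf ⟨5, 72, 10, 7⟩))
(.node (.leaf ⟨5, 10, 24, 8⟩)
(.leaf ⟨5, 65, 20, 3⟩))))
(.node (.node (.node (.node (.leaf ⟨0, 84, 0, 0⟩)
(.leaf ⟨5, 17, 10, 8⟩))
(.leaf ⟨5, 68, 320, 5⟩))
(.node (.leaf ⟨2, 6, 7, 0⟩)
(.leaf ⟨5, 17, 12, 5⟩)))
(.node (.node (.leaf ⟨1, 82, 0, 0⟩)
(.leaf ⟨5, 80, 264, 5⟩))
(.node (.leaf ⟨5, 66, 66, 2⟩)
(.leaf ⟨5, 20, 257, 6⟩))))))
(.node (.node (.node (.node (.node (.node (.leaf ⟨0, 69, 0, 0⟩)
(.leaf ⟨5, 24, 17, 7⟩))
(.leaf ⟨5, 20, 10, 8⟩))
(.node (.leaf ⟨1, 152, 0, 0⟩)
(.leaf ⟨5, 272, 320, 7⟩)))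
(.node (.node (.node (.leaf ⟨0, 352, 0, 0⟩)
(.leaf ⟨5, 66, 257, 3⟩))
(.leaf ⟨5, 24, 272, 7⟩))
(.node (.leaf ⟨5, 6, 320, 7⟩)
(.leaf ⟨5, 33, 264, 2⟩))))
(.node (.node (.node (.node (.leaf ⟨0, 290, 0, 0⟩)
(.leaf ⟨5, 192, 257, 5⟩))
(.leaf ⟨5, 68, 80, 7⟩))
(.node (.leaf ⟨2, 6, 6, 0⟩)
(.leaf ⟨5, 9, 264, 7⟩)))
(.node (.node (.leaf ⟨1, 38, 0, 0⟩)
(.leaf ⟨5, 264, 160, 2⟩))
(.node (.leaf ⟨5, 34, 80, 8⟩)
(.leaf ⟨5, 257, 24, 5⟩)))))
(.node (.node (.node (.node (.node (.leaf ⟨0, 321, 0, 0⟩)
(.leaf ⟨5, 72, 24, 0⟩))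
(.leaf ⟨5, 36, 72, 8⟩))
(.node (.leaf ⟨1, 416, 0, 0⟩)
(.leaf ⟨5, 320, 68, 5⟩)))
(.node (.node (.leaf ⟨1, 265, 0, 0⟩)
(.leaf ⟨5, 72, 20, 7⟩))
(.node (.leaf ⟨5, 10, 80, 8⟩)
(.leaf ⟨5, 65, 24, 2⟩))))
(.node (.node (.node (.node (.leaf ⟨0, 88, 0, 0⟩)
(.leaf ⟨5, 65, 10, 7⟩))
(.leaf ⟨5, 24, 258, 7⟩))
(.node (.leaf ⟨2, 7, 4, 0⟩)
(.leaf ⟨5, 17, 40, 2⟩)))
(.node (.node (.leaf ⟨1, 386, 0, 0⟩)
(.leaf ⟨5, 144, 12, 5⟩))
(.node (.leaf ⟨5, 66, 260, 3⟩)
(.leaf ⟨5, 36, 257, 7⟩))))))))))

def g : Tr Nat := (.node (.node (.node (.node (.node (.node (.node (.node (.node (.node (.node (.node (.leaf 1)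
(.leaf 2752667833))
(.leaf 954960))
(.node (.leaf 17389300048116)
(.leaf 3238686992)))
(.node (.node (.leaf 5566999044220)
(.leaf 881664))
(.node (.leaf 355142062946642690120)
(.leaf 4887719))))
(.node (.node (.node (.node (.leaf 20552140384837638)
(.leaf 1928390606877))
(.leaf 643892))
(.node (.leaf 19863838867752)
(.leaf 6511133052)))
(.node (.node (.leaf 17390105755844)
(.leaf 267442))
(.node (.leaf 392)
(.leaf 2567323737)))))
(.node (.node (.node (.node (.node (.leaf 17736566386917422)
(.leaf 32311080545676394645))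
(.leaf 545474))
(.node (.leaf 19176543478028)
(.leaf 4379799822)))
(.node (.node (.leaf 8454156894362)
(.leaf 685148))
(.node (.leaf 359754871290792255532)
(.leaf 479288))))
(.node (.node (.node (.node (.leaf 40823013276418140)
(.leaf 790))
(.leaf 226204))
(.node (.leaf 21376439206210)
(.leaf 746)))
(.node (.node (.leaf 65599410109947914)
(.leaf 5017612398642))
(.node (.leaf 1036774)
(.leaf 2752463051))))))
(.node (.node (.node (.node (.node (.node (.leaf 3367540031510)
(.leaf 3658711283))
(.leaf 1077894))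
(.node (.leaf 16015580766464)
(.leaf 4547703020)))
(.node (.node (.leaf 43072475721982094)
(.leaf 783408))
(.node (.leaf 357448467943535820876)
(.leaf 1454763335096877810581657))))
(.node (.node (.node (.node (.leaf 9279227043910)
(.leaf 43368590162067710))
(.leaf 4114183339465225966362644))
(.node (.leaf 18214638436660)
(.leaf 600)))
(.node (.node (.leaf 11479021535436)
(.leaf 553734230))
(.node (.leaf 1184176)
(.leaf 2366214306)))))
(.node (.node (.node (.node (.node (.leaf 9554138505246)
(.leaf 1928223486205))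
(.leaf 1078012))
(.node (.leaf 85303207765180700)
(.leaf 20205808935018)))
(.node (.node (.leaf 13128524726442)
(.leaf 300170))
(.node (.leaf 25569820819600)
(.leaf 569448))))
(.node (.node (.node (.node (.leaf 9554138505320)
(.leaf 235))
(.leaf 127952))
(.node (.leaf 352835652313510739986)
(.leaf 68384958034164)))
(.node (.node (.leaf 17390038647010)
(.leaf 1862717558))
(.node (.leaf 954912)
(.leaf 4564394227)))))))
(.node (.node (.node (.node (.node (.node (.node (.leaf 5567536316418)
(.leaf 3910320370))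
(.leaf 1282664))
(.node (.leaf 21239302316284)
(.leaf 3238801622)))
(.node (.node (.leaf 39695325388210308)
(.leaf 521240))
(.node (.leaf 357448469043282329676)
(.leaf 55180917769814070))))
(.node (.node (.node (.node (.leaf 6804453261388)
(.leaf 1926511141063))
(.leaf 974456012605309689858))
(.node (.leaf 20688472531244)
(.leaf 432)))
(.node (.node (.leaf 13953326039232)
(.leaf 1255734511396398891112))
(.node (.leaf 28181798658352)
(.leaf 503939121)))))
(.node (.node (.node (.node (.node (.leaf 3368043118606)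
(.leaf 1928222793992))
(.leaf 1250014))
(.node (.leaf 21513274130704)
(.leaf 4816163122)))
(.node (.node (.leaf 10516446068898)
(.leaf 922740))
(.node (.leaf 74043933718761808)
(.leaf 618582))))
(.node (.node (.node (.node (.leaf 8591025397768)
(.leaf 1203))
(.leaf 201654))
(.node (.leaf 343610032875861221382)
(.leaf 882)))
(.node (.node (.leaf 15052434325722)
(.leaf 1191293020))
(.node (.leaf 1282562)
(.leaf 4094578950))))))
(.node (.node (.node (.node (.node (.node (.leaf 26746514857066524)
(.leaf 175308262316265750838))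
(.leaf 512676))
(.node (.leaf 19726332698886)
(.leaf 3775803646)))
(.node (.node (.leaf 8728195752088)
(.leaf 1265063180781902118990))
(.node (.leaf 359754873352812937298)
(.leaf 2336948949053))))
(.node (.node (.node (.node (.leaf 6117157838932)
(.leaf 2584969470))
(.leaf 1032116165021300285462))
(.node (.leaf 17389601964344)
(.leaf 672)))
(.node (.node (.leaf 88122356552016088)
(.leaf 1795493932))
(.node (.leaf 348620)
(.leaf 1274060)))))
(.node (.node (.node (.node (.node (.leaf 17737115907981362)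
(.leaf 1147568519074320799596798))
(.leaf 627478))
(.node (.leaf 87557069196763422)
(.leaf 18077132255568)))
(.node (.node (.leaf 14640789856440)
(.leaf 832670))
(.node (.leaf 74043933718892918)
(.leaf 268865571))))
(.node (.node (.node (.leaf 8728195752048)
(.leaf 758760))
(.node (.leaf 359754870328484610070)
(.leaf 311645519895048280)))
(.node (.node (.leaf 15602391466224)
(.leaf 2097598614))
(.node (.leaf 1282614)
(.leaf 4950479168))))))))
(.node (.node (.node (.node (.node (.node (.node (.node (.leaf 2130589196290)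
(.leaf 15739646611754))
(.leaf 1176154))
(.node (.leaf 16289486364918)
(.leaf 3238801600)))
(.node (.node (.leaf 9554272837762)
(.leaf 422926))
(.node (.leaf 366674091367786741832)
(.leaf 339814463274901608))))
(.node (.node (.node (.node (.leaf 4742096961608)
(.leaf 7888928434688142))
(.leaf 1094466))
(.node (.leaf 20139622908202)
(.leaf 4817059135884)))
(.node (.node (.leaf 13128524726436)
(.leaf 5058425995429491046907912))
(.node (.leaf 28319204032648)
(.leaf 1225113742)))))
(.node (.node (.node (.node (.node (.leaf 4330082148396)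
(.leaf 8241276422025786912150425383176))
(.leaf 545488))
(.node (.leaf 18076461064464)
(.leaf 4312650012)))
(.node (.node (.leaf 10928762953882)
(.leaf 1297352866134856843362))
(.node (.leaf 131)
(.leaf 561222))))
(.node (.node (.node (.node (.leaf 35188839073038344)
(.leaf 361))
(.leaf 1078244286954091880482))
(.node (.leaf 338997214908837961748)
(.leaf 842)))
(.node (.node (.leaf 16014910333164)
(.leaf 1124159554))
(.node (.leaf 373236)
(.leaf 4262687019))))))
(.node (.node (.node (.node (.node (.node (.leaf 4742835101724)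
(.leaf 1306946))
(.leaf 266902))
(.node (.leaf 18350902902796)
(.leaf 3943444724)))
(.node (.node (.leaf 10241299726484)
(.leaf 676926))
(.node (.leaf 359754871290792206368)
(.leaf 17276459140661759350369537360025))))
(.node (.node (.node (.node (.leaf 9691577466954)
(.leaf 670))
(.leaf 1176436))
(.node (.leaf 20964256629046)
(.leaf 650)))
(.node (.node (.leaf 12028878012626)
(.leaf 520196214))
(.node (.leaf 324032)
(.leaf 3910090944)))))
(.node (.node (.node (.node (.node (.leaf 10241299726384)
(.leaf 717898870740635410464802))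
(.leaf 1045258))
(.node (.leaf 75170246075367710)
(.leaf 134)))
(.node (.node (.leaf 16702843879596)
(.leaf 783508))
(.node (.leaf 41948848592470376)
(.leaf 1879318613))))
(.node (.node (.node (.node (.leaf 40822462950449262)
(.leaf 163))
(.leaf 1176540))
(.node (.leaf 359754873077867855940)
(.leaf 1064)))
(.node (.node (.leaf 20277095416042)
(.leaf 1862692982))
(.node (.leaf 1036842)
(.leaf 4446933189)))))))
(.node (.node (.node (.node (.node (.node (.node (.leaf 12105554554576898)
(.leaf 1110324))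
(.leaf 2971091575473078430162976))
(.node (.leaf 16015580766462)
(.leaf 3910013182)))
(.node (.node (.leaf 9691745353860)
(.leaf 881702))
(.node (.leaf 359754873077867708450)
(.leaf 212193873283881509018))))
(.node (.node (.node (.node (.leaf 4604557271106)
(.leaf 1134))
(.leaf 70492))
(.node (.leaf 88118232477352242)
(.leaf 518)))
(.node (.node (.leaf 12441295536328)
(.leaf 453070896))
(.node (.leaf 291234)
(.leaf 454810)))))
(.node (.node (.node (.node (.node (.leaf 3780359954456)
(.leaf 4913631876309822557723541576))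
(.leaf 1233646))
(.node (.leaf 21376774824216)
(.leaf 20205808918630)))
(.node (.node (.leaf 11478920904708)
(.leaf 5417604923265277477584914))
(.node (.leaf 24057623175454)
(.leaf 53278))))
(.node (.node (.node (.node (.leaf 8041370271846)
(.leaf 307))
(.leaf 1209282))
(.node (.leaf 341303624992112549894)
(.leaf 926)))
(.node (.node (.leaf 14914962505950)
(.leaf 2097205272))
(.node (.leaf 422418)
(.leaf 1208584))))))
(.node (.node (.node (.node (.node (.node (.leaf 17736291274211362)
(.leaf 100940485323070690545904344407154853))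
(.leaf 545458))
(.node (.leaf 19175972888840)
(.leaf 4849283276)))
(.node (.node (.leaf 39696425268871322)
(.leaf 676948))
(.node (.leaf 359754870603429724206)
(.leaf 577566))))
(.node (.node (.node (.node (.leaf 10378772226134)
(.leaf 1081452))
(.leaf 193422))
(.node (.leaf 20826012180792)
(.leaf 706)))
(.node (.node (.leaf 16014474215434)
(.leaf 520228914))
(.node (.leaf 1184216)
(.leaf 921817)))))
(.node (.node (.node (.node (.node (.leaf 44764487853031480)
(.leaf 1926729158760))
(.leaf 1225508))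
(.node (.leaf 20552107696414)
(.leaf 1474916)))
(.node (.node (.leaf 16702742831300)
(.leaf 5615499179169151129313356))
(.node (.leaf 28996939611115900)
(.leaf 302207091))))
(.node (.node (.node (.leaf 5566999044212)
(.leaf 1165887718626398322756))
(.node (.leaf 355142063359059984402)
(.leaf 327998288102454405)))
(.node (.node (.leaf 17526638264562)
(.leaf 3809325296))
(.node (.leaf 447044)
(.leaf 5218590919)))))))))
(.node (.node (.node (.node (.node (.node (.node (.node (.node (.leaf 9)
(.leaf 3910303962))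
(.leaf 455254))
(.node (.leaf 17389971407092)
(.leaf 3910054084)))
(.node (.node (.leaf 7216836927618)
(.leaf 1186645373496154931272))
(.node (.leaf 355142061022060945436)
(.leaf 20219162860))))
(.node (.node (.node (.node (.leaf 5429929721862)
(.leaf 19346740427644240436304179957806))
(.leaf 1037116))
(.node (.leaf 80799058180620586)
(.leaf 17939626168702)))
(.node (.node (.leaf 18627390652610)
(.leaf 693428))
(.node (.leaf 1659283)
(.leaf 577676)))))
(.node (.node (.node (.node (.node (.leaf 2955457855514)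
(.leaf 5990998234))
(.leaf 1176264))
(.node (.leaf 20964256629006)
(.leaf 4346229016)))
(.node (.node (.leaf 9691107491994)
(.leaf 644192))
(.node (.leaf 283)
(.leaf 323649))))
(.node (.node (.node (.node (.leaf 4742096978016)
(.leaf 950))
(.leaf 1078178))
(.node (.leaf 338997220682581975046)
(.leaf 756)))
(.node (.node (.leaf 15189974622432)
(.leaf 1325666436))
(.node (.leaf 299502)
(.leaf 4195561767))))))
(.node (.node (.node (.node (.node (.node (.leaf 3230201339932)
(.leaf 5235540211))
(.leaf 1110670))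
(.node (.leaf 14914861834252)
(.leaf 4816130278)))
(.node (.node (.leaf 9140915519630)
(.leaf 783414))
(.node (.leaf 357448465194152591394)
(.leaf 3792088832130621409076371522))))
(.node (.node (.node (.node (.leaf 6254026145866)
(.leaf 177637734927657873661))
(.leaf 201582))
(.node (.leaf 21789024600372)
(.leaf 636)))
(.node (.node (.leaf 14640487293132)
(.leaf 520163440))
(.node (.leaf 1233336)
(.leaf 4094578874)))))
(.node (.node (.node (.node (.node (.leaf 3367606820912)
(.leaf 276743950525355221078))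
(.leaf 602884))
(.node (.leaf 20275148955932)
(.leaf 20343281451116)))
(.node (.node (.leaf 65599410109948074)
(.leaf 799888))
(.node (.leaf 32938826671714668)
(.leaf 602222))))
(.node (.node (.node (.node (.leaf 7904099147884)
(.leaf 909552))
(.leaf 226262))
(.node (.leaf 355142058272677871638)
(.leaf 1050)))
(.node (.node (.leaf 20414500823270)
(.leaf 1258418280))
(.node (.leaf 447014)
(.leaf 5218939160)))))))
(.node (.node (.node (.node (.node (.node (.node (.leaf 5567402164226)
(.leaf 16564683481289))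
(.leaf 1299056))
(.node (.leaf 17526738903294)
(.leaf 13953259016408)))
(.node (.node (.leaf 43073575670038660)
(.leaf 832542))
(.node (.leaf 357448469043282141216)
(.leaf 47853634641281324))))
(.node (.node (.node (.node (.leaf 6667215929420)
(.leaf 114778))
(.leaf 1200982))
(.node (.leaf 22063197700396)
(.leaf 472)))
(.node (.node (.leaf 19864341233856)
(.leaf 5219092550527504406872176))
(.node (.leaf 79111995530973598)
(.leaf 10583135309873)))))
(.node (.node (.node (.node (.node (.leaf 3230268481560)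
(.leaf 32350210311061577760))
(.leaf 594662))
(.node (.leaf 87556107358880024)
(.leaf 20551805423928)))
(.node (.node (.leaf 15602996412420)
(.leaf 5398687780460639220187154))
(.node (.leaf 1429851)
(.leaf 651356))))
(.node (.node (.node (.node (.leaf 7904602603528)
(.leaf 29))
(.leaf 1176508))
(.node (.leaf 338997215733673009172)
(.leaf 914)))
(.node (.node (.leaf 16015346868442)
(.leaf 274449))
(.node (.leaf 1290762)
(.leaf 4430020799))))))
(.node (.node (.node (.node (.node (.node (.leaf 6804453261346)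
(.leaf 7884599293329586))
(.leaf 512682))
(.node (.leaf 16152315052296)
(.leaf 4480200886)))
(.node (.node (.leaf 10791290437784)
(.leaf 1269576889588217987158))
(.node (.leaf 359754870603429716012)
(.leaf 552984))))
(.node (.node (.node (.node (.leaf 6254026145878)
(.leaf 2584969332))
(.leaf 70536))
(.node (.leaf 19864006533432)
(.leaf 690)))
(.node (.node (.leaf 89812031818023128)
(.leaf 520228894))
(.node (.leaf 1298898)
(.leaf 1151192)))))
(.node (.node (.node (.node (.node (.leaf 7904233332790)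
(.leaf 324413746212048521975175543511985561840))
(.leaf 611100))
(.node (.leaf 21238329098526)
(.leaf 5873443158)))
(.node (.node (.leaf 71793096615166142)
(.leaf 5596584342770609512431692))
(.node (.leaf 378)
(.leaf 335712335))))
(.node (.node (.node (.leaf 8728799912048)
(.leaf 881646))
(.node (.leaf 355142063359060197444)
(.leaf 321241238991204370)))
(.node (.node (.leaf 17389837009136)
(.leaf 9966555975840))
(.node (.leaf 995902)
(.leaf 20550412800179))))))))
(.node (.node (.node (.node (.node (.node (.node (.node (.leaf 3092930363394)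
(.leaf 1200426))
(.leaf 479842))
(.node (.leaf 16015580766458)
(.leaf 3238801612)))
(.node (.node (.leaf 6116922810500)
(.leaf 832530))
(.node (.leaf 341303626091893489736)
(.leaf 83231687708784))))
(.node (.node (.node (.node (.leaf 26745827662250056)
(.leaf 114941))
(.leaf 1184584))
(.node (.leaf 17801348276524)
(.leaf 19314452033950)))
(.node (.node (.leaf 84743694322712762)
(.leaf 5701145263161767197565032))
(.node (.leaf 31249564394123672)
(.leaf 610452)))))
(.node (.node (.node (.node (.node (.leaf 3367606820878)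
(.leaf 5989769488))
(.leaf 1143512))
(.node (.leaf 21512602878224)
(.leaf 4849692968)))
(.node (.node (.leaf 40823013276418208)
(.leaf 111726))
(.node (.leaf 1372493)
(.leaf 577610))))
(.node (.node (.node (.node (.leaf 8727591772168)
(.leaf 230))
(.leaf 119728))
(.node (.leaf 343610030401423187974)
(.leaf 864)))
(.node (.node (.leaf 18627390652652)
(.leaf 1359138896))
(.node (.leaf 1126908)
(.leaf 667852))))))
(.node (.node (.node (.node (.node (.node (.leaf 3779991134236)
(.leaf 177637736576622616820))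
(.leaf 512668))
(.node (.leaf 18214336520204)
(.leaf 3910054138)))
(.node (.node (.leaf 8591763341462)
(.leaf 570436))
(.node (.leaf 345916438972501598252)
(.leaf 3540537961866634183035629749))))
(.node (.node (.node (.node (.leaf 6804587462736)
(.leaf 43368590582153291))
(.leaf 209788))
(.node (.leaf 81362970508697912)
(.leaf 186099981819215886)))
(.node (.node (.leaf 19176979611862)
(.leaf 1157918748))
(.node (.leaf 1094086)
(.leaf 3926696177)))))
(.node (.node (.node (.node (.node (.leaf 4329880870962)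
(.leaf 6035883547507848721060733013))
(.leaf 955152))
(.node (.leaf 84176482922676510)
(.leaf 302)))
(.node (.node (.leaf 17389837009080)
(.leaf 816280))
(.node (.leaf 25707226243380)
(.leaf 1107669110))))
(.node (.node (.node (.node (.leaf 40819713600766064)
(.leaf 0))
(.leaf 1145130063756641804334))
(.node (.leaf 359754870328484593682)
(.leaf 1082)))
(.node (.node (.leaf 16976681099502)
(.leaf 1795485828))
(.node (.leaf 1225264)
(.leaf 2819657925)))))))
(.node (.node (.node (.node (.node (.node (.node (.leaf 1580799729684)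
(.leaf 1249590))
(.leaf 512638))
(.node (.leaf 16702776606974)
(.leaf 3775762718)))
(.node (.node (.leaf 8590320525450)
(.leaf 1230467089332307771458))
(.node (.leaf 364367687333201010720)
(.leaf 4371980752680750978842906151650831900164661270))))
(.node (.node (.node (.node (.leaf 6117157838914)
(.leaf 12207172192898340099928883552510))
(.leaf 119650))
(.node (.leaf 19727002943794)
(.leaf 538)))
(.node (.node (.leaf 88121394244526282)
(.leaf 654446654))
(.node (.leaf 1044904)
(.leaf 1107669152)))))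
(.node (.node (.node (.node (.node (.leaf 9416666005528)
(.leaf 100798352170406079))
(.leaf 594678))
(.node (.leaf 89812031818023194)
(.leaf 20480753942632)))
(.node (.node (.leaf 13265661919236)
(.leaf 889988))
(.node (.leaf 1479015)
(.leaf 561254))))
(.node (.node (.node (.node (.leaf 7628382085224)
(.leaf 890))
(.leaf 1115146784500326719522))
(.node (.leaf 355142062946642673732)
(.leaf 956)))
(.node (.node (.leaf 15602391466210)
(.leaf 1862545484))
(.node (.leaf 2527080724996789717696528)
(.leaf 16701686087883))))))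
(.node (.node (.node (.node (.node (.node (.leaf 6804654891042)
(.leaf 43368590313422866))
(.leaf 545466))
(.node (.leaf 19863838867720)
(.leaf 4849504500)))
(.node (.node (.leaf 40822599818772634)
(.leaf 218200))
(.node (.leaf 355142059097513017390)
(.leaf 610352))))
(.node (.node (.node (.node (.leaf 5842280054874)
(.leaf 50))
(.leaf 226198))
(.node (.leaf 21101729136952)
(.leaf 714)))
(.node (.node (.leaf 15190646177802)
(.leaf 3642820309052))
(.node (.leaf 550077290823618805788)
(.leaf 2752405689)))))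
(.node (.node (.node (.node (.node (.leaf 4055338934336)
(.leaf 324413746208837364640187314146735079704))
(.leaf 553772))
(.node (.leaf 19726332698918)
(.leaf 10516598047080)))
(.node (.node (.leaf 71229871850905796)
(.leaf 513198))
(.node (.leaf 45328060342878594)
(.leaf 438351))))
(.node (.node (.node (.leaf 9141217435766)
(.leaf 824314))
(.node (.leaf 355142061434478444566)
(.leaf 330201147700408588)))
(.node (.node (.leaf 16014910333172)
(.leaf 684197))
(.node (.leaf 1274442)
(.leaf 5218754799))))))))))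
(.node (.node (.node (.node (.node (.node (.node (.node (.node (.node (.leaf 5)
(.leaf 1069350))
(.leaf 479828))
(.node (.leaf 17389937631476)
(.leaf 13403368894776)))
(.node (.node (.leaf 5979450204290)
(.leaf 832516))
(.node (.leaf 355142061022061133896)
(.leaf 20153782466))))
(.node (.node (.node (.node (.leaf 7079801085958)
(.leaf 470798488))
(.leaf 570168))
(.node (.leaf 19864341233960)
(.leaf 2400731516)))
(.node (.node (.leaf 19177214640310)
(.leaf 1384958570949625257992))
(.node (.leaf 1626507)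
(.leaf 561288)))))
(.node (.node (.node (.node (.node (.leaf 9853617268424720)
(.leaf 268676893847608520899))
(.leaf 815313991937175486494))
(.node (.leaf 19313311097102)
(.leaf 4413370640)))
(.node (.node (.leaf 8728799879322)
(.leaf 791646))
(.node (.leaf 359754871290792263726)
(.leaf 2365849753))))
(.node (.node (.node (.node (.leaf 44764487853031516)
(.leaf 908))
(.leaf 103328))
(.node (.leaf 332077985898512293894)
(.leaf 750)))
(.node (.node (.leaf 16427596767452)
(.leaf 1728467062))
(.node (.leaf 373226)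
(.leaf 1257716))))))
(.node (.node (.node (.node (.node (.node (.leaf 3642417954838)
(.leaf 3927146739))
(.leaf 520842))
(.node (.leaf 90374981771452672)
(.leaf 3742044382)))
(.node (.node (.leaf 8728598552718)
(.leaf 832562))
(.node (.leaf 371286337999201853472)
(.leaf 14583939621564404277321799151770))))
(.node (.node (.node (.node (.leaf 5154514411594)
(.leaf 313607041577013645454))
(.leaf 209772))
(.node (.leaf 19864475451700)
(.leaf 616)))
(.node (.node (.leaf 14640520855756)
(.leaf 69647))
(.node (.leaf 299444)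
(.leaf 16014927409405)))))
(.node (.node (.node (.node (.node (.leaf 1168583434288)
(.leaf 32350221923311698153))
(.leaf 602880))
(.node (.leaf 18213967135004)
(.leaf 20205808803918)))
(.node (.node (.leaf 12303522193578)
(.leaf 701582))
(.node (.leaf 31249564393927016)
(.leaf 1845551151))))
(.node (.node (.node (.node (.leaf 5566999044204)
(.leaf 3725525066))
(.leaf 259026))
(.node (.leaf 352835655062893805590)
(.leaf 71547327823948)))
(.node (.node (.leaf 19726868725990)
(.leaf 2131218566))
(.node (.leaf 455204)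
(.leaf 1257744)))))))
(.node (.node (.node (.node (.node (.node (.node (.leaf 5155085287426)
(.leaf 1077548))
(.leaf 1184364))
(.node (.leaf 16152348606718)
(.leaf 20551805423830)))
(.node (.node (.leaf 7354309435524)
(.leaf 676892))
(.node (.leaf 357448467118700773452)
(.leaf 573670))))
(.node (.node (.node (.node (.leaf 8454224134220)
(.leaf 470339617))
(.leaf 1291090))
(.node (.leaf 84743831828767020)
(.leaf 440)))
(.node (.node (.leaf 19863838761152)
(.leaf 1396396565832692441200))
(.node (.leaf 76296420928819602)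
(.leaf 454808)))))
(.node (.node (.node (.node (.node (.leaf 3642417954830)
(.leaf 76577415153410164))
(.leaf 955106))
(.node (.leaf 21376607052048)
(.leaf 4816163126)))
(.node (.node (.leaf 13403369070596)
(.leaf 1315804114907973066770))
(.node (.leaf 1397075)
(.leaf 479324))))
(.node (.node (.node (.node (.leaf 8728464416776)
(.leaf 13))
(.leaf 1096695535727209775138))
(.node (.leaf 343610030676368203782)
(.leaf 906)))
(.node (.node (.leaf 68414846165410010)
(.leaf 9966555975772))
(.node (.leaf 1184262)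
(.leaf 1216774))))))
(.node (.node (.node (.node (.node (.node (.leaf 5017780117538)
(.leaf 340042710248069570355438))
(.leaf 996006))
(.node (.leaf 20139622908166)
(.leaf 897191)))
(.node (.node (.leaf 8729235849368)
(.leaf 1267267668054448767056))
(.node (.leaf 359754875277394321452)
(.leaf 1157898264))))
(.node (.node (.node (.node (.leaf 10241299726420)
(.leaf 10588034220122))
(.leaf 1217412))
(.node (.leaf 84180195015172408)
(.leaf 676)))
(.node (.node (.leaf 88122356987379928)
(.leaf 419541016))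
(.node (.leaf 531626042050501828630)
(.leaf 3658477784)))))
(.node (.node (.node (.node (.node (.leaf 4330317119542)
(.leaf 12886441937303779823652104723948502317433358713015))
(.leaf 635674))
(.node (.leaf 17802119389470)
(.leaf 7491815666008)))
(.node (.node (.leaf 16977553645758)
(.leaf 1364238642937405907020))
(.node (.leaf 81364965958050154)
(.leaf 8111163748457))))
(.node (.node (.node (.leaf 8728799879280)
(.leaf 447468))
(.node (.leaf 357448467256173051926)
(.leaf 1130)))
(.node (.node (.leaf 71228771500040432)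
(.leaf 2131161242))
(.node (.leaf 447034)
(.leaf 2886660295))))))))
(.node (.node (.node (.node (.node (.node (.node (.node (.leaf 3092728995842)
(.leaf 2752684217))
(.leaf 1274462))
(.node (.leaf 21651753468152)
(.leaf 3037425864)))
(.node (.node (.leaf 6116922712196)
(.leaf 128016))
(.node (.leaf 352835653000873312282)
(.leaf 18239762536))))
(.node (.node (.node (.node (.leaf 4742096977992)
(.leaf 470380617))
(.leaf 930630))
(.node (.leaf 16014843224364)
(.leaf 18077132255630)))
(.node (.node (.leaf 12441295536308)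
(.leaf 1239582911670810411016))
(.node (.leaf 28996939611206028)
(.leaf 569486)))))
(.node (.node (.node (.node (.node (.leaf 1168583434254)
(.leaf 471224393))
(.leaf 553684))
(.node (.leaf 88121531045749008)
(.leaf 4346220830)))
(.node (.node (.leaf 44764487853031582)
(.leaf 1176682))
(.node (.leaf 326)
(.leaf 421962))))
(.node (.node (.node (.node (.leaf 7903025217544)
(.leaf 103))
(.leaf 1102764))
(.node (.leaf 343610032738388713478)
(.leaf 240156649656217848)))
(.node (.node (.leaf 16014910423276)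
(.leaf 1258426442))
(.node (.leaf 299512)
(.leaf 1315072))))))
(.node (.node (.node (.node (.node (.node (.leaf 6392069283868)
(.leaf 43352370537791716))
(.leaf 1233560))
(.node (.leaf 18626653372428)
(.leaf 4849725684)))
(.node (.node (.leaf 8590723219606)
(.leaf 668736))
(.node (.leaf 359754871290792214562)
(.leaf 287014))))
(.node (.node (.node (.node (.leaf 7353671942224)
(.leaf 754))
(.leaf 193400))
(.node (.leaf 78548908103450936)
(.leaf 658)))
(.node (.node (.leaf 12441295536342)
(.leaf 2955558326428))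
(.node (.leaf 1266114)
(.leaf 1208512)))))
(.node (.node (.node (.node (.node (.leaf 1993418555442)
(.leaf 68408114022182982))
(.leaf 1037068))
(.node (.leaf 16427294310686)
(.leaf 288)))
(.node (.node (.leaf 14502847037624)
(.leaf 816278))
(.node (.leaf 25157403304220)
(.leaf 618608))))
(.node (.node (.node (.node (.leaf 10241299726446)
(.leaf 909336))
(.leaf 242656))
(.node (.leaf 359754875002449199122)
(.leaf 73341483106370)))
(.node (.node (.leaf 15327412895982)
(.leaf 1862692988))
(.node (.leaf 954926)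
(.leaf 20825089429701)))))))
(.node (.node (.node (.node (.node (.node (.node (.leaf 12669054565883906)
(.leaf 16564247290057))
(.leaf 938618))
(.node (.leaf 16427764269310)
(.leaf 4413477146)))
(.node (.node (.leaf 9416666005640)
(.leaf 513066))
(.node (.leaf 359754870328484659234)
(.leaf 565482))))
(.node (.node (.node (.node (.leaf 5841507983426)
(.leaf 33))
(.leaf 992907261378426806274))
(.node (.leaf 19726534025522)
(.leaf 534)))
(.node (.node (.leaf 14640286015688)
(.leaf 620826676))
(.node (.leaf 1225126)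
(.leaf 479390)))))
(.node (.node (.node (.node (.node (.leaf 8591629123608)
(.leaf 470757518))
(.leaf 955122))
(.node (.leaf 21513475408154)
(.leaf 20205808771142)))
(.node (.node (.leaf 15602996527108)
(.leaf 939136))
(.node (.leaf 354)
(.leaf 266314))))
(.node (.node (.node (.node (.leaf 9416666005606)
(.leaf 192))
(.leaf 201670))
(.node (.leaf 341303622105257648148)
(.leaf 263243234119651362)))
(.node (.node (.leaf 65598584536219870)
(.leaf 1929449526))
(.node (.leaf 1184278)
(.leaf 1249550))))))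
(.node (.node (.node (.node (.node (.node (.leaf 6667215929378)
(.leaf 1220682))
(.leaf 1077942))
(.node (.leaf 19863838761224)
(.leaf 4849504490)))
(.node (.node (.leaf 8453552783514)
(.leaf 218198))
(.node (.leaf 366674088893348585516)
(.leaf 446512))))
(.node (.node (.node (.node (.leaf 5567032598618)
(.leaf 631019))
(.leaf 1184658))
(.node (.leaf 21513274130744)
(.leaf 710)))
(.node (.node (.leaf 16015481110538)
(.leaf 721604662))
(.node (.leaf 373212)
(.leaf 3641557231)))))
(.node (.node (.node (.node (.node (.leaf 3367740956736)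
(.leaf 68690342967075009))
(.leaf 1110824))
(.node (.leaf 83052781938417958)
(.leaf 2367111524)))
(.node (.node (.leaf 17389971407044)
(.leaf 775338))
(.node (.leaf 40256425520808316)
(.leaf 9689983529001))))
(.node (.node (.node (.leaf 7628382085238)
(.leaf 1168067993139629924420))
(.node (.leaf 355142058685095378962)
(.leaf 19614355891)))
(.node (.node (.leaf 21239134544114)
(.leaf 3943575806))
(.node (.leaf 670010407848879276058)
(.leaf 3826299119)))))))))
(.node (.node (.node (.node (.node (.node (.node (.node (.node (.leaf 1855744737282)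
(.leaf 1077544))
(.leaf 688461656621996220448))
(.node (.leaf 21376607052020)
(.leaf 2802495652)))
(.node (.node (.leaf 39134300654231682)
(.leaf 824330))
(.node (.leaf 364367687333201182792)
(.leaf 18004726032))))
(.node (.node (.node (.node (.leaf 5980020940868)
(.leaf 79244247475918207273695826808184866))
(.leaf 660286))
(.node (.leaf 19725594280234)
(.leaf 6913851788)))
(.node (.node (.leaf 13815484506276)
(.leaf 799926))
(.node (.leaf 1692059)
(.leaf 1225007246)))))
(.node (.node (.node (.node (.node (.leaf 7491614425114)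
(.leaf 1930135113882))
(.leaf 299724))
(.node (.leaf 16152315052304)
(.leaf 4547703066)))
(.node (.node (.leaf 45327162760667290)
(.leaf 570468))
(.node (.leaf 285)
(.leaf 235167767))))
(.node (.node (.node (.node (.leaf 10516446068836)
(.leaf 568))
(.leaf 226214))
(.node (.leaf 338997218208143941638)
(.leaf 760)))
(.node (.node (.leaf 17390038368484)
(.leaf 1829130312))
(.node (.leaf 9577021184246051298859515938)
(.leaf 4983865653))))))
(.node (.node (.node (.node (.node (.node (.leaf 2268095258652)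
(.leaf 1257784))
(.leaf 520850))
(.node (.leaf 18625780785164)
(.leaf 3742044398)))
(.node (.node (.leaf 9554138505358)
(.leaf 545850))
(.node (.leaf 359754874040175444044)
(.leaf 241804199241998558))))
(.node (.node (.node (.node (.leaf 8729101631562)
(.leaf 234))
(.leaf 1013664916248182431766))
(.node (.leaf 19727002943798)
(.leaf 642)))
(.node (.node (.leaf 19864475451596)
(.leaf 721490036))
(.node (.leaf 283068)
(.leaf 1216698)))))
(.node (.node (.node (.node (.node (.leaf 8591763341360)
(.leaf 1928223486144))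
(.leaf 357128))
(.node (.leaf 21101997719836)
(.leaf 20343281328208)))
(.node (.node (.leaf 13952856686764)
(.leaf 668818))
(.node (.leaf 38571148871942500)
(.leaf 1926024745009))))
(.node (.node (.node (.node (.leaf 35190076594012270)
(.leaf 218))
(.leaf 1094618))
(.node (.leaf 359754875002449412164)
(.leaf 1058)))
(.node (.node (.leaf 17389300048106)
(.leaf 1728360560))
(.node (.leaf 633107910302645264402)
(.leaf 1306906)))))))
(.node (.node (.node (.node (.node (.node (.node (.leaf 5155152420866)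
(.leaf 1102130))
(.leaf 1225332))
(.node (.leaf 16014910423294)
(.leaf 3909783748)))
(.node (.node (.leaf 10515573522564)
(.leaf 521250))
(.node (.leaf 359754870328484651040)
(.leaf 3725754438))))
(.node (.node (.node (.node (.leaf 7904535019602)
(.leaf 114731))
(.leaf 1307480))
(.node (.leaf 20277095416108)
(.leaf 32787160252444)))
(.node (.node (.leaf 20551973331136)
(.leaf 1398809958540259369082))
(.node (.leaf 86995428504609170)
(.leaf 2583961685)))))
(.node (.node (.node (.node (.node (.leaf 4054902300696)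
(.leaf 9097611716791156262672554054979633))
(.leaf 594666))
(.node (.leaf 17802152943896)
(.leaf 1179778)))
(.node (.node (.leaf 16152886501380)
(.leaf 1320348793522715901970))
(.node (.leaf 30686476967940440)
(.leaf 2365997209))))
(.node (.node (.node (.node (.leaf 8729471295496)
(.leaf 311))
(.leaf 127936))
(.node (.leaf 341303627054166614022)
(.leaf 63168584720412)))
(.node (.node (.leaf 65599410109948122)
(.leaf 1862340640))
(.node (.leaf 1217038)
(.leaf 3910172902))))))
(.node (.node (.node (.node (.node (.node (.leaf 3367774912546)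
(.leaf 29013229465288816))
(.leaf 955054))
(.node (.leaf 18626216886536)
(.leaf 4849283264)))
(.node (.node (.leaf 6804285300890)
(.leaf 201810))
(.node (.leaf 359754873352812773422)
(.leaf 421918))))
(.node (.node (.node (.node (.leaf 6804486824022)
(.leaf 1812521224))
(.leaf 1282954))
(.node (.leaf 88121531717017912)
(.leaf 698)))
(.node (.node (.leaf 15739596300298)
(.leaf 285298736))
(.node (.leaf 274902)
(.leaf 1315032)))))
(.node (.node (.node (.node (.node (.leaf 3367740956728)
(.leaf 1328664507615714838347927115814613375262811))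
(.leaf 1315616))
(.node (.leaf 21376237928734)
(.leaf 7629288182120)))
(.node (.node (.leaf 60531348297957566)
(.leaf 1368663383930425114700))
(.node (.leaf 1593731)
(.leaf 1493389358))))
(.node (.node (.node (.leaf 10378772226160)
(.leaf 857074))
(.node (.leaf 355142061434478641220)
(.leaf 322914279509524498)))
(.node (.node (.leaf 17390239744240)
(.leaf 3272306902))
(.node (.leaf 1225280)
(.leaf 2819666119))))))))
(.node (.node (.node (.node (.node (.node (.node (.node (.leaf 5155085180930)
(.leaf 3910320346))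
(.leaf 979558))
(.node (.leaf 71229871850905850)
(.leaf 4849725644)))
(.node (.node (.leaf 7903629090948)
(.leaf 783380))
(.node (.leaf 341303626091893301276)
(.leaf 75947790368880))))
(.node (.node (.node (.node (.leaf 5017075531852)
(.leaf 114773))
(.leaf 127820))
(.node (.leaf 87557894736560428)
(.leaf 21241248981394)))
(.node (.node (.leaf 20414500823226)
(.leaf 5710137940532565121212520))
(.node (.leaf 35189189147967884)
(.leaf 602262)))))
(.node (.node (.node (.node (.node (.leaf 3367539703822)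
(.leaf 66133930648390773973102))
(.leaf 840684459000211529764))
(.node (.leaf 19864006533392)
(.leaf 19176979517740)))
(.node (.node (.leaf 10516446068896)
(.leaf 955504))
(.node (.leaf 45327372342583626)
(.leaf 610388))))
(.node (.node (.node (.node (.leaf 7491547332616)
(.leaf 688))
(.leaf 1151922))
(.node (.leaf 345916433198756831252)
(.leaf 245224299014561812)))
(.node (.node (.leaf 17115227832556)
(.leaf 2131161174))
(.node (.leaf 1077760)
(.leaf 889076))))))
(.node (.node (.node (.node (.node (.node (.leaf 26183427464675356)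
(.leaf 3675474534361509379837386974))
(.leaf 1282720))
(.node (.leaf 19864745074700)
(.leaf 3809177854)))
(.node (.node (.leaf 44199887423774872)
(.leaf 832584))
(.node (.leaf 359754875277394493522)
(.leaf 1067368886724997905975511396481554652119152))))
(.node (.node (.node (.node (.leaf 6804721999952)
(.leaf 10588034240765))
(.leaf 201598))
(.node (.leaf 90370857126060344)
(.leaf 666)))
(.node (.node (.leaf 21376774824150)
(.leaf 1325731886))
(.node (.leaf 1077704)
(.leaf 1265866)))))
(.node (.node (.node (.node (.node (.leaf 10378772226098)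
(.leaf 9419204591857384152106572157206680))
(.leaf 3707960646476280974032950))
(.node (.leaf 18351439642910)
(.leaf 7079330959688)))
(.node (.node (.leaf 17390038646968)
(.leaf 398490))
(.node (.leaf 76296420928737642)
(.leaf 643190))))
(.node (.node (.node (.leaf 7078626263152)
(.leaf 1147309212095021531142))
(.node (.leaf 359754873077867659286)
(.leaf 74572295262282)))
(.node (.node (.leaf 68413334336831726)
(.leaf 2131128462))
(.node (.leaf 447028)
(.leaf 4950139053)))))))
(.node (.node (.node (.node (.node (.node (.node (.leaf 3092729143316)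
(.leaf 16702021796043))
(.leaf 520834))
(.node (.leaf 21376774824190)
(.leaf 3910013228)))
(.node (.node (.leaf 8729101631628)
(.leaf 5048960504808881998831682))
(.node (.leaf 364367685408619462690)
(.leaf 655594))))
(.node (.node (.node (.node (.leaf 8590320525382)
(.leaf 177637737469204775165))
(.leaf 1184614))
(.node (.leaf 18213967135028)
(.leaf 572)))
(.node (.node (.leaf 21239134544074)
(.leaf 553726026))
(.node (.leaf 283052)
(.leaf 2366242969)))))
(.node (.node (.node (.node (.node (.leaf 3780124983326)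
(.leaf 1323154854017495309040869686275148686254360))
(.leaf 348922))
(.node (.leaf 74607158649438492)
(.leaf 20480753803338)))
(.node (.node (.leaf 54900198993002500)
(.leaf 799878))
(.node (.leaf 1511791)
(.leaf 1225007208))))
(.node (.node (.node (.node (.leaf 8728598552680)
(.leaf 1044))
(.leaf 1250252))
(.node (.leaf 352835656987475345426)
(.leaf 988)))
(.node (.node (.leaf 17389837009122)
(.leaf 2130972746))
(.node (.leaf 422428)
(.leaf 4564164811))))))
(.node (.node (.node (.node (.node (.node (.leaf 5430197641262)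
(.leaf 491210282288897946320949))
(.leaf 1110718))
(.node (.leaf 20551973331208)
(.leaf 4849791290)))
(.node (.node (.leaf 9965146407066)
(.leaf 873562))
(.node (.leaf 359754874040175476818)
(.leaf 618546))))
(.node (.node (.node (.node (.leaf 4742835101788)
(.leaf 112))
(.leaf 1059793038180975747100))
(.node (.leaf 20964357292352)
(.leaf 720)))
(.node (.node (.leaf 16015347056650)
(.leaf 1224814626))
(.node (.leaf 1266146)
(.leaf 1224938)))))
(.node (.node (.node (.node (.node (.leaf 5016840708102)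
(.leaf 19336566104131464396442109223191))
(.leaf 1110832))
(.node (.leaf 20414500823334)
(.leaf 19176979517814)))
(.node (.node (.leaf 17115227832516)
(.leaf 267440))
(.node (.leaf 74043933718991238)
(.leaf 10515355480153))))
(.node (.node (.node (.leaf 44201537899602038)
(.leaf 414718))
(.node (.leaf 355142058685095395350)
(.leaf 1196)))
(.node (.node (.leaf 17526738903284)
(.leaf 3809325324))
(.node (.leaf 1036878)
(.leaf 5219033397)))))))))))
(.node (.node (.node (.node (.node (.node (.node (.node (.node (.node (.node (.leaf 3)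
(.leaf 3658371366))
(.leaf 938578))
(.node (.leaf 16015580766452)
(.leaf 3238744344)))
(.node (.node (.leaf 7629590003836)
(.leaf 480258))
(.node (.leaf 352835655062894018632)
(.leaf 82412356882600))))
(.node (.node (.node (.node (.leaf 5017679806470)
(.leaf 1152549154313095317643445))
(.leaf 1274678))
(.node (.leaf 21925691621672)
(.leaf 9828228940156)))
(.node (.node (.leaf 14640655597764)
(.leaf 799922))
(.node (.leaf 394)
(.leaf 2684965017)))))
(.node (.node (.node (.node (.node (.leaf 6529844076590)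
(.leaf 7888447398846776))
(.leaf 299716))
(.node (.leaf 17938921447694)
(.leaf 3943436560)))
(.node (.node (.leaf 8454156918938)
(.leaf 1285735809450343514206))
(.node (.leaf 359754874040175312942)
(.leaf 651320))))
(.node (.node (.node (.node (.leaf 44201537899602012)
(.leaf 894))
(.leaf 1184670))
(.node (.leaf 89812031818023234)
(.leaf 748)))
(.node (.node (.leaf 16290157805788)
(.leaf 1225019484))
(.node (.leaf 1028584)
(.leaf 1110260))))))
(.node (.node (.node (.node (.node (.node (.leaf 6117157978134)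
(.leaf 5235433715))
(.leaf 1069704))
(.node (.leaf 17252431569152)
(.leaf 3674910938)))
(.node (.node (.leaf 37441188910973070)
(.leaf 54322))
(.node (.leaf 371286340748585091148)
(.leaf 63620693427843175594298645520937120))))
(.node (.node (.node (.node (.leaf 9416666005574)
(.leaf 30417440165388482))
(.leaf 1078122))
(.node (.leaf 20276424073524)
(.leaf 602)))
(.node (.node (.leaf 13128692310220)
(.leaf 1359261796))
(.node (.leaf 1175986)
(.leaf 15739948855537)))))
(.node (.node (.node (.node (.node (.leaf 9691577466910)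
(.leaf 7898003399245942))
(.leaf 619262))
(.node (.leaf 17663808659740)
(.leaf 20480753950826)))
(.node (.node (.leaf 16015346868394)
(.leaf 283788))
(.node (.leaf 28996939610976612)
(.leaf 577640))))
(.node (.node (.node (.node (.leaf 9691577466984)
(.leaf 195))
(.leaf 1124372408886885277730))
(.node (.leaf 355142058272677855250)
(.leaf 71409653882956)))
(.node (.node (.leaf 19725594280166)
(.leaf 1929834620))
(.node (.leaf 938530)
(.leaf 4564451571)))))))
(.node (.node (.node (.node (.node (.node (.node (.leaf 1168482795522)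
(.leaf 3910091052))
(.leaf 479850))
(.node (.leaf 17390038647036)
(.leaf 3037425878)))
(.node (.node (.leaf 7353672056964)
(.leaf 513050))
(.node (.leaf 359754875002449444940)
(.leaf 226024410699287847224))))
(.node (.node (.node (.node (.leaf 4880207265868)
(.leaf 470339634))
(.leaf 1307472))
(.node (.leaf 21376002883884)
(.leaf 434)))
(.node (.node (.leaf 14640655139008)
(.leaf 201916))
(.node (.leaf 74043933719040398)
(.leaf 1175027797)))))
(.node (.node (.node (.node (.node (.leaf 3367607033870)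
(.leaf 313652071385799458984))
(.leaf 439008))
(.node (.leaf 21101729136912)
(.leaf 4849725748)))
(.node (.node (.leaf 13265628037124)
(.leaf 193654))
(.node (.leaf 338)
(.leaf 626774))))
(.node (.node (.node (.node (.leaf 8728464367624)
(.leaf 1209))
(.leaf 1070008))
(.node (.leaf 338997218758033973254)
(.leaf 884)))
(.node (.node (.leaf 16014474232026)
(.leaf 1157918812))
(.node (.leaf 373252)
(.leaf 1200390))))))
(.node (.node (.node (.node (.node (.node (.leaf 4329847308322)
(.leaf 925666848876828298289254))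
(.leaf 266918))
(.node (.leaf 84743694322712838)
(.leaf 3910054144)))
(.node (.node (.leaf 40822600422940824)
(.leaf 169036))
(.node (.leaf 355142063359060090924)
(.leaf 1993435451455))))
(.node (.node (.node (.node (.leaf 10103860764756)
(.leaf 10588034277612))
(.leaf 1225602))
(.node (.leaf 19863335223608)
(.leaf 674)))
(.node (.node (.leaf 21513475408088)
(.leaf 285298702))
(.node (.leaf 340430)
(.leaf 5017661654)))))
(.node (.node (.node (.node (.node (.leaf 2955692482614)
(.leaf 6035685023586212654879613014))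
(.leaf 471832))
(.node (.leaf 21375096807710)
(.leaf 6941824872788)))
(.node (.node (.leaf 16565236768958)
(.leaf 300192))
(.node (.leaf 78548908104880502)
(.leaf 2466635863))))
(.node (.node (.node (.leaf 7079364419696)
(.leaf 455658))
(.node (.leaf 357448469180754591762)
(.leaf 1128)))
(.node (.node (.leaf 87557069196763376)
(.leaf 2131161240))
(.node (.leaf 455224)
(.leaf 4010848455))))))))
(.node (.node (.node (.node (.node (.node (.node (.node (.leaf 2542906064898)
(.leaf 15740049264938))
(.leaf 479836))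
(.node (.leaf 20964357292280)
(.leaf 4849692864)))
(.node (.node (.leaf 5429526610052)
(.leaf 1195870997882713325644))
(.node (.leaf 352835655750256558152)
(.leaf 83093376127080))))
(.node (.node (.node (.node (.leaf 23367165163921480)
(.leaf 7630430322829))
(.leaf 578372))
(.node (.leaf 78548908103450924)
(.leaf 2400829836)))
(.node (.node (.leaf 13540707459246)
(.leaf 5067879954019616895860744))
(.node (.leaf 28319271141516)
(.leaf 422030)))))
(.node (.node (.node (.node (.node (.leaf 7354342989868)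
(.leaf 42948793471791779682078522952714182689540372079080947955))
(.leaf 299730))
(.node (.leaf 19863335223568)
(.leaf 18352110858526)))
(.node (.node (.leaf 40823013276418206)
(.leaf 1184872))
(.node (.leaf 324)
(.leaf 1241571357))))
(.node (.node (.node (.node (.leaf 7628147261448)
(.leaf 141))
(.leaf 258986))
(.node (.leaf 341303620868005077012)
(.leaf 14180200666)))
(.node (.node (.leaf 68414434250997996)
(.leaf 2097565766))
(.node (.leaf 995830)
(.leaf 4010795233))))))
(.node (.node (.node (.node (.node (.node (.leaf 6254663876636)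
(.leaf 63620141074164763272676913884020989))
(.leaf 3122244205422453310783502))
(.node (.leaf 19862664298508)
(.leaf 3910054132)))
(.node (.node (.leaf 43073575065878678)
(.leaf 5124573722281115673206858))
(.node (.leaf 359754874040175263778)
(.leaf 1473408361976304721064000))))
(.node (.node (.node (.node (.leaf 5567032598608)
(.leaf 686))
(.leaf 201590))
(.node (.leaf 21651619201334)
(.leaf 652)))
(.node (.node (.leaf 13266130583766)
(.leaf 2955457654926))
(.node (.leaf 1274304)
(.leaf 1077440)))))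
(.node (.node (.node (.node (.node (.leaf 2130857435186)
(.leaf 44559124391970028396684155190513147874831642247756386543))
(.leaf 627468))
(.node (.leaf 15464886083870)
(.leaf 146)))
(.node (.node (.leaf 68414984712093868)
(.leaf 5530404326233631930482694))
(.node (.leaf 43075985248567656)
(.leaf 1241972821))))
(.node (.node (.node (.node (.leaf 10103860764782)
(.leaf 2818801682))
(.leaf 259038))
(.node (.leaf 357448469043282083858)
(.leaf 1066)))
(.node (.node (.leaf 20551973331178)
(.leaf 1359130748))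
(.node (.leaf 1020460)
(.leaf 3976929477)))))))
(.node (.node (.node (.node (.node (.node (.node (.leaf 12105966905049090)
(.leaf 1274164))
(.leaf 955000))
(.node (.leaf 15465690734846)
(.leaf 3910029568)))
(.node (.node (.leaf 7216132415624)
(.leaf 521256))
(.node (.leaf 357448464369317543970)
(.leaf 4927562))))
(.node (.node (.node (.node (.leaf 5704069005378)
(.leaf 1131))
(.leaf 1209182))
(.node (.leaf 86431031817412914)
(.leaf 528)))
(.node (.node (.leaf 11479021535432)
(.leaf 520163378))
(.node (.leaf 274852)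
(.leaf 618650)))))
(.node (.node (.node (.node (.node (.leaf 8591092490264)
(.leaf 1928222794000))
(.leaf 594672))
(.node (.leaf 18626216886554)
(.leaf 20343281426534)))
(.node (.node (.leaf 13265628332036)
(.leaf 955518))
(.node (.leaf 352)
(.leaf 266310))))
(.node (.node (.node (.node (.leaf 8591092564070)
(.leaf 296))
(.leaf 1201092))
(.node (.leaf 345916436910446780422)
(.leaf 63718441263132)))
(.node (.node (.leaf 17663808659678)
(.leaf 2130759710))
(.node (.leaf 414228)
(.leaf 1224968))))))
(.node (.node (.node (.node (.node (.node (.leaf 6667014553634)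
(.leaf 757990))
(.leaf 520884))
(.node (.leaf 18626921742600)
(.leaf 4547522796)))
(.node (.node (.leaf 8453552734362)
(.leaf 1276500049490117435480))
(.node (.leaf 355142063634005106732)
(.leaf 1107636272))))
(.node (.node (.node (.node (.leaf 10516211187798)
(.leaf 360316859723573246571687460186192523405))
(.leaf 1184656))
(.node (.leaf 21513274073400)
(.leaf 199051130088095774)))
(.node (.node (.leaf 16015413993482)
(.leaf 2131161138))
(.node (.leaf 1176026)
(.leaf 3641626844)))))
(.node (.node (.node (.node (.node (.leaf 14920991985664060)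
(.leaf 281384070740267057347))
(.leaf 471846))
(.node (.leaf 18764528501028)
(.leaf 9420659966308)))
(.node (.node (.leaf 13953292894404)
(.leaf 799912))
(.node (.leaf 32375739245916548)
(.leaf 10514617028723))))
(.node (.node (.node (.leaf 6254395269238)
(.leaf 70646))
(.node (.leaf 359754875277394214930)
(.leaf 1345580177991547908332)))
(.node (.node (.leaf 20964256628978)
(.leaf 3272257780))
(.node (.leaf 922182)
(.leaf 1061089)))))))))
(.node (.node (.node (.node (.node (.node (.node (.node (.node (.leaf 11)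
(.leaf 3910091048))
(.leaf 889430))
(.node (.leaf 21101729136884)
(.leaf 4547702978)))
(.node (.node (.leaf 10103223083138)
(.leaf 504840))
(.node (.leaf 355142058272677896220)
(.leaf 17971138824))))
(.node (.node (.node (.node (.leaf 5430063980550)
(.leaf 1677114922166745149945815349821428725895249))
(.leaf 3906348473284835505168446))
(.node (.leaf 84739707854668074)
(.leaf 19314452033926)))
(.node (.node (.leaf 11479021535396)
(.leaf 5681741468670737980104712))
(.node (.leaf 1675671)
(.leaf 5016991682702)))))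
(.node (.node (.node (.node (.node (.leaf 6941858357274)
(.leaf 5990998279))
(.leaf 545482))
(.node (.leaf 21239134544142)
(.leaf 4547703064)))
(.node (.node (.leaf 8729235849370)
(.leaf 832610))
(.node (.leaf 128)
(.leaf 1090797657))))
(.node (.node (.node (.node (.leaf 5567032598628)
(.leaf 966))
(.leaf 1069988))
(.node (.leaf 341303626641749090310)
(.leaf 758)))
(.node (.node (.leaf 17389098647780)
(.leaf 1325699214))
(.node (.leaf 930288)
(.leaf 16702742962429))))))
(.node (.node (.node (.node (.node (.node (.leaf 3779957219356)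
(.leaf 1110328))
(.leaf 1102480))
(.node (.leaf 18350902829068)
(.leaf 4849692906)))
(.node (.node (.leaf 8729101631630)
(.leaf 758840))
(.node (.leaf 359754875827284492364)
(.leaf 76111980909197983856))))
(.node (.node (.node (.node (.leaf 8727860142154)
(.leaf 10588034240556))
(.leaf 193392))
(.node (.leaf 80799883082768694)
(.leaf 638)))
(.node (.node (.leaf 14640521142476)
(.leaf 1359229044))
(.node (.leaf 299450)
(.leaf 1200314)))))
(.node (.node (.node (.node (.node (.leaf 8591327371312)
(.leaf 7898003399246020))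
(.leaf 463622))
(.node (.leaf 17664613327132)
(.leaf 20618226466924)))
(.node (.node (.leaf 11204076552364)
(.leaf 5511496409053380232527878))
(.node (.leaf 35747877688344932)
(.leaf 610414))))
(.node (.node (.node (.node (.leaf 8179547562092)
(.leaf 244))
(.leaf 119768))
(.node (.leaf 357448469043282296900)
(.leaf 295902029875421250)))
(.node (.node (.leaf 16702105108714)
(.leaf 1359130732))
(.node (.leaf 905766)
(.leaf 4094685466)))))))
(.node (.node (.node (.node (.node (.node (.node (.leaf 2955223187458)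
(.leaf 4094894321))
(.leaf 455282))
(.node (.leaf 68414434250998014)
(.leaf 3842674878)))
(.node (.node (.leaf 7904233332868)
(.leaf 824352))
(.node (.leaf 359754875002449256480)
(.leaf 228774940389143106074717048275933970581))))
(.node (.node (.node (.node (.leaf 6116788494418)
(.leaf 114804))
(.leaf 983681636991868305410))
(.node (.leaf 19864341233964)
(.leaf 474)))
(.node (.node (.leaf 20277095416000)
(.leaf 799934))
(.node (.leaf 85869391158796690)
(.leaf 2583748657)))))
(.node (.node (.node (.node (.node (.leaf 3780024344600)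
(.leaf 7898000564224018))
(.leaf 1151720))
(.node (.leaf 90370857126060312)
(.leaf 4849725752)))
(.node (.node (.leaf 13403167866884)
(.leaf 922746))
(.node (.leaf 28433714678927700)
(.leaf 2265526366))))
(.node (.node (.node (.node (.leaf 8729471246344)
(.leaf 21))
(.leaf 226238))
(.node (.leaf 343610027652007239700)
(.leaf 916)))
(.node (.node (.leaf 68414846970986714)
(.leaf 8591025164316))
(.node (.leaf 348684)
(.leaf 3910172890))))))
(.node (.node (.node (.node (.node (.node (.leaf 5842414272546)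
(.leaf 13474236080202))
(.leaf 1036972))
(.node (.leaf 84739982833213704)
(.leaf 4547309762)))
(.node (.node (.leaf 35753164019941530)
(.leaf 201808))
(.node (.leaf 355142061434478542894)
(.leaf 561176))))
(.node (.node (.node (.node (.leaf 5017780117590)
(.leaf 631096))
(.leaf 1041341789407858794518))
(.node (.leaf 20551369105720)
(.leaf 692)))
(.node (.node (.leaf 90374981771452632)
(.leaf 2131128350))
(.node (.leaf 1208788)
(.leaf 1306840)))))
(.node (.node (.node (.node (.node (.leaf 1581001031736)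
(.leaf 19334611855892400540241757954113))
(.leaf 471838))
(.node (.leaf 21375768060190)
(.leaf 7079330959716)))
(.node (.node (.leaf 71793371493089470)
(.leaf 832676))
(.node (.leaf 1560955)
(.leaf 2339029487669))))
(.node (.node (.node (.leaf 8041907249264)
(.leaf 873456))
(.node (.leaf 359754875277394427972)
(.leaf 78561246924818)))
(.node (.node (.leaf 16840047583472)
(.leaf 3238678720))
(.node (.leaf 2706574473061672388706322)
(.leaf 2785751299))))))))
(.node (.node (.node (.node (.node (.node (.node (.node (.leaf 2268061802498)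
(.leaf 5034000575))
(.leaf 422500))
(.node (.leaf 21101829800186)
(.leaf 2802495692)))
(.node (.node (.leaf 7353671942276)
(.leaf 1200365561716547731532))
(.node (.leaf 355142061846896181320)
(.leaf 75810217164912))))
(.node (.node (.node (.node (.leaf 6529508483144)
(.leaf 114799))
(.leaf 1176394))
(.node (.leaf 19863134060844)
(.leaf 20966371058066)))
(.node (.node (.leaf 20139622908090)
(.leaf 119994))
(.node (.leaf 34628226422174104)
(.leaf 446614)))))
(.node (.node (.node (.node (.node (.leaf 1993183731726)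
(.leaf 115045))
(.leaf 1037018))
(.node (.leaf 18077165068560)
(.leaf 4816130346)))
(.node (.node (.leaf 44201537899602080)
(.leaf 1306578490521414582274))
(.node (.leaf 28996939610861896)
(.leaf 602196))))
(.node (.node (.node (.node (.leaf 7903025258504)
(.leaf 634))
(.leaf 1087469911340651233314))
(.node (.leaf 345916436360590303238)
(.leaf 870)))
(.node (.node (.leaf 71229871850905836)
(.leaf 1225044054))
(.node (.leaf 348670)
(.leaf 889066))))))
(.node (.node (.node (.node (.node (.node (.leaf 26182877708820508)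
(.leaf 340042695042651143741588))
(.leaf 955038))
(.node (.leaf 19863570432012)
(.leaf 3943444734)))
(.node (.node (.leaf 10103860764822)
(.leaf 554054))
(.node (.leaf 355142063359060262994)
(.leaf 3540537961866631296816718091))))
(.node (.node (.node (.node (.leaf 39697388080160848)
(.leaf 10588034240707))
(.leaf 1201020))
(.node (.leaf 16427294310712)
(.leaf 664)))
(.node (.node (.leaf 58842223391916246)
(.leaf 1225044002))
(.node (.leaf 522400417663943475220)
(.leaf 1249482)))))
(.node (.node (.node (.node (.node (.leaf 8729235849266)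
(.leaf 470757567))
(.leaf 471826))
(.node (.leaf 17801348276510)
(.leaf 314)))
(.node (.node (.leaf 59968672886792376)
(.leaf 1354818753388902137928))
(.node (.leaf 74043933718958438)
(.leaf 1241997403))))
(.node (.node (.node (.leaf 5841977745520)
(.leaf 832484))
(.node (.leaf 357448467118700544022)
(.leaf 1084)))
(.node (.node (.leaf 17114120077550)
(.leaf 2131128460))
(.node (.leaf 1217074)
(.leaf 21100134945033)))))))
(.node (.node (.node (.node (.node (.node (.node (.leaf 1993116614676)
(.leaf 16701686251723))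
(.leaf 1045120))
(.node (.leaf 70103971944055038)
(.leaf 3909996840)))
(.node (.node (.leaf 10927991046282)
(.leaf 676910))
(.node (.leaf 364367682659236405280)
(.leaf 4371980761942857199908768745150916865589190826))))
(.node (.node (.node (.node (.leaf 5842548408386)
(.leaf 177637737469204774957))
(.leaf 95076))
(.node (.leaf 21239134544178)
(.leaf 566)))
(.node (.node (.leaf 20964256628938)
(.leaf 755109952))
(.node (.leaf 299434)
(.leaf 479392)))))
(.node (.node (.node (.node (.node (.leaf 2130857435166)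
(.leaf 413472025103717510874105226319869640917))
(.leaf 520952))
(.node (.leaf 90374981771452698)
(.leaf 20618226450536)))
(.node (.node (.leaf 13265896833028)
(.leaf 1331948957584450428960))
(.node (.leaf 1495403)
(.leaf 1744887837))))
(.node (.node (.node (.node (.leaf 8727860142184)
(.leaf 962))
(.leaf 259018))
(.node (.leaf 355142061022061117508)
(.leaf 65918034878498)))
(.node (.node (.leaf 65598584536219874)
(.leaf 2097418310))
(.node (.leaf 1282586)
(.leaf 2752577739))))))
(.node (.node (.node (.node (.node (.node (.leaf 4330149748770)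
(.leaf 2012427209505940470112399555))
(.leaf 520892))
(.node (.leaf 20277095416072)
(.leaf 4849791278)))
(.node (.node (.leaf 9690503356570)
(.leaf 1281120181819934646362))
(.node (.leaf 359754875827284525138)
(.leaf 454706))))
(.node (.node (.node (.node (.leaf 4879535841372)
(.leaf 86))
(.leaf 103320))
(.node (.leaf 18763857223996)
(.leaf 718)))
(.node (.node (.leaf 15465524092938)
(.leaf 1157705756))
(.node (.leaf 1274336)
(.leaf 1200358)))))
(.node (.node (.node (.node (.node (.leaf 4741962776582)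
(.leaf 1699025919756969369325067402759841658081461))
(.leaf 643886))
(.node (.leaf 19726868726054)
(.leaf 6141944166)))
(.node (.node (.leaf 59968123298767044)
(.leaf 1380383485613882490888))
(.node (.leaf 73480708786983294)
(.leaf 1141321817))))
(.node (.node (.node (.leaf 7629590003830)
(.leaf 480252))
(.node (.leaf 359754873352812675094)
(.leaf 81578660266060)))
(.node (.node (.leaf 17389299925236)
(.leaf 3238678792))
(.node (.leaf 414284)
(.leaf 5218808088))))))))))
(.node (.node (.node (.node (.node (.node (.node (.node (.node (.node (.leaf 7)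
(.leaf 1216806))
(.leaf 905812))
(.node (.leaf 19864475451636)
(.leaf 2735370412)))
(.node (.node (.leaf 7216132325506)
(.leaf 414726))
(.node (.leaf 352835655062893830172)
(.leaf 20185584247))))
(.node (.node (.node (.node (.leaf 5292490760198)
(.leaf 68696115369304180))
(.leaf 1143610))
(.node (.leaf 20551973331240)
(.leaf 11066421035394)))
(.node (.node (.leaf 19176677589186)
(.leaf 54452))
(.node (.leaf 1642895)
(.leaf 422028)))))
(.node (.node (.node (.node (.node (.leaf 3367607033874)
(.leaf 29278419318956199))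
(.leaf 1184454))
(.node (.leaf 17939659006222)
(.leaf 3809169688)))
(.node (.node (.leaf 8728799912090)
(.leaf 1288043341721835061342))
(.node (.leaf 126)
(.leaf 315457))))
(.node (.node (.node (.node (.leaf 10104028536926)
(.leaf 936))
(.leaf 1069018662567534305308))
(.node (.leaf 334384391857679409158)
(.leaf 752)))
(.node (.node (.leaf 16702843879644)
(.leaf 1292112002))
(.node (.leaf 348652)
(.leaf 1274100))))))
(.node (.node (.node (.node (.node (.node (.leaf 6117493686294)
(.leaf 5235482867))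
(.leaf 512652))
(.node (.leaf 15052367216652)
(.leaf 3809177826)))
(.node (.node (.leaf 9140915429518)
(.leaf 873524))
(.node (.leaf 357448467943535640610)
(.leaf 15532395856407025291576817754135))))
(.node (.node (.node (.node (.leaf 5841709260874)
(.leaf 727604162263686650515689))
(.leaf 1069932))
(.node (.leaf 21376607052084)
(.leaf 620)))
(.node (.node (.leaf 13678045528268)
(.leaf 1258565744))
(.node (.leaf 283062)
(.leaf 3658371258)))))
(.node (.node (.node (.node (.node (.leaf 1581001031728)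
(.leaf 52030852872184757911527414679779297667652402009039041))
(.leaf 635650))
(.node (.leaf 86431031817412892)
(.leaf 20480753819726)))
(.node (.node (.leaf 16015414182058)
(.leaf 5502898127125107682852870))
(.node (.leaf 28433714679001452)
(.leaf 1241964627))))
(.node (.node (.node (.node (.leaf 8453217321068)
(.leaf 3725525235))
(.leaf 1266644))
(.node (.leaf 355142061022060920854)
(.leaf 1048)))
(.node (.node (.leaf 20139622908134)
(.leaf 2131218578))
(.node (.leaf 922148)
(.leaf 1274128)))))))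
(.node (.node (.node (.node (.node (.node (.node (.leaf 2130589450242)
(.leaf 1208620))
(.leaf 1315438))
(.node (.leaf 15602391466238)
(.leaf 21514247311576)))
(.node (.node (.leaf 7904233275524)
(.leaf 4964416882930459670650946))
(.node (.leaf 359754873077867888716)
(.leaf 581866))))
(.node (.node (.node (.node (.leaf 4880207372364)
(.leaf 114829))
(.leaf 70484))
(.node (.leaf 19863838867756)
(.leaf 446)))
(.node (.node (.leaf 19863838867648)
(.leaf 1271884421859709583472))
(.node (.leaf 73480708787065246)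
(.leaf 626840)))))
(.node (.node (.node (.node (.node (.leaf 1718439911448)
(.leaf 21554007252459593565407470690457))
(.leaf 938724))
(.node (.leaf 15602357911832)
(.leaf 19176979517752)))
(.node (.node (.leaf 12166217261060)
(.leaf 889976))
(.node (.leaf 1413463)
(.leaf 643164))))
(.node (.node (.node (.node (.leaf 7629691117576)
(.leaf 169))
(.leaf 1184698))
(.node (.leaf 338997220957527629840)
(.leaf 912)))
(.node (.node (.leaf 68414983604371674)
(.leaf 1359138916))
(.node (.leaf 1315336)
(.leaf 16014826533128))))))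
(.node (.node (.node (.node (.node (.node (.leaf 6254730969122)
(.leaf 3791531413056628196201029875))
(.leaf 1315496))
(.node (.leaf 20414500823302)
(.leaf 3641323690)))
(.node (.node (.leaf 10516211187864)
(.leaf 201806))
(.node (.leaf 355142058685095485484)
(.leaf 413720))))
(.node (.node (.node (.node (.leaf 5017075531862)
(.leaf 2584969292))
(.leaf 193414))
(.node (.leaf 19176979611960)
(.leaf 682)))
(.node (.node (.leaf 57152548930371800)
(.leaf 2097565720))
(.node (.leaf 1307088)
(.leaf 4094685400)))))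
(.node (.node (.node (.node (.node (.leaf 41947675763179574)
(.leaf 114931))
(.leaf 1217306))
(.node (.leaf 18352110977310)
(.leaf 8041705730396)))
(.node (.node (.leaf 69540884484571326)
(.leaf 799906))
(.node (.leaf 376)
(.leaf 2651402391))))
(.node (.node (.node (.leaf 40822600422940784)
(.leaf 1156662094239839723588))
(.node (.leaf 357448464506790002710)
(.leaf 4641899)))
(.node (.node (.leaf 16701702586608)
(.leaf 9966555975838))
(.node (.leaf 1184316)
(.leaf 3087986887))))))))
(.node (.node (.node (.node (.node (.node (.node (.node (.leaf 2680613494786)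
(.leaf 1069354))
(.leaf 1266272))
(.node (.leaf 15327412895994)
(.leaf 2802495688)))
(.node (.node (.leaf 43071788359491716)
(.leaf 1198055214007926497356))
(.node (.leaf 352835655750256369692)
(.leaf 74847607652456))))
(.node (.node (.node (.node (.leaf 7492117495880)
(.leaf 470798616))
(.leaf 3953583670144015155290176))
(.node (.leaf 17389601964332)
(.leaf 18627055890834)))
(.node (.node (.leaf 19726332698810)
(.leaf 300216))
(.node (.leaf 31249564394156432)
(.leaf 446612)))))
(.node (.node (.node (.node (.node (.leaf 3230167842830)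
(.leaf 16018031796468))
(.leaf 1274582))
(.node (.leaf 19175972888848)
(.leaf 4816130342)))
(.node (.node (.leaf 40823012840448160)
(.leaf 136300))
(.node (.leaf 1356105)
(.leaf 569418))))
(.node (.node (.node (.node (.leaf 8590152794120)
(.leaf 139))
(.leaf 226222))
(.node (.leaf 345916438697555828742)
(.leaf 242408999359967482)))
(.node (.node (.leaf 16702742831340)
(.leaf 2131128394))
(.node (.leaf 1151482)
(.leaf 667840))))))
(.node (.node (.node (.node (.node (.node (.leaf 6254865244188)
(.leaf 177637746612854546464))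
(.leaf 520858))
(.node (.leaf 19863570391052)
(.leaf 3742044410)))
(.node (.node (.leaf 8591327371414)
(.leaf 832578))
(.node (.leaf 357448465194152615976)
(.leaf 359754860024203182262))))
(.node (.node (.node (.node (.leaf 39697386972610640)
(.leaf 42805640209354996))
(.leaf 1209210))
(.node (.leaf 84178407638343992)
(.leaf 660)))
(.node (.node (.leaf 84180195015172310)
(.leaf 3093030899874))
(.node (.leaf 283076)
(.leaf 1224896)))))
(.node (.node (.node (.node (.node (.leaf 3780124983346)
(.leaf 9689682772119))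
(.leaf 1020686))
(.node (.leaf 16427294359838)
(.leaf 290)))
(.node (.node (.leaf 16427764269240)
(.leaf 1352503900980873576454))
(.node (.leaf 25707226226984)
(.leaf 626800))))
(.node (.node (.node (.node (.leaf 5841977696368)
(.leaf 222))
(.leaf 177122))
(.node (.leaf 357448464369317478418)
(.leaf 73471978131522)))
(.node (.node (.leaf 16839242121454)
(.leaf 1761923202))
(.node (.leaf 642333534689203863570)
(.leaf 2786070701)))))))
(.node (.node (.node (.node (.node (.node (.node (.leaf 893604929556)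
(.leaf 1102134))
(.leaf 520828))
(.node (.leaf 16840081146110)
(.leaf 3708653852)))
(.node (.node (.leaf 39695325388210314)
(.leaf 791596))
(.node (.leaf 366674091367786758220)
(.leaf 212225388862727610608))))
(.node (.node (.node (.node (.leaf 6116385972290)
(.leaf 2980266648656821313409638627))
(.leaf 1233760))
(.node (.leaf 21513240527154)
(.leaf 150625611458281488)))
(.node (.node (.leaf 14777859195082)
(.leaf 755060790))
(.node (.leaf 485497920117709561858)
(.leaf 651422)))))
(.node (.node (.node (.node (.node (.leaf 9279227043864)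
(.leaf 100789417665098027))
(.leaf 1282804))
(.node (.leaf 18627390652698)
(.leaf 20343281279046)))
(.node (.node (.leaf 16152752357380)
(.leaf 226434))
(.node (.leaf 1462627)
(.leaf 266326))))
(.node (.node (.node (.node (.leaf 5154480857192)
(.leaf 264))
(.leaf 127944))
(.node (.leaf 345916434023591878676)
(.leaf 954)))
(.node (.node (.leaf 17115127169246)
(.leaf 1828991048))
(.node (.leaf 954904)
(.leaf 1265934))))))
(.node (.node (.node (.node (.node (.node (.leaf 4192710787106)
(.leaf 1458279))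
(.leaf 1069752))
(.node (.leaf 20688472531208)
(.leaf 4446859502)))
(.node (.node (.leaf 8728195686554)
(.leaf 1278812649548443148378))
(.node (.leaf 355142061846896066606)
(.leaf 602160))))
(.node (.node (.node (.node (.leaf 6803983433818)
(.leaf 154))
(.leaf 1176468))
(.node (.leaf 19864475451704)
(.leaf 712)))
(.node (.node (.leaf 18077602390026)
(.leaf 9966555975736))
(.node (.leaf 291294)
(.leaf 16015598498045)))))
(.node (.node (.node (.node (.node (.leaf 10516446068800)
(.leaf 79194572500789425149180060202090527))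
(.leaf 643882))
(.node (.leaf 19725594280230)
(.leaf 10245293687144)))
(.node (.node (.leaf 70103971944054980)
(.leaf 521388))
(.node (.leaf 40259998933598588)
(.leaf 1795330092))))
(.node (.node (.node (.leaf 40823012840448118)
(.leaf 832504))
(.node (.leaf 359754870603429609490)
(.leaf 80477941371144)))
(.node (.node (.leaf 16152348606708)
(.leaf 3272306942))
(.node (.leaf 1315400)
(.leaf 4228837685)))))))))
(.node (.node (.node (.node (.node (.node (.node (.node (.node (.leaf 1855778390018)
(.leaf 1225000))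
(.leaf 1184344))
(.node (.leaf 17389937934580)
(.leaf 3037425844)))
(.node (.node (.leaf 10379107885186)
(.leaf 480268))
(.node (.leaf 364367685408619626568)
(.leaf 73884899111192))))
(.node (.node (.node (.node (.leaf 6117124489284)
(.leaf 32353034542607253578))
(.leaf 652096))
(.node (.leaf 19726868726058)
(.leaf 8454156841368)))
(.node (.node (.leaf 13952923484324)
(.leaf 1389451445521181753352))
(.node (.leaf 28319136923778)
(.leaf 1225023630)))))
(.node (.node (.node (.node (.node (.leaf 17737115907981344)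
(.leaf 100491598057582863))
(.leaf 1282766))
(.node (.leaf 81362970508697872)
(.leaf 18214638342428)))
(.node (.node (.leaf 10378772226202)
(.leaf 791654))
(.node (.leaf 129)
(.leaf 553030))))
(.node (.node (.node (.node (.leaf 4604490162184)
(.leaf 360))
(.leaf 201640))
(.node (.leaf 341303624167311056902)
(.leaf 840)))
(.node (.node (.leaf 17390038647012)
(.leaf 1929818194))
(.node (.leaf 397810)
(.leaf 16015900487929))))))
(.node (.node (.node (.node (.node (.node (.leaf 3917798916124)
(.leaf 4917035313))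
(.leaf 512660))
(.node (.leaf 19862664249356)
(.leaf 3809177840)))
(.node (.node (.leaf 8591763341460)
(.leaf 521276))
(.node (.leaf 359754875827284303904)
(.leaf 55181263933571174))))
(.node (.node (.node (.node (.leaf 9554138505290)
(.leaf 632))
(.leaf 1184626))
(.node (.leaf 22063600468278)
(.leaf 644)))
(.node (.node (.leaf 21376607051980)
(.leaf 1258582134))
(.node (.leaf 1184190)
(.leaf 3909877978)))))
(.node (.node (.node (.node (.node (.leaf 10103860764720)
(.leaf 470757687))
(.leaf 893731799222922723380))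
(.node (.leaf 20277162672412)
(.leaf 20618226344016)))
(.node (.node (.leaf 68414984409948332)
(.leaf 5520950367643506080530438))
(.node (.leaf 39697048577458532)
(.leaf 503775281))))
(.node (.node (.node (.node (.leaf 8590723178606)
(.leaf 203))
(.leaf 4652664583659873979269154))
(.node (.leaf 357448467118700740676)
(.leaf 1060)))
(.node (.node (.leaf 19864341233898)
(.leaf 1359130740))
(.node (.leaf 1045032)
(.leaf 1315098)))))))
(.node (.node (.node (.node (.node (.node (.node (.leaf 2130723692546)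
(.leaf 1265970))
(.leaf 1036918))
(.node (.leaf 16702105239806)
(.leaf 3909783744)))
(.node (.node (.leaf 10516580401284)
(.leaf 513060))
(.node (.leaf 357448467118700593186)
(.leaf 5016907960347))))
(.node (.node (.node (.node (.leaf 6804721999954)
(.leaf 28))
(.leaf 127834))
(.node (.leaf 21789360259376)
(.leaf 514)))
(.node (.node (.leaf 57150899294748870)
(.leaf 453062680))
(.node (.leaf 1315232)
(.leaf 1242144853)))))
(.node (.node (.node (.node (.node (.leaf 3230234910744)
(.leaf 37297260039028028819304087414192726085))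
(.leaf 520940))
(.node (.leaf 18627390652696)
(.leaf 1187972)))
(.node (.node (.leaf 13403369234436)
(.leaf 996476))
(.node (.leaf 32938826671657308)
(.leaf 470028301))))
(.node (.node (.node (.node (.leaf 37440913932427366)
(.leaf 271))
(.leaf 1105921160113768210466))
(.node (.leaf 345916438972500844550)
(.leaf 922)))
(.node (.node (.leaf 15327412895966)
(.leaf 1929449516))
(.node (.leaf 1233424)
(.leaf 3910091016))))))
(.node (.node (.node (.node (.node (.node (.leaf 17173341320781858)
(.leaf 112590955122872431))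
(.leaf 938672))
(.node (.leaf 19863134060808)
(.leaf 4480200904)))
(.node (.node (.leaf 6804285350042)
(.leaf 832594))
(.node (.leaf 355142058685095493678)
(.leaf 569374))))
(.node (.node (.node (.node (.leaf 8729235849302)
(.leaf 5218758919))
(.leaf 201612))
(.node (.leaf 19864006598968)
(.leaf 700)))
(.node (.node (.leaf 16014474231818)
(.leaf 2097598512))
(.node (.leaf 540851666437060501526)
(.leaf 905433)))))
(.node (.node (.node (.node (.node (.leaf 40823013276418104)
(.leaf 1152549153746433086333031))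
(.leaf 611106))
(.node (.leaf 21376942743838)
(.leaf 8041705730412)))
(.node (.node (.leaf 16015580766404)
(.leaf 136358))
(.node (.leaf 26669600981124)
(.leaf 268873769))))
(.node (.node (.node (.leaf 10516211187824)
(.leaf 783348))
(.node (.leaf 359754873352812871748)
(.leaf 325182850972766240)))
(.node (.node (.leaf 16702508171504)
(.leaf 2970267886))
(.node (.leaf 1217090)
(.leaf 21375012860171))))))))
(.node (.node (.node (.node (.node (.node (.node (.node (.leaf 2268095406082)
(.leaf 3910320358))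
(.leaf 2895515260498390989701152))
(.node (.leaf 17390105755898)
(.leaf 2936738002)))
(.node (.node (.leaf 43073575065878660)
(.leaf 758806))
(.node (.leaf 355142061846895992860)
(.leaf 48424279699710156))))
(.node (.node (.node (.node (.leaf 6254026145868)
(.leaf 1927232561186))
(.leaf 103246))
(.node (.leaf 19863838761260)
(.leaf 118529765653737686)))
(.node (.node (.leaf 13266130583744)
(.leaf 5134036906495628080627816))
(.node (.leaf 40259861763178892)
(.leaf 2550194225)))))
(.node (.node (.node (.node (.node (.leaf 3642417659918)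
(.leaf 1109543239417018851406967480591))
(.leaf 578268))
(.node (.leaf 21513274073360)
(.leaf 4849692972)))
(.node (.node (.leaf 10378973552802)
(.leaf 939122))
(.node (.leaf 73480708786770252)
(.leaf 454742))))
(.node (.node (.node (.node (.leaf 7628986302472)
(.leaf 256))
(.leaf 226228))
(.node (.leaf 338997220957526990854)
(.leaf 247476786193403926)))
(.node (.node (.leaf 17390105755884)
(.leaf 1359138906))
(.node (.leaf 589286194466492522530)
(.leaf 3658371334))))))
(.node (.node (.node (.node (.node (.node (.leaf 26746377418104860)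
(.leaf 5713770808841439153280963408140))
(.leaf 520866))
(.node (.leaf 19864745123852)
(.leaf 3910054142)))
(.node (.node (.leaf 8728195686552)
(.leaf 791626))
(.node (.leaf 355142061434478706770)
(.leaf 4742113996893))))
(.node (.node (.node (.node (.leaf 4742096961620)
(.leaf 2584969297))
(.leaf 70528))
(.node (.leaf 88118369949835576)
(.leaf 668)))
(.node (.node (.leaf 14503149527254)
(.leaf 1694789658))
(.node (.leaf 1069514)
(.leaf 1110220)))))
(.node (.node (.node (.node (.node (.leaf 10516211187762)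
(.leaf 412754068501917184151))
(.leaf 1200916))
(.node (.leaf 18351439700254)
(.leaf 17939626168652)))
(.node (.node (.leaf 14640588488888)
(.leaf 373916))
(.node (.leaf 73480708786901362)
(.leaf 651382))))
(.node (.node (.node (.leaf 8040698978416)
(.leaf 783334))
(.node (.leaf 357448464369317494806)
(.leaf 75672610324566)))
(.node (.node (.leaf 16702843879662)
(.leaf 2097598612))
(.node (.leaf 1192500)
(.leaf 5151916337)))))))
(.node (.node (.node (.node (.node (.node (.node (.leaf 5430063980564)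
(.leaf 2752741579))
(.leaf 512644))
(.node (.leaf 16427730985214)
(.leaf 16015480983874)))
(.node (.node (.leaf 9691577467020)
(.leaf 54320))
(.node (.leaf 366674091367786577954)
(.leaf 260590360280445647234247252056057266330))))
(.node (.node (.node (.node (.leaf 8591629123654)
(.leaf 43368588249317572))
(.leaf 62312))
(.node (.leaf 19863335338292)
(.leaf 161324272550985746)))
(.node (.node (.leaf 13266130583756)
(.leaf 1258565718))
(.node (.leaf 995758)
(.leaf 2332651682)))))
(.node (.node (.node (.node (.node (.leaf 8729101631518)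
(.leaf 7898003399495914))
(.leaf 996090))
(.node (.leaf 16289821827356)
(.leaf 20618226311242)))
(.node (.node (.leaf 13403167703210)
(.leaf 316552))
(.node (.leaf 1528179)
(.leaf 1225162838))))
(.node (.node (.node (.node (.leaf 8728598634600)
(.leaf 930))
(.leaf 119758))
(.node (.leaf 355142062946642460690)
(.leaf 279572769468686382)))
(.node (.node (.leaf 16427764465890)
(.leaf 2130972758))
(.node (.leaf 414238)
(.leaf 3658547443))))))
(.node (.node (.node (.node (.node (.node (.leaf 27872140087197742)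
(.leaf 32311080545676394664))
(.leaf 1102528))
(.node (.leaf 19175771562252)
(.leaf 3943436552)))
(.node (.node (.leaf 9965146439834)
(.leaf 5256922223324587640217690))
(.node (.leaf 359754875827284353068)
(.leaf 626738))))
(.node (.node (.node (.node (.leaf 5842380529756)
(.leaf 780))
(.leaf 1233818))
(.node (.leaf 17252129431874)
(.leaf 742)))
(.node (.node (.leaf 16015414181898)
(.leaf 1224814622))
(.node (.leaf 283108)
(.leaf 1265906)))))
(.node (.node (.node (.node (.node (.leaf 5016840691718)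
(.leaf 7898687925768212))
(.leaf 553778))
(.node (.leaf 19863838761256)
(.leaf 18697688670570)))
(.node (.node (.leaf 14365777674436)
(.leaf 5663338654425650360385544))
(.node (.leaf 79111995530908038)
(.leaf 1493643346))))
(.node (.node (.node (.leaf 44764487853031542)
(.leaf 1177419749109596340296))
(.node (.leaf 359754870603429625878)
(.leaf 1198)))
(.node (.node (.leaf 19863335223540)
(.leaf 3943543056))
(.node (.leaf 679236032235437907994)
(.leaf 5017604418))))))))))))

def h : Tr Nat := (.node (.node (.node (.node (.node (.node (.node (.node (.node (.node (.node (.node (.leaf 0)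
(.leaf 170743760491))
(.leaf 0))
(.node (.leaf 0)
(.leaf 93684105218)))
(.node (.node (.leaf 0)
(.leaf 0))
(.node (.leaf 0)
(.leaf 7301886795536405293300332422664421380))))
(.node (.node (.node (.node (.leaf 0)
(.leaf 15337676009305717378675702775627884490803199673362091894065473382325873412310105556555414143587366187968126165538045202723229445164383055626935586071391927265962796454077657088368821839010502325419771779964505156565556054313102699974474898403966697902442388))
(.leaf 0))
(.node (.leaf 0)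
(.leaf 238379205449)))
(.node (.node (.leaf 0)
(.leaf 0))
(.node (.leaf 0)
(.leaf 74902012745)))))
(.node (.node (.node (.node (.node (.leaf 0)
(.leaf 378121389455485802089146168381112666068828262330948667572233008723662044686455171319536698603070356171507314057563410734354224191274299439399967676856300818131336775847579991798778950075636564190153737962342939133287257151627199386363074863990963379615633952974667490950317604544350250692745507732695587787426472943644575586))
(.leaf 0))
(.node (.leaf 0)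
(.leaf 155693088773)))
(.node (.node (.leaf 0)
(.leaf 0))
(.node (.leaf 0)
(.leaf 105783099355434387049))))
(.node (.node (.node (.node (.leaf 0)
(.leaf 305221142716))
(.leaf 0))
(.node (.leaf 0)
(.leaf 298241295978)))
(.node (.node (.leaf 0)
(.leaf 34628435971))
(.node (.leaf 0)
(.leaf 137457895020))))))
(.node (.node (.node (.node (.node (.node (.leaf 0)
(.leaf 186044712556))
(.leaf 0))
(.node (.leaf 0)
(.leaf 123749400582)))
(.node (.node (.leaf 0)
(.leaf 0))
(.node (.leaf 0)
(.leaf 1603986774733741017314910291153522473617881094887290734899366796352695214391538934680580643733499003244076502634442589801))))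
(.node (.node (.node (.node (.leaf 0)
(.leaf 814582808524518792819560200944066817312354996246284640416176534384517748470090691084122662635675))
(.leaf 0))
(.node (.leaf 0)
(.leaf 277044332140)))
(.node (.node (.leaf 0)
(.leaf 4294967297))
(.node (.leaf 0)
(.leaf 90471269193)))))
(.node (.node (.node (.node (.node (.leaf 0)
(.leaf 29060366281245625125321794988873211270124194253505295095796800208548175480116426744178226171531140917922398986487267567710691512421586320933759948172169369099679198874400919666818934516495043902108245117797036942681507294594592495473979661418716953760570141135749261591739194370906087381764152621381075622016237017844456057187280392739132458989432553149462370913826819026587757825135618206928150664149378695244330131537761353085093634614467666819316075237202952623209598762157180690736498225403057448292027830745335376345054398668350206623874355317577410611121))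
(.leaf 0))
(.node (.leaf 0)
(.leaf 51881608446138908675)))
(.node (.node (.leaf 0)
(.leaf 0))
(.node (.leaf 0)
(.leaf 16215210683841577798))))
(.node (.node (.node (.node (.leaf 0)
(.leaf 115513073740785584348))
(.leaf 0))
(.node (.leaf 0)
(.leaf 91018188728270323715)))
(.node (.node (.leaf 0)
(.leaf 56908709892))
(.node (.leaf 0)
(.leaf 158934304366)))))))
(.node (.node (.node (.node (.node (.node (.node (.leaf 0)
(.leaf 47491250160589145708))
(.leaf 0))
(.node (.leaf 0)
(.leaf 114353635330)))
(.node (.node (.leaf 0)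
(.leaf 0))
(.node (.leaf 0)
(.leaf 2001499036885558547127826851623450378480911175))))
(.node (.node (.node (.node (.leaf 0)
(.leaf 43646930749011628359698441040006152569505091848511518989299616157925140776392734461429854384127619923113368059764213999250792056143423179817392814606188029726609039303900427279797182238373779341452179915933932425442838229370682791551102031716748703556494341651926655252466613342501071460857390774691133269674197143795483215698413307234964319234811282215237657593011816659139513802587051268927966824512636274501283407046797073594890236471241780919793101805083274089578497003412447725727924754609663818452961423))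
(.leaf 0))
(.node (.leaf 0)
(.leaf 249395480172)))
(.node (.node (.leaf 0)
(.leaf 0))
(.node (.leaf 0)
(.leaf 81881137990)))))
(.node (.node (.node (.node (.node (.leaf 0)
(.leaf 5894433771676416974076862325562945325345464654012873411162272871075364893559725494225108998802796585381236104138536516122218129343522289883343375438660341486151388030801883741247500287519318127615431404188775718571705418891046584723665566806555544979438238098025477358402181163343846769344530534082414809349216428979024167752110606352681555022386213902820721805371506302121874116372579937249980669236945463169040411045233714239205978072404311234799678064364642159295267823254134916884))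
(.leaf 0))
(.node (.leaf 0)
(.leaf 179583975430)))
(.node (.node (.leaf 0)
(.leaf 0))
(.node (.leaf 0)
(.leaf 13332906922324460358))))
(.node (.node (.node (.node (.leaf 0)
(.leaf 129426540156407056590))
(.leaf 0))
(.node (.leaf 0)
(.leaf 319994005100)))
(.node (.node (.leaf 0)
(.leaf 51002736641))
(.node (.leaf 0)
(.leaf 40501663538910004843))))))
(.node (.node (.node (.node (.node (.node (.leaf 0)
(.leaf 10738077058730099489))
(.leaf 0))
(.node (.leaf 0)
(.leaf 144418799621)))
(.node (.node (.leaf 0)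
(.leaf 0))
(.node (.leaf 0)
(.leaf 15040774984))))
(.node (.node (.node (.node (.leaf 0)
(.leaf 805398809822592763860232692557692899042992573224301670638424638793024855983154110554345611131802908347084165569134724426227145861817627648473310169666890533181426510069265825597607))
(.leaf 0))
(.node (.leaf 0)
(.leaf 287514887790)))
(.node (.node (.leaf 0)
(.leaf 19864485891))
(.node (.leaf 0)
(.leaf 30557504455174783815)))))
(.node (.node (.node (.node (.node (.leaf 0)
(.leaf 216841940212932354412041625606089123185773733109700447537792051))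
(.leaf 0))
(.node (.leaf 0)
(.leaf 227923002187)))
(.node (.node (.leaf 0)
(.leaf 0))
(.node (.leaf 0)
(.leaf 69801608008))))
(.node (.node (.node (.leaf 0)
(.leaf 0))
(.node (.leaf 0)
(.leaf 359167164421)))
(.node (.node (.leaf 0)
(.leaf 80799465476))
(.node (.leaf 0)
(.leaf 165374722885))))))))
(.node (.node (.node (.node (.node (.node (.node (.node (.leaf 0)
(.leaf 173159679595))
(.leaf 0))
(.node (.leaf 0)
(.leaf 107374313474)))
(.node (.node (.leaf 0)
(.leaf 0))
(.node (.leaf 0)
(.leaf 102412893941657044717))))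
(.node (.node (.node (.node (.leaf 0)
(.leaf 416899042555808598297238298323266959996495851584653243450873372106963696667139666705444080429020049442118043869373967016564317758256835930841411187221699966599711014393930995177512915895692))
(.leaf 0))
(.node (.leaf 0)
(.leaf 244552893252)))
(.node (.node (.leaf 0)
(.leaf 0))
(.node (.leaf 0)
(.leaf 78660306537)))))
(.node (.node (.node (.node (.node (.leaf 0)
(.leaf 1320689212725387220265566169488970200260964330433528915086153608729747746320235890392344344163338331304220100693513989907501859485942738113003542101058572684188685424205711186319897648483074445380807493421073802000400964422102430512664927115755031015374664675034456))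
(.leaf 0))
(.node (.leaf 0)
(.leaf 164819894277)))
(.node (.node (.leaf 0)
(.leaf 0))
(.node (.leaf 0)
(.leaf 11675617444092511044))))
(.node (.node (.node (.node (.leaf 0)
(.leaf 231146457288))
(.leaf 0))
(.node (.leaf 0)
(.leaf 313014552171)))
(.node (.node (.leaf 0)
(.leaf 41070624769))
(.node (.leaf 0)
(.leaf 145779065671))))))
(.node (.node (.node (.node (.node (.node (.leaf 0)
(.leaf 13657447609218443909176886085))
(.leaf 0))
(.node (.leaf 0)
(.leaf 136365342722)))
(.node (.node (.leaf 0)
(.leaf 0))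
(.node (.leaf 0)
(.leaf 15836993673936952219782229665246925057064498963248005801802599659478516494020698891408917409724553165822371584763357692741))))
(.node (.node (.node (.node (.leaf 0)
(.leaf 287241210023))
(.leaf 0))
(.node (.leaf 0)
(.leaf 284281471814)))
(.node (.node (.leaf 0)
(.leaf 6442450945))
(.node (.leaf 0)
(.leaf 108466865772)))))
(.node (.node (.node (.node (.node (.leaf 0)
(.leaf 146712762519397533797))
(.leaf 0))
(.node (.leaf 0)
(.leaf 108592993462833316678)))
(.node (.node (.leaf 0)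
(.leaf 0))
(.node (.leaf 0)
(.leaf 65238139718))))
(.node (.node (.node (.node (.leaf 0)
(.leaf 114430415426163378407))
(.leaf 0))
(.node (.leaf 0)
(.leaf 350585029446)))
(.node (.node (.leaf 0)
(.leaf 68182999044))
(.node (.leaf 0)
(.leaf 431662695237)))))))
(.node (.node (.node (.node (.node (.node (.node (.leaf 0)
(.leaf 434347509356))
(.leaf 0))
(.node (.leaf 0)
(.leaf 118648995845)))
(.node (.node (.leaf 0)
(.leaf 0))
(.node (.leaf 0)
(.leaf 15377763121933752587842029162))))
(.node (.node (.node (.node (.leaf 0)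
(.leaf 364268685464))
(.leaf 0))
(.node (.leaf 0)
(.leaf 262817252972)))
(.node (.node (.leaf 0)
(.leaf 2147483649))
(.node (.leaf 0)
(.leaf 408835523398)))))
(.node (.node (.node (.node (.node (.leaf 0)
(.leaf 883743935110886461290601984249247810814084976))
(.leaf 0))
(.node (.leaf 0)
(.leaf 51088974911721701379)))
(.node (.node (.leaf 0)
(.leaf 0))
(.node (.leaf 0)
(.leaf 402124636998))))
(.node (.node (.node (.node (.leaf 0)
(.leaf 560245115095))
(.leaf 0))
(.node (.leaf 0)
(.leaf 326973326956)))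
(.node (.node (.leaf 0)
(.leaf 54761226244))
(.node (.leaf 0)
(.leaf 41366143560863843141))))))
(.node (.node (.node (.node (.node (.node (.leaf 0)
(.leaf 2032161194900205375119707589976537327385052669))
(.leaf 0))
(.node (.leaf 0)
(.leaf 148713897990)))
(.node (.node (.leaf 0)
(.leaf 0))
(.node (.leaf 0)
(.leaf 7063931425665254214))))
(.node (.node (.node (.node (.leaf 0)
(.leaf 13142442815686420306019516205164390072533294516997326610980836247841218004322471))
(.leaf 0))
(.node (.leaf 0)
(.leaf 292334929513)))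
(.node (.node (.leaf 0)
(.leaf 28454158337))
(.node (.leaf 0)
(.leaf 420120101703)))))
(.node (.node (.node (.node (.node (.leaf 0)
(.leaf 1968449792614978665028615404903037169864673396))
(.leaf 0))
(.node (.leaf 0)
(.leaf 16828847209963331914848731994)))
(.node (.node (.leaf 0)
(.leaf 0))
(.node (.leaf 0)
(.leaf 72754529097))))
(.node (.node (.node (.leaf 0)
(.leaf 0))
(.node (.leaf 0)
(.leaf 99439514957249773571)))
(.node (.node (.leaf 0)
(.leaf 91536621570))
(.node (.leaf 0)
(.leaf 168059208519)))))))))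
(.node (.node (.node (.node (.node (.node (.node (.node (.node (.leaf 0)
(.leaf 171817633388))
(.leaf 0))
(.node (.leaf 0)
(.leaf 100932255749)))
(.node (.node (.leaf 0)
(.leaf 0))
(.node (.leaf 0)
(.leaf 27392459973634941053045178372))))
(.node (.node (.node (.node (.leaf 0)
(.leaf 42543959133771959299032659331562239471623984755502946603258895697277826842341544581907022884595036334690304395084))
(.leaf 0))
(.node (.leaf 0)
(.leaf 240006005621)))
(.node (.node (.leaf 0)
(.leaf 0))
(.node (.leaf 0)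
(.leaf 20754874292871562054)))))
(.node (.node (.node (.node (.node (.leaf 0)
(.leaf 329645259506247080651760251485453523142463809019577180))
(.leaf 0))
(.node (.leaf 0)
(.leaf 160793362437)))
(.node (.node (.leaf 0)
(.leaf 0))
(.node (.leaf 0)
(.leaf 396487689033))))
(.node (.node (.node (.node (.leaf 0)
(.leaf 330984130749))
(.leaf 0))
(.node (.leaf 0)
(.leaf 299594483310)))
(.node (.node (.leaf 0)
(.leaf 35702177795))
(.node (.leaf 0)
(.leaf 141215531845))))))
(.node (.node (.node (.node (.node (.node (.leaf 0)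
(.leaf 187656898158))
(.leaf 0))
(.node (.leaf 0)
(.leaf 129654980614)))
(.node (.node (.leaf 0)
(.leaf 0))
(.node (.leaf 0)
(.leaf 3922385398226085574249831146814593166687752405106733942907780094927218281460706296412244545845090711446979782278122056996604388133981819761000425947469029759506438453812514683726286581194190802892120196592652209379304231121224177464751219522327548422707418603381535531574060452943434980483482113677627760872602757150026626347817283155883747926400751440696197970871221043104953332692982825801))))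
(.node (.node (.node (.node (.leaf 0)
(.leaf 39658206823668446062030908988373482249351126525337467896003502014466203))
(.leaf 0))
(.node (.leaf 0)
(.leaf 282402423622)))
(.node (.node (.leaf 0)
(.leaf 5368709121))
(.node (.leaf 0)
(.leaf 28612160522651895403)))))
(.node (.node (.node (.node (.node (.leaf 0)
(.leaf 113565987786436313875))
(.leaf 0))
(.node (.leaf 0)
(.leaf 52386011604404404227)))
(.node (.node (.leaf 0)
(.leaf 0))
(.node (.leaf 0)
(.leaf 16863729030182798148))))
(.node (.node (.node (.node (.leaf 0)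
(.leaf 96004762061738449745704680700936069353060657798114543127047763144557054163121887519893945045920953612798056278161813021445964886877542949680579531334486227))
(.leaf 0))
(.node (.leaf 0)
(.leaf 348437414724)))
(.node (.node (.leaf 0)
(.leaf 59055800321))
(.node (.leaf 0)
(.leaf 161348322119)))))))
(.node (.node (.node (.node (.node (.node (.node (.leaf 0)
(.leaf 178530092654))
(.leaf 0))
(.node (.leaf 0)
(.leaf 117038514182)))
(.node (.node (.leaf 0)
(.leaf 0))
(.node (.leaf 0)
(.leaf 52749501525878441748))))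
(.node (.node (.node (.node (.leaf 0)
(.leaf 4029065405089634038877158089446294115049957945985921336643549470527088580823413597014540589437202073936219619418790376440643455124))
(.leaf 0))
(.node (.leaf 0)
(.leaf 255837931116)))
(.node (.node (.leaf 0)
(.leaf 0))
(.node (.leaf 0)
(.leaf 83223315270)))))
(.node (.node (.node (.node (.node (.leaf 0)
(.leaf 14776445758303572782840630173001865656511341049978661100961110945441666825078808101209655486933354094134044343363810107959266222433561247398770611637974165913312341522208058363888132057962856563409349317829919606867106855005823312264532103178894522607066272299293590489809173420590332754474148759633))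
(.leaf 0))
(.node (.leaf 0)
(.leaf 185489424389)))
(.node (.node (.leaf 0)
(.leaf 0))
(.node (.leaf 0)
(.leaf 3772462525443403972614620777))))
(.node (.node (.node (.node (.leaf 0)
(.leaf 381794388178))
(.leaf 0))
(.node (.leaf 0)
(.leaf 325094278764)))
(.node (.node (.leaf 0)
(.leaf 14411518807854415876))
(.node (.leaf 0)
(.leaf 152490280556))))))
(.node (.node (.node (.node (.node (.node (.leaf 0)
(.leaf 39189658625188245492938835773))
(.leaf 0))
(.node (.leaf 0)
(.leaf 147640156166)))
(.node (.node (.leaf 0)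
(.leaf 0))
(.node (.leaf 0)
(.leaf 6631550676797031236))))
(.node (.node (.node (.node (.leaf 0)
(.leaf 11116427526726727656675087991675351729260326835789145203459953746128616126679195))
(.leaf 0))
(.node (.leaf 0)
(.leaf 290187445865)))
(.node (.node (.leaf 0)
(.leaf 25232932865))
(.node (.leaf 0)
(.leaf 112127123119112259181)))))
(.node (.node (.node (.node (.node (.leaf 0)
(.leaf 1404211907805044692616132814460320915504292808517720665134576160020638267188182233293292301824033316936639478332602328611509757935754216554725332054572228825558827939159542724014060791414343325571428316452213685433967501591342836056785336340178240867418368446595540075951686133031126624745682206817611698139988166010))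
(.leaf 0))
(.node (.leaf 0)
(.leaf 230067798855)))
(.node (.node (.leaf 0)
(.leaf 0))
(.node (.leaf 0)
(.leaf 71412351817))))
(.node (.node (.node (.leaf 0)
(.leaf 0))
(.node (.leaf 0)
(.leaf 365878050821)))
(.node (.node (.leaf 0)
(.leaf 89389400068))
(.node (.leaf 0)
(.leaf 166717031239))))))))
(.node (.node (.node (.node (.node (.node (.node (.node (.leaf 0)
(.leaf 46770427929067914053))
(.leaf 0))
(.node (.leaf 0)
(.leaf 111669280770)))
(.node (.node (.leaf 0)
(.leaf 0))
(.node (.leaf 0)
(.leaf 102839222965839069189))))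
(.node (.node (.node (.node (.leaf 0)
(.leaf 316285441508900441987208305356492110343971756913431297927237576814518908218425528083166239184579457004563040782870385705985697930896636245152237684))
(.leaf 0))
(.node (.leaf 0)
(.leaf 246181069698)))
(.node (.node (.leaf 0)
(.leaf 0))
(.node (.leaf 0)
(.leaf 21403392639212782404)))))
(.node (.node (.node (.node (.node (.leaf 0)
(.leaf 1263836920629120554057756144277356753907396691130990334895961598603395399523760896018075226003691805936642570210374462485247225935254187947547272056353620342187364362594653982578231008655623895128096813882009032887063675740))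
(.leaf 0))
(.node (.leaf 0)
(.leaf 172604653574)))
(.node (.node (.leaf 0)
(.leaf 0))
(.node (.leaf 0)
(.leaf 12180020602358137670))))
(.node (.node (.node (.node (.leaf 0)
(.leaf 486145657036))
(.leaf 0))
(.node (.leaf 0)
(.leaf 316773566061)))
(.node (.node (.leaf 0)
(.leaf 45634027521))
(.node (.leaf 0)
(.leaf 427636622956))))))
(.node (.node (.node (.node (.node (.node (.leaf 0)
(.leaf 30369250841746013259195484111))
(.leaf 0))
(.node (.leaf 0)
(.leaf 140929138693)))
(.node (.node (.leaf 0)
(.leaf 0))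
(.node (.leaf 0)
(.leaf 294846448197244894205955375922963034006900961787511623))))
(.node (.node (.node (.node (.leaf 0)
(.leaf 3868344852402109212994381523730827419))
(.leaf 0))
(.node (.leaf 0)
(.leaf 76824988953565267627)))
(.node (.node (.leaf 0)
(.leaf 11006115843))
(.node (.leaf 0)
(.leaf 29765293133759710827)))))
(.node (.node (.node (.node (.node (.leaf 0)
(.leaf 2069815480925199806191051030779469921526024041))
(.leaf 0))
(.node (.leaf 0)
(.leaf 115153084671061984876)))
(.node (.node (.leaf 0)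
(.leaf 0))
(.node (.leaf 0)
(.leaf 18161065005314016873))))
(.node (.node (.node (.node (.leaf 0)
(.leaf 142389694305182222567))
(.leaf 0))
(.node (.leaf 0)
(.leaf 354075084393)))
(.node (.node (.leaf 0)
(.leaf 73820012547))
(.node (.leaf 0)
(.leaf 164032545605)))))))
(.node (.node (.node (.node (.node (.node (.node (.leaf 0)
(.leaf 49076270938281608005))
(.leaf 0))
(.node (.leaf 0)
(.leaf 119722737669)))
(.node (.node (.leaf 0)
(.leaf 0))
(.node (.leaf 0)
(.leaf 22336731590307120740552930684312961095155573021108111580553588435464950510666305876380710421702040776694981056977023938772958235609896940916986323065929476749786770476231983751032601521033406841393512999415600955961105885024809481776368205524132389377843455767309607617114999876438739403372146491889640387854162307677698060912192297443160819210827518088462229453229698633679620735814))))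
(.node (.node (.node (.node (.leaf 0)
(.leaf 106887671626023952954863187434604664134294443275671969059179144452526896236555067190203911155668200495550479977965565802937004541082320672526079440894929457858113506153652022121189829773467))
(.leaf 0))
(.node (.leaf 0)
(.leaf 265771615854)))
(.node (.node (.leaf 0)
(.leaf 3221225473))
(.node (.leaf 0)
(.leaf 23925672528348251753)))))
(.node (.node (.node (.node (.node (.leaf 0)
(.leaf 13497257508813134326410881991582896013063238143368357964224202382203426949760289))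
(.leaf 0))
(.node (.leaf 0)
(.leaf 51521320475949268995)))
(.node (.node (.leaf 0)
(.leaf 0))
(.node (.leaf 0)
(.leaf 15782900304254403396))))
(.node (.node (.node (.node (.leaf 0)
(.leaf 321068140762))
(.leaf 0))
(.node (.leaf 0)
(.leaf 332073469547)))
(.node (.node (.leaf 0)
(.leaf 55834968068))
(.node (.leaf 0)
(.leaf 156785247852))))))
(.node (.node (.node (.node (.node (.node (.leaf 0)
(.leaf 37003051827242187021540526118))
(.leaf 0))
(.node (.leaf 0)
(.leaf 149787639814)))
(.node (.node (.leaf 0)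
(.leaf 0))
(.node (.leaf 0)
(.leaf 7568334583930618692))))
(.node (.node (.node (.node (.leaf 0)
(.leaf 498226235580))
(.leaf 0))
(.node (.leaf 0)
(.leaf 293677106793)))
(.node (.node (.leaf 0)
(.leaf 32749518852))
(.node (.leaf 0)
(.leaf 129404700267)))))
(.node (.node (.node (.node (.node (.leaf 0)
(.leaf 163231641116449332568791551832070158482193257822900461690579828078283062369713991525081841797060))
(.leaf 0))
(.node (.leaf 0)
(.leaf 234635592538)))
(.node (.node (.leaf 0)
(.leaf 0))
(.node (.leaf 0)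
(.leaf 407225107273))))
(.node (.node (.node (.leaf 0)
(.leaf 0))
(.node (.leaf 0)
(.leaf 372588675075)))
(.node (.node (.leaf 0)
(.leaf 24860045866556325890))
(.node (.leaf 0)
(.leaf 169132950343))))))))))
(.node (.node (.node (.node (.node (.node (.node (.node (.node (.node (.leaf 0)
(.leaf 432736765547))
(.leaf 0))
(.node (.leaf 0)
(.leaf 94220976130)))
(.node (.node (.leaf 0)
(.leaf 0))
(.node (.leaf 0)
(.leaf 27297738751484766836079591428))))
(.node (.node (.node (.node (.leaf 0)
(.leaf 5786740379850206569132829914567163015774725282087739239159269973972007328200302717371848709979987993850372140594530233494356494210202067768576082015978678909692503539495931373575262749623111462172742956816155110330056611222526256230076035593926578124416952952950126552308752750415097021401230502781747572989894603854758305948326121859609742713562226397056209742473866911355082508854366225290796034698250137190656474549882622270293954662776447408667518994466860255533673115499405249355626192231638274474188510272740885455392745981612619529991830355016842871000068536036212896658716941190548857318410244023976937))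
(.leaf 0))
(.node (.leaf 0)
(.leaf 64277661091796288372)))
(.node (.node (.leaf 0)
(.leaf 0))
(.node (.leaf 0)
(.leaf 20394586322681791300)))))
(.node (.node (.node (.node (.node (.leaf 0)
(.leaf 167027964258650556067563105540197249196298505006151955364054535))
(.leaf 0))
(.node (.leaf 0)
(.leaf 158377443333)))
(.node (.node (.leaf 0)
(.leaf 0))
(.node (.leaf 0)
(.leaf 33294517065))))
(.node (.node (.node (.node (.leaf 0)
(.leaf 324273244349))
(.leaf 0))
(.node (.leaf 0)
(.leaf 298788390509)))
(.node (.node (.leaf 0)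
(.leaf 35165306883))
(.node (.leaf 0)
(.leaf 37330918294739878725))))))
(.node (.node (.node (.node (.node (.node (.leaf 0)
(.leaf 186850018924))
(.leaf 0))
(.node (.leaf 0)
(.leaf 126701666306)))
(.node (.node (.leaf 0)
(.leaf 0))
(.node (.leaf 0)
(.leaf 25559701205807816899149361948195081331480896563502533713022867311613935360101115864354464603307647541001283181991744749015793967784684070386252558750648060906374764))))
(.node (.node (.node (.node (.leaf 0)
(.leaf 15994245283053329845418025441026216691877083787727286206985375487865420205458810))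
(.leaf 0))
(.node (.leaf 0)
(.leaf 279461824110)))
(.node (.node (.leaf 0)
(.leaf 1297142246872711169))
(.node (.leaf 0)
(.leaf 102292521799)))))
(.node (.node (.node (.node (.node (.leaf 0)
(.leaf 4296223862376439846709884804883647611828127052456199345148947519153150423871372780482643114209805005222101816390366035185915022286495677224395968304236566299254134861326541651264052970027124458258318622381247132954918213124595414269186443719749054658883475892035649794498658739758232778631295542596784019875198498085456952088082355193289812263576646878167132427323879886651347601831654899250261707985269358036128953834077169527283328457622418172496419021879807343014522195302917847087746745171354219943372338295589206625856349068949223918967997451812916924022666624194367989417987499510572041208694521669583501060802658))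
(.leaf 0))
(.node (.leaf 0)
(.leaf 52025723634214764547)))
(.node (.node (.leaf 0)
(.leaf 0))
(.node (.leaf 0)
(.leaf 62285218628))))
(.node (.node (.node (.node (.leaf 0)
(.leaf 5848314087795859835184312426439404943844140519014365591615109855220265402032408345191877765510923019764037914559951507758468359972315054545346172992668281467463634646353767330105713488990332262381380557710520240521524178429288341451298992587619871182341681244609514175810642673498068323316258972925984180416))
(.leaf 0))
(.node (.leaf 0)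
(.leaf 93253416704620824227)))
(.node (.node (.leaf 0)
(.leaf 57445580804))
(.node (.leaf 0)
(.leaf 42807295441622401861)))))))
(.node (.node (.node (.node (.node (.node (.node (.leaf 0)
(.leaf 433810638444))
(.leaf 0))
(.node (.leaf 0)
(.leaf 114890899461)))
(.node (.node (.leaf 0)
(.leaf 0))
(.node (.leaf 0)
(.leaf 152259954897406999959930542187857214585729355756776601635718763))))
(.node (.node (.node (.node (.leaf 0)
(.leaf 149872289638425552443679568599787644855922396905646954648013133215690097300003340434725972028971589957452409898840441813752253873045175917262543747600929985997613700847810230921448814126648371447949))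
(.leaf 0))
(.node (.leaf 0)
(.leaf 250470008429)))
(.node (.node (.leaf 0)
(.leaf 0))
(.node (.leaf 0)
(.leaf 408567087942)))))
(.node (.node (.node (.node (.node (.leaf 0)
(.leaf 15745427768176019801524799459))
(.leaf 0))
(.node (.leaf 0)
(.leaf 182268329990)))
(.node (.node (.leaf 0)
(.leaf 0))
(.node (.leaf 0)
(.leaf 107440424018306729577))))
(.node (.node (.node (.node (.leaf 0)
(.leaf 379109640401))
(.leaf 0))
(.node (.leaf 0)
(.leaf 324022109806)))
(.node (.node (.leaf 0)
(.leaf 51808436228))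
(.node (.leaf 0)
(.leaf 40645532435844170567))))))
(.node (.node (.node (.node (.node (.node (.leaf 0)
(.leaf 113205594257761436418))
(.leaf 0))
(.node (.leaf 0)
(.leaf 39487596717694124038)))
(.node (.node (.leaf 0)
(.leaf 0))
(.node (.leaf 0)
(.leaf 24167383876))))
(.node (.node (.node (.node (.leaf 0)
(.leaf 32078395137193001164983190740146252398371826224469795462581973546521534745072677037480702780942860463528097776483142169968220179710698581904016043913445261245957850197789932876439263487725212811544488380583))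
(.leaf 0))
(.node (.leaf 0)
(.leaf 288039437124)))
(.node (.node (.leaf 0)
(.leaf 22548578305))
(.node (.leaf 0)
(.leaf 31206445014519187053)))))
(.node (.node (.node (.node (.node (.leaf 0)
(.leaf 14324985446004313886426047061281043114228640394958219761134847714242219086527399525682371485560638619541102119907495691493054082926066105532623234178578057624918068534079130322338871838703882553623333767010))
(.leaf 0))
(.node (.leaf 0)
(.leaf 229534401362)))
(.node (.node (.leaf 0)
(.leaf 0))
(.node (.leaf 0)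
(.leaf 70606914376))))
(.node (.node (.node (.leaf 0)
(.leaf 0))
(.node (.leaf 0)
(.leaf 363748853355)))
(.node (.node (.leaf 0)
(.leaf 87510351876))
(.node (.leaf 0)
(.leaf 166180160327))))))))
(.node (.node (.node (.node (.node (.node (.node (.node (.leaf 0)
(.leaf 173696550507))
(.leaf 0))
(.node (.leaf 0)
(.leaf 109790232578)))
(.node (.node (.leaf 0)
(.leaf 0))
(.node (.leaf 0)
(.leaf 7394734594801267618763544905640443910))))
(.node (.node (.node (.node (.leaf 0)
(.leaf 968384257777146620684697365009658033155789413511728896360296117804683069925691787381174956516398656811808411525942380006618104514980762611018237704601676343694155758208595613515106473108888920452564373075284898813058160208316380977708992492893457028715842891653226244999284))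
(.leaf 0))
(.node (.leaf 0)
(.leaf 245375763330)))
(.node (.node (.leaf 0)
(.leaf 0))
(.node (.leaf 0)
(.leaf 21259242266496533318)))))
(.node (.node (.node (.node (.node (.leaf 0)
(.leaf 46097569558156045196981204830151430301778881819960185166447311414254041940187015029303855412903198355265705972224591764839051203593715766012684045533664219033177839291243935289211344901805207841214373842494767393439436223389234963678020619543125359688218562875818424057916037277003309975200308449373634183675178715564646886982707506121565970338834660537103589560262212783353754834590718388564659577386077765014551238258328412))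
(.leaf 0))
(.node (.leaf 0)
(.leaf 168309555205)))
(.node (.node (.leaf 0)
(.leaf 0))
(.node (.leaf 0)
(.leaf 398366540614))))
(.node (.node (.node (.node (.leaf 0)
(.leaf 518089607370))
(.leaf 0))
(.node (.leaf 0)
(.leaf 315143225345)))
(.node (.node (.leaf 0)
(.leaf 43754979329))
(.node (.leaf 0)
(.leaf 10581940324118827288724505415))))))
(.node (.node (.node (.node (.node (.node (.leaf 0)
(.leaf 39518495893938485734560106393))
(.leaf 0))
(.node (.leaf 0)
(.leaf 138513350662)))
(.node (.node (.leaf 0)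
(.leaf 0))
(.node (.leaf 0)
(.leaf 161604009305463620507936442810753032290057205176211243559355204))))
(.node (.node (.node (.node (.leaf 0)
(.leaf 299320805543))
(.leaf 0))
(.node (.leaf 0)
(.leaf 285355213638)))
(.node (.node (.leaf 0)
(.leaf 6979321857))
(.node (.leaf 0)
(.leaf 29260467762491949893)))))
(.node (.node (.node (.node (.node (.leaf 0)
(.leaf 209612012889780547397851776885040821918404998339139605105217191702188587008066458526383400400698610841021089499511994717824598982925945949028305624547992074832767622739559957778397037858211178723329987407018081364414067209678928973123777034971876581387067310785591034543709280832075178219008071532363502592379458355261668963261129201990535346366191774111738613893858885436878386908711239931914115019021895401620472664969438182519919458058201783257806936892406624365887255225491070090844544156732373307807404817129344520403362065626000765028387))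
(.leaf 0))
(.node (.leaf 0)
(.leaf 435679134536)))
(.node (.node (.leaf 0)
(.leaf 0))
(.node (.leaf 0)
(.leaf 17800477752675992390))))
(.node (.node (.node (.node (.leaf 0)
(.leaf 398222173235682162747938823478267269855918875230924399222290406698472266489228667440307881108958738996153939845561145426611787681291177173107039612701252915947520432620675818241278546597064963912339365947743704396661459174))
(.leaf 0))
(.node (.leaf 0)
(.leaf 94342126748985394921)))
(.node (.node (.leaf 0)
(.leaf 69256740868))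
(.node (.leaf 0)
(.leaf 163495674693)))))))
(.node (.node (.node (.node (.node (.node (.node (.leaf 0)
(.leaf 182018049643))
(.leaf 0))
(.node (.leaf 0)
(.leaf 119185866757)))
(.node (.node (.leaf 0)
(.leaf 0))
(.node (.leaf 0)
(.leaf 152360437566153110509950891270540984187214109456667047431833196))))
(.node (.node (.node (.node (.leaf 0)
(.leaf 364072536218))
(.leaf 0))
(.node (.leaf 0)
(.leaf 264964736620)))
(.node (.node (.leaf 0)
(.leaf 2684354561))
(.node (.leaf 0)
(.leaf 109818324621558351465)))))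
(.node (.node (.node (.node (.node (.leaf 0)
(.leaf 867250374001540771442019233609231079867076334816660077765903396768422500737062236212051151423566))
(.leaf 0))
(.node (.leaf 0)
(.leaf 51233090099797557251)))
(.node (.node (.leaf 0)
(.leaf 0))
(.node (.leaf 0)
(.leaf 403466814278))))
(.node (.node (.node (.node (.leaf 0)
(.leaf 526958135514))
(.leaf 0))
(.node (.leaf 0)
(.leaf 328833957893)))
(.node (.node (.leaf 0)
(.leaf 55298097156))
(.node (.leaf 0)
(.leaf 41870511534488814405))))))
(.node (.node (.node (.node (.node (.node (.leaf 0)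
(.leaf 10602955438062520768041285354634217291))
(.leaf 0))
(.node (.leaf 0)
(.leaf 149250768902)))
(.node (.node (.leaf 0)
(.leaf 0))
(.node (.leaf 0)
(.leaf 392997700420))))
(.node (.node (.node (.node (.leaf 0)
(.leaf 83410959707708148786457569580624476573762516779728977869145809014688977297272599112878597423592928873497364893157386212384205100188967723973190190846596089341049222280103551302623096293967661072590057592118351293192994594697532572234482657232160341918652703586272014211300347843294486304547636622283822709091998029463675668459751593))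
(.leaf 0))
(.node (.leaf 0)
(.leaf 293150459500)))
(.node (.node (.leaf 0)
(.leaf 30601641985))
(.node (.leaf 0)
(.leaf 121083003719)))))
(.node (.node (.node (.node (.node (.leaf 0)
(.leaf 2807171267222347265978758781650593349077190596347717801583239109805659084773103892957076))
(.leaf 0))
(.node (.leaf 0)
(.leaf 62836509211036156762)))
(.node (.node (.leaf 0)
(.leaf 0))
(.node (.leaf 0)
(.leaf 73291400009))))
(.node (.node (.node (.leaf 0)
(.leaf 0))
(.node (.leaf 0)
(.leaf 7186687777458747379769063660136431619)))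
(.node (.node (.leaf 0)
(.leaf 92073492482))
(.node (.leaf 0)
(.leaf 168596079431)))))))))
(.node (.node (.node (.node (.node (.node (.node (.node (.node (.leaf 0)
(.leaf 433005332076))
(.leaf 0))
(.node (.leaf 0)
(.leaf 104689958914)))
(.node (.node (.leaf 0)
(.leaf 0))
(.node (.leaf 0)
(.leaf 7363532642733642398489170892338626564))))
(.node (.node (.node (.node (.leaf 0)
(.leaf 6060876038048922965612201337510651409748037715120000474166317433749011199175420845353877616197776816182388530328131134796669096668743964326147093835985067397563262824468845454496479304218029547978379854611605094720774732826610802862190028083958677658450258027835893978924027546949565149625173650686718947931424993112557933513035383663327422252522639724726104402406196616502476854971824083965548926456034177940119086695640890964772923))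
(.leaf 0))
(.node (.leaf 0)
(.leaf 242674041672)))
(.node (.node (.leaf 0)
(.leaf 0))
(.node (.leaf 0)
(.leaf 78123041606)))))
(.node (.node (.node (.node (.node (.leaf 0)
(.leaf 2092695358718912781885692597157542865699074196938616099206629951172330145316146400983267589823666207867398335931315511854737503019072393324501676369405092629986584329015290015482790174945214196479810973376454281592428272442485732387738686847544395673153823456516220135512186807492181614016605155006729739788133092910601846969399967250588352628364912088974172))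
(.leaf 0))
(.node (.leaf 0)
(.leaf 162135670790)))
(.node (.node (.leaf 0)
(.leaf 0))
(.node (.leaf 0)
(.leaf 42689430340))))
(.node (.node (.node (.node (.leaf 0)
(.leaf 271127087295))
(.leaf 0))
(.node (.leaf 0)
(.leaf 300119163718)))
(.node (.node (.leaf 0)
(.leaf 37581357060))
(.node (.leaf 0)
(.leaf 142020969287))))))
(.node (.node (.node (.node (.node (.node (.leaf 0)
(.leaf 50517458003680691013))
(.leaf 0))
(.node (.leaf 0)
(.leaf 131801939970)))
(.node (.node (.leaf 0)
(.leaf 0))
(.node (.leaf 0)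
(.leaf 612849151857045441599495966518746228663901341567013143484642490064176350358206274660584220787528))))
(.node (.node (.node (.node (.leaf 0)
(.leaf 679452570513836880863292534402700286500906254930217112))
(.leaf 0))
(.node (.leaf 0)
(.leaf 283207729990)))
(.node (.node (.leaf 0)
(.leaf 5905580033))
(.node (.leaf 0)
(.leaf 28756029419586061127)))))
(.node (.node (.node (.node (.node (.leaf 0)
(.leaf 1020286655528947802148233357508247579522082872740562461391950669558701816748805354184048061162046250836054911923189061950205875908712785732744130165451273657567552100458662134974061196137561330464002281050208007385847501054557451574255665417756868203875253498957088673402435709699103864094307086212671718588840229928796270765610872717811974336242456646105086686501393697094517926018069329893894309544417267877590203834567141839046749225419520069286285083298435748638962302993286052104693479692836540253299308332197438270448730196101870851812557037931138290285568870682933856353))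
(.leaf 0))
(.node (.leaf 0)
(.leaf 52530126792480260099)))
(.node (.node (.leaf 0)
(.leaf 0))
(.node (.leaf 0)
(.leaf 63628707434))))
(.node (.node (.node (.node (.leaf 0)
(.leaf 149957307378087168230))
(.leaf 0))
(.node (.leaf 0)
(.leaf 349779723078)))
(.node (.node (.leaf 0)
(.leaf 64961642499))
(.node (.leaf 0)
(.leaf 11703823484721203162851705669)))))))
(.node (.node (.node (.node (.node (.node (.node (.leaf 0)
(.leaf 434078942827))
(.leaf 0))
(.node (.leaf 0)
(.leaf 118112124933)))
(.node (.node (.leaf 0)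
(.leaf 0))
(.node (.leaf 0)
(.leaf 31490742002839060496315974473))))
(.node (.node (.node (.node (.leaf 0)
(.leaf 31749316646143993963805360093034323619431168717607557905693392838591285333799385286989798913773673471401859138214326334075469403155274703947365123244607179264639353736508103759182965494932211683555800388051293178259059643553858508657142029795614868135223396691449906511411908941123156838542))
(.leaf 0))
(.node (.leaf 0)
(.leaf 68967439050909091477)))
(.node (.node (.leaf 0)
(.leaf 0))
(.node (.leaf 0)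
(.leaf 86712976198)))))
(.node (.node (.node (.node (.node (.leaf 0)
(.leaf 1384633982529094874648218565959202838255984807164577276565286912587737119504308387460898463700020490302027104431950436016006588940791580082))
(.leaf 0))
(.node (.leaf 0)
(.leaf 3670966555606210628835348605416243203)))
(.node (.node (.leaf 0)
(.leaf 0))
(.node (.leaf 0)
(.leaf 53427176265))))
(.node (.node (.node (.node (.leaf 0)
(.leaf 2182946989296804807899064130238210392679187762985586295982868731601377032417988184801973837286194269168173277029934935722075118725607036843962078479405117395687759639307874661295364184709995340705413080873955951996884101727166580714565412500736370364049651583357098763152078090344096667897548595957982811809502538194307450700415409686991918525537490232150217))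
(.leaf 0))
(.node (.leaf 0)
(.leaf 87566074076134966997)))
(.node (.node (.leaf 0)
(.leaf 54224355332))
(.node (.leaf 0)
(.leaf 153564808813))))))
(.node (.node (.node (.node (.node (.node (.leaf 0)
(.leaf 108880344215994107755))
(.leaf 0))
(.node (.leaf 0)
(.leaf 148177027078)))
(.node (.node (.leaf 0)
(.leaf 0))
(.node (.leaf 0)
(.leaf 392460960582))))
(.node (.node (.node (.node (.leaf 0)
(.leaf 439716808666))
(.leaf 0))
(.node (.leaf 0)
(.leaf 291261187689)))
(.node (.node (.leaf 0)
(.leaf 26575110145))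
(.node (.leaf 0)
(.leaf 8473573694710914008036934471)))))
(.node (.node (.node (.node (.node (.leaf 0)
(.leaf 226139330287837420674605758380336881492184269270096935340171566416576574683514752459038100782183112567839719465486120176367542503523320988740093844))
(.leaf 0))
(.node (.leaf 0)
(.leaf 232756544346)))
(.node (.node (.leaf 0)
(.leaf 0))
(.node (.leaf 0)
(.leaf 72217658185))))
(.node (.node (.node (.leaf 0)
(.leaf 0))
(.node (.leaf 0)
(.leaf 98662873188694296275)))
(.node (.node (.leaf 0)
(.leaf 90999750658))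
(.node (.leaf 0)
(.leaf 167253902151))))))))
(.node (.node (.node (.node (.node (.node (.node (.node (.leaf 0)
(.leaf 176112600684))
(.leaf 0))
(.node (.leaf 0)
(.leaf 113548853254)))
(.node (.node (.leaf 0)
(.leaf 0))
(.node (.leaf 0)
(.leaf 27644464340862622917356357317))))
(.node (.node (.node (.node (.leaf 0)
(.leaf 82911340051083486826844770264843957481304013694420751970948422102198497410510310195957471943701520656704074605202936460957051718734441733174500470670887054))
(.leaf 0))
(.node (.leaf 0)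
(.leaf 246710797127)))
(.node (.node (.leaf 0)
(.leaf 0))
(.node (.leaf 0)
(.leaf 21763645424761897796)))))
(.node (.node (.node (.node (.node (.leaf 0)
(.leaf 10540612364250849792085811449021204325))
(.leaf 0))
(.node (.leaf 0)
(.leaf 174483177474)))
(.node (.node (.leaf 0)
(.leaf 0))
(.node (.leaf 0)
(.leaf 12900596542737285956))))
(.node (.node (.node (.node (.leaf 0)
(.leaf 289925302477))
(.leaf 0))
(.node (.leaf 0)
(.leaf 85403537012288325325)))
(.node (.node (.leaf 0)
(.leaf 49392517124))
(.node (.leaf 0)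
(.leaf 428710364780))))))
(.node (.node (.node (.node (.node (.node (.leaf 0)
(.leaf 562119967091))
(.leaf 0))
(.node (.leaf 0)
(.leaf 142807793666)))
(.node (.node (.leaf 0)
(.leaf 0))
(.node (.leaf 0)
(.leaf 2496762137149133489569585031840651653673897815727229265431606918852139784261495489927636582539121442526480014975318315869600219976))))
(.node (.node (.node (.node (.leaf 0)
(.leaf 40668320058155476193042080922663490743002760232810361615339811241726605799586480989347168347886771971652474728477604737687523625446578910511825386841172148023808711691720834247780425328410510999153316633147756187848023427723094077915802241569851544))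
(.leaf 0))
(.node (.leaf 0)
(.leaf 286697390918)))
(.node (.node (.leaf 0)
(.leaf 16911695875))
(.node (.leaf 0)
(.leaf 29908950924192908103)))))
(.node (.node (.node (.node (.node (.leaf 0)
(.leaf 357757754343239956885895552127657958771214186515435872081527429710955625542504723806989847496595))
(.leaf 0))
(.node (.leaf 0)
(.leaf 227117564746)))
(.node (.node (.leaf 0)
(.leaf 0))
(.node (.leaf 0)
(.leaf 4933021867468424647004194409))))
(.node (.node (.node (.leaf 0)
(.leaf 0))
(.node (.leaf 0)
(.leaf 25574499994611486145739489285)))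
(.node (.node (.leaf 0)
(.leaf 78920417284))
(.node (.leaf 0)
(.leaf 164569416517)))))))
(.node (.node (.node (.node (.node (.node (.node (.leaf 0)
(.leaf 184704108142))
(.leaf 0))
(.node (.leaf 0)
(.leaf 120259608581)))
(.node (.node (.leaf 0)
(.leaf 0))
(.node (.leaf 0)
(.leaf 5435977580270770450509988681))))
(.node (.node (.node (.node (.leaf 0)
(.leaf 7185770981520036939809867255224461543365288955168480398400592848404484138605017035699566937760352084174313808880752061882571725206203477371901520761052581422471062508800158))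
(.leaf 0))
(.node (.leaf 0)
(.leaf 271675623020)))
(.node (.node (.leaf 0)
(.leaf 3758096385))
(.node (.leaf 0)
(.leaf 89934398281)))))
(.node (.node (.node (.node (.node (.leaf 0)
(.leaf 2913097115121493033473811549935149972483670674))
(.leaf 0))
(.node (.leaf 0)
(.leaf 51665435664025124867)))
(.node (.node (.leaf 0)
(.leaf 0))
(.node (.leaf 0)
(.leaf 59869430598))))
(.node (.node (.node (.node (.leaf 0)
(.leaf 347636435163))
(.leaf 0))
(.node (.leaf 0)
(.leaf 337442178667)))
(.node (.node (.leaf 0)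
(.leaf 56371838980))
(.node (.leaf 0)
(.leaf 42303314496359302764))))))
(.node (.node (.node (.node (.node (.node (.leaf 0)
(.leaf 27599349852435602689974894204973412955231375860612563234737601589213883618654112571129760374028674530740608839113739677797290117647727004354010354877485492841712887142342998863145509523473416203503202758400826535331810521060889268625489876240526028387298727879534704405313413411209557903199))
(.leaf 0))
(.node (.leaf 0)
(.leaf 150324510726)))
(.node (.node (.leaf 0)
(.leaf 0))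
(.node (.leaf 0)
(.leaf 8000644963517793094))))
(.node (.node (.node (.node (.leaf 0)
(.leaf 510037395644))
(.leaf 0))
(.node (.leaf 0)
(.leaf 294482413161)))
(.node (.node (.leaf 0)
(.leaf 34091565059))
(.node (.leaf 0)
(.leaf 35313305661678027591)))))
(.node (.node (.node (.node (.node (.leaf 0)
(.leaf 2981675407477512054998627839768051059278381609775339748638790815941539115131936985253524902944044364380012050062072846278357112192137647093856068869992795582241059078932372))
(.leaf 0))
(.node (.leaf 0)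
(.leaf 236783207259)))
(.node (.node (.leaf 0)
(.leaf 0))
(.node (.leaf 0)
(.leaf 74365141833))))
(.node (.node (.node (.leaf 0)
(.leaf 0))
(.node (.leaf 0)
(.leaf 376891704134)))
(.node (.node (.leaf 0)
(.leaf 93147234306))
(.node (.leaf 0)
(.leaf 169669821255)))))))))))
(.node (.node (.node (.node (.node (.node (.node (.node (.node (.node (.node (.leaf 0)
(.leaf 171012195947))
(.leaf 0))
(.node (.leaf 0)
(.leaf 93952540674)))
(.node (.node (.leaf 0)
(.leaf 0))
(.node (.leaf 0)
(.leaf 27239681977800146676093419524))))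
(.node (.node (.node (.node (.leaf 0)
(.leaf 148943879431604116448319380566248382643386704466318337535903640))
(.leaf 0))
(.node (.leaf 0)
(.leaf 239200568180)))
(.node (.node (.leaf 0)
(.leaf 0))
(.node (.leaf 0)
(.leaf 75170448201)))))
(.node (.node (.node (.node (.node (.leaf 0)
(.leaf 108135615823383765674274037554361626231219465792510101932113444427330279215213071876497439709441429675598398230886148371334233210638152547807569616265465783337254675068415117889729097472725045845260892344811933511288004720646078526201755108360306464906543822424015194537600429004756485185504235484889278519405759845794402118539084871))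
(.leaf 0))
(.node (.leaf 0)
(.leaf 156498001922)))
(.node (.node (.leaf 0)
(.leaf 0))
(.node (.leaf 0)
(.leaf 2341094355019683029762508393))))
(.node (.node (.node (.node (.leaf 0)
(.leaf 321857325245))
(.leaf 0))
(.node (.leaf 0)
(.leaf 298508550982)))
(.node (.node (.leaf 0)
(.leaf 34896871427))
(.node (.leaf 0)
(.leaf 423878526572))))))
(.node (.node (.node (.node (.node (.node (.leaf 0)
(.leaf 50085534652455519852))
(.leaf 0))
(.node (.leaf 0)
(.leaf 124822618114)))
(.node (.node (.leaf 0)
(.leaf 0))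
(.node (.leaf 0)
(.leaf 963677137686747498198619857739918399879263466272039618480038396559044110554834935743303))))
(.node (.node (.node (.node (.leaf 0)
(.leaf 539574862637))
(.leaf 0))
(.node (.leaf 0)
(.leaf 277312636523)))
(.node (.node (.leaf 0)
(.leaf 4563402753))
(.node (.leaf 0)
(.leaf 99876471621)))))
(.node (.node (.node (.node (.node (.leaf 0)
(.leaf 21162517142385778501032841525396409766689473791271210595833803759259183742938844070139899975741840391543503642545016801377))
(.leaf 0))
(.node (.leaf 0)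
(.leaf 51953666040176836611)))
(.node (.node (.leaf 0)
(.leaf 0))
(.node (.leaf 0)
(.leaf 16287303462520030022))))
(.node (.node (.node (.node (.leaf 0)
(.leaf 8840766064023204040731658465))
(.leaf 0))
(.node (.leaf 0)
(.leaf 93108984856658249377)))
(.node (.node (.leaf 0)
(.leaf 57177145348))
(.node (.leaf 0)
(.leaf 159202739822)))))))
(.node (.node (.node (.node (.node (.node (.node (.leaf 0)
(.leaf 177186342508))
(.leaf 0))
(.node (.leaf 0)
(.leaf 114622070786)))
(.node (.node (.leaf 0)
(.leaf 0))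
(.node (.leaf 0)
(.leaf 103619400986383942467))))
(.node (.node (.node (.node (.leaf 0)
(.leaf 209053551202311146957250855112044928706802995770110343980313319841523999905629392686411522106101184415798676899323259183463918942961437536406123717780649519464105299940616565670675959995917251457224340991501157924609476111335668996131619789746324289395882351967164927041888329132991211762171521260653954248290332081497695414925528466795740707458823971408146617349318386970090181787202607107327461262488294802466633746102705074795849963960788562230422217861028530024534639549369119637206757415169500173011742489154093505498977364899547846543501))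
(.leaf 0))
(.node (.leaf 0)
(.leaf 249663784555)))
(.node (.node (.leaf 0)
(.leaf 0))
(.node (.leaf 0)
(.leaf 22052175083361731398)))))
(.node (.node (.node (.node (.node (.leaf 0)
(.leaf 716122923869660683770308623494763263940323030458566628))
(.leaf 0))
(.node (.leaf 0)
(.leaf 181194588166)))
(.node (.node (.leaf 0)
(.leaf 0))
(.node (.leaf 0)
(.leaf 13404999701002912582))))
(.node (.node (.node (.node (.leaf 0)
(.leaf 34858984211995292655493777615))
(.leaf 0))
(.node (.leaf 0)
(.leaf 320262309483)))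
(.node (.node (.leaf 0)
(.leaf 51271434243))
(.node (.leaf 0)
(.leaf 40573474841806111557))))))
(.node (.node (.node (.node (.node (.node (.leaf 0)
(.leaf 4065687602136702217380447179176806341))
(.leaf 0))
(.node (.leaf 0)
(.leaf 146297847813)))
(.node (.node (.leaf 0)
(.leaf 0))
(.node (.leaf 0)
(.leaf 15309341513))))
(.node (.node (.node (.node (.leaf 0)
(.leaf 15804221160127418631399999665))
(.leaf 0))
(.node (.leaf 0)
(.leaf 287771132742)))
(.node (.node (.leaf 0)
(.leaf 20132659201))
(.node (.leaf 0)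
(.leaf 115714294599)))))
(.node (.node (.node (.node (.node (.leaf 0)
(.leaf 35959959007856363563))
(.leaf 0))
(.node (.leaf 0)
(.leaf 229265965906)))
(.node (.node (.leaf 0)
(.leaf 0))
(.node (.leaf 0)
(.leaf 70338478920))))
(.node (.node (.node (.leaf 0)
(.leaf 0))
(.node (.leaf 0)
(.leaf 363480548972)))
(.node (.node (.leaf 0)
(.leaf 82410078212))
(.node (.leaf 0)
(.leaf 432199697223))))))))
(.node (.node (.node (.node (.node (.node (.node (.node (.leaf 0)
(.leaf 173429032557))
(.leaf 0))
(.node (.leaf 0)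
(.leaf 108717015046)))
(.node (.node (.leaf 0)
(.leaf 0))
(.node (.leaf 0)
(.leaf 27528086340032608008801878021))))
(.node (.node (.node (.node (.leaf 0)
(.leaf 2308158103489320260741505411085334950244190050))
(.leaf 0))
(.node (.leaf 0)
(.leaf 65718777787915371393)))
(.node (.node (.leaf 0)
(.leaf 0))
(.node (.leaf 0)
(.leaf 407761781574)))))
(.node (.node (.node (.node (.node (.leaf 0)
(.leaf 20855323455838879794260319120877258691184995026676626806672025977969984545194532124817204429117967744478772785522853720667457162836253709590209785646397820023629196471901209709043098599147419065573248325156712990153630357441903060787889639235590637107560422764430195997813540859729247601549003458641407181480338638643857302829308631185534178958217077769794732775389669754851))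
(.leaf 0))
(.node (.leaf 0)
(.leaf 165624807426)))
(.node (.node (.leaf 0)
(.leaf 0))
(.node (.leaf 0)
(.leaf 44568609606))))
(.node (.node (.node (.node (.leaf 0)
(.leaf 2567394738422470665941161660780130516512344252))
(.leaf 0))
(.node (.leaf 0)
(.leaf 22615720165462918609305075713)))
(.node (.node (.leaf 0)
(.leaf 42950066180))
(.node (.leaf 0)
(.leaf 146047501127))))))
(.node (.node (.node (.node (.node (.node (.leaf 0)
(.leaf 4096950429519148611710948425338323599))
(.leaf 0))
(.node (.leaf 0)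
(.leaf 137976348677)))
(.node (.node (.leaf 0)
(.leaf 0))
(.node (.leaf 0)
(.leaf 223609487429))))
(.node (.node (.node (.node (.leaf 0)
(.leaf 289657129127))
(.leaf 0))
(.node (.leaf 0)
(.leaf 284549776196)))
(.node (.node (.leaf 0)
(.leaf 6710886401))
(.node (.leaf 0)
(.leaf 415020156524)))))
(.node (.node (.node (.node (.node (.leaf 0)
(.leaf 5876515707724096785372744760773787871673573805020779572816098939517608885355961))
(.leaf 0))
(.node (.leaf 0)
(.leaf 108665051056871244614)))
(.node (.node (.leaf 0)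
(.leaf 0))
(.node (.leaf 0)
(.leaf 65775010630))))
(.node (.node (.node (.node (.leaf 0)
(.leaf 796930353469247161379884467921111294101150849064437951))
(.leaf 0))
(.node (.leaf 0)
(.leaf 350853333828)))
(.node (.node (.leaf 0)
(.leaf 68987912193))
(.node (.leaf 0)
(.leaf 163227239237)))))))
(.node (.node (.node (.node (.node (.node (.node (.leaf 0)
(.leaf 48716018152732623687))
(.leaf 0))
(.node (.leaf 0)
(.leaf 118917431301)))
(.node (.node (.leaf 0)
(.leaf 0))
(.node (.leaf 0)
(.leaf 12998776925698728620416575809656668198138619786955461869489455739370295305175880))))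
(.node (.node (.node (.node (.leaf 0)
(.leaf 477889366169))
(.leaf 0))
(.node (.leaf 0)
(.leaf 264160216685)))
(.node (.node (.leaf 0)
(.leaf 2415919105))
(.node (.leaf 0)
(.leaf 23637142869748155206)))))
(.node (.node (.node (.node (.node (.leaf 0)
(.leaf 76825599973121902663198681412057833973893828720910371642424838948296235699144162400442986910910776077786139418829894917143016138097277416525874500432517744801542463486729469674111288350477867420942887203051670895275731529644998673563457599122216437653514183555096851906411127345302451618169377342756967620644268557982552783923092706585338297547530421895352897768461120833192993513391568965447227983477095617901014750775806672104978099971641011651214875654439487493841755655065893116100760252764041232623519619060874773949216392462162980070080014172364962970099718275445156046976174596374600879808107889066825863511323275894621846742042779943821157004446814782218990790619829435544003652222171868134222824767485291191327151319579431558064840839039186766131829081410031039599280027724011684059925149251779072427796))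
(.leaf 0))
(.node (.leaf 0)
(.leaf 51161032505759629315)))
(.node (.node (.leaf 0)
(.leaf 0))
(.node (.leaf 0)
(.leaf 403198247748))))
(.node (.node (.node (.node (.leaf 0)
(.leaf 77042764708233045521380599219991909282974964117120691955442698829859248568006276867972673147600169531138077179056281695131400324181496150872211510448949415))
(.leaf 0))
(.node (.leaf 0)
(.leaf 87926537968990881496)))
(.node (.node (.leaf 0)
(.leaf 55029661700))
(.node (.leaf 0)
(.leaf 41438201154901902151))))))
(.node (.node (.node (.node (.node (.node (.leaf 0)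
(.leaf 48180287965642355219534418104955082178772310703724670864060405761968062))
(.leaf 0))
(.node (.leaf 0)
(.leaf 148982333446)))
(.node (.node (.leaf 0)
(.leaf 0))
(.node (.leaf 0)
(.leaf 27388609348))))
(.node (.node (.node (.node (.leaf 0)
(.leaf 20287340887206891660302544928454322163062245087179217940942410974435768245859328864637133112043753441305621002151299134788796330800939607787539395485668244158220455))
(.leaf 0))
(.node (.leaf 0)
(.leaf 292909287097)))
(.node (.node (.leaf 0)
(.leaf 29528293380))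
(.node (.leaf 0)
(.leaf 120814437189)))))
(.node (.node (.node (.node (.node (.leaf 0)
(.leaf 1325055036782424404397971551374213170093389937360907578274863979461049988488313244194944852237181575120338243265685995928907651919626766227))
(.leaf 0))
(.node (.leaf 0)
(.leaf 233815802697)))
(.node (.node (.leaf 0)
(.leaf 0))
(.node (.leaf 0)
(.leaf 73022964553))))
(.node (.node (.node (.leaf 0)
(.leaf 0))
(.node (.leaf 0)
(.leaf 370978062339)))
(.node (.node (.leaf 0)
(.leaf 91805057026))
(.node (.leaf 0)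
(.leaf 432468132679)))))))))
(.node (.node (.node (.node (.node (.node (.node (.node (.node (.leaf 0)
(.leaf 172086068844))
(.leaf 0))
(.node (.leaf 0)
(.leaf 104422047750)))
(.node (.node (.leaf 0)
(.leaf 0))
(.node (.leaf 0)
(.leaf 7358330204612239526535749744428711940))))
(.node (.node (.node (.node (.leaf 0)
(.leaf 309054069118606228152910802911265585103692407755441613))
(.leaf 0))
(.node (.leaf 0)
(.leaf 240542876533)))
(.node (.node (.leaf 0)
(.leaf 0))
(.node (.leaf 0)
(.leaf 77855000169)))))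
(.node (.node (.node (.node (.node (.leaf 0)
(.leaf 1227999786613756170062355606330680886884959068))
(.leaf 0))
(.node (.leaf 0)
(.leaf 161061928966)))
(.node (.node (.leaf 0)
(.leaf 0))
(.node (.leaf 0)
(.leaf 36515742537))))
(.node (.node (.node (.node (.leaf 0)
(.leaf 333668485309))
(.leaf 0))
(.node (.leaf 0)
(.leaf 299851908714)))
(.node (.node (.leaf 0)
(.leaf 35970613251))
(.node (.leaf 0)
(.leaf 141484098375))))))
(.node (.node (.node (.node (.node (.node (.leaf 0)
(.leaf 435421251180))
(.leaf 0))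
(.node (.leaf 0)
(.leaf 130997157894)))
(.node (.node (.leaf 0)
(.leaf 0))
(.node (.leaf 0)
(.leaf 3863175350101342886330983830001812296))))
(.node (.node (.node (.node (.leaf 0)
(.leaf 1051866657105067434258328666726576033020939033943043880906236378399553113382051408722829457289256378123852027223735460818427814716930256114802685894254825170423570762863356448544193294007557400360548123492411104261868263870659364917291499072810212178340948535329217438550171))
(.leaf 0))
(.node (.leaf 0)
(.leaf 282670728004)))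
(.node (.node (.leaf 0)
(.leaf 5637144577))
(.node (.leaf 0)
(.leaf 28683971825548002117)))))
(.node (.node (.node (.node (.node (.leaf 0)
(.leaf 293704534762813966283134239636053012038814622922816541539084206297090697841861237508300191092390670846283249064250795698589368120044645286206222662581393312982138012541537471006968604946101966440565414132015175257613181784140060603734634827987788464283508147853692779034120260210125389121910032580280056734943455254401021589962055541799102388196188459030467553199782389990181493085639660791456309137215840708776769026696636623821816324238696447459223011315417129855550078683690756608107940487399770237371097189450198852074377048342177484456018683869058954950570083285423879519011670114))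
(.leaf 0))
(.node (.leaf 0)
(.leaf 52458069198442332163)))
(.node (.node (.leaf 0)
(.leaf 0))
(.node (.leaf 0)
(.leaf 16935821808861250372))))
(.node (.node (.node (.node (.leaf 0)
(.leaf 133810074392721613903673400726040894931286759081424338082810232551107974776471888196005549514327077434043293747361893060927964407069643862771555174098398290684183061062759764676229137939271865010368))
(.leaf 0))
(.node (.leaf 0)
(.leaf 93693326926324106980)))
(.node (.node (.leaf 0)
(.leaf 60934848513))
(.node (.leaf 0)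
(.leaf 161887094382)))))))
(.node (.node (.node (.node (.node (.node (.node (.leaf 0)
(.leaf 179335399022))
(.leaf 0))
(.node (.leaf 0)
(.leaf 117843689477)))
(.node (.node (.leaf 0)
(.leaf 0))
(.node (.leaf 0)
(.leaf 32422716743957672649132708400190367028265756895167300294495931767578752917480212481852073655663434163532413050013791642689444845467249563625550984481932100))))
(.node (.node (.node (.node (.leaf 0)
(.leaf 110376007227878933591142267371197500724942448047396916627746332394331034475545847979434828771953733308316819241853996871153366513269841294573730420829732311202111182215350497138116738027422294870132))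
(.leaf 0))
(.node (.leaf 0)
(.leaf 256106235499)))
(.node (.node (.leaf 0)
(.leaf 0))
(.node (.leaf 0)
(.leaf 84833928006)))))
(.node (.node (.node (.node (.node (.leaf 0)
(.leaf 9573681098365075871660450743137930993078594507724060852861332053333077707937718053106961385373766202522591382361987283084645208116736492904045752236374479329773068439922802653626254108788325224522786193991132579604))
(.leaf 0))
(.node (.leaf 0)
(.leaf 187905474566)))
(.node (.node (.leaf 0)
(.leaf 0))
(.node (.leaf 0)
(.leaf 52621738824))))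
(.node (.node (.node (.node (.leaf 0)
(.leaf 1489628166916285160015792339))
(.leaf 0))
(.node (.leaf 0)
(.leaf 325362583147)))
(.node (.node (.leaf 0)
(.leaf 53955919876))
(.node (.leaf 0)
(.leaf 153295586924))))))
(.node (.node (.node (.node (.node (.node (.leaf 0)
(.leaf 2777922335099754239093963375844531615317559236))
(.leaf 0))
(.node (.leaf 0)
(.leaf 147908591622)))
(.node (.node (.leaf 0)
(.leaf 0))
(.node (.leaf 0)
(.leaf 6703643455475483460))))
(.node (.node (.node (.node (.leaf 0)
(.leaf 229304053414850568516086357877665271216010237583780423433377516967054071959056739796873088075442907121561))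
(.leaf 0))
(.node (.leaf 0)
(.leaf 290455487302)))
(.node (.node (.leaf 0)
(.leaf 25770196996))
(.node (.leaf 0)
(.leaf 8454230881597079941241504581)))))
(.node (.node (.node (.node (.node (.leaf 0)
(.leaf 2308732082591918512636431507063571143729767424500248476346200657123214148023106274063091450490175054655943827705617141086796641531265958010004504799322056480810615421518284144941434917145949743696796425513644530413595068235))
(.leaf 0))
(.node (.leaf 0)
(.leaf 232488108890)))
(.node (.node (.leaf 0)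
(.leaf 0))
(.node (.leaf 0)
(.leaf 71949222729))))
(.node (.node (.node (.leaf 0)
(.leaf 0))
(.node (.leaf 0)
(.leaf 26407109875815933446854410246)))
(.node (.node (.leaf 0)
(.leaf 90731315202))
(.node (.leaf 0)
(.leaf 166985466695))))))))
(.node (.node (.node (.node (.node (.node (.node (.node (.leaf 0)
(.leaf 175575729772))
(.leaf 0))
(.node (.leaf 0)
(.leaf 111937716226)))
(.node (.node (.leaf 0)
(.leaf 0))
(.node (.leaf 0)
(.leaf 102911456482859747011))))
(.node (.node (.node (.node (.leaf 0)
(.leaf 116571795726302140202149764875502394358537813724986671837066393261060027688154411977023783074572648050781501998513279460047017140057207344954777018027301741753420145954399540835190983045400943538028748863983668323529570015708751904608409491320875573902683488456478520245662533159028))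
(.leaf 0))
(.node (.leaf 0)
(.leaf 246442230597)))
(.node (.node (.leaf 0)
(.leaf 0))
(.node (.leaf 0)
(.leaf 408298521412)))))
(.node (.node (.node (.node (.node (.leaf 0)
(.leaf 16462576910700634819755631999165512453600178563949903828805066919221971306691142695449384982991624752874411783254081405788))
(.leaf 0))
(.node (.leaf 0)
(.leaf 173946830854)))
(.node (.node (.leaf 0)
(.leaf 0))
(.node (.leaf 0)
(.leaf 12828503764058833732))))
(.node (.node (.node (.node (.leaf 0)
(.leaf 282140674253))
(.leaf 0))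
(.node (.leaf 0)
(.leaf 317578085996)))
(.node (.node (.leaf 0)
(.leaf 48855515139))
(.node (.leaf 0)
(.leaf 428173493868))))))
(.node (.node (.node (.node (.node (.node (.leaf 0)
(.leaf 113206403499927077644))
(.leaf 0))
(.node (.leaf 0)
(.leaf 142539358210)))
(.node (.node (.leaf 0)
(.leaf 0))
(.node (.leaf 0)
(.leaf 10457503115838424412386790293483340926392066159755259808813209937500037997069126))))
(.node (.node (.node (.node (.leaf 0)
(.leaf 217389707093721269299265691057894878632278209901116379823917768773885058077796158182064759247318311942558749386893452630523253415361541741222374469660746597039521120112737748797687580001741165756562725657868723084105686795479659892812490662797024935175218068420900382825316811311853840217893934155978952712037499983073360445591775420006906233377875542587153850705340002375459175912694342649153342356401551965644458151))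
(.leaf 0))
(.node (.leaf 0)
(.leaf 286440359533)))
(.node (.node (.leaf 0)
(.leaf 13690470403))
(.node (.leaf 0)
(.leaf 29836893330154849093)))))
(.node (.node (.node (.node (.node (.leaf 0)
(.leaf 505156446050707531242095413672969864970911392101482457251766588316638716533557144519255236332791147578362921917280434768410283858720193291498776591166897540025634714837184149381783510941921863051693998185206014695741837688956193292156761168713185183669197183298555438301063254923721789362716383705007241566275111016))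
(.leaf 0))
(.node (.leaf 0)
(.leaf 115225142265099912812)))
(.node (.node (.leaf 0)
(.leaf 0))
(.node (.leaf 0)
(.leaf 67922888297))))
(.node (.node (.node (.leaf 0)
(.leaf 0))
(.node (.leaf 0)
(.leaf 354343125830)))
(.node (.node (.leaf 0)
(.leaf 77041369092))
(.node (.leaf 0)
(.leaf 164300981061)))))))
(.node (.node (.node (.node (.node (.node (.node (.leaf 0)
(.leaf 183897228908))
(.leaf 0))
(.node (.leaf 0)
(.leaf 119991173125)))
(.node (.node (.leaf 0)
(.leaf 0))
(.node (.leaf 0)
(.leaf 1280640099323455155827862665999404043693617440799759744257574753905429015880686087100006490379591424157940289895556604212667768074880324548897598253794115147078754971504212790897911527497525264541059287868457580061423038127225041295470290615717964952260472447040124264229274737349856668831474791431487395760955524713))))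
(.node (.node (.node (.node (.leaf 0)
(.leaf 116613273523968979596495373615771143218662740562766448343545032664062873809007897892206402790603611965595))
(.leaf 0))
(.node (.leaf 0)
(.leaf 270871889518)))
(.node (.node (.leaf 0)
(.leaf 3489660929))
(.node (.leaf 0)
(.leaf 109890382215596279401)))))
(.node (.node (.node (.node (.node (.leaf 0)
(.leaf 2136482667056623329213223709545472757803362066560613249416400032042687580071718987529005232611778453139684099587029233482617980844))
(.leaf 0))
(.node (.leaf 0)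
(.leaf 51593378069987196931)))
(.node (.node (.leaf 0)
(.leaf 0))
(.node (.leaf 0)
(.leaf 59600995142))))
(.node (.node (.node (.node (.leaf 0)
(.leaf 333147736282))
(.leaf 0))
(.node (.leaf 0)
(.leaf 89368217616406611676)))
(.node (.node (.leaf 0)
(.leaf 56103403524))
(.node (.leaf 0)
(.leaf 157322118764))))))
(.node (.node (.node (.node (.node (.node (.leaf 0)
(.leaf 7695355402462269063980621020700614638930418268035270602020686022020697863121719812016737751793561309914531343217122010883313170250643432692877894987500833516512645024057186))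
(.leaf 0))
(.node (.leaf 0)
(.leaf 150056075270)))
(.node (.node (.leaf 0)
(.leaf 0))
(.node (.leaf 0)
(.leaf 393534702406))))
(.node (.node (.node (.node (.leaf 0)
(.leaf 503058073788))
(.leaf 0))
(.node (.leaf 0)
(.leaf 294225774190)))
(.node (.node (.leaf 0)
(.leaf 33823129603))
(.node (.leaf 0)
(.leaf 34880924912809804613)))))
(.node (.node (.node (.node (.node (.leaf 0)
(.leaf 2177182557392364941182687213184305122059304243832578337303230254509390283114288723494825627840289838987969132219273999554767751060))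
(.leaf 0))
(.node (.leaf 0)
(.leaf 234899505989)))
(.node (.node (.leaf 0)
(.leaf 0))
(.node (.leaf 0)
(.leaf 74096706377))))
(.node (.node (.node (.leaf 0)
(.leaf 0))
(.node (.leaf 0)
(.leaf 100817669672667252376)))
(.node (.node (.leaf 0)
(.leaf 92878798850))
(.node (.leaf 0)
(.leaf 169401385799))))))))))
(.node (.node (.node (.node (.node (.node (.node (.node (.node (.node (.leaf 0)
(.leaf 46049851988688765767))
(.leaf 0))
(.node (.leaf 0)
(.leaf 96100548614)))
(.node (.node (.leaf 0)
(.leaf 0))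
(.node (.leaf 0)
(.leaf 7342715284325058393903187317114667012))))
(.node (.node (.node (.node (.leaf 0)
(.leaf 7850855545548530856287187795247761347))
(.leaf 0))
(.node (.leaf 0)
(.leaf 239737439092)))
(.node (.node (.leaf 0)
(.leaf 0))
(.node (.leaf 0)
(.leaf 407493346118)))))
(.node (.node (.node (.node (.node (.leaf 0)
(.leaf 148775253998994108972302830125135847504961662402862657155961699145115142251668832605617990715245770954519830785895205277615745131778390007014529686376054292913973816923996585383720986229173696792516))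
(.leaf 0))
(.node (.leaf 0)
(.leaf 159987662850)))
(.node (.node (.leaf 0)
(.leaf 0))
(.node (.leaf 0)
(.leaf 396219122504))))
(.node (.node (.node (.node (.leaf 0)
(.leaf 328568211645))
(.leaf 0))
(.node (.leaf 0)
(.leaf 299046602346)))
(.node (.node (.leaf 0)
(.leaf 35433742339))
(.node (.leaf 0)
(.leaf 37402975888777937735))))))
(.node (.node (.node (.node (.node (.node (.leaf 0)
(.leaf 187388462702))
(.leaf 0))
(.node (.leaf 0)
(.leaf 128043843586)))
(.node (.node (.leaf 0)
(.leaf 0))
(.node (.leaf 0)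
(.leaf 49661577943873604447501232513515774273146809209376511995710646473530495076099579536725614272270040944985159138997074665612254546011997020493398619407104491647534201862699331620700831120203497465434257981604684096389890238947533283781590465884784234))))
(.node (.node (.node (.node (.leaf 0)
(.leaf 301932684299454186535518368129704941556203381899314538421776070142591050010397370359742157739250818912547416279041197823116138717248882723302726675747186774954969896323227))
(.leaf 0))
(.node (.leaf 0)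
(.leaf 279997122156)))
(.node (.node (.leaf 0)
(.leaf 5100273665))
(.node (.leaf 0)
(.leaf 106319251051)))))
(.node (.node (.node (.node (.node (.leaf 0)
(.leaf 207317090780596512765007078787340224877732370797677165294518469094694261833057762566524931707946406184263))
(.leaf 0))
(.node (.leaf 0)
(.leaf 52097781228252692483)))
(.node (.node (.leaf 0)
(.leaf 0))
(.node (.leaf 0)
(.leaf 16791970718592860996))))
(.node (.node (.node (.node (.leaf 0)
(.leaf 12606983267555604878647110649080936282274574872526479830619613460651824663573218391285427573129168499623192279800627831152113088826221182223012053497915610793361547919839425608416408786531988528403328765057000108767900137186785058109867100591366356591559096736287783074973234145421787146933442951400151125884887394254388961651262028653191665469393004233496431492717519310994900846780))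
(.leaf 0))
(.node (.leaf 0)
(.leaf 348169110342)))
(.node (.node (.leaf 0)
(.leaf 57714016260))
(.node (.leaf 0)
(.leaf 42879353035660460871)))))))
(.node (.node (.node (.node (.node (.node (.node (.leaf 0)
(.leaf 47779269430239429445))
(.leaf 0))
(.node (.leaf 0)
(.leaf 116770078726)))
(.node (.node (.leaf 0)
(.leaf 0))
(.node (.leaf 0)
(.leaf 152359751009275793475685373812111923914725905850875348969916012))))
(.node (.node (.node (.node (.leaf 0)
(.leaf 49875918284607714495558444830699290257744619303228443281844457086235657704698989003914375094189487640689971502291917420263549884231262950541049089151030316109291208761492910679992674763602059868450838010602479731797511286647083233396042165708234542272457624736160675691547315498773903656639304772005709996709027884788407018617833615))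
(.leaf 0))
(.node (.leaf 0)
(.leaf 251274528364)))
(.node (.node (.leaf 0)
(.leaf 0))
(.node (.leaf 0)
(.leaf 22196026173630120774)))))
(.node (.node (.node (.node (.node (.leaf 0)
(.leaf 548873791831474087948547331962426226402428832804112355))
(.leaf 0))
(.node (.leaf 0)
(.leaf 183341547522)))
(.node (.node (.leaf 0)
(.leaf 0))
(.node (.leaf 0)
(.leaf 3753110267524546572490966633))))
(.node (.node (.node (.node (.leaf 0)
(.leaf 379378075857))
(.leaf 0))
(.node (.leaf 0)
(.leaf 324825843308)))
(.node (.node (.leaf 0)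
(.leaf 53150220289))
(.node (.leaf 0)
(.leaf 151954196077))))))
(.node (.node (.node (.node (.node (.node (.leaf 0)
(.leaf 2189730306209149461683170816810339798967977952))
(.leaf 0))
(.node (.leaf 0)
(.leaf 147371720710)))
(.node (.node (.leaf 0)
(.leaf 0))
(.node (.leaf 0)
(.leaf 391923958596))))
(.node (.node (.node (.node (.leaf 0)
(.leaf 778737643106389593211923223263585974150086149846294222903135590856303132942819733747154714826126367808342023523784231183744025946235702356585955352172648348004563097930401578160294022232006726134532984498587962549017388904996405029802344458611681212833861507607155075012018765256700662999100250520061482829805651804641885213687843434024687929832808435676291910782244710438303909717441831201804651485256812713))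
(.leaf 0))
(.node (.leaf 0)
(.leaf 289113178948)))
(.node (.node (.leaf 0)
(.leaf 24428019716))
(.node (.leaf 0)
(.leaf 116521502318)))))
(.node (.node (.node (.node (.node (.leaf 0)
(.leaf 170941318058012938437815231043138781491874047934252341071292830735410814300802331978346431039484300169801503789181524515276075648480281747872845290856373752305036532020171902203086514083605089138941511801486624950276540524531197190210016420057574488842082599740356830378558879170317758989336121029143040880237467791082498872791449561372900353731643237638168401832784292769545667383798191008882224189931026454916549917206381101566703021281285151615726725972094950246704601055067661008926475739623680555821207083061988349956931153779157115255252581349813668446554245513121035625798243830437513294))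
(.leaf 0))
(.node (.leaf 0)
(.leaf 229802836818)))
(.node (.node (.leaf 0)
(.leaf 0))
(.node (.leaf 0)
(.leaf 70875349832))))
(.node (.node (.node (.leaf 0)
(.leaf 0))
(.node (.leaf 0)
(.leaf 7052570345834140355194280834899116033)))
(.node (.node (.leaf 0)
(.leaf 88584093700))
(.node (.leaf 0)
(.leaf 166448595783))))))))
(.node (.node (.node (.node (.node (.node (.node (.node (.leaf 0)
(.leaf 433273636459))
(.leaf 0))
(.node (.leaf 0)
(.leaf 110058668034)))
(.node (.node (.leaf 0)
(.leaf 0))
(.node (.leaf 0)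
(.leaf 102694720749448267454))))
(.node (.node (.node (.node (.leaf 0)
(.leaf 11486247313317435553325085117101985678208351859102231735310610551991998736974375897544899056740962747126572538860231769206942288795523199293365309897257935700374954289220140460974971444684657465487117132414615225780174804194829542216042509848627618038314275358264090425250597040958308638538357030395316639115658793941687999328252931928587059889080140080190143181759174485487805992800661731120281329861889409322065428003221060248287700010675488561150343622592260397864251556815128004367793180595732354306628410062342275))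
(.leaf 0))
(.node (.leaf 0)
(.leaf 245644198786)))
(.node (.node (.leaf 0)
(.leaf 0))
(.node (.leaf 0)
(.leaf 408030085956)))))
(.node (.node (.node (.node (.node (.leaf 0)
(.leaf 64496173947906099113))
(.leaf 0))
(.node (.leaf 0)
(.leaf 171262476294)))
(.node (.node (.leaf 0)
(.leaf 0))
(.node (.leaf 0)
(.leaf 12107927823679685446))))
(.node (.node (.node (.node (.leaf 0)
(.leaf 518358042826))
(.leaf 0))
(.node (.leaf 0)
(.leaf 316485402625)))
(.node (.node (.leaf 0)
(.leaf 44829114372))
(.node (.leaf 0)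
(.leaf 427099752044))))))
(.node (.node (.node (.node (.node (.node (.leaf 0)
(.leaf 22628248583692813097))
(.leaf 0))
(.node (.leaf 0)
(.leaf 140660310018)))
(.node (.node (.leaf 0)
(.leaf 0))
(.node (.leaf 0)
(.leaf 57001040304360129351))))
(.node (.node (.node (.node (.leaf 0)
(.leaf 5875688902363284258322426716775846625439341357159057665533895173844556889068722229237191464365601528114531424547818361556923123879))
(.leaf 0))
(.node (.leaf 0)
(.leaf 285623518020)))
(.node (.node (.leaf 0)
(.leaf 7247757313))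
(.node (.leaf 0)
(.leaf 29332525356530008903)))))
(.node (.node (.node (.node (.node (.leaf 0)
(.leaf 4720303677695452488890760332389189439))
(.leaf 0))
(.node (.leaf 0)
(.leaf 435947701065)))
(.node (.node (.leaf 0)
(.leaf 0))
(.node (.leaf 0)
(.leaf 17872570531354444614))))
(.node (.node (.node (.node (.leaf 0)
(.leaf 3222205448850571719328690128314716179827220600023531904069422142258647880511787576538615047996448443566419451392622995000431491129472811958740832810185984340102944161579446953642291810415293843063609835961822714755313699031))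
(.leaf 0))
(.node (.leaf 0)
(.leaf 25361502375758482922801725445)))
(.node (.node (.leaf 0)
(.leaf 70061916163))
(.node (.leaf 0)
(.leaf 163764110149)))))))
(.node (.node (.node (.node (.node (.node (.node (.leaf 0)
(.leaf 434615813739))
(.leaf 0))
(.node (.leaf 0)
(.leaf 119454302213)))
(.node (.node (.leaf 0)
(.leaf 0))
(.node (.leaf 0)
(.leaf 103835362646158279449))))
(.node (.node (.node (.node (.leaf 0)
(.leaf 293847027823370167372491306922059358594676883396295330209130921685143136832642034806720292459576770252718605554209769851455602524219747481565515582489405175232191247940346709482064274593934740600683224714194667166854950876766978833248713995953298806851693953418297598359982468434072))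
(.leaf 0))
(.node (.leaf 0)
(.leaf 71274337592631297690)))
(.node (.node (.leaf 0)
(.leaf 2952790017))
(.node (.leaf 0)
(.leaf 6403085108924837056775259753)))))
(.node (.node (.node (.node (.node (.leaf 0)
(.leaf 2318010293671877921359863884164505319546357695))
(.leaf 0))
(.node (.leaf 0)
(.leaf 51305147693835485187)))
(.node (.node (.leaf 0)
(.leaf 0))
(.node (.leaf 0)
(.leaf 403735249734))))
(.node (.node (.node (.node (.leaf 0)
(.leaf 539306166490))
(.leaf 0))
(.node (.leaf 0)
(.leaf 331805165164)))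
(.node (.node (.leaf 0)
(.leaf 55566532612))
(.node (.leaf 0)
(.leaf 41942569128526873415))))))
(.node (.node (.node (.node (.node (.node (.leaf 0)
(.leaf 119184545269484947255))
(.leaf 0))
(.node (.leaf 0)
(.leaf 149519204358)))
(.node (.node (.leaf 0)
(.leaf 0))
(.node (.leaf 0)
(.leaf 7496241805252166468))))
(.node (.node (.node (.node (.leaf 0)
(.leaf 20642893240937007773804757550244855594561309765329241641348838407363147023866670341758139145766737078498018152411405597263274167310832520015011243604178384558240186793666997361464574186568062499890993731989455491943539413437484993609732473368222962852072992627775603304472794991162689726793390230757586215207264557949979574696356959831584826203944935763098245451875427446640169927563863809824931310973523859538885378769225897))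
(.leaf 0))
(.node (.leaf 0)
(.leaf 293418763883)))
(.node (.node (.leaf 0)
(.leaf 32212647940))
(.node (.leaf 0)
(.leaf 124035793735)))))
(.node (.node (.node (.node (.node (.leaf 0)
(.leaf 825668031450100423292589234116213234691925310024578300094565339037541343508488548240667600454408234502297326164660548544143076557761384013729134300230085015307707319996244025280461))
(.leaf 0))
(.node (.leaf 0)
(.leaf 234352673609)))
(.node (.node (.leaf 0)
(.leaf 0))
(.node (.leaf 0)
(.leaf 73559835465))))
(.node (.node (.node (.leaf 0)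
(.leaf 0))
(.node (.leaf 0)
(.leaf 26811240550211605351725531139)))
(.node (.node (.leaf 0)
(.leaf 92341927938))
(.node (.leaf 0)
(.leaf 168864514887)))))))))
(.node (.node (.node (.node (.node (.node (.node (.node (.node (.leaf 0)
(.leaf 46410175143518929735))
(.leaf 0))
(.node (.leaf 0)
(.leaf 106032136194)))
(.node (.node (.leaf 0)
(.leaf 0))
(.node (.leaf 0)
(.leaf 102261706679151624196))))
(.node (.node (.node (.node (.leaf 0)
(.leaf 375743875817880010068700062204900457404046209304122024210458779798381819235539814428845110675789895929959385356617323505599777072057587352619020766564132962264698611667584909158285949876999310207075241524078929362152413710852750894010677965782740878349530808193404287545631155737274108084308554614586324209171024605095364935013369642526246973578085965756019197100771922578189537940816056181451489275585770230501059629525226597942952390414434697349236))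
(.leaf 0))
(.node (.leaf 0)
(.leaf 244301890433)))
(.node (.node (.leaf 0)
(.leaf 0))
(.node (.leaf 0)
(.leaf 78391871081)))))
(.node (.node (.node (.node (.node (.leaf 0)
(.leaf 255758802585969995821514654802238082414730756214418993542095984682180794445748043169718292871961576110905793181317670117479200430738750917174520557127814771634382042501999577688484163784770475214699143445753617940176727548036946012689393789992126077446450694716947479827867858296611485388302188149828412169930529391811908022027520218521704789739733960324697462061278484394310780463605316861883820255184290652))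
(.leaf 0))
(.node (.leaf 0)
(.leaf 162940452866)))
(.node (.node (.leaf 0)
(.leaf 0))
(.node (.leaf 0)
(.leaf 11603524665414058820))))
(.node (.node (.node (.node (.leaf 0)
(.leaf 32012587260547374958259407039))
(.leaf 0))
(.node (.leaf 0)
(.leaf 312746247788)))
(.node (.node (.leaf 0)
(.leaf 40534147076))
(.node (.leaf 0)
(.leaf 145510499141))))))
(.node (.node (.node (.node (.node (.node (.leaf 0)
(.leaf 188728607557))
(.leaf 0))
(.node (.leaf 0)
(.leaf 133412552706)))
(.node (.node (.leaf 0)
(.leaf 0))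
(.node (.leaf 0)
(.leaf 381838489835835746046201930450698175547227279683509688162112935459702218293423228875804023441883415116564323264561248855289562732))))
(.node (.node (.node (.node (.leaf 0)
(.leaf 281872500903))
(.leaf 0))
(.node (.leaf 0)
(.leaf 283476034372)))
(.node (.node (.leaf 0)
(.leaf 6174015489))
(.node (.leaf 0)
(.leaf 108198430316)))))
(.node (.node (.node (.node (.node (.leaf 0)
(.leaf 18812431286437244074404964321573969089904730536375202042047711737960762126862242862986965319369447222441520630249613494363))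
(.leaf 0))
(.node (.leaf 0)
(.leaf 52602184386518188035)))
(.node (.node (.leaf 0)
(.leaf 0))
(.node (.leaf 0)
(.leaf 64701268806))))
(.node (.node (.node (.node (.leaf 0)
(.leaf 40195159170971929611903109350))
(.leaf 0))
(.node (.leaf 0)
(.leaf 350048027460)))
(.node (.node (.leaf 0)
(.leaf 66840428545))
(.node (.leaf 0)
(.leaf 11723166297835037229647135559)))))))
(.node (.node (.node (.node (.node (.node (.node (.leaf 0)
(.leaf 48283637403864531783))
(.leaf 0))
(.node (.leaf 0)
(.leaf 118380560389)))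
(.node (.node (.leaf 0)
(.leaf 0))
(.node (.leaf 0)
(.leaf 23240868630114306320600150636735975505870516859804295481429039996370290372935952264647836480163767773981407730567603185344606061803388406684243601499957716133938793))))
(.node (.node (.node (.node (.leaf 0)
(.leaf 3203210050904266004388579531200895717705020330256300960781482227121104307084362924777237692981441780061421478150770364750202227840004616934944280899435723763076231552855777011020777362875774086682271496416616926964158819779026131837361686535883839023997374025512804787049215612242701848152111677076351499900009424110815322989956409634360119943477631372149443867740161701832370302946437242949266262171104497853553156959352196099288292373973582666501041197567211276525517885305238130623541170815915002227748882920768380161099892))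
(.leaf 0))
(.node (.leaf 0)
(.leaf 262281954926)))
(.node (.node (.leaf 0)
(.leaf 1879048193))
(.node (.leaf 0)
(.leaf 86981411654)))))
(.node (.node (.node (.node (.node (.leaf 0)
(.leaf 18341574436981994240532204780251989511174020136503264))
(.leaf 0))
(.node (.leaf 0)
(.leaf 3676158852464745456463879101745463299)))
(.node (.node (.leaf 0)
(.leaf 0))
(.node (.leaf 0)
(.leaf 401050764100))))
(.node (.node (.node (.node (.leaf 0)
(.leaf 559976679639))
(.leaf 0))
(.node (.leaf 0)
(.leaf 326437242477)))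
(.node (.node (.leaf 0)
(.leaf 54492790788))
(.node (.leaf 0)
(.leaf 153832457836))))))
(.node (.node (.node (.node (.node (.node (.leaf 0)
(.leaf 45077682635996900308477306855073936376459063566761651802411861990115170))
(.leaf 0))
(.node (.leaf 0)
(.leaf 148445462534)))
(.node (.node (.leaf 0)
(.leaf 0))
(.node (.leaf 0)
(.leaf 6991838646986801990))))
(.node (.node (.node (.node (.leaf 0)
(.leaf 9109495170236712441250418859327438336587093450256245017098477926493822156767630099245298000206726794688502216880089008295))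
(.leaf 0))
(.node (.leaf 0)
(.leaf 291529229126)))
(.node (.node (.leaf 0)
(.leaf 27649245188))
(.node (.leaf 0)
(.leaf 419851535173)))))
(.node (.node (.node (.node (.node (.leaf 0)
(.leaf 75452167388534571693374167300279761931614851513858001909800437619023929608426862303939835177086351518079839835230164707835390492448338147008468775414193261847014710542549507894964442511152527883502233562020509982595804823018922582646849452935711393591604679592984455575925779370049683260794))
(.leaf 0))
(.node (.leaf 0)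
(.leaf 233293415258)))
(.node (.node (.leaf 0)
(.leaf 0))
(.node (.leaf 0)
(.leaf 72486093641))))
(.node (.node (.node (.leaf 0)
(.leaf 0))
(.node (.leaf 0)
(.leaf 368830840837)))
(.node (.node (.leaf 0)
(.leaf 91268186114))
(.node (.leaf 0)
(.leaf 167790773063))))))))
(.node (.node (.node (.node (.node (.node (.node (.node (.leaf 0)
(.leaf 176381822573))
(.leaf 0))
(.node (.leaf 0)
(.leaf 114085199874)))
(.node (.node (.leaf 0)
(.leaf 0))
(.node (.leaf 0)
(.leaf 14856744435591669166960084588))))
(.node (.node (.node (.node (.leaf 0)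
(.leaf 204487745895225275068518863261014460899093347666115223977461903))
(.leaf 0))
(.node (.leaf 0)
(.leaf 248034361345)))
(.node (.node (.leaf 0)
(.leaf 0))
(.node (.leaf 0)
(.leaf 81612702534)))))
(.node (.node (.node (.node (.node (.leaf 0)
(.leaf 76658255631353436677709773399437002406475812352527191938241601188866389160619439438066479739365872857436198274927))
(.leaf 0))
(.node (.leaf 0)
(.leaf 177704927238)))
(.node (.node (.leaf 0)
(.leaf 0))
(.node (.leaf 0)
(.leaf 399171846982))))
(.node (.node (.node (.node (.leaf 0)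
(.leaf 112558061461191329997))
(.leaf 0))
(.node (.leaf 0)
(.leaf 319707152389)))
(.node (.node (.leaf 0)
(.leaf 50197430273))
(.node (.leaf 0)
(.leaf 150611101291))))))
(.node (.node (.node (.node (.node (.node (.leaf 0)
(.leaf 69111677304819745553))
(.leaf 0))
(.node (.leaf 0)
(.leaf 144150364165)))
(.node (.node (.leaf 0)
(.leaf 0))
(.node (.leaf 0)
(.leaf 12356420424))))
(.node (.node (.node (.node (.leaf 0)
(.leaf 228389812699592224265973674045463721602820382674682838434733446974353334340334067899034514612618696197019186456329066902122490612093881861976209679994568877484385084793805705874332869979360748294391104231036334150106672339090629372805024533898954139757913622668956681832051906177906272696172394581198782651726789839954983784979459575255864000438054353043901114812583))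
(.leaf 0))
(.node (.leaf 0)
(.leaf 286965695300)))
(.node (.node (.leaf 0)
(.leaf 18790744067))
(.node (.leaf 0)
(.leaf 416362333804)))))
(.node (.node (.node (.node (.node (.leaf 0)
(.leaf 12028546425099642771648053288153507759496195018611160868815869458542444357420863))
(.leaf 0))
(.node (.leaf 0)
(.leaf 227654566731)))
(.node (.node (.leaf 0)
(.leaf 0))
(.node (.leaf 0)
(.leaf 4952374125387282047127848553))))
(.node (.node (.node (.leaf 0)
(.leaf 0))
(.node (.leaf 0)
(.leaf 96065914679975282369)))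
(.node (.node (.leaf 0)
(.leaf 79457288196))
(.node (.leaf 0)
(.leaf 165106287429)))))))
(.node (.node (.node (.node (.node (.node (.node (.leaf 0)
(.leaf 185239406188))
(.leaf 0))
(.node (.leaf 0)
(.leaf 120528044037)))
(.node (.node (.leaf 0)
(.leaf 0))
(.node (.leaf 0)
(.leaf 859552485752333502517452395099482313957447911958551220188166441720475372966302847483863825141849608380843677163173964357165595278067008978989925924340764541721131523363458283960363823771445772980772480845577688960293738577473564337614117647255776512079689288092955881243463))))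
(.node (.node (.node (.node (.leaf 0)
(.leaf 29650708649891720321732304587141549094938317533605332650421785291137141077047572264096014807276521069411581626587851629412027528321573205326330066986552462642514075))
(.leaf 0))
(.node (.leaf 0)
(.leaf 73076445947725416094)))
(.node (.node (.leaf 0)
(.leaf 4026531841))
(.node (.leaf 0)
(.leaf 90202702664)))))
(.node (.node (.node (.node (.node (.leaf 0)
(.leaf 412238673756674916280406136944302873489793557333551402517157093866282740995783772267036117699536794254041942820720603677959912995033899788347145980204634960301431051971343083858777585358540198178671968478088273627578987744971708613989031285806888005980638386767200521411416730408521248666244363942338046130483662235254803390735713035872835946130583587090795828713856308164537510312024260992400838033713928236359201520731568168142227338421816586357875897067270311007479085944434953074715972391930821079418600515747110236581055256573470167984291921298282141102374420164654377945501853008398843418418656493907690151809756333491125320805839879438299181289070085157571763938832139243166089472164391507900302346127627765680206))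
(.leaf 0))
(.node (.leaf 0)
(.leaf 51737493258063052803)))
(.node (.node (.leaf 0)
(.leaf 0))
(.node (.leaf 0)
(.leaf 60137866054))))
(.node (.node (.node (.node (.leaf 0)
(.leaf 327776930012))
(.leaf 0))
(.node (.leaf 0)
(.leaf 338561795807)))
(.node (.node (.leaf 0)
(.leaf 56640274436))
(.node (.leaf 0)
(.leaf 158664296044))))))
(.node (.node (.node (.node (.node (.node (.leaf 0)
(.leaf 16179405357657444652458829442114074055203019151416297190342498016730161919135824958757950140636412861601079845492311982276573791306885393662667688721602258861403601633970726168626069927429846572915352342469527300086013389182594252390750912874883406505260796966707237143291336190107167554466431440987986712260442900373684314059931460639194799837603726327045450935538354954261936931911))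
(.leaf 0))
(.node (.leaf 0)
(.leaf 151666163714)))
(.node (.node (.leaf 0)
(.leaf 0))
(.node (.leaf 0)
(.leaf 8072737742196245318))))
(.node (.node (.node (.node (.leaf 0)
(.leaf 303342094524))
(.leaf 0))
(.node (.leaf 0)
(.leaf 297704425066)))
(.node (.node (.leaf 0)
(.leaf 34360000515))
(.node (.leaf 0)
(.leaf 36538249575682278215)))))
(.node (.node (.node (.node (.node (.leaf 0)
(.leaf 3017676394665138575749513560965587834275210840852542692949451256103702430604137636744227991641667868512520323730860006366361145404048224351811245512713527535489158210536788946675843464565985637890777129674198795074338481684906866230213255841727884785390265115503927734039607918632377626343053981316072705215596443042674168411166779430107868143304243426601026509418655766501154277945932433294499945314507431005381341456381950806590262867431635496383303534697663758660757111161001881641091678882790952689095897522768354552308869512667112766700513319244232712017732052366974769771505756296683616572961939273746324054538913778593356286579978551143775314400113690278425815628127627056319170046012726846162836))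
(.leaf 0))
(.node (.leaf 0)
(.leaf 237047449196)))
(.node (.node (.leaf 0)
(.leaf 0))
(.node (.leaf 0)
(.leaf 74633577289))))
(.node (.node (.node (.leaf 0)
(.leaf 0))
(.node (.leaf 0)
(.leaf 377160008516)))
(.node (.node (.leaf 0)
(.leaf 93415669762))
(.node (.leaf 0)
(.leaf 169938256711))))))))))))

def l0 : List Ax := [.Y false,
  .Y true,
  .u1 false,
  .u2 false,
  .u1 true,
  .u2 true,
  .ex2 false 0 2 1 3 5,
  .ex2 false 0 2 1 4 5,
  .ex2 false 0 1 2 4 6,
  .ex2 false 0 1 2 4 7,
  .ex2 false 0 2 1 4 8,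
  .ex2 false 0 2 1 6 7,
  .ex2 false 0 2 1 6 8,
  .ex2 false 1 2 0 3 6,
  .ex2 false 1 0 2 4 6,
  .ex2 false 1 2 0 4 6,
  .ex2 false 1 0 2 6 8,
  .ex2 false 2 1 0 3 4,
  .ex2 false 2 0 1 4 6,
  .ex2 false 2 1 0 4 6,
  .ex2 false 2 0 1 4 8,
  .ex2 false 2 1 0 4 8,
  .ex2 false 2 0 1 5 6,
  .ex2 false 2 1 0 5 6,
  .ex3 false 1 0 2 3 6 8,
  .ex3 false 1 0 2 4 7 8,
  .ex3 false 2 0 1 6 7 8,
  .ex2 false 0 1 3 2 4,
  .ex2 false 0 1 3 2 5,
  .ex2 false 0 1 3 2 6,
  .ex2 false 1 3 0 4 8,
  .ex2 false 3 0 1 6 8,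
  .ex2 false 4 1 0 2 6,
  .ex2 false 4 0 1 2 8,
  .ex2 false 4 1 0 2 8,
  .ex2 false 4 0 1 7 8,
  .ex2 false 0 1 5 3 4,
  .ex2 false 0 1 5 3 6,
  .ex2 false 0 5 1 4 6,
  .ex2 false 0 1 5 4 7,
  .ex2 false 1 0 5 2 3,
  .ex2 false 1 0 5 2 6,
  .ex2 false 1 0 5 3 7,
  .ex2 false 1 0 5 4 6,
  .ex2 false 5 1 0 2 6,
  .ex3 false 0 1 5 3 4 7,
  .ex3 false 0 1 5 3 6 7,
  .ex3 false 0 1 5 3 6 8,
  .ex3 false 0 1 5 3 7 8,
  .ex2 false 0 1 6 2 8,
  .ex2 false 1 0 6 2 3,
  .ex2 false 1 0 6 2 5,
  .ex2 false 1 0 6 3 8,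
  .ex2 false 6 0 1 2 4,
  .ex2 false 6 1 0 2 4,
  .ex3 false 1 0 6 3 4 7,
  .ex3 false 1 0 6 3 4 8,
  .ex2 false 6 0 1 3 7,
  .ex2 false 6 0 1 4 7,
  .ex2 false 6 1 0 4 7,
  .ex2 false 6 0 1 4 8,
  .ex2 false 6 1 0 4 8,
  .ex2 false 1 0 8 2 3,
  .ex3 false 0 1 8 2 4 6,
  .ex3 false 1 0 8 2 4 6,
  .ex2 false 8 0 1 4 5,
  .ex3 false 2 0 3 4 6 7,
  .ex2 false 4 2 0 1 6,
  .ex2 false 0 5 2 6 8,
  .ex2 false 2 0 5 1 3,
  .ex2 false 2 0 5 1 4,
  .ex3 false 2 0 6 3 7 8,
  .ex2 false 0 2 8 1 6,
  .ex2 false 2 0 8 1 3,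
  .ex2 false 0 3 4 1 2,
  .ex2 false 0 3 4 1 5,
  .ex2 false 0 3 4 1 6,
  .ex2 false 0 4 3 1 6,
  .ex2 false 0 3 4 2 6,
  .ex2 false 0 3 4 2 8,
  .ex2 false 0 3 4 5 6,
  .ex2 false 4 3 0 1 6,
  .ex2 false 4 3 0 2 8,
  .ex2 false 0 3 5 1 2,
  .ex2 false 0 3 5 1 4,
  .ex2 false 0 3 5 1 6,
  .ex2 false 0 3 5 1 8,
  .ex2 false 0 3 5 2 4,
  .ex2 false 0 3 5 4 6,
  .ex2 false 3 0 5 1 4,
  .ex2 false 3 0 5 2 4,
  .ex2 false 3 0 5 4 7,
  .ex2 false 3 0 5 4 8,
  .ex2 false 0 3 6 1 2,
  .ex2 false 0 3 6 1 5,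
  .ex2 false 3 0 6 2 4,
  .ex2 false 3 0 6 4 7,
  .ex2 false 3 0 6 4 8,
  .ex2 false 0 5 4 1 2,
  .ex2 false 0 4 5 1 3,
  .ex2 false 0 5 4 1 6,
  .ex2 false 4 0 5 1 3,
  .ex2 false 4 0 5 2 3,
  .ex2 false 4 0 5 3 7,
  .ex2 false 4 0 5 3 8,
  .ex2 false 0 4 6 1 2,
  .ex2 false 0 4 6 1 3,
  .ex2 false 0 4 6 1 5,
  .ex2 false 0 4 6 1 8,
  .ex2 false 4 0 6 2 3,
  .ex2 false 4 0 6 3 7,
  .ex2 false 4 0 6 3 8,
  .ex3 false 4 0 6 3 7 8,
  .ex2 false 0 4 8 1 2,
  .ex2 false 0 4 8 5 6,
  .ex3 false 0 4 8 1 2 5,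
  .ex2 false 8 0 4 1 2,
  .ex2 false 0 6 5 1 3,
  .ex2 false 0 5 6 3 4,
  .ex3 false 0 5 6 2 3 4,
  .ex3 false 0 5 6 3 4 8,
  .ex3 false 5 0 8 2 3 4,
  .ex2 false 0 8 6 3 4,
  .ex2 false 8 0 6 3 4,
  .ex2 false 8 6 0 4 5,
  .ex2 false 1 2 3 0 5,
  .ex2 false 1 2 3 0 6,
  .ex2 false 3 2 1 0 6,
  .ex3 false 2 1 3 0 4 6,
  .ex2 false 1 2 3 5 6,
  .ex2 false 2 1 3 5 6,
  .ex2 false 3 2 1 4 7,
  .ex2 false 3 2 1 4 8,
  .ex2 false 3 2 1 6 8,
  .ex2 false 1 2 4 6 7,
  .ex2 false 4 2 1 3 8,
  .ex2 false 1 2 5 0 3,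
  .ex3 false 2 1 5 0 3 4,
  .ex2 false 5 2 1 0 3,
  .ex2 false 2 1 5 3 4,
  .ex3 false 2 1 5 3 4 8,
  .ex2 false 5 2 1 3 8,
  .ex2 false 1 2 6 0 3,
  .ex2 false 1 2 6 0 5,
  .ex2 false 1 2 6 3 8,
  .ex2 false 1 6 2 4 5,
  .ex2 false 2 1 6 3 8,
  .ex2 false 2 6 1 4 5,
  .ex2 false 6 2 1 4 7,
  .ex2 false 1 2 8 0 4,
  .ex2 false 2 1 8 3 4,
  .ex2 false 8 2 1 4 6,
  .ex2 false 1 3 4 0 2,
  .ex2 false 1 3 4 0 5,
  .ex2 false 1 3 4 0 6,
  .ex2 false 4 3 1 0 8,
  .ex2 false 1 3 4 2 8,
  .ex2 false 1 3 4 5 6,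
  .ex2 false 3 1 5 0 4,
  .ex2 false 3 1 5 2 4,
  .ex2 false 3 1 5 4 7,
  .ex2 false 3 1 5 4 8,
  .ex2 false 1 3 6 0 2,
  .ex2 false 1 3 6 0 4,
  .ex2 false 1 3 6 0 5,
  .ex2 false 3 1 6 0 4,
  .ex2 false 3 1 6 2 4,
  .ex2 false 3 1 6 4 7,
  .ex2 false 3 1 6 4 8,
  .ex2 false 1 3 8 0 2,
  .ex2 false 3 1 8 0 2,
  .ex3 false 1 3 8 0 5 6,
  .ex2 false 1 3 8 2 6,
  .ex3 false 1 3 8 2 5 6,
  .ex2 false 8 3 1 4 6,
  .ex2 false 1 4 5 0 3,
  .ex2 false 1 5 4 2 8,
  .ex2 false 4 1 5 3 7,
  .ex2 false 4 1 5 3 8,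
  .ex2 false 1 4 6 0 3,
  .ex2 false 1 4 6 0 5,
  .ex2 false 1 4 6 2 3,
  .ex2 false 1 4 6 2 8,
  .ex2 false 4 1 6 2 3,
  .ex2 false 4 1 6 3 7,
  .ex2 false 4 1 6 3 8,
  .ex2 false 1 4 8 0 2,
  .ex2 false 8 4 1 0 6,
  .ex2 false 4 8 1 2 6,
  .ex2 false 1 6 5 0 2,
  .ex2 false 1 6 5 2 3,
  .ex2 false 1 5 6 3 4,
  .ex3 false 1 5 6 2 3 4,
  .ex3 false 1 5 6 3 4 7,
  .ex3 false 1 5 6 3 4 8,
  .ex2 false 7 1 5 3 4,
  .ex2 false 5 8 1 0 3,
  .ex2 false 1 6 8 0 2,
  .ex2 false 8 1 6 3 4,
  .ex2 false 2 3 4 0 1,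
  .ex3 false 2 3 4 0 1 5,
  .ex2 false 2 3 4 0 6,
  .ex2 false 2 3 4 0 8,
  .ex2 false 3 2 4 0 5,
  .ex2 false 3 2 4 0 6,
  .ex2 false 4 3 2 0 8,
  .ex2 false 2 3 4 1 5,
  .ex2 false 2 3 4 1 6,
  .ex2 false 3 2 4 1 5,
  .ex2 false 3 2 4 1 6,
  .ex2 false 4 2 3 1 6,
  .ex2 false 2 3 4 5 6,
  .ex2 false 2 3 4 6 8,
  .ex2 false 3 2 4 5 6,
  .ex2 false 4 2 3 5 6,
  .ex3 false 2 3 5 0 1 6,
  .ex2 false 2 3 5 1 6,
  .ex2 false 5 2 3 1 4,
  .ex2 false 3 2 5 4 8,
  .ex2 false 2 3 6 0 1,
  .ex2 false 2 3 6 0 4,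
  .ex2 false 3 2 6 0 4,
  .ex2 false 3 2 6 1 4,
  .ex2 false 6 2 3 1 4,
  .ex2 false 3 2 6 4 7,
  .ex2 false 3 2 6 4 8,
  .ex2 false 2 3 8 0 1,
  .ex2 false 8 3 2 0 6,
  .ex2 false 8 3 2 1 4,
  .ex2 false 2 3 8 4 5,
  .ex3 false 2 4 5 0 1 3,
  .ex2 false 4 2 5 0 3,
  .ex3 false 2 4 5 1 3 6,
  .ex2 false 4 2 5 3 7,
  .ex2 false 4 2 5 3 8,
  .ex2 false 4 2 6 0 1,
  .ex3 false 2 4 6 0 1 5,
  .ex2 false 6 2 4 0 1,
  .ex2 false 2 4 6 0 3,
  .ex2 false 2 4 6 0 5,
  .ex2 false 6 2 4 0 3,
  .ex2 false 2 4 6 1 3,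
  .ex2 false 4 2 6 1 3,
  .ex3 false 2 4 6 1 3 5,
  .ex2 false 6 2 4 1 3,
  .ex2 false 2 4 6 3 5,
  .ex2 false 4 2 6 3 7,
  .ex2 false 4 2 6 3 8,
  .ex2 false 2 4 8 0 1,
  .ex2 false 6 2 5 0 1,
  .ex2 false 2 5 6 0 4,
  .ex3 false 2 5 6 1 3 4,
  .ex2 false 6 2 5 1 3,
  .ex2 false 2 5 6 3 4,
  .ex3 false 2 5 6 3 4 7,
  .ex3 false 2 5 6 3 4 8,
  .ex2 false 2 6 8 0 1,
  .ex2 false 2 8 6 3 4,
  .ex2 false 4 3 7 0 1,
  .ex2 false 3 4 7 0 2,
  .ex2 false 3 4 7 1 2,
  .ex2 false 7 3 4 1 5,
  .ex3 false 4 3 7 2 5 6,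
  .ex2 false 7 3 4 5 6,
  .ex2 false 7 4 3 5 6,
  .ex2 false 3 4 8 0 1,
  .ex2 false 4 3 8 0 1,
  .ex3 false 3 4 8 0 1 6,
  .ex2 false 8 3 4 0 1,
  .ex2 false 3 4 8 0 2,
  .ex2 false 4 3 8 0 2,
  .ex3 false 3 4 8 0 2 6,
  .ex3 false 4 3 8 0 2 6,
  .ex2 false 8 4 3 0 2,
  .ex2 false 3 4 8 1 2,
  .ex2 false 4 3 8 1 2,
  .ex3 false 3 4 8 1 2 6,
  .ex2 false 8 3 4 1 2,
  .ex2 false 8 3 4 1 6,
  .ex2 false 8 3 4 5 6,
  .ex2 false 8 4 3 5 6,
  .ex2 false 7 5 3 0 2,
  .ex2 false 3 7 5 4 8,
  .ex3 false 5 3 8 0 2 6,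
  .ex2 false 3 8 5 0 4,
  .ex2 false 8 3 5 1 6,
  .ex2 false 3 7 6 2 4,
  .ex2 false 3 7 6 4 8,
  .ex3 false 3 6 8 0 1 4,
  .ex3 false 8 3 6 0 1 5,
  .ex2 false 3 8 6 1 4,
  .ex2 false 3 8 6 1 5,
  .ex2 false 6 8 3 1 5,
  .ex2 false 3 8 6 2 4,
  .ex2 false 3 8 6 4 7,
  .ex2 false 4 7 5 2 3,
  .ex2 false 4 7 5 3 8,
  .ex3 false 5 4 8 0 2 6,
  .ex2 false 5 8 4 0 3,
  .ex2 false 4 8 5 1 3,
  .ex2 false 4 8 5 2 3,
  .ex2 false 4 8 5 3 7,
  .ex3 false 4 6 7 0 2 5,
  .ex2 false 4 7 6 0 3,
  .ex2 false 6 7 4 0 3,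
  .ex3 false 7 4 6 1 3 5,
  .ex2 false 4 7 6 2 3,
  .ex2 false 4 7 6 3 8,
  .ex2 false 7 4 6 3 5,
  .ex3 false 8 4 6 0 1 3,
  .ex2 false 6 4 8 0 1,
  .ex2 false 8 4 6 0 1,
  .ex3 false 4 6 8 0 2 3,
  .ex2 false 6 4 8 0 2,
  .ex2 false 8 4 6 0 2,
  .ex2 false 4 8 6 0 3,
  .ex3 false 8 4 6 0 3 5,
  .ex2 false 8 4 6 0 3,
  .ex2 false 4 8 6 0 5,
  .ex2 false 6 8 4 0 5,
  .ex2 false 6 4 8 1 2,
  .ex2 false 8 4 6 1 2,
  .ex2 false 4 8 6 1 3,
  .ex2 false 6 8 4 1 3,
  .ex2 false 8 4 6 1 3,
  .ex2 false 4 8 6 2 3,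
  .ex3 false 4 6 8 2 3 7,
  .ex2 false 4 8 6 3 7,
  .ex2 false 8 4 6 3 5,
  .ex3 false 7 5 6 2 3 4,
  .ex3 false 7 5 6 3 4 8,
  .ex3 false 8 5 6 1 3 4,
  .ex3 false 8 5 6 2 3 4,
  .ex3 false 8 5 6 3 4 7,
  .ex2 false 8 5 6 3 4,
  .ex2 false 7 8 6 3 4,
  .ex2 false 8 7 6 3 4,
  .ex2 true 0 1 2 3 8,
  .ex2 true 0 2 1 6 8,
  .ex2 true 1 2 0 4 5,
  .ex2 true 1 0 2 4 6,
  .ex2 true 1 2 0 4 8,
  .ex2 true 1 0 2 6 8,
  .ex2 true 1 2 0 6 8,
  .ex2 true 2 1 0 3 4,
  .ex2 true 2 1 0 3 8,
  .ex2 true 2 0 1 4 6,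
  .ex2 true 2 0 1 4 8,
  .ex2 true 2 1 0 4 8,
  .ex2 true 2 1 0 6 8,
  .ex3 true 2 0 1 4 6 8,
  .ex2 true 0 3 1 4 8,
  .ex2 true 0 1 3 7 8,
  .ex2 true 1 0 3 5 8,
  .ex2 true 3 1 0 4 6,
  .ex2 true 3 0 1 6 8,
  .ex3 true 0 1 3 6 7 8,
  .ex2 true 4 1 0 2 3,
  .ex2 true 4 1 0 2 8,
  .ex3 true 0 1 4 2 7 8,
  .ex2 true 4 0 1 6 8,
  .ex3 true 0 1 4 5 7 8,
  .ex2 true 0 1 6 2 7,
  .ex2 true 1 0 6 2 4,
  .ex2 true 1 0 6 2 8,
  .ex3 true 1 0 6 2 7 8,
  .ex2 true 6 0 1 4 8,
  .ex2 true 6 1 0 4 8,
  .ex2 true 6 1 0 7 8,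
  .ex2 true 1 0 7 3 4,
  .ex2 true 1 0 7 3 5,
  .ex3 true 0 1 7 3 4 5,
  .ex3 true 0 1 7 3 5 8,
  .ex3 true 0 1 7 3 6 8,
  .ex3 true 1 0 7 4 5 8,
  .ex2 true 1 0 8 2 3,
  .ex2 true 1 0 8 3 4,
  .ex2 true 8 1 0 2 4,
  .ex2 true 8 0 1 2 6,
  .ex3 true 0 1 8 3 4 5,
  .ex3 true 0 1 8 3 4 6,
  .ex3 true 1 0 8 3 4 6,
  .ex2 true 8 0 1 4 5,
  .ex2 true 8 1 0 4 5,
  .ex2 true 8 0 1 4 6,
  .ex2 true 8 1 0 4 6,
  .ex2 true 2 0 6 4 8,
  .ex2 true 2 0 8 1 6,
  .ex2 true 2 0 8 3 4,
  .ex2 true 0 3 4 1 2,
  .ex2 true 0 3 4 1 7,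
  .ex2 true 0 3 4 1 8,
  .ex2 true 0 4 3 7 8,
  .ex2 true 5 3 0 1 4,
  .ex2 true 0 3 6 1 2,
  .ex2 true 3 0 7 1 4,
  .ex3 true 0 3 7 1 4 8,
  .ex2 true 3 0 7 4 5,
  .ex2 true 3 0 7 4 6,
  .ex2 true 0 3 8 1 2,
  .ex2 true 0 3 8 1 4,
  .ex2 true 0 3 8 4 6,
  .ex2 true 3 0 8 1 4,
  .ex2 true 8 0 3 1 4,
  .ex2 true 3 0 8 2 4,
  .ex2 true 3 0 8 4 5,
  .ex2 true 3 0 8 4 6,
  .ex3 true 5 0 4 1 2 8,
  .ex2 true 0 4 6 1 2,
  .ex2 true 0 6 4 1 2,
  .ex2 true 0 4 6 2 8,
  .ex2 true 0 4 7 1 8,
  .ex3 true 0 4 7 1 3 8,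
  .ex2 true 4 0 7 3 5,
  .ex2 true 4 0 7 3 6,
  .ex2 true 0 4 8 1 2,
  .ex2 true 0 8 4 1 2,
  .ex2 true 0 4 8 1 3,
  .ex2 true 0 4 8 1 6,
  .ex2 true 0 8 4 1 6,
  .ex2 true 0 4 8 2 6,
  .ex2 true 8 4 0 1 6,
  .ex2 true 4 0 8 2 3,
  .ex2 true 4 0 8 3 6,
  .ex2 true 0 8 5 1 2,
  .ex2 true 0 6 8 1 2,
  .ex2 true 0 8 6 1 2,
  .ex3 true 0 6 8 1 2 3,
  .ex2 true 8 0 6 1 2,
  .ex3 true 6 0 8 3 4 5,
  .ex2 true 6 0 8 3 4,
  .ex2 true 6 8 0 4 7,
  .ex3 true 0 7 8 1 3 4,
  .ex2 true 8 0 7 1 4,
  .ex3 true 0 7 8 2 3 4,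
  .ex3 true 7 0 8 2 3 4,
  .ex3 true 0 7 8 3 4 5,
  .ex3 true 0 7 8 3 4 6,
  .ex2 true 1 2 3 0 7,
  .ex2 true 1 2 3 0 8,
  .ex2 true 3 2 1 0 8,
  .ex2 true 1 2 3 6 8,
  .ex2 true 1 2 3 7 8,
  .ex2 true 2 1 3 7 8,
  .ex2 true 3 2 1 4 5,
  .ex2 true 3 2 1 4 6,
  .ex2 true 3 2 1 5 8,
  .ex2 true 3 2 1 6 8,
  .ex3 true 2 1 3 6 7 8,
  .ex2 true 4 2 1 3 5,
  .ex2 true 4 2 1 3 6,
  .ex2 true 4 2 1 6 8,
  .ex2 true 1 2 5 0 3,
  .ex2 true 1 2 6 0 8,
  .ex2 true 1 2 6 4 8,
  .ex2 true 6 2 1 4 8,
  .ex2 true 1 2 8 0 3,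
  .ex3 true 2 1 8 0 3 4,
  .ex2 true 8 2 1 0 3,
  .ex2 true 1 2 8 3 4,
  .ex2 true 2 1 8 3 4,
  .ex3 true 2 1 8 3 4 6,
  .ex2 true 8 2 1 4 5,
  .ex2 true 8 2 1 4 6,
  .ex2 true 1 3 4 0 2,
  .ex2 true 1 4 3 0 8,
  .ex3 true 3 1 4 0 6 8,
  .ex3 true 3 1 4 0 7 8,
  .ex2 true 1 4 3 5 8,
  .ex3 true 3 1 4 2 6 8,
  .ex3 true 4 1 3 6 7 8,
  .ex2 true 1 3 5 0 2,
  .ex2 true 1 5 3 0 4,
  .ex2 true 3 1 5 0 2,
  .ex3 true 5 1 3 0 4 8,
  .ex2 true 5 3 1 4 8,
  .ex2 true 1 3 6 0 2,
  .ex3 true 6 1 3 0 4 8,
  .ex2 true 1 3 6 2 8,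
  .ex2 true 6 3 1 2 4,
  .ex2 true 6 3 1 4 8,
  .ex2 true 3 1 7 0 4,
  .ex2 true 3 1 7 2 4,
  .ex2 true 3 1 7 4 5,
  .ex2 true 3 1 7 4 6,
  .ex2 true 1 3 8 0 4,
  .ex2 true 8 3 1 0 6,
  .ex2 true 3 1 8 2 4,
  .ex2 true 3 1 8 4 5,
  .ex2 true 3 1 8 4 6,
  .ex2 true 1 4 5 0 2,
  .ex2 true 1 4 5 0 6,
  .ex2 true 1 4 5 0 7,
  .ex2 true 1 4 5 0 8,
  .ex3 true 5 1 4 0 3 8,
  .ex2 true 4 5 1 6 8,
  .ex2 true 1 4 6 0 2,
  .ex3 true 1 4 6 0 2 8,
  .ex3 true 4 1 6 0 2 8,
  .ex2 true 4 6 1 0 8]

theorem a0 : axchk 9 2 0 true (Tr.get ⟨9, 0, 0, 0⟩ v) (Tr.get 0 g) l0 500 0 = true := by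
  decide +kernel

def l1 : List Ax := [.ex2 true 1 4 6 2 8,
  .ex2 true 1 4 6 3 5,
  .ex2 true 1 4 6 7 8,
  .ex2 true 4 6 1 2 8,
  .ex2 true 1 4 7 0 8,
  .ex2 true 4 1 7 3 5,
  .ex2 true 4 1 7 3 6,
  .ex2 true 1 4 8 0 2,
  .ex2 true 1 4 8 0 3,
  .ex2 true 1 4 8 0 6,
  .ex2 true 1 4 8 0 7,
  .ex2 true 4 1 8 0 3,
  .ex2 true 8 4 1 0 6,
  .ex2 true 1 4 8 2 3,
  .ex2 true 1 4 8 3 6,
  .ex2 true 4 1 8 2 3,
  .ex2 true 8 4 1 2 6,
  .ex2 true 4 1 8 3 5,
  .ex2 true 4 1 8 3 6,
  .ex2 true 8 4 1 3 6,
  .ex2 true 5 6 1 0 4,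
  .ex2 true 5 1 7 3 4,
  .ex2 true 5 1 7 4 6,
  .ex2 true 1 8 5 0 2,
  .ex2 true 1 5 8 2 3,
  .ex2 true 5 1 8 3 4,
  .ex3 true 5 1 8 3 4 6,
  .ex2 true 8 5 1 4 6,
  .ex2 true 6 1 7 3 4,
  .ex2 true 6 7 1 4 8,
  .ex2 true 1 6 8 0 2,
  .ex2 true 1 8 6 0 2,
  .ex2 true 1 6 8 0 7,
  .ex3 true 6 1 8 0 3 4,
  .ex2 true 8 6 1 0 3,
  .ex2 true 8 6 1 0 4,
  .ex2 true 1 6 8 2 3,
  .ex2 true 1 8 6 2 3,
  .ex2 true 1 8 6 2 4,
  .ex2 true 1 8 6 2 5,
  .ex2 true 8 6 1 2 4,
  .ex3 true 6 1 8 3 4 5,
  .ex2 true 6 1 8 3 4,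
  .ex2 true 6 8 1 3 4,
  .ex2 true 1 7 8 2 3,
  .ex2 true 1 8 7 3 6,
  .ex3 true 1 7 8 3 4 6,
  .ex2 true 2 3 4 0 1,
  .ex2 true 3 2 4 0 1,
  .ex2 true 2 3 4 0 6,
  .ex2 true 2 3 4 0 8,
  .ex2 true 3 2 4 0 8,
  .ex2 true 4 3 2 0 6,
  .ex2 true 4 2 3 0 8,
  .ex2 true 2 3 4 1 8,
  .ex2 true 3 2 4 1 8,
  .ex2 true 4 3 2 1 5,
  .ex2 true 4 2 3 1 8,
  .ex2 true 3 2 4 7 8,
  .ex2 true 4 2 3 7 8,
  .ex2 true 3 2 7 1 4,
  .ex3 true 2 3 7 1 4 8,
  .ex2 true 3 2 7 4 5,
  .ex2 true 3 2 7 4 6,
  .ex2 true 2 3 8 0 1,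
  .ex3 true 2 3 8 0 1 7,
  .ex2 true 2 3 8 0 4,
  .ex2 true 8 2 3 0 4,
  .ex2 true 8 3 2 0 6,
  .ex2 true 2 3 8 1 4,
  .ex2 true 3 2 8 1 4,
  .ex2 true 3 2 8 1 7,
  .ex2 true 8 2 3 1 4,
  .ex2 true 3 2 8 4 5,
  .ex2 true 3 2 8 4 6,
  .ex2 true 6 4 2 0 8,
  .ex2 true 6 4 2 1 8,
  .ex2 true 2 4 7 0 3,
  .ex2 true 2 4 7 0 8,
  .ex2 true 2 4 7 1 3,
  .ex2 true 4 2 7 3 5,
  .ex2 true 4 2 7 3 6,
  .ex2 true 2 4 8 0 1,
  .ex3 true 2 4 8 0 1 3,
  .ex2 true 2 4 8 0 3,
  .ex2 true 4 2 8 0 3,
  .ex3 true 2 4 8 0 3 7,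
  .ex2 true 8 4 2 0 6,
  .ex2 true 8 2 4 0 7,
  .ex2 true 2 4 8 1 3,
  .ex2 true 4 2 8 1 3,
  .ex2 true 4 2 8 1 7,
  .ex2 true 8 2 4 1 7,
  .ex2 true 4 2 8 3 5,
  .ex2 true 4 2 8 3 6,
  .ex2 true 2 8 6 0 1,
  .ex3 true 2 6 8 0 1 4,
  .ex3 true 2 6 8 0 1 7,
  .ex2 true 2 8 6 1 3,
  .ex2 true 2 6 8 3 4,
  .ex2 true 6 2 8 3 4,
  .ex2 true 2 7 8 0 4,
  .ex2 true 8 2 7 1 4,
  .ex2 true 2 7 8 3 4,
  .ex3 true 2 7 8 3 4 5,
  .ex3 true 2 7 8 3 4 6,
  .ex3 true 3 4 5 0 1 2,
  .ex2 true 5 3 4 0 1,
  .ex3 true 3 4 5 0 1 6,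
  .ex2 true 3 4 5 0 2,
  .ex2 true 4 3 5 0 2,
  .ex3 true 3 4 5 0 2 8,
  .ex2 true 5 4 3 0 8,
  .ex2 true 3 4 5 1 2,
  .ex2 true 5 3 4 7 8,
  .ex2 true 5 4 3 7 8,
  .ex3 true 3 4 6 0 1 2,
  .ex2 true 3 4 6 0 1,
  .ex2 true 4 3 6 0 1,
  .ex2 true 6 3 4 0 1,
  .ex3 true 4 3 6 0 1 8,
  .ex2 true 3 4 6 0 2,
  .ex2 true 4 3 6 0 2,
  .ex2 true 6 3 4 0 2,
  .ex3 true 3 4 6 0 2 8,
  .ex2 true 6 3 4 0 8,
  .ex2 true 3 4 6 1 2,
  .ex2 true 6 3 4 1 2,
  .ex2 true 6 3 4 1 7,
  .ex2 true 6 3 4 1 8,
  .ex2 true 6 3 4 2 8,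
  .ex2 true 6 3 4 7 8,
  .ex2 true 6 4 3 7 8,
  .ex2 true 6 3 5 1 2,
  .ex3 true 7 3 5 0 2 8,
  .ex2 true 3 5 7 0 4,
  .ex2 true 3 5 7 1 4,
  .ex2 true 3 5 7 2 4,
  .ex2 true 3 5 7 4 6,
  .ex2 true 3 5 8 1 4,
  .ex2 true 8 5 3 1 4,
  .ex2 true 5 3 8 1 7,
  .ex2 true 3 5 8 2 4,
  .ex2 true 3 5 8 4 6,
  .ex3 true 6 3 7 0 1 4,
  .ex3 true 6 3 7 0 1 8,
  .ex2 true 3 6 7 0 4,
  .ex2 true 3 6 7 2 4,
  .ex2 true 3 6 7 4 5,
  .ex3 true 3 6 8 0 1 2,
  .ex2 true 3 6 8 0 1,
  .ex2 true 8 3 6 0 1,
  .ex2 true 3 8 6 0 2,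
  .ex2 true 8 6 3 0 4,
  .ex3 true 3 6 8 1 2 4,
  .ex2 true 3 6 8 1 4,
  .ex2 true 3 6 8 1 7,
  .ex2 true 6 3 8 1 4,
  .ex3 true 6 3 8 1 4 7,
  .ex2 true 8 6 3 1 4,
  .ex2 true 6 3 8 1 7,
  .ex2 true 3 6 8 2 4,
  .ex2 true 3 6 8 4 5,
  .ex2 true 5 4 6 7 8,
  .ex3 true 5 4 7 0 1 8,
  .ex3 true 7 4 5 0 2 8,
  .ex2 true 4 5 7 1 3,
  .ex2 true 4 5 7 1 8,
  .ex2 true 4 5 7 2 3,
  .ex2 true 4 5 7 3 6,
  .ex2 true 4 8 5 0 2,
  .ex2 true 8 5 4 0 3,
  .ex2 true 4 8 5 1 2,
  .ex2 true 5 4 8 1 3,
  .ex2 true 4 5 8 2 3,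
  .ex2 true 4 5 8 3 6,
  .ex2 true 5 4 8 3 6,
  .ex3 true 6 4 7 0 1 3,
  .ex2 true 4 6 7 2 3,
  .ex2 true 6 4 7 2 8,
  .ex2 true 4 6 7 3 5,
  .ex2 true 6 4 7 3 5,
  .ex3 true 4 6 8 0 1 2,
  .ex3 true 4 6 8 0 1 3,
  .ex3 true 6 4 8 0 1 3,
  .ex2 true 4 8 6 0 1,
  .ex3 true 4 6 8 0 1 7,
  .ex3 true 6 4 8 0 1 7,
  .ex2 true 8 4 6 0 1,
  .ex2 true 4 6 8 0 3,
  .ex3 true 4 6 8 1 2 3,
  .ex2 true 8 4 6 1 2,
  .ex2 true 4 6 8 1 3,
  .ex2 true 6 4 8 1 3,
  .ex3 true 6 4 8 1 3 7,
  .ex2 true 8 6 4 1 3,
  .ex2 true 4 8 6 1 5,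
  .ex2 true 4 6 8 1 7,
  .ex2 true 8 6 4 1 7,
  .ex2 true 4 6 8 2 3,
  .ex2 true 4 6 8 3 5,
  .ex2 true 6 7 5 0 2,
  .ex2 true 5 8 7 3 4,
  .ex2 true 7 8 6 0 1,
  .ex2 true 6 7 8 2 4,
  .ex3 true 6 7 8 3 4 5,
  .ch 3 4 7 0 1 2,
  .ch 3 4 8 0 1 2,
  .ch 3 5 7 0 1 2,
  .ch 3 5 8 0 1 2,
  .ch 3 5 7 0 2 1,
  .ch 3 5 8 0 2 1,
  .ch 3 5 7 2 1 0,
  .ch 3 5 8 2 1 0,
  .ch 3 6 7 0 1 2,
  .ch 3 6 8 0 1 2,
  .ch 3 6 7 0 2 1,
  .ch 3 6 8 0 2 1,
  .ch 3 6 8 2 1 0,
  .ch 3 7 5 0 1 2,
  .ch 3 7 6 0 1 2,
  .ch 3 7 5 0 2 1,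
  .ch 3 7 6 0 2 1,
  .ch 3 7 5 1 0 2,
  .ch 3 7 5 2 1 0,
  .ch 3 7 6 2 1 0,
  .ch 3 8 5 0 1 2,
  .ch 3 8 6 0 1 2,
  .ch 3 8 5 0 2 1,
  .ch 3 8 6 0 2 1,
  .ch 3 8 5 2 1 0,
  .ch 3 8 6 2 1 0,
  .ch 4 5 8 0 1 2,
  .ch 4 5 8 0 2 1,
  .ch 4 5 7 1 0 2,
  .ch 4 5 8 1 0 2,
  .ch 4 5 7 1 2 0,
  .ch 4 5 8 1 2 0,
  .ch 4 5 7 2 0 1,
  .ch 4 5 8 2 0 1,
  .ch 4 5 8 2 1 0,
  .ch 4 6 7 0 1 2,
  .ch 4 6 8 0 1 2,
  .ch 4 6 7 0 2 1,
  .ch 4 6 8 0 2 1,
  .ch 4 6 7 1 0 2,
  .ch 4 6 8 1 0 2,
  .ch 4 6 7 1 2 0,
  .ch 4 6 8 1 2 0,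
  .ch 4 6 7 2 0 1,
  .ch 4 6 8 2 0 1,
  .ch 4 6 7 2 1 0,
  .ch 4 6 8 2 1 0,
  .ch 4 7 6 1 0 2,
  .ch 4 7 6 2 0 1,
  .ch 4 7 6 2 1 0,
  .ch 4 8 5 0 1 2,
  .ch 4 8 6 0 1 2,
  .ch 4 8 5 0 2 1,
  .ch 4 8 6 0 2 1,
  .ch 4 8 5 1 0 2,
  .ch 4 8 6 1 0 2,
  .ch 4 8 5 1 2 0,
  .ch 4 8 6 1 2 0,
  .ch 4 8 5 2 0 1,
  .ch 4 8 6 2 0 1,
  .ch 4 8 5 2 1 0,
  .ch 4 8 6 2 1 0,
  .ch 5 4 8 0 1 2,
  .ch 5 4 7 0 2 1,
  .ch 5 4 8 0 2 1,
  .ch 5 4 7 2 0 1,
  .ch 5 4 8 2 0 1,
  .ch 5 4 8 2 1 0,
  .ch 5 6 7 0 1 2,
  .ch 5 6 7 0 2 1,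
  .ch 5 6 8 0 2 1,
  .ch 5 7 4 0 2 1,
  .ch 5 7 4 1 2 0,
  .ch 5 7 4 2 0 1,
  .ch 5 8 3 0 2 1,
  .ch 5 8 4 0 2 1,
  .ch 5 8 3 2 0 1,
  .ch 5 8 4 2 0 1,
  .ch 6 4 7 0 1 2,
  .ch 6 4 8 0 1 2,
  .ch 6 4 7 0 2 1,
  .ch 6 4 8 0 2 1,
  .ch 6 4 7 1 0 2,
  .ch 6 4 8 1 0 2,
  .ch 6 4 8 1 2 0,
  .ch 6 4 7 2 0 1,
  .ch 6 4 8 2 0 1,
  .ch 6 4 7 2 1 0,
  .ch 6 4 8 2 1 0,
  .ch 6 5 8 0 2 1,
  .ch 6 5 7 1 0 2,
  .ch 6 5 7 1 2 0,
  .ch 6 5 7 2 0 1,
  .ch 6 5 8 2 0 1,
  .ch 6 7 4 0 2 1,
  .ch 6 7 8 0 2 1,
  .ch 6 7 8 1 2 0,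
  .ch 6 7 4 2 0 1,
  .ch 6 7 4 2 1 0,
  .ch 6 8 4 0 1 2,
  .ch 6 8 4 0 2 1,
  .ch 6 8 4 1 0 2,
  .ch 6 8 4 1 2 0,
  .ch 6 8 4 2 0 1,
  .ch 6 8 4 2 1 0,
  .ch 7 6 4 2 1 0,
  .ch 8 3 6 1 0 2,
  .ch 8 4 5 0 1 2,
  .ch 8 4 6 0 1 2,
  .ch 8 4 5 0 2 1,
  .ch 8 4 6 0 2 1,
  .ch 8 4 5 1 0 2,
  .ch 8 4 6 1 0 2,
  .ch 8 4 5 1 2 0,
  .ch 8 4 6 1 2 0,
  .ch 8 4 5 2 0 1,
  .ch 8 4 6 2 0 1,
  .ch 8 4 5 2 1 0,
  .ch 8 4 6 2 1 0,
  .ch 8 5 4 1 0 2,
  .ch 8 5 6 1 2 0,
  .ch 8 5 4 2 0 1,
  .ch 8 5 4 2 1 0,
  .ch 8 6 4 0 1 2,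
  .ch 8 6 4 0 2 1,
  .ch 8 6 4 1 0 2,
  .ch 8 6 4 1 2 0,
  .ch 8 6 4 2 0 1,
  .ch 8 6 4 2 1 0,
  .tA false 5,
  .tA true 5,
  .tA false 6,
  .tA true 6,
  .tC false 7,
  .tC false 8,
  .ux false 3,
  .ux true 3,
  .uc 3 7,
  .uc 3 8,
  .u4 false 3 6 3,
  .u5 false 3 7 8 6 3,
  .u4 true 3 7 3,
  .u4 true 3 8 3,
  .ux false 5,
  .uc 5 3,
  .uc 5 4,
  .uc 5 6,
  .u4 false 5 3 5,
  .u4 false 5 4 5,
  .u4 false 5 6 5,
  .u3 true 5 3 4 6,
  .ux false 6,
  .ux true 6,
  .uc 6 3,
  .uc 6 4,
  .uc 6 5,
  .uc 6 7,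
  .uc 6 8,
  .u3 false 6 3 7 8,
  .u4 false 6 3 6,
  .u4 false 6 4 6,
  .u4 false 6 5 3,
  .u4 false 6 5 6,
  .u5 false 6 3 4 6 2,
  .u5 false 6 3 8 5 4,
  .u5 false 6 3 8 6 4,
  .u5 false 6 4 8 5 3,
  .u5 false 6 4 8 6 5,
  .u3 true 6 3 4 5,
  .u3 true 6 3 5 8,
  .u3 true 6 4 5 8,
  .u4 true 6 3 8,
  .u4 true 6 4 8,
  .u4 true 6 7 3,
  .u4 true 6 8 3,
  .u4 true 6 8 6,
  .u5 true 6 4 8 3 2,
  .ux false 7,
  .ux true 7,
  .uc 7 3,
  .uc 7 8,
  .u3 false 7 3 4 8,
  .u4 false 7 3 6,
  .u4 false 7 8 4,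
  .u5 false 7 3 8 7 1,
  .u5 false 7 3 8 7 4,
  .u5 false 7 6 8 7 4,
  .u4 true 7 3 7,
  .u4 true 7 8 3,
  .u4 true 7 8 7,
  .ux false 8,
  .ux true 8,
  .uc 8 3,
  .uc 8 4,
  .uc 8 5,
  .uc 8 6,
  .uc 8 7,
  .u3 false 8 3 4 7,
  .u3 false 8 3 5 7,
  .u3 false 8 3 6 7,
  .u4 false 8 3 6,
  .u4 false 8 4 6,
  .u4 false 8 6 4,
  .u4 false 8 6 8,
  .u5 false 8 3 5 4 1,
  .u5 false 8 3 7 8 4,
  .u3 true 8 4 5 6,
  .u4 true 8 3 8,
  .u4 true 8 4 8,
  .u4 true 8 7 3,
  .u4 true 8 7 8,
  .u5 true 8 4 5 7 3,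
  .u5 true 8 4 6 7 3,
  .w2 6 320 7,
  .w1 6 320 5,
  .w1 6 320 4,
  .w2 6 320 3,
  .O 1 2 6 8 0,
  .w2 10 258 7,
  .w1 10 258 6,
  .w1 10 258 5,
  .w2 10 258 4,
  .w2 10 24 8,
  .w2 10 24 7,
  .w1 10 24 6,
  .w1 10 24 5,
  .w2 10 264 7,
  .w1 10 264 6,
  .w1 10 264 5,
  .w2 10 264 4,
  .w1 10 80 8,
  .w2 10 80 8,
  .w2 10 80 7,
  .w1 10 80 5,
  .w2 10 80 2,
  .O 1 3 4 6 0,
  .w2 18 12 8,
  .w2 18 12 7,
  .w1 18 12 6,
  .w1 18 12 5,
  .O 1 4 2 3 0,
  .w2 18 288 7,
  .w2 18 288 6,
  .w2 18 288 3,
  .w1 18 288 2,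
  .O 1 4 5 8 0,
  .w2 34 24 8,
  .w2 34 24 7,
  .w1 34 24 6,
  .w1 34 24 2,
  .O 1 5 3 4 0,
  .w2 34 80 8,
  .w2 34 80 7,
  .w1 34 80 3,
  .w2 66 66 8,
  .w2 66 66 7,
  .w1 66 66 5,
  .w1 66 66 4,
  .w1 66 66 3,
  .w2 66 66 2,
  .O 1 6 1 6 0,
  .w1 66 258 7,
  .w1 66 258 5,
  .w2 66 258 4,
  .w1 66 258 3,
  .w2 66 260 7,
  .w2 66 260 5,
  .w1 66 260 4,
  .w2 66 260 3,
  .O 1 6 2 8 0,
  .w2 66 272 7,
  .w1 66 272 5,
  .w2 66 272 3,
  .w2 66 192 8,
  .w2 66 192 5,
  .w1 66 192 4,
  .w2 66 192 3,
  .w2 12 264 7,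
  .w1 12 264 6,
  .w1 12 264 5,
  .w2 12 264 4,
  .w2 12 264 1,
  .O 2 3 3 8 0,
  .w2 12 272 7,
  .w1 12 272 6,
  .w1 12 272 5,
  .w2 20 10 8,
  .w2 20 10 7,
  .w1 20 10 6,
  .w2 20 10 6,
  .w1 20 10 5,
  .w2 20 10 5,
  .O 2 4 1 3 0,
  .w2 20 258 7]

theorem a1 : axchk 9 2 0 true (Tr.get ⟨9, 0, 0, 0⟩ v) (Tr.get 0 g) l1 1000 500 = true := by
  decide +kernel

def l2 : List Ax := [.w2 20 258 6,
  .w2 20 258 5,
  .w2 20 258 3,
  .O 2 4 1 8 0,
  .w2 20 72 8,
  .w2 20 72 7,
  .w1 20 72 5,
  .w2 20 72 5,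
  .w2 20 272 7,
  .w1 20 272 6,
  .w1 20 272 5,
  .w2 20 272 3,
  .w2 20 272 1,
  .O 2 4 4 8 0,
  .w2 36 72 8,
  .w2 36 72 7,
  .w1 36 72 4,
  .w2 36 72 1,
  .O 2 5 3 6 0,
  .w2 36 320 7,
  .w2 36 320 4,
  .w1 36 320 3,
  .w2 36 320 1,
  .O 2 5 6 8 0,
  .w2 68 10 8,
  .w2 68 10 7,
  .w1 68 10 5,
  .w2 68 10 5,
  .w1 68 10 4,
  .w2 68 10 4,
  .O 2 6 1 3 0,
  .w2 68 24 8,
  .w2 68 24 7,
  .w1 68 24 5,
  .w2 68 80 8,
  .w2 68 80 7,
  .w1 68 80 5,
  .w1 68 80 3,
  .w2 68 80 1,
  .O 2 6 4 6 0,
  .w2 68 272 7,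
  .w1 68 272 5,
  .w2 68 272 3,
  .w2 68 320 7,
  .w2 68 320 5,
  .w1 68 320 4,
  .w2 68 320 3,
  .w2 68 320 1,
  .O 2 6 6 8 0,
  .w2 24 10 8,
  .w2 24 10 7,
  .w1 24 10 6,
  .w1 24 10 5,
  .w2 24 258 7,
  .w1 24 258 6,
  .w1 24 258 5,
  .w2 24 12 8,
  .w2 24 12 7,
  .w1 24 12 6,
  .w1 24 12 5,
  .w2 24 20 8,
  .w2 24 20 7,
  .w1 24 20 6,
  .w1 24 20 5,
  .w1 24 20 1,
  .O 3 4 2 4 0,
  .w2 24 264 7,
  .w1 24 264 6,
  .w1 24 264 5,
  .w2 24 264 1,
  .w2 24 272 7,
  .w1 24 272 6,
  .w1 24 272 5,
  .w1 24 272 1,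
  .w2 24 272 1,
  .w2 24 320 7,
  .w1 24 320 5,
  .w2 24 320 1,
  .w2 72 10 8,
  .w2 72 10 7,
  .w1 72 10 5,
  .w1 72 10 4,
  .w2 72 12 8,
  .w2 72 12 7,
  .w1 72 12 5,
  .w1 72 12 4,
  .w2 72 20 8,
  .w2 72 20 7,
  .w1 72 20 5,
  .w1 72 20 1,
  .O 3 6 2 4 0,
  .w2 72 24 8,
  .w2 72 24 7,
  .w1 72 24 5,
  .w1 72 24 1,
  .w2 72 272 7,
  .w1 72 272 5,
  .w1 72 272 1,
  .w1 136 320 5,
  .w2 136 320 4,
  .w2 136 320 2,
  .w2 136 320 1,
  .O 3 7 6 8 0,
  .w1 264 160 6,
  .w2 264 160 4,
  .w1 264 160 2,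
  .w2 80 10 8,
  .w2 80 10 7,
  .w1 80 10 5,
  .w2 80 260 7,
  .w1 80 260 5,
  .w1 80 260 3,
  .w2 80 264 7,
  .w1 80 264 5,
  .w2 80 264 1,
  .w2 80 272 7,
  .w1 80 272 5,
  .w1 80 272 3,
  .w1 80 272 1,
  .w2 80 272 1,
  .w2 144 12 8,
  .w1 144 12 6,
  .w1 144 12 5,
  .w1 144 72 8,
  .w1 144 72 5,
  .w1 144 72 2,
  .w1 144 72 1,
  .O 4 7 3 6 0,
  .w2 272 258 7,
  .w1 272 258 6,
  .w2 272 258 6,
  .w2 272 258 5,
  .w2 272 258 3,
  .w1 272 258 2,
  .O 4 8 1 8 0,
  .w2 272 40 7,
  .w1 272 40 6,
  .w1 272 40 2,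
  .w1 272 72 7,
  .w2 272 72 7,
  .w1 272 72 5,
  .w1 272 72 2,
  .w2 272 320 7,
  .w1 272 320 5,
  .w2 272 320 3,
  .w1 272 320 2,
  .w2 160 20 8,
  .w1 160 20 6,
  .w1 160 20 3,
  .w1 160 260 6,
  .w2 160 260 4,
  .w1 160 260 3,
  .w1 192 320 5,
  .w2 192 320 4,
  .w1 192 320 3,
  .w2 192 320 2,
  .w2 192 320 1,
  .O 6 7 6 8 0,
  .w1 320 68 7,
  .w1 320 68 5,
  .w2 320 68 4,
  .w1 320 68 3,
  .w2 320 68 1,
  .O 6 8 2 6 0,
  .w2 5 24 8,
  .w2 5 24 7,
  .w1 5 24 6,
  .w1 5 24 5,
  .O 0 2 3 4 1,
  .w2 5 160 8,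
  .w2 5 160 6,
  .w1 5 160 4,
  .w2 5 160 3,
  .O 0 2 5 7 1,
  .w2 5 288 7,
  .w1 5 288 6,
  .w1 5 288 4,
  .w2 5 288 3,
  .O 0 2 5 8 1,
  .w2 9 264 7,
  .w1 9 264 6,
  .w1 9 264 5,
  .w2 9 264 4,
  .w1 9 264 2,
  .O 0 3 3 8 1,
  .w2 17 12 8,
  .w1 17 12 7,
  .w2 17 12 7,
  .w1 17 12 6,
  .w1 17 12 5,
  .O 0 4 2 3 1,
  .w2 17 24 8,
  .w2 17 24 7,
  .w1 17 24 6,
  .w1 17 24 5,
  .w2 17 40 8,
  .w1 17 40 7,
  .w2 17 40 7,
  .w1 17 40 6,
  .w1 17 40 2,
  .O 0 4 3 5 1,
  .w2 17 72 8,
  .w2 17 72 7,
  .w1 17 72 5,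
  .w1 17 72 2,
  .O 0 4 3 6 1,
  .w2 17 272 7,
  .w1 17 272 6,
  .w1 17 272 5,
  .w2 17 272 3,
  .w2 33 24 8,
  .w2 33 24 7,
  .w1 33 24 6,
  .w1 33 24 2,
  .O 0 5 3 4 1,
  .w2 33 264 7,
  .w1 33 264 6,
  .w2 33 264 4,
  .w1 33 264 2,
  .O 0 5 3 8 1,
  .w2 65 12 8,
  .w2 65 12 7,
  .w1 65 12 5,
  .w1 65 12 4,
  .O 0 6 2 3 1,
  .w1 65 20 8,
  .w2 65 20 7,
  .w1 65 20 5,
  .w1 65 20 3,
  .O 0 6 2 4 1,
  .w2 65 132 8,
  .w1 65 132 5,
  .w1 65 132 4,
  .w2 65 132 3,
  .O 0 6 2 7 1,
  .w2 65 24 8,
  .w2 65 24 7,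
  .w1 65 24 5,
  .w1 65 24 2,
  .O 0 6 3 4 1,
  .w2 65 40 8,
  .w2 65 40 7,
  .w1 65 40 4,
  .w1 65 40 2,
  .O 0 6 3 5 1,
  .w1 65 48 8,
  .w2 65 48 7,
  .w1 65 48 3,
  .w1 65 48 2,
  .O 0 6 4 5 1,
  .w1 65 80 8,
  .w2 65 80 7,
  .w1 65 80 5,
  .w1 65 80 3,
  .w2 65 80 2,
  .O 0 6 4 6 1,
  .w2 257 24 7,
  .w1 257 24 6,
  .w1 257 24 5,
  .w1 257 24 2,
  .O 0 8 3 4 1,
  .w2 12 272 0,
  .O 2 3 4 8 1,
  .w2 20 9 8,
  .w2 20 9 7,
  .w1 20 9 6,
  .w1 20 9 5,
  .O 2 4 0 3 1,
  .w2 20 257 7,
  .w2 20 257 6,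
  .w2 20 257 5,
  .w2 20 257 3,
  .O 2 4 0 8 1,
  .w1 20 72 0,
  .O 2 4 3 6 1,
  .w2 36 17 8,
  .w2 36 17 7,
  .w1 36 17 6,
  .w1 36 17 3,
  .O 2 5 0 4 1,
  .w2 36 257 7,
  .w1 36 257 6,
  .w2 36 257 4,
  .w1 36 257 3,
  .O 2 5 0 8 1,
  .w1 68 17 8,
  .w2 68 17 7,
  .w1 68 17 5,
  .w1 68 17 3,
  .O 2 6 0 4 1,
  .w1 68 24 0,
  .O 2 6 3 4 1,
  .w2 68 272 0,
  .O 2 6 4 8 1,
  .w2 24 9 8,
  .w2 24 9 7,
  .w1 24 9 6,
  .w1 24 9 5,
  .w2 24 9 2,
  .O 3 4 0 3 1,
  .w2 24 17 8,
  .w2 24 17 7,
  .w1 24 17 6,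
  .w1 24 17 5,
  .w2 24 257 7,
  .w1 24 257 6,
  .w1 24 257 5,
  .w2 24 257 2,
  .O 3 4 0 8 1,
  .w2 24 12 0,
  .O 3 4 2 3 1,
  .w1 24 264 0,
  .w2 24 264 0,
  .w1 24 272 0,
  .w2 24 272 0,
  .w2 24 320 0,
  .w2 72 9 8,
  .w2 72 9 7,
  .w1 72 9 5,
  .w1 72 9 4,
  .w2 72 12 0,
  .O 3 6 2 3 1,
  .w2 72 24 0,
  .w2 72 272 0,
  .w1 136 257 6,
  .w1 136 257 5,
  .w2 136 257 4,
  .w2 136 257 2,
  .O 3 7 0 8 1,
  .w1 264 160 0,
  .O 3 8 5 7 1,
  .w1 80 260 0,
  .O 4 6 2 8 1,
  .w1 80 264 0,
  .w1 80 272 0,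
  .w2 80 272 0,
  .w2 144 12 0,
  .O 4 7 2 3 1,
  .w1 272 40 0,
  .O 4 8 3 5 1,
  .w1 272 72 0,
  .O 4 8 3 6 1,
  .w2 272 320 0,
  .O 4 8 6 8 1,
  .w2 160 20 0,
  .O 5 7 2 4 1,
  .w2 160 260 0,
  .O 5 7 2 8 1,
  .w1 192 257 5,
  .w2 192 257 4,
  .w1 192 257 3,
  .w2 192 257 2,
  .O 6 7 0 8 1,
  .w2 3 24 8,
  .w2 3 24 7,
  .w1 3 24 6,
  .w1 3 24 5,
  .O 0 1 3 4 2,
  .w2 17 10 8,
  .w2 17 10 7,
  .w2 17 10 6,
  .w1 17 10 5,
  .O 0 4 1 3 2,
  .w2 17 24 1,
  .O 0 4 3 4 2,
  .w2 17 72 1,
  .O 0 4 3 6 2,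
  .w2 17 272 1,
  .O 0 4 4 8 2,
  .w2 65 10 8,
  .w2 65 10 7,
  .w1 65 10 5,
  .w2 65 10 4,
  .O 0 6 1 3 2,
  .w2 10 3 8,
  .w1 10 3 7,
  .w1 10 3 6,
  .w1 10 3 5,
  .w2 10 3 4,
  .O 1 3 0 1 2,
  .w2 10 258 0,
  .O 1 3 1 8 2,
  .w2 10 24 0,
  .O 1 3 3 4 2,
  .w2 10 264 0,
  .O 1 3 3 8 2,
  .w2 10 80 0,
  .O 1 3 4 6 2,
  .w2 34 80 0,
  .O 1 5 4 6 2,
  .w1 66 257 7,
  .w1 66 257 5,
  .w2 66 257 4,
  .w1 66 257 3,
  .O 1 6 0 8 2,
  .w2 66 258 0,
  .O 1 6 1 8 2,
  .w2 66 272 0,
  .O 1 6 4 8 2,
  .w1 66 192 0,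
  .O 1 6 6 7 2,
  .w2 24 3 8,
  .w2 24 3 7,
  .w1 24 3 6,
  .w1 24 3 5,
  .O 3 4 0 1 2,
  .w1 24 17 1,
  .O 3 4 0 4 2,
  .w1 24 257 1,
  .w2 24 257 1,
  .O 3 4 0 8 2,
  .w1 24 10 0,
  .w2 24 10 0,
  .O 3 4 1 3 2,
  .w2 24 258 0,
  .O 3 4 1 8 2,
  .O 3 4 3 8 2,
  .O 3 4 4 8 2,
  .O 3 4 6 8 2,
  .w1 72 9 1,
  .O 3 6 0 3 2,
  .w1 72 10 0,
  .O 3 6 1 3 2,
  .O 3 6 3 4 2,
  .O 3 6 4 8 2,
  .w1 80 10 0,
  .O 4 6 1 3 2,
  .O 4 6 3 8 2,
  .O 4 6 4 8 2,
  .w2 192 257 1,
  .O 6 7 0 8 2]

theorem a2 : axchk 9 2 0 true (Tr.get ⟨9, 0, 0, 0⟩ v) (Tr.get 0 g) l2 1431 1000 = true := by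
  decide +kernel

theorem t0 : chk (Tr.get 0 g) (Tr.get 0 h) 500 1431 = true := by decide +kernel

theorem t1 : chk (Tr.get 0 g) (Tr.get 0 h) 354 1931 = true := by decide +kernel

theorem z : Tr.get 0 g 2284 = 0 := by decide +kernel

theorem bad {α : Type*} [DecidableEq α] (c : Cx α) (hn : c.n = 9) (ha : c.a = 2) (hb : c.b = 0)
    (hcl : c.closed = true) : False := by
  have s0 := axchk_sound c hn ha hb hcl (by norm_num) _ _ _ _ _ a0
  have s0 := s0.trans (axchk_sound c hn ha hb hcl (by norm_num) _ _ _ _ _ a1)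
  have s0 := s0.trans (axchk_sound c hn ha hb hcl (by norm_num) _ _ _ _ _ a2)
  have s0 := chk_sound' t0 (e := 1931) rfl s0
  have s0 := chk_sound' t1 (e := 2285) rfl s0
  exact s0.false z

end Pool.Agent.Gabow87.K3.C202
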