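import Pool.Agent.Gabow87.Refute

/-! Certificate; see `Pool/Agent/Gabow87/Refute.lean`. -/

set_option autoImplicit false
set_option maxRecDepth 100000

namespace Pool.Agent.Gabow87.K3.C212

open Pool.Agent.Gabow87.Sat

def v : Tr VC := (.node (.node (.node (.node (.node (.node (.node (.node (.node (.node (.leaf ⟨0, 7, 0, 0⟩)
(.leaf ⟨5, 160, 640, 8⟩))
(.leaf ⟨2, 6, 0, 0⟩))
(.node (.leaf ⟨1, 69, 0, 0⟩)
(.leaf ⟨5, 68, 528, 3⟩)))
(.node (.node (.node (.leaf ⟨0, 642, 0, 0⟩)
(.leaf ⟨5, 24, 65, 7⟩))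
(.leaf ⟨5, 10, 10, 6⟩))
(.node (.leaf ⟨1, 56, 0, 0⟩)
(.leaf ⟨5, 40, 260, 7⟩))))
(.node (.node (.node (.node (.leaf ⟨0, 289, 0, 0⟩)
(.leaf ⟨5, 9, 528, 6⟩))
(.leaf ⟨2, 8, 1, 0⟩))
(.node (.leaf ⟨1, 262, 0, 0⟩)
(.leaf ⟨5, 24, 24, 8⟩)))
(.node (.node (.node (.leaf ⟨0, 328, 0, 0⟩)
(.leaf ⟨5, 9, 24, 1⟩))
(.leaf ⟨5, 20, 10, 5⟩))
(.node (.leaf ⟨2, 3, 3, 0⟩)
(.leaf ⟨5, 520, 10, 2⟩)))))
(.node (.node (.node (.node (.node (.leaf ⟨0, 67, 0, 0⟩)
(.leaf ⟨5, 192, 528, 5⟩))
(.leaf ⟨2, 7, 7, 0⟩))
(.node (.leaf ⟨1, 97, 0, 0⟩)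
(.leaf ⟨5, 24, 20, 1⟩)))
(.node (.node (.node (.leaf ⟨0, 196, 0, 0⟩)
(.leaf ⟨5, 40, 260, 0⟩))
(.leaf ⟨5, 10, 528, 5⟩))
(.node (.leaf ⟨1, 304, 0, 0⟩)
(.leaf ⟨5, 72, 10, 4⟩))))
(.node (.node (.node (.node (.leaf ⟨0, 266, 0, 0⟩)
(.leaf ⟨5, 33, 528, 7⟩))
(.leaf ⟨2, 9, 0, 0⟩))
(.node (.leaf ⟨1, 770, 0, 0⟩)
(.leaf ⟨5, 24, 528, 7⟩)))
(.node (.node (.node (.leaf ⟨0, 416, 0, 0⟩)
(.leaf ⟨5, 24, 513, 1⟩))
(.leaf ⟨5, 36, 640, 6⟩))
(.node (.leaf ⟨2, 5, 5, 0⟩)
(.leaf ⟨5, 80, 10, 9⟩))))))
(.node (.node (.node (.node (.node (.node (.leaf ⟨0, 21, 0, 0⟩)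
(.leaf ⟨5, 544, 520, 4⟩))
(.leaf ⟨2, 6, 5, 0⟩))
(.node (.leaf ⟨1, 521, 0, 0⟩)
(.leaf ⟨5, 24, 514, 7⟩)))
(.node (.node (.node (.leaf ⟨0, 84, 0, 0⟩)
(.leaf ⟨5, 24, 24, 0⟩))
(.leaf ⟨5, 10, 520, 8⟩))
(.node (.leaf ⟨1, 552, 0, 0⟩)
(.leaf ⟨5, 40, 768, 7⟩))))
(.node (.node (.node (.node (.leaf ⟨0, 26, 0, 0⟩)
(.leaf ⟨5, 17, 264, 7⟩))
(.leaf ⟨3, 8, 5, 0⟩))
(.node (.leaf ⟨1, 162, 0, 0⟩)
(.leaf ⟨5, 24, 264, 5⟩)))
(.node (.node (.node (.leaf ⟨0, 208, 0, 0⟩)
(.leaf ⟨5, 10, 528, 0⟩))
(.leaf ⟨5, 20, 288, 6⟩))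
(.node (.leaf ⟨3, 4, 4, 0⟩)
(.leaf ⟨5, 520, 144, 6⟩)))))
(.node (.node (.node (.node (.node (.leaf ⟨0, 515, 0, 0⟩)
(.leaf ⟨5, 320, 272, 1⟩))
(.leaf ⟨2, 7, 6, 0⟩))
(.node (.leaf ⟨1, 22, 0, 0⟩)
(.leaf ⟨5, 24, 260, 6⟩)))
(.node (.node (.node (.leaf ⟨0, 152, 0, 0⟩)
(.leaf ⟨5, 520, 520, 0⟩))
(.leaf ⟨5, 12, 528, 7⟩))
(.node (.leaf ⟨1, 352, 0, 0⟩)
(.leaf ⟨5, 72, 24, 7⟩))))
(.node (.node (.node (.node (.leaf ⟨0, 530, 0, 0⟩)
(.leaf ⟨5, 68, 528, 0⟩))
(.leaf ⟨3, 9, 5, 0⟩))
(.node (.leaf ⟨1, 148, 0, 0⟩)
(.leaf ⟨5, 40, 10, 4⟩)))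
(.node (.node (.node (.leaf ⟨1, 13, 0, 0⟩)
(.leaf ⟨5, 96, 10, 0⟩))
(.leaf ⟨5, 68, 272, 9⟩))
(.node (.leaf ⟨2, 5, 7, 0⟩)
(.leaf ⟨5, 272, 72, 9⟩)))))))
(.node (.node (.node (.node (.node (.node (.node (.leaf ⟨1, 14, 0, 0⟩)
(.leaf ⟨5, 160, 640, 1⟩))
(.leaf ⟨2, 6, 3, 0⟩))
(.node (.leaf ⟨1, 131, 0, 0⟩)
(.leaf ⟨5, 24, 10, 7⟩)))
(.node (.node (.node (.leaf ⟨0, 140, 0, 0⟩)
(.leaf ⟨5, 24, 513, 6⟩))
(.leaf ⟨5, 10, 24, 8⟩))
(.node (.leaf ⟨1, 536, 0, 0⟩)
(.leaf ⟨5, 40, 24, 8⟩))))
(.node (.node (.node (.node (.leaf ⟨0, 577, 0, 0⟩)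
(.leaf ⟨5, 17, 24, 7⟩))
(.leaf ⟨3, 8, 3, 0⟩))
(.node (.leaf ⟨1, 82, 0, 0⟩)
(.leaf ⟨5, 24, 24, 1⟩)))
(.node (.node (.node (.leaf ⟨0, 112, 0, 0⟩)
(.leaf ⟨5, 33, 520, 1⟩))
(.leaf ⟨5, 20, 264, 5⟩))
(.node (.leaf ⟨3, 3, 8, 0⟩)
(.leaf ⟨5, 520, 520, 5⟩)))))
(.node (.node (.node (.node (.node (.leaf ⟨0, 261, 0, 0⟩)
(.leaf ⟨5, 320, 272, 7⟩))
(.leaf ⟨2, 7, 4, 0⟩))
(.node (.leaf ⟨1, 385, 0, 0⟩)
(.leaf ⟨5, 24, 132, 5⟩)))
(.node (.node (.node (.leaf ⟨0, 644, 0, 0⟩)
(.leaf ⟨5, 72, 513, 7⟩))
(.leaf ⟨5, 12, 520, 5⟩))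
(.node (.leaf ⟨1, 592, 0, 0⟩)
(.leaf ⟨5, 72, 516, 4⟩))))
(.node (.node (.node (.node (.leaf ⟨0, 50, 0, 0⟩)
(.leaf ⟨5, 12, 528, 0⟩))
(.leaf ⟨3, 9, 3, 0⟩))
(.node (.leaf ⟨1, 268, 0, 0⟩)
(.leaf ⟨5, 40, 10, 9⟩)))
(.node (.node (.node (.leaf ⟨0, 704, 0, 0⟩)
(.leaf ⟨5, 40, 10, 0⟩))
(.leaf ⟨5, 68, 520, 8⟩))
(.node (.leaf ⟨2, 5, 4, 0⟩)
(.leaf ⟨5, 80, 516, 8⟩))))))
(.node (.node (.node (.node (.node (.node (.leaf ⟨0, 37, 0, 0⟩)
(.leaf ⟨5, 192, 24, 8⟩))
(.leaf ⟨2, 6, 8, 0⟩))
(.node (.leaf ⟨1, 81, 0, 0⟩)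
(.leaf ⟨5, 24, 20, 8⟩)))
(.node (.node (.node (.leaf ⟨0, 100, 0, 0⟩)
(.leaf ⟨5, 40, 17, 9⟩))
(.leaf ⟨5, 10, 520, 4⟩))
(.node (.leaf ⟨1, 392, 0, 0⟩)
(.leaf ⟨5, 72, 10, 9⟩))))
(.node (.node (.node (.node (.leaf ⟨0, 74, 0, 0⟩)
(.leaf ⟨5, 33, 520, 7⟩))
(.leaf ⟨3, 8, 7, 0⟩))
(.node (.leaf ⟨1, 322, 0, 0⟩)
(.leaf ⟨5, 24, 520, 6⟩)))
(.node (.node (.node (.leaf ⟨0, 784, 0, 0⟩)
(.leaf ⟨5, 24, 3, 6⟩))
(.leaf ⟨5, 36, 520, 6⟩))
(.node (.leaf ⟨3, 4, 6, 0⟩)
(.leaf ⟨5, 520, 528, 7⟩)))))
(.node (.node (.node (.node (.node (.leaf ⟨0, 273, 0, 0⟩)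
(.leaf ⟨5, 9, 24, 6⟩))
(.leaf ⟨2, 7, 9, 0⟩))
(.node (.leaf ⟨1, 70, 0, 0⟩)
(.leaf ⟨5, 24, 516, 6⟩)))
(.node (.node (.node (.leaf ⟨0, 168, 0, 0⟩)
(.leaf ⟨5, 272, 72, 0⟩))
(.leaf ⟨5, 20, 10, 9⟩))
(.node (.leaf ⟨1, 448, 0, 0⟩)
(.leaf ⟨5, 520, 10, 7⟩))))
(.node (.node (.node (.node (.leaf ⟨0, 546, 0, 0⟩)
(.leaf ⟨5, 24, 17, 6⟩))
(.leaf ⟨3, 9, 8, 0⟩))
(.node (.leaf ⟨1, 580, 0, 0⟩)
(.leaf ⟨5, 40, 12, 6⟩)))
(.node (.node (.leaf ⟨1, 41, 0, 0⟩)
(.leaf ⟨5, 68, 272, 1⟩))
(.node (.leaf ⟨4, 6, 0, 0⟩)
(.leaf ⟨5, 96, 10, 9⟩))))))))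
(.node (.node (.node (.node (.node (.node (.node (.node (.leaf ⟨0, 14, 0, 0⟩)
(.leaf ⟨5, 160, 640, 4⟩))
(.leaf ⟨3, 6, 6, 0⟩))
(.node (.leaf ⟨1, 137, 0, 0⟩)
(.leaf ⟨5, 24, 10, 9⟩)))
(.node (.node (.node (.leaf ⟨0, 44, 0, 0⟩)
(.leaf ⟨5, 24, 513, 8⟩))
(.leaf ⟨5, 10, 10, 4⟩))
(.node (.leaf ⟨1, 152, 0, 0⟩)
(.leaf ⟨5, 40, 260, 4⟩))))
(.node (.node (.node (.node (.leaf ⟨0, 193, 0, 0⟩)
(.leaf ⟨5, 17, 24, 9⟩))
(.leaf ⟨3, 8, 1, 0⟩))
(.node (.leaf ⟨1, 518, 0, 0⟩)
(.leaf ⟨5, 24, 24, 6⟩)))
(.node (.node (.node (.leaf ⟨0, 648, 0, 0⟩)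
(.leaf ⟨5, 17, 24, 1⟩))
(.leaf ⟨5, 20, 264, 7⟩))
(.node (.leaf ⟨2, 3, 6, 0⟩)
(.leaf ⟨5, 520, 520, 7⟩)))))
(.node (.node (.node (.node (.node (.leaf ⟨0, 131, 0, 0⟩)
(.leaf ⟨5, 192, 528, 1⟩))
(.leaf ⟨2, 7, 3, 0⟩))
(.node (.leaf ⟨1, 321, 0, 0⟩)
(.leaf ⟨5, 24, 132, 8⟩)))
(.node (.node (.node (.leaf ⟨0, 580, 0, 0⟩)
(.leaf ⟨5, 40, 768, 0⟩))
(.leaf ⟨5, 12, 520, 7⟩))
(.node (.leaf ⟨1, 208, 0, 0⟩)
(.leaf ⟨5, 72, 516, 7⟩))))
(.node (.node (.node (.node (.leaf ⟨0, 522, 0, 0⟩)
(.leaf ⟨5, 33, 528, 3⟩))
(.leaf ⟨3, 9, 9, 0⟩))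
(.node (.leaf ⟨1, 76, 0, 0⟩)
(.leaf ⟨5, 24, 528, 5⟩)))
(.node (.node (.node (.leaf ⟨0, 800, 0, 0⟩)
(.leaf ⟨5, 24, 514, 0⟩))
(.leaf ⟨5, 36, 640, 3⟩))
(.node (.leaf ⟨2, 5, 3, 0⟩)
(.leaf ⟨5, 80, 10, 7⟩))))))
(.node (.node (.node (.node (.node (.node (.leaf ⟨0, 19, 0, 0⟩)
(.leaf ⟨5, 544, 520, 1⟩))
(.leaf ⟨2, 6, 7, 0⟩))
(.node (.leaf ⟨1, 515, 0, 0⟩)
(.leaf ⟨5, 24, 514, 5⟩)))
(.node (.node (.node (.leaf ⟨0, 276, 0, 0⟩)
(.leaf ⟨5, 24, 520, 0⟩))
(.leaf ⟨5, 10, 520, 6⟩))
(.node (.leaf ⟨1, 328, 0, 0⟩)
(.leaf ⟨5, 40, 768, 4⟩))))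
(.node (.node (.node (.node (.leaf ⟨0, 42, 0, 0⟩)
(.leaf ⟨5, 17, 264, 5⟩))
(.leaf ⟨3, 8, 6, 0⟩))
(.node (.leaf ⟨1, 546, 0, 0⟩)
(.leaf ⟨5, 24, 520, 8⟩)))
(.node (.node (.node (.leaf ⟨0, 592, 0, 0⟩)
(.leaf ⟨5, 24, 3, 8⟩))
(.leaf ⟨5, 36, 520, 8⟩))
(.node (.leaf ⟨3, 4, 3, 0⟩)
(.leaf ⟨5, 520, 144, 2⟩)))))
(.node (.node (.node (.node (.node (.leaf ⟨0, 81, 0, 0⟩)
(.leaf ⟨5, 9, 24, 8⟩))
(.leaf ⟨2, 7, 8, 0⟩))
(.node (.leaf ⟨1, 38, 0, 0⟩)
(.leaf ⟨5, 24, 516, 8⟩)))
(.node (.node (.node (.leaf ⟨0, 536, 0, 0⟩)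
(.leaf ⟨5, 520, 528, 0⟩))
(.leaf ⟨5, 12, 528, 5⟩))
(.node (.leaf ⟨1, 672, 0, 0⟩)
(.leaf ⟨5, 72, 24, 1⟩))))
(.node (.node (.node (.node (.leaf ⟨0, 162, 0, 0⟩)
(.leaf ⟨5, 24, 17, 8⟩))
(.leaf ⟨3, 9, 6, 0⟩))
(.node (.leaf ⟨1, 532, 0, 0⟩)
(.leaf ⟨5, 40, 12, 8⟩)))
(.node (.node (.leaf ⟨1, 11, 0, 0⟩)
(.leaf ⟨5, 68, 272, 5⟩))
(.node (.leaf ⟨2, 5, 9, 0⟩)
(.leaf ⟨5, 272, 72, 5⟩)))))))
(.node (.node (.node (.node (.node (.node (.node (.leaf ⟨0, 25, 0, 0⟩)
(.leaf ⟨5, 544, 520, 7⟩))
(.leaf ⟨2, 6, 4, 0⟩))
(.node (.leaf ⟨1, 261, 0, 0⟩)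
(.leaf ⟨5, 24, 10, 5⟩)))
(.node (.node (.node (.leaf ⟨0, 524, 0, 0⟩)
(.leaf ⟨5, 24, 260, 0⟩))
(.leaf ⟨5, 10, 24, 6⟩))
(.node (.leaf ⟨1, 168, 0, 0⟩)
(.leaf ⟨5, 40, 24, 6⟩))))
(.node (.node (.node (.node (.leaf ⟨0, 641, 0, 0⟩)
(.leaf ⟨5, 17, 24, 5⟩))
(.leaf ⟨3, 8, 4, 0⟩))
(.node (.leaf ⟨1, 274, 0, 0⟩)
(.leaf ⟨5, 24, 264, 7⟩)))
(.node (.node (.node (.leaf ⟨0, 304, 0, 0⟩)
(.leaf ⟨5, 10, 24, 0⟩))
(.leaf ⟨5, 20, 288, 9⟩))
(.node (.leaf ⟨3, 3, 9, 0⟩)
(.leaf ⟨5, 520, 520, 1⟩)))))
(.node (.node (.node (.node (.node (.leaf ⟨0, 521, 0, 0⟩)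
(.leaf ⟨5, 320, 272, 3⟩))
(.leaf ⟨2, 7, 5, 0⟩))
(.node (.leaf ⟨1, 769, 0, 0⟩)
(.leaf ⟨5, 24, 260, 9⟩)))
(.node (.node (.node (.leaf ⟨0, 56, 0, 0⟩)
(.leaf ⟨5, 72, 513, 4⟩))
(.leaf ⟨5, 12, 520, 1⟩))
(.node (.leaf ⟨1, 656, 0, 0⟩)
(.leaf ⟨5, 72, 24, 9⟩))))
(.node (.node (.node (.node (.leaf ⟨0, 146, 0, 0⟩)
(.leaf ⟨5, 36, 520, 0⟩))
(.leaf ⟨3, 9, 4, 0⟩))
(.node (.leaf ⟨1, 52, 0, 0⟩)
(.leaf ⟨5, 40, 10, 7⟩)))
(.node (.node (.node (.leaf ⟨0, 896, 0, 0⟩)
(.leaf ⟨5, 72, 10, 0⟩))
(.leaf ⟨5, 68, 520, 5⟩))
(.node (.leaf ⟨2, 5, 6, 0⟩)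
(.leaf ⟨5, 80, 516, 5⟩))))))
(.node (.node (.node (.node (.node (.node (.leaf ⟨0, 73, 0, 0⟩)
(.leaf ⟨5, 192, 24, 1⟩))
(.leaf ⟨2, 6, 9, 0⟩))
(.node (.leaf ⟨1, 273, 0, 0⟩)
(.leaf ⟨5, 24, 20, 6⟩)))
(.node (.node (.node (.leaf ⟨0, 292, 0, 0⟩)
(.leaf ⟨5, 40, 17, 7⟩))
(.leaf ⟨5, 10, 528, 7⟩))
(.node (.leaf ⟨1, 776, 0, 0⟩)
(.leaf ⟨5, 72, 10, 7⟩))))
(.node (.node (.node (.node (.leaf ⟨0, 138, 0, 0⟩)
(.leaf ⟨5, 33, 520, 4⟩))
(.leaf ⟨3, 8, 9, 0⟩))
(.node (.leaf ⟨1, 386, 0, 0⟩)
(.leaf ⟨5, 24, 520, 1⟩)))
(.node (.node (.node (.leaf ⟨0, 352, 0, 0⟩)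
(.leaf ⟨5, 24, 17, 1⟩))
(.leaf ⟨5, 36, 520, 1⟩))
(.node (.leaf ⟨3, 4, 8, 0⟩)
(.leaf ⟨5, 520, 528, 5⟩)))))
(.node (.node (.node (.node (.node (.leaf ⟨0, 97, 0, 0⟩)
(.leaf ⟨5, 9, 528, 8⟩))
(.leaf ⟨2, 8, 8, 0⟩))
(.node (.leaf ⟨1, 134, 0, 0⟩)
(.leaf ⟨5, 24, 516, 1⟩)))
(.node (.node (.node (.leaf ⟨0, 552, 0, 0⟩)
(.leaf ⟨5, 192, 24, 0⟩))
(.leaf ⟨5, 20, 10, 7⟩))
(.node (.leaf ⟨1, 832, 0, 0⟩)
(.leaf ⟨5, 520, 10, 5⟩))))
(.node (.node (.node (.node (.leaf ⟨0, 322, 0, 0⟩)
(.leaf ⟨5, 24, 65, 9⟩))
(.leaf ⟨5, 10, 10, 8⟩))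
(.node (.leaf ⟨1, 644, 0, 0⟩)
(.leaf ⟨5, 40, 12, 1⟩)))
(.node (.node (.leaf ⟨1, 35, 0, 0⟩)
(.leaf ⟨5, 68, 528, 7⟩))
(.node (.leaf ⟨4, 6, 2, 0⟩)
(.leaf ⟨5, 96, 10, 7⟩)))))))))
(.node (.node (.node (.node (.node (.node (.node (.node (.node (.leaf ⟨1, 7, 0, 0⟩)
(.leaf ⟨5, 160, 640, 6⟩))
(.leaf ⟨2, 6, 1, 0⟩))
(.node (.leaf ⟨1, 67, 0, 0⟩)
(.leaf ⟨5, 68, 528, 1⟩)))
(.node (.node (.node (.leaf ⟨0, 770, 0, 0⟩)
(.leaf ⟨5, 24, 65, 5⟩))
(.leaf ⟨5, 10, 10, 5⟩))
(.node (.leaf ⟨1, 88, 0, 0⟩)
(.leaf ⟨5, 40, 260, 6⟩))))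
(.node (.node (.node (.node (.leaf ⟨0, 545, 0, 0⟩)
(.leaf ⟨5, 9, 528, 5⟩))
(.leaf ⟨3, 8, 8, 0⟩))
(.node (.leaf ⟨1, 522, 0, 0⟩)
(.leaf ⟨5, 24, 24, 7⟩)))
(.node (.node (.node (.leaf ⟨0, 584, 0, 0⟩)
(.leaf ⟨5, 9, 528, 1⟩))
(.leaf ⟨5, 20, 264, 9⟩))
(.node (.leaf ⟨3, 3, 3, 0⟩)
(.leaf ⟨5, 520, 520, 8⟩)))))
(.node (.node (.node (.node (.node (.leaf ⟨0, 133, 0, 0⟩)
(.leaf ⟨5, 192, 528, 3⟩))
(.leaf ⟨3, 7, 7, 0⟩))
(.node (.leaf ⟨1, 545, 0, 0⟩)
(.leaf ⟨5, 24, 132, 9⟩)))
(.node (.node (.node (.leaf ⟨0, 324, 0, 0⟩)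
(.leaf ⟨5, 40, 24, 0⟩))
(.leaf ⟨5, 12, 520, 8⟩))
(.node (.leaf ⟨1, 560, 0, 0⟩)
(.leaf ⟨5, 72, 516, 8⟩))))
(.node (.node (.node (.node (.leaf ⟨0, 262, 0, 0⟩)
(.leaf ⟨5, 33, 528, 6⟩))
(.leaf ⟨2, 9, 1, 0⟩))
(.node (.leaf ⟨1, 44, 0, 0⟩)
(.leaf ⟨5, 24, 528, 6⟩)))
(.node (.node (.node (.leaf ⟨0, 672, 0, 0⟩)
(.leaf ⟨5, 24, 10, 0⟩))
(.leaf ⟨5, 36, 640, 4⟩))
(.node (.leaf ⟨3, 5, 5, 0⟩)
(.leaf ⟨5, 80, 10, 8⟩))))))
(.node (.node (.node (.node (.node (.node (.leaf ⟨0, 11, 0, 0⟩)
(.leaf ⟨5, 544, 520, 2⟩))
(.leaf ⟨3, 6, 5, 0⟩))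
(.node (.leaf ⟨1, 517, 0, 0⟩)
(.leaf ⟨5, 24, 514, 6⟩)))
(.node (.node (.node (.leaf ⟨0, 148, 0, 0⟩)
(.leaf ⟨5, 24, 264, 0⟩))
(.leaf ⟨5, 10, 520, 7⟩))
(.node (.leaf ⟨1, 200, 0, 0⟩)
(.leaf ⟨5, 40, 768, 6⟩))))
(.node (.node (.node (.node (.leaf ⟨0, 22, 0, 0⟩)
(.leaf ⟨5, 17, 264, 6⟩))
(.leaf ⟨2, 8, 6, 0⟩))
(.node (.leaf ⟨1, 290, 0, 0⟩)
(.leaf ⟨5, 24, 264, 1⟩)))
(.node (.node (.node (.leaf ⟨0, 336, 0, 0⟩)
(.leaf ⟨5, 24, 3, 9⟩))
(.leaf ⟨5, 20, 288, 3⟩))
(.node (.leaf ⟨2, 4, 3, 0⟩)
(.leaf ⟨5, 520, 144, 5⟩)))))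
(.node (.node (.node (.node (.node (.leaf ⟨0, 49, 0, 0⟩)
(.leaf ⟨5, 9, 24, 9⟩))
(.leaf ⟨3, 7, 6, 0⟩))
(.node (.leaf ⟨1, 42, 0, 0⟩)
(.leaf ⟨5, 24, 260, 5⟩)))
(.node (.node (.node (.leaf ⟨0, 280, 0, 0⟩)
(.leaf ⟨5, 520, 144, 0⟩))
(.leaf ⟨5, 12, 528, 6⟩))
(.node (.leaf ⟨1, 416, 0, 0⟩)
(.leaf ⟨5, 72, 24, 5⟩))))
(.node (.node (.node (.node (.leaf ⟨0, 98, 0, 0⟩)
(.leaf ⟨5, 24, 17, 9⟩))
(.leaf ⟨2, 9, 6, 0⟩))
(.node (.leaf ⟨1, 276, 0, 0⟩)
(.leaf ⟨5, 40, 12, 9⟩)))
(.node (.node (.leaf ⟨1, 21, 0, 0⟩)
(.leaf ⟨5, 68, 272, 7⟩))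
(.node (.leaf ⟨3, 5, 7, 0⟩)
(.leaf ⟨5, 272, 72, 7⟩)))))))
(.node (.node (.node (.node (.node (.node (.node (.leaf ⟨1, 28, 0, 0⟩)
(.leaf ⟨5, 544, 520, 8⟩))
(.leaf ⟨3, 6, 3, 0⟩))
(.node (.leaf ⟨1, 265, 0, 0⟩)
(.leaf ⟨5, 24, 10, 6⟩)))
(.node (.node (.node (.leaf ⟨0, 268, 0, 0⟩)
(.leaf ⟨5, 24, 513, 5⟩))
(.leaf ⟨5, 10, 24, 7⟩))
(.node (.leaf ⟨1, 104, 0, 0⟩)
(.leaf ⟨5, 40, 24, 7⟩))))
(.node (.node (.node (.node (.leaf ⟨0, 385, 0, 0⟩)
(.leaf ⟨5, 17, 24, 6⟩))
(.leaf ⟨2, 8, 4, 0⟩))
(.node (.leaf ⟨1, 146, 0, 0⟩)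
(.leaf ⟨5, 24, 264, 9⟩)))
(.node (.node (.node (.leaf ⟨0, 176, 0, 0⟩)
(.leaf ⟨5, 10, 10, 0⟩))
(.leaf ⟨5, 20, 264, 1⟩))
(.node (.leaf ⟨2, 3, 9, 0⟩)
(.leaf ⟨5, 520, 520, 4⟩)))))
(.node (.node (.node (.node (.node (.leaf ⟨0, 259, 0, 0⟩)
(.leaf ⟨5, 320, 272, 5⟩))
(.leaf ⟨3, 7, 4, 0⟩))
(.node (.leaf ⟨1, 641, 0, 0⟩)
(.leaf ⟨5, 24, 132, 1⟩)))
(.node (.node (.node (.leaf ⟨0, 772, 0, 0⟩)
(.leaf ⟨5, 72, 513, 5⟩))
(.leaf ⟨5, 12, 520, 4⟩))
(.node (.leaf ⟨1, 400, 0, 0⟩)
(.leaf ⟨5, 72, 516, 1⟩))))
(.node (.node (.node (.node (.leaf ⟨0, 82, 0, 0⟩)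
(.leaf ⟨5, 20, 288, 0⟩))
(.leaf ⟨2, 9, 4, 0⟩))
(.node (.leaf ⟨1, 524, 0, 0⟩)
(.leaf ⟨5, 40, 10, 8⟩)))
(.node (.node (.node (.leaf ⟨0, 832, 0, 0⟩)
(.leaf ⟨5, 72, 513, 1⟩))
(.leaf ⟨5, 68, 520, 7⟩))
(.node (.leaf ⟨3, 5, 4, 0⟩)
(.leaf ⟨5, 80, 516, 7⟩))))))
(.node (.node (.node (.node (.node (.node (.leaf ⟨0, 35, 0, 0⟩)
(.leaf ⟨5, 192, 24, 5⟩))
(.leaf ⟨3, 6, 8, 0⟩))
(.node (.leaf ⟨1, 145, 0, 0⟩)
(.leaf ⟨5, 24, 20, 7⟩)))
(.node (.node (.node (.leaf ⟨0, 164, 0, 0⟩)
(.leaf ⟨5, 40, 17, 8⟩))
(.leaf ⟨5, 10, 528, 8⟩))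
(.node (.leaf ⟨1, 648, 0, 0⟩)
(.leaf ⟨5, 72, 10, 8⟩))))
(.node (.node (.node (.node (.leaf ⟨0, 70, 0, 0⟩)
(.leaf ⟨5, 33, 520, 6⟩))
(.leaf ⟨2, 8, 9, 0⟩))
(.node (.leaf ⟨1, 578, 0, 0⟩)
(.leaf ⟨5, 24, 520, 5⟩)))
(.node (.node (.node (.leaf ⟨0, 224, 0, 0⟩)
(.leaf ⟨5, 24, 3, 5⟩))
(.leaf ⟨5, 36, 520, 4⟩))
(.node (.leaf ⟨2, 4, 8, 0⟩)
(.leaf ⟨5, 520, 528, 6⟩)))))
(.node (.node (.node (.node (.node (.leaf ⟨0, 529, 0, 0⟩)
(.leaf ⟨5, 9, 24, 5⟩))
(.leaf ⟨3, 7, 9, 0⟩))
(.node (.leaf ⟨1, 138, 0, 0⟩)
(.leaf ⟨5, 24, 516, 5⟩)))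
(.node (.node (.node (.leaf ⟨0, 296, 0, 0⟩)
(.leaf ⟨5, 160, 640, 0⟩))
(.leaf ⟨5, 20, 10, 8⟩))
(.node (.leaf ⟨1, 704, 0, 0⟩)
(.leaf ⟨5, 520, 10, 6⟩))))
(.node (.node (.node (.node (.leaf ⟨0, 194, 0, 0⟩)
(.leaf ⟨5, 24, 17, 5⟩))
(.leaf ⟨5, 10, 10, 9⟩))
(.node (.leaf ⟨1, 388, 0, 0⟩)
(.leaf ⟨5, 40, 12, 4⟩)))
(.node (.node (.leaf ⟨1, 37, 0, 0⟩)
(.leaf ⟨5, 68, 528, 8⟩))
(.node (.leaf ⟨4, 6, 1, 0⟩)
(.leaf ⟨5, 96, 10, 8⟩))))))))
(.node (.node (.node (.node (.node (.node (.node (.node (.leaf ⟨0, 28, 0, 0⟩)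
(.leaf ⟨5, 160, 640, 3⟩))
(.leaf ⟨3, 6, 2, 0⟩))
(.node (.leaf ⟨1, 133, 0, 0⟩)
(.leaf ⟨5, 24, 10, 8⟩)))
(.node (.node (.node (.leaf ⟨0, 76, 0, 0⟩)
(.leaf ⟨5, 24, 513, 7⟩))
(.leaf ⟨5, 10, 24, 9⟩))
(.node (.leaf ⟨1, 280, 0, 0⟩)
(.leaf ⟨5, 40, 24, 9⟩))))
(.node (.node (.node (.node (.leaf ⟨0, 321, 0, 0⟩)
(.leaf ⟨5, 17, 24, 8⟩))
(.leaf ⟨2, 8, 3, 0⟩))
(.node (.leaf ⟨1, 50, 0, 0⟩)
(.leaf ⟨5, 24, 24, 5⟩)))
(.node (.node (.node (.leaf ⟨0, 776, 0, 0⟩)
(.leaf ⟨5, 17, 264, 1⟩))
(.leaf ⟨5, 20, 264, 6⟩))
(.node (.leaf ⟨2, 3, 8, 0⟩)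
(.leaf ⟨5, 520, 520, 6⟩)))))
(.node (.node (.node (.node (.node (.leaf ⟨0, 265, 0, 0⟩)
(.leaf ⟨5, 320, 272, 9⟩))
(.leaf ⟨3, 7, 3, 0⟩))
(.node (.leaf ⟨1, 577, 0, 0⟩)
(.leaf ⟨5, 24, 132, 6⟩)))
(.node (.node (.node (.leaf ⟨0, 388, 0, 0⟩)
(.leaf ⟨5, 72, 513, 8⟩))
(.leaf ⟨5, 12, 520, 6⟩))
(.node (.leaf ⟨1, 336, 0, 0⟩)
(.leaf ⟨5, 72, 516, 5⟩))))
(.node (.node (.node (.node (.leaf ⟨0, 518, 0, 0⟩)
(.leaf ⟨5, 33, 528, 2⟩))
(.leaf ⟨2, 9, 3, 0⟩))
(.node (.leaf ⟨1, 140, 0, 0⟩)
(.leaf ⟨5, 24, 528, 1⟩)))
(.node (.node (.node (.leaf ⟨0, 448, 0, 0⟩)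
(.leaf ⟨5, 40, 17, 1⟩))
(.leaf ⟨5, 36, 640, 1⟩))
(.node (.leaf ⟨3, 5, 3, 0⟩)
(.leaf ⟨5, 80, 10, 5⟩))))))
(.node (.node (.node (.node (.node (.node (.leaf ⟨0, 41, 0, 0⟩)
(.leaf ⟨5, 192, 24, 9⟩))
(.leaf ⟨3, 6, 7, 0⟩))
(.node (.leaf ⟨1, 49, 0, 0⟩)
(.leaf ⟨5, 24, 20, 9⟩)))
(.node (.node (.node (.leaf ⟨0, 532, 0, 0⟩)
(.leaf ⟨5, 24, 528, 0⟩))
(.leaf ⟨5, 10, 520, 5⟩))
(.node (.leaf ⟨1, 584, 0, 0⟩)
(.leaf ⟨5, 40, 768, 1⟩))))
(.node (.node (.node (.node (.leaf ⟨0, 38, 0, 0⟩)
(.leaf ⟨5, 33, 520, 8⟩))
(.leaf ⟨2, 8, 7, 0⟩))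
(.node (.leaf ⟨1, 194, 0, 0⟩)
(.leaf ⟨5, 24, 520, 7⟩)))
(.node (.node (.node (.leaf ⟨0, 400, 0, 0⟩)
(.leaf ⟨5, 24, 3, 7⟩))
(.leaf ⟨5, 36, 520, 7⟩))
(.node (.leaf ⟨2, 4, 6, 0⟩)
(.leaf ⟨5, 520, 528, 8⟩)))))
(.node (.node (.node (.node (.node (.leaf ⟨0, 145, 0, 0⟩)
(.leaf ⟨5, 9, 24, 7⟩))
(.leaf ⟨3, 7, 8, 0⟩))
(.node (.leaf ⟨1, 74, 0, 0⟩)
(.leaf ⟨5, 24, 516, 7⟩)))
(.node (.node (.node (.leaf ⟨0, 104, 0, 0⟩)
(.leaf ⟨5, 80, 516, 0⟩))
(.leaf ⟨5, 12, 528, 1⟩))
(.node (.leaf ⟨1, 800, 0, 0⟩)
(.leaf ⟨5, 520, 10, 8⟩))))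
(.node (.node (.node (.node (.leaf ⟨0, 290, 0, 0⟩)
(.leaf ⟨5, 24, 17, 7⟩))
(.leaf ⟨2, 9, 8, 0⟩))
(.node (.leaf ⟨1, 324, 0, 0⟩)
(.leaf ⟨5, 40, 12, 7⟩)))
(.node (.node (.leaf ⟨1, 19, 0, 0⟩)
(.leaf ⟨5, 68, 272, 3⟩))
(.node (.leaf ⟨3, 5, 9, 0⟩)
(.leaf ⟨5, 272, 72, 2⟩)))))))
(.node (.node (.node (.node (.node (.node (.node (.leaf ⟨0, 13, 0, 0⟩)
(.leaf ⟨5, 544, 520, 6⟩))
(.leaf ⟨3, 6, 4, 0⟩))
(.node (.leaf ⟨1, 259, 0, 0⟩)
(.leaf ⟨5, 24, 514, 8⟩)))
(.node (.node (.node (.leaf ⟨0, 52, 0, 0⟩)
(.leaf ⟨5, 24, 516, 0⟩))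
(.leaf ⟨5, 10, 24, 5⟩))
(.node (.leaf ⟨1, 296, 0, 0⟩)
(.leaf ⟨5, 40, 24, 1⟩))))
(.node (.node (.node (.node (.leaf ⟨0, 769, 0, 0⟩)
(.leaf ⟨5, 17, 264, 9⟩))
(.leaf ⟨2, 8, 5, 0⟩))
(.node (.leaf ⟨1, 530, 0, 0⟩)
(.leaf ⟨5, 24, 264, 6⟩)))
(.node (.node (.node (.leaf ⟨0, 560, 0, 0⟩)
(.leaf ⟨5, 10, 520, 0⟩))
(.leaf ⟨5, 20, 288, 7⟩))
(.node (.leaf ⟨2, 4, 4, 0⟩)
(.leaf ⟨5, 520, 144, 8⟩)))))
(.node (.node (.node (.node (.node (.leaf ⟨0, 517, 0, 0⟩)
(.leaf ⟨5, 320, 272, 2⟩))
(.leaf ⟨3, 7, 5, 0⟩))
(.node (.leaf ⟨1, 26, 0, 0⟩)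
(.leaf ⟨5, 24, 260, 7⟩)))
(.node (.node (.node (.leaf ⟨0, 88, 0, 0⟩)
(.leaf ⟨5, 72, 24, 0⟩))
(.leaf ⟨5, 12, 528, 8⟩))
(.node (.leaf ⟨1, 784, 0, 0⟩)
(.leaf ⟨5, 72, 24, 8⟩))))
(.node (.node (.node (.node (.leaf ⟨0, 274, 0, 0⟩)
(.leaf ⟨5, 68, 520, 0⟩))
(.leaf ⟨2, 9, 5, 0⟩))
(.node (.leaf ⟨1, 84, 0, 0⟩)
(.leaf ⟨5, 40, 10, 6⟩)))
(.node (.node (.node (.leaf ⟨1, 25, 0, 0⟩)
(.leaf ⟨5, 80, 10, 0⟩))
(.leaf ⟨5, 68, 520, 4⟩))
(.node (.leaf ⟨3, 5, 6, 0⟩)
(.leaf ⟨5, 80, 516, 3⟩))))))
(.node (.node (.node (.node (.node (.node (.leaf ⟨0, 69, 0, 0⟩)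
(.leaf ⟨5, 192, 528, 8⟩))
(.leaf ⟨3, 6, 9, 0⟩))
(.node (.leaf ⟨1, 529, 0, 0⟩)
(.leaf ⟨5, 24, 20, 5⟩)))
(.node (.node (.node (.leaf ⟨0, 548, 0, 0⟩)
(.leaf ⟨5, 40, 17, 6⟩))
(.leaf ⟨5, 10, 528, 6⟩))
(.node (.leaf ⟨1, 112, 0, 0⟩)
(.leaf ⟨5, 72, 10, 5⟩))))
(.node (.node (.node (.node (.leaf ⟨0, 134, 0, 0⟩)
(.leaf ⟨5, 33, 528, 8⟩))
(.leaf ⟨2, 9, 9, 0⟩))
(.node (.leaf ⟨1, 642, 0, 0⟩)
(.leaf ⟨5, 24, 528, 8⟩)))
(.node (.node (.node (.leaf ⟨0, 608, 0, 0⟩)
(.leaf ⟨5, 24, 65, 1⟩))
(.leaf ⟨5, 36, 640, 8⟩))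
(.node (.leaf ⟨3, 4, 9, 0⟩)
(.leaf ⟨5, 520, 528, 1⟩)))))
(.node (.node (.node (.node (.node (.leaf ⟨0, 161, 0, 0⟩)
(.leaf ⟨5, 9, 528, 7⟩))
(.leaf ⟨2, 8, 0, 0⟩))
(.node (.leaf ⟨1, 266, 0, 0⟩)
(.leaf ⟨5, 24, 24, 9⟩)))
(.node (.node (.node (.leaf ⟨0, 200, 0, 0⟩)
(.leaf ⟨5, 192, 528, 0⟩))
(.leaf ⟨5, 20, 10, 6⟩))
(.node (.leaf ⟨1, 896, 0, 0⟩)
(.leaf ⟨5, 520, 10, 4⟩))))
(.node (.node (.node (.node (.leaf ⟨0, 578, 0, 0⟩)
(.leaf ⟨5, 24, 65, 8⟩))
(.leaf ⟨5, 10, 10, 7⟩))
(.node (.leaf ⟨1, 772, 0, 0⟩)
(.leaf ⟨5, 40, 260, 9⟩)))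
(.node (.node (.leaf ⟨1, 73, 0, 0⟩)
(.leaf ⟨5, 68, 528, 5⟩))
(.node (.leaf ⟨2, 6, 6, 0⟩)
(.leaf ⟨5, 96, 10, 4⟩))))))))))

def g : Tr Nat := (.node (.node (.node (.node (.node (.node (.node (.node (.node (.node (.node (.node (.leaf 1)
(.leaf 5487403373))
(.leaf 709390))
(.node (.leaf 25637818671468)
(.leaf 394)))
(.node (.node (.leaf 14640722346166)
(.leaf 980174))
(.node (.leaf 101634392587096534)
(.leaf 84200067088410))))
(.node (.node (.node (.node (.leaf 11753833291876)
(.leaf 672))
(.leaf 898046))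
(.node (.leaf 488898415939583688722)
(.leaf 810)))
(.node (.node (.leaf 84744245052342550)
(.leaf 2399686812))
(.node (.leaf 57154960724689488)
(.leaf 1896067223)))))
(.node (.node (.node (.node (.node (.leaf 13265795760158)
(.leaf 62973396052409113899167787262476327))
(.leaf 750468))
(.node (.leaf 26874097893794)
(.leaf 6847586890)))
(.node (.node (.leaf 13402429087968)
(.leaf 3367975866586))
(.node (.leaf 111210249706357260)
(.leaf 218185773))))
(.node (.node (.node (.node (.leaf 13126913613960)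
(.leaf 486))
(.leaf 5360752012983110565380188))
(.node (.leaf 481979196137501106276)
(.leaf 1008)))
(.node (.node (.leaf 22201039282502)
(.leaf 6258897172))
(.node (.leaf 365216)
(.leaf 1659148))))))
(.node (.node (.node (.node (.node (.node (.leaf 8729169584162)
(.leaf 7148077343))
(.leaf 709448))
(.node (.leaf 22475950752130)
(.leaf 25913065632288)))
(.node (.node (.leaf 7628818309332)
(.leaf 22964222290247939230586159238))
(.node (.leaf 512)
(.leaf 69255901743235346))))
(.node (.node (.node (.node (.leaf 65035085195985020)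
(.leaf 5453521340))
(.leaf 119866))
(.node (.leaf 488898410028165251106)
(.leaf 251417985754800152)))
(.node (.node (.leaf 121342589865836830)
(.leaf 5453894014))
(.node (.leaf 38005238378476136)
(.leaf 504184885)))))
(.node (.node (.node (.node (.node (.leaf 65035085195984966)
(.leaf 2282569744))
(.leaf 578498))
(.node (.leaf 461221540305402109958)
(.leaf 710)))
(.node (.node (.leaf 18901934497796)
(.leaf 1593987166))
(.node (.leaf 109520438276833832)
(.leaf 53278))))
(.node (.node (.node (.node (.leaf 65035085195985058)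
(.leaf 233))
(.leaf 95398))
(.node (.leaf 491204816949740658738)
(.leaf 1114)))
(.node (.node (.leaf 22613927149916)
(.leaf 6561411496))
(.node (.leaf 1692374)
(.leaf 979212)))))))
(.node (.node (.node (.node (.node (.node (.node (.leaf 3230101241858)
(.leaf 1659280))
(.leaf 1299244))
(.node (.leaf 26325651202422)
(.leaf 13477223522790)))
(.node (.node (.leaf 9003577032904)
(.leaf 5890122953096032032923656))
(.node (.leaf 38005238377894382)
(.leaf 19683201388))))
(.node (.node (.node (.node (.leaf 8591931990114)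
(.leaf 1331573))
(.leaf 898076))
(.node (.leaf 484285601821689348118)
(.leaf 848)))
(.node (.node (.leaf 27837949559052)
(.leaf 14365575745768))
(.node (.leaf 109513292088975950)
(.leaf 3473801429)))))
(.node (.node (.node (.node (.node (.leaf 2818219974714)
(.leaf 1737083028903508532817777747025237943873636))
(.leaf 1569700))
(.node (.leaf 25913065759146)
(.leaf 648)))
(.node (.node (.leaf 59965509977841898)
(.leaf 688042064))
(.node (.leaf 43636662628127278)
(.leaf 954438))))
(.node (.node (.node (.node (.leaf 11066403307666)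
(.leaf 395))
(.leaf 1102990))
(.node (.leaf 484285604433667113008)
(.leaf 1060)))
(.node (.node (.leaf 27011335520580)
(.leaf 5453721964))
(.node (.leaf 1307324)
(.leaf 1569070))))))
(.node (.node (.node (.node (.node (.node (.leaf 2130589212688)
(.leaf 484285582303881134332))
(.leaf 709478))
(.node (.leaf 28936420819332)
(.leaf 19800455889452)))
(.node (.node (.leaf 11340844744918)
(.leaf 788631620))
(.node (.leaf 43073575202058770)
(.leaf 4028932363))))
(.node (.node (.node (.node (.leaf 10240595001352)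
(.leaf 10624814826353647378313391014130))
(.leaf 1684570))
(.node (.leaf 502737409833002106916)
(.leaf 938)))
(.node (.node (.leaf 125285989661294894)
(.leaf 5420044562))
(.node (.leaf 381568)
(.leaf 3138179298)))))
(.node (.node (.node (.node (.node (.leaf 9416800321542)
(.leaf 484321621825836118100))
(.leaf 1373152))
(.node (.leaf 470447167991300792326)
(.leaf 52308223320096)))
(.node (.node (.leaf 19589531369744)
(.leaf 2533970092))
(.node (.leaf 41516565561540)
(.leaf 864402))))
(.node (.node (.node (.node (.leaf 42510487774044342)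
(.leaf 127))
(.leaf 259260))
(.node (.leaf 452)
(.leaf 1162)))
(.node (.node (.leaf 25638590742540)
(.leaf 27490946121826))
(.node (.leaf 1766130)
(.leaf 1716598))))))))
(.node (.node (.node (.node (.node (.node (.node (.node (.leaf 3230402928642)
(.leaf 5135176047))
(.leaf 717598))
(.node (.leaf 26324946411892)
(.leaf 24813084127690)))
(.node (.node (.leaf 54897310659903678)
(.leaf 726232))
(.node (.leaf 1995237)
(.leaf 5067987))))
(.node (.node (.node (.node (.leaf 12990884307030)
(.leaf 331321068223414462))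
(.leaf 1684494))
(.node (.leaf 488898413602551070742)
(.leaf 56982221438990)))
(.node (.node (.leaf 17527645716720)
(.leaf 2936565954))
(.node (.leaf 105013192155320910)
(.leaf 3171172397)))))
(.node (.node (.node (.node (.node (.leaf 18860404407590964)
(.leaf 4728346809028106218072998008912853280448897084))
(.leaf 750484))
(.node (.leaf 30450128773542)
(.leaf 824590946)))
(.node (.node (.leaf 63908772871626978)
(.leaf 285298740))
(.node (.leaf 2322997)
(.leaf 839732))))
(.node (.node (.node (.node (.leaf 11614380417166)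
(.leaf 62))
(.leaf 1209470))
(.node (.leaf 488898410853101002794)
(.leaf 1038)))
(.node (.node (.leaf 22200502526264)
(.leaf 6259421568))
(.node (.leaf 13253053144614848403321462800)
(.leaf 1724700))))))
(.node (.node (.node (.node (.node (.node (.leaf 3093165047858)
(.leaf 1561020))
(.leaf 725848))
(.node (.leaf 22613423309188)
(.leaf 3458392618)))
(.node (.node (.leaf 15877907816660)
(.leaf 23312770807871825870105043086))
(.node (.leaf 2191893)
(.leaf 13751262798395))))
(.node (.node (.node (.node (.leaf 5566495801352)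
(.leaf 1331333))
(.leaf 1594442))
(.node (.leaf 511963037106517024860)
(.leaf 914)))
(.node (.node (.leaf 18352647921958)
(.leaf 4212117784))
(.node (.leaf 105013192155353710)
(.leaf 594134)))))
(.node (.node (.node (.node (.node (.leaf 3917731684432)
(.leaf 9352996913170))
(.leaf 1749968))
(.node (.leaf 468140754608552108052)
(.leaf 742)))
(.node (.node (.leaf 90938344210161910)
(.leaf 2432765984))
(.node (.leaf 2396743)
(.leaf 2282143833))))
(.node (.node (.node (.node (.leaf 10240158408884)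
(.leaf 425))
(.leaf 185524))
(.node (.leaf 385)
(.leaf 78009173557340)))
(.node (.node (.leaf 25636442816524)
(.leaf 27490946072662))
(.node (.leaf 1757924)
(.leaf 4028023057)))))))
(.node (.node (.node (.node (.node (.node (.node (.leaf 1993250955284)
(.leaf 7013859613))
(.leaf 717626))
(.node (.leaf 122470964949164412)
(.leaf 9278622650890)))
(.node (.node (.leaf 11889325170894)
(.leaf 92633993248034454612878808891400))
(.node (.leaf 49828638159217130)
(.leaf 20119769224))))
(.node (.node (.node (.node (.leaf 7767163682924)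
(.leaf 91494905481990191))
(.leaf 906284))
(.node (.leaf 491204821898751090780)
(.leaf 868)))
(.node (.node (.leaf 27975422066962)
(.leaf 4648374572))
(.node (.leaf 2544235)
(.leaf 553154)))))
(.node (.node (.node (.node (.node (.leaf 5017075974206)
(.leaf 223734342801134194955))
(.leaf 783282))
(.node (.leaf 28249595068860)
(.leaf 676)))
(.node (.node (.leaf 18489617276932)
(.leaf 1694847166))
(.node (.leaf 102197617519473192)
(.leaf 839786))))
(.node (.node (.node (.node (.leaf 6528937500828)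
(.leaf 227))
(.leaf 1176728))
(.node (.leaf 505043818816598007858)
(.leaf 1086)))
(.node (.node (.leaf 22201843622224)
(.leaf 5957169538))
(.node (.leaf 586442)
(.leaf 1732942))))))
(.node (.node (.node (.node (.node (.node (.leaf 3093031583758)
(.leaf 1180454848492878056413250093))
(.leaf 1479542))
(.node (.leaf 27837949559184)
(.leaf 3341140552)))
(.node (.node (.leaf 11477411053784)
(.leaf 520163474))
(.node (.leaf 37392322986404)
(.leaf 2548085))))
(.node (.node (.node (.node (.leaf 10379141685256)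
(.leaf 211))
(.leaf 5323404379060225013252124))
(.node (.leaf 488898413602551373924)
(.leaf 972)))
(.node (.node (.leaf 21926665322506)
(.leaf 6594933060))
(.node (.leaf 348816)
(.leaf 21926077845849)))))
(.node (.node (.node (.node (.node (.leaf 5841608589400)
(.leaf 680))
(.leaf 717808))
(.node (.leaf 481979192013191331858)
(.leaf 786)))
(.node (.node (.leaf 19727070986518)
(.leaf 12166284103900))
(.node (.leaf 37442013446304336)
(.leaf 956375189))))
(.node (.node (.node (.leaf 12988736356534)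
(.leaf 23622775404858621914981122066))
(.node (.leaf 102197617518981582)
(.leaf 1196)))
(.node (.node (.leaf 26186534175080)
(.leaf 186))
(.node (.leaf 627456)
(.leaf 6443434285)))))))))
(.node (.node (.node (.node (.node (.node (.node (.node (.node (.leaf 9)
(.leaf 4061548799))
(.leaf 709398))
(.node (.leaf 21513507979632)
(.leaf 432)))
(.node (.node (.leaf 11890700878012)
(.leaf 1176786))
(.node (.leaf 104450104728818142)
(.leaf 84742408630646))))
(.node (.node (.node (.node (.leaf 5704068898898)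
(.leaf 988))
(.leaf 832518))
(.node (.leaf 488898413327606054934)
(.leaf 820)))
(.node (.node (.leaf 17252666671380)
(.leaf 10378537054390))
(.node (.leaf 41104215171488)
(.leaf 805548183)))))
(.node (.node (.node (.node (.node (.leaf 3230637498414)
(.leaf 1010901294832310468984906))
(.leaf 758668))
(.node (.leaf 110642691688063396)
(.leaf 25436023530062)))
(.node (.node (.leaf 11477411053794)
(.leaf 285298702))
(.node (.leaf 2257445)
(.leaf 403095637))))
(.node (.node (.node (.node (.leaf 13403234721928)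
(.leaf 116))
(.leaf 1168502))
(.node (.leaf 500430443810837823532)
(.leaf 1028)))
(.node (.node (.leaf 99384517857993030)
(.leaf 6594425120))
(.node (.leaf 553640)
(.leaf 5420400914))))))
(.node (.node (.node (.node (.node (.node (.leaf 3917665222700)
(.leaf 7416512809))
(.leaf 717648))
(.node (.leaf 24400564887938)
(.leaf 10103592022570)))
(.node (.node (.leaf 12027703959764)
(.leaf 120046))
(.node (.leaf 2130430)
(.leaf 69256176520478988))))
(.node (.node (.node (.node (.leaf 6803949625476)
(.leaf 22337890095310))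
(.leaf 119874))
(.node (.leaf 488898410853100953632)
(.leaf 904)))
(.node (.node (.leaf 18765065445664)
(.leaf 4077875440))
(.node (.leaf 10989903817441896)
(.leaf 594132)))))
(.node (.node (.node (.node (.node (.leaf 4605195649102)
(.leaf 557330))
(.leaf 799688))
(.node (.leaf 468140761619716153350)
(.leaf 732)))
(.node (.node (.leaf 18764897902838)
(.leaf 1661120638))
(.node (.leaf 110645376178176556)
(.leaf 774278))))
(.node (.node (.node (.node (.leaf 9690234814634)
(.leaf 605))
(.leaf 717998))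
(.node (.leaf 505043815929641779248)
(.leaf 1126)))
(.node (.node (.leaf 123597139801022818)
(.leaf 1605812))
(.node (.leaf 1323742)
(.leaf 1241412)))))))
(.node (.node (.node (.node (.node (.node (.node (.leaf 2818019311618)
(.leaf 4028203281))
(.leaf 717618))
(.node (.leaf 21513507979642)
(.leaf 10178621546986)))
(.node (.node (.leaf 16152718557384)
(.leaf 1004772))
(.node (.leaf 48695728798605798)
(.leaf 19918286982))))
(.node (.node (.node (.node (.leaf 14090395926634)
(.leaf 25015601799358))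
(.leaf 783396))
(.node (.leaf 484285597972358488092)
(.leaf 858)))
(.node (.node (.leaf 115713227602837778)
(.leaf 4648292626))
(.node (.leaf 115716736692904538)
(.leaf 544956)))))
(.node (.node (.node (.node (.node (.leaf 3230637498428)
(.leaf 10779131151561245396302547415097))
(.leaf 365484))
(.node (.leaf 125285989661295032)
(.leaf 660)))
(.node (.node (.leaf 48141224594383084)
(.leaf 2265469082))
(.node (.leaf 57153585630339626)
(.leaf 544854))))
(.node (.node (.node (.node (.leaf 7078894641304)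
(.leaf 33))
(.leaf 980114))
(.node (.leaf 491204819699190816818)
(.leaf 302096266472579144)))
(.node (.node (.leaf 23850911031626)
(.leaf 6091460982))
(.node (.leaf 3330079071602843772215314)
(.leaf 1659200))))))
(.node (.node (.node (.node (.node (.node (.leaf 22241540672667696)
(.leaf 2023645))
(.leaf 758638))
(.node (.leaf 21925993603472)
(.leaf 10135847496)))
(.node (.node (.leaf 14502746341590)
(.leaf 69647))
(.node (.leaf 31819187955556878)
(.leaf 2400655))))
(.node (.node (.node (.node (.leaf 12166284181512)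
(.leaf 9215557853591))
(.leaf 1758306))
(.node (.leaf 505043821566182326308)
(.leaf 946)))
(.node (.node (.leaf 22200502525962)
(.leaf 5353189776))
(.node (.leaf 1610376)
(.leaf 954600)))))
(.node (.node (.node (.node (.node (.leaf 6667283210246)
(.leaf 30))
(.leaf 824296))
(.node (.leaf 470447161804938240020)
(.leaf 52995585867808)))
(.node (.node (.leaf 97131755904450832)
(.leaf 2936721610))
(.node (.leaf 2818222314048)
(.leaf 946338))))
(.node (.node (.node (.node (.leaf 10377631039670)
(.leaf 314))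
(.leaf 23545319129048939124429471760))
(.node (.leaf 56019025458414024)
(.leaf 1182)))
(.node (.node (.leaf 26875843493900)
(.leaf 27628418646118))
(.node (.leaf 1364730)
(.leaf 1782140))))))))
(.node (.node (.node (.node (.node (.node (.node (.node (.leaf 2130555994114)
(.leaf 6830145939))
(.leaf 1561380))
(.node (.leaf 24949784781174)
(.leaf 25637986365920)))
(.node (.node (.leaf 12028173385924)
(.leaf 333022))
(.node (.leaf 2060789)
(.leaf 20991472389))))
(.node (.node (.node (.node (.leaf 6528971055198)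
(.leaf 1152494983339880372887610))
(.leaf 1324054))
(.node (.leaf 484285601821689585748)
(.leaf 838)))
(.node (.node (.leaf 18490085884172)
(.leaf 2936606932))
(.node (.leaf 89807432278385222)
(.leaf 3641270423)))))
(.node (.node (.node (.node (.node (.leaf 14502746341430)
(.leaf 38295166871900219))
(.leaf 1307548))
(.node (.leaf 26875539800488)
(.leaf 25637986366062)))
(.node (.node (.leaf 14228103323876)
(.leaf 13815685681214))
(.node (.leaf 37442013446197798)
(.leaf 626750))))
(.node (.node (.node (.node (.leaf 10515607027858)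
(.leaf 1229))
(.leaf 1234054))
(.node (.leaf 509656627710503485484)
(.leaf 1050)))
(.node (.node (.leaf 26875372028224)
(.leaf 6561485228))
(.node (.leaf 545462)
(.leaf 1528096))))))
(.node (.node (.node (.node (.node (.node (.leaf 18861916605145138)
(.leaf 1310914))
(.leaf 1323870))
(.node (.leaf 24538070950276)
(.leaf 26188010664508)))
(.node (.node (.leaf 11339938529494)
(.leaf 5974973326985307430625434))
(.node (.leaf 38005238378000906)
(.leaf 8340300007))))
(.node (.node (.node (.node (.leaf 12026126655496)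
(.leaf 352913903458191851604))
(.leaf 1676370))
(.node (.leaf 511963037106516803618)
(.leaf 928)))
(.node (.node (.leaf 17940196827436)
(.leaf 29625025032494))
(.node (.leaf 119090588928139886)
(.leaf 913630)))))
(.node (.node (.node (.node (.node (.leaf 5841474387974)
(.leaf 55198379732746726))
(.leaf 1766360))
(.node (.leaf 461221541130237157382)
(.leaf 752)))
(.node (.node (.leaf 81929082364207358)
(.leaf 2533429308))
(.node (.leaf 2462295)
(.leaf 1376321641))))
(.node (.node (.node (.node (.leaf 10241064714420)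
(.leaf 1813365066))
(.leaf 1127608))
(.node (.leaf 390)
(.leaf 1148)))
(.node (.node (.leaf 27010765291532)
(.leaf 27903363612762))
(.node (.leaf 1692394)
(.leaf 1708404)))))))
(.node (.node (.node (.node (.node (.node (.node (.leaf 7216938156054)
(.leaf 1741220))
(.leaf 1610560))
(.node (.leaf 121344101157110144)
(.leaf 4063058059790)))
(.node (.node (.leaf 10377630916816)
(.leaf 349416))
(.node (.leaf 34642939789738)
(.leaf 86947238219930))))
(.node (.node (.node (.node (.leaf 62219785538846836)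
(.leaf 1769771387228253910802669506907026513105140))
(.leaf 20759897358420602490327261256))
(.node (.leaf 491204821898750861344)
(.leaf 882)))
(.node (.node (.leaf 20276558512410)
(.leaf 4514066804))
(.node (.leaf 43441113694388)
(.leaf 585934)))))
(.node (.node (.node (.node (.node (.leaf 3505079246912)
(.leaf 1011077652978965242540050))
(.leaf 1291194))
(.node (.leaf 451995896126459912198)
(.leaf 688)))
(.node (.node (.leaf 21514314776580)
(.leaf 2533937256))
(.node (.leaf 106703004255793720)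
(.leaf 913524))))
(.node (.node (.node (.node (.leaf 63345822918197404)
(.leaf 87))
(.leaf 750752))
(.node (.leaf 491204816949740650544)
(.leaf 1098)))
(.node (.node (.leaf 29075135021402)
(.leaf 6561370518))
(.node (.leaf 602832)
(.leaf 6829752745))))))
(.node (.node (.node (.node (.node (.node (.leaf 12853445345304)
(.leaf 239899459508763828376))
(.leaf 349054))
(.node (.leaf 27011335520664)
(.leaf 25500513849934)))
(.node (.node (.leaf 56589048550031582)
(.leaf 788631712))
(.node (.leaf 107266091681706520)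
(.leaf 404226352))))
(.node (.node (.node (.node (.leaf 12990884307078)
(.leaf 86))
(.leaf 5341830257366279029866580))
(.node (.leaf 488898413602551169068)
(.leaf 998)))
(.node (.node (.leaf 23851179876666)
(.leaf 5353247066))
(.node (.leaf 348824)
(.leaf 18765082390823)))))
(.node (.node (.node (.node (.node (.leaf 11066403307612)
(.leaf 454))
(.leaf 840694))
(.node (.leaf 484285597972358463510)
(.leaf 798)))
(.node (.node (.leaf 23438795432214)
(.leaf 1728245912))
(.node (.leaf 35749668623565378)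
(.leaf 1862680725))))
(.node (.node (.node (.leaf 14914660425910)
(.leaf 5786187068757063685816346))
(.node (.leaf 1937879)
(.leaf 83649777340432)))
(.node (.node (.leaf 27425632690538)
(.leaf 220))
(.node (.leaf 1323782)
(.leaf 4061540601))))))))))
(.node (.node (.node (.node (.node (.node (.node (.node (.node (.node (.leaf 5)
(.leaf 7383617935))
(.leaf 725778))
(.node (.leaf 27563105198444)
(.leaf 430)))
(.node (.node (.leaf 13540908744886)
(.leaf 1119440))
(.node (.leaf 105576829403648474)
(.leaf 20621881997))))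
(.node (.node (.node (.node (.leaf 10379006607464)
(.leaf 968))
(.leaf 1831938))
(.node (.leaf 488898410028165185554)
(.leaf 816)))
(.node (.node (.leaf 18352647921934)
(.leaf 1728245926))
(.node (.leaf 66162022305612372)
(.leaf 2365653037)))))
(.node (.node (.node (.node (.node (.leaf 4880040017960)
(.leaf 246845129434589339944))
(.leaf 1610632))
(.node (.leaf 29074900140450)
(.leaf 19526148530766)))
(.node (.node (.leaf 14640520847584)
(.leaf 218165268))
(.node (.leaf 546)
(.leaf 839045179))))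
(.node (.node (.node (.node (.leaf 53773747953787016)
(.leaf 530))
(.leaf 5370217503603719612465244))
(.node (.leaf 502737412719958564964)
(.leaf 1024)))
(.node (.node (.leaf 94316318237327686)
(.leaf 6594425106))
(.node (.leaf 1692324)
(.leaf 5420163388))))))
(.node (.node (.node (.node (.node (.node (.leaf 5154917285932)
(.leaf 1716650))
(.leaf 1692492))
(.node (.leaf 25087290851714)
(.leaf 27150939931148)))
(.node (.node (.leaf 12026797744340)
(.leaf 365804))
(.node (.leaf 2114044)
(.leaf 60254612598489376))))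
(.node (.node (.node (.node (.leaf 6803949625470)
(.leaf 118236261227147282))
(.leaf 1766462))
(.node (.leaf 509656630872404672546)
(.leaf 900)))
(.node (.node (.leaf 29074900140318)
(.leaf 5353246992))
(.node (.leaf 6803952120440)
(.leaf 1510387924)))))
(.node (.node (.node (.node (.node (.leaf 3230637498442)
(.leaf 557268))
(.leaf 1692612))
(.node (.leaf 461221536318633238548)
(.leaf 726)))
(.node (.node (.leaf 22339149881348)
(.leaf 1728254054))
(.node (.leaf 110639466303177260)
(.leaf 331866))))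
(.node (.node (.node (.node (.leaf 10240863436964)
(.leaf 27))
(.leaf 783530))
(.node (.leaf 505043821566182375472)
(.leaf 1120)))
(.node (.node (.leaf 123034052375093600)
(.leaf 29350080000442))
(.node (.leaf 627418)
(.leaf 979230)))))))
(.node (.node (.node (.node (.node (.node (.node (.leaf 3230235492354)
(.leaf 1487250))
(.leaf 1569582))
(.node (.leaf 29212372648310)
(.leaf 3172950502)))
(.node (.node (.leaf 14913452089544)
(.leaf 5899576911686157881917448))
(.node (.leaf 43073575201935854)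
(.leaf 353332135782727814))))
(.node (.node (.node (.node (.leaf 9690201260134)
(.leaf 1535031991897602617417972))
(.leaf 1766432))
(.node (.leaf 484285603883776983066)
(.leaf 854)))
(.node (.node (.leaf 28249125273874)
(.leaf 11753228660972))
(.node (.leaf 109519201963975246)
(.leaf 3171827909)))))
(.node (.node (.node (.node (.node (.leaf 3504978632762)
(.leaf 69453390034229694212011590530916504))
(.leaf 750504))
(.node (.leaf 28800055779754)
(.leaf 652)))
(.node (.node (.leaf 58841398253748458)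
(.leaf 1493250078))
(.node (.leaf 45325924905914930)
(.leaf 413777))))
(.node (.node (.node (.node (.leaf 14640185303186)
(.leaf 239))
(.leaf 1127568))
(.node (.leaf 484285598522248609840)
(.leaf 1066)))
(.node (.node (.leaf 27975422067012)
(.leaf 6057890164))
(.node (.leaf 594624)
(.leaf 21926916706649))))))
(.node (.node (.node (.node (.node (.node (.leaf 893705601042)
(.leaf 1284926411685639555387614))
(.leaf 1323882))
(.node (.leaf 27975623631236)
(.leaf 25710330888748)))
(.node (.node (.leaf 12028341158102)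
(.leaf 788672590))
(.node (.leaf 49831250103460366)
(.leaf 9783541947))))
(.node (.node (.node (.node (.leaf 12028811640840)
(.leaf 154611404670195057236))
(.leaf 1610846))
(.node (.leaf 505043821566182547552)
(.leaf 942)))
(.node (.node (.leaf 24949214494730)
(.leaf 6091608448))
(.node (.leaf 348804)
(.leaf 3171741924)))))
(.node (.node (.node (.node (.node (.leaf 6942026850310)
(.leaf 557420))
(.leaf 1307620))
(.node (.leaf 470447165241850634246)
(.leaf 766)))
(.node (.node (.leaf 22888938930448)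
(.leaf 2970276026))
(.node (.leaf 41516565594336)
(.leaf 905370))))
(.node (.node (.node (.node (.leaf 9690201260214)
(.leaf 1421641))
(.leaf 1176768))
(.node (.leaf 1888715)
(.leaf 80071831593042)))
(.node (.node (.leaf 27013282381836)
(.leaf 27628418809998))
(.node (.leaf 627446)
(.leaf 6830068090))))))))
(.node (.node (.node (.node (.node (.node (.node (.node (.leaf 1168482795522)
(.leaf 29211248333167))
(.leaf 1250082))
(.node (.leaf 29074900140404)
(.leaf 3256713684)))
(.node (.node (.leaf 12853445345470)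
(.leaf 709852))
(.node (.leaf 2028013)
(.leaf 85712502771970))))
(.node (.node (.node (.node (.leaf 13265795760218)
(.leaf 65695448193152866208981641666574))
(.leaf 1610770))
(.node (.leaf 484285604433667235924)
(.leaf 834)))
(.node (.node (.leaf 20276558512384)
(.leaf 11753228660936))
(.node (.leaf 105013192155255390)
(.leaf 577637)))))
(.node (.node (.node (.node (.node (.leaf 14227834888244)
(.leaf 246830502907122630808))
(.leaf 349080))
(.node (.leaf 26874097893800)
(.leaf 3341255272)))
(.node (.node (.leaf 53209698119254244)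
(.leaf 688042042))
(.node (.leaf 39179599896776)
(.leaf 864310))))
(.node (.node (.node (.node (.leaf 14090395926672)
(.leaf 768))
(.leaf 726146))
(.node (.leaf 488898410853101010988)
(.leaf 294213042509520964)))
(.node (.node (.leaf 23576301953336)
(.leaf 6595039644))
(.node (.leaf 1757874)
(.leaf 1708318))))))
(.node (.node (.node (.node (.node (.node (.leaf 5292188385330)
(.leaf 18692084641878))
(.leaf 709468))
(.node (.leaf 25224763359620)
(.leaf 25363041333804)))
(.node (.node (.leaf 10377630916822)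
(.leaf 5965500917146408464720018))
(.node (.leaf 2224669)
(.leaf 13747554579003))))
(.node (.node (.node (.node (.leaf 10376926396424)
(.leaf 325))
(.leaf 209998))
(.node (.leaf 491204816949740576800)
(.leaf 918)))
(.node (.node (.leaf 29212607529256)
(.leaf 4614869280))
(.node (.leaf 107829179107922554)
(.leaf 626910)))))
(.node (.node (.node (.node (.node (.leaf 4879737954384)
(.leaf 119909512941207704))
(.leaf 775124))
(.node (.leaf 461221544017159823366)
(.leaf 746)))
(.node (.node (.leaf 19726568218872)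
(.leaf 2902511640))
(.node (.leaf 2429519)
(.leaf 790664))))
(.node (.node (.node (.node (.leaf 14088449302708)
(.leaf 419))
(.leaf 185526))
(.node (.leaf 387)
(.leaf 1144)))
(.node (.node (.leaf 27010765234188)
(.leaf 27903363801224))
(.node (.leaf 1438440)
(.leaf 1667436)))))))
(.node (.node (.node (.node (.node (.node (.node (.leaf 3092595302420)
(.leaf 1733026))
(.leaf 1332030))
(.node (.leaf 28249595068798)
(.leaf 10516009570834)))
(.node (.node (.leaf 14227834888398)
(.leaf 22693186730669966397202153480))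
(.node (.leaf 34093116850564)
(.leaf 1389549422733294002318))))
(.node (.node (.node (.node (.leaf 14640185303148)
(.leaf 22337623408717))
(.leaf 668720))
(.node (.leaf 491204819286773440604)
(.leaf 878)))
(.node (.node (.leaf 17665250836762)
(.leaf 5252518256))
(.node (.leaf 2577011)
(.leaf 7215880810702)))))
(.node (.node (.node (.node (.node (.leaf 62219785538846782)
(.leaf 38295172509135126))
(.leaf 365494))
(.node (.leaf 120781015105978812)
(.leaf 684)))
(.node (.node (.leaf 19039742246916)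
(.leaf 1694863556))
(.node (.leaf 104450104729236012)
(.leaf 872556))))
(.node (.node (.node (.node (.leaf 10515539935388)
(.leaf 231))
(.leaf 1168540))
(.node (.leaf 491204820524059615336)
(.leaf 1094)))
(.node (.node (.leaf 29212372648272)
(.leaf 6527807886))
(.node (.leaf 3377314268462023422558226)
(.leaf 1741136))))))
(.node (.node (.node (.node (.node (.node (.leaf 51521810634031128)
(.leaf 166673322214605404))
(.leaf 750458))
(.node (.leaf 27012844536210)
(.leaf 16152837603924)))
(.node (.node (.leaf 57715221858410718)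
(.leaf 788598936))
(.node (.leaf 105013192155066896)
(.leaf 18711582339158))))
(.node (.node (.node (.node (.leaf 42512963119005704)
(.leaf 134))
(.leaf 5332350928309090145075206))
(.node (.leaf 488898416214528811050)
(.leaf 984)))
(.node (.node (.leaf 22889107194162)
(.leaf 5420372304))
(.node (.leaf 1684116)
(.leaf 22201056424277)))))
(.node (.node (.node (.node (.node (.leaf 7353537749084)
(.leaf 1082))
(.leaf 881652))
(.node (.leaf 484285601271799316502)
(.leaf 790)))
(.node (.node (.leaf 20689512980758)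
(.leaf 2265297042))
(.node (.leaf 3230639845980)
(.leaf 3439599673))))
(.node (.node (.node (.leaf 9691140743350)
(.leaf 5776733110166937836888082))
(.node (.leaf 466)
(.leaf 1387240764286950490214)))
(.node (.node (.leaf 26873795903850)
(.leaf 192))
(.node (.leaf 1372932)
(.leaf 1823104)))))))))
(.node (.node (.node (.node (.node (.node (.node (.node (.node (.leaf 3230235115522)
(.leaf 4715901186))
(.leaf 1520410))
(.node (.leaf 29622877217140)
(.leaf 9278622650822)))
(.node (.node (.leaf 15465322479804)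
(.leaf 1135828))
(.node (.leaf 482)
(.leaf 1242))))
(.node (.node (.node (.node (.leaf 11890700877910)
(.leaf 1741207))
(.leaf 1438730))
(.node (.leaf 481979192425608855570)
(.leaf 826)))
(.node (.node (.leaf 19589128839408)
(.leaf 2903003324))
(.node (.leaf 102197617519612490)
(.leaf 4263778635971)))))
(.node (.node (.node (.node (.node (.leaf 1168583434292)
(.leaf 17725435186882511115213634792530358030025452740688))
(.leaf 1242000))
(.node (.leaf 27013012308388)
(.leaf 10605740648)))
(.node (.node (.leaf 57152135975960802)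
(.leaf 2936565790))
(.node (.leaf 2290221)
(.leaf 774168))))
(.node (.node (.node (.node (.leaf 10102350356618)
(.leaf 583))
(.leaf 717946))
(.node (.leaf 488898416489641812068)
(.leaf 1032)))
(.node (.node (.leaf 23851280539974)
(.leaf 6259151174))
(.node (.leaf 1610412)
(.leaf 1487122))))))
(.node (.node (.node (.node (.node (.node (.leaf 4880040017964)
(.leaf 4598776107))
(.leaf 1307476))
(.node (.leaf 28800458654082)
(.leaf 11065899635250)))
(.node (.node (.leaf 12028341158100)
(.leaf 23196515541362012914800705672))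
(.node (.leaf 2159117)
(.leaf 1228002079673709854605435))))
(.node (.node (.node (.node (.leaf 14915465855108)
(.leaf 5453520910))
(.leaf 1610822))
(.node (.leaf 491204822586281402460)
(.leaf 908)))
(.node (.node (.leaf 29212372648224)
(.leaf 6561370380))
(.node (.leaf 59407448270144116)
(.leaf 235757621)))))
(.node (.node (.node (.node (.node (.leaf 2818219974736)
(.leaf 38309469364494541))
(.leaf 1610700))
(.node (.leaf 468140758457848471558)
(.leaf 736)))
(.node (.node (.leaf 21926732456182)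
(.leaf 339985))
(.node (.leaf 574)
(.leaf 1443397721))))
(.node (.node (.node (.node (.leaf 14915465855148)
(.leaf 1741123))
(.leaf 980144))
(.node (.leaf 505043815929641787442)
(.leaf 77595918676304)))
(.node (.node (.leaf 20963517284364)
(.leaf 27490946269318))
(.node (.leaf 1831648)
(.leaf 1634666)))))))
(.node (.node (.node (.node (.node (.node (.node (.leaf 13795229149536258)
(.leaf 1642904))
(.leaf 1569590))
(.node (.leaf 29212607529338)
(.leaf 6629032424)))
(.node (.node (.leaf 48702387371720910)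
(.leaf 1135846))
(.node (.leaf 51523397827355110)
(.leaf 86537804005512))))
(.node (.node (.node (.node (.leaf 8727927398508)
(.leaf 300549616852456100176889920023141990541))
(.leaf 1766440))
(.node (.leaf 484285598797260644380)
(.leaf 864)))
(.node (.node (.leaf 27012844536082)
(.leaf 4514066718))
(.node (.leaf 614)
(.leaf 544958)))))
(.node (.node (.node (.node (.node (.leaf 5430064365628)
(.leaf 156857026597417476520))
(.leaf 1610670))
(.node (.leaf 120217927680049594)
(.leaf 668)))
(.node (.node (.leaf 19039406596100)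
(.leaf 2299031714))
(.node (.leaf 38767182381452)
(.leaf 774230))))
(.node (.node (.node (.node (.leaf 62219785538846874)
(.leaf 549))
(.leaf 54422))
(.node (.leaf 491204816399749963826)
(.leaf 1078)))
(.node (.node (.leaf 28662583271758)
(.leaf 5252321658))
(.node (.leaf 1675974)
(.leaf 1487172))))))
(.node (.node (.node (.node (.node (.node (.leaf 4055405756430)
(.leaf 125551311886180442))
(.leaf 709490))
(.node (.leaf 26873795903888)
(.leaf 11753228661340)))
(.node (.node (.leaf 16014910447830)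
(.leaf 520155272))
(.node (.leaf 36567622140290)
(.leaf 30171208147500))))
(.node (.node (.node (.node (.leaf 12166250676232)
(.leaf 213))
(.leaf 1610854))
(.node (.leaf 505043815929641738278)
(.leaf 964)))
(.node (.node (.leaf 24951228203018)
(.leaf 6561370432))
(.node (.leaf 1593996)
(.leaf 3574345962)))))
(.node (.node (.node (.node (.node (.leaf 28435364986109958)
(.leaf 194))
(.leaf 857068))
(.node (.leaf 484285601271799554132)
(.leaf 780)))
(.node (.node (.leaf 84744107579842832)
(.leaf 2970284242))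
(.node (.leaf 38005238378345032)
(.leaf 3641471148))))
(.node (.node (.node (.node (.leaf 54900609194909878)
(.leaf 0))
(.leaf 5757822886580589499473936))
(.node (.leaf 101634392586990026)
(.leaf 81447596859478)))
(.node (.node (.leaf 27013316018188)
(.leaf 184))
(.node (.leaf 1766140)
(.leaf 5437383007))))))))
(.node (.node (.node (.node (.node (.node (.node (.node (.leaf 2130589589506)
(.leaf 1470862))
(.leaf 717608))
(.node (.leaf 24950622691702)
(.leaf 10516009570798)))
(.node (.node (.leaf 53208460799615174)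
(.leaf 24087220201496191744460406792))
(.node (.leaf 38005238377927142)
(.leaf 4789065))))
(.node (.node (.node (.node (.leaf 9552661643362)
(.leaf 4514556935407368612341213721381333614284849))
(.leaf 1610776))
(.node (.leaf 484285598522248478738)
(.leaf 844)))
(.node (.node (.leaf 26875372028172)
(.leaf 13815685681374))
(.node (.leaf 116277212644500042)
(.leaf 3574227095)))))
(.node (.node (.node (.node (.node (.leaf 5017713950774)
(.leaf 2282569818))
(.leaf 750496))
(.node (.leaf 23850608845226)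
(.leaf 29078961218158)))
(.node (.node (.leaf 58841398253748456)
(.leaf 788729930))
(.node (.leaf 41384312924410410)
(.leaf 5017562206237))))
(.node (.node (.node (.node (.leaf 13814410420370)
(.leaf 591))
(.leaf 717962))
(.node (.leaf 491204822311168663656)
(.leaf 1056)))
(.node (.node (.leaf 27837949559104)
(.leaf 6595047856))
(.node (.leaf 3282843874743664122134544)
(.leaf 6829539753))))))
(.node (.node (.node (.node (.node (.node (.leaf 22241540672667698)
(.leaf 33338242449904))
(.leaf 725858))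
(.node (.leaf 25225568952708)
(.leaf 2277928)))
(.node (.node (.leaf 12026797678806)
(.leaf 5729444865967535473868962))
(.node (.leaf 37442013446050322)
(.leaf 2343355))))
(.node (.node (.node (.node (.leaf 11889828782088)
(.leaf 281432770171025129490))
(.leaf 210006))
(.node (.leaf 505043818541653155936)
(.leaf 934)))
(.node (.node (.leaf 121344102531907886)
(.leaf 6091116820))
(.node (.leaf 1323644)
(.leaf 235806783)))))
(.node (.node (.node (.node (.node (.leaf 6117459968006)
(.leaf 9352996913419))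
(.leaf 799708))
(.node (.leaf 468140755433353601044)
(.leaf 756)))
(.node (.node (.leaf 23576301584644)
(.leaf 2936344666))
(.node (.leaf 41516431343798)
(.leaf 1376329835))))
(.node (.node (.node (.node (.leaf 13265997258932)
(.leaf 22613943402839))
(.leaf 234682))
(.node (.leaf 181)
(.leaf 1156)))
(.node (.node (.leaf 25637483208716)
(.leaf 27490946293900))
(.node (.leaf 627438)
(.leaf 6275850527)))))))
(.node (.node (.node (.node (.node (.node (.node (.leaf 7904266911778)
(.leaf 1520040))
(.leaf 725828))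
(.node (.leaf 123597139801022848)
(.leaf 3575767566)))
(.node (.node (.leaf 15326473879760)
(.leaf 95466))
(.node (.leaf 116838786597323244)
(.leaf 20355076258))))
(.node (.node (.node (.node (.leaf 63345822918197366)
(.leaf 7042200986692003834085400819))
(.leaf 1602614))
(.node (.leaf 488898413327606104098)
(.leaf 890)))
(.node (.node (.leaf 18352647921950)
(.leaf 4614730102))
(.node (.leaf 43441247912130)
(.leaf 839888)))))
(.node (.node (.node (.node (.node (.leaf 63345822918197312)
(.leaf 15534968714822662153289502621974))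
(.leaf 775102))
(.node (.leaf 461221543604742299654)
(.leaf 195672743005519888)))
(.node (.node (.leaf 18489617629188)
(.leaf 2903003222))
(.node (.leaf 107266091681722940)
(.leaf 2215407833))))
(.node (.node (.node (.node (.leaf 11614380417184)
(.leaf 161))
(.leaf 5597043317583840797794390))
(.node (.leaf 491204820524059418674)
(.leaf 1106)))
(.node (.node (.leaf 22201039282524)
(.leaf 6561411490))
(.node (.leaf 1774290)
(.leaf 1814880))))))
(.node (.node (.node (.node (.node (.node (.leaf 5017713311774)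
(.leaf 6124288373229))
(.leaf 1569664))
(.node (.leaf 27563105198488)
(.leaf 21925642674758)))
(.node (.node (.leaf 14503048331486)
(.leaf 687992996))
(.node (.leaf 106139916829741600)
(.leaf 9295024275))))
(.node (.node (.node (.node (.leaf 12027401937032)
(.leaf 190))
(.leaf 5351284215956404878721112))
(.node (.leaf 488898410303110316076)
(.leaf 1004)))
(.node (.node (.leaf 24262523052354)
(.leaf 1249523))
(.node (.leaf 1766044)
(.leaf 5353300236)))))
(.node (.node (.node (.node (.node (.leaf 8729303842908)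
(.leaf 654))
(.leaf 1324026))
(.node (.leaf 488898413327606292564)
(.leaf 225515964162064398)))
(.node (.node (.leaf 97694843363934486)
(.leaf 1593979036))
(.node (.leaf 54901374338843208)
(.leaf 3138248897))))
(.node (.node (.node (.leaf 14639782584502)
(.leaf 97225434556681616276291334479878))
(.node (.leaf 32718391689410)
(.leaf 83924957310994)))
(.node (.node (.leaf 22338443690348)
(.leaf 410))
(.node (.leaf 725770)
(.leaf 4229001581)))))))))))
(.node (.node (.node (.node (.node (.node (.node (.node (.node (.node (.node (.leaf 3)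
(.leaf 7383683491))
(.leaf 1446672))
(.node (.leaf 26187574534508)
(.leaf 412)))
(.node (.node (.leaf 13403469775030)
(.leaf 23775411219989375036942237702))
(.node (.leaf 102197617519096278)
(.leaf 5795087489883996026294907))))
(.node (.node (.node (.node (.leaf 11614380417128)
(.leaf 956))
(.leaf 824320))
(.node (.leaf 491204821898750803986)
(.leaf 228331538764300302)))
(.node (.node (.leaf 20552007508246)
(.leaf 2433249442))
(.node (.leaf 59970397686579796)
(.leaf 335958061)))))
(.node (.node (.node (.node (.node (.leaf 5429795209256)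
(.leaf 16802194642545913501378056265800))
(.leaf 709510))
(.node (.leaf 26875539800482)
(.leaf 6998532686)))
(.node (.node (.leaf 16151845978336)
(.leaf 3230503399660))
(.node (.leaf 111772100450140684)
(.leaf 738357305))))
(.node (.node (.node (.node (.leaf 12027402043528)
(.leaf 154))
(.leaf 128114))
(.node (.leaf 500430443810838028388)
(.leaf 1022)))
(.node (.node (.leaf 24949784781126)
(.leaf 6560870668))
(.node (.leaf 348834)
(.leaf 5420286226))))))
(.node (.node (.node (.node (.node (.node (.leaf 35755776468205602)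
(.leaf 1528234))
(.leaf 332618))
(.node (.leaf 24399592759682)
(.leaf 6629179916)))
(.node (.node (.leaf 56588497116561620)
(.leaf 5615953541170189135511686))
(.node (.leaf 2105850)
(.leaf 69820363726479646))))
(.node (.node (.node (.node (.leaf 65598035149414524)
(.leaf 5453594814))
(.leaf 95292))
(.node (.leaf 491204815987332366370)
(.leaf 898)))
(.node (.node (.leaf 28662583271710)
(.leaf 5084745976))
(.node (.leaf 1168585921132)
(.leaf 1443709035)))))
(.node (.node (.node (.node (.node (.leaf 65598035149414470)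
(.leaf 54628345901125905))
(.leaf 18592973255466364197170798638))
(.node (.leaf 463527946264569225222)
(.leaf 201303617264730130)))
(.node (.node (.leaf 18489953206276)
(.leaf 1661120610))
(.node (.leaf 110647300390634024)
(.leaf 331862))))
(.node (.node (.node (.node (.leaf 65598035149414562)
(.leaf 555))
(.leaf 1234088))
(.node (.leaf 511963033532198117426)
(.leaf 1118)))
(.node (.node (.leaf 124159814809436510)
(.leaf 6594974122))
(.node (.leaf 1684184)
(.leaf 979218)))))))
(.node (.node (.node (.node (.node (.node (.node (.leaf 2405601755138)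
(.leaf 4028178705))
(.leaf 3830772158310148064968718))
(.node (.leaf 28800055779702)
(.leaf 3290358246)))
(.node (.node (.leaf 9003577057480)
(.leaf 1135842))
(.node (.leaf 40821225498251758)
(.leaf 19716796790))))
(.node (.node (.node (.node (.leaf 7078928195686)
(.leaf 91483972391878862))
(.leaf 504862))
(.node (.leaf 491204816399749840918)
(.leaf 850)))
(.node (.node (.leaf 27012174643474)
(.leaf 14365575745770))
(.node (.leaf 109516590623859278)
(.leaf 3171811523)))))
(.node (.node (.node (.node (.node (.leaf 5429560287290)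
(.leaf 17725435644501056971194647862868377628226927956119))
(.leaf 783270))
(.node (.leaf 27013012308394)
(.leaf 650)))
(.node (.node (.leaf 11614883610858)
(.leaf 1426141208))
(.node (.leaf 43073575202247218)
(.leaf 3574345802))))
(.node (.node (.node (.node (.leaf 14502746341522)
(.leaf 19))
(.leaf 5502501425276485668970578))
(.node (.leaf 491204822311168458800)
(.leaf 1064)))
(.node (.node (.leaf 27012844536132)
(.leaf 5252321648))
(.node (.leaf 1290942)
(.leaf 1823022))))))
(.node (.node (.node (.node (.node (.node (.leaf 2130589589520)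
(.leaf 170051028075307603))
(.leaf 1373032))
(.node (.leaf 27975590068612)
(.leaf 23098990772780)))
(.node (.node (.leaf 56588498022785238)
(.leaf 687992904))
(.node (.leaf 5914694005088770)
(.leaf 136555643101585601))))
(.node (.node (.node (.node (.leaf 10379141496840)
(.leaf 14713081692528))
(.leaf 250972))
(.node (.leaf 509656627710503452708)
(.leaf 64543209373726)))
(.node (.node (.leaf 21925624610826)
(.leaf 5420347746))
(.node (.leaf 365186)
(.leaf 930018)))))
(.node (.node (.node (.node (.node (.leaf 9416833900550)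
(.leaf 557482))
(.leaf 1324002))
(.node (.leaf 463527947364349288454)
(.leaf 764)))
(.node (.node (.leaf 21926898606352)
(.leaf 2936721592))
(.node (.leaf 41516565577942)
(.leaf 872594))))
(.node (.node (.node (.node (.leaf 6941422207158)
(.leaf 2203352072486))
(.leaf 283838))
(.node (.leaf 1872327)
(.leaf 1164)))
(.node (.node (.leaf 26875843420172)
(.leaf 27903363645538))
(.node (.leaf 1749748)
(.leaf 1741174))))))))
(.node (.node (.node (.node (.node (.node (.node (.node (.leaf 7079767588866)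
(.leaf 5521207610))
(.leaf 709408))
(.node (.leaf 28662583271796)
(.leaf 24950590214606)))
(.node (.node (.leaf 11890700878014)
(.leaf 718042))
(.node (.leaf 2011625)
(.leaf 85574896005364))))
(.node (.node (.node (.node (.leaf 12028173385818)
(.leaf 62691509453522843809279067873603))
(.leaf 914448))
(.node (.leaf 488898410303110217750)
(.leaf 832)))
(.node (.node (.leaf 81365445249376506)
(.leaf 2936565956))
(.node (.leaf 102197617519530590)
(.leaf 1343066171)))))
(.node (.node (.node (.node (.node (.leaf 14090395926580)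
(.leaf 5451412717136430448720200392955269261174673937722962512665874719))
(.leaf 709526))
(.node (.leaf 114023140288307624)
(.leaf 2690279506536)))
(.node (.node (.leaf 8866104549604)
(.leaf 2970169400))
(.node (.leaf 2339385)
(.leaf 847924))))
(.node (.node (.node (.node (.leaf 11890231419024)
(.leaf 750))
(.leaf 1201280))
(.node (.leaf 488898414427419770924)
(.leaf 1042)))
(.node (.node (.leaf 96568530972385592)
(.leaf 6561485210))
(.node (.leaf 1766064)
(.leaf 4799611213))))))
(.node (.node (.node (.node (.node (.node (.leaf 4604993577010)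
(.leaf 1790396))
(.leaf 717658))
(.node (.leaf 24537132376452)
(.leaf 14646662898218)))
(.node (.node (.leaf 54898960397041878)
(.leaf 218352))
(.node (.leaf 2208281)
(.leaf 14988213396027))))
(.node (.node (.node (.node (.leaf 9964609470472)
(.leaf 1331574))
(.leaf 218188))
(.node (.leaf 491204822586281173024)
(.leaf 916)))
(.node (.node (.leaf 19727070986536)
(.leaf 4312805658))
(.node (.leaf 101634392587670138)
(.leaf 864470)))))
(.node (.node (.node (.node (.node (.leaf 3917664542800)
(.leaf 684762859045624713494679))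
(.leaf 799698))
(.node (.leaf 470447160567719223316)
(.leaf 51070937251866)))
(.node (.node (.leaf 20827118543096)
(.leaf 2533429296))
(.node (.leaf 2413131)
(.leaf 1846050905))))
(.node (.node (.node (.node (.leaf 10240158507188)
(.leaf 373))
(.leaf 5682138170519359996608614))
(.node (.leaf 176)
(.leaf 78146914549852)))
(.node (.node (.leaf 26873326256140)
(.leaf 27628418580566))
(.node (.leaf 1684198)
(.leaf 1642860)))))))
(.node (.node (.node (.node (.node (.node (.node (.leaf 893604888596)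
(.leaf 1520034))
(.leaf 709436))
(.node (.leaf 124159814809436540)
(.leaf 9966119506446)))
(.node (.node (.leaf 11890868650190)
(.leaf 22654453869245439083961294856))
(.node (.leaf 49831249499333098)
(.leaf 1384932668790560702606))))
(.node (.node (.node (.node (.leaf 14502746341484)
(.leaf 318270537824369557552))
(.leaf 1602606))
(.node (.leaf 488898413327606325340)
(.leaf 870)))
(.node (.node (.leaf 17252833313048)
(.leaf 995569))
(.node (.leaf 2560623)
(.leaf 553156)))))
(.node (.node (.node (.node (.node (.leaf 56589048550031422)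
(.leaf 257939685921758878939163691528660832577))
(.leaf 750516))
(.node (.leaf 29211600658876)
(.leaf 678)))
(.node (.node (.leaf 18901934145540)
(.leaf 1627754690))
(.node (.leaf 103887017303224876)
(.leaf 864364))))
(.node (.node (.node (.node (.leaf 9141150048412)
(.leaf 205))
(.leaf 1176730))
(.node (.leaf 505043815379718201394)
(.leaf 1088)))
(.node (.node (.leaf 27013012308304)
(.leaf 5990740356))
(.node (.leaf 1307340)
(.leaf 1528144))))))
(.node (.node (.node (.node (.node (.node (.leaf 4055406321678)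
(.leaf 1377403016))
(.leaf 758648))
(.node (.leaf 27011335520658)
(.leaf 15540452426320)))
(.node (.node (.leaf 13677374087386)
(.leaf 1728393368))
(.node (.leaf 102197617519358476)
(.leaf 1310908))))
(.node (.node (.node (.node (.leaf 49833099689574408)
(.leaf 91))
(.leaf 62570))
(.node (.leaf 481979198337027465258)
(.leaf 976)))
(.node (.node (.leaf 22887730897202)
(.leaf 5118062926))
(.node (.leaf 1692306)
(.leaf 18352664858917)))))
(.node (.node (.node (.node (.node (.leaf 6116587159644)
(.leaf 692))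
(.leaf 889842))
(.node (.leaf 484285597972358447122)
(.leaf 788)))
(.node (.node (.leaf 20689143775510)
(.leaf 10379141386476))
(.node (.leaf 38005238378295892)
(.leaf 704876693))))
(.node (.node (.node (.leaf 14913116635318)
(.leaf 1307848))
(.node (.leaf 464)
(.leaf 1198)))
(.node (.node (.leaf 21925993603434)
(.leaf 204))
(.node (.leaf 1610498)
(.leaf 1798528)))))))))
(.node (.node (.node (.node (.node (.node (.node (.node (.node (.leaf 11)
(.leaf 4094792047))
(.leaf 1528600))
(.node (.leaf 26324073791860)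
(.leaf 448)))
(.node (.node (.leaf 12990884307132)
(.leaf 5823453978466566851223558))
(.node (.leaf 105013192154747360)
(.leaf 1240))))
(.node (.node (.node (.node (.leaf 11888855408726)
(.leaf 523))
(.leaf 758792))
(.node (.leaf 481979198337027358738)
(.leaf 824)))
(.node (.node (.leaf 16702976835824)
(.leaf 2366001334))
(.node (.leaf 101634392587514442)
(.leaf 671273159)))))
(.node (.node (.node (.node (.node (.leaf 22241540672667694)
(.leaf 1011077650164078036107552))
(.leaf 750478))
(.node (.leaf 25087290851748)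
(.leaf 30521264824922)))
(.node (.node (.leaf 57152134432481506)
(.leaf 2903003160))
(.node (.leaf 2273833)
(.leaf 544792))))
(.node (.node (.node (.node (.leaf 11341449314440)
(.leaf 222))
(.leaf 726136))
(.node (.leaf 502737412719958360108)
(.leaf 1030)))
(.node (.node (.leaf 23851079139654)
(.leaf 6158487866))
(.node (.leaf 545450)
(.leaf 5420409106))))))
(.node (.node (.node (.node (.node (.node (.leaf 5429493792812)
(.leaf 1552826))
(.leaf 709458))
(.node (.leaf 25088096412034)
(.leaf 10653482086958)))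
(.node (.node (.leaf 14364166308052)
(.leaf 24395675484026006696808718472))
(.node (.leaf 2142729)
(.leaf 3288703384))))
(.node (.node (.node (.node (.leaf 35192551368138884)
(.leaf 6107898046))
(.leaf 95300))
(.node (.leaf 509656627435558412320)
(.leaf 906)))
(.node (.node (.leaf 27013012308256)
(.leaf 4514181388))
(.node (.leaf 56025900057592424)
(.leaf 872660)))))
(.node (.node (.node (.node (.node (.leaf 3230637498448)
(.leaf 118220452594139342))
(.leaf 775114))
(.node (.leaf 470447167578883268614)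
(.leaf 50383608160282)))
(.node (.node (.leaf 21926732210422)
(.leaf 1661120644))
(.node (.leaf 120772565397652012)
(.leaf 1376288857))))
(.node (.node (.node (.node (.leaf 10928763166890)
(.leaf 7131680895))
(.leaf 119984))
(.node (.leaf 505043819503926992946)
(.leaf 77465692471324)))
(.node (.node (.leaf 125285989661294946)
(.leaf 1614006))
(.node (.leaf 3462337622808546793037850)
(.leaf 4028014859)))))))
(.node (.node (.node (.node (.node (.node (.node (.leaf 13795229115908098)
(.leaf 1487256))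
(.leaf 709428))
(.node (.leaf 25638455001466)
(.leaf 8323514856)))
(.node (.node (.leaf 16290459582664)
(.leaf 24201548271974150170031988744))
(.node (.leaf 49271598147887590)
(.leaf 81722877673606))))
(.node (.node (.node (.node (.leaf 6116587159660)
(.leaf 29713624972762525818090742110906454479013935063555))
(.leaf 504870))
(.node (.leaf 484285602234140680280)
(.leaf 860)))
(.node (.node (.leaf 116276177556267282)
(.leaf 4413403420))
(.node (.leaf 608)
(.leaf 774332)))))
(.node (.node (.node (.node (.node (.leaf 5429594456124)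
(.leaf 642486380943021983826242))
(.leaf 4435382678107647588253726))
(.node (.leaf 120217926305251770)
(.leaf 666)))
(.node (.node (.leaf 18901900533764)
(.leaf 2299023516))
(.node (.leaf 59966686398489130)
(.leaf 766038))))
(.node (.node (.node (.node (.leaf 9966589083802)
(.leaf 225))
(.leaf 1094804))
(.node (.leaf 484285598522248618034)
(.leaf 1076)))
(.node (.node (.leaf 20963584393550)
(.leaf 5386588536))
(.node (.leaf 1692356)
(.leaf 4027859217))))))
(.node (.node (.node (.node (.node (.node (.leaf 1168583434254)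
(.leaf 62239642866778203))
(.leaf 750448))
(.node (.leaf 112895865253872016)
(.leaf 688042560)))
(.node (.node (.leaf 15327715647702)
(.leaf 419491974))
(.node (.leaf 59966685559513614)
(.leaf 2285793))))
(.node (.node (.node (.node (.leaf 12028811714568)
(.leaf 2249892054))
(.leaf 250980))
(.node (.leaf 505043815929641730084)
(.leaf 948)))
(.node (.node (.leaf 22201744367626)
(.leaf 6259388742))
(.node (.leaf 1602186)
(.leaf 659690)))))
(.node (.node (.node (.node (.node (.leaf 6942161125382)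
(.leaf 90))
(.leaf 1569770))
(.node (.leaf 484285603883777204308)
(.leaf 778)))
(.node (.node (.leaf 82491757708198160)
(.leaf 2970276044))
(.node (.leaf 37442013446337096)
(.leaf 954530))))
(.node (.node (.node (.node (.leaf 13675931009206)
(.leaf 260))
(.leaf 1373380))
(.node (.leaf 66160371024314824)
(.leaf 1184)))
(.node (.node (.leaf 27013282455564)
(.leaf 28040836169830))
(.node (.leaf 3594596174014249813794848)
(.leaf 1806716))))))))
(.node (.node (.node (.node (.node (.node (.node (.node (.leaf 1718272720898)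
(.leaf 7484305813))
(.leaf 1553190))
(.node (.leaf 29622910706038)
(.leaf 9141116563942)))
(.node (.node (.leaf 8866104549574)
(.leaf 1012958))
(.node (.leaf 37442013445886438)
(.leaf 21025059142))))
(.node (.node (.node (.node (.leaf 6803949625442)
(.leaf 318270527653987663920))
(.leaf 20218166332682042917038137412))
(.node (.leaf 491204822311168327698)
(.leaf 840)))
(.node (.node (.leaf 26874668704012)
(.leaf 2936606934))
(.node (.leaf 110057550244012618)
(.leaf 3473539223)))))
(.node (.node (.node (.node (.node (.leaf 14640185303094)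
(.leaf 9349405974585))
(.leaf 783262))
(.node (.leaf 28662583271848)
(.leaf 26325483180666)))
(.node (.node (.leaf 63909047313187046)
(.leaf 788729924))
(.node (.leaf 38005238378205734)
(.leaf 905278))))
(.node (.node (.node (.node (.leaf 12027703926930)
(.leaf 595))
(.leaf 726152))
(.node (.leaf 484285604433667317864)
(.leaf 1052)))
(.node (.node (.leaf 27425632690496)
(.leaf 6595039662))
(.node (.leaf 1372856)
(.leaf 1741088))))))
(.node (.node (.node (.node (.node (.node (.leaf 4055204847666)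
(.leaf 12858679890503))
(.leaf 1766240))
(.node (.leaf 25225568919940)
(.leaf 2277928)))
(.node (.node (.leaf 61090447577227478)
(.leaf 23429026074381638825407930524))
(.node (.leaf 40821225498341902)
(.leaf 2326969))))
(.node (.node (.node (.node (.leaf 10376926445576)
(.leaf 549107))
(.leaf 218196))
(.node (.leaf 491204816949740584994)
(.leaf 930)))
(.node (.node (.leaf 124722902235365676)
(.leaf 5352935696))
(.node (.leaf 119653538546016878)
(.leaf 3758969027)))))
(.node (.node (.node (.node (.node (.leaf 6116352319494)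
(.leaf 323515945930276940848956776978932095299417573387522691342))
(.leaf 1758170))
(.node (.leaf 468140759007738503174)
(.leaf 754)))
(.node (.node (.leaf 20276961214724)
(.leaf 2902790230))
(.node (.leaf 2478683)
(.leaf 839824))))
(.node (.node (.node (.node (.leaf 14503249830068)
(.leaf 1347898))
(.leaf 5701057619730094892540012))
(.node (.leaf 179)
(.leaf 1154)))
(.node (.node (.leaf 25225166299148)
(.leaf 28040836120666))
(.node (.leaf 1684204)
(.leaf 1732980)))))))
(.node (.node (.node (.node (.node (.node (.node (.leaf 4054734962710)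
(.leaf 7114522909))
(.leaf 1602370))
(.node (.leaf 121344102029787520)
(.leaf 7773943357966)))
(.node (.node (.leaf 59964547670343888)
(.leaf 5927934174644342149300358))
(.node (.leaf 111209287063110120)
(.leaf 83236618756252))))
(.node (.node (.node (.node (.leaf 62782735492276340)
(.leaf 29691838211607081676507701898745204109002189541545))
(.leaf 1610804))
(.node (.leaf 491204815987332358176)
(.leaf 888)))
(.node (.node (.leaf 28937427632412)
(.leaf 5453844854))
(.node (.leaf 43441180803260)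
(.leaf 848078)))))
(.node (.node (.node (.node (.node (.leaf 12715066515520)
(.leaf 2282570154))
(.leaf 799676))
(.node (.leaf 454302302085627027462)
(.leaf 690)))
(.node (.node (.leaf 18077300760580)
(.leaf 1392595026))
(.node (.leaf 107829179107750456)
(.leaf 954492))))
(.node (.node (.node (.node (.leaf 10240863436958)
(.leaf 143))
(.leaf 95394))
(.node (.leaf 511963033532198109232)
(.leaf 1104)))
(.node (.node (.leaf 21513541534044)
(.leaf 6594933144))
(.node (.leaf 1782480)
(.leaf 5520978268))))))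
(.node (.node (.node (.node (.node (.node (.leaf 12990884306968)
(.leaf 1494499524))
(.leaf 17277340764387005233468743704))
(.node (.leaf 27012844536216)
(.leaf 26325483180638)))
(.node (.node (.leaf 63345959887257822)
(.leaf 587329698))
(.node (.leaf 101634392587285020)
(.leaf 403005824))))
(.node (.node (.node (.node (.leaf 9964844294280)
(.leaf 188))
(.leaf 103534))
(.node (.leaf 481979192425608970284)
(.leaf 1000)))
(.node (.node (.leaf 24126192050494)
(.leaf 5252329820))
(.node (.leaf 1610394)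
(.leaf 1650950)))))
(.node (.node (.node (.node (.node (.leaf 35192276322599004)
(.leaf 522))
(.leaf 611320))
(.node (.leaf 491204821898751058004)
(.leaf 800)))
(.node (.node (.leaf 96005993503662358)
(.leaf 2433249434))
(.node (.leaf 54900137388261960)
(.leaf 3440238803))))
(.node (.node (.node (.leaf 14227465699510)
(.leaf 1004748))
(.node (.leaf 1954267)
(.leaf 343192987831328784)))
(.node (.node (.leaf 27837949559146)
(.leaf 392))
(.node (.leaf 1307400)
(.leaf 4094783853))))))))))
(.node (.node (.node (.node (.node (.node (.node (.node (.node (.node (.leaf 7)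
(.leaf 4363424025))
(.leaf 717588))
(.node (.leaf 27975422067052)
(.leaf 414)))
(.node (.node (.leaf 13541009432758)
(.leaf 23814144081413902350184529926))
(.node (.leaf 106139916829585882)
(.leaf 84604801864044))))
(.node (.node (.node (.node (.leaf 11615957721192)
(.leaf 978))
(.leaf 898052))
(.node (.leaf 491204815987332300818)
(.leaf 818)))
(.node (.node (.leaf 20689110262030)
(.leaf 2332430516))
(.node (.leaf 41104215155084)
(.leaf 302231703)))))
(.node (.node (.node (.node (.node (.leaf 5430030811176)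
(.leaf 1154277763149382448987958905662101977890874))
(.leaf 1602442))
(.node (.leaf 122471377098326434)
(.leaf 22824683414094)))
(.node (.node (.leaf 15740233949408)
(.leaf 1694920754))
(.node (.leaf 548)
(.leaf 218177595))))
(.node (.node (.node (.node (.leaf 13265795760264)
(.leaf 656))
(.leaf 1176692))
(.node (.leaf 481979196137500901420)
(.leaf 1026)))
(.node (.node (.leaf 25638455001414)
(.leaf 6560870686))
(.node (.leaf 1684134)
(.leaf 4598268227))))))
(.node (.node (.node (.node (.node (.node (.leaf 5429795209260)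
(.leaf 1823160))
(.leaf 725838))
(.node (.leaf 25087290884482)
(.leaf 27290610254348)))
(.node (.node (.leaf 56588498022785236)
(.leaf 5946839785418497207648392))
(.node (.leaf 518)
(.leaf 283673861291075781016))))
(.node (.node (.node (.node (.leaf 6116587159678)
(.leaf 5453521140))
(.leaf 1758272))
(.node (.leaf 511963036831571787810)
(.leaf 902)))
(.node (.node (.leaf 18902503407904)
(.leaf 5420372246))
(.node (.leaf 13792421484053090)
(.leaf 1796030588)))))
(.node (.node (.node (.node (.node (.leaf 14640520847434)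
(.leaf 16721784650696654294357342216617))
(.leaf 1684422))
(.node (.leaf 463527942277800353812)
(.leaf 728)))
(.node (.node (.leaf 18764461588726)
(.leaf 1728254074))
(.node (.leaf 110642764838060588)
(.leaf 766086))))
(.node (.node (.node (.node (.leaf 7078894641318)
(.leaf 604))
(.leaf 750764))
(.node (.leaf 511963039443683721264)
(.leaf 1122)))
(.node (.node (.leaf 124722902235365728)
(.leaf 29487552516540))
(.node (.leaf 1610460)
(.leaf 979232)))))))
(.node (.node (.node (.node (.node (.node (.node (.leaf 2405702443010)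
(.leaf 1479062))
(.leaf 725808))
(.node (.leaf 22063465120120)
(.leaf 7567281431018)))
(.node (.node (.leaf 14913452097736)
(.leaf 54500))
(.node (.leaf 45325924905718254)
(.leaf 86395065897094))))
(.node (.node (.node (.node (.leaf 54900610805899366)
(.leaf 463538059165205209293))
(.leaf 898082))
(.node (.leaf 484285597972358479898)
(.leaf 856)))
(.node (.node (.leaf 28386564243730)
(.leaf 4614721810))
(.node (.leaf 97701101165732438)
(.leaf 3305910506)))))
(.node (.node (.node (.node (.node (.leaf 5429560623162)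
(.leaf 297383462498817172649631249422537483837170734229414281416))
(.leaf 717738))
(.node (.leaf 30586997137834)
(.leaf 658)))
(.node (.node (.leaf 14640520847594)
(.leaf 1493520500))
(.node (.leaf 49821629779452454)
(.leaf 386228238))))
(.node (.node (.node (.node (.leaf 6803916071062)
(.leaf 557))
(.leaf 5511955383866611517907026))
(.node (.leaf 491204816399749955632)
(.leaf 1070)))
(.node (.node (.leaf 23850004939082)
(.leaf 5453721974))
(.node (.leaf 586434)
(.leaf 1478976))))))
(.node (.node (.node (.node (.node (.node (.leaf 4054667976722)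
(.leaf 76587582331150471))
(.leaf 1307500))
(.node (.leaf 26737899520398)
(.leaf 4834181676)))
(.node (.node (.leaf 15327212208342)
(.leaf 1728458884))
(.node (.leaf 16619539179627022)
(.leaf 5052424631))))
(.node (.node (.node (.node (.leaf 12166250602504)
(.leaf 37746924968309340))
(.leaf 1766496))
(.node (.leaf 505043819503927156832)
(.leaf 944)))
(.node (.node (.leaf 20826112851978)
(.leaf 5151846786))
(.node (.leaf 332422)
(.leaf 659688)))))
(.node (.node (.node (.node (.node (.leaf 6942093991942)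
(.leaf 136))
(.leaf 857062))
(.node (.leaf 463527943927436894228)
(.leaf 770)))
(.node (.node (.leaf 95442906044178704)
(.leaf 2970284224))
(.node (.leaf 41516632703204)
(.leaf 913562))))
(.node (.node (.node (.node (.leaf 10377630916790)
(.leaf 347))
(.leaf 1242306))
(.node (.leaf 38005238377746886)
(.leaf 80209404780626)))
(.node (.node (.leaf 27013315944460)
(.leaf 28040836333710))
(.node (.leaf 1602296)
(.leaf 5068276009))))))))
(.node (.node (.node (.node (.node (.node (.node (.node (.leaf 1718239125506)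
(.leaf 5773087049))
(.leaf 15497367394103166635518935054))
(.node (.leaf 22338443690358)
(.leaf 25500513849822)))
(.node (.node (.leaf 12028173385922)
(.leaf 5871332662626708954824712))
(.node (.leaf 2044401)
(.leaf 20959482132))))
(.node (.node (.node (.node (.leaf 8729471664218)
(.leaf 4028948765))
(.leaf 652308))
(.node (.leaf 491204822311168581716)
(.leaf 836)))
(.node (.node (.leaf 27700477051142)
(.leaf 2903044302))
(.node (.leaf 107829179107783262)
(.leaf 1409749143)))))
(.node (.node (.node (.node (.node (.leaf 4192441843766)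
(.leaf 2631623829005168190096015463))
(.leaf 1323930))
(.node (.leaf 25775593234856)
(.leaf 24950590214762)))
(.node (.node (.leaf 11614883610852)
(.leaf 788729916))
(.node (.leaf 39179599913178)
(.leaf 872502))))
(.node (.node (.node (.node (.leaf 9278656110738)
(.leaf 531))
(.leaf 709764))
(.node (.leaf 509656633347044286564)
(.leaf 1048)))
(.node (.node (.leaf 26873795903808)
(.leaf 6595047838))
(.node (.leaf 553652)
(.leaf 1732894))))))
(.node (.node (.node (.node (.node (.node (.leaf 6942395228210)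
(.leaf 18711613591742))
(.leaf 332638))
(.node (.leaf 25224763416964)
(.leaf 26050538148408)))
(.node (.node (.leaf 58275697810055382)
(.leaf 251122))
(.node (.leaf 37254984671432)
(.leaf 320534136772209426660))))
(.node (.node (.node (.node (.leaf 11888687677448)
(.leaf 2249138261))
(.leaf 1692752))
(.node (.leaf 491204820524059344930)
(.leaf 926)))
(.node (.node (.leaf 124159814809436458)
(.leaf 6594973984))
(.node (.leaf 117403938091115118)
(.leaf 3725406401)))))
(.node (.node (.node (.node (.node (.leaf 5017512534096)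
(.leaf 323515945924457442862433591224327707214232152628503044581))
(.leaf 578518))
(.node (.leaf 468140761894661169158)
(.leaf 748)))
(.node (.node (.leaf 19727172387064)
(.leaf 2936066078))
(.node (.leaf 2445907)
(.leaf 798856))))
(.node (.node (.node (.node (.leaf 9553634681012)
(.leaf 287))
(.leaf 218296))
(.node (.leaf 178)
(.leaf 1146)))
(.node (.node (.leaf 26873326329868)
(.leaf 28040836309128))
(.node (.leaf 3509572819667726443397146)
(.leaf 5067886964)))))))
(.node (.node (.node (.node (.node (.node (.node (.leaf 27309465079259156)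
(.leaf 28866308796703))
(.leaf 3915795512656671435472910))
(.node (.leaf 124722902235365758)
(.leaf 10179225674254)))
(.node (.node (.leaf 53207086779154640)
(.leaf 22731919592094493710443044872))
(.node (.leaf 34368061866388)
(.leaf 86809396514962))))
(.node (.node (.node (.node (.leaf 8729404506226)
(.leaf 6286636270936156485763154110))
(.leaf 1365042))
(.node (.leaf 488898415939583746080)
(.leaf 880)))
(.node (.node (.leaf 20139119534362)
(.leaf 4413403506))
(.node (.leaf 2593399)
(.leaf 235724851)))))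
(.node (.node (.node (.node (.node (.leaf 20551315919429694)
(.leaf 9349407351058))
(.leaf 1307576))
(.node (.leaf 123034052375093692)
(.leaf 192857168403308560)))
(.node (.node (.leaf 16702876205060)
(.leaf 6942227779812))
(.node (.leaf 105013192155181612)
(.leaf 905332))))
(.node (.node (.node (.node (.leaf 9829116575900)
(.leaf 554))
(.leaf 758942))
(.node (.leaf 511963037106517074024)
(.leaf 1096)))
(.node (.node (.leaf 21926898606426)
(.leaf 6594933138))
(.node (.leaf 619214)
(.leaf 5806649749))))))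
(.node (.node (.node (.node (.node (.node (.leaf 11890700877848)
(.leaf 982584375130720541286460))
(.leaf 709500))
(.node (.leaf 26875372028310)
(.leaf 24813084127818)))
(.node (.node (.leaf 66161121434214622)
(.leaf 587305116))
(.node (.leaf 21238531518996)
(.leaf 73212773978480748))))
(.node (.node (.node (.node (.leaf 12853445345414)
(.leaf 24))
(.leaf 70764))
(.node (.leaf 488898410303110307882)
(.leaf 986)))
(.node (.node (.leaf 23850004865338)
(.leaf 6594974032))
(.node (.leaf 365206)
(.leaf 22201056424283)))))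
(.node (.node (.node (.node (.node (.leaf 8453049573468)
(.leaf 1090))
(.leaf 1651700))
(.node (.leaf 481979192013191348246)
(.leaf 796)))
(.node (.node (.leaf 22201843622166)
(.leaf 1661112470))
(.node (.leaf 48141224596722268)
(.leaf 569441))))
(.node (.node (.node (.leaf 10378537156790)
(.leaf 1324234))
(.node (.leaf 1921491)
(.leaf 82961203748972)))
(.node (.node (.leaf 26874668581226)
(.leaf 210))
(.node (.leaf 3641831370873429464055840)
(.leaf 4681859399)))))))))
(.node (.node (.node (.node (.node (.node (.node (.node (.node (.leaf 2818018934786)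
(.leaf 1462583))
(.leaf 725788))
(.node (.leaf 24813116629364)
(.leaf 13676519932360)))
(.node (.node (.leaf 5841541480638)
(.leaf 1111254))
(.node (.leaf 484)
(.leaf 1244))))
(.node (.node (.node (.node (.leaf 12853445345366)
(.leaf 1646678))
(.leaf 1692684))
(.node (.leaf 488898410303110201362)
(.leaf 828)))
(.node (.node (.leaf 19727272567024)
(.leaf 2903003326))
(.node (.leaf 104450104729285198)
(.leaf 12991286399040)))))
(.node (.node (.node (.node (.node (.leaf 18860404440981556)
(.leaf 1154381410156679752925009353876252880187442))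
(.leaf 758674))
(.node (.leaf 29212372648356)
(.leaf 788730466)))
(.node (.node (.leaf 14090630807778)
(.leaf 788729902))
(.node (.leaf 2306609)
(.leaf 552990))))
(.node (.node (.node (.node (.leaf 12988736176270)
(.leaf 224))
(.leaf 709756))
(.node (.leaf 488898414427419975780)
(.leaf 1036)))
(.node (.node (.leaf 23025169817904)
(.leaf 6594687300))
(.node (.leaf 1323694)
(.leaf 1667346))))))
(.node (.node (.node (.node (.node (.node (.leaf 5429795856428)
(.leaf 5437636959))
(.leaf 1692502))
(.node (.leaf 27563206082946)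
(.leaf 2269734)))
(.node (.node (.leaf 14640185303252)
(.leaf 95171848323326538053860579524750))
(.node (.leaf 2175505)
(.leaf 78258980882948448))))
(.node (.node (.node (.node (.leaf 5704001789960)
(.leaf 1331426))
(.leaf 1602632))
(.node (.leaf 491204820524059566172)
(.leaf 910)))
(.node (.node (.leaf 20276558512418)
(.leaf 6594933010))
(.node (.leaf 102197617519645290)
(.leaf 1443717227)))))
(.node (.node (.node (.node (.node (.leaf 4055271301200)
(.leaf 9352996913167))
(.leaf 1323982))
(.node (.leaf 470447164417015586822)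
(.leaf 740)))
(.node (.node (.leaf 18764697010422)
(.leaf 1359007764))
(.node (.leaf 580)
(.leaf 2282086489))))
(.node (.node (.node (.node (.leaf 7628818399412)
(.leaf 5840289920))
(.leaf 185522))
(.node (.leaf 174)
(.leaf 77871399059544)))
(.node (.node (.leaf 25224125882380)
(.leaf 27628418777222))
(.node (.leaf 627426)
(.leaf 1659242)))))))
(.node (.node (.node (.node (.node (.node (.node (.leaf 13232141925007362)
(.leaf 28729406705949))
(.leaf 725816))
(.node (.leaf 30722590171516)
(.leaf 6964576748)))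
(.node (.node (.leaf 59401460244414670)
(.leaf 5918035079677564853444616))
(.node (.leaf 53211285614977510)
(.leaf 86670749307016))))
(.node (.node (.node (.node (.leaf 7904266911852)
(.leaf 6287482028737210210536816874))
(.leaf 1750058))
(.node (.leaf 488898415939583975516)
(.leaf 866)))
(.node (.node (.leaf 27563105198354)
(.leaf 4614730016))
(.node (.leaf 2527847)
(.leaf 766142)))))
(.node (.node (.node (.node (.node (.leaf 3642618863678)
(.leaf 223694357819962753292))
(.leaf 1602480))
(.node (.leaf 28248722448828)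
(.leaf 670)))
(.node (.node (.leaf 18077300408324)
(.leaf 1694830774))
(.node (.leaf 101634392587465256)
(.leaf 553050))))
(.node (.node (.node (.node (.leaf 62782735492276378)
(.leaf 155))
(.leaf 1119382))
(.node (.leaf 484285602234140549170)
(.leaf 1080)))
(.node (.node (.leaf 29074900140366)
(.leaf 6259388794))
(.node (.leaf 594632)
(.leaf 1667396))))))
(.node (.node (.node (.node (.node (.node (.leaf 15484766137229326)
(.leaf 24955321594442))
(.leaf 1487732))
(.node (.leaf 26874668581264)
(.leaf 13410282881608)))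
(.node (.node (.leaf 16015380332758)
(.leaf 419500176))
(.node (.leaf 37392322970002)
(.leaf 1171578198642610169241887))))
(.node (.node (.node (.node (.leaf 12166284255240)
(.leaf 145))
(.leaf 103528))
(.node (.leaf 488898416214529024100)
(.leaf 966)))
(.node (.node (.leaf 21101964435466)
(.leaf 5453730116))
(.node (.leaf 365198)
(.leaf 21926077845843)))))
(.node (.node (.node (.node (.node (.leaf 30123389138100308)
(.leaf 196))
(.leaf 824302))
(.node (.leaf 484285603883776950290)
(.leaf 782)))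
(.node (.node (.leaf 20689177338134)
(.leaf 2533970138))
(.node (.leaf 5704071254604)
(.leaf 738652217))))
(.node (.node (.node (.leaf 55463559148339382)
(.leaf 1242310))
(.node (.leaf 107829179107299786)
(.leaf 1194)))
(.node (.node (.leaf 110646541690863628)
(.leaf 202))
(.node (.leaf 1757950)
(.leaf 1814910))))))))
(.node (.node (.node (.node (.node (.node (.node (.node (.leaf 7079499235330)
(.leaf 4028170507))
(.leaf 709418))
(.node (.leaf 29623716209014)
(.leaf 2007526)))
(.node (.node (.leaf 48141224594383048)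
(.leaf 1062112))
(.node (.leaf 40821225498268138)
(.leaf 19649605994))))
(.node (.node (.node (.node (.leaf 6942227964002)
(.leaf 4411096923575668670097190962))
(.leaf 1602586))
(.node (.leaf 491204816399749824530)
(.leaf 846)))
(.node (.node (.leaf 27425632690444)
(.leaf 13953158197474))
(.node (.leaf 117401600722805326)
(.leaf 3641274540)))))
(.node (.node (.node (.node (.node (.leaf 12165813665848)
(.leaf 1154368086074055389836130366745939115016250))
(.leaf 717730))
(.node (.leaf 27011570401706)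
(.leaf 7132897902)))
(.node (.node (.leaf 65598035149414632)
(.leaf 788729936))
(.node (.leaf 37442013446165038)
(.leaf 1074126965))))
(.node (.node (.node (.node (.leaf 10516345413778)
(.leaf 1124))
(.leaf 709772))
(.node (.leaf 491204819699191013480)
(.leaf 1058)))
(.node (.node (.leaf 22338477244740)
(.leaf 27013315842496))
(.node (.leaf 1323706)
(.leaf 1814828))))))
(.node (.node (.node (.node (.node (.node (.leaf 5292524716082)
(.leaf 33338242802162))
(.leaf 717668))
(.node (.leaf 119652090671030660)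
(.leaf 27634543346216)))
(.node (.node (.leaf 14363260117206)
(.leaf 5738898824557661324271778))
(.node (.leaf 40258138072470034)
(.leaf 9899725217))))
(.node (.node (.node (.node (.leaf 12027267751944)
(.leaf 38917253747494243140814528492196635128692548370714))
(.leaf 1692760))
(.node (.leaf 509656633347044048932)
(.leaf 936)))
(.node (.node (.leaf 123597139801022766)
(.leaf 5084500208))
(.node (.leaf 1307262)
(.leaf 635106)))))
(.node (.node (.node (.node (.node (.leaf 9279361359878)
(.leaf 2283446512))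
(.leaf 775134))
(.node (.leaf 463527950113799446534)
(.leaf 760)))
(.node (.node (.leaf 23851179876612)
(.leaf 2500145264))
(.node (.leaf 41516498452670)
(.leaf 1778823314))))
(.node (.node (.node (.node (.leaf 14778228441268)
(.leaf 520540))
(.leaf 5710511578320220741402736))
(.node (.leaf 450)
(.leaf 1160)))
(.node (.node (.leaf 27011839180812)
(.leaf 27903363817612))
(.node (.leaf 1610480)
(.leaf 6276047183)))))))
(.node (.node (.node (.node (.node (.node (.node (.leaf 4879972909090)
(.leaf 1708456))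
(.leaf 717638))
(.node (.leaf 125285989661294976)
(.leaf 8927642124)))
(.node (.node (.leaf 14090395926736)
(.leaf 24318077502625746367306309766))
(.node (.leaf 8541680121)
(.leaf 83511966392482))))
(.node (.node (.node (.node (.leaf 7078928195706)
(.leaf 484290728911451406525))
(.leaf 1594424))
(.node (.leaf 491204819286773219362)
(.leaf 892)))
(.node (.node (.leaf 20689110262046)
(.leaf 4514148732))
(.node (.leaf 3230639977058)
(.leaf 403521589)))))
(.node (.node (.node (.node (.node (.leaf 3230637498436)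
(.leaf 55170473952084242))
(.leaf 1242048))
(.node (.leaf 463527949563909414918)
(.leaf 708)))
(.node (.node (.leaf 22338948521988)
(.leaf 2936565850))
(.node (.leaf 109494599753581096)
(.leaf 53272))))
(.node (.node (.node (.node (.leaf 9966589083810)
(.leaf 207))
(.leaf 95396))
(.node (.leaf 511963037106516877362)
(.leaf 1112)))
(.node (.node (.leaf 29212607529308)
(.leaf 6594974116))
(.node (.leaf 1635028)
(.leaf 1823074))))))
(.node (.node (.node (.node (.node (.node (.leaf 12028173385758)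
(.leaf 4102098301402810909865574444))
(.leaf 758658))
(.node (.leaf 121338603330691490)
(.leaf 2417226)))
(.node (.node (.leaf 62782735492276446)
(.leaf 3367975858376))
(.node (.leaf 111209150194729484)
(.leaf 21558147587377287327459939614764))))
(.node (.node (.node (.node (.leaf 12577157767304)
(.leaf 694))
(.leaf 128112))
(.node (.leaf 461221542504997068900)
(.leaf 1006)))
(.node (.node (.leaf 97131755904450882)
(.leaf 6158233858))
(.node (.leaf 1757854)
(.leaf 1478924)))))
(.node (.node (.node (.node (.node (.leaf 11203775111268)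
(.leaf 662))
(.leaf 1307644))
(.node (.leaf 491204819286773407828)
(.leaf 808)))
(.node (.node (.leaf 83054845201236246)
(.leaf 2231726236))
(.node (.leaf 56026036926005832)
(.leaf 3540943063))))
(.node (.node (.node (.leaf 14914660516022)
(.leaf 79054))
(.node (.leaf 49271460272636372)
(.leaf 344320124990693394)))
(.node (.node (.leaf 27011335520620)
(.leaf 428))
(.node (.leaf 717580)
(.leaf 1454387))))))))))))

def h : Tr Nat := (.node (.node (.node (.node (.node (.node (.node (.node (.node (.node (.node (.node (.leaf 0)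
(.leaf 147664667369))
(.leaf 0))
(.node (.leaf 0)
(.leaf 405349335791)))
(.node (.node (.leaf 0)
(.leaf 0))
(.node (.leaf 0)
(.leaf 24706047356712529961984394976))))
(.node (.node (.node (.node (.leaf 0)
(.leaf 257972308086))
(.leaf 0))
(.node (.leaf 0)
(.leaf 279184212712)))
(.node (.node (.leaf 0)
(.leaf 59056193540))
(.node (.leaf 0)
(.leaf 379311096559)))))
(.node (.node (.node (.node (.node (.leaf 0)
(.leaf 140330921926374244325995243450195125128983328522240106))
(.leaf 0))
(.node (.leaf 0)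
(.leaf 65651734154817241960)))
(.node (.node (.leaf 0)
(.leaf 6174015489))
(.node (.leaf 0)
(.leaf 7259554543))))
(.node (.node (.node (.node (.leaf 0)
(.leaf 29981469101994185739672553659))
(.leaf 0))
(.node (.leaf 0)
(.leaf 307370066666)))
(.node (.node (.leaf 0)
(.leaf 131265593350))
(.node (.leaf 0)
(.leaf 28901974165757756139))))))
(.node (.node (.node (.node (.node (.node (.leaf 0)
(.leaf 158939547137))
(.leaf 0))
(.node (.leaf 0)
(.leaf 223103746852)))
(.node (.node (.leaf 0)
(.leaf 0))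
(.node (.leaf 0)
(.leaf 12149175611487195772458960385))))
(.node (.node (.node (.node (.leaf 0)
(.leaf 662256514800154947129903578209400877835569018926463493550443703583291854228628881933792463920300785793692500187858292100439470602235946269654971265000475592941962763212081908522636579067776870372961974420965747006330210062229526785713252953893746239531848806844250726312495733849959980797475009271260073618311145540432168706000788506545613769188405212018575811086432792603885211011097573321231754786560236918791259869848790498049883717699950216290412290859231052789433006629599199057186843356076950219885984888206416984645142500750005999703417778791548314725759864278504507915461605076548456027094397290875007))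
(.leaf 0))
(.node (.leaf 0)
(.leaf 21010502792385352790355412638)))
(.node (.node (.leaf 0)
(.leaf 95294717954))
(.node (.leaf 0)
(.leaf 78126187242)))))
(.node (.node (.node (.node (.node (.leaf 0)
(.leaf 1139194905813361379563124400331785232096862041744587290216148296068534981197294732952018436652259671917388275315103637051508725394779105697235978612455363141453872105244549311259570130721005617751974188353993377972953188549868235840718311281017849952894150170104172000455078914414935685175977851939913311583352719454))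
(.leaf 0))
(.node (.leaf 0)
(.leaf 263898859007)))
(.node (.node (.leaf 0)
(.leaf 37849399297))
(.node (.leaf 0)
(.leaf 372599882474))))
(.node (.node (.node (.node (.leaf 0)
(.leaf 6036010941231110310613616857))
(.leaf 0))
(.node (.leaf 0)
(.leaf 322417919490)))
(.node (.node (.leaf 0)
(.leaf 158109138950))
(.node (.leaf 0)
(.leaf 395699488254)))))))
(.node (.node (.node (.node (.node (.node (.node (.leaf 0)
(.leaf 41007649964129649387))
(.leaf 0))
(.node (.leaf 0)
(.leaf 212075479786)))
(.node (.node (.leaf 0)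
(.leaf 0))
(.node (.leaf 0)
(.leaf 1821984434713454276665106840997497448205516804))))
(.node (.node (.node (.node (.leaf 0)
(.leaf 1580694289873887447291048263711630236926764244420450463948100999088816297434492119650455182335815129531470709338784842182739276202649800826133439486989851089806429692005421507025644462399277304126757660533559653577907533961567512693789185022975320552491670458860975528666743556748314415772221662919080984460279476706185298476783873889524157965850655284869980190945576696702794324367505309480961663460452397500692925019518280317030359191367486115607181672758456651364761842171456626911307322123717707893528510361508124536475195115884799602481737585462559340458389307329047234434651040231925506821170544571350652834458607336712303909996522070028531105200650729074210911331794719432289424565770784132759550714973998371703580880385378168517401577590))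
(.leaf 0))
(.node (.leaf 0)
(.leaf 284821488362)))
(.node (.node (.leaf 0)
(.leaf 89926270980))
(.node (.leaf 0)
(.leaf 68999709423)))))
(.node (.node (.node (.node (.node (.leaf 0)
(.leaf 26917850045544623086544696232171690569265029593806058650261740921933562051809724873370046719069717187906044610287866937482207803450226151532834834263125598102703141716439985814278083031063555238268431813014224591751200758107127193971482281855744834019643184531766451110178093989476869670127))
(.leaf 0))
(.node (.leaf 0)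
(.leaf 254771004929)))
(.node (.node (.leaf 0)
(.leaf 27648851969))
(.node (.leaf 0)
(.leaf 1896445765241585382700549627))))
(.node (.node (.node (.node (.leaf 0)
(.leaf 113139606346422945996))
(.leaf 0))
(.node (.leaf 0)
(.leaf 314887308795)))
(.node (.node (.leaf 0)
(.leaf 137170649090))
(.node (.leaf 0)
(.leaf 104707266782980539908))))))
(.node (.node (.node (.node (.node (.node (.leaf 0)
(.leaf 147506803392736199315))
(.leaf 0))
(.node (.leaf 0)
(.leaf 232759297537)))
(.node (.node (.leaf 0)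
(.leaf 1879048193))
(.node (.leaf 0)
(.leaf 30872636197740050194851366398))))
(.node (.node (.node (.node (.leaf 0)
(.leaf 49110296804211391148715555964857834186317627433691248503351830049525746105352554376859859955292456274474382329518897846917771868758224299287409366892633005043401724574816084495921932449107578156935068191837686889006522382305097156056540894610640177890355785354183463955663120286509989602342581699823424364801415955814563338580993017807476266856986735819722017853958120736884))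
(.leaf 0))
(.node (.leaf 0)
(.leaf 297437954794)))
(.node (.node (.leaf 0)
(.leaf 117306818565))
(.node (.leaf 0)
(.leaf 88058495726)))))
(.node (.node (.node (.node (.node (.leaf 0)
(.leaf 518624707213))
(.leaf 0))
(.node (.leaf 0)
(.leaf 19617196892352439308281513582)))
(.node (.node (.leaf 0)
(.leaf 47781904388))
(.node (.leaf 0)
(.leaf 15135226358418834154))))
(.node (.node (.node (.node (.leaf 0)
(.leaf 25627572053571305272254925002782124129602132709522867463750832019213054508294617948915536769976158941081875253419))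
(.leaf 0))
(.node (.leaf 0)
(.leaf 330455515882)))
(.node (.node (.leaf 0)
(.leaf 44747906636384043011))
(.node (.leaf 0)
(.leaf 38197438981827724009))))))))
(.node (.node (.node (.node (.node (.node (.node (.node (.leaf 0)
(.leaf 149812282091))
(.leaf 0))
(.node (.leaf 0)
(.leaf 203772068593)))
(.node (.node (.leaf 0)
(.leaf 0))
(.node (.leaf 0)
(.leaf 1801208155111138079750239122614894601034924036))))
(.node (.node (.node (.node (.leaf 0)
(.leaf 108986987692535127168079121200307576336494612393699893534292198655644597369069472147393325221643949795714021333184943999020039354468227490353272310661954794019036241085429174161218482638831616671760464444831979457517441821680159598987467310764702532061476265248877988474801236908178412244202780266620913772722714100316484911978317951))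
(.leaf 0))
(.node (.leaf 0)
(.leaf 20352544913329582698757817990)))
(.node (.node (.leaf 0)
(.leaf 71941095428))
(.node (.leaf 0)
(.leaf 66852225775)))))
(.node (.node (.node (.node (.node (.leaf 0)
(.leaf 1354086704490136288519145638866059804065885834516772709270533836303770537078096837084747))
(.leaf 0))
(.node (.leaf 0)
(.leaf 67157677643657053078)))
(.node (.node (.leaf 0)
(.leaf 19058917377))
(.node (.leaf 0)
(.leaf 5335393569260503784))))
(.node (.node (.node (.node (.leaf 0)
(.leaf 501715896514))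
(.leaf 0))
(.node (.leaf 0)
(.leaf 311680501250)))
(.node (.node (.leaf 0)
(.leaf 133413076998))
(.node (.leaf 0)
(.leaf 29838687493156897515))))))
(.node (.node (.node (.node (.node (.node (.leaf 0)
(.leaf 108670399270157485570))
(.leaf 0))
(.node (.leaf 0)
(.leaf 61468699338861511491)))
(.node (.node (.leaf 0)
(.leaf 0))
(.node (.leaf 0)
(.leaf 6087319981858999440429373073800565418473819199262550741944158887587329043596009))))
(.node (.node (.node (.node (.leaf 0)
(.leaf 427248133869181173336089181609370719959216535616121942832801867629919119903362834735635436506569879908567279844168333142736693977499532461847807856501232687003462867255364895426556418656374))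
(.leaf 0))
(.node (.leaf 0)
(.leaf 294217385465)))
(.node (.node (.leaf 0)
(.leaf 110058668034))
(.node (.leaf 0)
(.leaf 381726687978)))))
(.node (.node (.node (.node (.node (.leaf 0)
(.leaf 37035639200996692274055040851140867648129766114996088575154921781027606941076373673305642816728379616636988853209480551322896652032414206618022413909968786555915248742525470858179888132010508368741251764104241998117487204898691404171025445714724965))
(.leaf 0))
(.node (.leaf 0)
(.leaf 268999263746)))
(.node (.node (.leaf 0)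
(.leaf 45634420740))
(.node (.leaf 0)
(.leaf 52087948010))))
(.node (.node (.node (.node (.leaf 0)
(.leaf 557207089057878876057560726967633279026983592044330449740728605306858348055906815283192898824017021349189281461247431638040233725298510600381281027247635462101024336085951461920784636306324292849273961674079871651872532533823015138))
(.leaf 0))
(.node (.leaf 0)
(.leaf 23543750175312578390157493867)))
(.node (.node (.leaf 0)
(.leaf 43883215507928907779))
(.node (.leaf 0)
(.leaf 137464710657)))))))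
(.node (.node (.node (.node (.node (.node (.node (.leaf 0)
(.leaf 154912884222))
(.leaf 0))
(.node (.leaf 0)
(.leaf 218271515425)))
(.node (.node (.leaf 0)
(.leaf 0))
(.node (.leaf 0)
(.leaf 1838739938626906339951363565168319103758893062))))
(.node (.node (.node (.node (.leaf 0)
(.leaf 2500644793279629426668306032006691971002771838620636523203897401336208533602962527448845771707974784335576553353079216922183537936430992861373783580823941741812821702424090658874107882948761609013985321776793127841041749789665882348606877607320109592882500748517918266320836033327432015271059193355083090096077063893344025335800943679910956451563647))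
(.leaf 0))
(.node (.leaf 0)
(.leaf 287774278378)))
(.node (.node (.leaf 0)
(.leaf 93147234306))
(.node (.leaf 0)
(.leaf 380384510698)))))
(.node (.node (.node (.node (.node (.leaf 0)
(.leaf 107383826599651070349996872690931173244851247799201747811763630291463733889876056191949410150615716137005))
(.leaf 0))
(.node (.leaf 0)
(.leaf 258530412036)))
(.node (.node (.leaf 0)
(.leaf 31138775043))
(.node (.leaf 0)
(.leaf 10739713122105098984))))
(.node (.node (.node (.node (.leaf 0)
(.leaf 528832530646))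
(.leaf 0))
(.node (.leaf 0)
(.leaf 318661133829)))
(.node (.node (.leaf 0)
(.leaf 147371589637))
(.node (.leaf 0)
(.leaf 34018063342450639595))))))
(.node (.node (.node (.node (.node (.node (.leaf 0)
(.leaf 1191887314598916326734245980995080622890156871))
(.leaf 0))
(.node (.leaf 0)
(.leaf 64566771053104005991)))
(.node (.node (.leaf 0)
(.leaf 4026531841))
(.node (.leaf 0)
(.leaf 31201539651171708466830575105))))
(.node (.node (.node (.node (.leaf 0)
(.leaf 526684260535))
(.leaf 0))
(.node (.leaf 0)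
(.leaf 302552516097)))
(.node (.node (.leaf 0)
(.leaf 125091577862))
(.node (.leaf 0)
(.leaf 100151722731)))))
(.node (.node (.node (.node (.node (.leaf 0)
(.leaf 259049064564))
(.leaf 0))
(.node (.leaf 0)
(.leaf 275694813932)))
(.node (.node (.leaf 0)
(.leaf 49929388036))
(.node (.leaf 0)
(.leaf 62557127406))))
(.node (.node (.node (.leaf 0)
(.leaf 0))
(.node (.leaf 0)
(.leaf 336093185527)))
(.node (.node (.leaf 0)
(.leaf 100523387330822734572))
(.node (.leaf 0)
(.leaf 38990741020390262276)))))))))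
(.node (.node (.node (.node (.node (.node (.node (.node (.node (.leaf 0)
(.leaf 148738540267))
(.leaf 0))
(.node (.leaf 0)
(.leaf 107156521290947954177)))
(.node (.node (.leaf 0)
(.leaf 0))
(.node (.leaf 0)
(.leaf 24878017044600916832759840771))))
(.node (.node (.node (.node (.leaf 0)
(.leaf 304687024248))
(.leaf 0))
(.node (.leaf 0)
(.leaf 280794825448)))
(.node (.node (.leaf 0)
(.leaf 64692944897))
(.node (.leaf 0)
(.leaf 65778483951)))))
(.node (.node (.node (.node (.node (.leaf 0)
(.leaf 7056393559690689147049935487667472451))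
(.leaf 0))
(.node (.leaf 0)
(.leaf 245643936493)))
(.node (.node (.leaf 0)
(.leaf 14495514625))
(.node (.leaf 0)
(.leaf 4254617828196156136))))
(.node (.node (.node (.node (.leaf 0)
(.leaf 98288124553728428221))
(.leaf 0))
(.node (.leaf 0)
(.leaf 310325741053)))
(.node (.node (.leaf 0)
(.leaf 132339335174))
(.node (.leaf 0)
(.leaf 29190556386704557569))))))
(.node (.node (.node (.node (.node (.node (.leaf 0)
(.leaf 43097953510465537535))
(.leaf 0))
(.node (.leaf 0)
(.leaf 227400549187)))
(.node (.node (.leaf 0)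
(.leaf 0))
(.node (.leaf 0)
(.leaf 12052480434879588943706654206))))
(.node (.node (.node (.node (.leaf 0)
(.leaf 192609543691915718304666828441323880889183355161811772541912778101677414349833377054732590021956281707915986173028251583809830574713507196512840268189006042415531686073265329094048750793349261816324856096222690902220894183280670405778409601))
(.leaf 0))
(.node (.leaf 0)
(.leaf 292888839681)))
(.node (.node (.leaf 0)
(.leaf 104689958914))
(.node (.leaf 0)
(.leaf 381458252522)))))
(.node (.node (.node (.node (.node (.leaf 0)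
(.leaf 223513443533281066138648533575180479566299004814426674258203181568922993875890820119510915487231636111529575773698365617924335010902453609333129187799183903187441107602135178541080919755914411961448865903158338871669405226089903073258899725895163910626549076587632959142770015709514642848483043905152871037774934318651143423315355394572945193176873631572520626413914192440087443874352125284292417984193038435))
(.leaf 0))
(.node (.leaf 0)
(.leaf 267387471361)))
(.node (.node (.leaf 0)
(.leaf 43754979329))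
(.node (.leaf 0)
(.leaf 13622052068262740712))))
(.node (.node (.node (.node (.leaf 0)
(.leaf 235725850852))
(.leaf 0))
(.node (.leaf 0)
(.leaf 324027352577)))
(.node (.node (.leaf 0)
(.leaf 3141352276035658210725237979835793411))
(.node (.leaf 0)
(.leaf 397310232065)))))))
(.node (.node (.node (.node (.node (.node (.node (.leaf 0)
(.leaf 153839273473))
(.leaf 0))
(.node (.leaf 0)
(.leaf 213149352684)))
(.node (.node (.leaf 0)
(.leaf 0))
(.node (.leaf 0)
(.leaf 1830364228374774033598400968534808932660150278))))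
(.node (.node (.node (.node (.leaf 0)
(.leaf 444869312619674147440664748085398663371951700015841102657029992553396577991366030870815241023402635840892339487327789824495338772973291647))
(.leaf 0))
(.node (.leaf 0)
(.leaf 286163665642)))
(.node (.node (.leaf 0)
(.leaf 92073492482))
(.node (.leaf 0)
(.leaf 379847508712)))))
(.node (.node (.node (.node (.node (.leaf 0)
(.leaf 179096074735574838319451386192678546508590040816692028208893072835620184698055981629293479681031707605803761803024553353140880069583128494613245679286883537820409442662128216804271084380969326469539677351314220083558941382146692580062448241956895221218964391874668088680850497682713101980341073714526640361558193758015129679))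
(.leaf 0))
(.node (.leaf 0)
(.leaf 256382797314)))
(.node (.node (.leaf 0)
(.leaf 30065033219))
(.node (.leaf 0)
(.leaf 369110090472))))
(.node (.node (.node (.node (.leaf 0)
(.leaf 2360243646583064130032371922))
(.leaf 0))
(.node (.leaf 0)
(.leaf 22848910623183631061443086034)))
(.node (.node (.leaf 0)
(.leaf 141466009605))
(.node (.leaf 0)
(.leaf 33369544996109288171))))))
(.node (.node (.node (.node (.node (.node (.leaf 0)
(.leaf 30001425799044372092686239566))
(.leaf 0))
(.node (.leaf 0)
(.leaf 235966563055)))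
(.node (.node (.leaf 0)
(.leaf 792739088607215617))
(.node (.leaf 0)
(.leaf 2224622178131171607626838803303115277763806718))))
(.node (.node (.node (.node (.leaf 0)
(.leaf 728531444624923433976497116125408827236273665228168213914886241830286837394355218040741564368627103099502394832496205540589629068421615274540043115594799176273381961021414310334572266548190305161304421044892112490980679098941539696958846632141652704897206587856600298621048))
(.leaf 0))
(.node (.leaf 0)
(.leaf 298781181435)))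
(.node (.node (.leaf 0)
(.leaf 118380560389))
(.node (.leaf 0)
(.leaf 6500035286334093279981667835)))))
(.node (.node (.node (.node (.node (.leaf 0)
(.leaf 500372539508))
(.leaf 0))
(.node (.leaf 0)
(.leaf 19733300994988678704591996530)))
(.node (.node (.leaf 0)
(.leaf 48855646212))
(.node (.leaf 0)
(.leaf 4352973585893488532375143931))))
(.node (.node (.node (.node (.leaf 0)
(.leaf 947925962505023880823377942814347106633517300))
(.leaf 0))
(.node (.leaf 0)
(.leaf 333945832953)))
(.node (.node (.leaf 0)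
(.leaf 45108194606573682691))
(.node (.leaf 0)
(.leaf 10389022200636306677970240233))))))))
(.node (.node (.node (.node (.node (.node (.node (.node (.leaf 0)
(.leaf 150886023915))
(.leaf 0))
(.node (.leaf 0)
(.leaf 207799517947)))
(.node (.node (.leaf 0)
(.leaf 0))
(.node (.leaf 0)
(.leaf 1814988909658425840649711414891404019622084612))))
(.node (.node (.node (.node (.leaf 0)
(.leaf 7025241033733167008171905965210208203))
(.leaf 0))
(.node (.leaf 0)
(.leaf 283479311082)))
(.node (.node (.leaf 0)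
(.leaf 79188852740))
(.node (.leaf 0)
(.leaf 67925967599)))))
(.node (.node (.node (.node (.node (.leaf 0)
(.leaf 3843850215398632303064753554642308487472984058745708574348168892858655748172809350530390568777481577885343352714670867316851094789459538074825708438799400000843624010755907916577498849008551407751924367903748661530963353480168251546198393553196986433863683261118789725448536114610694554377077451687937383078703595401049942367200375200580926953267888412263633949383114820103309093854801809637738828484885714487444218948341414500884736649924344091973097015520621885938954816351181702695831233371960304048051774146724241590760661212619386585745853183039193701570116323238))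
(.leaf 0))
(.node (.leaf 0)
(.leaf 251564196759)))
(.node (.node (.leaf 0)
(.leaf 24159584260))
(.node (.leaf 0)
(.leaf 97785691549044508151))))
(.node (.node (.node (.node (.leaf 0)
(.leaf 129354869579457693892))
(.leaf 0))
(.node (.leaf 0)
(.leaf 313558238718)))
(.node (.node (.leaf 0)
(.leaf 134486818822))
(.node (.leaf 0)
(.leaf 389794039297))))))
(.node (.node (.node (.node (.node (.node (.leaf 0)
(.leaf 9948563772501369952246821352723711957))
(.leaf 0))
(.node (.leaf 0)
(.leaf 231695647556)))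
(.node (.node (.leaf 0)
(.leaf 0))
(.node (.leaf 0)
(.leaf 294840508969360111015522785864349532258968352129680110))))
(.node (.node (.node (.node (.leaf 0)
(.leaf 148228258937049121406))
(.leaf 0))
(.node (.leaf 0)
(.leaf 296096302583)))
(.node (.node (.leaf 0)
(.leaf 115696336902))
(.node (.leaf 0)
(.leaf 6190550276512607472694265335)))))
(.node (.node (.node (.node (.node (.leaf 0)
(.leaf 3021087275262202042567794544561181342470452922280494169901612721519343859931046600704881))
(.leaf 0))
(.node (.leaf 0)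
(.leaf 270608696833)))
(.node (.node (.leaf 0)
(.leaf 46708162564))
(.node (.leaf 0)
(.leaf 54235300584))))
(.node (.node (.node (.node (.leaf 0)
(.leaf 550020887715896130179773824880506015210085440290818261))
(.leaf 0))
(.node (.leaf 0)
(.leaf 328576336616)))
(.node (.node (.leaf 0)
(.leaf 44315561072156475395))
(.node (.leaf 0)
(.leaf 37620943044346905321)))))))
(.node (.node (.node (.node (.node (.node (.node (.leaf 0)
(.leaf 42088549059875963627))
(.leaf 0))
(.node (.leaf 0)
(.leaf 220128871151)))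
(.node (.node (.leaf 0)
(.leaf 0))
(.node (.leaf 0)
(.leaf 25634058481491771516823011333))))
(.node (.node (.node (.node (.leaf 0)
(.leaf 1954219335020591795564432583400618893789118782251231467903690587675146299523671166735301079904543136196278601971890681631724712442254455727414248220380183372918034243926073888671873))
(.leaf 0))
(.node (.leaf 0)
(.leaf 289653195496)))
(.node (.node (.leaf 0)
(.leaf 94220976130))
(.node (.leaf 0)
(.leaf 381189685992)))))
(.node (.node (.node (.node (.node (.leaf 0)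
(.leaf 27700055961340341083247870251))
(.leaf 0))
(.node (.leaf 0)
(.leaf 260410639877)))
(.node (.node (.leaf 0)
(.leaf 35165437956))
(.node (.leaf 0)
(.leaf 3057014552071488651855857143))))
(.node (.node (.node (.node (.leaf 0)
(.leaf 4236798755556249413361469656))
(.leaf 0))
(.node (.leaf 0)
(.leaf 320268993261)))
(.node (.node (.leaf 0)
(.leaf 153545736198))
(.node (.leaf 0)
(.leaf 128874316523))))))
(.node (.node (.node (.node (.node (.node (.leaf 0)
(.leaf 96414521148947497678))
(.leaf 0))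
(.node (.leaf 0)
(.leaf 242703598440)))
(.node (.node (.leaf 0)
(.leaf 5100273665))
(.node (.leaf 0)
(.leaf 19880059377640062310191142612373729034848952874393809016382667046313926315863509043379542303999970279365444086374268278915422028702606917740800259475981147331953384))))
(.node (.node (.node (.node (.leaf 0)
(.leaf 503862069435))
(.leaf 0))
(.node (.leaf 0)
(.leaf 306030118396)))
(.node (.node (.leaf 0)
(.leaf 127775801349))
(.node (.leaf 0)
(.leaf 103104512747)))))
(.node (.node (.node (.node (.node (.leaf 0)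
(.leaf 29846598310055352251317028981))
(.leaf 0))
(.node (.leaf 0)
(.leaf 277305295594)))
(.node (.node (.leaf 0)
(.leaf 57176752129))
(.node (.leaf 0)
(.leaf 63630869230))))
(.node (.node (.node (.leaf 0)
(.leaf 0))
(.node (.leaf 0)
(.leaf 6590392542372037210460509647969845254)))
(.node (.node (.leaf 0)
(.leaf 27100107640374038568333542124))
(.node (.leaf 0)
(.leaf 146590925545))))))))))
(.node (.node (.node (.node (.node (.node (.node (.node (.node (.node (.leaf 0)
(.leaf 148201538281))
(.leaf 0))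
(.node (.leaf 0)
(.leaf 107084428301816104449)))
(.node (.node (.leaf 0)
(.leaf 0))
(.node (.leaf 0)
(.leaf 1787068741260283060662425240753075182207500291))))
(.node (.node (.node (.node (.leaf 0)
(.leaf 302002669688))
(.leaf 0))
(.node (.leaf 0)
(.leaf 280258216684)))
(.node (.node (.leaf 0)
(.leaf 61203283969))
(.node (.leaf 0)
(.leaf 65241613039)))))
(.node (.node (.node (.node (.node (.leaf 0)
(.leaf 97927132512500253405))
(.leaf 0))
(.node (.leaf 0)
(.leaf 245107065581)))
(.node (.node (.leaf 0)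
(.leaf 6979715076))
(.node (.leaf 0)
(.leaf 12359828207))))
(.node (.node (.node (.node (.leaf 0)
(.leaf 4231829733279237361989478893291374779))
(.leaf 0))
(.node (.leaf 0)
(.leaf 309787690488)))
(.node (.node (.leaf 0)
(.leaf 131802464262))
(.node (.leaf 0)
(.leaf 108206425602))))))
(.node (.node (.node (.node (.node (.node (.leaf 0)
(.leaf 42881182594293039849))
(.leaf 0))
(.node (.leaf 0)
(.leaf 223640617764)))
(.node (.node (.leaf 0)
(.leaf 0))
(.node (.leaf 0)
(.leaf 14006199008291754151770654209))))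
(.node (.node (.node (.node (.leaf 0)
(.leaf 499290802278))
(.leaf 0))
(.node (.leaf 0)
(.leaf 292338206199)))
(.node (.node (.leaf 0)
(.leaf 99321643013))
(.node (.leaf 0)
(.leaf 78663058154)))))
(.node (.node (.node (.node (.node (.leaf 0)
(.leaf 29255971739312054657391537936091504756238963455550252403690771434035821960105578468064268080560331836186117555145067585972514303149434248832861918390824316627119649638583061906267861919691601494857704376455492102981704211973162103895479922391413142722147055630020434971502391462978610910960803619645523624258062458906912796240935686135351147))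
(.leaf 0))
(.node (.leaf 0)
(.leaf 266583475716)))
(.node (.node (.leaf 0)
(.leaf 39191576577))
(.node (.leaf 0)
(.leaf 373405188842))))
(.node (.node (.node (.node (.leaf 0)
(.leaf 2340881949118121130400811229))
(.leaf 0))
(.node (.leaf 0)
(.leaf 323224536581)))
(.node (.node (.leaf 0)
(.leaf 160793493510))
(.node (.leaf 0)
(.leaf 396236359166)))))))
(.node (.node (.node (.node (.node (.node (.node (.leaf 0)
(.leaf 402678941185))
(.leaf 0))
(.node (.leaf 0)
(.leaf 57072781273153471239)))
(.node (.node (.leaf 0)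
(.leaf 0))
(.node (.leaf 0)
(.leaf 94416260224205522677))))
(.node (.node (.node (.node (.leaf 0)
(.leaf 475355368523368035174816716616664137308689480826439018168986800866684171534506861280690684736689540569390799485344067882997274818533329012))
(.leaf 0))
(.node (.leaf 0)
(.leaf 285642393092)))
(.node (.node (.leaf 0)
(.leaf 91536490497))
(.node (.leaf 0)
(.leaf 69536580335)))))
(.node (.node (.node (.node (.node (.leaf 0)
(.leaf 4733029917937522754198966102576460135974493065593866815888644866227537039329314))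
(.leaf 0))
(.node (.leaf 0)
(.leaf 255307612909)))
(.node (.node (.leaf 0)
(.leaf 29528162307))
(.node (.leaf 0)
(.leaf 367231501039))))
(.node (.node (.node (.node (.leaf 0)
(.leaf 343946299597))
(.leaf 0))
(.node (.leaf 0)
(.leaf 315708081664)))
(.node (.node (.leaf 0)
(.leaf 139586961413))
(.node (.leaf 0)
(.leaf 120284381931))))))
(.node (.node (.node (.node (.node (.node (.leaf 0)
(.leaf 292715766964087177783373268465963402974958172811635171436300728979346368179287130181259108586010263749857))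
(.leaf 0))
(.node (.leaf 0)
(.leaf 233296168449)))
(.node (.node (.leaf 0)
(.leaf 2415919105))
(.node (.leaf 0)
(.leaf 1239130413624417795453517171318769511241482990))))
(.node (.node (.node (.node (.leaf 0)
(.leaf 611244873944400827190256323270287904193666962446966895818994272905391280895324487919884652940270015254386253015322665011689247504222933296350461083210171904522413489419257545156627251686501316101940877095611753496355238886036647489553641043787700136820514876327234050316180523252395500624588011824079638379121600132221238518372918640934431641537710096438405188551448487542294041345281218631870975767822326508663958664023270502293752086357574234081400))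
(.leaf 0))
(.node (.leaf 0)
(.leaf 298257548801)))
(.node (.node (.leaf 0)
(.leaf 117843689477))
(.node (.leaf 0)
(.leaf 89400804079)))))
(.node (.node (.node (.node (.node (.leaf 0)
(.leaf 1488602315809707089296659340812243528483670117))
(.leaf 0))
(.node (.leaf 0)
(.leaf 272758539779)))
(.node (.node (.leaf 0)
(.leaf 48318775300))
(.node (.leaf 0)
(.leaf 4159545454755007125859534327))))
(.node (.node (.node (.node (.leaf 0)
(.leaf 4506975935160757682871381041030529696652383423401476733895612299252360999813978156969238045509134040833236434375793049982513927086397704691419360926470628429931598230513236379330042056901926653302990526406053755698850016650286089334931800533074620213700684523309248))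
(.leaf 0))
(.node (.leaf 0)
(.leaf 23872899120899206377932523139)))
(.node (.node (.leaf 0)
(.leaf 44964079418497826819))
(.node (.leaf 0)
(.leaf 143638266603))))))))
(.node (.node (.node (.node (.node (.node (.node (.node (.leaf 0)
(.leaf 150349153003))
(.leaf 0))
(.node (.leaf 0)
(.leaf 55343311053969621754)))
(.node (.node (.leaf 0)
(.leaf 0))
(.node (.leaf 0)
(.leaf 25093083069853012757760573444))))
(.node (.node (.node (.node (.leaf 0)
(.leaf 13844492397163376262487207484506784346471755252609595730219344219526030584710793))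
(.leaf 0))
(.node (.leaf 0)
(.leaf 282956596734)))
(.node (.node (.leaf 0)
(.leaf 73014444033))
(.node (.leaf 0)
(.leaf 379579532015)))))
(.node (.node (.node (.node (.node (.leaf 0)
(.leaf 101241746649849987791))
(.leaf 0))
(.node (.leaf 0)
(.leaf 67304924441906971542)))
(.node (.node (.leaf 0)
(.leaf 21743271937))
(.node (.leaf 0)
(.leaf 5551566351374418666))))
(.node (.node (.node (.node (.leaf 0)
(.leaf 273008888002))
(.leaf 0))
(.node (.leaf 0)
(.leaf 22558636199493531185172907720)))
(.node (.node (.leaf 0)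
(.leaf 133949947910))
(.node (.leaf 0)
(.leaf 30126953264402399977))))))
(.node (.node (.node (.node (.node (.node (.leaf 0)
(.leaf 27148479681100971320320062083580172948744957924081230961661761325731152872817052114364307316593870725313180790289847372957608435142878181279411543363689356346852574))
(.leaf 0))
(.node (.leaf 0)
(.leaf 230353470276)))
(.node (.node (.leaf 0)
(.leaf 0))
(.node (.leaf 0)
(.leaf 8220108221705033326332666323033982761))))
(.node (.node (.node (.node (.leaf 0)
(.leaf 595414222993))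
(.leaf 0))
(.node (.leaf 0)
(.leaf 294753469160)))
(.node (.node (.leaf 0)
(.leaf 112743022594))
(.node (.leaf 0)
(.leaf 102541492755547751927)))))
(.node (.node (.node (.node (.node (.leaf 0)
(.leaf 13946385580424237431994320931))
(.leaf 0))
(.node (.leaf 0)
(.leaf 269804701188)))
(.node (.node (.leaf 0)
(.leaf 46171291652))
(.node (.leaf 0)
(.leaf 14126420041887843050))))
(.node (.node (.node (.node (.leaf 0)
(.leaf 559178844393))
(.leaf 0))
(.node (.leaf 0)
(.leaf 328039727852)))
(.node (.node (.leaf 0)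
(.leaf 44171445884080619523))
(.node (.leaf 0)
(.leaf 37188632665296863979)))))))
(.node (.node (.node (.node (.node (.node (.node (.leaf 0)
(.leaf 41728225904508928747))
(.leaf 0))
(.node (.leaf 0)
(.leaf 219345257249)))
(.node (.node (.leaf 0)
(.leaf 0))
(.node (.leaf 0)
(.leaf 95205410490203702971))))
(.node (.node (.node (.node (.leaf 0)
(.leaf 6791092248419859295524126258786522162942428216790590756704611252601683568805804453560250605543579340194534269430985792521105802071122717790187245938122600273830737658966413629974340305689354914804839503696326940130311283066889220158623259695354003633330669106527819031845908808911715134361264624976658811163489145146252140933506450940067711628669139792052553462368380690650980879921951880343658648124281606428078634006079164213282916894968140970360201272216276425942596651135))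
(.leaf 0))
(.node (.leaf 0)
(.leaf 289117111801)))
(.node (.node (.leaf 0)
(.leaf 93684105218))
(.node (.leaf 0)
(.leaf 74904830696)))))
(.node (.node (.node (.node (.node (.leaf 0)
(.leaf 3496047870502620986639119754339414746063641283026138391557909139718213145823534682160371393896147271202124322176606189743338881421606564516540174063146666276971822549168366608302453422529223163037224945102734816247088944237231843618657151285491940543486899503720885906536476185166952352702885730831331943459109427727152539931123947887878021942480426725350285900669511324874950775144202176591))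
(.leaf 0))
(.node (.leaf 0)
(.leaf 259602843137)))
(.node (.node (.leaf 0)
(.leaf 31675645955))
(.node (.leaf 0)
(.leaf 11172093870973321962))))
(.node (.node (.node (.node (.leaf 0)
(.leaf 5745807352678616426428238038))
(.leaf 0))
(.node (.leaf 0)
(.leaf 319732385281)))
(.node (.node (.leaf 0)
(.leaf 151398252550))
(.node (.leaf 0)
(.leaf 34234271309741818603))))))
(.node (.node (.node (.node (.node (.node (.leaf 0)
(.leaf 42572184713361555597165326191644342977553811565064746876152730859800117))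
(.leaf 0))
(.node (.leaf 0)
(.leaf 241361027943)))
(.node (.node (.leaf 0)
(.leaf 4563402753))
(.node (.leaf 0)
(.leaf 2011357017273684492568315934568374775265231598))))
(.node (.node (.node (.node (.leaf 0)
(.leaf 1139487373645305476701241972890420096819105572985954347515329584763133159210779888710249560148151))
(.leaf 0))
(.node (.leaf 0)
(.leaf 304165619205)))
(.node (.node (.leaf 0)
(.leaf 126970494981))
(.node (.leaf 0)
(.leaf 102567510761)))))
(.node (.node (.node (.node (.node (.leaf 0)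
(.leaf 318097918069))
(.leaf 0))
(.node (.leaf 0)
(.leaf 276231422696)))
(.node (.node (.leaf 0)
(.leaf 54761095171))
(.node (.leaf 0)
(.leaf 63093998318))))
(.node (.node (.node (.leaf 0)
(.leaf 0))
(.node (.leaf 0)
(.leaf 337755702970)))
(.node (.node (.leaf 0)
(.leaf 100595480109769622252))
(.node (.leaf 0)
(.leaf 10524440782259434964394312427)))))))))
(.node (.node (.node (.node (.node (.node (.node (.node (.node (.leaf 0)
(.leaf 149275411179))
(.leaf 0))
(.node (.leaf 0)
(.leaf 202966631152)))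
(.node (.node (.leaf 0)
(.leaf 0))
(.node (.leaf 0)
(.leaf 346293207786))))
(.node (.node (.node (.node (.leaf 0)
(.leaf 42303723857605036874304331978076140023137785411105149964091912949991558))
(.leaf 0))
(.node (.leaf 0)
(.leaf 281600262890)))
(.node (.node (.leaf 0)
(.leaf 70062047236))
(.node (.leaf 0)
(.leaf 66315354863)))))
(.node (.node (.node (.node (.node (.leaf 0)
(.leaf 2643991813139576393793954591098059725939115566319589558321907139927068085709834009446310))
(.leaf 0))
(.node (.leaf 0)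
(.leaf 248314462958)))
(.node (.node (.leaf 0)
(.leaf 17180262404))
(.node (.leaf 0)
(.leaf 4470737625445892840))))
(.node (.node (.node (.node (.leaf 0)
(.leaf 40506141169597191759899330750))
(.leaf 0))
(.node (.leaf 0)
(.leaf 310860383737)))
(.node (.node (.leaf 0)
(.leaf 132876206086))
(.node (.leaf 0)
(.leaf 388720297473))))))
(.node (.node (.node (.node (.node (.node (.leaf 0)
(.leaf 161088210434))
(.leaf 0))
(.node (.leaf 0)
(.leaf 228474291011)))
(.node (.node (.leaf 0)
(.leaf 0))
(.node (.leaf 0)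
(.leaf 991207819259445990221883159439310780261740387977460930140408653634815490121812729884859972038206692877152113802176636367002534635))))
(.node (.node (.node (.node (.leaf 0)
(.leaf 1754606353253013593525726147660194221730493976909049801009848787856769261537411714657713676614515434464429190319088863217130137441809300473824473764731189416151541872493102399574435783714567921896386830944560191561712331200110867389421081207572540371666073565683015172352087531159573538379572395255962990200623091245862472345628861757192411716220239832442829298718514047318583617032528895752023607000633427139480059309020859406535934075512052812337807817448355214641143562242278403073704121904426460311008973360507071877722310463919193100595529245945799373989517002869))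
(.leaf 0))
(.node (.leaf 0)
(.leaf 293412079097)))
(.node (.node (.leaf 0)
(.leaf 107106402310))
(.node (.leaf 0)
(.leaf 81347412714)))))
(.node (.node (.node (.node (.node (.leaf 0)
(.leaf 1598314542951198505124656309819468993621128590596151064820712921943027171886589370112645354258356702058343191009673540727760865210118824368490033188095246837082893358131881077447682305224280324055439921371947007546139881720979653523521414617693375941891163588789144))
(.leaf 0))
(.node (.leaf 0)
(.leaf 268196316678)))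
(.node (.node (.leaf 0)
(.leaf 12105675798640721924))
(.node (.leaf 0)
(.leaf 51551602167))))
(.node (.node (.node (.node (.leaf 0)
(.leaf 5208113304101293368846019766473836607508226095637614353834079453936730338515334259666218413593885168698600143820059442033394002964904918860094561828884821970582997280884962))
(.leaf 0))
(.node (.leaf 0)
(.leaf 23427400508825716625575772163)))
(.node (.node (.leaf 0)
(.leaf 43739100319853051907))
(.node (.leaf 0)
(.leaf 36684194321853842153)))))))
(.node (.node (.node (.node (.node (.node (.node (.leaf 0)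
(.leaf 41440030713534481129))
(.leaf 0))
(.node (.leaf 0)
(.leaf 57508750826632577800)))
(.node (.node (.leaf 0)
(.leaf 0))
(.node (.leaf 0)
(.leaf 25460794859201512961231881976))))
(.node (.node (.node (.node (.leaf 0)
(.leaf 4275678950990299682952256221208156967039598035277690891328555538314580222238222775380142545742448952575325133895874754319895038084))
(.leaf 0))
(.node (.leaf 0)
(.leaf 287254185477)))
(.node (.node (.leaf 0)
(.leaf 92610363394))
(.node (.leaf 0)
(.leaf 380115944168)))))
(.node (.node (.node (.node (.node (.leaf 0)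
(.leaf 22112954458356163509095112042157854226889553602722382612139945232321839740228926838163684910499994222821450668415877431320067230610753187697493184063122327829693221022717894815729288293158153728632435706481059060370935818215448884824585152513548208033613483509805020069496982731642542848737903691633550634865882566678107479021087772600949982138122337284262296428724180223910))
(.leaf 0))
(.node (.leaf 0)
(.leaf 257457849861)))
(.node (.node (.leaf 0)
(.leaf 30601904131))
(.node (.leaf 0)
(.leaf 9875057178290488040))))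
(.node (.node (.node (.node (.leaf 0)
(.leaf 4403175529609054399931145086154049748))
(.leaf 0))
(.node (.leaf 0)
(.leaf 317584770558)))
(.node (.node (.leaf 0)
(.leaf 143076229122))
(.node (.leaf 0)
(.leaf 393283700225))))))
(.node (.node (.node (.node (.node (.node (.leaf 0)
(.leaf 2114494893544361534190500023230112432822093869))
(.leaf 0))
(.node (.leaf 0)
(.leaf 239481979751)))
(.node (.node (.leaf 0)
(.leaf 3489660929))
(.node (.leaf 0)
(.leaf 471987986481546462887357515062520898869295385066922427716896455473485721727955019756056839455465))))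
(.node (.node (.node (.node (.leaf 0)
(.leaf 587379919883735552833170651469507613750504629473824031024173988554965334000750582473812698630436522813189476384960509875077918909228320888))
(.leaf 0))
(.node (.leaf 0)
(.leaf 301480084996)))
(.node (.node (.leaf 0)
(.leaf 123749400582))
(.node (.leaf 0)
(.leaf 91279852271)))))
(.node (.node (.node (.node (.node (.leaf 0)
(.leaf 522115811444))
(.leaf 0))
(.node (.leaf 0)
(.leaf 274889376490)))
(.node (.node (.leaf 0)
(.leaf 49392517124))
(.node (.leaf 0)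
(.leaf 62020256494))))
(.node (.node (.node (.node (.leaf 0)
(.leaf 28435569381300663591035406582))
(.leaf 0))
(.node (.leaf 0)
(.leaf 24124742927665872539937212066)))
(.node (.node (.leaf 0)
(.leaf 100451329736784675562))
(.node (.leaf 0)
(.leaf 144713647618))))))))
(.node (.node (.node (.node (.node (.node (.node (.node (.leaf 0)
(.leaf 402410242797))
(.leaf 0))
(.node (.leaf 0)
(.leaf 211290227463)))
(.node (.node (.leaf 0)
(.leaf 0))
(.node (.leaf 0)
(.leaf 131086457082905270527971063833612998898479796979046033503158276))))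
(.node (.node (.node (.node (.leaf 0)
(.leaf 11355568477342550339616955852245763656))
(.leaf 0))
(.node (.leaf 0)
(.leaf 284300215812)))
(.node (.node (.leaf 0)
(.leaf 85094432772))
(.node (.leaf 0)
(.leaf 68462838511)))))
(.node (.node (.node (.node (.node (.leaf 0)
(.leaf 26842162085626793719574778727514901278951832158104799327589525778145614977278941981925903368982755959750569986984956688574243947893096094896176225966007910872828530527010925829808756608247342777924193404376373544580468717455135511037784421698001506770151578063072062340213288014206292440822576534420114953650853678542297817257900099118294740725563942884859332466405426491107298875392391203700902277450745062606712450477128855685993148545912092893202068994425170954150))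
(.leaf 0))
(.node (.leaf 0)
(.leaf 252623061739)))
(.node (.node (.leaf 0)
(.leaf 26575110145))
(.node (.leaf 0)
(.leaf 24707859183))))
(.node (.node (.node (.node (.leaf 0)
(.leaf 4600482810232858389576181019926988999))
(.leaf 0))
(.node (.leaf 0)
(.leaf 314366166533)))
(.node (.node (.leaf 0)
(.leaf 135023689734))
(.node (.leaf 0)
(.leaf 114647237355))))))
(.node (.node (.node (.node (.node (.node (.leaf 0)
(.leaf 186307984518341620917060916323490868395457824741272587327636233))
(.leaf 0))
(.node (.leaf 0)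
(.leaf 16733370398006232788699906884)))
(.node (.node (.leaf 0)
(.leaf 0))
(.node (.leaf 0)
(.leaf 591557129447268857702474805506400055967374172002911746))))
(.node (.node (.node (.node (.leaf 0)
(.leaf 10665333969707704881463263789302548394))
(.leaf 0))
(.node (.leaf 0)
(.leaf 296902133243)))
(.node (.node (.leaf 0)
(.leaf 116769947653))
(.node (.leaf 0)
(.leaf 23494347280849896953)))))
(.node (.node (.node (.node (.node (.leaf 0)
(.leaf 8774070641434165138889681144445133872207015582082256826470920303135414804611164821558456546855577142500434047978511251196079360412820687743403593675700956135508507790914450712421318990632789323805707205100875931921739243370696386726250011386849478269323847514689277420228435369001498279892619894335629514888252720429828163666396215287717663219188389998643364611227222071039611939819635525887497009972133535022920023553923788969671005722691192375568396689289849622449005091985760753900515333779204420376486332838514625137482526186139403671493134997747977326410947726803043825266840534642624610608285795))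
(.leaf 0))
(.node (.leaf 0)
(.leaf 271147795968)))
(.node (.node (.leaf 0)
(.leaf 47245033476))
(.node (.leaf 0)
(.leaf 55309173482))))
(.node (.node (.node (.node (.leaf 0)
(.leaf 590799890936619331917302247847507836611521615388870882))
(.leaf 0))
(.node (.leaf 0)
(.leaf 329650078440)))
(.node (.node (.leaf 0)
(.leaf 44603791448308187139))
(.node (.leaf 0)
(.leaf 141225297413)))))))
(.node (.node (.node (.node (.node (.node (.node (.leaf 0)
(.leaf 404020987390))
(.leaf 0))
(.node (.leaf 0)
(.leaf 59234509094293275425)))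
(.node (.node (.leaf 0)
(.leaf 0))
(.node (.leaf 0)
(.leaf 6891510265756690464371106985083011078))))
(.node (.node (.node (.node (.leaf 0)
(.leaf 152013617683285145747629829229078612804674768590435596027147039078476291371482489916878292329480389632576132870210795154899774745504246223176403060))
(.leaf 0))
(.node (.leaf 0)
(.leaf 290727593463)))
(.node (.node (.leaf 0)
(.leaf 94757847042))
(.node (.leaf 0)
(.leaf 20755718693377082088)))))
(.node (.node (.node (.node (.node (.leaf 0)
(.leaf 719492599645695810511644994057647429011518680295802276))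
(.leaf 0))
(.node (.leaf 0)
(.leaf 70268275640759158365)))
(.node (.node (.leaf 0)
(.leaf 36239179780))
(.node (.leaf 0)
(.leaf 44840387310))))
(.node (.node (.node (.node (.leaf 0)
(.leaf 4043370624418858722918009048))
(.leaf 0))
(.node (.leaf 0)
(.leaf 321344046591)))
(.node (.node (.leaf 0)
(.leaf 155156348934))
(.node (.leaf 0)
(.leaf 9363862550552274844401140459))))))
(.node (.node (.node (.node (.node (.node (.leaf 0)
(.leaf 4035032035062265450614179267985868616))
(.leaf 0))
(.node (.leaf 0)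
(.leaf 244045775720)))
(.node (.node (.leaf 0)
(.leaf 5637144577))
(.node (.leaf 0)
(.leaf 113347563355366294252))))
(.node (.node (.node (.node (.leaf 0)
(.leaf 521578809531))
(.leaf 0))
(.node (.leaf 0)
(.leaf 306835424764)))
(.node (.node (.leaf 0)
(.leaf 35092083481380519942))
(.node (.leaf 0)
(.leaf 106862937598)))))
(.node (.node (.node (.node (.node (.leaf 0)
(.leaf 255556388982))
(.leaf 0))
(.node (.leaf 0)
(.leaf 20042927676525648755692340860)))
(.node (.node (.leaf 0)
(.leaf 58250493953))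
(.node (.leaf 0)
(.leaf 64167740142))))
(.node (.node (.node (.leaf 0)
(.leaf 0))
(.node (.leaf 0)
(.leaf 6611184547613779697630325192415379462)))
(.node (.node (.leaf 0)
(.leaf 106796197925664261630))
(.node (.leaf 0)
(.leaf 147127796457)))))))))))
(.node (.node (.node (.node (.node (.node (.node (.node (.node (.node (.node (.leaf 0)
(.leaf 147933102825))
(.leaf 0))
(.node (.leaf 0)
(.leaf 106868255519702320641)))
(.node (.node (.leaf 0)
(.leaf 0))
(.node (.leaf 0)
(.leaf 92161803513340624899))))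
(.node (.node (.node (.node (.leaf 0)
(.leaf 300123621496))
(.leaf 0))
(.node (.leaf 0)
(.leaf 75098245513028765312)))
(.node (.node (.leaf 0)
(.leaf 60129935364))
(.node (.leaf 0)
(.leaf 64973177583)))))
(.node (.node (.node (.node (.node (.leaf 0)
(.leaf 1947482757369198906965902010765477952))
(.leaf 0))
(.node (.leaf 0)
(.leaf 65723281362053694312)))
(.node (.node (.leaf 0)
(.leaf 6442450945))
(.node (.leaf 0)
(.leaf 9943778030))))
(.node (.node (.node (.node (.leaf 0)
(.leaf 98360991387790674107))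
(.leaf 0))
(.node (.leaf 0)
(.leaf 309520434685)))
(.node (.node (.leaf 0)
(.leaf 131534028806))
(.node (.leaf 0)
(.leaf 107936810497))))))
(.node (.node (.node (.node (.node (.node (.leaf 0)
(.leaf 404289553921))
(.leaf 0))
(.node (.leaf 0)
(.leaf 59958673839015396132)))
(.node (.node (.leaf 0)
(.leaf 0))
(.node (.leaf 0)
(.leaf 12574821392846837093476271614))))
(.node (.node (.node (.node (.leaf 0)
(.leaf 15919517031944926509114480286242463566181489053016887351792520441381515322664295979787348571847157014177337067629997604358300314562866016058960241285829258489103153426066654199640898365226967052007464737115854995531125191691680254040767610012031074883228796871634920528621642793090418018413480311402075651934045289912141994963830911))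
(.leaf 0))
(.node (.leaf 0)
(.leaf 292069901817)))
(.node (.node (.leaf 0)
(.leaf 97174159365))
(.node (.leaf 0)
(.leaf 21044353898650731242)))))
(.node (.node (.node (.node (.node (.leaf 0)
(.leaf 58135437893319703194350207969238604032270419264898940059624942512242173324546798098896814700539971299179259824114))
(.leaf 0))
(.node (.leaf 0)
(.leaf 71133318613741799008)))
(.node (.node (.leaf 0)
(.leaf 38117834753))
(.node (.leaf 0)
(.leaf 373136622312))))
(.node (.node (.node (.node (.leaf 0)
(.leaf 224985155804))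
(.leaf 0))
(.node (.leaf 0)
(.leaf 322953610753)))
(.node (.node (.leaf 0)
(.leaf 159451316230))
(.node (.leaf 0)
(.leaf 395968054785)))))))
(.node (.node (.node (.node (.node (.node (.node (.leaf 0)
(.leaf 153033967105))
(.leaf 0))
(.node (.leaf 0)
(.leaf 57000776663979590407)))
(.node (.node (.leaf 0)
(.leaf 0))
(.node (.leaf 0)
(.leaf 1823381634132813514013647526352320503549919236))))
(.node (.node (.node (.node (.leaf 0)
(.leaf 250563960849861541249400368407587652058972373911558697141855667928640198208478488984084417560422126382843808731743479140805876660063700131176567403024659391471007507917281303072781749808036155482528223318774432416582175217767221375))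
(.leaf 0))
(.node (.leaf 0)
(.leaf 285089792744)))
(.node (.node (.leaf 0)
(.leaf 91000012804))
(.node (.leaf 0)
(.leaf 69268144879)))))
(.node (.node (.node (.node (.node (.leaf 0)
(.leaf 195616993120539041981924849628538669779399114505437873939512838577611036279709286069776430367273361211713045277557105040315423962509176367468509286431407941056039813196173192990777727711456391522620754270176899267531231418148473759710041100225417590723166477962408825175051766631808441809457490873482236977075768278638776178373698000519357962555126872244969547761694))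
(.leaf 0))
(.node (.leaf 0)
(.leaf 255039309310)))
(.node (.node (.leaf 0)
(.leaf 29259726851))
(.node (.leaf 0)
(.leaf 26855342831))))
(.node (.node (.node (.node (.leaf 0)
(.leaf 343677864141))
(.leaf 0))
(.node (.leaf 0)
(.leaf 315439908357)))
(.node (.node (.leaf 0)
(.leaf 138781261826))
(.node (.leaf 0)
(.leaf 8377388526623853550116143851))))))
(.node (.node (.node (.node (.node (.node (.leaf 0)
(.leaf 5638501976099659456653891591270471101737579733883146706102047431545116017886736))
(.leaf 0))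
(.node (.leaf 0)
(.leaf 233027732993)))
(.node (.node (.leaf 0)
(.leaf 2147483649))
(.node (.leaf 0)
(.leaf 813039497373300797733546000605392003961102778582033206247568090457414351493292951481314102608622))))
(.node (.node (.node (.node (.leaf 0)
(.leaf 557498660844711860615188317821302691392556796068956276))
(.leaf 0))
(.node (.leaf 0)
(.leaf 21474947537201370740891649711)))
(.node (.node (.leaf 0)
(.leaf 117575254021))
(.node (.leaf 0)
(.leaf 6364635594537149258761045497)))))
(.node (.node (.node (.node (.node (.leaf 0)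
(.leaf 73840339998079081462497086596723724370479202111972193599075304973311950227677091529624023962702445642397330046294189762534175026750966170765562795595905459783277868270229520000816288474801139120881699039209433152415715142335803678820926827503517307944734779340216218792527164596241968223971057543540794637746304673413456426348188844484437013728062893049366702194152260488274540083218579371822857106122331709306275768235720731713735692508358749088831367319907307624339857287199092116953179906540018035948729019095615246998870743402406765233005679541912153494229711683290056519384442031013340210059232541925627971354617145945036796020949620353733015921498128824713034409971894285392480357))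
(.leaf 0))
(.node (.leaf 0)
(.leaf 272490235397)))
(.node (.node (.leaf 0)
(.leaf 48050339844))
(.node (.leaf 0)
(.leaf 15207319137097286378))))
(.node (.node (.node (.node (.leaf 0)
(.leaf 6217589642768966692592211852984683523019359223625531625758824686564069423581410))
(.leaf 0))
(.node (.leaf 0)
(.leaf 330723820264)))
(.node (.node (.leaf 0)
(.leaf 44819964230421970947))
(.node (.leaf 0)
(.leaf 38269496575865783019))))))))
(.node (.node (.node (.node (.node (.node (.node (.node (.leaf 0)
(.leaf 150080717547))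
(.leaf 0))
(.node (.leaf 0)
(.leaf 204308939505)))
(.node (.node (.leaf 0)
(.leaf 0))
(.node (.leaf 0)
(.leaf 6725478461341278446227360616007729156))))
(.node (.node (.node (.node (.leaf 0)
(.leaf 1390452596028510993772647933793330087570136508477805411119188778058620024858831721856912244898854176672277760490036705307564770358853044345))
(.leaf 0))
(.node (.leaf 0)
(.leaf 282688292353)))
(.node (.node (.leaf 0)
(.leaf 72209530884))
(.node (.leaf 0)
(.leaf 67120661231)))))
(.node (.node (.node (.node (.node (.leaf 0)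
(.leaf 31157094054524842622963383629313071688485345984516204116838254248000346655069362178875626761729710635236571463206003513982011014045287999556618852739844049547480573264332861259269446866008173854834808588320))
(.leaf 0))
(.node (.leaf 0)
(.leaf 250461946606)))
(.node (.node (.leaf 0)
(.leaf 21475229700))
(.node (.leaf 0)
(.leaf 5407486347938956008))))
(.node (.node (.node (.node (.leaf 0)
(.leaf 270324533442))
(.leaf 0))
(.node (.leaf 0)
(.leaf 312216192513)))
(.node (.node (.leaf 0)
(.leaf 133681512454))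
(.node (.leaf 0)
(.leaf 30055599359685756414))))))
(.node (.node (.node (.node (.node (.node (.leaf 0)
(.leaf 11685000124212362859836867305))
(.leaf 0))
(.node (.leaf 0)
(.leaf 229255676655)))
(.node (.node (.leaf 0)
(.leaf 0))
(.node (.leaf 0)
(.leaf 6087319981885959387096523713595232433560838829936187886366699460068432653845225))))
(.node (.node (.node (.node (.leaf 0)
(.leaf 1998786307964788371870302175656998416295790037))
(.leaf 0))
(.node (.leaf 0)
(.leaf 294485689847)))
(.node (.node (.leaf 0)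
(.leaf 110327103490))
(.node (.leaf 0)
(.leaf 22268928168173699818)))))
(.node (.node (.node (.node (.node (.leaf 0)
(.leaf 261156460201578266801628317328098380975160872830765088))
(.leaf 0))
(.node (.leaf 0)
(.leaf 19423683758112722351592244839)))
(.node (.node (.leaf 0)
(.leaf 45902856196))
(.node (.leaf 0)
(.leaf 14054591355916583658))))
(.node (.node (.node (.node (.leaf 0)
(.leaf 558910408937))
(.leaf 0))
(.node (.leaf 0)
(.leaf 23582520804641657996856460914)))
(.node (.node (.leaf 0)
(.leaf 43955273101966835715))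
(.node (.leaf 0)
(.leaf 37116575071258804969)))))))
(.node (.node (.node (.node (.node (.node (.node (.leaf 0)
(.leaf 403484116478))
(.leaf 0))
(.node (.leaf 0)
(.leaf 218539950881)))
(.node (.node (.leaf 0)
(.leaf 0))
(.node (.leaf 0)
(.leaf 25537098852143930855875872439))))
(.node (.node (.node (.node (.leaf 0)
(.leaf 23926094498412430053))
(.leaf 0))
(.node (.leaf 0)
(.leaf 288042582760)))
(.node (.node (.leaf 0)
(.leaf 25076218648670109698))
(.node (.leaf 0)
(.leaf 380652946154)))))
(.node (.node (.node (.node (.node (.leaf 0)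
(.leaf 2163968929284998786479876240743860003362001798762942369297177435073021139093537))
(.leaf 0))
(.node (.leaf 0)
(.leaf 258798716418)))
(.node (.node (.leaf 0)
(.leaf 31407210499))
(.node (.leaf 0)
(.leaf 11100001092294869738))))
(.node (.node (.node (.node (.leaf 0)
(.leaf 141884693000243644630))
(.leaf 0))
(.node (.leaf 0)
(.leaf 318929438211)))
(.node (.node (.leaf 0)
(.leaf 149519073285))
(.node (.leaf 0)
(.leaf 394089006593))))))
(.node (.node (.node (.node (.node (.node (.leaf 0)
(.leaf 131866945710209501036))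
(.leaf 0))
(.node (.leaf 0)
(.leaf 240799909370)))
(.node (.node (.leaf 0)
(.leaf 4294967297))
(.node (.leaf 0)
(.leaf 141815691244273012726206794280439028740541787768016681543140073))))
(.node (.node (.node (.node (.leaf 0)
(.leaf 101099179961232656568))
(.leaf 0))
(.node (.leaf 0)
(.leaf 303091615232)))
(.node (.node (.leaf 0)
(.leaf 126164795394))
(.node (.leaf 0)
(.leaf 100420158187)))))
(.node (.node (.node (.node (.node (.leaf 0)
(.leaf 260928112756))
(.leaf 0))
(.node (.leaf 0)
(.leaf 275963118314)))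
(.node (.node (.leaf 0)
(.leaf 50197823492))
(.node (.leaf 0)
(.leaf 62825562862))))
(.node (.node (.node (.leaf 0)
(.leaf 0))
(.node (.leaf 0)
(.leaf 336361095914)))
(.node (.node (.leaf 0)
(.leaf 100739560112936518380))
(.node (.leaf 0)
(.leaf 10505097969145600897598882537)))))))))
(.node (.node (.node (.node (.node (.node (.node (.node (.node (.leaf 0)
(.leaf 149006975723))
(.leaf 0))
(.node (.leaf 0)
(.leaf 28783952469223086238319838721)))
(.node (.node (.leaf 0)
(.leaf 0))
(.node (.leaf 0)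
(.leaf 346024903404))))
(.node (.node (.node (.node (.leaf 0)
(.leaf 216393123966))
(.leaf 0))
(.node (.leaf 0)
(.leaf 281331958508)))
(.node (.node (.leaf 0)
(.leaf 67377561603))
(.node (.leaf 0)
(.leaf 66046919407)))))
(.node (.node (.node (.node (.node (.leaf 0)
(.leaf 97999190103853827875))
(.leaf 0))
(.node (.leaf 0)
(.leaf 246182249986)))
(.node (.node (.leaf 0)
(.leaf 16106520580))
(.node (.leaf 0)
(.leaf 362399204072))))
(.node (.node (.node (.node (.leaf 0)
(.leaf 138281918832402172094))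
(.leaf 0))
(.node (.leaf 0)
(.leaf 310593127930)))
(.node (.node (.leaf 0)
(.leaf 132607770630))
(.node (.leaf 0)
(.leaf 29262649165651445249))))))
(.node (.node (.node (.node (.node (.node (.leaf 0)
(.leaf 108598306490942031359))
(.leaf 0))
(.node (.leaf 0)
(.leaf 227937420099)))
(.node (.node (.leaf 0)
(.leaf 0))
(.node (.leaf 0)
(.leaf 2088013104910901215332906130650850800970957546))))
(.node (.node (.node (.node (.leaf 0)
(.leaf 42496632746390073873819240426))
(.leaf 0))
(.node (.leaf 0)
(.leaf 293157144062)))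
(.node (.node (.leaf 0)
(.leaf 106569007106))
(.node (.leaf 0)
(.leaf 21332214630321160938)))))
(.node (.node (.node (.node (.node (.leaf 0)
(.leaf 2851802734334853289060244422489355056860497821))
(.leaf 0))
(.node (.leaf 0)
(.leaf 19307579655476447770909673059)))
(.node (.node (.leaf 0)
(.leaf 44291850241))
(.node (.leaf 0)
(.leaf 51282641642))))
(.node (.node (.node (.node (.leaf 0)
(.leaf 1747668721128617926681007421226515230229580840182025762611441469698704851964051784726824491010076756228531971051043821332984578514463829752592206838360877833410976356923801363648042141382673354709606399753092510442047446999161023758229421510289280179100576278776034))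
(.leaf 0))
(.node (.leaf 0)
(.leaf 23390773844119989897473754851)))
(.node (.node (.leaf 0)
(.leaf 3146544572894193038353768476165013507))
(.node (.leaf 0)
(.leaf 136122402302)))))))
(.node (.node (.node (.node (.node (.node (.node (.leaf 0)
(.leaf 403215812097))
(.leaf 0))
(.node (.leaf 0)
(.leaf 213431485163)))
(.node (.node (.leaf 0)
(.leaf 0))
(.node (.leaf 0)
(.leaf 25420786964661165564667954857))))
(.node (.node (.node (.node (.leaf 0)
(.leaf 1765509954048340413993112970938603353152655199200291831886420741414198315025255559370424266781211993644956378299859763378221942917))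
(.leaf 0))
(.node (.leaf 0)
(.leaf 286431970024)))
(.node (.node (.leaf 0)
(.leaf 92341927938))
(.node (.leaf 0)
(.leaf 18882256433031480040)))))
(.node (.node (.node (.node (.node (.leaf 0)
(.leaf 665047290117914621860796353465508199156308652342737859634464654936768599286129094002888961187710793463039393782933268446046277313384980316925291816487793346531474977965715705341024391806220381385442931640232534358862719535467214164724216274932673555471882061285380548980024544023494871802324745238604956574886154008586162615117517871868378387211046255921231))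
(.leaf 0))
(.node (.leaf 0)
(.leaf 257186924033)))
(.node (.node (.leaf 0)
(.leaf 30333468675))
(.node (.leaf 0)
(.leaf 9802964399612035816))))
(.node (.node (.node (.node (.leaf 0)
(.leaf 495568292052))
(.leaf 0))
(.node (.leaf 0)
(.leaf 317316466177)))
(.node (.node (.leaf 0)
(.leaf 142807793666))
(.node (.leaf 0)
(.leaf 124848244225))))))
(.node (.node (.node (.node (.node (.node (.leaf 0)
(.leaf 21136947041648764871294269283859548335944832096512030058160849196746805))
(.leaf 0))
(.node (.leaf 0)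
(.leaf 237602931559)))
(.node (.node (.leaf 0)
(.leaf 3221225473))
(.node (.leaf 0)
(.leaf 588917474357843845511974725706827172715861356668125934))))
(.node (.node (.node (.node (.leaf 0)
(.leaf 259282269062948514023777743499312310328775846774205142946145230642428646043088104215016681965623183079613598050262061590341359513631724962465109944504232086193210580971967708355027833482172280951593705974267644025995448290747287668))
(.leaf 0))
(.node (.leaf 0)
(.leaf 299049092599)))
(.node (.node (.leaf 0)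
(.leaf 121333481478))
(.node (.leaf 0)
(.leaf 102757806276224157179)))))
(.node (.node (.node (.node (.node (.leaf 0)
(.leaf 504667506804))
(.leaf 0))
(.node (.leaf 0)
(.leaf 274621072108)))
(.node (.node (.leaf 0)
(.leaf 49124081668))
(.node (.leaf 0)
(.leaf 4372325843812345932498798075))))
(.node (.node (.node (.node (.leaf 0)
(.leaf 953429008683523197622155295863009146989840628))
(.leaf 0))
(.node (.leaf 0)
(.leaf 334214137335)))
(.node (.node (.leaf 0)
(.leaf 45180252200611610627))
(.node (.leaf 0)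
(.leaf 10408365013750140744765670123))))))))
(.node (.node (.node (.node (.node (.node (.node (.node (.leaf 0)
(.leaf 151154459371))
(.leaf 0))
(.node (.leaf 0)
(.leaf 209948050183)))
(.node (.node (.leaf 0)
(.leaf 0))
(.node (.leaf 0)
(.leaf 6771755311946438878359584562043289604))))
(.node (.node (.node (.node (.leaf 0)
(.leaf 1755210585450255689069913866912401450))
(.leaf 0))
(.node (.leaf 0)
(.leaf 283747615464)))
(.node (.node (.leaf 0)
(.leaf 82410078212))
(.node (.leaf 0)
(.leaf 68194403055)))))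
(.node (.node (.node (.node (.node (.leaf 0)
(.leaf 13996315909660242239268748732137450378082665986899347047008680833922962667740954638774284247563531381294431004411549580234391691215638122541992250554547261883629613860676174518933218896575708238957755961966789864445698996289509763885894699993558255165429647749933276641090879555529067545968023931152051661174507128540248869805359696545523280384155537015227032391429221908818553052084413591325608277672971613976012624958168442245389565218291801195248595269934798365204659832683))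
(.leaf 0))
(.node (.leaf 0)
(.leaf 252101067671)))
(.node (.node (.leaf 0)
(.leaf 25769803777))
(.node (.leaf 0)
(.leaf 1761036628639582843242481143))))
(.node (.node (.node (.node (.leaf 0)
(.leaf 4605738488209407600446933441830062279))
(.leaf 0))
(.node (.leaf 0)
(.leaf 313815401981)))
(.node (.node (.leaf 0)
(.leaf 134755254278))
(.node (.leaf 0)
(.leaf 30487276419769565931))))))
(.node (.node (.node (.node (.node (.node (.leaf 0)
(.leaf 16927761970669635840078513001))
(.leaf 0))
(.node (.leaf 0)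
(.leaf 16714027584885783861041234756)))
(.node (.node (.leaf 0)
(.leaf 0))
(.node (.leaf 0)
(.leaf 591182802337619206467612587902045968502101582722696703))))
(.node (.node (.node (.node (.leaf 0)
(.leaf 21302129297255657723661969257038614078557607648588762493777463713555675788203585305864723709137395254613360411017232934055553848671868905370721342202057202228717640716108928814279159596471562552218757300766024802000718367406968918502129975585340767950428170573116295687615980436308191492425432908296341600520428419038715746360513144162140832446821940621742854139237505427595553145206560776930230587834706320787250608000312267555338940426854368470047140721778815754271278278453183498464161457259306510414493766455782926186890902282406744243366044061866439683772012458581273984800451341728113877287517457112118722996528948224000555903966913327996563532936620607986232160195250293))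
(.leaf 0))
(.node (.leaf 0)
(.leaf 296364212970)))
(.node (.node (.leaf 0)
(.leaf 116501512197))
(.node (.leaf 0)
(.leaf 86716449519)))))
(.node (.node (.node (.node (.node (.leaf 0)
(.leaf 155360993105698226592))
(.leaf 0))
(.node (.leaf 0)
(.leaf 270879622661)))
(.node (.node (.leaf 0)
(.leaf 46976598020))
(.node (.leaf 0)
(.leaf 14630823200153207528))))
(.node (.node (.node (.node (.leaf 0)
(.leaf 2868558238242721381781800103348409120089180393))
(.leaf 0))
(.node (.leaf 0)
(.leaf 329381905132)))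
(.node (.node (.leaf 0)
(.leaf 44387618666194403331))
(.node (.leaf 0)
(.leaf 37693000638384964331)))))))
(.node (.node (.node (.node (.node (.node (.node (.leaf 0)
(.leaf 157597238782))
(.leaf 0))
(.node (.leaf 0)
(.leaf 220397306607)))
(.node (.node (.leaf 0)
(.leaf 0))
(.node (.leaf 0)
(.leaf 6886292615750656932523295690419406532))))
(.node (.node (.node (.node (.leaf 0)
(.leaf 1533349186426805664640851640387673364896056852405041309347562538125243579746714208662226015927849422659529926853764105013226401921617063283222519470864350217196969141673835770313475358300605693641094483778125541505941888964841779275480381311766219830100826512754806))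
(.leaf 0))
(.node (.leaf 0)
(.leaf 290459289081)))
(.node (.node (.leaf 0)
(.leaf 94489411586))
(.node (.leaf 0)
(.leaf 20395465907827966696)))))
(.node (.node (.node (.node (.node (.leaf 0)
(.leaf 3503221516855821802215333007639861572605956073410493659309879791005965721767791946775262023241373479000503959636693235420982455945367022765104822524372582161097540631963452207690102666894170340813078374295127508627110458540418788375646667320699514532228498944593009786141306176710543270085532439693614021469593380809105945815303750618314013605318192319300747137055463384643545515678646023712534937904866786245580611347612158920959762900662246145483003489290615054088703104980307229540500515416717011262884167306537786928041018528882915029632328162232274276312888870384460674861559397890521693634656064479875303063126411092793643835604811287914218063951))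
(.leaf 0))
(.node (.leaf 0)
(.leaf 260678944259)))
(.node (.node (.leaf 0)
(.leaf 35701915649))
(.node (.leaf 0)
(.leaf 3134385804526965657599673851))))
(.node (.node (.node (.node (.leaf 0)
(.leaf 101531490360147708120))
(.leaf 0))
(.node (.leaf 0)
(.leaf 321075873284)))
(.node (.node (.leaf 0)
(.leaf 154082607110))
(.node (.leaf 0)
(.leaf 129142751979))))))
(.node (.node (.node (.node (.node (.node (.leaf 0)
(.leaf 98792738646448801752))
(.leaf 0))
(.node (.leaf 0)
(.leaf 243777340264)))
(.node (.node (.leaf 0)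
(.leaf 5368709121))
(.node (.leaf 0)
(.leaf 20745988726659182687425015722032265411686007482467990931687402340157512786838345676534360274011890860659202720494))))
(.node (.node (.node (.node (.leaf 0)
(.leaf 521041938619))
(.leaf 0))
(.node (.leaf 0)
(.leaf 306298029560)))
(.node (.node (.leaf 0)
(.leaf 128312279042))
(.node (.leaf 0)
(.leaf 28541650800474194667)))))
(.node (.node (.node (.node (.node (.leaf 0)
(.leaf 30194768946104365453632407669))
(.leaf 0))
(.node (.leaf 0)
(.leaf 277573599976)))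
(.node (.node (.leaf 0)
(.leaf 57445580804))
(.node (.leaf 0)
(.leaf 63899304686))))
(.node (.node (.node (.leaf 0)
(.leaf 0))
(.node (.leaf 0)
(.leaf 91604325199343584985)))
(.node (.node (.leaf 0)
(.leaf 405080769262))
(.node (.leaf 0)
(.leaf 146859361001))))))))))
(.node (.node (.node (.node (.node (.node (.node (.node (.node (.node (.leaf 0)
(.leaf 148470104811))
(.leaf 0))
(.node (.leaf 0)
(.leaf 106940348508834170369)))
(.node (.node (.leaf 0)
(.leaf 0))
(.node (.leaf 0)
(.leaf 6667752185385025474553138469098749955))))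
(.node (.node (.node (.node (.leaf 0)
(.leaf 303344846968))
(.leaf 0))
(.node (.leaf 0)
(.leaf 280526521066)))
(.node (.node (.leaf 0)
(.leaf 63351029763))
(.node (.leaf 0)
(.leaf 65510048495)))))
(.node (.node (.node (.node (.node (.leaf 0)
(.leaf 36692757347044015494645132313134938615173009445193820018757371360970662))
(.leaf 0))
(.node (.leaf 0)
(.leaf 245375501037)))
(.node (.node (.leaf 0)
(.leaf 11811422211))
(.node (.leaf 0)
(.leaf 13970440943))))
(.node (.node (.node (.node (.leaf 0)
(.leaf 255824562365))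
(.leaf 0))
(.node (.leaf 0)
(.leaf 310072247814)))
(.node (.node (.leaf 0)
(.leaf 132070899718))
(.node (.leaf 0)
(.leaf 108474992132))))))
(.node (.node (.node (.node (.node (.node (.leaf 0)
(.leaf 11549609877292640504545149675))
(.leaf 0))
(.node (.leaf 0)
(.leaf 223900336873)))
(.node (.node (.leaf 0)
(.leaf 0))
(.node (.leaf 0)
(.leaf 25945536689306796650))))
(.node (.node (.node (.node (.leaf 0)
(.leaf 481402579513906133930712302833627119233429909598611771591516804744433395122363102120762418590994445867624083218258248845476646015440115363365492778451338489587246289769243981779703129466990794163907235757562139435093082894424279169))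
(.leaf 0))
(.node (.leaf 0)
(.leaf 292605985512)))
(.node (.node (.leaf 0)
(.leaf 102005997573))
(.node (.leaf 0)
(.leaf 78933722620)))))
(.node (.node (.node (.node (.node (.leaf 0)
(.leaf 2026462289379792067072230465866858148900583031447352274908799827774143995447290))
(.leaf 0))
(.node (.leaf 0)
(.leaf 266851780098)))
(.node (.node (.leaf 0)
(.leaf 42949672961))
(.node (.leaf 0)
(.leaf 13549959289584288488))))
(.node (.node (.node (.node (.leaf 0)
(.leaf 10940917438407808619566879822783842530))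
(.leaf 0))
(.node (.leaf 0)
(.leaf 323492840963)))
(.node (.node (.leaf 0)
(.leaf 161867235334))
(.node (.leaf 0)
(.leaf 396504925697)))))))
(.node (.node (.node (.node (.node (.node (.node (.leaf 0)
(.leaf 402947245566))
(.leaf 0))
(.node (.leaf 0)
(.leaf 212880917228)))
(.node (.node (.leaf 0)
(.leaf 0))
(.node (.leaf 0)
(.leaf 6813410311328028602531125195304337413))))
(.node (.node (.node (.node (.leaf 0)
(.leaf 8605023974082180202610754932924746515411050103660697143296729301429029909363481394309640403837075732036159241816739175317740490197927348744205723986026286281459839))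
(.leaf 0))
(.node (.leaf 0)
(.leaf 285895361260)))
(.node (.node (.leaf 0)
(.leaf 91805057026))
(.node (.leaf 0)
(.leaf 69805015791)))))
(.node (.node (.node (.node (.node (.leaf 0)
(.leaf 153483678626640300062))
(.leaf 0))
(.node (.leaf 0)
(.leaf 256114492932)))
(.node (.node (.leaf 0)
(.leaf 29796597763))
(.node (.leaf 0)
(.leaf 35981689576))))
(.node (.node (.node (.node (.leaf 0)
(.leaf 211416048434557655224873089392378602805414556622389172595460305))
(.leaf 0))
(.node (.leaf 0)
(.leaf 316242593278)))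
(.node (.node (.leaf 0)
(.leaf 140660310018))
(.node (.leaf 0)
(.leaf 392746698238))))))
(.node (.node (.node (.node (.node (.node (.leaf 0)
(.leaf 151252320884277446553))
(.leaf 0))
(.node (.leaf 0)
(.leaf 62697654273968374596)))
(.node (.node (.leaf 0)
(.leaf 2684354561))
(.node (.leaf 0)
(.leaf 2227417257669641389921756104855623859242337796))))
(.node (.node (.node (.node (.leaf 0)
(.leaf 728531444624923433976497116125408827236273665228168213914888677273209255248105067456130178847280502800763068121971822834068170739412958846397628591651499940664622761870946063930134604732399139798910249496234106873315598152164783131411837888898775895647561187076832468863092))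
(.leaf 0))
(.node (.leaf 0)
(.leaf 298525853182)))
(.node (.node (.leaf 0)
(.leaf 118112124933))
(.node (.leaf 0)
(.leaf 102685748682186229243)))))
(.node (.node (.node (.node (.node (.leaf 0)
(.leaf 1140462311836524430065045290817721303958289115279949126529477253839450671783441631862043121752153805501905254777939005100690798256759965795))
(.leaf 0))
(.node (.leaf 0)
(.leaf 273293051393)))
(.node (.node (.leaf 0)
(.leaf 48587210756))
(.node (.leaf 0)
(.leaf 4178897712673864525983188471))))
(.node (.node (.node (.node (.leaf 0)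
(.leaf 35641224795646835025008612271155575169978460029217543409989079244786107588340559571259793890493349932384133288794079752373548356193796887696905970947263735552443952671075656270846863057824084110504047692228415800320579920759691512778230782516777773356806559287286719435859010524501579087937756396223084408822172553975258223917656837881908339640932856715296069454298726791510550873308995444213845689790057330375937346979397867012721255089473638040359264679679457701842704481656475530647168749882089878620145786))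
(.leaf 0))
(.node (.leaf 0)
(.leaf 23911622526275050989092800134)))
(.node (.node (.leaf 0)
(.leaf 45036137012535754755))
(.node (.leaf 0)
(.leaf 143910700550))))))))
(.node (.node (.node (.node (.node (.node (.node (.node (.leaf 0)
(.leaf 150617588459))
(.leaf 0))
(.node (.leaf 0)
(.leaf 207531082491)))
(.node (.node (.leaf 0)
(.leaf 0))
(.node (.leaf 0)
(.leaf 6746267931281811032205372243384336388))))
(.node (.node (.node (.node (.leaf 0)
(.leaf 493948569625))
(.leaf 0))
(.node (.leaf 0)
(.leaf 283211006700)))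
(.node (.node (.leaf 0)
(.leaf 75699191812))
(.node (.leaf 0)
(.leaf 67657532143)))))
(.node (.node (.node (.node (.node (.leaf 0)
(.leaf 28033385719297474334712730676541647099697903585929159248918346136821167542528134019779741269474634655370330453281089938011931766663721980705543774664724706383769411111724193116516271829962569278430933960534139610864982178066379459125732398813438437164027090789518035578283365838315036975898348494864931522680017290113847787944792520593452671630441880355213376232399726315372))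
(.leaf 0))
(.node (.leaf 0)
(.leaf 251295761303)))
(.node (.node (.leaf 0)
(.leaf 22817013761))
(.node (.leaf 0)
(.leaf 5623659130052870890))))
(.node (.node (.node (.node (.leaf 0)
(.leaf 216930519235))
(.leaf 0))
(.node (.leaf 0)
(.leaf 313289934337)))
(.node (.node (.leaf 0)
(.leaf 134218383366))
(.node (.leaf 0)
(.leaf 30199010858440458987))))))
(.node (.node (.node (.node (.node (.node (.leaf 0)
(.leaf 517201300251708423935936209734574812900362135))
(.leaf 0))
(.node (.leaf 0)
(.leaf 231158776644)))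
(.node (.node (.leaf 0)
(.leaf 0))
(.node (.leaf 0)
(.leaf 27819350820756587239))))
(.node (.node (.node (.node (.leaf 0)
(.leaf 11092770268969463154345117305709076461168126427866398358371982235339031505394697113070250534897692393439557147897043824643466361730800197564932594802379952223429644641603410017526223574657361290545745627307))
(.leaf 0))
(.node (.leaf 0)
(.leaf 295828391419)))
(.node (.node (.leaf 0)
(.leaf 113280417798))
(.node (.leaf 0)
(.leaf 85642576622)))))
(.node (.node (.node (.node (.node (.leaf 0)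
(.leaf 72854134736023235123260345832240464001951551686816704550747366836302632208329489961719350340861225166705151500223508679130547458922054572461616737424227688746940843928230043020613113398886360337506242175036641351765365234557524611415279654))
(.leaf 0))
(.node (.leaf 0)
(.leaf 270073005570)))
(.node (.node (.leaf 0)
(.leaf 46439727108))
(.node (.leaf 0)
(.leaf 14198512820566295274))))
(.node (.node (.node (.node (.leaf 0)
(.leaf 149956040739630090473))
(.leaf 0))
(.node (.leaf 0)
(.leaf 328308032234)))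
(.node (.node (.leaf 0)
(.leaf 44243503478118547459))
(.node (.leaf 0)
(.leaf 139346249221)))))))
(.node (.node (.node (.node (.node (.node (.node (.leaf 0)
(.leaf 155986757121))
(.leaf 0))
(.node (.leaf 0)
(.leaf 219860239084)))
(.node (.node (.leaf 0)
(.leaf 0))
(.node (.leaf 0)
(.leaf 25595259518107804327750402053))))
(.node (.node (.node (.node (.leaf 0)
(.leaf 440456679425254940226970094582138168734100137434890514007911758090460783474176668597840798816735833072291526143398023354559221411159349187825670416380302220043172596000052618406452877925411255464938287649012826014906347187713411199))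
(.leaf 0))
(.node (.leaf 0)
(.leaf 289385416183)))
(.node (.node (.leaf 0)
(.leaf 93952540674))
(.node (.leaf 0)
(.leaf 75441701608)))))
(.node (.node (.node (.node (.node (.leaf 0)
(.leaf 5634495202498999622248023005669756372524727650053773476663077223222241489246928611949160840508889561371140909147498288314567965788505461266894508982932884637920302047699432247933143944831095181654354179760596084111238341657241097883639366167685012953131705554789572420880512133417370113180643138923683973199))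
(.leaf 0))
(.node (.leaf 0)
(.leaf 18746411400862626538506618457)))
(.node (.node (.leaf 0)
(.leaf 31944081411))
(.node (.leaf 0)
(.leaf 3037662294152631251732202999))))
(.node (.node (.node (.node (.leaf 0)
(.leaf 423090194647))
(.leaf 0))
(.node (.leaf 0)
(.leaf 320000689662)))
(.node (.node (.leaf 0)
(.leaf 153277300742))
(.node (.leaf 0)
(.leaf 128069010155))))))
(.node (.node (.node (.node (.node (.node (.leaf 0)
(.leaf 12592879792167848979706479247))
(.leaf 0))
(.node (.leaf 0)
(.leaf 242166727528)))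
(.node (.node (.leaf 0)
(.leaf 4831838209))
(.node (.leaf 0)
(.leaf 12999371565362867159927358191))))
(.node (.node (.node (.node (.leaf 0)
(.leaf 499835537595))
(.leaf 0))
(.node (.leaf 0)
(.leaf 304433923587)))
(.node (.node (.leaf 0)
(.leaf 127239061510))
(.node (.leaf 0)
(.leaf 102836077291)))))
(.node (.node (.node (.node (.node (.leaf 0)
(.leaf 319171659893))
(.leaf 0))
(.node (.leaf 0)
(.leaf 277036991212)))
(.node (.node (.leaf 0)
(.leaf 56908316673))
(.node (.leaf 0)
(.leaf 379042530030))))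
(.node (.node (.node (.leaf 0)
(.leaf 0))
(.node (.leaf 0)
(.leaf 24415385697312102730871539391)))
(.node (.node (.leaf 0)
(.leaf 100811652891883406060))
(.node (.leaf 0)
(.leaf 146322490089)))))))))
(.node (.node (.node (.node (.node (.node (.node (.node (.node (.leaf 0)
(.leaf 402141610731))
(.leaf 0))
(.node (.leaf 0)
(.leaf 203235066608)))
(.node (.node (.leaf 0)
(.leaf 0))
(.node (.leaf 0)
(.leaf 346561512168))))
(.node (.node (.node (.node (.leaf 0)
(.leaf 10634213164300292653057301842982340437))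
(.leaf 0))
(.node (.leaf 0)
(.leaf 281868567272)))
(.node (.node (.leaf 0)
(.leaf 71404224516))
(.node (.leaf 0)
(.leaf 66583790319)))))
(.node (.node (.node (.node (.node (.leaf 0)
(.leaf 971513644565897249681083095080861674153183142))
(.leaf 0))
(.node (.leaf 0)
(.leaf 249147884438)))
(.node (.node (.leaf 0)
(.leaf 18522046465))
(.node (.leaf 0)
(.leaf 362667770602))))
(.node (.node (.node (.node (.leaf 0)
(.leaf 139651048303763458239))
(.leaf 0))
(.node (.leaf 0)
(.leaf 311412196868)))
(.node (.node (.leaf 0)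
(.leaf 133144641542))
(.node (.leaf 0)
(.leaf 29478470103238574827))))))
(.node (.node (.node (.node (.node (.node (.leaf 0)
(.leaf 161356645890))
(.leaf 0))
(.node (.leaf 0)
(.leaf 16480912685753278731393237827)))
(.node (.node (.leaf 0)
(.leaf 0))
(.node (.leaf 0)
(.leaf 3853236974038933784790412063988712962))))
(.node (.node (.node (.node (.leaf 0)
(.leaf 6723956067159816607783661911952470559545208274016801018573902109304224764174172489792574418088128222081951312252518641215332206262919006486924639344442068944173559838322705280799481092901929609015580738269491411656964063513104937318551228970085810280838017306304466031590363125593296687681697024127))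
(.leaf 0))
(.node (.leaf 0)
(.leaf 293680383479)))
(.node (.node (.leaf 0)
(.leaf 109253885958))
(.node (.leaf 0)
(.leaf 22053160215181722346)))))
(.node (.node (.node (.node (.node (.leaf 0)
(.leaf 37035639200996692274055040851140867648129766114996088575154921781027606941076373673321740049840072341926440704580332202306436085714174684822251020046976317830904270624999844881756862056464598245244819033316198410852720432341955969303671148714723429))
(.leaf 0))
(.node (.leaf 0)
(.leaf 268732007939)))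
(.node (.node (.leaf 0)
(.leaf 45365985284))
(.node (.leaf 0)
(.leaf 51820561915))))
(.node (.node (.node (.node (.leaf 0)
(.leaf 2048969101805153660097740396154156328664697045))
(.leaf 0))
(.node (.leaf 0)
(.leaf 23504970101178440265489516131)))
(.node (.node (.leaf 0)
(.leaf 43811157913890979843))
(.node (.leaf 0)
(.leaf 36756251915891901163)))))))
(.node (.node (.node (.node (.node (.node (.node (.leaf 0)
(.leaf 154647070213))
(.leaf 0))
(.node (.leaf 0)
(.leaf 57580808420670505736)))
(.node (.node (.leaf 0)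
(.leaf 0))
(.node (.leaf 0)
(.leaf 6844624940037103021065760421662162949))))
(.node (.node (.node (.node (.leaf 0)
(.leaf 4981770326631424434043190842471389857669402533503358163340348439316150471758988525313446785302610782574558104996027758532519314563210242935855564848913480257055155452909897841129130988186075545767211863945800520101690656716194208565126780491943265195619033115347604989232660649891039451658696772437858742530544328510385759998280070353844269459803164782537462904983555914267202098079243065008867144991563537009789228765623309982971617924286746496198285121187322299756342760355339681670357570730465781471400939574395812583825021036864371703508011089384830236161103102249285084831916377581408329871532186536577142))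
(.leaf 0))
(.node (.leaf 0)
(.leaf 287505973996)))
(.node (.node (.leaf 0)
(.leaf 92878798850))
(.node (.leaf 0)
(.leaf 19242509218580595432)))))
(.node (.node (.node (.node (.node (.leaf 0)
(.leaf 742674683605172311887729733241669568))
(.leaf 0))
(.node (.leaf 0)
(.leaf 257726154243)))
(.node (.node (.leaf 0)
(.leaf 30870339587))
(.node (.leaf 0)
(.leaf 369378657002))))
(.node (.node (.node (.node (.leaf 0)
(.leaf 528295659734))
(.leaf 0))
(.node (.leaf 0)
(.leaf 317853074157)))
(.node (.node (.leaf 0)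
(.leaf 143345188870))
(.node (.leaf 0)
(.leaf 33657810557438395115))))))
(.node (.node (.node (.node (.node (.node (.leaf 0)
(.leaf 534472819591))
(.leaf 0))
(.node (.leaf 0)
(.leaf 239993094895)))
(.node (.node (.leaf 0)
(.leaf 3758096385))
(.node (.leaf 0)
(.leaf 504722740549762743923074092956393786776434677639873256))))
(.node (.node (.node (.node (.leaf 0)
(.leaf 526415825079))
(.leaf 0))
(.node (.leaf 0)
(.leaf 301748389378)))
(.node (.node (.leaf 0)
(.leaf 124554182658))
(.node (.leaf 0)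
(.leaf 99883156201)))))
(.node (.node (.node (.node (.node (.leaf 0)
(.leaf 522384246900))
(.leaf 0))
(.node (.leaf 0)
(.leaf 275157680872)))
(.node (.node (.leaf 0)
(.leaf 49660952580))
(.node (.leaf 0)
(.leaf 62288691950))))
(.node (.node (.node (.leaf 0)
(.leaf 0))
(.node (.leaf 0)
(.leaf 335825274363)))
(.node (.node (.leaf 0)
(.leaf 100667502518898459370))
(.node (.leaf 0)
(.leaf 10447060084926982584937874155))))))))
(.node (.node (.node (.node (.node (.node (.node (.node (.leaf 0)
(.leaf 152228529662))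
(.leaf 0))
(.node (.leaf 0)
(.leaf 15262296569827570668552651527)))
(.node (.node (.leaf 0)
(.leaf 0))
(.node (.leaf 0)
(.leaf 1820587235294095039316566155642674392861114372))))
(.node (.node (.node (.node (.leaf 0)
(.leaf 5223168858022355587624468522))
(.leaf 0))
(.node (.leaf 0)
(.leaf 284553183980)))
(.node (.node (.leaf 0)
(.leaf 87778787332))
(.node (.leaf 0)
(.leaf 68731273967)))))
(.node (.node (.node (.node (.node (.leaf 0)
(.leaf 726442551372564677887242415604003440143069887615714186477659869333250610345364528524638010083359))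
(.leaf 0))
(.node (.leaf 0)
(.leaf 67885044368102720407)))
(.node (.node (.leaf 0)
(.leaf 27380416513))
(.node (.leaf 0)
(.leaf 25245058553))))
(.node (.node (.node (.node (.leaf 0)
(.leaf 323737159881))
(.leaf 0))
(.node (.leaf 0)
(.leaf 314620708349)))
(.node (.node (.leaf 0)
(.leaf 135292125190))
(.node (.leaf 0)
(.leaf 8319350642405235237455004395))))))
(.node (.node (.node (.node (.node (.node (.leaf 0)
(.leaf 133669423409666000404))
(.leaf 0))
(.node (.leaf 0)
(.leaf 232490862081)))
(.node (.node (.leaf 0)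
(.leaf 0))
(.node (.leaf 0)
(.leaf 8292568391551325423277218764970984958))))
(.node (.node (.node (.node (.leaf 0)
(.leaf 26867712642841089148688648052767268796873032376771306373945491295181966235819493160904242767317258653646074742902))
(.leaf 0))
(.node (.leaf 0)
(.leaf 297170044407)))
(.node (.node (.leaf 0)
(.leaf 117038383109))
(.node (.leaf 0)
(.leaf 102613585534494770681)))))
(.node (.node (.node (.node (.node (.leaf 0)
(.leaf 30030311433142107196528762488970760686082074410909271109633283590503077428343365318881236503801377877705837129835651711937340987761301192333818513690875465101805669))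
(.leaf 0))
(.node (.leaf 0)
(.leaf 271682307582)))
(.node (.node (.leaf 0)
(.leaf 47513468932))
(.node (.leaf 0)
(.leaf 55579313656))))
(.node (.node (.node (.node (.leaf 0)
(.leaf 40035803366654268299011721402776199432516589501237263379734221410229429443250066686525549047310513167290490616079429870581901382142691111608822527372645309334639298476125735651936529281536756859015717325017))
(.leaf 0))
(.node (.leaf 0)
(.leaf 330187211500)))
(.node (.node (.leaf 0)
(.leaf 44675849042346115075))
(.node (.leaf 0)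
(.leaf 141762168325)))))))
(.node (.node (.node (.node (.node (.node (.node (.leaf 0)
(.leaf 42520859438926004969))
(.leaf 0))
(.node (.leaf 0)
(.leaf 220947546857)))
(.node (.node (.leaf 0)
(.leaf 0))
(.node (.leaf 0)
(.leaf 25692256927036096663491905231))))
(.node (.node (.node (.node (.leaf 0)
(.leaf 133878443455526116691144654527921016544393203025058149510482043))
(.leaf 0))
(.node (.leaf 0)
(.leaf 290995372776)))
(.node (.node (.leaf 0)
(.leaf 95026282498))
(.node (.leaf 0)
(.leaf 20900238710574875370)))))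
(.node (.node (.node (.node (.node (.leaf 0)
(.leaf 9984965627175765447315972018450073543))
(.leaf 0))
(.node (.leaf 0)
(.leaf 263630685700)))
(.node (.node (.leaf 0)
(.leaf 37044486148))
(.node (.leaf 0)
(.leaf 372331315944))))
(.node (.node (.node (.node (.leaf 0)
(.leaf 142028843372960155865))
(.leaf 0))
(.node (.leaf 0)
(.leaf 322149615108)))
(.node (.node (.leaf 0)
(.leaf 156498526214))
(.node (.leaf 0)
(.leaf 9402557621657059090266981099))))))
(.node (.node (.node (.node (.node (.node (.leaf 0)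
(.leaf 27026752466684019391))
(.leaf 0))
(.node (.leaf 0)
(.leaf 17603806489420327992690934632)))
(.node (.node (.leaf 0)
(.leaf 5905580033))
(.node (.leaf 0)
(.leaf 2523335397752767166))))
(.node (.node (.node (.node (.leaf 0)
(.leaf 261196417211))
(.leaf 0))
(.node (.leaf 0)
(.leaf 307103335928)))
(.node (.node (.leaf 0)
(.leaf 130997157894))
(.node (.leaf 0)
(.leaf 388451730942)))))
(.node (.node (.node (.node (.node (.leaf 0)
(.leaf 256630130806))
(.leaf 0))
(.node (.leaf 0)
(.leaf 278915908330)))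
(.node (.node (.leaf 0)
(.leaf 58519191555))
(.node (.leaf 0)
(.leaf 64436175598))))
(.node (.node (.node (.leaf 0)
(.leaf 0))
(.node (.leaf 0)
(.leaf 91892872236187453150)))
(.node (.node (.leaf 0)
(.leaf 107012370707778045438))
(.node (.leaf 0)
(.leaf 401873044201))))))))))))

def l0 : List Ax := [.Y false,
  .Y true,
  .u1 false,
  .u2 false,
  .u1 true,
  .u2 true,
  .ex2 false 0 1 2 5 9,
  .ex2 false 0 1 2 6 8,
  .ex2 false 0 1 2 7 9,
  .ex2 false 1 0 2 8 9,
  .ex2 false 2 1 0 3 4,
  .ex2 false 2 1 0 3 5,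
  .ex2 false 2 1 0 3 6,
  .ex2 false 2 1 0 4 5,
  .ex2 false 2 1 0 4 6,
  .ex2 false 2 0 1 4 9,
  .ex2 false 2 1 0 4 9,
  .ex2 false 2 1 0 5 7,
  .ex2 false 2 1 0 5 9,
  .ex2 false 2 1 0 6 7,
  .ex2 false 2 1 0 6 8,
  .ex3 false 2 0 1 3 8 9,
  .ex3 false 2 0 1 4 8 9,
  .ex3 false 1 0 2 6 8 9,
  .ex2 false 0 1 3 5 6,
  .ex2 false 3 1 0 2 4,
  .ex2 false 3 1 0 4 9,
  .ex3 false 0 1 3 5 7 8,
  .ex2 false 4 0 1 2 5,
  .ex2 false 4 1 0 2 9,
  .ex2 false 1 0 6 2 5,
  .ex2 false 6 1 0 4 8,
  .ex2 false 6 0 1 4 9,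
  .ex3 false 0 1 6 5 7 9,
  .ex2 false 0 1 8 4 7,
  .ex2 false 0 1 8 4 9,
  .ex2 false 8 1 0 3 4,
  .ex2 false 8 1 0 3 9,
  .ex2 false 8 1 0 4 6,
  .ex2 false 8 1 0 4 9,
  .ex2 false 0 1 9 2 3,
  .ex2 false 0 1 9 2 5,
  .ex2 false 0 1 9 2 7,
  .ex2 false 1 0 9 2 3,
  .ex3 false 1 0 9 2 3 5,
  .ex2 false 9 1 0 3 4,
  .ex3 false 1 0 9 4 6 8,
  .ex2 false 9 1 0 5 7,
  .ex2 false 0 3 2 4 6,
  .ex2 false 2 3 0 4 6,
  .ex2 false 0 2 4 1 3,
  .ex2 false 4 2 0 3 9,
  .ex3 false 2 0 9 4 6 8,
  .ex2 false 0 3 4 1 2,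
  .ex2 false 0 3 4 8 9,
  .ex3 false 3 0 4 2 6 7,
  .ex2 false 3 4 0 8 9,
  .ex2 false 4 3 0 8 9,
  .ex3 false 0 3 5 1 4 6,
  .ex2 false 3 0 5 2 4,
  .ex2 false 3 0 5 4 8,
  .ex2 false 3 0 5 4 9,
  .ex2 false 0 3 6 8 9,
  .ex2 false 3 0 6 2 4,
  .ex2 false 3 0 6 4 8,
  .ex2 false 0 3 8 4 9,
  .ex2 false 8 3 0 4 6,
  .ex2 false 8 3 0 6 9,
  .ex2 false 0 3 9 1 2,
  .ex3 false 3 0 9 4 6 8,
  .ex2 false 0 5 4 1 2,
  .ex3 false 4 0 5 1 3 9,
  .ex3 false 4 0 5 2 3 9,
  .ex2 false 4 0 5 3 8,
  .ex2 false 4 0 5 3 9,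
  .ex2 false 0 4 6 1 5,
  .ex2 false 4 0 6 3 8,
  .ex2 false 4 0 6 3 9,
  .ex2 false 6 4 0 8 9,
  .ex2 false 4 0 7 2 3,
  .ex2 false 0 4 8 1 2,
  .ex2 false 0 4 8 1 9,
  .ex2 false 0 8 4 2 5,
  .ex2 false 8 4 0 1 9,
  .ex2 false 0 4 9 1 2,
  .ex2 false 9 4 0 3 8,
  .ex2 false 9 4 0 6 8,
  .ex2 false 0 5 6 3 4,
  .ex2 false 6 5 0 1 9,
  .ex3 false 0 5 6 2 3 4,
  .ex3 false 0 5 6 3 4 8,
  .ex3 false 5 0 6 3 4 9,
  .ex2 false 0 7 5 3 4,
  .ex2 false 7 0 5 1 3,
  .ex3 false 0 5 7 3 4 8,
  .ex2 false 0 5 9 1 2,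
  .ex3 false 0 6 7 3 4 8,
  .ex3 false 0 6 7 3 4 9,
  .ex2 false 0 6 9 1 2,
  .ex2 false 9 0 6 3 4,
  .ex2 false 9 7 0 4 5,
  .ex2 false 0 8 9 1 2,
  .ex2 false 0 9 8 1 2,
  .ex2 false 0 8 9 1 4,
  .ex2 false 0 9 8 1 4,
  .ex2 false 0 9 8 3 4,
  .ex2 false 8 9 0 3 6,
  .ex2 false 9 8 0 4 6,
  .ex2 false 3 2 1 0 5,
  .ex2 false 3 2 1 0 6,
  .ex2 false 1 2 3 5 6,
  .ex2 false 2 1 3 5 6,
  .ex2 false 2 1 3 5 7,
  .ex2 false 2 1 3 6 7,
  .ex2 false 3 2 1 4 9,
  .ex2 false 3 2 1 5 9,
  .ex2 false 3 2 1 6 8,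
  .ex2 false 3 2 1 6 9,
  .ex3 false 2 1 3 5 7 9,
  .ex3 false 2 1 4 0 3 6,
  .ex2 false 1 2 5 0 3,
  .ex2 false 1 2 6 0 3,
  .ex2 false 1 2 6 0 4,
  .ex2 false 6 2 1 0 7,
  .ex2 false 2 1 6 5 7,
  .ex3 false 2 1 6 3 5 8,
  .ex2 false 6 2 1 5 9,
  .ex2 false 2 1 8 4 6,
  .ex2 false 8 1 2 7 9,
  .ex2 false 9 1 2 0 7,
  .ex2 false 2 1 9 3 4,
  .ex2 false 2 1 9 3 7,
  .ex2 false 1 3 4 0 2,
  .ex2 false 3 1 5 0 4,
  .ex2 false 3 1 5 2 4,
  .ex2 false 3 1 5 4 8,
  .ex2 false 3 1 5 4 9,
  .ex2 false 3 1 6 2 4,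
  .ex2 false 3 1 6 4 8,
  .ex2 false 6 3 1 8 9,
  .ex2 false 1 3 7 0 2,
  .ex2 false 1 3 8 0 2,
  .ex2 false 3 1 8 0 2,
  .ex2 false 1 8 3 7 9,
  .ex2 false 8 3 1 5 6,
  .ex2 false 1 3 9 0 2,
  .ex2 false 3 1 9 0 2,
  .ex3 false 1 3 9 2 5 6,
  .ex2 false 4 1 5 3 8,
  .ex2 false 1 4 6 0 3,
  .ex2 false 1 4 6 0 9,
  .ex2 false 1 4 6 2 5,
  .ex2 false 1 6 4 8 9,
  .ex2 false 4 1 6 3 8,
  .ex2 false 4 1 6 3 9,
  .ex2 false 9 4 1 5 6,
  .ex3 false 1 5 6 3 4 8,
  .ex3 false 1 5 6 3 4 9,
  .ex3 false 1 5 7 3 4 8,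
  .ex2 false 1 5 9 0 2,
  .ex3 false 1 6 7 3 4 8,
  .ex3 false 1 6 7 3 4 9,
  .ex2 false 1 6 8 0 2,
  .ex2 false 1 8 6 0 3,
  .ex2 false 1 9 8 0 2,
  .ex3 false 9 1 8 2 5 6,
  .ex2 false 8 1 9 3 4,
  .ex2 false 2 3 4 0 1,
  .ex2 false 3 2 4 0 1,
  .ex2 false 2 3 4 0 6,
  .ex2 false 2 3 4 0 9,
  .ex2 false 3 2 4 0 5,
  .ex2 false 3 2 4 0 6,
  .ex2 false 4 3 2 0 9,
  .ex2 false 3 2 4 1 5,
  .ex2 false 3 2 4 1 6,
  .ex2 false 4 3 2 1 8,
  .ex2 false 2 3 4 8 9,
  .ex2 false 3 2 4 5 6,
  .ex2 false 3 2 4 5 7,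
  .ex2 false 3 2 4 6 7,
  .ex2 false 4 2 3 5 6,
  .ex2 false 4 2 3 5 7,
  .ex2 false 4 2 3 6 7,
  .ex2 false 4 3 2 8 9,
  .ex3 false 2 3 4 5 6 7,
  .ex3 false 3 2 4 6 8 9,
  .ex2 false 3 2 5 4 8,
  .ex2 false 3 2 5 4 9,
  .ex2 false 2 3 6 0 4,
  .ex2 false 3 2 6 1 4,
  .ex2 false 3 2 6 1 5,
  .ex2 false 3 2 6 1 7,
  .ex2 false 6 2 3 1 4,
  .ex3 false 2 3 6 1 4 7,
  .ex2 false 3 2 6 4 8,
  .ex2 false 3 2 6 4 9,
  .ex2 false 6 3 2 8 9,
  .ex2 false 2 3 7 0 4,
  .ex2 false 3 2 9 0 5,
  .ex2 false 9 3 2 0 7,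
  .ex2 false 4 2 5 1 3,
  .ex2 false 4 2 5 3 8,
  .ex2 false 2 4 6 1 3,
  .ex2 false 2 4 6 1 5,
  .ex2 false 4 2 6 1 3,
  .ex2 false 4 2 6 1 5,
  .ex2 false 2 4 6 3 5,
  .ex2 false 2 4 6 5 7,
  .ex2 false 4 2 6 3 8,
  .ex2 false 4 2 6 3 9,
  .ex2 false 2 4 8 0 1,
  .ex2 false 2 4 9 0 1,
  .ex2 false 2 5 6 3 4,
  .ex3 false 2 5 6 3 4 8,
  .ex3 false 2 5 6 3 4 9,
  .ex2 false 2 5 7 0 1,
  .ex2 false 2 7 5 1 3,
  .ex2 false 2 7 5 1 6,
  .ex2 false 2 7 5 3 4,
  .ex3 false 2 5 7 3 4 8,
  .ex2 false 8 5 2 1 4,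
  .ex2 false 9 5 2 0 7,
  .ex2 false 2 7 6 3 4,
  .ex3 false 2 6 7 3 4 8,
  .ex3 false 2 6 7 3 4 9,
  .ex2 false 8 6 2 1 4,
  .ex2 false 2 6 9 0 1,
  .ex2 false 2 7 9 0 3,
  .ex2 false 9 7 2 3 5,
  .ex2 false 8 2 9 3 4,
  .ex2 false 8 3 4 0 1,
  .ex2 false 4 3 8 0 2,
  .ex2 false 8 3 4 0 2,
  .ex2 false 8 3 4 0 5,
  .ex2 false 3 4 8 1 2,
  .ex2 false 8 3 4 1 2,
  .ex2 false 8 3 4 5 6,
  .ex2 false 8 4 3 5 6,
  .ex2 false 8 3 4 6 7,
  .ex3 false 3 4 9 0 1 2,
  .ex2 false 3 4 9 0 1,
  .ex2 false 3 4 9 0 2,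
  .ex2 false 4 3 9 0 2,
  .ex2 false 9 3 4 0 2,
  .ex2 false 3 4 9 0 8,
  .ex3 false 4 3 9 0 5 6,
  .ex3 false 4 3 9 0 5 7,
  .ex2 false 9 4 3 0 5,
  .ex2 false 9 3 4 0 8,
  .ex2 false 3 4 9 1 2,
  .ex2 false 4 3 9 1 2,
  .ex2 false 4 3 9 2 8,
  .ex2 false 9 3 4 2 5,
  .ex2 false 9 3 4 2 6,
  .ex2 false 9 3 4 2 8,
  .ex2 false 9 3 4 5 6,
  .ex2 false 9 4 3 5 6,
  .ex2 false 9 4 3 5 7,
  .ex2 false 9 4 3 6 7,
  .ex2 false 3 8 5 2 4,
  .ex2 false 3 8 5 4 9,
  .ex2 false 8 3 5 4 7,
  .ex2 false 3 9 5 0 1,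
  .ex3 false 5 3 9 0 2 6,
  .ex2 false 3 9 5 2 4,
  .ex2 false 3 9 5 4 8,
  .ex2 false 3 8 6 2 4,
  .ex2 false 3 9 6 2 4,
  .ex2 false 9 3 7 0 1,
  .ex3 false 7 3 9 0 2 5,
  .ex3 false 3 8 9 0 1 2,
  .ex2 false 8 3 9 0 1,
  .ex2 false 9 3 8 0 1,
  .ex2 false 8 3 9 0 4,
  .ex2 false 9 3 8 0 4,
  .ex2 false 8 3 9 4 6,
  .ex2 false 8 3 9 6 7,
  .ex3 false 8 4 5 0 1 3,
  .ex3 false 5 4 8 0 2 6,
  .ex2 false 4 8 5 0 3,
  .ex2 false 4 8 5 2 3,
  .ex2 false 4 8 5 3 9,
  .ex3 false 4 5 9 0 1 3,
  .ex2 false 4 5 9 0 2,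
  .ex3 false 5 4 9 0 2 6,
  .ex2 false 9 4 5 1 6,
  .ex2 false 4 9 5 3 8,
  .ex2 false 4 6 8 0 1,
  .ex3 false 8 4 6 0 3 5,
  .ex2 false 6 8 4 0 3,
  .ex3 false 8 4 6 1 3 5,
  .ex2 false 6 8 4 1 3,
  .ex2 false 6 8 4 1 7,
  .ex2 false 4 8 6 2 3,
  .ex2 false 4 8 6 3 9,
  .ex2 false 8 4 6 5 7,
  .ex3 false 4 6 9 0 2 3,
  .ex2 false 4 6 9 0 2,
  .ex3 false 6 4 9 0 2 5,
  .ex2 false 6 4 9 0 2,
  .ex3 false 6 4 9 0 2 8,
  .ex2 false 4 9 6 0 3,
  .ex2 false 6 9 4 0 7,
  .ex2 false 6 4 9 1 2,
  .ex3 false 9 4 6 1 3 5,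
  .ex2 false 4 9 6 2 3,
  .ex2 false 9 4 6 2 5,
  .ex2 false 4 9 6 3 8,
  .ex2 false 9 4 6 3 5,
  .ex2 false 9 4 6 3 7,
  .ex2 false 9 4 6 5 7,
  .ex2 false 7 4 8 0 2,
  .ex2 false 8 4 9 1 3,
  .ex3 false 6 5 8 0 3 4,
  .ex3 false 5 6 8 1 4 9,
  .ex3 false 8 5 6 2 3 4,
  .ex3 false 6 5 8 2 4 7,
  .ex2 false 8 5 6 3 4,
  .ex3 false 8 5 6 3 4 9,
  .ex2 false 9 5 6 1 3,
  .ex2 false 9 5 6 2 8,
  .ex2 false 9 5 6 3 4,
  .ex2 false 9 6 5 4 8,
  .ex2 false 7 5 8 0 2,
  .ex3 false 8 5 7 0 3 4,
  .ex3 false 8 5 7 2 3 4,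
  .ex2 false 8 7 5 3 4,
  .ex3 false 8 5 7 3 4 9,
  .ex2 false 9 5 7 0 1,
  .ex3 false 7 5 9 0 2 3,
  .ex2 false 9 5 7 0 2,
  .ex2 false 9 7 5 3 4,
  .ex3 false 8 5 9 2 4 7,
  .ex3 false 8 6 7 2 3 4,
  .ex3 false 8 6 7 3 4 9,
  .ex3 false 7 6 9 0 2 4,
  .ex2 false 9 6 7 0 2,
  .ex3 false 9 6 7 2 3 4,
  .ex2 false 9 7 6 3 4,
  .ex3 false 6 8 9 0 1 2,
  .ex2 true 0 1 2 3 9,
  .ex2 true 0 2 1 3 9,
  .ex2 true 0 1 2 4 7,
  .ex2 true 0 1 2 4 8,
  .ex2 true 0 1 2 4 9,
  .ex2 true 0 2 1 7 9,
  .ex2 true 2 1 0 3 4,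
  .ex2 true 2 0 1 4 6,
  .ex2 true 2 1 0 4 7,
  .ex2 true 2 1 0 4 8,
  .ex2 true 2 0 1 4 9,
  .ex2 true 2 1 0 4 9,
  .ex2 true 2 1 0 7 8,
  .ex2 true 2 0 1 7 9,
  .ex2 true 0 1 3 2 9,
  .ex2 true 0 1 3 8 9,
  .ex2 true 1 0 3 6 8,
  .ex2 true 3 0 1 6 8,
  .ex2 true 3 1 0 6 9,
  .ex3 true 0 1 3 6 8 9,
  .ex2 true 1 0 4 2 3,
  .ex2 true 4 1 0 2 9,
  .ex2 true 4 1 0 5 9,
  .ex3 true 1 0 5 2 6 9,
  .ex2 true 0 1 6 4 9,
  .ex2 true 1 0 6 4 7,
  .ex2 true 6 0 1 4 9,
  .ex2 true 0 1 8 3 4,
  .ex2 true 1 0 8 2 3,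
  .ex2 true 1 0 8 3 4,
  .ex3 true 0 1 8 3 4 5,
  .ex3 true 0 1 8 3 4 6,
  .ex3 true 1 0 8 3 4 6,
  .ex3 true 1 0 8 4 6 9,
  .ex2 true 0 1 9 2 8,
  .ex2 true 0 1 9 3 4,
  .ex2 true 0 1 9 3 8,
  .ex2 true 0 1 9 6 8,
  .ex2 true 1 0 9 2 3,
  .ex2 true 1 0 9 2 5,
  .ex3 true 0 1 9 3 4 5,
  .ex3 true 0 1 9 3 4 6,
  .ex3 true 1 0 9 3 4 6,
  .ex3 true 1 0 9 4 6 8,
  .ex2 true 9 1 0 5 7,
  .ex2 true 0 2 8 1 3,
  .ex2 true 0 2 8 1 9,
  .ex2 true 0 9 2 4 5,
  .ex2 true 0 3 4 1 2,
  .ex2 true 0 3 4 2 8,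
  .ex2 true 0 3 4 8 9,
  .ex2 true 3 4 0 5 6,
  .ex3 true 3 0 5 1 4 6,
  .ex2 true 0 3 6 2 9,
  .ex2 true 3 0 7 4 6,
  .ex2 true 0 3 8 1 2,
  .ex2 true 8 0 3 1 4,
  .ex2 true 3 0 8 2 4,
  .ex2 true 3 0 8 4 5,
  .ex2 true 3 0 8 4 6,
  .ex2 true 3 0 9 1 4,
  .ex2 true 3 0 9 1 7,
  .ex2 true 3 0 9 1 8,
  .ex3 true 0 3 9 1 4 7,
  .ex3 true 0 3 9 1 4 8,
  .ex2 true 3 0 9 2 4,
  .ex2 true 3 0 9 4 5,
  .ex2 true 3 0 9 4 6,
  .ex2 true 0 4 5 1 2,
  .ex2 true 0 4 6 1 2,
  .ex2 true 0 4 6 2 8,
  .ex2 true 0 4 6 2 9,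
  .ex2 true 4 0 7 3 6,
  .ex2 true 0 4 8 1 3,
  .ex2 true 0 4 8 1 9,
  .ex3 true 0 4 8 1 3 9,
  .ex2 true 4 0 8 3 5,
  .ex2 true 4 0 8 3 6,
  .ex2 true 0 4 9 1 2,
  .ex2 true 0 4 9 1 3,
  .ex2 true 4 0 9 2 3,
  .ex2 true 4 0 9 3 6,
  .ex2 true 0 5 6 2 9,
  .ex2 true 0 6 8 1 3,
  .ex2 true 0 6 9 3 4,
  .ex2 true 6 0 9 3 4,
  .ex3 true 0 7 8 3 4 6,
  .ex2 true 0 9 7 2 3,
  .ex3 true 0 7 9 3 4 6,
  .ex3 true 0 8 9 2 3 4,
  .ex3 true 0 8 9 3 4 5,
  .ex3 true 0 8 9 3 4 6,
  .ex2 true 1 2 3 0 8,
  .ex2 true 2 1 3 0 9,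
  .ex2 true 3 2 1 0 4,
  .ex2 true 3 2 1 0 9,
  .ex2 true 1 2 3 8 9,
  .ex2 true 2 1 3 8 9,
  .ex2 true 3 2 1 4 5,
  .ex2 true 3 2 1 5 8,
  .ex2 true 4 2 1 0 8,
  .ex2 true 4 2 1 6 8,
  .ex2 true 1 2 6 0 9,
  .ex2 true 6 2 1 4 9,
  .ex2 true 7 2 1 5 9,
  .ex2 true 1 2 8 0 9,
  .ex3 true 2 1 8 3 4 6,
  .ex2 true 1 2 9 0 3,
  .ex2 true 2 1 9 0 3,
  .ex3 true 2 1 9 0 3 4,
  .ex2 true 2 1 9 3 4,
  .ex3 true 2 1 9 3 6 8,
  .ex2 true 9 2 1 3 6,
  .ex2 true 9 2 1 4 6,
  .ex2 true 1 3 4 0 9,
  .ex2 true 3 6 1 0 9,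
  .ex3 true 3 1 6 2 4 7,
  .ex2 true 6 3 1 4 7,
  .ex2 true 3 1 8 0 4,
  .ex2 true 3 1 8 2 4,
  .ex2 true 3 1 8 4 5,
  .ex2 true 3 1 8 4 6,
  .ex2 true 1 3 9 0 2,
  .ex2 true 3 1 9 0 4,
  .ex2 true 3 1 9 2 4,
  .ex2 true 3 1 9 4 6,
  .ex2 true 6 4 1 0 9,
  .ex2 true 1 4 6 2 9,
  .ex2 true 1 8 4 0 2,
  .ex2 true 4 1 8 3 5,
  .ex2 true 4 1 8 3 6,
  .ex2 true 1 4 9 2 3,
  .ex2 true 4 1 9 2 3,
  .ex2 true 4 1 9 3 6,
  .ex2 true 1 6 8 2 3,
  .ex2 true 6 1 8 3 4,
  .ex2 true 1 9 6 0 2,
  .ex2 true 1 6 9 0 3,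
  .ex2 true 6 1 9 3 4,
  .ex2 true 6 9 1 3 4,
  .ex3 true 1 7 8 3 4 6,
  .ex3 true 1 7 9 3 4 5,
  .ex3 true 1 7 9 3 4 6,
  .ex3 true 1 8 9 3 4 5,
  .ex3 true 1 8 9 3 4 6,
  .ex2 true 2 3 4 0 1,
  .ex2 true 2 3 4 0 6,
  .ex2 true 2 3 4 0 9,
  .ex2 true 3 2 4 0 8,
  .ex2 true 3 2 4 0 9,
  .ex2 true 4 2 3 0 8,
  .ex2 true 4 2 3 0 9,
  .ex2 true 2 3 4 1 6,
  .ex2 true 2 3 4 1 9,
  .ex2 true 3 2 4 1 9,
  .ex2 true 2 3 4 8 9,
  .ex2 true 3 2 4 7 8,
  .ex2 true 3 2 4 7 9,
  .ex2 true 3 2 4 8 9]

theorem a0 : axchk 10 2 1 true (Tr.get ⟨9, 0, 0, 0⟩ v) (Tr.get 0 g) l0 500 0 = true := by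
  decide +kernel

def l1 : List Ax := [.ex2 true 4 2 3 7 8,
  .ex2 true 4 2 3 7 9,
  .ex2 true 4 2 3 8 9,
  .ex3 true 2 3 4 7 8 9,
  .ex2 true 2 3 7 0 9,
  .ex2 true 3 2 8 0 1,
  .ex2 true 3 2 8 0 4,
  .ex2 true 3 2 8 1 4,
  .ex2 true 3 2 8 4 5,
  .ex2 true 3 2 8 4 6,
  .ex2 true 2 3 9 0 1,
  .ex2 true 3 2 9 0 4,
  .ex2 true 2 3 9 1 4,
  .ex2 true 2 3 9 1 7,
  .ex2 true 3 2 9 4 5,
  .ex2 true 3 2 9 4 6,
  .ex2 true 2 4 6 0 1,
  .ex2 true 2 4 8 0 9,
  .ex2 true 8 2 4 0 9,
  .ex2 true 2 4 8 1 3,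
  .ex2 true 2 4 8 1 9,
  .ex2 true 4 2 8 3 5,
  .ex2 true 4 2 8 3 6,
  .ex2 true 2 4 9 0 1,
  .ex2 true 2 4 9 0 3,
  .ex2 true 4 2 9 0 8,
  .ex2 true 2 4 9 1 3,
  .ex2 true 4 2 9 1 8,
  .ex2 true 2 4 9 3 8,
  .ex2 true 4 2 9 3 5,
  .ex2 true 4 2 9 3 6,
  .ex2 true 2 6 8 0 1,
  .ex2 true 2 9 6 0 1,
  .ex2 true 2 6 9 3 4,
  .ex2 true 6 2 9 3 4,
  .ex2 true 8 2 7 0 9,
  .ex3 true 2 7 8 3 4 5,
  .ex3 true 2 7 8 3 4 6,
  .ex2 true 9 2 7 1 3,
  .ex3 true 2 7 9 3 4 6,
  .ex3 true 2 8 9 0 3 4,
  .ex3 true 2 8 9 1 3 4,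
  .ex3 true 2 8 9 3 4 5,
  .ex3 true 2 8 9 3 4 6,
  .ex2 true 4 3 5 0 1,
  .ex2 true 3 4 5 0 2,
  .ex2 true 4 3 5 0 2,
  .ex2 true 5 3 4 0 2,
  .ex2 true 3 4 5 1 2,
  .ex2 true 4 3 5 1 2,
  .ex2 true 5 3 4 8 9,
  .ex2 true 5 4 3 8 9,
  .ex2 true 6 3 4 0 1,
  .ex2 true 3 4 6 0 2,
  .ex2 true 4 3 6 0 2,
  .ex2 true 6 3 4 0 2,
  .ex2 true 3 4 6 1 2,
  .ex2 true 4 3 6 1 2,
  .ex2 true 6 3 4 1 2,
  .ex3 true 3 4 6 1 2 9,
  .ex2 true 6 3 4 1 7,
  .ex2 true 6 4 3 7 9,
  .ex2 true 6 4 3 8 9,
  .ex2 true 3 5 7 2 4,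
  .ex2 true 3 5 8 0 1,
  .ex3 true 8 3 5 0 2 9,
  .ex2 true 3 5 8 0 4,
  .ex2 true 3 5 8 1 4,
  .ex2 true 3 5 8 4 6,
  .ex2 true 3 5 9 0 4,
  .ex2 true 3 5 9 2 4,
  .ex2 true 3 6 8 2 4,
  .ex2 true 3 6 9 0 4,
  .ex2 true 3 6 9 2 4,
  .ex2 true 3 6 9 4 5,
  .ex3 true 5 4 8 0 1 9,
  .ex2 true 4 5 8 0 3,
  .ex2 true 4 5 8 2 3,
  .ex2 true 4 5 8 3 6,
  .ex3 true 4 5 8 3 6 7,
  .ex3 true 5 4 9 0 1 3,
  .ex2 true 4 9 5 0 2,
  .ex2 true 4 5 9 2 3,
  .ex2 true 4 5 9 3 6,
  .ex2 true 6 4 7 8 9,
  .ex3 true 4 6 8 0 2 3,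
  .ex2 true 4 6 8 0 3,
  .ex2 true 8 4 6 1 2,
  .ex2 true 4 6 8 2 3,
  .ex2 true 4 6 8 3 5,
  .ex2 true 9 4 6 0 1,
  .ex2 true 4 6 9 0 3,
  .ex2 true 9 4 6 1 2,
  .ex2 true 4 6 9 2 3,
  .ex2 true 4 6 9 3 5,
  .ex2 true 6 4 9 3 8,
  .ex3 true 5 8 9 3 4 6,
  .ex3 true 6 7 8 0 3 4,
  .ex3 true 6 7 8 2 3 4,
  .ex2 true 9 6 7 0 3,
  .ex2 true 9 6 7 1 3,
  .ex2 true 6 7 9 1 4,
  .ex3 true 6 7 9 2 3 4,
  .ex3 true 6 7 9 3 4 5,
  .ch 3 4 8 0 1 2,
  .ch 3 4 9 0 1 2,
  .ch 3 5 8 0 1 2,
  .ch 3 5 9 0 1 2,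
  .ch 3 5 8 0 2 1,
  .ch 3 5 9 0 2 1,
  .ch 3 5 8 2 1 0,
  .ch 3 5 9 2 1 0,
  .ch 3 6 8 0 1 2,
  .ch 3 6 9 0 1 2,
  .ch 3 6 8 0 2 1,
  .ch 3 6 9 0 2 1,
  .ch 3 6 8 2 1 0,
  .ch 3 6 9 2 1 0,
  .ch 3 8 5 0 1 2,
  .ch 3 8 6 0 1 2,
  .ch 3 8 5 0 2 1,
  .ch 3 8 6 0 2 1,
  .ch 3 8 6 2 1 0,
  .ch 3 9 5 0 1 2,
  .ch 3 9 6 0 1 2,
  .ch 3 9 5 0 2 1,
  .ch 3 9 6 0 2 1,
  .ch 3 9 5 2 1 0,
  .ch 3 9 6 2 1 0,
  .ch 4 5 9 0 1 2,
  .ch 4 5 9 0 2 1,
  .ch 4 5 9 1 0 2,
  .ch 4 5 8 1 2 0,
  .ch 4 5 9 1 2 0,
  .ch 4 5 9 2 0 1,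
  .ch 4 5 8 2 1 0,
  .ch 4 5 9 2 1 0,
  .ch 4 6 9 0 1 2,
  .ch 4 6 8 0 2 1,
  .ch 4 6 9 0 2 1,
  .ch 4 6 8 1 0 2,
  .ch 4 6 9 1 0 2,
  .ch 4 6 8 1 2 0,
  .ch 4 6 9 1 2 0,
  .ch 4 6 8 2 0 1,
  .ch 4 8 5 1 0 2,
  .ch 4 8 5 1 2 0,
  .ch 4 8 6 1 2 0,
  .ch 4 8 6 2 0 1,
  .ch 4 8 6 2 1 0,
  .ch 4 9 5 0 1 2,
  .ch 4 9 6 0 1 2,
  .ch 4 9 5 0 2 1,
  .ch 4 9 6 1 0 2,
  .ch 4 9 5 1 2 0,
  .ch 4 9 6 1 2 0,
  .ch 4 9 5 2 0 1,
  .ch 4 9 6 2 1 0,
  .ch 5 4 9 1 0 2,
  .ch 5 4 9 1 2 0,
  .ch 5 4 9 2 1 0,
  .ch 5 9 4 0 2 1,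
  .ch 5 9 4 2 1 0,
  .ch 6 4 8 0 1 2,
  .ch 6 4 9 0 1 2,
  .ch 6 4 8 0 2 1,
  .ch 6 4 9 0 2 1,
  .ch 6 4 8 1 0 2,
  .ch 6 4 9 1 0 2,
  .ch 6 4 9 1 2 0,
  .ch 6 4 8 2 0 1,
  .ch 6 4 9 2 0 1,
  .ch 6 4 8 2 1 0,
  .ch 6 4 9 2 1 0,
  .ch 6 7 8 2 0 1,
  .ch 6 7 9 2 0 1,
  .ch 6 8 4 1 2 0,
  .ch 6 8 7 1 2 0,
  .ch 6 9 4 0 1 2,
  .ch 6 9 4 0 2 1,
  .ch 6 9 7 0 2 1,
  .ch 6 9 4 1 0 2,
  .ch 6 9 4 1 2 0,
  .ch 6 9 4 2 0 1,
  .ch 6 9 7 2 0 1,
  .ch 6 9 4 2 1 0,
  .ch 7 5 9 0 2 1,
  .ch 7 8 6 1 0 2,
  .ch 7 8 5 1 2 0,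
  .ch 7 8 6 1 2 0,
  .ch 7 9 5 0 1 2,
  .ch 7 9 5 0 2 1,
  .ch 7 9 5 1 0 2,
  .ch 7 9 5 1 2 0,
  .ch 7 9 5 2 1 0,
  .ch 8 4 6 0 1 2,
  .ch 8 4 6 0 2 1,
  .ch 8 4 5 1 0 2,
  .ch 8 4 6 1 0 2,
  .ch 8 4 6 1 2 0,
  .ch 8 4 6 2 0 1,
  .ch 8 4 5 2 1 0,
  .ch 8 4 6 2 1 0,
  .ch 8 5 3 0 2 1,
  .ch 8 5 4 0 2 1,
  .ch 8 5 6 0 2 1,
  .ch 8 5 7 0 2 1,
  .ch 8 5 4 2 0 1,
  .ch 8 5 6 2 0 1,
  .ch 8 5 7 2 0 1,
  .ch 8 6 4 0 1 2,
  .ch 8 6 4 0 2 1,
  .ch 8 6 4 1 2 0,
  .ch 8 6 4 2 0 1,
  .ch 8 6 4 2 1 0,
  .ch 8 7 6 0 1 2,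
  .ch 8 7 6 2 1 0,
  .ch 9 4 5 0 1 2,
  .ch 9 4 6 0 1 2,
  .ch 9 4 6 0 2 1,
  .ch 9 4 5 1 0 2,
  .ch 9 4 6 1 0 2,
  .ch 9 4 5 1 2 0,
  .ch 9 4 6 1 2 0,
  .ch 9 4 6 2 0 1,
  .ch 9 4 5 2 1 0,
  .ch 9 4 6 2 1 0,
  .ch 9 5 4 2 0 1,
  .ch 9 5 7 2 0 1,
  .ch 9 5 7 2 1 0,
  .ch 9 6 4 0 2 1,
  .ch 9 6 7 0 2 1,
  .ch 9 6 4 1 2 0,
  .ch 9 6 7 1 2 0,
  .ch 9 6 4 2 0 1,
  .ch 9 6 7 2 0 1,
  .ch 9 6 4 2 1 0,
  .ch 9 6 7 2 1 0,
  .ch 9 7 5 1 0 2,
  .ch 9 7 6 1 0 2,
  .ch 9 7 5 1 2 0,
  .ch 9 7 5 2 0 1,
  .ch 9 7 5 2 1 0,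
  .tA false 5,
  .tA true 5,
  .tA false 6,
  .tA true 6,
  .tB false 7,
  .tB true 7,
  .tC false 8,
  .tC false 9,
  .ux false 3,
  .ux true 3,
  .uc 3 8,
  .uc 3 9,
  .u4 false 3 6 3,
  .u5 false 3 8 9 3 0,
  .u5 false 3 8 9 6 3,
  .u4 true 3 8 3,
  .u4 true 3 8 9,
  .u4 true 3 9 3,
  .ux false 4,
  .ux true 4,
  .uc 4 3,
  .uc 4 6,
  .uc 4 8,
  .u3 false 4 3 6 8,
  .u5 false 4 3 6 4 8,
  .u4 true 4 3 8,
  .u4 true 4 3 9,
  .u4 true 4 6 8,
  .u4 true 4 6 9,
  .u4 true 4 8 4,
  .u4 true 4 9 4,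
  .ux false 5,
  .ux true 5,
  .uc 5 3,
  .uc 5 4,
  .uc 5 6,
  .uc 5 7,
  .uc 5 9,
  .u4 false 5 3 5,
  .u4 false 5 3 6,
  .u4 false 5 4 6,
  .u4 false 5 6 3,
  .u4 false 5 6 4,
  .u4 false 5 6 5,
  .u4 false 5 6 7,
  .u5 false 5 3 4 5 2,
  .u5 false 5 3 6 4 9,
  .u5 false 5 3 6 5 9,
  .u5 false 5 3 9 5 4,
  .u5 false 5 4 7 3 1,
  .u5 false 5 4 7 3 2,
  .u3 true 5 3 4 6,
  .u3 true 5 3 6 7,
  .u3 true 5 4 6 9,
  .u5 true 5 3 6 5 4,
  .u5 true 5 4 6 5 3,
  .uy 6,
  .ux false 6,
  .uyj false 6 0,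
  .uyj false 6 1,
  .ux true 6,
  .uyj true 6 2,
  .uc 6 3,
  .uc 6 4,
  .uc 6 5,
  .uc 6 7,
  .uc 6 8,
  .uc 6 9,
  .u3 false 6 3 8 9,
  .u4 false 6 3 6,
  .u4 false 6 4 6,
  .u4 false 6 5 3,
  .u4 false 6 5 4,
  .u4 false 6 5 6,
  .u5 false 6 0 4 1 6,
  .u5 false 6 4 7 3 2,
  .u5 false 6 4 9 0 3,
  .u5 false 6 4 9 1 3,
  .u5 false 6 4 9 6 3,
  .u3 true 6 3 4 5,
  .u3 true 6 3 5 9,
  .u3 true 6 4 5 9,
  .u4 true 6 3 9,
  .u4 true 6 4 9,
  .u4 true 6 5 2,
  .u4 true 6 7 9,
  .u4 true 6 8 3,
  .u4 true 6 9 6,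
  .u5 true 6 3 5 6 4,
  .u5 true 6 3 5 6 9,
  .u5 true 6 3 5 7 4,
  .ux false 7,
  .ux true 7,
  .uc 7 3,
  .uc 7 4,
  .uc 7 5,
  .uc 7 6,
  .uc 7 8,
  .uc 7 9,
  .u3 false 7 3 8 9,
  .u3 false 7 4 8 9,
  .u4 false 7 3 5,
  .u4 false 7 3 6,
  .u4 false 7 4 7,
  .u4 false 7 5 3,
  .u4 false 7 5 7,
  .u4 false 7 6 5,
  .u4 false 7 6 7,
  .u5 false 7 3 4 7 2,
  .u5 false 7 4 5 7 8,
  .u5 false 7 4 9 6 3,
  .u3 true 7 3 5 6,
  .u4 true 7 3 8,
  .u4 true 7 3 9,
  .u4 true 7 4 7,
  .u4 true 7 4 8,
  .u4 true 7 4 9,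
  .u4 true 7 8 7,
  .u4 true 7 8 9,
  .u4 true 7 9 7,
  .u5 true 7 3 4 7 2,
  .u5 true 7 3 4 7 6,
  .u5 true 7 3 9 4 5,
  .u5 true 7 4 9 3 0,
  .u5 true 7 4 9 3 1,
  .u5 true 7 4 9 3 2,
  .u5 true 7 4 9 7 0,
  .ux false 8,
  .ux true 8,
  .uc 8 3,
  .uc 8 4,
  .uc 8 5,
  .uc 8 6,
  .uc 8 7,
  .uc 8 9,
  .u3 false 8 3 4 9,
  .u3 false 8 3 5 9,
  .u3 false 8 3 6 9,
  .u3 false 8 4 6 9,
  .u3 false 8 5 6 9,
  .u3 false 8 5 7 9,
  .u4 false 8 0 8,
  .u4 false 8 3 5,
  .u4 false 8 3 6,
  .u4 false 8 4 1,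
  .u4 false 8 5 3,
  .u4 false 8 6 3,
  .u4 false 8 9 0,
  .u4 false 8 9 8,
  .u5 false 8 1 6 9 0,
  .u5 false 8 3 9 6 4,
  .u5 false 8 3 9 6 8,
  .u5 false 8 3 9 8 4,
  .u5 false 8 5 7 4 8,
  .u5 false 8 6 9 4 8,
  .u5 false 8 6 9 8 5,
  .u3 true 8 3 5 6,
  .u3 true 8 4 5 6,
  .u4 true 8 3 8,
  .u4 true 8 3 9,
  .u4 true 8 4 8,
  .u4 true 8 4 9,
  .u4 true 8 9 3,
  .u4 true 8 9 4,
  .u4 true 8 9 8,
  .u5 true 8 1 3 8 0,
  .u5 true 8 3 4 8 2,
  .u5 true 8 3 9 8 6,
  .u5 true 8 4 5 8 3,
  .u5 true 8 4 7 3 0,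
  .u5 true 8 4 7 3 1,
  .u5 true 8 4 7 3 2,
  .u5 true 8 6 9 1 4,
  .u5 true 8 7 9 3 6,
  .ux false 9,
  .ux true 9,
  .uc 9 3,
  .uc 9 4,
  .uc 9 5,
  .uc 9 6,
  .uc 9 8,
  .u3 false 9 3 4 8,
  .u3 false 9 3 5 8,
  .u3 false 9 3 6 8,
  .u4 false 9 0 9,
  .u4 false 9 3 6,
  .u4 false 9 4 0,
  .u4 false 9 8 1,
  .u5 false 9 0 1 9 2,
  .u5 false 9 3 8 0 4,
  .u5 false 9 3 8 9 4,
  .u5 false 9 6 8 4 9,
  .u4 true 9 3 9,
  .u4 true 9 4 9,
  .u4 true 9 8 3,
  .u4 true 9 8 9,
  .u5 true 9 4 5 8 9,
  .u5 true 9 4 6 8 3,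
  .u5 true 9 4 6 9 3,
  .w2 10 10 9,
  .w2 10 10 8,
  .w1 10 10 7,
  .w1 10 10 6,
  .w1 10 10 5,
  .w1 10 10 4,
  .w2 10 24 9,
  .w2 10 24 8,
  .w2 10 24 7,
  .w1 10 24 6,
  .w1 10 24 5,
  .w2 10 520 8,
  .w2 10 520 7,
  .w1 10 520 6,
  .w1 10 520 5,
  .w2 10 520 4,
  .w2 10 528 8,
  .w2 10 528 7,
  .w1 10 528 6,
  .w1 10 528 5,
  .w2 12 520 8,
  .w2 12 520 7,
  .w1 12 520 6,
  .w1 12 520 5,
  .w2 12 520 4,
  .w2 12 520 1,
  .O 2 3 3 9 0,
  .w2 12 528 8,
  .w2 12 528 7,
  .w1 12 528 6,
  .w1 12 528 5,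
  .w2 12 528 1,
  .O 2 3 4 9 0,
  .w2 20 10 9,
  .w2 20 10 8,
  .w2 20 10 7,
  .w1 20 10 6,
  .w1 20 10 5,
  .O 2 4 1 3 0,
  .w2 20 264 9,
  .w2 20 264 7,
  .w1 20 264 6,
  .w1 20 264 5,
  .w2 20 264 1,
  .O 2 4 3 8 0,
  .w1 20 288 9,
  .w1 20 288 7,
  .w2 20 288 7,
  .w2 20 288 6,
  .w2 20 288 3,
  .w2 36 520 8,
  .w2 36 520 7,
  .w1 36 520 6,
  .w2 36 520 4,
  .w2 36 520 1,
  .O 2 5 3 9 0,
  .w2 36 640 8,
  .w1 36 640 6]

theorem a1 : axchk 10 2 1 true (Tr.get ⟨9, 0, 0, 0⟩ v) (Tr.get 0 g) l1 1000 500 = true := by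
  decide +kernel

def l2 : List Ax := [.w2 36 640 4,
  .w2 36 640 3,
  .w2 36 640 1,
  .O 2 5 7 9 0,
  .w2 68 520 8,
  .w2 68 520 7,
  .w1 68 520 5,
  .w2 68 520 4,
  .w2 68 272 9,
  .w2 68 272 7,
  .w1 68 272 5,
  .w2 68 272 3,
  .w2 68 272 1,
  .O 2 6 4 8 0,
  .w2 68 528 8,
  .w2 68 528 7,
  .w1 68 528 5,
  .w2 68 528 3,
  .w2 68 528 1,
  .O 2 6 4 9 0,
  .w2 24 10 9,
  .w2 24 10 8,
  .w1 24 10 7,
  .w1 24 10 6,
  .w1 24 10 5,
  .w2 24 514 8,
  .w1 24 514 7,
  .w1 24 514 6,
  .w1 24 514 5,
  .w2 24 20 9,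
  .w2 24 20 8,
  .w1 24 20 7,
  .w1 24 20 6,
  .w1 24 20 5,
  .w2 24 20 1,
  .O 3 4 2 4 0,
  .w2 24 132 9,
  .w2 24 132 8,
  .w1 24 132 6,
  .w1 24 132 5,
  .w2 24 132 1,
  .O 3 4 2 7 0,
  .w2 24 260 9,
  .w1 24 260 7,
  .w1 24 260 6,
  .w1 24 260 5,
  .w2 24 516 8,
  .w1 24 516 7,
  .w1 24 516 6,
  .w1 24 516 5,
  .w2 24 516 1,
  .O 3 4 2 9 0,
  .w2 24 24 9,
  .w2 24 24 8,
  .w1 24 24 7,
  .w1 24 24 6,
  .w1 24 24 5,
  .w1 24 24 1,
  .w2 24 264 9,
  .w1 24 264 7,
  .w1 24 264 6,
  .w1 24 264 5,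
  .w2 24 264 1,
  .w2 24 520 8,
  .w1 24 520 7,
  .w1 24 520 6,
  .w1 24 520 5,
  .w1 24 520 1,
  .w2 24 520 1,
  .w2 24 528 8,
  .w1 24 528 7,
  .w1 24 528 6,
  .w1 24 528 5,
  .w2 24 528 1,
  .w2 40 10 9,
  .w2 40 10 8,
  .w1 40 10 7,
  .w1 40 10 6,
  .w1 40 10 4,
  .w2 40 12 9,
  .w2 40 12 8,
  .w1 40 12 7,
  .w1 40 12 6,
  .w1 40 12 4,
  .w1 40 12 1,
  .O 3 5 2 3 0,
  .w2 40 260 9,
  .w1 40 260 7,
  .w1 40 260 6,
  .w1 40 260 4,
  .w2 40 24 9,
  .w2 40 24 8,
  .w1 40 24 7,
  .w1 40 24 6,
  .w2 40 24 1,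
  .w1 40 768 7,
  .w1 40 768 6,
  .w1 40 768 4,
  .w1 40 768 1,
  .w2 72 10 9,
  .w2 72 10 8,
  .w1 72 10 7,
  .w1 72 10 5,
  .w1 72 10 4,
  .w2 72 516 8,
  .w1 72 516 7,
  .w1 72 516 5,
  .w1 72 516 4,
  .w1 72 516 1,
  .O 3 6 2 9 0,
  .w2 72 24 9,
  .w2 72 24 8,
  .w1 72 24 7,
  .w1 72 24 5,
  .w1 72 24 1,
  .w2 520 10 8,
  .w2 520 10 7,
  .w1 520 10 6,
  .w1 520 10 5,
  .w2 520 10 4,
  .w1 520 10 2,
  .O 3 9 1 3 0,
  .w2 520 520 8,
  .w2 520 520 7,
  .w1 520 520 6,
  .w1 520 520 5,
  .w2 520 520 4,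
  .w2 520 520 1,
  .w2 520 144 8,
  .w1 520 144 6,
  .w1 520 144 5,
  .w1 520 144 2,
  .w2 520 528 8,
  .w2 520 528 7,
  .w1 520 528 6,
  .w1 520 528 5,
  .w2 520 528 1,
  .w2 80 10 9,
  .w2 80 10 8,
  .w1 80 10 7,
  .w1 80 10 5,
  .w2 80 516 8,
  .w1 80 516 7,
  .w1 80 516 5,
  .w1 80 516 3,
  .w1 272 72 9,
  .w1 272 72 7,
  .w2 272 72 7,
  .w1 272 72 5,
  .w1 272 72 2,
  .w2 96 10 9,
  .w2 96 10 8,
  .w1 96 10 7,
  .w1 96 10 4,
  .w2 160 640 8,
  .w1 160 640 6,
  .w1 160 640 4,
  .w1 160 640 3,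
  .w2 160 640 1,
  .w2 544 520 8,
  .w2 544 520 7,
  .w1 544 520 6,
  .w2 544 520 4,
  .w1 544 520 2,
  .w2 544 520 1,
  .O 5 9 3 9 0,
  .w2 192 24 9,
  .w2 192 24 8,
  .w1 192 24 5,
  .w1 192 24 1,
  .w2 192 528 8,
  .w1 192 528 5,
  .w1 192 528 3,
  .w1 192 528 1,
  .w2 320 272 9,
  .w2 320 272 7,
  .w1 320 272 5,
  .w2 320 272 3,
  .w1 320 272 2,
  .w2 320 272 1,
  .O 6 8 4 8 0,
  .w2 9 24 9,
  .w2 9 24 8,
  .w2 9 24 7,
  .w1 9 24 6,
  .w1 9 24 5,
  .w2 9 528 8,
  .w2 9 528 7,
  .w1 9 528 6,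
  .w1 9 528 5,
  .w2 17 24 9,
  .w2 17 24 8,
  .w2 17 24 7,
  .w1 17 24 6,
  .w1 17 24 5,
  .w2 17 264 9,
  .w2 17 264 7,
  .w1 17 264 6,
  .w1 17 264 5,
  .w2 33 520 8,
  .w2 33 520 7,
  .w1 33 520 6,
  .w2 33 520 4,
  .w2 33 528 8,
  .w2 33 528 7,
  .w1 33 528 6,
  .w2 33 528 3,
  .w1 33 528 2,
  .O 0 5 4 9 1,
  .w1 12 528 0,
  .O 2 3 4 9 1,
  .w1 20 288 0,
  .O 2 4 5 8 1,
  .w1 36 520 0,
  .O 2 5 3 9 1,
  .w1 68 520 0,
  .O 2 6 3 9 1,
  .w1 68 528 0,
  .O 2 6 4 9 1,
  .w2 24 17 9,
  .w2 24 17 8,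
  .w1 24 17 7,
  .w1 24 17 6,
  .w1 24 17 5,
  .w2 24 65 9,
  .w2 24 65 8,
  .w1 24 65 7,
  .w1 24 65 5,
  .w2 24 513 8,
  .w1 24 513 7,
  .w1 24 513 6,
  .w1 24 513 5,
  .w2 24 260 0,
  .O 3 4 2 8 1,
  .w2 24 516 0,
  .O 3 4 2 9 1,
  .w2 24 24 0,
  .w2 24 264 0,
  .w1 24 520 0,
  .w2 24 520 0,
  .w2 24 528 0,
  .w2 40 17 9,
  .w2 40 17 8,
  .w1 40 17 7,
  .w1 40 17 6,
  .w1 40 260 0,
  .O 3 5 2 8 1,
  .w1 40 24 0,
  .w1 40 768 0,
  .w2 72 513 8,
  .w1 72 513 7,
  .w1 72 513 5,
  .w1 72 513 4,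
  .w1 72 24 0,
  .w2 72 24 0,
  .w1 520 520 0,
  .w1 520 144 0,
  .O 3 9 4 7 1,
  .w1 520 528 0,
  .w1 80 516 0,
  .w2 80 516 0,
  .O 4 6 2 9 1,
  .w1 272 72 0,
  .O 4 8 3 6 1,
  .w1 160 640 0,
  .w1 192 24 0,
  .w2 192 528 0,
  .w2 9 24 1,
  .O 0 3 3 4 2,
  .w2 9 528 1,
  .O 0 3 4 9 2,
  .w2 17 24 1,
  .O 0 4 3 4 2,
  .w2 17 264 1,
  .O 0 4 3 8 2,
  .w2 33 520 1,
  .O 0 5 3 9 2,
  .w2 10 10 0,
  .O 1 3 1 3 2,
  .w1 10 24 0,
  .w2 10 24 0,
  .O 1 3 3 4 2,
  .w2 10 520 0,
  .O 1 3 3 9 2,
  .w2 10 528 0,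
  .O 1 3 4 9 2,
  .w2 24 3 9,
  .w2 24 3 8,
  .w1 24 3 7,
  .w1 24 3 6,
  .w1 24 3 5,
  .O 3 4 0 1 2,
  .w1 24 17 1,
  .w2 24 17 1,
  .O 3 4 0 4 2,
  .w2 24 65 1,
  .O 3 4 0 6 2,
  .w2 24 513 1,
  .O 3 4 0 9 2,
  .w1 24 10 0,
  .w2 24 10 0,
  .O 3 4 1 3 2,
  .w2 24 514 0,
  .O 3 4 1 9 2,
  .O 3 4 3 4 2,
  .O 3 4 3 8 2,
  .O 3 4 3 9 2,
  .O 3 4 4 9 2,
  .w1 40 17 1,
  .O 3 5 0 4 2,
  .w1 40 10 0,
  .O 3 5 1 3 2,
  .O 3 5 3 4 2,
  .O 3 5 8 9 2,
  .w1 72 513 1,
  .O 3 6 0 9 2,
  .w1 72 10 0,
  .O 3 6 1 3 2,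
  .O 3 6 3 4 2,
  .O 3 9 3 9 2,
  .O 3 9 4 9 2,
  .w1 80 10 0,
  .O 4 6 1 3 2,
  .w1 96 10 0,
  .O 5 6 1 3 2,
  .O 5 7 7 9 2,
  .O 6 7 3 4 2,
  .O 6 7 4 9 2]

theorem a2 : axchk 10 2 1 true (Tr.get ⟨9, 0, 0, 0⟩ v) (Tr.get 0 g) l2 1328 1000 = true := by
  decide +kernel

theorem t0 : chk (Tr.get 0 g) (Tr.get 0 h) 500 1328 = true := by decide +kernel

theorem t1 : chk (Tr.get 0 g) (Tr.get 0 h) 467 1828 = true := by decide +kernel

theorem z : Tr.get 0 g 2294 = 0 := by decide +kernel

theorem bad {α : Type*} [DecidableEq α] (c : Cx α) (hn : c.n = 10) (ha : c.a = 2) (hb : c.b = 1)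
    (hcl : c.closed = true) : False := by
  have s0 := axchk_sound c hn ha hb hcl (by norm_num) _ _ _ _ _ a0
  have s0 := s0.trans (axchk_sound c hn ha hb hcl (by norm_num) _ _ _ _ _ a1)
  have s0 := s0.trans (axchk_sound c hn ha hb hcl (by norm_num) _ _ _ _ _ a2)
  have s0 := chk_sound' t0 (e := 1828) rfl s0
  have s0 := chk_sound' t1 (e := 2295) rfl s0
  exact s0.false z

end Pool.Agent.Gabow87.K3.C212
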