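import Pool.Agent.Gabow87.Refute

/-! Certificate; see `Pool/Agent/Gabow87/Refute.lean`. -/

set_option autoImplicit false
set_option maxRecDepth 100000

namespace Pool.Agent.Gabow87.K3.C222

open Pool.Agent.Gabow87.Sat

def v : Tr VC := (.node (.node (.node (.node (.node (.node (.node (.node (.node (.node (.leaf ⟨0, 7, 0, 0⟩)
(.leaf ⟨5, 33, 528, 7⟩))
(.leaf ⟨3, 8, 8, 0⟩))
(.node (.leaf ⟨1, 49, 0, 0⟩)
(.leaf ⟨5, 24, 1040, 1⟩)))
(.node (.node (.node (.leaf ⟨0, 532, 0, 0⟩)
(.leaf ⟨5, 40, 10, 0⟩))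
(.leaf ⟨5, 12, 24, 6⟩))
(.node (.leaf ⟨1, 776, 0, 0⟩)
(.leaf ⟨5, 48, 1040, 1⟩))))
(.node (.node (.node (.node (.leaf ⟨0, 385, 0, 0⟩)
(.leaf ⟨5, 48, 1040, 0⟩))
(.leaf ⟨3, 10, 5, 0⟩))
(.node (.leaf ⟨1, 44, 0, 0⟩)
(.leaf ⟨5, 48, 1026, 8⟩)))
(.node (.node (.leaf ⟨0, 400, 0, 0⟩)
(.leaf ⟨5, 24, 1026, 7⟩))
(.node (.leaf ⟨3, 5, 5, 0⟩)
(.leaf ⟨5, 9, 24, 8⟩)))))
(.node (.node (.node (.node (.node (.leaf ⟨0, 67, 0, 0⟩)
(.leaf ⟨5, 24, 1032, 0⟩))
(.leaf ⟨3, 9, 4, 0⟩))
(.node (.leaf ⟨1, 138, 0, 0⟩)
(.leaf ⟨5, 1032, 24, 5⟩)))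
(.node (.node (.leaf ⟨0, 296, 0, 0⟩)
(.leaf ⟨5, 36, 1536, 6⟩))
(.node (.leaf ⟨1, 1184, 0, 0⟩)
(.leaf ⟨5, 96, 1028, 7⟩))))
(.node (.node (.node (.node (.leaf ⟨0, 1042, 0, 0⟩)
(.leaf ⟨5, 10, 24, 0⟩))
(.leaf ⟨5, 10, 528, 6⟩))
(.node (.leaf ⟨1, 1540, 0, 0⟩)
(.leaf ⟨5, 48, 24, 10⟩)))
(.node (.node (.leaf ⟨1, 21, 0, 0⟩)
(.leaf ⟨5, 24, 1032, 8⟩))
(.node (.leaf ⟨3, 7, 7, 0⟩)
(.leaf ⟨5, 33, 24, 8⟩))))))
(.node (.node (.node (.node (.node (.node (.leaf ⟨0, 21, 0, 0⟩)
(.leaf ⟨5, 24, 513, 6⟩))
(.leaf ⟨3, 8, 9, 0⟩))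
(.node (.leaf ⟨1, 641, 0, 0⟩)
(.leaf ⟨5, 40, 10, 8⟩)))
(.node (.node (.leaf ⟨0, 56, 0, 0⟩)
(.leaf ⟨5, 36, 24, 10⟩))
(.node (.leaf ⟨1, 1104, 0, 0⟩)
(.leaf ⟨5, 96, 12, 10⟩))))
(.node (.node (.node (.node (.leaf ⟨0, 266, 0, 0⟩)
(.leaf ⟨5, 3, 24, 6⟩))
(.leaf ⟨5, 10, 24, 9⟩))
(.node (.leaf ⟨1, 276, 0, 0⟩)
(.leaf ⟨5, 48, 20, 7⟩)))
(.node (.node (.leaf ⟨0, 1120, 0, 0⟩)
(.leaf ⟨5, 24, 12, 5⟩))
(.node (.leaf ⟨3, 5, 6, 0⟩)
(.leaf ⟨5, 9, 528, 5⟩)))))
(.node (.node (.node (.node (.node (.leaf ⟨0, 273, 0, 0⟩)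
(.leaf ⟨5, 40, 1025, 4⟩))
(.leaf ⟨3, 9, 10, 0⟩))
(.node (.leaf ⟨1, 530, 0, 0⟩)
(.leaf ⟨5, 1032, 1040, 1⟩)))
(.node (.node (.leaf ⟨0, 1544, 0, 0⟩)
(.leaf ⟨5, 24, 10, 5⟩))
(.node (.leaf ⟨2, 3, 7, 0⟩)
(.leaf ⟨5, 5, 24, 10⟩))))
(.node (.node (.node (.node (.leaf ⟨0, 44, 0, 0⟩)
(.leaf ⟨5, 24, 3, 6⟩))
(.leaf ⟨5, 34, 1040, 8⟩))
(.node (.leaf ⟨1, 168, 0, 0⟩)
(.leaf ⟨5, 48, 1032, 7⟩)))
(.node (.node (.leaf ⟨1, 137, 0, 0⟩)
(.leaf ⟨5, 24, 528, 6⟩))
(.node (.leaf ⟨3, 7, 6, 0⟩)
(.leaf ⟨5, 33, 520, 4⟩)))))))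
(.node (.node (.node (.node (.node (.node (.node (.leaf ⟨1, 14, 0, 0⟩)
(.leaf ⟨5, 36, 1536, 0⟩))
(.leaf ⟨3, 8, 4, 0⟩))
(.node (.leaf ⟨1, 1041, 0, 0⟩)
(.leaf ⟨5, 24, 1056, 6⟩)))
(.node (.node (.leaf ⟨0, 548, 0, 0⟩)
(.leaf ⟨5, 12, 1040, 7⟩))
(.node (.leaf ⟨1, 176, 0, 0⟩)
(.leaf ⟨5, 48, 1056, 6⟩))))
(.node (.node (.node (.node (.leaf ⟨0, 42, 0, 0⟩)
(.leaf ⟨5, 3, 24, 10⟩))
(.leaf ⟨3, 10, 8, 0⟩))
(.node (.leaf ⟨1, 524, 0, 0⟩)
(.leaf ⟨5, 48, 1026, 2⟩)))
(.node (.node (.leaf ⟨0, 1552, 0, 0⟩)
(.leaf ⟨5, 24, 12, 9⟩))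
(.node (.leaf ⟨3, 5, 3, 0⟩)
(.leaf ⟨5, 9, 528, 10⟩)))))
(.node (.node (.node (.node (.node (.leaf ⟨0, 1029, 0, 0⟩)
(.leaf ⟨5, 40, 1025, 9⟩))
(.leaf ⟨3, 9, 6, 0⟩))
(.node (.leaf ⟨1, 1034, 0, 0⟩)
(.leaf ⟨5, 1032, 1040, 8⟩)))
(.node (.node (.leaf ⟨0, 1096, 0, 0⟩)
(.leaf ⟨5, 24, 10, 9⟩))
(.node (.leaf ⟨1, 1664, 0, 0⟩)
(.leaf ⟨5, 96, 520, 8⟩))))
(.node (.node (.node (.node (.leaf ⟨0, 1058, 0, 0⟩)
(.leaf ⟨5, 24, 3, 10⟩))
(.leaf ⟨5, 10, 1040, 7⟩))
(.node (.leaf ⟨1, 280, 0, 0⟩)
(.leaf ⟨5, 48, 24, 6⟩)))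
(.node (.node (.leaf ⟨1, 37, 0, 0⟩)
(.leaf ⟨5, 24, 1032, 1⟩))
(.node (.leaf ⟨3, 7, 4, 0⟩)
(.leaf ⟨5, 33, 520, 10⟩))))))
(.node (.node (.node (.node (.node (.node (.leaf ⟨0, 37, 0, 0⟩)
(.leaf ⟨5, 24, 1025, 7⟩))
(.leaf ⟨3, 9, 9, 0⟩))
(.node (.leaf ⟨1, 22, 0, 0⟩)
(.leaf ⟨5, 1032, 24, 9⟩)))
(.node (.node (.leaf ⟨0, 536, 0, 0⟩)
(.leaf ⟨5, 36, 24, 6⟩))
(.node (.leaf ⟨1, 784, 0, 0⟩)
(.leaf ⟨5, 96, 12, 4⟩))))
(.node (.node (.node (.node (.leaf ⟨0, 50, 0, 0⟩)
(.leaf ⟨5, 9, 1040, 1⟩))
(.leaf ⟨5, 10, 24, 5⟩))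
(.node (.leaf ⟨1, 548, 0, 0⟩)
(.leaf ⟨5, 48, 1028, 8⟩)))
(.node (.node (.leaf ⟨0, 1216, 0, 0⟩)
(.leaf ⟨5, 24, 516, 6⟩))
(.node (.leaf ⟨3, 5, 9, 0⟩)
(.leaf ⟨5, 9, 1040, 6⟩)))))
(.node (.node (.node (.node (.node (.leaf ⟨0, 161, 0, 0⟩)
(.leaf ⟨5, 48, 20, 0⟩))
(.leaf ⟨3, 10, 3, 0⟩))
(.node (.leaf ⟨1, 1090, 0, 0⟩)
(.leaf ⟨5, 1032, 1536, 5⟩)))
(.node (.node (.leaf ⟨0, 560, 0, 0⟩)
(.leaf ⟨5, 24, 514, 6⟩))
(.node (.leaf ⟨3, 4, 4, 0⟩)
(.leaf ⟨5, 5, 24, 6⟩))))
(.node (.node (.node (.node (.leaf ⟨0, 1036, 0, 0⟩)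
(.leaf ⟨5, 24, 10, 0⟩))
(.leaf ⟨5, 12, 24, 10⟩))
(.node (.leaf ⟨1, 584, 0, 0⟩)
(.leaf ⟨5, 48, 1040, 8⟩)))
(.node (.node (.leaf ⟨1, 515, 0, 0⟩)
(.leaf ⟨5, 24, 1040, 8⟩))
(.node (.leaf ⟨3, 7, 9, 0⟩)
(.leaf ⟨5, 33, 1032, 6⟩))))))))
(.node (.node (.node (.node (.node (.node (.node (.node (.leaf ⟨0, 14, 0, 0⟩)
(.leaf ⟨5, 33, 528, 3⟩))
(.leaf ⟨3, 8, 3, 0⟩))
(.node (.leaf ⟨1, 273, 0, 0⟩)
(.leaf ⟨5, 24, 1056, 8⟩)))
(.node (.node (.leaf ⟨0, 100, 0, 0⟩)
(.leaf ⟨5, 12, 1040, 9⟩))
(.node (.leaf ⟨1, 1544, 0, 0⟩)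
(.leaf ⟨5, 48, 1056, 8⟩))))
(.node (.node (.node (.node (.leaf ⟨0, 26, 0, 0⟩)
(.leaf ⟨5, 96, 1028, 0⟩))
(.leaf ⟨3, 10, 6, 0⟩))
(.node (.leaf ⟨1, 140, 0, 0⟩)
(.leaf ⟨5, 48, 1026, 6⟩)))
(.node (.node (.leaf ⟨0, 784, 0, 0⟩)
(.leaf ⟨5, 24, 1026, 5⟩))
(.node (.leaf ⟨3, 5, 1, 0⟩)
(.leaf ⟨5, 9, 24, 6⟩)))))
(.node (.node (.node (.node (.node (.leaf ⟨0, 521, 0, 0⟩)
(.leaf ⟨5, 24, 1040, 0⟩))
(.leaf ⟨3, 9, 5, 0⟩))
(.node (.leaf ⟨1, 522, 0, 0⟩)
(.leaf ⟨5, 1032, 24, 1⟩)))
(.node (.node (.leaf ⟨0, 1064, 0, 0⟩)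
(.leaf ⟨5, 36, 1536, 3⟩))
(.node (.leaf ⟨1, 1216, 0, 0⟩)
(.leaf ⟨5, 96, 1028, 3⟩))))
(.node (.node (.node (.node (.leaf ⟨0, 162, 0, 0⟩)
(.leaf ⟨5, 10, 1040, 0⟩))
(.leaf ⟨5, 10, 1040, 9⟩))
(.node (.leaf ⟨1, 88, 0, 0⟩)
(.leaf ⟨5, 48, 24, 8⟩)))
(.node (.node (.leaf ⟨1, 19, 0, 0⟩)
(.leaf ⟨5, 24, 1032, 6⟩))
(.node (.leaf ⟨3, 7, 3, 0⟩)
(.leaf ⟨5, 33, 24, 6⟩))))))
(.node (.node (.node (.node (.node (.node (.leaf ⟨0, 19, 0, 0⟩)
(.leaf ⟨5, 24, 1025, 9⟩))
(.leaf ⟨3, 8, 10, 0⟩))
(.node (.leaf ⟨1, 1537, 0, 0⟩)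
(.leaf ⟨5, 40, 10, 6⟩)))
(.node (.node (.leaf ⟨0, 152, 0, 0⟩)
(.leaf ⟨5, 36, 24, 8⟩))
(.node (.leaf ⟨1, 656, 0, 0⟩)
(.leaf ⟨5, 96, 12, 8⟩))))
(.node (.node (.node (.node (.leaf ⟨0, 1034, 0, 0⟩)
(.leaf ⟨5, 9, 24, 1⟩))
(.leaf ⟨5, 10, 24, 7⟩))
(.node (.leaf ⟨1, 1044, 0, 0⟩)
(.leaf ⟨5, 48, 20, 3⟩)))
(.node (.node (.leaf ⟨0, 1184, 0, 0⟩)
(.leaf ⟨5, 24, 516, 8⟩))
(.node (.leaf ⟨3, 5, 7, 0⟩)
(.leaf ⟨5, 9, 1040, 8⟩)))))
(.node (.node (.node (.node (.node (.leaf ⟨0, 1041, 0, 0⟩)
(.leaf ⟨5, 1032, 1040, 0⟩))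
(.leaf ⟨3, 10, 10, 0⟩))
(.node (.leaf ⟨1, 546, 0, 0⟩)
(.leaf ⟨5, 1032, 1536, 7⟩)))
(.node (.node (.leaf ⟨0, 176, 0, 0⟩)
(.leaf ⟨5, 24, 514, 8⟩))
(.node (.leaf ⟨2, 3, 8, 0⟩)
(.leaf ⟨5, 5, 24, 8⟩))))
(.node (.node (.node (.node (.leaf ⟨0, 268, 0, 0⟩)
(.leaf ⟨5, 24, 513, 1⟩))
(.leaf ⟨5, 34, 1040, 6⟩))
(.node (.leaf ⟨1, 1064, 0, 0⟩)
(.leaf ⟨5, 48, 1032, 1⟩)))
(.node (.node (.leaf ⟨1, 521, 0, 0⟩)
(.leaf ⟨5, 24, 528, 1⟩))
(.node (.leaf ⟨3, 7, 8, 0⟩)
(.leaf ⟨5, 33, 1032, 8⟩)))))))
(.node (.node (.node (.node (.node (.node (.node (.leaf ⟨0, 25, 0, 0⟩)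
(.leaf ⟨5, 24, 513, 8⟩))
(.leaf ⟨3, 8, 7, 0⟩))
(.node (.leaf ⟨1, 1057, 0, 0⟩)
(.leaf ⟨5, 40, 10, 10⟩)))
(.node (.node (.leaf ⟨0, 388, 0, 0⟩)
(.leaf ⟨5, 12, 1040, 5⟩))
(.node (.leaf ⟨1, 1072, 0, 0⟩)
(.leaf ⟨5, 48, 1056, 2⟩))))
(.node (.node (.node (.node (.leaf ⟨0, 74, 0, 0⟩)
(.leaf ⟨5, 3, 24, 8⟩))
(.leaf ⟨3, 10, 9, 0⟩))
(.node (.leaf ⟨1, 52, 0, 0⟩)
(.leaf ⟨5, 48, 20, 9⟩)))
(.node (.node (.leaf ⟨0, 352, 0, 0⟩)
(.leaf ⟨5, 24, 12, 7⟩))
(.node (.leaf ⟨3, 5, 4, 0⟩)
(.leaf ⟨5, 9, 528, 7⟩)))))
(.node (.node (.node (.node (.node (.leaf ⟨0, 49, 0, 0⟩)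
(.leaf ⟨5, 40, 1025, 7⟩))
(.leaf ⟨3, 9, 8, 0⟩))
(.node (.leaf ⟨1, 50, 0, 0⟩)
(.leaf ⟨5, 1032, 1040, 6⟩)))
(.node (.node (.leaf ⟨0, 1160, 0, 0⟩)
(.leaf ⟨5, 24, 10, 7⟩))
(.node (.leaf ⟨2, 3, 3, 0⟩)
(.leaf ⟨5, 96, 520, 4⟩))))
(.node (.node (.node (.node (.leaf ⟨0, 386, 0, 0⟩)
(.leaf ⟨5, 24, 3, 8⟩))
(.leaf ⟨5, 10, 1040, 5⟩))
(.node (.leaf ⟨1, 1048, 0, 0⟩)
(.leaf ⟨5, 48, 1032, 9⟩)))
(.node (.node (.leaf ⟨1, 73, 0, 0⟩)
(.leaf ⟨5, 24, 528, 8⟩))
(.node (.leaf ⟨3, 7, 5, 0⟩)
(.leaf ⟨5, 33, 520, 7⟩))))))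
(.node (.node (.node (.node (.node (.node (.leaf ⟨0, 73, 0, 0⟩)
(.leaf ⟨5, 24, 1025, 5⟩))
(.leaf ⟨3, 9, 3, 0⟩))
(.node (.leaf ⟨1, 38, 0, 0⟩)
(.leaf ⟨5, 1032, 24, 7⟩)))
(.node (.node (.leaf ⟨0, 104, 0, 0⟩)
(.leaf ⟨5, 36, 1536, 8⟩))
(.node (.leaf ⟨1, 1552, 0, 0⟩)
(.leaf ⟨5, 96, 1028, 9⟩))))
(.node (.node (.node (.node (.leaf ⟨0, 274, 0, 0⟩)
(.leaf ⟨5, 33, 1032, 1⟩))
(.leaf ⟨5, 10, 528, 8⟩))
(.node (.leaf ⟨1, 644, 0, 0⟩)
(.leaf ⟨5, 48, 1028, 6⟩)))
(.node (.node (.leaf ⟨1, 25, 0, 0⟩)
(.leaf ⟨5, 24, 516, 1⟩))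
(.node (.leaf ⟨3, 5, 10, 0⟩)
(.leaf ⟨5, 33, 24, 10⟩)))))
(.node (.node (.node (.node (.node (.leaf ⟨0, 1057, 0, 0⟩)
(.leaf ⟨5, 48, 24, 0⟩))
(.leaf ⟨3, 10, 4, 0⟩))
(.node (.leaf ⟨1, 1154, 0, 0⟩)
(.leaf ⟨5, 1032, 1536, 2⟩)))
(.node (.node (.leaf ⟨0, 592, 0, 0⟩)
(.leaf ⟨5, 24, 1026, 9⟩))
(.node (.leaf ⟨3, 4, 8, 0⟩)
(.leaf ⟨5, 9, 24, 10⟩))))
(.node (.node (.node (.node (.leaf ⟨0, 84, 0, 0⟩)
(.leaf ⟨5, 24, 1026, 0⟩))
(.leaf ⟨5, 12, 24, 8⟩))
(.node (.leaf ⟨1, 648, 0, 0⟩)
(.leaf ⟨5, 48, 1040, 6⟩)))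
(.node (.node (.leaf ⟨1, 1029, 0, 0⟩)
(.leaf ⟨5, 24, 1040, 6⟩))
(.node (.leaf ⟨3, 7, 10, 0⟩)
(.leaf ⟨5, 33, 528, 10⟩)))))))))
(.node (.node (.node (.node (.node (.node (.node (.node (.node (.leaf ⟨1, 7, 0, 0⟩)
(.leaf ⟨5, 33, 528, 6⟩))
(.leaf ⟨2, 8, 3, 0⟩))
(.node (.leaf ⟨1, 81, 0, 0⟩)
(.leaf ⟨5, 24, 1056, 9⟩)))
(.node (.node (.leaf ⟨0, 1044, 0, 0⟩)
(.leaf ⟨5, 12, 24, 5⟩))
(.node (.leaf ⟨1, 1288, 0, 0⟩)
(.leaf ⟨5, 48, 1056, 9⟩))))
(.node (.node (.node (.node (.leaf ⟨0, 1537, 0, 0⟩)
(.leaf ⟨5, 48, 1056, 0⟩))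
(.leaf ⟨2, 10, 6, 0⟩))
(.node (.leaf ⟨1, 76, 0, 0⟩)
(.leaf ⟨5, 48, 1026, 7⟩)))
(.node (.node (.leaf ⟨0, 1168, 0, 0⟩)
(.leaf ⟨5, 24, 1026, 6⟩))
(.node (.leaf ⟨3, 5, 0, 0⟩)
(.leaf ⟨5, 9, 24, 7⟩)))))
(.node (.node (.node (.node (.node (.leaf ⟨0, 265, 0, 0⟩)
(.leaf ⟨5, 24, 528, 0⟩))
(.leaf ⟨2, 9, 5, 0⟩))
(.node (.leaf ⟨1, 266, 0, 0⟩)
(.leaf ⟨5, 1032, 24, 2⟩)))
(.node (.node (.leaf ⟨0, 552, 0, 0⟩)
(.leaf ⟨5, 36, 1536, 4⟩))
(.node (.leaf ⟨1, 1568, 0, 0⟩)
(.leaf ⟨5, 96, 1028, 4⟩))))
(.node (.node (.node (.node (.leaf ⟨0, 98, 0, 0⟩)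
(.leaf ⟨5, 10, 528, 0⟩))
(.leaf ⟨5, 10, 528, 5⟩))
(.node (.leaf ⟨1, 56, 0, 0⟩)
(.leaf ⟨5, 48, 24, 9⟩)))
(.node (.node (.leaf ⟨1, 11, 0, 0⟩)
(.leaf ⟨5, 24, 1032, 7⟩))
(.node (.leaf ⟨2, 7, 3, 0⟩)
(.leaf ⟨5, 33, 24, 7⟩))))))
(.node (.node (.node (.node (.node (.node (.leaf ⟨0, 11, 0, 0⟩)
(.leaf ⟨5, 24, 513, 5⟩))
(.leaf ⟨2, 8, 10, 0⟩))
(.node (.leaf ⟨1, 1153, 0, 0⟩)
(.leaf ⟨5, 40, 10, 7⟩)))
(.node (.node (.leaf ⟨0, 88, 0, 0⟩)
(.leaf ⟨5, 36, 24, 9⟩))
(.node (.leaf ⟨1, 400, 0, 0⟩)
(.leaf ⟨5, 96, 12, 9⟩))))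
(.node (.node (.node (.node (.leaf ⟨0, 522, 0, 0⟩)
(.leaf ⟨5, 3, 24, 5⟩))
(.leaf ⟨5, 10, 24, 8⟩))
(.node (.leaf ⟨1, 532, 0, 0⟩)
(.leaf ⟨5, 48, 20, 6⟩)))
(.node (.node (.leaf ⟨0, 672, 0, 0⟩)
(.leaf ⟨5, 24, 516, 10⟩))
(.node (.leaf ⟨2, 5, 7, 0⟩)
(.leaf ⟨5, 9, 1040, 9⟩)))))
(.node (.node (.node (.node (.node (.leaf ⟨0, 529, 0, 0⟩)
(.leaf ⟨5, 1032, 24, 0⟩))
(.leaf ⟨2, 10, 10, 0⟩))
(.node (.leaf ⟨1, 1042, 0, 0⟩)
(.leaf ⟨5, 1032, 1536, 8⟩)))
(.node (.node (.leaf ⟨0, 112, 0, 0⟩)
(.leaf ⟨5, 24, 514, 10⟩))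
(.node (.leaf ⟨3, 3, 7, 0⟩)
(.leaf ⟨5, 5, 24, 9⟩))))
(.node (.node (.node (.node (.leaf ⟨0, 76, 0, 0⟩)
(.leaf ⟨5, 24, 3, 5⟩))
(.leaf ⟨5, 34, 1040, 7⟩))
(.node (.leaf ⟨1, 552, 0, 0⟩)
(.leaf ⟨5, 48, 1032, 6⟩)))
(.node (.node (.leaf ⟨1, 265, 0, 0⟩)
(.leaf ⟨5, 24, 528, 5⟩))
(.node (.leaf ⟨2, 7, 8, 0⟩)
(.leaf ⟨5, 33, 1032, 9⟩)))))))
(.node (.node (.node (.node (.node (.node (.node (.leaf ⟨1, 28, 0, 0⟩)
(.leaf ⟨5, 24, 513, 10⟩))
(.leaf ⟨2, 8, 7, 0⟩))
(.node (.leaf ⟨1, 545, 0, 0⟩)
(.leaf ⟨5, 24, 1056, 1⟩)))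
(.node (.node (.leaf ⟨0, 1060, 0, 0⟩)
(.leaf ⟨5, 12, 1040, 6⟩))
(.node (.leaf ⟨1, 560, 0, 0⟩)
(.leaf ⟨5, 48, 1056, 3⟩))))
(.node (.node (.node (.node (.leaf ⟨0, 38, 0, 0⟩)
(.leaf ⟨5, 3, 24, 9⟩))
(.leaf ⟨2, 10, 9, 0⟩))
(.node (.leaf ⟨1, 1036, 0, 0⟩)
(.leaf ⟨5, 48, 20, 10⟩)))
(.node (.node (.leaf ⟨0, 224, 0, 0⟩)
(.leaf ⟨5, 24, 12, 8⟩))
(.node (.leaf ⟨2, 5, 4, 0⟩)
(.leaf ⟨5, 9, 528, 8⟩)))))
(.node (.node (.node (.node (.node (.leaf ⟨0, 1027, 0, 0⟩)
(.leaf ⟨5, 40, 1025, 8⟩))
(.leaf ⟨2, 9, 8, 0⟩))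
(.node (.leaf ⟨1, 1030, 0, 0⟩)
(.leaf ⟨5, 1032, 1040, 7⟩)))
(.node (.node (.leaf ⟨0, 392, 0, 0⟩)
(.leaf ⟨5, 24, 10, 8⟩))
(.node (.leaf ⟨1, 1792, 0, 0⟩)
(.leaf ⟨5, 96, 520, 7⟩))))
(.node (.node (.node (.node (.leaf ⟨0, 1090, 0, 0⟩)
(.leaf ⟨5, 24, 3, 9⟩))
(.leaf ⟨5, 10, 1040, 6⟩))
(.node (.leaf ⟨1, 536, 0, 0⟩)
(.leaf ⟨5, 48, 24, 1⟩)))
(.node (.node (.leaf ⟨1, 35, 0, 0⟩)
(.leaf ⟨5, 24, 528, 10⟩))
(.node (.leaf ⟨2, 7, 5, 0⟩)
(.leaf ⟨5, 33, 520, 8⟩))))))
(.node (.node (.node (.node (.node (.node (.leaf ⟨0, 35, 0, 0⟩)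
(.leaf ⟨5, 24, 1025, 6⟩))
(.leaf ⟨2, 9, 3, 0⟩))
(.node (.leaf ⟨1, 42, 0, 0⟩)
(.leaf ⟨5, 1032, 24, 8⟩)))
(.node (.node (.leaf ⟨0, 1048, 0, 0⟩)
(.leaf ⟨5, 36, 24, 1⟩))
(.node (.leaf ⟨1, 1296, 0, 0⟩)
(.leaf ⟨5, 96, 12, 1⟩))))
(.node (.node (.node (.node (.leaf ⟨0, 82, 0, 0⟩)
(.leaf ⟨5, 33, 520, 1⟩))
(.leaf ⟨5, 10, 528, 10⟩))
(.node (.leaf ⟨1, 1060, 0, 0⟩)
(.leaf ⟨5, 48, 1028, 7⟩)))
(.node (.node (.leaf ⟨0, 1408, 0, 0⟩)
(.leaf ⟨5, 24, 516, 5⟩))
(.node (.leaf ⟨2, 5, 10, 0⟩)
(.leaf ⟨5, 9, 1040, 5⟩)))))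
(.node (.node (.node (.node (.node (.leaf ⟨0, 545, 0, 0⟩)
(.leaf ⟨5, 48, 1028, 0⟩))
(.leaf ⟨2, 10, 4, 0⟩))
(.node (.leaf ⟨1, 642, 0, 0⟩)
(.leaf ⟨5, 1032, 1536, 4⟩)))
(.node (.node (.leaf ⟨0, 1072, 0, 0⟩)
(.leaf ⟨5, 24, 514, 5⟩))
(.node (.leaf ⟨2, 4, 8, 0⟩)
(.leaf ⟨5, 5, 24, 5⟩))))
(.node (.node (.node (.node (.leaf ⟨0, 52, 0, 0⟩)
(.leaf ⟨5, 24, 514, 0⟩))
(.leaf ⟨5, 12, 24, 9⟩))
(.node (.leaf ⟨1, 1096, 0, 0⟩)
(.leaf ⟨5, 48, 1040, 7⟩)))
(.node (.node (.leaf ⟨1, 1033, 0, 0⟩)
(.leaf ⟨5, 24, 1040, 7⟩))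
(.node (.leaf ⟨2, 7, 10, 0⟩)
(.leaf ⟨5, 33, 1032, 4⟩))))))))
(.node (.node (.node (.node (.node (.node (.node (.node (.leaf ⟨0, 28, 0, 0⟩)
(.leaf ⟨5, 12, 24, 0⟩))
(.leaf ⟨2, 8, 4, 0⟩))
(.node (.leaf ⟨1, 529, 0, 0⟩)
(.leaf ⟨5, 24, 1056, 7⟩)))
(.node (.node (.leaf ⟨0, 164, 0, 0⟩)
(.leaf ⟨5, 12, 1040, 8⟩))
(.node (.leaf ⟨1, 112, 0, 0⟩)
(.leaf ⟨5, 48, 1056, 7⟩))))
(.node (.node (.node (.node (.leaf ⟨0, 22, 0, 0⟩)
(.leaf ⟨5, 96, 520, 0⟩))
(.leaf ⟨2, 10, 8, 0⟩))
(.node (.leaf ⟨1, 268, 0, 0⟩)
(.leaf ⟨5, 48, 1026, 3⟩)))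
(.node (.node (.leaf ⟨0, 1296, 0, 0⟩)
(.leaf ⟨5, 24, 12, 10⟩))
(.node (.leaf ⟨2, 5, 3, 0⟩)
(.leaf ⟨5, 9, 24, 5⟩)))))
(.node (.node (.node (.node (.node (.leaf ⟨0, 1033, 0, 0⟩)
(.leaf ⟨5, 24, 1056, 0⟩))
(.leaf ⟨2, 9, 6, 0⟩))
(.node (.leaf ⟨1, 518, 0, 0⟩)
(.leaf ⟨5, 1032, 1040, 9⟩)))
(.node (.node (.leaf ⟨0, 584, 0, 0⟩)
(.leaf ⟨5, 24, 10, 10⟩))
(.node (.leaf ⟨1, 1600, 0, 0⟩)
(.leaf ⟨5, 96, 520, 10⟩))))
(.node (.node (.node (.node (.leaf ⟨0, 546, 0, 0⟩)
(.leaf ⟨5, 34, 1040, 0⟩))
(.leaf ⟨5, 10, 1040, 8⟩))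
(.node (.leaf ⟨1, 152, 0, 0⟩)
(.leaf ⟨5, 48, 24, 7⟩)))
(.node (.node (.leaf ⟨1, 41, 0, 0⟩)
(.leaf ⟨5, 24, 1032, 5⟩))
(.node (.leaf ⟨2, 7, 4, 0⟩)
(.leaf ⟨5, 33, 24, 2⟩))))))
(.node (.node (.node (.node (.node (.node (.leaf ⟨0, 41, 0, 0⟩)
(.leaf ⟨5, 24, 1025, 8⟩))
(.leaf ⟨2, 9, 9, 0⟩))
(.node (.leaf ⟨1, 26, 0, 0⟩)
(.leaf ⟨5, 40, 10, 4⟩)))
(.node (.node (.leaf ⟨0, 280, 0, 0⟩)
(.leaf ⟨5, 36, 24, 7⟩))
(.node (.leaf ⟨1, 1168, 0, 0⟩)
(.leaf ⟨5, 96, 12, 7⟩))))
(.node (.node (.node (.node (.leaf ⟨0, 1030, 0, 0⟩)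
(.leaf ⟨5, 9, 528, 1⟩))
(.leaf ⟨5, 10, 24, 6⟩))
(.node (.leaf ⟨1, 164, 0, 0⟩)
(.leaf ⟨5, 48, 1028, 9⟩)))
(.node (.node (.leaf ⟨0, 1568, 0, 0⟩)
(.leaf ⟨5, 24, 516, 7⟩))
(.node (.leaf ⟨2, 5, 9, 0⟩)
(.leaf ⟨5, 9, 1040, 7⟩)))))
(.node (.node (.node (.node (.node (.leaf ⟨0, 97, 0, 0⟩)
(.leaf ⟨5, 1032, 1536, 0⟩))
(.leaf ⟨2, 10, 3, 0⟩))
(.node (.leaf ⟨1, 1058, 0, 0⟩)
(.leaf ⟨5, 1032, 1536, 6⟩)))
(.node (.node (.leaf ⟨0, 304, 0, 0⟩)
(.leaf ⟨5, 24, 514, 7⟩))
(.node (.leaf ⟨2, 4, 4, 0⟩)
(.leaf ⟨5, 5, 24, 7⟩))))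
(.node (.node (.node (.node (.leaf ⟨0, 524, 0, 0⟩)
(.leaf ⟨5, 24, 1025, 1⟩))
(.leaf ⟨5, 34, 1040, 3⟩))
(.node (.leaf ⟨1, 200, 0, 0⟩)
(.leaf ⟨5, 48, 1040, 9⟩)))
(.node (.node (.leaf ⟨1, 517, 0, 0⟩)
(.leaf ⟨5, 24, 1040, 9⟩))
(.node (.leaf ⟨2, 7, 9, 0⟩)
(.leaf ⟨5, 33, 1032, 7⟩)))))))
(.node (.node (.node (.node (.node (.node (.node (.leaf ⟨0, 13, 0, 0⟩)
(.leaf ⟨5, 24, 513, 7⟩))
(.leaf ⟨2, 8, 9, 0⟩))
(.node (.leaf ⟨1, 1089, 0, 0⟩)
(.leaf ⟨5, 40, 10, 9⟩)))
(.node (.node (.leaf ⟨0, 1540, 0, 0⟩)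
(.leaf ⟨5, 12, 1040, 1⟩))
(.node (.leaf ⟨1, 592, 0, 0⟩)
(.leaf ⟨5, 48, 1056, 1⟩))))
(.node (.node (.node (.node (.leaf ⟨0, 70, 0, 0⟩)
(.leaf ⟨5, 3, 24, 7⟩))
(.leaf ⟨5, 10, 24, 10⟩))
(.node (.leaf ⟨1, 84, 0, 0⟩)
(.leaf ⟨5, 48, 20, 8⟩)))
(.node (.node (.leaf ⟨0, 608, 0, 0⟩)
(.leaf ⟨5, 24, 12, 6⟩))
(.node (.leaf ⟨2, 5, 6, 0⟩)
(.leaf ⟨5, 9, 528, 6⟩)))))
(.node (.node (.node (.node (.node (.leaf ⟨0, 81, 0, 0⟩)
(.leaf ⟨5, 40, 1025, 6⟩))
(.leaf ⟨2, 9, 10, 0⟩))
(.node (.leaf ⟨1, 274, 0, 0⟩)
(.leaf ⟨5, 1032, 1040, 5⟩)))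
(.node (.node (.leaf ⟨0, 1288, 0, 0⟩)
(.leaf ⟨5, 24, 10, 6⟩))
(.node (.leaf ⟨3, 3, 3, 0⟩)
(.leaf ⟨5, 96, 520, 1⟩))))
(.node (.node (.node (.node (.leaf ⟨0, 1538, 0, 0⟩)
(.leaf ⟨5, 24, 3, 7⟩))
(.leaf ⟨5, 34, 1040, 9⟩))
(.node (.leaf ⟨1, 104, 0, 0⟩)
(.leaf ⟨5, 48, 1032, 8⟩)))
(.node (.node (.leaf ⟨1, 67, 0, 0⟩)
(.leaf ⟨5, 24, 528, 7⟩))
(.node (.leaf ⟨2, 7, 6, 0⟩)
(.leaf ⟨5, 33, 520, 6⟩))))))
(.node (.node (.node (.node (.node (.node (.leaf ⟨0, 69, 0, 0⟩)
(.leaf ⟨5, 24, 12, 0⟩))
(.leaf ⟨2, 9, 4, 0⟩))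
(.node (.leaf ⟨1, 74, 0, 0⟩)
(.leaf ⟨5, 1032, 24, 6⟩)))
(.node (.node (.leaf ⟨0, 168, 0, 0⟩)
(.leaf ⟨5, 36, 1536, 7⟩))
(.node (.leaf ⟨1, 672, 0, 0⟩)
(.leaf ⟨5, 96, 1028, 8⟩))))
(.node (.node (.node (.node (.leaf ⟨0, 530, 0, 0⟩)
(.leaf ⟨5, 33, 528, 1⟩))
(.leaf ⟨5, 10, 528, 7⟩))
(.node (.leaf ⟨1, 1156, 0, 0⟩)
(.leaf ⟨5, 48, 1028, 3⟩)))
(.node (.node (.leaf ⟨1, 13, 0, 0⟩)
(.leaf ⟨5, 24, 1032, 9⟩))
(.node (.leaf ⟨2, 7, 7, 0⟩)
(.leaf ⟨5, 33, 24, 9⟩)))))
(.node (.node (.node (.node (.node (.leaf ⟨0, 1089, 0, 0⟩)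
(.leaf ⟨5, 48, 1032, 0⟩))
(.leaf ⟨2, 10, 5, 0⟩))
(.node (.leaf ⟨1, 1538, 0, 0⟩)
(.leaf ⟨5, 48, 1026, 9⟩)))
(.node (.node (.leaf ⟨0, 1104, 0, 0⟩)
(.leaf ⟨5, 24, 1026, 8⟩))
(.node (.leaf ⟨2, 5, 5, 0⟩)
(.leaf ⟨5, 9, 24, 9⟩))))
(.node (.node (.node (.node (.leaf ⟨0, 276, 0, 0⟩)
(.leaf ⟨5, 40, 1025, 1⟩))
(.leaf ⟨5, 12, 24, 7⟩))
(.node (.leaf ⟨1, 1160, 0, 0⟩)
(.leaf ⟨5, 48, 1040, 3⟩)))
(.node (.node (.leaf ⟨1, 1027, 0, 0⟩)
(.leaf ⟨5, 24, 1040, 5⟩))
(.node (.leaf ⟨2, 8, 8, 0⟩)
(.leaf ⟨5, 33, 528, 8⟩))))))))))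

def g : Tr Nat := (.node (.node (.node (.node (.node (.node (.node (.node (.node (.node (.node (.leaf 1)
(.leaf 12303420903480))
(.node (.leaf 153)
(.leaf 348229)))
(.node (.node (.leaf 21376909500716)
(.leaf 594))
(.node (.leaf 1692408)
(.leaf 29857725933326669))))
(.node (.node (.node (.leaf 9966219985060)
(.leaf 27975254143394))
(.node (.leaf 40826662490882592)
(.leaf 1544564)))
(.node (.node (.leaf 116274115669827980)
(.leaf 950))
(.leaf 1594346))))
(.node (.node (.node (.node (.leaf 20552415262728276)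
(.leaf 3910054158))
(.node (.leaf 42508364652954084)
(.leaf 4464034099)))
(.node (.node (.leaf 23438359109964)
(.leaf 766))
(.leaf 734068)))
(.node (.node (.node (.leaf 21376741630208)
(.leaf 1981759972))
(.node (.leaf 1479294)
(.leaf 123)))
(.node (.node (.leaf 458915699083533230098)
(.leaf 77457404551244))
(.leaf 111700)))))
(.node (.node (.node (.node (.node (.leaf 59966610932875322)
(.leaf 1896132732))
(.node (.leaf 32305974124920)
(.leaf 495701)))
(.node (.node (.leaf 19313947852812)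
(.leaf 688))
(.node (.leaf 693048)
(.leaf 307))))
(.node (.node (.node (.leaf 52644823785644224)
(.leaf 406))
(.node (.leaf 96004068385968702)
(.leaf 7115092369)))
(.node (.node (.leaf 27562870202790)
(.leaf 1038))
(.leaf 1078308))))
(.node (.node (.node (.node (.leaf 11203708035186)
(.leaf 6091600254))
(.node (.leaf 102765999868076522)
(.leaf 5571182889)))
(.node (.node (.leaf 22888636850532)
(.leaf 868))
(.leaf 734126)))
(.node (.node (.node (.leaf 18214873325838)
(.leaf 2138630))
(.node (.leaf 602810)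
(.leaf 5094180649959735)))
(.node (.node (.leaf 484287848947672588314)
(.leaf 4649591203))
(.leaf 22075076391610113329386717192))))))
(.node (.node (.node (.node (.node (.node (.leaf 4055204864026)
(.leaf 1459794006))
(.node (.leaf 1888715)
(.leaf 692340)))
(.node (.node (.leaf 21376036561204)
(.leaf 640))
(.node (.leaf 594712)
(.leaf 341))))
(.node (.node (.node (.leaf 46450587725807804)
(.leaf 26116254646394))
(.node (.leaf 566)
(.leaf 1397134)))
(.node (.node (.leaf 25087055880594)
(.leaf 996))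
(.leaf 81696676008812539067987200671750))))
(.node (.node (.node (.node (.leaf 61656285628186734)
(.leaf 5017432362))
(.node (.leaf 98256418089341434)
(.leaf 1626420)))
(.node (.node (.leaf 105011542584344924)
(.leaf 822))
(.leaf 72194442951845334872708172800046)))
(.node (.node (.node (.leaf 25088162316540)
(.leaf 20074293322214))
(.node (.leaf 1143452)
(.leaf 5456553158617948738247827691)))
(.node (.node (.leaf 456609293124366360652)
(.leaf 79246696435826))
(.leaf 906338)))))
(.node (.node (.node (.node (.node (.leaf 6667282849864)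
(.leaf 4279120124))
(.node (.leaf 2019819)
(.leaf 503996)))
(.node (.node (.leaf 25088633700364)
(.leaf 730))
(.node (.leaf 594774)
(.leaf 321))))
(.node (.node (.node (.leaf 71793234155290628)
(.leaf 7766525702600))
(.node (.leaf 1675870)
(.leaf 74)))
(.node (.node (.leaf 438158038852382375956)
(.leaf 74437539053658))
(.leaf 20952342997464272221555048538))))
(.node (.node (.node (.node (.leaf 7766559187078)
(.leaf 4782461276))
(.node (.leaf 101066155495580166)
(.leaf 4313108714)))
(.node (.node (.leaf 97693193188950390)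
(.leaf 908))
(.leaf 1676236)))
(.node (.node (.node (.leaf 20414501208074)
(.leaf 2236958))
(.node (.leaf 602842)
(.leaf 1242185507306)))
(.node (.node (.leaf 463528506740253327394)
(.leaf 40416667673078))
(.leaf 22268646228339031536290488434)))))))
(.node (.node (.node (.node (.node (.node (.node (.leaf 1168482795522)
(.leaf 2030506124))
(.node (.leaf 440)
(.leaf 847972)))
(.node (.node (.leaf 25913334325542)
(.leaf 618))
(.node (.leaf 611080)
(.leaf 86))))
(.node (.node (.node (.leaf 10103692492970)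
(.leaf 26116254613620))
(.node (.leaf 95440980959924770)
(.leaf 1528188)))
(.node (.node (.leaf 105014017189257614)
(.leaf 972))
(.leaf 226298))))
(.node (.node (.node (.node (.leaf 50394812020457572)
(.leaf 4749095268))
(.node (.leaf 59395351292903916)
(.leaf 1159447)))
(.node (.node (.leaf 116274115669827924)
(.leaf 792))
(.leaf 1258370)))
(.node (.node (.node (.leaf 18489751855358)
(.leaf 14502932218348))
(.node (.leaf 463502)
(.leaf 73954)))
(.node (.node (.leaf 456609291199751233608)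
(.leaf 19212702375))
(.leaf 21533213107320348053077319696)))))
(.node (.node (.node (.node (.node (.leaf 5292624855046)
(.leaf 11203573608634))
(.node (.leaf 103325925560361418)
(.leaf 235577373)))
(.node (.node (.leaf 102763316351598604)
(.leaf 708))
(.node (.leaf 594760)
(.leaf 213))))
(.node (.node (.node (.leaf 17527276027908)
(.leaf 390))
(.node (.leaf 112896076715156030)
(.leaf 680234)))
(.node (.node (.leaf 428932981127500570630)
(.leaf 72511013023814))
(.leaf 160820))))
(.node (.node (.node (.node (.leaf 7766559187068)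
(.leaf 6091608474))
(.node (.leaf 36567622107314)
(.leaf 1626454)))
(.node (.node (.leaf 22201206088038)
(.leaf 888))
(.leaf 18476888035665244288608993282)))
(.node (.node (.node (.leaf 20138616135690)
(.leaf 12790867837472))
(.node (.leaf 1348298)
(.leaf 303636791)))
(.node (.node (.leaf 481981446012934414412)
(.leaf 8692601032))
(.leaf 54398))))))
(.node (.node (.node (.node (.node (.node (.leaf 12852975484974)
(.leaf 2533970092))
(.node (.leaf 32374914209837520)
(.leaf 1996640272)))
(.node (.node (.leaf 21376909500730)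
(.leaf 664))
(.node (.leaf 1692456)
(.leaf 986))))
(.node (.node (.node (.leaf 11340475621564)
(.leaf 162))
(.node (.leaf 40416718323876)
(.leaf 1438114)))
(.node (.node (.leaf 118528940449358242)
(.leaf 1016))
(.leaf 1135638))))
(.node (.node (.node (.node (.leaf 10379141496840)
(.leaf 4681748708))
(.node (.leaf 101635014787031526)
(.leaf 1143082)))
(.node (.node (.leaf 23438894874978)
(.leaf 850))
(.leaf 1446814)))
(.node (.node (.node (.leaf 25087760834826)
(.leaf 27221051810282))
(.node (.leaf 1200810)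
(.leaf 303636585)))
(.node (.node (.leaf 458915693859544416284)
(.leaf 56880628294914534))
(.leaf 1045610)))))
(.node (.node (.node (.node (.node (.leaf 4879435178054)
(.leaf 17527645057444))
(.node (.leaf 34627538925826536)
(.leaf 1544438)))
(.node (.node (.leaf 24950086926666)
(.leaf 748))
(.leaf 750438)))
(.node (.node (.node (.leaf 21376808837356)
(.leaf 18489802613188))
(.node (.leaf 299630)
(.leaf 612)))
(.node (.node (.leaf 438158045313555800070)
(.leaf 312785854413488144))
(.leaf 226374))))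
(.node (.node (.node (.node (.leaf 8866406629530)
(.leaf 23850877243766))
(.node (.leaf 2232863)
(.leaf 6662267273)))
(.node (.node (.leaf 26050806833526)
(.leaf 932))
(.leaf 95196)))
(.node (.node (.node (.leaf 23713807679774)
(.leaf 22751130661434))
(.node (.leaf 594664)
(.leaf 1626507)))
(.node (.node (.leaf 146)
(.leaf 757806))
(.leaf 86455550890039143307679674777724))))))))
(.node (.node (.node (.node (.node (.node (.node (.node (.leaf 9)
(.leaf 1224814616))
(.node (.leaf 1782193)
(.leaf 471118)))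
(.node (.node (.leaf 20413494067488)
(.leaf 606))
(.node (.leaf 594688)
(.leaf 1779659085))))
(.node (.node (.node (.leaf 10103692492968)
(.leaf 25703870636146))
(.node (.leaf 56587199535317536)
(.leaf 1552758)))
(.node (.node (.leaf 21376271384974)
(.leaf 960))
(.leaf 1487858))))
(.node (.node (.node (.node (.leaf 47580611808354390)
(.leaf 20139488456968))
(.node (.leaf 49826989193806308)
(.leaf 1708308)))
(.node (.node (.leaf 26736860594508)
(.leaf 778))
(.leaf 742268)))
(.node (.node (.node (.leaf 23576368947434)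
(.leaf 13752000791016))
(.node (.leaf 1692294)
(.leaf 5082086844129676)))
(.node (.node (.leaf 458915696883939565590)
(.leaf 1140))
(.leaf 87882741286794417875345972707344)))))
(.node (.node (.node (.node (.node (.leaf 7765552635910)
(.leaf 2030391452))
(.node (.leaf 93188631188853194)
(.leaf 676004)))
(.node (.node (.leaf 25087291072524)
(.leaf 698))
(.node (.leaf 1307456)
(.leaf 27))))
(.node (.node (.node (.leaf 59966610932875476)
(.leaf 384))
(.node (.leaf 104451690377519674)
(.leaf 31837946106888656)))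
(.node (.node (.leaf 419706775648073719814)
(.leaf 1048))
(.leaf 660524))))
(.node (.node (.node (.node (.leaf 5979282350202)
(.leaf 6125171078))
(.node (.leaf 2134535)
(.leaf 1528140)))
(.node (.node (.leaf 27287220502884)
(.leaf 878))
(.leaf 1479606)))
(.node (.node (.node (.leaf 18214873325846)
(.leaf 23373298082314))
(.node (.leaf 611010)
(.leaf 20776813725954924714)))
(.node (.node (.leaf 456609288587806949404)
(.leaf 50107361923768837))
(.leaf 930938))))))
(.node (.node (.node (.node (.node (.node (.leaf 11616058458142)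
(.leaf 2097655942))
(.node (.leaf 1954267)
(.leaf 757884)))
(.node (.node (.leaf 20551401750840)
(.leaf 184410994486845456))
(.node (.leaf 693024)
(.leaf 78))))
(.node (.node (.node (.leaf 9965079199932)
(.leaf 180))
(.node (.leaf 2380355)
(.leaf 6745350409)))
(.node (.node (.leaf 27287757406610)
(.leaf 1006))
(.leaf 619534))))
(.node (.node (.node (.node (.leaf 8591998738440)
(.leaf 5017432376))
(.node (.leaf 103888738611814886)
(.leaf 1708350)))
(.node (.node (.leaf 23438894874972)
(.leaf 838))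
(.leaf 832408)))
(.node (.node (.node (.leaf 116274115669827848)
(.leaf 4397687274))
(.node (.leaf 545442)
(.leaf 458934274095801934172)))
(.node (.node (.leaf 458915699083533262874)
(.leaf 74712920408188))
(.leaf 1086566)))))
(.node (.node (.node (.node (.node (.leaf 9141586706508)
(.leaf 921823))
(.node (.leaf 2085371)
(.leaf 2735538361)))
(.node (.node (.leaf 102763317694210060)
(.leaf 738))
(.node (.leaf 734046)
(.leaf 0))))
(.node (.node (.node (.leaf 17664681763046)
(.leaf 3105718732))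
(.node (.leaf 1692262)
(.leaf 968)))
(.node (.node (.leaf 435851636742411034630)
(.leaf 1102))
(.leaf 185410))))
(.node (.node (.node (.node (.leaf 61656285628186766)
(.leaf 22888636748132))
(.node (.leaf 102766000405045770)
(.leaf 5588046110)))
(.node (.node (.leaf 23850172539254)
(.leaf 922))
(.leaf 1692628)))
(.node (.node (.node (.leaf 22887361585434)
(.leaf 22549134238238))
(.node (.leaf 1594080)
(.leaf 18)))
(.node (.node (.leaf 458915700045874454570)
(.leaf 3092762435645))
(.leaf 85344537955842931074638519033978)))))))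
(.node (.node (.node (.node (.node (.node (.node (.leaf 17173066342318108)
(.leaf 1426378922))
(.node (.leaf 94877893533602238)
(.leaf 282702)))
(.node (.node (.leaf 26050806833450)
(.leaf 632))
(.node (.leaf 1200912)
(.leaf 69))))
(.node (.node (.node (.leaf 9966387757242)
(.leaf 25978782130296))
(.node (.leaf 106141363998990878)
(.leaf 1388940)))
(.node (.node (.leaf 27562635321742)
(.leaf 984))
(.leaf 1659906))))
(.node (.node (.node (.node (.leaf 12715838513256)
(.leaf 20414601490856))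
(.node (.leaf 34230589350256)
(.leaf 1356074)))
(.node (.node (.leaf 27287757406550)
(.leaf 808))
(.leaf 734090)))
(.node (.node (.node (.leaf 24950689808630)
(.leaf 2007526))
(.node (.leaf 1487508)
(.leaf 5554168209)))
(.node (.node (.leaf 458915699633423261714)
(.leaf 17770172756))
(.leaf 21610735512405633695139282970)))))
(.node (.node (.node (.node (.node (.leaf 5842313789446)
(.leaf 2466762942))
(.node (.leaf 480)
(.leaf 766138)))
(.node (.node (.leaf 25088667172876)
(.leaf 720))
(.node (.leaf 1389390)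
(.leaf 286))))
(.node (.node (.node (.leaf 15465623633924)
(.leaf 8041537876406))
(.node (.leaf 1471062)
(.leaf 672146)))
(.node (.node (.leaf 435851638804532207622)
(.leaf 1074))
(.leaf 85503226451311061989642730733654))))
(.node (.node (.node (.node (.leaf 12852975485052)
(.leaf 25088700617132))
(.node (.leaf 42507540421968388)
(.leaf 1716578)))
(.node (.node (.leaf 20138918035828)
(.leaf 896))
(.leaf 1471428)))
(.node (.node (.node (.leaf 20414601625610)
(.leaf 3374514720))
(.node (.leaf 594642)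
(.leaf 303300909)))
(.node (.node (.leaf 481981446012934209564)
(.leaf 20144707572041))
(.leaf 83917270178388161798869108473864))))))
(.node (.node (.node (.node (.node (.node (.leaf 50394812020457528)
(.leaf 2533970114))
(.node (.leaf 53209361167516108)
(.leaf 3171651792)))
(.node (.node (.leaf 20413963813184)
(.leaf 676))
(.node (.leaf 676656)
(.leaf 1113))))
(.node (.node (.node (.leaf 12715536523452)
(.leaf 194))
(.node (.leaf 31811689278337592)
(.leaf 7047958925)))
(.node (.node (.leaf 27149982843300)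
(.leaf 1026))
(.leaf 594974))))
(.node (.node (.node (.node (.leaf 10379141586952)
(.leaf 5587964206))
(.node (.leaf 113455314407219690)
(.leaf 1519946)))
(.node (.node (.leaf 22062828487012)
(.leaf 860))
(.leaf 644006)))
(.node (.node (.node (.leaf 27562635321610)
(.leaf 9691275203084))
(.node (.leaf 594610)
(.leaf 5094180650012958)))
(.node (.node (.leaf 479675039916294791244)
(.leaf 7635533991))
(.leaf 603250)))))
(.node (.node (.node (.node (.node (.leaf 11616058458190)
(.leaf 6091477238))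
(.node (.leaf 37442976055472624)
(.leaf 1618184)))
(.node (.node (.leaf 20413896606028)
(.leaf 756))
(.leaf 1143660)))
(.node (.node (.node (.leaf 67288672320815354)
(.leaf 9278824092140))
(.node (.leaf 406134)
(.leaf 456)))
(.node (.node (.leaf 438158039814622822420)
(.leaf 76914326061082))
(.leaf 1487948))))
(.node (.node (.node (.node (.leaf 9003140718748)
(.leaf 25638187790734))
(.node (.leaf 2298415)
(.leaf 7115174289)))
(.node (.node (.leaf 25638489964924)
(.leaf 940))
(.leaf 1471460)))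
(.node (.node (.node (.leaf 21376741261612)
(.leaf 6662922814))
(.node (.leaf 611056)
(.leaf 6660743426)))
(.node (.node (.leaf 150)
(.leaf 1581538005050))
(.leaf 69647)))))))))
(.node (.node (.node (.node (.node (.node (.node (.node (.node (.leaf 5)
(.leaf 1895886874))
(.node (.leaf 430)
(.leaf 5017797234793)))
(.node (.node (.leaf 21101997719832)
(.leaf 598))
(.node (.leaf 611068)
(.leaf 1779659148))))
(.node (.node (.node (.leaf 11203708035238)
(.leaf 1499292))
(.node (.leaf 41383152813507104)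
(.leaf 6275825961)))
(.node (.node (.leaf 27425162813836)
(.leaf 16026145048))
(.leaf 1561582))))
(.node (.node (.node (.node (.leaf 8315711168598)
(.leaf 4916654330))
(.node (.leaf 48144323683762660)
(.leaf 1642762)))
(.node (.node (.leaf 109518853533540684)
(.leaf 774))
(.leaf 1692536)))
(.node (.node (.node (.leaf 18215008280802)
(.leaf 2904539620))
(.node (.leaf 471682)
(.leaf 457)))
(.node (.node (.leaf 458915693859544375314)
(.leaf 1136))
(.leaf 78934)))))
(.node (.node (.node (.node (.node (.leaf 61656285628186690)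
(.leaf 2064060552))
(.node (.leaf 32855729938812)
(.leaf 3205308603)))
(.node (.node (.leaf 25086317805580)
(.leaf 694))
(.node (.leaf 1692476)
(.leaf 510))))
(.node (.node (.node (.leaf 12715838513360)
(.leaf 410))
(.node (.leaf 92625406257238606)
(.leaf 8221683897)))
(.node (.node (.leaf 27562870202792)
(.leaf 1042))
(.leaf 1102888))))
(.node (.node (.node (.node (.leaf 11616058458228)
(.leaf 6091608450))
(.node (.leaf 514)
(.leaf 5571252540)))
(.node (.node (.leaf 111768454391054692)
(.leaf 872))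
(.leaf 1495986)))
(.node (.node (.node (.leaf 116839953116578066)
(.leaf 19937391337990))
(.node (.leaf 1307326)
(.leaf 1243696447788)))
(.node (.node (.leaf 479675039916294586396)
(.leaf 2785517866))
(.leaf 22113809253034640642627592200))))))
(.node (.node (.node (.node (.node (.node (.leaf 11203708035096)
(.leaf 290833))
(.node (.leaf 1921491)
(.leaf 2080661593)))
(.node (.node (.leaf 27287757406516)
(.leaf 648))
(.node (.leaf 1479452)
(.leaf 170))))
(.node (.node (.node (.leaf 9003140718780)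
(.leaf 26116254507094))
(.node (.leaf 2347579)
(.leaf 1388944)))
(.node (.node (.leaf 26049934131602)
(.leaf 1002))
(.leaf 19984323767110988140295487564))))
(.node (.node (.node (.node (.leaf 4879368069128)
(.leaf 4782469422))
(.node (.leaf 98819505515270654)
(.leaf 6259179917)))
(.node (.node (.leaf 23437587128668)
(.leaf 834))
(.leaf 1348500)))
(.node (.node (.node (.leaf 16015580741890)
(.leaf 22685633454566))
(.node (.leaf 1749662)
(.leaf 3776229687)))
(.node (.node (.leaf 458915696883939795020)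
(.leaf 1241926481537561616506))
(.leaf 1078372)))))
(.node (.node (.node (.node (.node (.leaf 29559889529569356)
(.leaf 4279152910))
(.node (.leaf 2052595)
(.leaf 512190)))
(.node (.node (.leaf 25088667271180)
(.leaf 50383507390478))
(.node (.leaf 750426)
(.leaf 334))))
(.node (.node (.node (.leaf 20139623293156)
(.leaf 9141351576016))
(.node (.leaf 316002)
(.leaf 166)))
(.node (.node (.leaf 435851639216916176902)
(.leaf 1098))
(.leaf 906302))))
(.node (.node (.node (.node (.leaf 8454391496840)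
(.leaf 5722386784))
(.node (.leaf 101071927931625990)
(.leaf 1315099)))
(.node (.node (.leaf 21376271303030)
(.leaf 918))
(.leaf 119760)))
(.node (.node (.node (.leaf 83618207706546186)
(.leaf 25913419014686))
(.node (.leaf 283358)
(.leaf 303267946)))
(.node (.node (.leaf 458915697571403055192)
(.leaf 2335051))
(.leaf 91365375270974549212144089473138)))))))
(.node (.node (.node (.node (.node (.node (.node (.leaf 11542192284393474)
(.leaf 1426346140))
(.node (.leaf 1823163)
(.leaf 872550)))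
(.node (.node (.leaf 25088162316586)
(.leaf 626))
(.node (.leaf 1274636)
(.leaf 139))))
(.node (.node (.node (.leaf 8865668210874)
(.leaf 26116254466126))
(.node (.leaf 102176250191290910)
(.leaf 6644982065)))
(.node (.node (.leaf 28386295808398)
(.leaf 980))
(.leaf 1692670))))
(.node (.node (.node (.node (.leaf 28998039859994726)
(.leaf 4984009084))
(.node (.leaf 59404009946972652)
(.leaf 20414719013175)))
(.node (.node (.leaf 22751163228502)
(.leaf 796))
(.leaf 750470)))
(.node (.node (.node (.leaf 15465724264670)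
(.leaf 23988383322618))
(.node (.leaf 12672627045609248860511707152)
(.leaf 19715486142480786)))
(.node (.node (.leaf 456609288312794783762)
(.leaf 19279892780))
(.leaf 21572002650981106381898424346)))))
(.node (.node (.node (.node (.node (.leaf 8316953083910)
(.leaf 11341046124732))
(.node (.leaf 76308863315206610)
(.leaf 684202)))
(.node (.node (.leaf 25088633602060)
(.leaf 716))
(.node (.leaf 16271268859443966025931948078)
(.leaf 3959669004))))
(.node (.node (.node (.leaf 17527410319364)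
(.leaf 426))
(.node (.leaf 1487442)
(.leaf 348293678196955884467855547)))
(.node (.node (.leaf 428932977553249812500)
(.leaf 1070))
(.leaf 1086518))))
(.node (.node (.node (.node (.leaf 50393986648825980)
(.leaf 6125171102))
(.node (.leaf 35753713777766920)
(.leaf 1700190)))
(.node (.node (.leaf 26051008430438)
(.leaf 892))
(.leaf 1487808)))
(.node (.node (.node (.leaf 82491344719740938)
(.leaf 6331237040672))
(.node (.leaf 611022)
(.leaf 5571256490)))
(.node (.node (.leaf 458915694684446564378)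
(.leaf 40549409329432))
(.leaf 22228241240945689263430877192))))))
(.node (.node (.node (.node (.node (.node (.leaf 13677709869106)
(.leaf 2500399286))
(.node (.leaf 41953248182878668)
(.leaf 487507)))
(.node (.node (.leaf 117403040542507326)
(.leaf 670))
(.node (.leaf 1667884)
(.leaf 1075))))
(.node (.node (.node (.leaf 11341046194364)
(.leaf 206))
(.node (.leaf 40416852558022)
(.leaf 1724834)))
(.node (.node (.leaf 116275902611030436)
(.leaf 1022))
(.leaf 611354))))
(.node (.node (.node (.node (.leaf 10241635475464)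
(.leaf 5587734786))
(.node (.leaf 102761189571813862)
(.leaf 1143104)))
(.node (.node (.leaf 93751856118907236)
(.leaf 854))
(.leaf 832418)))
(.node (.node (.node (.leaf 116277139360432394)
(.leaf 8041537876484))
(.node (.leaf 610990)
(.leaf 534377585566306330350586947515649298922)))
(.node (.node (.leaf 456609293949234962508)
(.leaf 717019))
(.leaf 619630)))))
(.node (.node (.node (.node (.node (.leaf 10103692492878)
(.leaf 5722386686))
(.node (.leaf 38006063481352684)
(.leaf 1528060)))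
(.node (.node (.leaf 25501017456970)
(.leaf 752))
(.leaf 734058)))
(.node (.node (.node (.leaf 18490020479212)
(.leaf 6159147466))
(.node (.leaf 1684082)
(.leaf 644)))
(.node (.node (.leaf 438158042976489611270)
(.leaf 76639112568858))
(.leaf 226376))))
(.node (.node (.node (.node (.leaf 11478888153242)
(.leaf 6125039996))
(.node (.leaf 2265639)
(.leaf 3977523424)))
(.node (.node (.leaf 25087593103740)
(.leaf 936))
(.leaf 1487840)))
(.node (.node (.node (.leaf 23437587128620)
(.leaf 25504810017338))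
(.node (.leaf 1692396)
(.leaf 1626601)))
(.node (.node (.leaf 148)
(.leaf 847928))
(.leaf 419491864))))))))
(.node (.node (.node (.node (.node (.node (.node (.node (.leaf 1718238674946)
(.leaf 1292144740))
(.node (.leaf 32938139141722550)
(.leaf 692302)))
(.node (.node (.leaf 24950689808678)
(.leaf 614))
(.node (.leaf 1716996)
(.leaf 434574))))
(.node (.node (.node (.leaf 46451686868361386)
(.leaf 25703870480458))
(.node (.leaf 38079819800944)
(.leaf 6376558900)))
(.node (.node (.leaf 23850172539278)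
(.leaf 964))
(.leaf 1586166))))
(.node (.node (.node (.node (.leaf 13540270907486)
(.leaf 4984033600))
(.node (.leaf 42516473484100072)
(.leaf 1716502)))
(.node (.node (.leaf 26050806833484)
(.leaf 788))
(.leaf 594816)))
(.node (.node (.node (.leaf 18490020479210)
(.leaf 14500818289132))
(.node (.leaf 1667722)
(.leaf 302915981)))
(.node (.node (.leaf 461222099956183998482)
(.leaf 19147043064))
(.leaf 21494480245895820739836461072)))))
(.node (.node (.node (.node (.node (.leaf 5016840667142)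
(.leaf 2466721960))
(.node (.leaf 75734231017185732)
(.leaf 471208)))
(.node (.node (.leaf 25087291113484)
(.leaf 704))
(.node (.leaf 742212)
(.leaf 507))))
(.node (.node (.node (.leaf 16977453080580)
(.leaf 388))
(.node (.leaf 111770039369343550)
(.leaf 216811731552112435602)))
(.node (.node (.leaf 428932983739511775238)
(.leaf 1052))
(.leaf 644144))))
(.node (.node (.node (.node (.leaf 39132787483246716)
(.leaf 6091600278))
(.node (.leaf 2167311)
(.leaf 5705474353)))
(.node (.node (.leaf 27288260985188)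
(.leaf 882))
(.leaf 127930)))
(.node (.node (.node (.leaf 117966402913452310)
(.leaf 9397469724))
(.node (.leaf 594630)
(.leaf 5019530223926556492070252540587539698250563820)))
(.node (.node (.leaf 458915700045874585676)
(.leaf 4899766761))
(.leaf 54396))))))
(.node (.node (.node (.node (.node (.node (.leaf 1718439911470)
(.leaf 2500399264))
(.node (.leaf 34627538925646284)
(.leaf 848006)))
(.node (.node (.leaf 20689345159480)
(.leaf 660))
(.node (.leaf 496420)
(.leaf 800))))
(.node (.node (.node (.leaf 46452924926156988)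
(.leaf 182))
(.node (.leaf 2413131)
(.leaf 1397138)))
(.node (.node (.leaf 114586640969679266)
(.leaf 1012))
(.leaf 603154))))
(.node (.node (.node (.node (.leaf 10241635385352)
(.leaf 5017432384))
(.node (.leaf 101629242350985702)
(.leaf 1732928)))
(.node (.node (.leaf 23438894874976)
(.leaf 57807022850094))
(.leaf 406428)))
(.node (.node (.node (.leaf 15465724264714)
(.leaf 5672755690))
(.node (.leaf 1594022)
(.leaf 1243695452430)))
(.node (.node (.leaf 458915696883939590172)
(.leaf 307151818118774908))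
(.leaf 1086568)))))
(.node (.node (.node (.node (.node (.leaf 29560989813424204)
(.leaf 5017555292))
(.node (.leaf 34917951897802)
(.leaf 872660)))
(.node (.node (.leaf 19588959977794)
(.leaf 742))
(.leaf 1495906)))
(.node (.node (.node (.leaf 21376942735596)
(.leaf 7820075466))
(.node (.leaf 1667690)
(.leaf 988)))
(.node (.node (.leaf 435851633443105292308)
(.leaf 4535377))
(.leaf 185412))))
(.node (.node (.node (.node (.leaf 12163968417946)
(.leaf 5420216678))
(.node (.leaf 538)
(.leaf 6661787960)))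
(.node (.node (.leaf 25087592989046)
(.leaf 928))
(.leaf 1668056)))
(.node (.node (.node (.leaf 21238261981470)
(.leaf 2971976248))
(.node (.leaf 611044)
(.leaf 71)))
(.node (.node (.leaf 458915697571402874924)
(.leaf 684062))
(.leaf 21029818167352698683966931068)))))))
(.node (.node (.node (.node (.node (.node (.node (.leaf 2817918230546)
(.leaf 1191268422))
(.node (.leaf 450)
(.leaf 667762)))
(.node (.node (.leaf 27150284898610)
(.leaf 636))
(.node (.leaf 652052)
(.leaf 818))))
(.node (.node (.node (.leaf 14227667058874)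
(.leaf 25978781982804))
(.node (.leaf 101635015726785054)
(.leaf 6678241545)))
(.node (.node (.leaf 24950857580944)
(.leaf 992))
(.leaf 1487878))))
(.node (.node (.node (.node (.leaf 9553030783082)
(.leaf 6057914660))
(.node (.leaf 95440980959793642)
(.leaf 1552682)))
(.node (.node (.leaf 23851246641498)
(.leaf 812))
(.leaf 1422222)))
(.node (.node (.node (.leaf 18214906896636)
(.leaf 25640906449382))
(.node (.leaf 1471128)
(.leaf 5296333758632)))
(.node (.node (.leaf 458915694409434406930)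
(.leaf 73061876379996))
(.leaf 21649468373830161008380166170)))))
(.node (.node (.node (.node (.node (.leaf 5842448064518)
(.leaf 4144886006))
(.node (.leaf 1987043)
(.leaf 403423277)))
(.node (.node (.leaf 24813755777036)
(.leaf 726))
(.node (.leaf 742226)
(.leaf 236))))
(.node (.node (.node (.leaf 20551906476036)
(.leaf 8728934027708))
(.node (.leaf 299610)
(.leaf 164)))
(.node (.node (.leaf 435851636329993510918)
(.leaf 1244235702933858287702))
(.leaf 85662147117218795144464066256986))))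
(.node (.node (.node (.node (.leaf 13540270907520)
(.leaf 4782461262))
(.node (.leaf 92062318831079942)
(.leaf 3859992833)))
(.node (.node (.leaf 24950689808756)
(.leaf 904))
(.leaf 95176)))
(.node (.node (.node (.leaf 19452294217738)
(.leaf 23301020742178))
(.node (.leaf 619222)
(.leaf 74048)))
(.node (.node (.leaf 481981443125977989148)
(.leaf 1180862668746291552174366))
(.leaf 20565089959533973776587145224))))))
(.node (.node (.node (.node (.node (.node (.leaf 58840573553524792)
(.leaf 10379107832014))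
(.node (.leaf 49825751437787608)
(.leaf 2030202896)))
(.node (.node (.leaf 117966402913452352)
(.leaf 684))
(.node (.leaf 1749812)
(.leaf 39))))
(.node (.node (.node (.leaf 13127886946494)
(.leaf 364))
(.node (.leaf 56587062566240828)
(.leaf 1733028)))
(.node (.node (.leaf 27150419116452)
(.leaf 70860570890520))
(.leaf 83599661017012297729043559653446))))
(.node (.node (.node (.node (.leaf 42512825679929352)
(.leaf 23438929531192))
(.node (.leaf 102196452844872170)
(.leaf 22819061797115)))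
(.node (.node (.leaf 111768453652668772)
(.leaf 864))
(.leaf 840618)))
(.node (.node (.node (.leaf 16015580741902)
(.leaf 2130436))
(.node (.leaf 619190)
(.leaf 325235898628640325944)))
(.node (.node (.leaf 456609288587806941210)
(.leaf 37047618019882))
(.leaf 22036834776232921484507496456)))))
(.node (.node (.node (.node (.node (.leaf 4741962719316)
(.leaf 3910054146))
(.node (.leaf 41940329323987428)
(.leaf 5000700211)))
(.node (.node (.leaf 23437587128652)
(.leaf 762))
(.leaf 750448)))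
(.node (.node (.node (.leaf 74608121661669632)
(.leaf 2482073715172))
(.node (.leaf 1495674)
(.leaf 816)))
(.node (.node (.leaf 458915696883939778632)
(.leaf 77182225748308))
(.leaf 1471568))))
(.node (.node (.node (.node (.leaf 11340140159132)
(.leaf 6091518352))
(.node (.leaf 38492103114940)
(.leaf 1536370)))
(.node (.node (.leaf 24950288253324)
(.leaf 946))
(.leaf 103400)))
(.node (.node (.node (.leaf 87559819620663596)
(.leaf 6730048062))
(.node (.leaf 594676)
(.leaf 1274253)))
(.node (.node (.leaf 152)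
(.leaf 2735444028))
(.leaf 2817918038182))))))))))
(.node (.node (.node (.node (.node (.node (.node (.node (.node (.node (.leaf 3)
(.leaf 1291923490))
(.node (.leaf 155)
(.leaf 5017797234791)))
(.node (.node (.leaf 21926732513580)
(.leaf 596))
(.node (.leaf 619258)
(.leaf 7289483870441))))
(.node (.node (.node (.leaf 11341146996900)
(.leaf 1491098))
(.node (.leaf 41380129156530720)
(.leaf 6275707158)))
(.node (.node (.leaf 24950857580940)
(.leaf 952))
(.leaf 1577964))))
(.node (.node (.node (.node (.leaf 5979315904598)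
(.leaf 28387671675158))
(.node (.leaf 48140337954111972)
(.leaf 1626378)))
(.node (.node (.leaf 25087592989004)
(.leaf 768))
(.leaf 1217398)))
(.node (.node (.node (.leaf 17252700217568)
(.leaf 2954838500))
(.node (.leaf 1471104)
(.leaf 187)))
(.node (.node (.leaf 456609287900377260050)
(.leaf 1134))
(.leaf 21417713603960281972177158146)))))
(.node (.node (.node (.node (.node (.leaf 12715838513212)
(.leaf 1896132742))
(.node (.leaf 32580852031866)
(.leaf 2768588906)))
(.node (.node (.leaf 19176442707980)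
(.leaf 690))
(.node (.leaf 676666)
(.leaf 486))))
(.node (.node (.node (.leaf 14914962514112)
(.leaf 386))
(.node (.leaf 94877893534143050)
(.leaf 7115084175)))
(.node (.node (.leaf 29075067961766)
(.leaf 1040))
(.leaf 54310))))
(.node (.node (.node (.node (.leaf 11478619496564)
(.leaf 6125154688))
(.node (.leaf 512)
(.leaf 5571252530)))
(.node (.node (.leaf 22888636866916)
(.leaf 870))
(.leaf 1201072)))
(.node (.node (.node (.leaf 23850877370638)
(.leaf 16638856454662))
(.node (.leaf 594620)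
(.leaf 1243696447744)))
(.node (.node (.leaf 456609291474763169820)
(.leaf 2047517004))
(.leaf 1045624))))))
(.node (.node (.node (.node (.node (.node (.leaf 4192643825690)
(.leaf 12303420903524))
(.node (.leaf 1905103)
(.leaf 2080604205)))
(.node (.node (.leaf 21376774824244)
(.leaf 646))
(.node (.leaf 1487642)
(.leaf 401))))
(.node (.node (.node (.leaf 7216568582332)
(.leaf 25703870537814))
(.node (.leaf 2331191)
(.leaf 1642894)))
(.node (.node (.leaf 25087056003474)
(.leaf 68667485290524))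
(.leaf 103434))))
(.node (.node (.node (.node (.leaf 60526948002144368)
(.leaf 6125039914))
(.node (.leaf 96004068385657342)
(.leaf 1642804)))
(.node (.node (.leaf 21376271303004)
(.leaf 828))
(.leaf 1356690)))
(.node (.node (.node (.leaf 25638489964796)
(.leaf 22548194484710))
(.node (.leaf 12904797485211488677635416090)
(.leaf 5454805983313048656531161114)))
(.node (.node (.leaf 458915699083533475916)
(.leaf 302640932584550522))
(.leaf 88826398038557721612046221492230)))))
(.node (.node (.node (.node (.node (.leaf 5016974868556)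
(.leaf 3910013186))
(.node (.leaf 2036207)
(.leaf 757948)))
(.node (.node (.leaf 24951228309516)
(.leaf 732))
(.node (.leaf 1446744)
(.leaf 233))))
(.node (.node (.node (.leaf 20414434074852)
(.leaf 8453988995532))
(.node (.leaf 1659488)
(.leaf 114)))
(.node (.node (.leaf 428932984289368252422)
(.leaf 75125908226148))
(.leaf 185406))))
(.node (.node (.node (.node (.leaf 58277623600095366)
(.leaf 5722386780))
(.node (.leaf 101069454030463494)
(.leaf 27285895041281)))
(.node (.node (.leaf 20413896606070)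
(.leaf 256486184871583790))
(.leaf 1659854)))
(.node (.node (.node (.leaf 83618207639420938)
(.leaf 6226600478))
(.node (.leaf 594652)
(.leaf 302342608)))
(.node (.node (.leaf 458915700045874643032)
(.leaf 157666403055555044))
(.leaf 95362)))))))
(.node (.node (.node (.node (.node (.node (.node (.leaf 1718272638978)
(.leaf 1392791706))
(.node (.leaf 442)
(.leaf 7079331205222)))
(.node (.node (.leaf 20551401750826)
(.leaf 624))
(.node (.leaf 602890)
(.leaf 89))))
(.node (.node (.node (.leaf 11478619496618)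
(.leaf 25978781958222))
(.node (.leaf 99382592941429298)
(.leaf 6644924721)))
(.node (.node (.leaf 25637583700366)
(.leaf 974))
(.leaf 1496060))))
(.node (.node (.node (.node (.leaf 58277623600095332)
(.leaf 4816204134))
(.node (.leaf 59398374949880300)
(.leaf 1175831)))
(.node (.node (.leaf 27150284898644)
(.leaf 794))
(.leaf 1717124)))
(.node (.node (.node (.leaf 18489986834686)
(.leaf 14640404742636))
(.node (.leaf 1258128)
(.leaf 319866)))
(.node (.node (.leaf 456609293536783638546)
(.leaf 19246297384))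
(.leaf 1201244)))))
(.node (.node (.node (.node (.node (.leaf 7904636198918)
(.leaf 2433200314))
(.node (.leaf 110081325001417166)
(.leaf 471210)))
(.node (.node (.leaf 24951194640396)
(.leaf 710))
(.node (.leaf 1225546)
(.leaf 211))))
(.node (.node (.node (.leaf 16015414009860)
(.leaf 414))
(.node (.leaf 1495632)
(.leaf 2753790541)))
(.node (.node (.leaf 431239387086667685894)
(.leaf 1068))
(.leaf 85185810765301533119664786341974))))
(.node (.node (.node (.node (.leaf 9965817585788)
(.leaf 6125162908))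
(.node (.leaf 32938139142058500)
(.leaf 1642838)))
(.node (.node (.leaf 27563206017382)
(.leaf 890))
(.leaf 1495998)))
(.node (.node (.node (.leaf 19176543346698)
(.leaf 3307580064288))
(.node (.leaf 619212)
(.leaf 74130)))
(.node (.node (.leaf 458915700045874372634)
(.leaf 2130119))
(.leaf 1045630))))))
(.node (.node (.node (.node (.node (.node (.leaf 13540270907442)
(.leaf 2466844852))
(.node (.leaf 37442976055292368)
(.leaf 1141002417)))
(.node (.node (.leaf 116839953116578108)
(.leaf 45847048740890))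
(.node (.leaf 1684266)
(.leaf 488))))
(.node (.node (.node (.leaf 9966387757244)
(.leaf 184))
(.node (.leaf 40416718340282)
(.leaf 6259528098)))
(.node (.node (.leaf 21238798852516)
(.leaf 1020))
(.leaf 619544))))
(.node (.node (.node (.node (.leaf 10104196513800)
(.leaf 6124589308))
(.node (.leaf 102198102179422694)
(.leaf 1143092)))
(.node (.node (.leaf 117966402913452386)
(.leaf 852))
(.leaf 840608)))
(.node (.node (.node (.leaf 28386295750922)
(.leaf 27633368687082))
(.node (.leaf 619180)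
(.leaf 27354614579340)))
(.node (.node (.leaf 481981448212460773402)
(.leaf 7484695018))
(.leaf 1021036)))))
(.node (.node (.node (.node (.node (.leaf 11203708035146)
(.leaf 18214873452800))
(.node (.leaf 34627538925810156)
(.leaf 1356028)))
(.node (.node (.leaf 109518716027486538)
(.leaf 750))
(.leaf 742248)))
(.node (.node (.node (.leaf 21376943145196)
(.leaf 21376792388038))
(.node (.leaf 1692272)
(.leaf 622)))
(.node (.node (.leaf 431239388048941686790)
(.leaf 313349491729457168))
(.leaf 21146101774980627147059806308))))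
(.node (.node (.node (.node (.leaf 12991085740186)
(.leaf 6125039990))
(.node (.leaf 2249251)
(.leaf 7048049037)))
(.node (.node (.leaf 26736860488060)
(.leaf 934))
(.leaf 1496030)))
(.node (.node (.node (.leaf 21376808837406)
(.leaf 23438493258302))
(.node (.leaf 1217258)
(.leaf 111486912020775217)))
(.node (.node (.leaf 355)
(.leaf 765998))
(.leaf 21184834636405154460300779654))))))))
(.node (.node (.node (.node (.node (.node (.node (.node (.leaf 11)
(.leaf 5292624523320))
(.node (.leaf 39695463231476146)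
(.leaf 684110)))
(.node (.node (.leaf 24813217300772)
(.leaf 608))
(.node (.leaf 1258242)
(.leaf 434487))))
(.node (.node (.node (.leaf 11616058458280)
(.leaf 25566397972554))
(.node (.leaf 49273248254460460)
(.leaf 6376546601)))
(.node (.node (.leaf 22887898423694)
(.leaf 962))
(.leaf 1594356))))
(.node (.node (.node (.node (.leaf 12715536523354)
(.leaf 20414366363914))
(.node (.leaf 40826661551129064)
(.leaf 1446166)))
(.node (.node (.leaf 25638489964876)
(.leaf 786))
(.leaf 734078)))
(.node (.node (.node (.leaf 23851246870762)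
(.leaf 3273638376))
(.node (.leaf 1684104)
(.leaf 1240743858430)))
(.node (.node (.leaf 461222105180172853266)
(.leaf 4633705))
(.leaf 1250392)))))
(.node (.node (.node (.node (.node (.leaf 7902991613958)
(.leaf 2433159332))
(.node (.leaf 97693193190773214)
(.leaf 667814)))
(.node (.node (.leaf 22888301387788)
(.leaf 700))
(.node (.leaf 750402)
(.leaf 483))))
(.node (.node (.node (.leaf 59403660979445974)
(.leaf 408))
(.node (.leaf 111207089818575422)
(.leaf 667833)))
(.node (.node (.leaf 422013181607240835078)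
(.leaf 1050))
(.leaf 652334))))
(.node (.node (.node (.node (.leaf 7765720367228)
(.leaf 6058045844))
(.node (.leaf 2150923)
(.leaf 1552716)))
(.node (.node (.leaf 27288227422564)
(.leaf 880))
(.leaf 1471416)))
(.node (.node (.node (.leaf 116275903180357910)
(.leaf 27633905656330))
(.node (.leaf 602820)
(.leaf 1243696247039)))
(.node (.node (.leaf 479675037029338365980)
(.leaf 4078985543))
(.leaf 90729576522123815472950184812552))))))
(.node (.node (.node (.node (.node (.node (.leaf 12028442427428)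
(.leaf 2466844830))
(.node (.leaf 31811689277813192)
(.leaf 766076)))
(.node (.node (.leaf 19588993532216)
(.leaf 658))
(.node (.leaf 676642)
(.leaf 168))))
(.node (.node (.node (.leaf 11339737235644)
(.leaf 160))
(.node (.leaf 2396743)
(.leaf 4229505289)))
(.node (.node (.leaf 27286851215778)
(.leaf 1010))
(.leaf 611344))))
(.node (.node (.node (.node (.leaf 10104196423688)
(.leaf 4782469432))
(.node (.leaf 105014638988419558)
(.leaf 1716544)))
(.node (.node (.leaf 116839953116578142)
(.leaf 840))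
(.leaf 734106)))
(.node (.node (.node (.leaf 27150284898568)
(.leaf 5102330346))
(.node (.leaf 1692324)
(.leaf 74059)))
(.node (.node (.leaf 458915693859544408090)
(.leaf 74850560729212))
(.leaf 21763598056481310879421652998)))))
(.node (.node (.node (.node (.node (.leaf 28998039859994700)
(.leaf 4245557590))
(.node (.leaf 34917951881394)
(.leaf 553172)))
(.node (.node (.leaf 102763317727772684)
(.leaf 740))
(.leaf 594784)))
(.node (.node (.node (.leaf 18489852076268)
(.leaf 12995750887884))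
(.node (.leaf 1684072)
(.leaf 978)))
(.node (.node (.leaf 428932978515557367828)
(.leaf 1104))
(.leaf 1086530))))
(.node (.node (.node (.node (.leaf 8178238554266)
(.leaf 5386645860))
(.node (.leaf 536)
(.leaf 20622504939821)))
(.node (.node (.leaf 26736088670582)
(.leaf 259864297143664696))
(.leaf 1684438)))
(.node (.node (.node (.leaf 21101930930458)
(.leaf 9867346488))
(.node (.leaf 619234)
(.leaf 15)))
(.node (.node (.leaf 458915694684446646314)
(.leaf 667672))
(.leaf 85979485413081789934502968082556)))))))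
(.node (.node (.node (.node (.node (.node (.node (.leaf 3230570610706)
(.leaf 5705008713936))
(.node (.leaf 448)
(.leaf 1912889417)))
(.node (.node (.leaf 19588993532206)
(.leaf 634))
(.node (.leaf 660242)
(.leaf 806))))
(.node (.node (.node (.leaf 12852975485114)
(.leaf 25566398013524))
(.node (.leaf 101629243290739230)
(.leaf 1634700)))
(.node (.node (.leaf 112894491032019344)
(.leaf 990))
(.leaf 226308))))
(.node (.node (.node (.node (.leaf 14777422913640)
(.leaf 4782469404))
(.node (.leaf 34230589366664)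
(.leaf 1528106)))
(.node (.node (.leaf 27562635321686)
(.leaf 810))
(.leaf 594828)))
(.node (.node (.node (.leaf 25913334325494)
(.leaf 6192816614))
(.node (.leaf 1479318)
(.leaf 1293844647)))
(.node (.node (.leaf 463528511551757492242)
(.leaf 17803776342))
(.leaf 1250400)))))
(.node (.node (.node (.node (.node (.leaf 5705009102854)
(.leaf 12440893419732))
(.node (.leaf 482)
(.leaf 3154173997)))
(.node (.node (.leaf 25088700735500)
(.leaf 722))
(.node (.leaf 750416)
(.leaf 312))))
(.node (.node (.node (.leaf 17389803888644)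
(.leaf 22338679542196))
(.node (.leaf 315992)
(.leaf 671932)))
(.node (.node (.leaf 438158044763699322886)
(.leaf 1239616696916366164054))
(.leaf 922682))))
(.node (.node (.node (.node (.leaf 9141016117374)
(.leaf 4782461250))
(.node (.leaf 42503279814410756)
(.leaf 5588046081)))
(.node (.node (.leaf 105012229141684596)
(.leaf 902))
(.leaf 119750)))
(.node (.node (.node (.leaf 22751667953674)
(.leaf 22613624574494))
(.node (.leaf 1446612)
(.leaf 2089377)))
(.node (.node (.leaf 458915694684446572572)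
(.leaf 1900677))
(.leaf 84075958673856292713873320271880))))))
(.node (.node (.node (.node (.node (.node (.leaf 58277623600095288)
(.leaf 10241668878540))
(.node (.leaf 53774647583162828)
(.leaf 2735370448)))
(.node (.node (.leaf 20964357275968)
(.leaf 678))
(.node (.leaf 348978)
(.leaf 489))))
(.node (.node (.node (.leaf 10103860265150)
(.leaf 404))
(.node (.leaf 49831663125185080)
(.leaf 7047950731)))
(.node (.node (.leaf 27287891624356)
(.leaf 1030))
(.leaf 914464))))
(.node (.node (.node (.node (.leaf 41949875726499848)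
(.leaf 6124826932))
(.node (.leaf 113457650869428714)
(.leaf 1544522)))
(.node (.node (.leaf 22887898456420)
(.leaf 862))
(.leaf 1594280)))
(.node (.node (.node (.leaf 17664849109260)
(.leaf 1176535556))
(.node (.leaf 1307316)
(.leaf 1567925056925508040278327)))
(.node (.node (.leaf 484287851834629021772)
(.leaf 4410340936746478107663581352))
(.leaf 595060)))))
(.node (.node (.node (.node (.node (.leaf 12028442427474)
(.leaf 6125039868))
(.node (.leaf 40258550657675772)
(.leaf 4463886643)))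
(.node (.node (.leaf 109514179837141324)
(.leaf 760))
(.leaf 1594222)))
(.node (.node (.node (.leaf 89811756806267130)
(.leaf 1999332))
(.node (.leaf 1495672)
(.leaf 802)))
(.node (.node (.leaf 456609290924772663368)
(.leaf 18809721431))
(.leaf 1479758))))
(.node (.node (.node (.node (.leaf 8316482773148)
(.leaf 6125080974))
(.node (.leaf 38492035989660)
(.leaf 7115084155)))
(.node (.node (.leaf 29075067961724)
(.leaf 942))
(.leaf 226278)))
(.node (.node (.node (.leaf 21926664937772)
(.leaf 27428955382334))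
(.node (.leaf 602866)
(.leaf 1626446)))
(.node (.node (.leaf 360)
(.leaf 872506))
(.leaf 419500156)))))))))
(.node (.node (.node (.node (.node (.node (.node (.node (.node (.leaf 7)
(.leaf 1929441312))
(.node (.leaf 432)
(.leaf 667722)))
(.node (.node (.leaf 19588993532188)
(.leaf 604))
(.node (.leaf 602878)
(.leaf 1779658986))))
(.node (.node (.node (.leaf 5291886330024)
(.leaf 25566398128242))
(.node (.leaf 41385489275716128)
(.leaf 1356150)))
(.node (.node (.leaf 21376271303054)
(.leaf 958))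
(.leaf 226288))))
(.node (.node (.node (.node (.leaf 5291718598742)
(.leaf 4681773278))
(.node (.leaf 48705899247682020)
(.leaf 1700114)))
(.node (.node (.leaf 109520090484162892)
(.leaf 776))
(.leaf 750458)))
(.node (.node (.node (.leaf 97694705287119082)
(.leaf 12789928083944))
(.node (.leaf 463492)
(.leaf 75)))
(.node (.node (.leaf 456609290924772450326)
(.leaf 1138))
(.leaf 1143894)))))
(.node (.node (.node (.node (.node (.leaf 5291718615046)
(.leaf 1996828826))
(.node (.leaf 32855864189352)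
(.leaf 463012)))
(.node (.node (.leaf 22887361683468)
(.leaf 696))
(.node (.leaf 496446)
(.leaf 61))))
(.node (.node (.node (.leaf 50957899446386900)
(.leaf 366))
(.node (.leaf 95440980960072270)
(.leaf 1316388429458808661088170356)))
(.node (.node (.leaf 27425397694888)
(.leaf 1044))
(.leaf 1135658))))
(.node (.node (.node (.node (.leaf 12028442427510)
(.leaf 6125162884))
(.node (.leaf 2118147)
(.leaf 5571346729)))
(.node (.node (.leaf 27286683484516)
(.leaf 874))
(.leaf 1487796)))
(.node (.node (.node (.leaf 117403040542507284)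
(.leaf 22411292500486))
(.node (.leaf 619200)
(.leaf 303636828)))
(.node (.node (.leaf 484287851834628816924)
(.leaf 1204388))
(.leaf 54394))))))
(.node (.node (.node (.node (.node (.node (.leaf 11478619496478)
(.leaf 2466533454))
(.node (.leaf 1937879)
(.leaf 2080694361)))
(.node (.node (.leaf 27562635321652)
(.leaf 650))
(.node (.leaf 1471262)
(.leaf 30))))
(.node (.node (.node (.leaf 9965079158972)
(.leaf 158))
(.node (.leaf 2363967)
(.leaf 1618320)))
(.node (.node (.leaf 25088330088850)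
(.leaf 1004))
(.leaf 1135628))))
(.node (.node (.node (.node (.leaf 10102921027592)
(.leaf 5017432372))
(.node (.leaf 101050349344694758)
(.leaf 1700156)))
(.node (.node (.leaf 22888368415068)
(.leaf 836))
(.leaf 840598)))
(.node (.node (.node (.leaf 15190847488260)
(.leaf 22823072424422))
(.node (.leaf 1741472)
(.leaf 79377874256363626)))
(.node (.node (.leaf 456609293124366147610)
(.leaf 18206863484))
(.leaf 21724865195056783566180794374)))))
(.node (.node (.node (.node (.node (.leaf 7216770146380)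
(.leaf 5017555256))
(.node (.leaf 2068983)
(.leaf 782526)))
(.node (.node (.leaf 25088700833804)
(.leaf 736))
(.node (.leaf 742236)
(.leaf 348))))
(.node (.node (.node (.leaf 71793234155290852)
(.leaf 13476652990924))
(.node (.leaf 299620)
(.leaf 185)))
(.node (.node (.leaf 428932981814863110150)
(.leaf 1100))
(.leaf 185408))))
(.node (.node (.node (.node (.leaf 59966610932875400)
(.leaf 5722386786))
(.node (.leaf 102198789844050442)
(.leaf 5051306266)))
(.node (.node (.leaf 21376271384950)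
(.leaf 920))
(.leaf 95186)))
(.node (.node (.node (.leaf 21100722389274)
(.leaf 16776698192414))
(.node (.leaf 14181734903023807671816912910)
(.leaf 74040)))
(.node (.node (.leaf 481981446012934471768)
(.leaf 3092762578972))
(.leaf 85185849450927760787798375841914)))))))
(.node (.node (.node (.node (.node (.node (.node (.leaf 1580967460892)
(.leaf 1392824488))
(.node (.leaf 35753713777471932)
(.leaf 2735444072)))
(.node (.node (.leaf 25638489964842)
(.leaf 628))
(.node (.leaf 1217294)
(.leaf 121))))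
(.node (.node (.node (.leaf 45889837500227770)
(.leaf 25566398161016))
(.node (.leaf 104451689504989726)
(.leaf 6644998449)))
(.node (.node (.leaf 25088330088846)
(.leaf 982))
(.leaf 1676288))))
(.node (.node (.node (.node (.leaf 59966610932875366)
(.leaf 20414601474468))
(.node (.leaf 59967097339363820)
(.leaf 1544486)))
(.node (.node (.leaf 23850676093270)
(.leaf 798))
(.leaf 742280)))
(.node (.node (.node (.leaf 24950086926582)
(.leaf 24125855838718))
(.node (.leaf 1495698)
(.leaf 3759452238)))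
(.node (.node (.leaf 458915697296390856776)
(.leaf 17736569164))
(.leaf 1217630)))))
(.node (.node (.node (.node (.node (.leaf 5704874827782)
(.leaf 2433200316))
(.node (.leaf 88129300542120402)
(.leaf 503994)))
(.node (.node (.leaf 24951228211212)
(.leaf 718))
(.node (.leaf 1397580)
(.leaf 1278237))))
(.node (.node (.node (.leaf 20551906328580)
(.leaf 428))
(.node (.leaf 1479252)
(.leaf 672117)))
(.node (.node (.leaf 431239383512416927764)
(.leaf 1072))
(.leaf 160824))))
(.node (.node (.node (.node (.leaf 12715536523388)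
(.leaf 25088700608938))
(.node (.leaf 39695463231779340)
(.leaf 1708384)))
(.node (.node (.leaf 25775828263282)
(.leaf 894))
(.leaf 1479618)))
(.node (.node (.node (.leaf 83617244626591754)
(.leaf 8667699249696))
(.node (.leaf 602832)
(.leaf 79403160204239150)))
(.node (.node (.leaf 458915697571402792988)
(.leaf 2302371))
(.leaf 83758581682920030883864896651272))))))
(.node (.node (.node (.node (.node (.node (.leaf 3092729143350)
(.leaf 2533953720))
(.node (.leaf 52083460992238028)
(.leaf 1594130561)))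
(.node (.node (.leaf 20551401750848)
(.leaf 672))
(.node (.leaf 693038)
(.leaf 1077))))
(.node (.node (.node (.leaf 14777020121276)
(.leaf 172))
(.node (.leaf 40416785465552)
(.leaf 7047577919)))
(.node (.node (.leaf 27286851215780)
(.leaf 1024))
(.leaf 603164))))
(.node (.node (.node (.node (.leaf 10379074437128)
(.leaf 6124826922))
(.node (.leaf 113452428189196778)
(.leaf 5537681716)))
(.node (.node (.leaf 20688875184484)
(.leaf 858))
(.leaf 734116)))
(.node (.node (.node (.leaf 27287757406474)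
(.leaf 8728934027784))
(.node (.leaf 602800)
(.leaf 5094180650012971)))
(.node (.node (.leaf 456609291474763374668)
(.leaf 1818821))
(.leaf 611440)))))
(.node (.node (.node (.node (.node (.leaf 11478619496526)
(.leaf 3775811806))
(.node (.leaf 32374914209952240)
(.leaf 4430405937)))
(.node (.node (.leaf 25913334325578)
(.leaf 754))
(.leaf 365420)))
(.node (.node (.node (.leaf 21926463807738)
(.leaf 6561800654))
(.node (.leaf 1667700)
(.leaf 654)))
(.node (.node (.leaf 431239384887074897940)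
(.leaf 76776719302682))
(.leaf 1496138))))
(.node (.node (.node (.node (.leaf 8315711062172)
(.leaf 6091518348))
(.node (.leaf 2282027)
(.leaf 1323295)))
(.node (.node (.leaf 25088162316668)
(.leaf 938))
(.leaf 1479650)))
(.node (.node (.node (.leaf 21376036561196)
(.leaf 27154077459006))
(.node (.leaf 619246)
(.leaf 1626346)))
(.node (.node (.leaf 357)
(.leaf 856120))
(.leaf 721530986))))))))
(.node (.node (.node (.node (.node (.node (.node (.node (.leaf 2955390918658)
(.leaf 1929842822))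
(.node (.leaf 91499231404814772)
(.leaf 757850)))
(.node (.node (.leaf 25501017456934)
(.leaf 616))
(.node (.leaf 619270)
(.leaf 106))))
(.node (.node (.node (.leaf 10102249676970)
(.leaf 25978782105716))
(.node (.leaf 92625406257107486)
(.leaf 1356156)))
(.node (.node (.leaf 25087055880590)
(.leaf 970))
(.leaf 1569784))))
(.node (.node (.node (.node (.leaf 13677709869150)
(.leaf 5554606434))
(.node (.leaf 54898348735316456)
(.leaf 1732886)))
(.node (.node (.leaf 19588959977806)
(.leaf 790))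
(.leaf 365442)))
(.node (.node (.node (.leaf 23438894874878)
(.leaf 14501556486636))
(.node (.leaf 471692)
(.leaf 5168079228)))
(.node (.node (.leaf 456609293536783867976)
(.leaf 19180638462))
(.leaf 1258586)))))
(.node (.node (.node (.node (.node (.leaf 21678590047518726)
(.leaf 2466721962))
(.node (.leaf 87559341134963142)
(.leaf 692392)))
(.node (.node (.leaf 96005855359762444)
(.leaf 706))
(.node (.leaf 734022)
(.leaf 491))))
(.node (.node (.node (.leaf 17389769965572)
(.leaf 412))
(.node (.leaf 112333127164387902)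
(.leaf 2786550058)))
(.node (.node (.leaf 431239389698678890502)
(.leaf 1054))
(.leaf 594994))))
(.node (.node (.node (.node (.leaf 12301541539964)
(.leaf 6125154712))
(.node (.leaf 2183699)
(.leaf 1618260)))
(.node (.node (.leaf 22200368103782)
(.leaf 884))
(.leaf 103356)))
(.node (.node (.node (.leaf 119092302820303126)
(.leaf 2971861532))
(.node (.leaf 1356488)
(.leaf 15468559704298)))
(.node (.node (.leaf 458915697571402997836)
(.leaf 12238812693002))
(.leaf 22189508379521161950190010376))))))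
(.node (.node (.node (.node (.node (.node (.leaf 12715536523310)
(.leaf 2533953698))
(.node (.leaf 35190626351641036)
(.leaf 872584)))
(.node (.node (.leaf 27287891624248)
(.leaf 662))
(.node (.leaf 348966)
(.leaf 814))))
(.node (.node (.node (.leaf 9965817585852)
(.leaf 204))
(.node (.leaf 40416651215002)
(.leaf 1626514)))
(.node (.node (.leaf 27287891624354)
(.leaf 1014))
(.leaf 594964))))
(.node (.node (.node (.node (.leaf 10379074347016)
(.leaf 1151201))
(.node (.leaf 101632540885869030)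
(.leaf 905468)))
(.node (.node (.leaf 117403040542507360)
(.leaf 848))
(.leaf 17857766863392604776278392888)))
(.node (.node (.node (.leaf 25087760761098)
(.leaf 21036298904042))
(.node (.leaf 1217192)
(.leaf 71503034538574172)))
(.node (.node (.leaf 456609287900377301020)
(.leaf 75263649292422))
(.leaf 21802330917905838192662503500)))))
(.node (.node (.node (.node (.node (.leaf 5291953438800)
(.leaf 20551906201998))
(.node (.leaf 31811689277993444)
(.leaf 864470)))
(.node (.node (.leaf 20138918035786)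
(.leaf 744))
(.leaf 1487716)))
(.node (.node (.node (.leaf 21376540197100)
(.leaf 23850877243870))
(.node (.leaf 316012)
(.leaf 602)))
(.node (.node (.leaf 431239390386007875590)
(.leaf 76226127220752))
(.leaf 1102916))))
(.node (.node (.node (.node (.leaf 8179010265242)
(.leaf 6091477364))
(.node (.leaf 2216475)
(.leaf 6661919068)))
(.node (.node (.leaf 25088162316662)
(.leaf 930))
(.leaf 119770)))
(.node (.node (.node (.leaf 21375700959518)
(.leaf 3374629436))
(.node (.leaf 602854)
(.leaf 25)))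
(.node (.node (.leaf 481981446012934291500)
(.leaf 692254))
(.leaf 86296823708944784724541872365692)))))))
(.node (.node (.node (.node (.node (.node (.node (.leaf 17173066342318106)
(.leaf 2466721870))
(.node (.leaf 1872327)
(.leaf 684148)))
(.node (.node (.leaf 20551401750836)
(.leaf 638))
(.node (.leaf 643862)
(.leaf 397))))
(.node (.node (.node (.leaf 60531623276159162)
(.leaf 25703870677114))
(.node (.leaf 564)
(.leaf 6678642995)))
(.node (.node (.leaf 27150284898704)
(.leaf 994))
(.leaf 62472))))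
(.node (.node (.node (.node (.leaf 14777456468074)
(.leaf 6091477286))
(.node (.leaf 96004068385739242)
(.leaf 1618226)))
(.node (.node (.leaf 19588959977820)
(.leaf 820))
(.leaf 1274768)))
(.node (.node (.node (.leaf 18489818710268)
(.leaf 16775758438886))
(.node (.leaf 545434)
(.leaf 394901790205354429081882587815472812301)))
(.node (.node (.leaf 463528506327768637458)
(.leaf 79113986498674))
(.leaf 78946)))))
(.node (.node (.node (.node (.node (.leaf 23367715692281862)
(.leaf 4245549308))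
(.node (.leaf 2003431)
(.leaf 3154403417)))
(.node (.node (.leaf 24951194738700)
(.leaf 728))
(.node (.leaf 734036)
(.leaf 284))))
(.node (.node (.node (.leaf 84180607803383812)
(.leaf 23163548225982))
(.node (.leaf 1692252)
(.leaf 24)))
(.node (.node (.leaf 438158042289160626182)
(.leaf 304332531926409306))
(.leaf 185404))))
(.node (.node (.node (.node (.leaf 13677709869184)
(.leaf 5554483542))
(.node (.leaf 101613299835118086)
(.leaf 3876851936)))
(.node (.node (.leaf 25913334325620)
(.leaf 906))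
(.leaf 1692618)))
(.node (.node (.node (.leaf 19727172132874)
(.leaf 24263328354866))
(.node (.leaf 611032)
(.leaf 5087991837630678)))
(.node (.node (.leaf 463528509627209547810)
(.leaf 18064757638960527215122525745616))
(.leaf 300160))))))
(.node (.node (.node (.node (.node (.node (.leaf 16610116388888634)
(.leaf 1459785850))
(.node (.leaf 32031029109094)
(.leaf 889266307)))
(.node (.node (.leaf 119092302820303168)
(.leaf 686))
(.node (.leaf 1741622)
(.leaf 265))))
(.node (.node (.node (.leaf 47576625105158336)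
(.leaf 382))
(.node (.leaf 93188631189213754)
(.leaf 6360207782)))
(.node (.node (.leaf 119092302820303268)
(.leaf 70998511845452))
(.leaf 54306))))
(.node (.node (.node (.node (.leaf 9965549150322)
(.leaf 25088700281152))
(.node (.leaf 102202637597778410)
(.leaf 5571064072)))
(.node (.node (.leaf 22063700025700)
(.leaf 866))
(.leaf 832428)))
(.node (.node (.node (.leaf 18214906896654)
(.leaf 22476152058374))
(.node (.leaf 611000)
(.leaf 1243696447757)))
(.node (.node (.leaf 479675037029338357786)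
(.leaf 9044816330))
(.leaf 283766)))))
(.node (.node (.node (.node (.node (.leaf 5291718598740)
(.leaf 3775811850))
(.node (.leaf 42505203557024228)
(.leaf 4463993139)))
(.node (.node (.leaf 109518852761616716)
(.leaf 764))
(.leaf 742258)))
(.node (.node (.node (.leaf 21101897146624)
(.leaf 5643169645028))
(.node (.leaf 1487484)
(.leaf 826)))
(.node (.node (.leaf 456609293124366114834)
(.leaf 77319832514902))
(.leaf 136274))))
(.node (.node (.node (.node (.leaf 13128558256284)
(.leaf 6125080978))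
(.node (.leaf 49831800094261788)
(.leaf 1347956)))
(.node (.node (.leaf 24950288310668)
(.leaf 948))
(.leaf 19328179647540123618063253532)))
(.node (.node (.node (.leaf 21376741630252)
(.leaf 592))
(.node (.leaf 1250038)
(.leaf 21375667720493)))
(.node (.node (.leaf 362)
(.leaf 340037))
(.leaf 419541038)))))))))))

def h : Tr Nat := (.node (.node (.node (.node (.node (.node (.node (.node (.node (.node (.node (.leaf 0)
(.leaf 7785021444))
(.node (.leaf 0)
(.leaf 277840790018)))
(.node (.node (.leaf 0)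
(.leaf 183365207199))
(.node (.leaf 0)
(.leaf 636565883890954989779518443681057549012467386219272537089383101852084211229057536580186790904940533389610998741917086789678526362948146064457519268431718613513319833279852724190600567524747566209322537362625018800657949812056201594968461112931079579730483051692134013105961474645046672325727804568386304453159307069301899023335770490977228471161384369789694437657897579924759227477968130374771410612))))
(.node (.node (.node (.leaf 0)
(.leaf 109253885958))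
(.node (.leaf 0)
(.leaf 26523580887074079228)))
(.node (.node (.leaf 0)
(.leaf 233294070272))
(.leaf 0))))
(.node (.node (.node (.node (.leaf 0)
(.leaf 59861237762))
(.node (.leaf 0)
(.leaf 15787878987681170598)))
(.node (.node (.leaf 0)
(.leaf 207241806331))
(.leaf 0)))
(.node (.node (.node (.leaf 0)
(.leaf 41652297934521172525))
(.node (.leaf 0)
(.leaf 424140080820)))
(.node (.node (.leaf 0)
(.leaf 5110020021340232772307967401417180426))
(.leaf 0)))))
(.node (.node (.node (.node (.node (.leaf 0)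
(.leaf 28185985027))
(.node (.leaf 0)
(.leaf 284820111874)))
(.node (.node (.leaf 0)
(.leaf 196504388091))
(.node (.leaf 0)
(.leaf 259918399261))))
(.node (.node (.node (.leaf 0)
(.leaf 81215224212460602527))
(.node (.leaf 0)
(.leaf 112497787388)))
(.node (.node (.leaf 0)
(.leaf 246165209599))
(.leaf 0))))
(.node (.node (.node (.node (.leaf 0)
(.leaf 79994421254))
(.node (.leaf 0)
(.leaf 86460138660)))
(.node (.node (.leaf 0)
(.leaf 221214606495))
(.leaf 0)))
(.node (.node (.node (.leaf 0)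
(.leaf 12071620194226437693112386147))
(.node (.leaf 0)
(.leaf 4786800632897277703967209392706678676233791170890557656500102440088818751915021619450534130226813891836352618425564151418612534906411737100633720535333906313285984717947165551619416095035019756838499534699210565821466332196806618817904371457477477347302933577597966980218993874354907685104157214426370475710)))
(.node (.node (.leaf 0)
(.leaf 1761878992156381418606506597299994652605482153))
(.leaf 0))))))
(.node (.node (.node (.node (.node (.node (.leaf 0)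
(.leaf 17716740097))
(.node (.leaf 0)
(.leaf 7136411144391164411)))
(.node (.node (.leaf 0)
(.leaf 189538959870))
(.node (.leaf 0)
(.leaf 451265955600))))
(.node (.node (.node (.leaf 0)
(.leaf 31777539709557014531))
(.node (.leaf 0)
(.leaf 308724696228)))
(.node (.node (.leaf 0)
(.leaf 239736390142))
(.leaf 0))))
(.node (.node (.node (.node (.leaf 0)
(.leaf 71403962370))
(.node (.leaf 0)
(.leaf 19822259827260916218)))
(.node (.node (.leaf 0)
(.leaf 214776218795))
(.leaf 0)))
(.node (.node (.node (.leaf 0)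
(.leaf 161084932608))
(.node (.leaf 0)
(.leaf 653803569143421690312899298443535051975689922)))
(.node (.node (.leaf 0)
(.leaf 1409397507610566064156789511756285795279306757))
(.leaf 0)))))
(.node (.node (.node (.node (.node (.leaf 0)
(.leaf 45365723138))
(.node (.leaf 0)
(.leaf 286698570233)))
(.node (.node (.leaf 0)
(.leaf 202141532667))
(.node (.leaf 0)
(.leaf 443205486384))))
(.node (.node (.node (.leaf 0)
(.leaf 143373828622))
(.node (.leaf 0)
(.leaf 413401286319)))
(.node (.node (.leaf 0)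
(.leaf 4907814540383843159020649558587278684))
(.leaf 0))))
(.node (.node (.node (.node (.leaf 0)
(.leaf 90194444290))
(.node (.leaf 0)
(.leaf 93975609850)))
(.node (.node (.leaf 0)
(.leaf 227105899001))
(.leaf 0)))
(.node (.node (.node (.leaf 0)
(.leaf 12593885641383568835327099511))
(.node (.leaf 0)
(.leaf 881679332660784131471338984476341506295440706278935376820230836072164104391960362364417930857004685444603516378619318052298990921354118834)))
(.node (.node (.leaf 0)
(.leaf 4828111042921094836291382346058279295842004809471842041192071386940044612338323))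
(.leaf 0)))))))
(.node (.node (.node (.node (.node (.node (.node (.leaf 0)
(.leaf 11542986755))
(.node (.leaf 0)
(.leaf 1432086007097812186568656020)))
(.node (.node (.leaf 0)
(.leaf 186589316262))
(.node (.leaf 0)
(.leaf 1006175861844141390210598664))))
(.node (.node (.node (.leaf 0)
(.leaf 30984906175139807235))
(.node (.leaf 0)
(.leaf 27460364795281277434)))
(.node (.node (.leaf 0)
(.leaf 236518442147))
(.leaf 0))))
(.node (.node (.node (.node (.leaf 0)
(.leaf 64156598277))
(.node (.leaf 0)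
(.leaf 294496895482)))
(.node (.node (.leaf 0)
(.leaf 210731336185))
(.leaf 0)))
(.node (.node (.node (.leaf 0)
(.leaf 157603004973))
(.node (.leaf 0)
(.leaf 836523556099554457312443965809205391947727185972299519326643506070108232423803956505295414783456523713332265974541103514150733128407661973656031384198915270655539984855477857856305152127655740047167375653777919089605392299477687329723906275401115111713888231698693108886197945115387827380411082661454476252220337260397313864906432620992585519557320051899182189531165953226213477651561743358996548967264324605334436802109019560982570686476506730464962)))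
(.node (.node (.leaf 0)
(.leaf 373459068064337767006694428240528052086250188204015620))
(.leaf 0)))))
(.node (.node (.node (.node (.node (.leaf 0)
(.leaf 37581225987))
(.node (.leaf 0)
(.leaf 36516856315)))
(.node (.node (.leaf 0)
(.leaf 199188742651))
(.node (.leaf 0)
(.leaf 23716602969149956905705801511))))
(.node (.node (.node (.leaf 0)
(.leaf 81071179573786117284))
(.node (.leaf 0)
(.leaf 457438398030)))
(.node (.node (.leaf 0)
(.leaf 1292294775412315075726241710899826325551841285))
(.leaf 0))))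
(.node (.node (.node (.node (.leaf 0)
(.leaf 82141904902))
(.node (.leaf 0)
(.leaf 24001600281460736506)))
(.node (.node (.leaf 0)
(.leaf 224170673322))
(.leaf 0)))
(.node (.node (.node (.leaf 0)
(.leaf 172076630521))
(.node (.leaf 0)
(.leaf 68148288643148786592014981643572418926130571541656820959009031646799150766186380716372106377408539955808876964792868054327471818252986309821038079757626880811354302340856855112857461760201543226293278460926561194357170874320291186664882201660450883991894798040650500844868595022458609975880908864747692742323835366561816924718069951548005751254800161817012465424611735783173767229419099424173165950109652462634643140679453647799284822630980127130088574197195481876152)))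
(.node (.node (.leaf 0)
(.leaf 33647612994775962562369356956309381910269518726900949455329241705349680))
(.leaf 0))))))
(.node (.node (.node (.node (.node (.node (.leaf 0)
(.leaf 23891148804))
(.node (.leaf 0)
(.leaf 31685345793)))
(.node (.node (.leaf 0)
(.leaf 193028620798))
(.node (.leaf 0)
(.leaf 238372587284))))
(.node (.node (.node (.leaf 0)
(.leaf 75518909554294718975))
(.node (.leaf 0)
(.leaf 83089566264914281637)))
(.node (.node (.leaf 0)
(.leaf 242690753701))
(.leaf 0))))
(.node (.node (.node (.node (.leaf 0)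
(.leaf 77846937606))
(.node (.leaf 0)
(.leaf 299597890724)))
(.node (.node (.leaf 0)
(.leaf 218786759831))
(.leaf 0)))
(.node (.node (.node (.leaf 0)
(.leaf 163232547999))
(.node (.leaf 0)
(.leaf 4744093283913114379533543392049816577567029969665640299223194030970164716300210346395419597657830693238212470720619964412849686212)))
(.node (.node (.leaf 0)
(.leaf 790453482650220139035263190298444621544817200))
(.leaf 0)))))
(.node (.node (.node (.node (.node (.leaf 0)
(.leaf 47513206786))
(.node (.leaf 0)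
(.leaf 14850250652929753596)))
(.node (.node (.leaf 0)
(.leaf 204843320490))
(.leaf 0)))
(.node (.node (.node (.leaf 0)
(.leaf 147937362447))
(.node (.leaf 0)
(.leaf 185762121393)))
(.node (.node (.leaf 0)
(.leaf 18709095245860125494714369416))
(.leaf 0))))
(.node (.node (.node (.node (.leaf 0)
(.leaf 99052814338))
(.node (.leaf 0)
(.leaf 96123093498)))
(.node (.node (.leaf 0)
(.leaf 230866224277))
(.leaf 0)))
(.node (.node (.node (.leaf 0)
(.leaf 180425654929))
(.node (.leaf 0)
(.leaf 45449673291888335397344045453813071047649416303518446269046894163760314878930968483428493853857103342864914989435243615153102402203375511394705901384619689363499145653955302276953326959809060536821909054002868459435084627862607975727487633000629954)))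
(.node (.node (.leaf 0)
(.leaf 1732056406905913849))
(.leaf 0))))))))
(.node (.node (.node (.node (.node (.node (.node (.node (.leaf 0)
(.leaf 10469244931))
(.node (.leaf 0)
(.leaf 279182508539)))
(.node (.node (.leaf 0)
(.leaf 184978834595))
(.node (.leaf 0)
(.leaf 456713623315438098701624235176527798199809138793467356129750088977855315594593487065036841752924274140223404516363864826696329127896799116929523167862547533032555854438416172879686755599011605419288285581420575178878923107458632417545445804811886748832090326607551915267117324619719669325511713136399747398072699829083069731919532847116780108519932241249985))))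
(.node (.node (.node (.leaf 0)
(.leaf 30552560610912239619))
(.node (.leaf 0)
(.leaf 27172134419129696764)))
(.node (.node (.leaf 0)
(.leaf 234904814751))
(.leaf 0))))
(.node (.node (.node (.node (.leaf 0)
(.leaf 63082856453))
(.node (.leaf 0)
(.leaf 4411970142000745953722761722)))
(.node (.node (.leaf 0)
(.leaf 208852419067))
(.leaf 0)))
(.node (.node (.node (.leaf 0)
(.leaf 156507767295))
(.node (.leaf 0)
(.leaf 426686056139943625225221705785537870769138086960474312891241268323996106398581396408469018763090045113898055151879428456233758134495871250869446475207120869937595081770003185868126721410740)))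
(.node (.node (.leaf 0)
(.leaf 265760604665))
(.leaf 0)))))
(.node (.node (.node (.node (.node (.leaf 0)
(.leaf 33823129603))
(.node (.leaf 0)
(.leaf 9370196559566799353)))
(.node (.node (.leaf 0)
(.leaf 197846565371))
(.node (.leaf 0)
(.leaf 264940277915708634232743055935801119))))
(.node (.node (.node (.leaf 0)
(.leaf 80854936242271093924))
(.node (.leaf 0)
(.leaf 6028469648544585110811251846263604718)))
(.node (.node (.leaf 0)
(.leaf 247507386879))
(.leaf 0))))
(.node (.node (.node (.node (.leaf 0)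
(.leaf 81068163078))
(.node (.leaf 0)
(.leaf 23497197123195240954)))
(.node (.node (.leaf 0)
(.leaf 222826923177))
(.leaf 0)))
(.node (.node (.node (.leaf 0)
(.leaf 168601257119))
(.node (.leaf 0)
(.leaf 841287573457778532707502702570245153150878580293987696785946712372852960558983678658262)))
(.node (.node (.leaf 0)
(.leaf 61980446044356470703091504657794030153488376729308136051180132))
(.leaf 0))))))
(.node (.node (.node (.node (.node (.node (.leaf 0)
(.leaf 22817406980))
(.node (.leaf 0)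
(.leaf 7784894306091860473)))
(.node (.node (.leaf 0)
(.leaf 13833176285924994900799325458))
(.node (.leaf 0)
(.leaf 414206986003))))
(.node (.node (.node (.leaf 0)
(.leaf 75663024742370312699))
(.node (.leaf 0)
(.leaf 107666539684)))
(.node (.node (.leaf 0)
(.leaf 241348445344))
(.leaf 0))))
(.node (.node (.node (.node (.leaf 0)
(.leaf 74356752386))
(.node (.leaf 0)
(.leaf 5475824863261619627464196602)))
(.node (.node (.leaf 0)
(.leaf 216907580565))
(.leaf 0)))
(.node (.node (.node (.leaf 0)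
(.leaf 43529876767206605358))
(.node (.leaf 0)
(.leaf 20426421529978187439983429314)))
(.node (.node (.leaf 0)
(.leaf 5271300673667465423608848422238225765))
(.leaf 0)))))
(.node (.node (.node (.node (.node (.leaf 0)
(.leaf 12466139692032720898))
(.node (.leaf 0)
(.leaf 43764941313)))
(.node (.node (.leaf 0)
(.leaf 203483972095))
(.node (.leaf 0)
(.leaf 273281118695209866460254416002635417167529780))))
(.node (.node (.node (.leaf 0)
(.leaf 38913774930496520718))
(.node (.leaf 0)
(.leaf 235956274864)))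
(.node (.node (.leaf 0)
(.leaf 257184825856))
(.leaf 0))))
(.node (.node (.node (.node (.leaf 0)
(.leaf 93147234306))
(.node (.leaf 0)
(.leaf 95049351674)))
(.node (.node (.leaf 0)
(.leaf 229255611541))
(.leaf 0)))
(.node (.node (.node (.leaf 0)
(.leaf 175848882688))
(.node (.leaf 0)
(.leaf 475735872595060951617615681700608218593992709675424607323423029241519717144146574867325731983542768139092751711573432321953465306252957733967414265580299268518724306791222398206274586468639906834913981666030585323332685660986738365)))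
(.node (.node (.leaf 0)
(.leaf 4305060354))
(.leaf 0)))))))
(.node (.node (.node (.node (.node (.node (.node (.leaf 0)
(.leaf 12616728579))
(.node (.leaf 0)
(.leaf 280256250363)))
(.node (.node (.leaf 0)
(.leaf 188465611940))
(.node (.leaf 0)
(.leaf 412590868233))))
(.node (.node (.node (.leaf 0)
(.leaf 31345194145329446915))
(.node (.leaf 0)
(.leaf 308187694239)))
(.node (.node (.leaf 0)
(.leaf 238128923814))
(.leaf 0))))
(.node (.node (.node (.node (.leaf 0)
(.leaf 65230340101))
(.node (.leaf 0)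
(.leaf 296913536164)))
(.node (.node (.leaf 0)
(.leaf 212896384170))
(.leaf 0)))
(.node (.node (.node (.leaf 0)
(.leaf 11530011982162002895475638830))
(.node (.leaf 0)
(.leaf 629988899641622676215227204270391543677759771335358147883167317257997504252134505177275083261635)))
(.node (.node (.leaf 0)
(.leaf 376084107730343701309665910793243734564881712210640900))
(.leaf 0)))))
(.node (.node (.node (.node (.node (.leaf 0)
(.leaf 42413195268))
(.node (.leaf 0)
(.leaf 10234887688021934585)))
(.node (.node (.leaf 0)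
(.leaf 200799355387))
(.node (.leaf 0)
(.leaf 166024167370787604861221025670457380882401025086074643350685377))))
(.node (.node (.node (.leaf 0)
(.leaf 139346117123))
(.node (.leaf 0)
(.leaf 83197481935889715372062447095910844223236980603171472366878050559336014758720424940304704083533025130827220360762214068309764366820595757532733638466837692706709845833659908282759844758267224242321711248928004982551813661650641027956118270502923247491231011640825893904119188984696497145724169661724831595826562673605046903680272044)))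
(.node (.node (.leaf 0)
(.leaf 251265090041))
(.leaf 0))))
(.node (.node (.node (.node (.leaf 0)
(.leaf 83215646726))
(.node (.leaf 0)
(.leaf 6694450423920398983781024250)))
(.node (.node (.leaf 0)
(.leaf 225226850809))
(.leaf 0)))
(.node (.node (.node (.leaf 0)
(.leaf 46479857489125245558))
(.node (.leaf 0)
(.leaf 3431585094106968951741639747303936229033891573750667283940280129238202186764887849738521195757209854942725512220108352222411960966732722344804878834163286487680679396073708918909108172630508591186195729444312725412330604717249755777998673553944157005350584)))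
(.node (.node (.leaf 0)
(.leaf 48643186352458499231))
(.leaf 0))))))
(.node (.node (.node (.node (.node (.node (.leaf 0)
(.leaf 24964890628))
(.node (.leaf 0)
(.leaf 32759087617)))
(.node (.node (.leaf 0)
(.leaf 194911208618))
(.node (.leaf 0)
(.leaf 7613158399004844550069120265359001369))))
(.node (.node (.node (.leaf 0)
(.leaf 75879267894302278143))
(.node (.leaf 0)
(.leaf 111155479034)))
(.node (.node (.leaf 0)
(.leaf 244034372769))
(.leaf 0))))
(.node (.node (.node (.node (.leaf 0)
(.leaf 78920679430))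
(.node (.leaf 0)
(.leaf 22704528403063767546)))
(.node (.node (.leaf 0)
(.leaf 220128937111))
(.leaf 0)))
(.node (.node (.node (.leaf 0)
(.leaf 166463472226))
(.node (.leaf 0)
(.leaf 34338848832508929419124073254329863339533107172882565946978198855937441815065908957432002340002610297148100398312791159792504779341809427633994582735696388146253315173938648367251296410971465066566944991638977617189773574804088766697469666094302263849038885161661550354448860253464140735554661731115545369088693824117784084876348807164981328140535086941032614235753725948249490683656563285037415581598583081572606810408355363003395069673673096791555459601482105606676103233685846608101410046036408157221865726041913044400129852769015112943625275669172664985222473786523385263936916843787724297235728065)))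
(.node (.node (.leaf 0)
(.leaf 748507893706822649504427250767304468442120705))
(.leaf 0)))))
(.node (.node (.node (.node (.node (.leaf 0)
(.leaf 55029923846))
(.node (.leaf 0)
(.leaf 15426711405233046010)))
(.node (.node (.leaf 0)
(.leaf 205899497977))
(.leaf 0)))
(.node (.node (.node (.leaf 0)
(.leaf 153308037677))
(.node (.leaf 0)
(.leaf 23230827287507705905345005234)))
(.node (.node (.leaf 0)
(.leaf 5063793877358897572774463290937771419))
(.leaf 0))))
(.node (.node (.node (.node (.leaf 0)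
(.leaf 105495658501))
(.node (.leaf 0)
(.leaf 97196966396)))
(.node (.node (.leaf 0)
(.leaf 231941538968))
(.leaf 0)))
(.node (.node (.node (.leaf 0)
(.leaf 48933334121478161041))
(.node (.leaf 0)
(.leaf 12892912745235469111369638566972820302244778528564928889186903066658143137478092507336535677627801304508078695702452422945017478681814194154388204261006845904697885666895378718478934934600616007320258768972102095456627277454085972939228995361048310)))
(.node (.node (.leaf 0)
(.leaf 8599896577))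
(.leaf 648623900531359745)))))))))
(.node (.node (.node (.node (.node (.node (.node (.node (.node (.leaf 0)
(.leaf 9932374019))
(.node (.leaf 0)
(.leaf 14774043138)))
(.node (.node (.leaf 0)
(.leaf 183901815294))
(.node (.leaf 0)
(.leaf 2799196802795049955148298459499028395353042259161340184060004600783610946867200805112434900847767576168234032818273651997955883714547649947571130233244126155310768))))
(.node (.node (.node (.leaf 0)
(.leaf 2191161950923784754704157151588515843))
(.node (.leaf 0)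
(.leaf 100687217828)))
(.node (.node (.leaf 0)
(.leaf 1217108025748110535851015703358259099277983745))
(.leaf 0))))
(.node (.node (.node (.node (.leaf 0)
(.leaf 62545985541))
(.node (.leaf 0)
(.leaf 15931149749212938748)))
(.node (.node (.leaf 0)
(.leaf 208315810303))
(.leaf 0)))
(.node (.node (.node (.leaf 0)
(.leaf 41796113876656259629))
(.node (.leaf 0)
(.leaf 141763741373)))
(.node (.node (.leaf 0)
(.leaf 265223995901))
(.leaf 0)))))
(.node (.node (.node (.node (.node (.leaf 0)
(.leaf 30870470660))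
(.node (.leaf 0)
(.leaf 34369831426)))
(.node (.node (.leaf 0)
(.leaf 197309956607))
(.node (.leaf 0)
(.leaf 24025662964407836726922839838))))
(.node (.node (.node (.leaf 0)
(.leaf 81359374585445418143))
(.node (.leaf 0)
(.leaf 30907149642512374038691082382722759111478083794785109554953021574960968739991675749674945941859681715633550534536724329947794028018142013741398520337073687)))
(.node (.node (.leaf 0)
(.leaf 246701818363))
(.leaf 0))))
(.node (.node (.node (.node (.leaf 0)
(.leaf 80531292166))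
(.node (.leaf 0)
(.leaf 23353504148928529573)))
(.node (.node (.leaf 0)
(.leaf 221739549847))
(.leaf 0)))
(.node (.node (.node (.leaf 0)
(.leaf 168064123390))
(.node (.leaf 0)
(.leaf 2019256812706589812470138070394177589389754686546913222952404793188677210614328781852271171271927806135352787814512612763657553746557143939781417418646148090250236645279759273339850903924641424685374396370394691866472443851458377192781876995398028043686263105324723)))
(.node (.node (.leaf 0)
(.leaf 6065074301977395946609780145842357412))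
(.leaf 0))))))
(.node (.node (.node (.node (.node (.node (.leaf 0)
(.leaf 5980780305416847364))
(.node (.leaf 0)
(.leaf 28463661561)))
(.node (.node (.leaf 0)
(.leaf 190616110248))
(.node (.leaf 0)
(.leaf 755717050068903713770577743856445135773220980399714704300721482022565458071702482783836598241033))))
(.node (.node (.node (.leaf 0)
(.leaf 31921654897632870403))
(.node (.leaf 0)
(.leaf 308993000607)))
(.node (.node (.leaf 0)
(.leaf 240812098729))
(.leaf 0))))
(.node (.node (.node (.node (.leaf 0)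
(.leaf 72477704194))
(.node (.leaf 0)
(.leaf 75185127930)))
(.node (.node (.leaf 0)
(.leaf 216370971802))
(.leaf 0)))
(.node (.node (.node (.leaf 0)
(.leaf 161621935263))
(.node (.leaf 0)
(.leaf 2493385587457150734156074286085702112533587647901679409057984002926256609628338536015114963241885526247263951186426396155973514235086397336829965175478461498492341202212455368315417096036940277059800534480647153561782806644884600911756304422899677058539870607945118841369959000753034821614316353210825833828642334850682829731905246530058526431431812736181654728859917468273799016454157921856877233859)))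
(.node (.node (.leaf 0)
(.leaf 19598099621472019686548243789))
(.leaf 0)))))
(.node (.node (.node (.node (.node (.leaf 0)
(.leaf 45902594050))
(.node (.leaf 0)
(.leaf 286967136763)))
(.node (.node (.leaf 0)
(.leaf 3926303103370480665204202476232049967))
(.node (.leaf 0)
(.leaf 653825354837138119173588193544782728734967602))))
(.node (.node (.node (.leaf 0)
(.leaf 144447570446))
(.node (.leaf 0)
(.leaf 422528091823)))
(.node (.node (.leaf 0)
(.leaf 256648217764))
(.leaf 0))))
(.node (.node (.node (.node (.leaf 0)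
(.leaf 92074016774))
(.node (.leaf 0)
(.leaf 306576491002)))
(.node (.node (.leaf 0)
(.leaf 228720444571))
(.leaf 0)))
(.node (.node (.node (.leaf 0)
(.leaf 175323546231))
(.node (.leaf 0)
(.leaf 1700217049308230122126803924469747418130400749311993189876852881736558040477535217535167479408222247553492873234677753320142999426472704844912437263663498664190779958817996336333817408226782500593730260633432913293370263219)))
(.node (.node (.leaf 0)
(.leaf 24624803716456294251234133156))
(.leaf 0)))))))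
(.node (.node (.node (.node (.node (.node (.node (.leaf 0)
(.leaf 12079857667))
(.node (.leaf 0)
(.leaf 1470781078130538838396699798)))
(.node (.node (.leaf 0)
(.leaf 187663320232))
(.node (.leaf 0)
(.leaf 20639560906512669148094990088))))
(.node (.node (.node (.leaf 0)
(.leaf 31129021363215663107))
(.node (.leaf 0)
(.leaf 103103005855)))
(.node (.node (.leaf 0)
(.leaf 237592446122))
(.leaf 0))))
(.node (.node (.node (.node (.leaf 0)
(.leaf 64693469189))
(.node (.leaf 0)
(.leaf 68474241530)))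
(.node (.node (.leaf 0)
(.leaf 211282362880))
(.leaf 0)))
(.node (.node (.node (.leaf 0)
(.leaf 159213748782))
(.node (.leaf 0)
(.leaf 295222277926624437667123481352747383705125789078176547769946577620547796394337798234261984708072)))
(.node (.node (.leaf 0)
(.leaf 1398219231696148085068204841791104729349488644))
(.leaf 0)))))
(.node (.node (.node (.node (.node (.leaf 0)
(.leaf 40534016003))
(.node (.leaf 0)
(.leaf 9946622127229829627)))
(.node (.node (.leaf 0)
(.leaf 200262746623))
(.node (.leaf 0)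
(.leaf 46111211760968229536728651107591517191396948282303975221708569172038220871496122221698213729642398849136272607006))))
(.node (.node (.node (.leaf 0)
(.leaf 21897778749143894772075529380))
(.node (.leaf 0)
(.leaf 3114811574628081633515669027)))
(.node (.node (.leaf 0)
(.leaf 250729137302))
(.leaf 0))))
(.node (.node (.node (.node (.leaf 0)
(.leaf 82678775814))
(.node (.leaf 0)
(.leaf 6617041391884540673192493562)))
(.node (.node (.leaf 0)
(.leaf 224692339863))
(.leaf 0)))
(.node (.node (.node (.leaf 0)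
(.leaf 172613632507))
(.node (.leaf 0)
(.leaf 30349275261138266398880564838)))
(.node (.node (.leaf 0)
(.leaf 13057952532969196274338956447))
(.leaf 0))))))
(.node (.node (.node (.node (.node (.node (.leaf 0)
(.leaf 24428019716))
(.node (.leaf 0)
(.leaf 284551545345)))
(.node (.node (.leaf 0)
(.leaf 194106819756))
(.node (.leaf 0)
(.leaf 7737542812886980114689266450842978071))))
(.node (.node (.node (.leaf 0)
(.leaf 20407362059503673486662369791))
(.node (.leaf 0)
(.leaf 7913019315604712043671978492)))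
(.node (.node (.leaf 0)
(.leaf 243498026154))
(.leaf 0))))
(.node (.node (.node (.node (.leaf 0)
(.leaf 78383808518))
(.node (.leaf 0)
(.leaf 80710926789310612639)))
(.node (.node (.leaf 0)
(.leaf 219321270777))
(.leaf 0)))
(.node (.node (.node (.leaf 0)
(.leaf 165926601314))
(.node (.leaf 0)
(.leaf 3322560524604860262645397770340729036695391942418378283271690207534809239352583122224030374186310138044610098107069856238051329714)))
(.node (.node (.leaf 0)
(.leaf 1213732645777481744020606567195999099673597365983617423647439697280802638761541015519080179964164486996307616422352344678240846821158722063145478815785098561409026458393190409372159))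
(.leaf 0)))))
(.node (.node (.node (.node (.node (.leaf 0)
(.leaf 53687746566))
(.node (.leaf 0)
(.leaf 15138516214795600378)))
(.node (.node (.leaf 0)
(.leaf 205362889213))
(.leaf 0)))
(.node (.node (.node (.leaf 0)
(.leaf 39854112457600598543))
(.node (.leaf 0)
(.leaf 190059710130)))
(.node (.node (.leaf 0)
(.leaf 5042999336757916744855168846117012883))
(.leaf 0))))
(.node (.node (.node (.node (.leaf 0)
(.leaf 102006128646))
(.node (.leaf 0)
(.leaf 96660095484)))
(.node (.node (.leaf 0)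
(.leaf 231416857769))
(.leaf 0)))
(.node (.node (.node (.leaf 0)
(.leaf 181754003962))
(.node (.leaf 0)
(.leaf 473735189447455893974842619486989209294008680007280205344936961061975356056367011421140704144875289699588414724609525142488312897976731535204776979031117146542431387732429426478961051305652)))
(.node (.node (.leaf 0)
(.leaf 581002230089113247575508116))
(.leaf 1879048193))))))))
(.node (.node (.node (.node (.node (.node (.node (.node (.leaf 0)
(.leaf 11006115843))
(.node (.leaf 0)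
(.leaf 4398222570949902843)))
(.node (.node (.leaf 0)
(.leaf 186052838570))
(.node (.leaf 0)
(.leaf 2346886260831499895436515556295681277899725264537178068954923816650263682335184329285111848985277478659019578477258348904680773117777717655916349186845618092488074978004503551523491218263482176020792481071854883021437339315))))
(.node (.node (.node (.leaf 0)
(.leaf 30696675798988095491))
(.node (.leaf 0)
(.leaf 101760959652)))
(.node (.node (.leaf 0)
(.leaf 235441422846))
(.leaf 0))))
(.node (.node (.node (.node (.leaf 0)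
(.leaf 63619727365))
(.node (.leaf 0)
(.leaf 4470026915829481302321660410)))
(.node (.node (.leaf 0)
(.leaf 210195383446))
(.leaf 0)))
(.node (.node (.node (.leaf 0)
(.leaf 157066134061))
(.node (.leaf 0)
(.leaf 45395484307389515683403952703342524124887057929421391419909583331044076689099392323477681094529084736419844851395)))
(.node (.node (.leaf 0)
(.leaf 1384394920891501653454667463380339071069323268))
(.leaf 0)))))
(.node (.node (.node (.node (.node (.leaf 0)
(.leaf 35702308868))
(.node (.leaf 0)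
(.leaf 285356524027)))
(.node (.node (.leaf 0)
(.leaf 198652133887))
(.node (.leaf 0)
(.leaf 151699392291))))
(.node (.node (.node (.leaf 0)
(.leaf 80999086615255909540))
(.node (.leaf 0)
(.leaf 2404317420088875678284169566338942615)))
(.node (.node (.leaf 0)
(.leaf 248043995643))
(.leaf 0))))
(.node (.node (.node (.node (.leaf 0)
(.leaf 81605033990))
(.node (.leaf 0)
(.leaf 23714214331850359967)))
(.node (.node (.leaf 0)
(.leaf 223350162583))
(.leaf 0)))
(.node (.node (.node (.leaf 0)
(.leaf 171271913986))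
(.node (.leaf 0)
(.leaf 4631116277848751332876750572644814183855128698425717112511722757395958044816651517984801194794806973383383521031633313575095281038400801315954957856960368889382403548251842)))
(.node (.node (.leaf 0)
(.leaf 1718721320969103300136935474081689043978289712))
(.leaf 0))))))
(.node (.node (.node (.node (.node (.node (.leaf 0)
(.leaf 23354277892))
(.node (.leaf 0)
(.leaf 2205798531651174858380608660)))
(.node (.node (.leaf 0)
(.leaf 192492012703))
(.node (.leaf 0)
(.leaf 211806652179))))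
(.node (.node (.node (.leaf 0)
(.leaf 75735082336408371709))
(.node (.leaf 0)
(.leaf 309261567140)))
(.node (.node (.leaf 0)
(.leaf 242154276009))
(.leaf 0))))
(.node (.node (.node (.node (.leaf 0)
(.leaf 76235800578))
(.node (.leaf 0)
(.leaf 5572567263318023109653823996)))
(.node (.node (.leaf 0)
(.leaf 4212016337551572123822891095728129363))
(.leaf 0)))
(.node (.node (.node (.leaf 0)
(.leaf 43673991955282461230))
(.node (.leaf 0)
(.leaf 35846668499996827560153690054830483991444147489971010589860524898330088772994653845629372096481476382866734468330561709751703924829129252251647664468219441431740840932804076795964204323593422964403)))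
(.node (.node (.leaf 0)
(.leaf 5281715691173139211840581369640322414))
(.leaf 0)))))
(.node (.node (.node (.node (.node (.leaf 0)
(.leaf 46976335874))
(.node (.leaf 0)
(.leaf 3192291445261770783178294422)))
(.node (.node (.leaf 0)
(.leaf 204020580859))
(.leaf 0)))
(.node (.node (.node (.leaf 0)
(.leaf 146052219388))
(.node (.leaf 0)
(.leaf 238640629424)))
(.node (.node (.leaf 0)
(.leaf 360027685535984873580836067026680939940350920040120321))
(.leaf 0))))
(.node (.node (.node (.node (.leaf 0)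
(.leaf 96905723909))
(.node (.leaf 0)
(.leaf 95586222586)))
(.node (.node (.leaf 0)
(.leaf 230331057307))
(.leaf 0)))
(.node (.node (.node (.leaf 0)
(.leaf 48281262155434754704))
(.node (.leaf 0)
(.leaf 279979296501)))
(.node (.node (.leaf 0)
(.leaf 1443826030754333179))
(.leaf 0)))))))
(.node (.node (.node (.node (.node (.node (.node (.leaf 0)
(.leaf 15300820993))
(.node (.leaf 0)
(.leaf 6992260771674653177)))
(.node (.node (.leaf 0)
(.leaf 189002351775))
(.node (.leaf 0)
(.leaf 214217066249))))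
(.node (.node (.node (.leaf 0)
(.leaf 31489309333405302787))
(.node (.leaf 0)
(.leaf 105250620580)))
(.node (.node (.leaf 0)
(.leaf 239199782047))
(.leaf 0))))
(.node (.node (.node (.node (.leaf 0)
(.leaf 70330744838))
(.node (.leaf 0)
(.leaf 19389914263033479676)))
(.node (.node (.leaf 0)
(.leaf 213432861862))
(.leaf 0)))
(.node (.node (.node (.leaf 0)
(.leaf 160547602938))
(.node (.leaf 0)
(.leaf 313269552140)))
(.node (.node (.leaf 0)
(.leaf 5229627927158063577908788708336074756))
(.leaf 0)))))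
(.node (.node (.node (.node (.node (.leaf 0)
(.leaf 44828852226))
(.node (.leaf 0)
(.leaf 40006386169)))
(.node (.node (.leaf 0)
(.leaf 201604923903))
(.node (.leaf 0)
(.leaf 184851823756642527174711244857850924340653020054751022))))
(.node (.node (.node (.leaf 0)
(.leaf 140688949769))
(.node (.leaf 0)
(.leaf 57190745024546670787268365437867198377874047143644354553194539626430595311950833683121237212388635622282404292017868933690296605485999208550867305898496917813296861203320593416919796515786702990392752935414703164903077906319816713899569911386648802082246149006601130069702655392665550544212559379833964717502156162032211703020359198703234616669942249176902480045095844629480198342388972836851940099390585140296242957335402383197118453541249868559291748714020)))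
(.node (.node (.leaf 0)
(.leaf 18205492635356076680762557776))
(.leaf 0))))
(.node (.node (.node (.node (.leaf 0)
(.leaf 88046960642))
(.node (.leaf 0)
(.leaf 93438738938)))
(.node (.node (.leaf 0)
(.leaf 226571388055))
(.leaf 0)))
(.node (.node (.node (.leaf 0)
(.leaf 174249804407))
(.node (.leaf 0)
(.leaf 426245295690226086742323922230423016755551266879950130554967215747673924146950463537756118444862927862384771598734824354031678263646615915567064234565274553536135469752929936112110931400786946951245554758164025636970333495448047066839205133384279453862021817731463204179454825594690772101573712640974047037461923775403868667637467908321226082742936512363858334872021623832664467714103425944051352921211209400)))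
(.node (.node (.leaf 0)
(.leaf 149087691732509520466375071367091487036027824528198382861651824859414424618529168778549296762893300860063))
(.leaf 0))))))
(.node (.node (.node (.node (.node (.node (.leaf 0)
(.leaf 25501761540))
(.node (.leaf 0)
(.leaf 33296089602)))
(.node (.node (.leaf 0)
(.leaf 195967779327))
(.node (.leaf 0)
(.leaf 251594409755))))
(.node (.node (.node (.leaf 0)
(.leaf 309784478209))
(.node (.leaf 0)
(.leaf 8048447341888783659452072444)))
(.node (.node (.leaf 0)
(.leaf 1272753720058832706715336428211246438918914051))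
(.leaf 0))))
(.node (.node (.node (.node (.leaf 0)
(.leaf 79457550342))
(.node (.leaf 0)
(.leaf 85387969705)))
(.node (.node (.leaf 0)
(.leaf 220663448057))
(.leaf 0)))
(.node (.node (.node (.leaf 0)
(.leaf 12031942870965238970707804770))
(.node (.leaf 0)
(.leaf 5296197314410896621080086541898483394)))
(.node (.node (.leaf 0)
(.leaf 168687099072453925363641847755069929006720321267343980148986459831026085557263345212502131073927470711991))
(.leaf 0)))))
(.node (.node (.node (.node (.node (.leaf 0)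
(.leaf 56640012290))
(.node (.leaf 0)
(.leaf 58274415780)))
(.node (.node (.leaf 0)
(.leaf 206705197567))
(.leaf 0)))
(.node (.node (.node (.leaf 0)
(.leaf 154628719103))
(.node (.leaf 0)
(.leaf 213953873587)))
(.node (.node (.leaf 0)
(.leaf 5089220410156184399923957707183489027))
(.leaf 0))))
(.node (.node (.node (.node (.leaf 0)
(.leaf 107106402310))
(.node (.leaf 0)
(.leaf 26235279961521127932)))
(.node (.node (.leaf 0)
(.leaf 232757462180))
(.leaf 0)))
(.node (.node (.node (.leaf 0)
(.leaf 49077484494462976657))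
(.node (.leaf 0)
(.leaf 8121263966620017019625436388964122603752185229913321762120119367206602045195851753272129843721275957501292849473115767649300151984367059333486894570470424121916026456820392153790666738312546024566140107750747147186458653688912879312142391765754306666032171127937944279261861008207805858423955083220157948952261332215223760535578784479823075642895184001692831309459285799371639806676809352882)))
(.node (.node (.leaf 0)
(.leaf 9136767489))
(.leaf 2952790017))))))))))
(.node (.node (.node (.node (.node (.node (.node (.node (.node (.node (.leaf 0)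
(.leaf 9663938563))
(.node (.leaf 0)
(.leaf 14505476609)))
(.node (.node (.leaf 0)
(.leaf 183633510912))
(.node (.leaf 0)
(.leaf 424679949390404295584805610331187771643684438306064066))))
(.node (.node (.node (.leaf 0)
(.leaf 2185969654065249927075626655259295747))
(.node (.leaf 0)
(.leaf 100420355241)))
(.node (.node (.leaf 0)
(.leaf 233562374654))
(.leaf 0))))
(.node (.node (.node (.node (.leaf 0)
(.leaf 61740810246))
(.node (.leaf 0)
(.leaf 15859092155174879738)))
(.node (.node (.leaf 0)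
(.leaf 207510110713))
(.leaf 0)))
(.node (.node (.node (.leaf 0)
(.leaf 41724355528559100461))
(.node (.leaf 0)
(.leaf 424408516276)))
(.node (.node (.leaf 0)
(.leaf 264955691519))
(.leaf 0)))))
(.node (.node (.node (.node (.node (.leaf 0)
(.leaf 30333468675))
(.node (.leaf 0)
(.leaf 34101395970)))
(.node (.node (.leaf 0)
(.leaf 196772692473))
(.node (.leaf 0)
(.leaf 329939158814))))
(.node (.node (.node (.leaf 0)
(.leaf 80927029021217850527))
(.node (.leaf 0)
(.leaf 112766222844)))
(.node (.node (.leaf 0)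
(.leaf 246433513981))
(.leaf 0))))
(.node (.node (.node (.node (.leaf 0)
(.leaf 80262856710))
(.node (.leaf 0)
(.leaf 23281446554889421988)))
(.node (.node (.leaf 0)
(.leaf 221471245466))
(.leaf 0)))
(.node (.node (.node (.leaf 0)
(.leaf 167795687934))
(.node (.leaf 0)
(.leaf 27499428677796289296498030629522091790592421369258256008838343529465538)))
(.node (.node (.leaf 0)
(.leaf 22613533608171645014618473636))
(.leaf 0))))))
(.node (.node (.node (.node (.node (.node (.leaf 0)
(.leaf 19596181508))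
(.node (.leaf 0)
(.leaf 27929019541)))
(.node (.node (.leaf 0)
(.leaf 190347805866))
(.node (.leaf 0)
(.leaf 451534391056))))
(.node (.node (.node (.leaf 0)
(.leaf 31849597303594942467))
(.node (.leaf 0)
(.leaf 28613286299888255484)))
(.node (.node (.leaf 0)
(.leaf 4653559325162630743176296820096435598))
(.leaf 0))))
(.node (.node (.node (.node (.leaf 0)
(.leaf 71672922118))
(.node (.leaf 0)
(.leaf 19894317421298975228)))
(.node (.node (.leaf 0)
(.leaf 215580738730))
(.leaf 0)))
(.node (.node (.node (.leaf 0)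
(.leaf 161353368064))
(.node (.leaf 0)
(.leaf 7936806720746547995702577580283170847640064580207334824478404)))
(.node (.node (.leaf 0)
(.leaf 5255614764598236420270721988383342598))
(.leaf 0)))))
(.node (.node (.node (.node (.node (.leaf 0)
(.leaf 45634158594))
(.node (.leaf 0)
(.leaf 11315716413950329337)))
(.node (.node (.leaf 0)
(.leaf 202409837049))
(.node (.leaf 0)
(.leaf 81718325905169844017))))
(.node (.node (.node (.leaf 0)
(.leaf 143642264078))
(.node (.leaf 0)
(.leaf 416354076335)))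
(.node (.node (.leaf 0)
(.leaf 4954633948175259105409635972712170871))
(.leaf 0))))
(.node (.node (.node (.node (.leaf 0)
(.leaf 91537145862))
(.node (.leaf 0)
(.leaf 94244045306)))
(.node (.node (.leaf 0)
(.leaf 4409409818939288170247457986331346286))
(.leaf 0)))
(.node (.node (.node (.leaf 0)
(.leaf 46987779082452271735))
(.node (.leaf 0)
(.leaf 985213370396505970131354743432285185120325472117575882900879499043759680798243130085659243956040541143949911778835803533608642076981823917096735484722817935496689044489906)))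
(.node (.node (.leaf 0)
(.leaf 294626595444701710276262534005188096683528233121028926893334300316016297232463529821862247392873339230805228544946449079613840330297414435469001336))
(.leaf 0)))))))
(.node (.node (.node (.node (.node (.node (.node (.leaf 0)
(.leaf 11811422211))
(.node (.leaf 0)
(.leaf 20142621185)))
(.node (.node (.leaf 0)
(.leaf 187395015850))
(.node (.leaf 0)
(.leaf 29768934238379839155740411656))))
(.node (.node (.node (.leaf 0)
(.leaf 31056963769177735171))
(.node (.leaf 0)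
(.leaf 102834570399)))
(.node (.node (.leaf 0)
(.leaf 236786615457))
(.leaf 0))))
(.node (.node (.node (.node (.leaf 0)
(.leaf 64425033733))
(.node (.leaf 0)
(.leaf 294765462012)))
(.node (.node (.leaf 0)
(.leaf 211014059167))
(.leaf 0)))
(.node (.node (.node (.leaf 0)
(.leaf 157871440429))
(.node (.leaf 0)
(.leaf 8619622258750706196418338607314896390)))
(.node (.node (.leaf 0)
(.leaf 1394034439126972519826972191652200628816838660))
(.leaf 0)))))
(.node (.node (.node (.node (.node (.leaf 0)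
(.leaf 37849792516))
(.node (.leaf 0)
(.leaf 285624959483)))
(.node (.node (.leaf 0)
(.leaf 199457047033))
(.node (.leaf 0)
(.leaf 427363141417))))
(.node (.node (.node (.leaf 0)
(.leaf 81503525138013684900))
(.node (.leaf 0)
(.leaf 153952870694899817495457790701807650593224439106995901252168952464147126425104140926407656806682599817435788793569517236669419607373329355026075563037962674809595393222192600458036624622231)))
(.node (.node (.leaf 0)
(.leaf 250460832921))
(.leaf 0))))
(.node (.node (.node (.node (.leaf 0)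
(.leaf 82410340358))
(.node (.leaf 0)
(.leaf 24073657875498795516)))
(.node (.node (.leaf 0)
(.leaf 224424035482))
(.leaf 0)))
(.node (.node (.node (.leaf 0)
(.leaf 172345197051))
(.node (.leaf 0)
(.leaf 150596189122951544245345346496540697642809978380480088203687126028431477550847604172254207897622322652133545434066879423316870256264926298401902815990668829904286191561589304146571153409394544474432245944275606250793638475660207346368748510118904673977848019684268704073395)))
(.node (.node (.leaf 0)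
(.leaf 1733926155628010049493897806105233742097940994))
(.leaf 0))))))
(.node (.node (.node (.node (.node (.node (.leaf 0)
(.leaf 24159584260))
(.node (.leaf 0)
(.leaf 31953781249)))
(.node (.node (.leaf 0)
(.leaf 3749678809455589555665540893149037846))
(.node (.leaf 0)
(.leaf 125525683899080312598))))
(.node (.node (.node (.leaf 0)
(.leaf 75807139930446430719))
(.node (.leaf 0)
(.leaf 109544866298)))
(.node (.node (.leaf 0)
(.leaf 243226444964))
(.leaf 0))))
(.node (.node (.node (.node (.leaf 0)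
(.leaf 78115373062))
(.node (.leaf 0)
(.leaf 300134761636)))
(.node (.node (.leaf 0)
(.leaf 219055064213))
(.leaf 0)))
(.node (.node (.node (.leaf 0)
(.leaf 163501114532))
(.node (.leaf 0)
(.leaf 126247016094076307122)))
(.node (.node (.leaf 0)
(.leaf 23212967263390297002499966165))
(.leaf 0)))))
(.node (.node (.node (.node (.node (.leaf 0)
(.leaf 51271827462))
(.node (.leaf 0)
(.leaf 291544827044)))
(.node (.node (.leaf 0)
(.leaf 205094584831))
(.leaf 0)))
(.node (.node (.node (.leaf 0)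
(.leaf 148205797903))
(.node (.leaf 0)
(.leaf 187104298673)))
(.node (.node (.leaf 0)
(.leaf 18747828095968971029537293707))
(.leaf 0))))
(.node (.node (.node (.node (.leaf 0)
(.leaf 100932386822))
(.node (.leaf 0)
(.leaf 96391528954)))
(.node (.node (.leaf 0)
(.leaf 231133217940))
(.leaf 0)))
(.node (.node (.node (.leaf 0)
(.leaf 180694090385))
(.node (.leaf 0)
(.leaf 6512204978786449761723630769034281302418697854309895977731265024470897391108883095032677202289392693702280275710845426003735370981235358480395088850464073192028851957970376493632407130585951769969100945999912993827868994369692606793844406)))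
(.node (.node (.leaf 0)
(.leaf 1804149185584366073))
(.leaf 0))))))))
(.node (.node (.node (.node (.node (.node (.node (.node (.leaf 0)
(.leaf 10737680387))
(.node (.leaf 0)
(.leaf 4326129792271450619)))
(.node (.node (.leaf 0)
(.leaf 185247007905))
(.node (.leaf 0)
(.leaf 113999155868670099115185800980804912245582629573956387261253314))))
(.node (.node (.node (.leaf 0)
(.leaf 30624618204950167555))
(.node (.leaf 0)
(.leaf 101494097065)))
(.node (.node (.leaf 0)
(.leaf 235173118464))
(.leaf 0))))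
(.node (.node (.node (.node (.leaf 0)
(.leaf 63351291909))
(.node (.leaf 0)
(.leaf 78550043394715223209)))
(.node (.node (.leaf 0)
(.leaf 209927079065))
(.leaf 0)))
(.node (.node (.node (.leaf 0)
(.leaf 42084344252807971373))
(.node (.leaf 0)
(.leaf 40889604898374043286707070677227910159871588654471063188225756306390772699832453985709825673948043190571628751077454495858821389965198315150399508121192014692487391817657995614530942224891471097044538575550838374402560243506971400223715625851684532)))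
(.node (.node (.leaf 0)
(.leaf 370881162091132690243907883085457487749574979072950276))
(.leaf 0)))))
(.node (.node (.node (.node (.node (.leaf 0)
(.leaf 34628567044))
(.node (.leaf 0)
(.leaf 9442218968964203001)))
(.node (.node (.leaf 0)
(.leaf 198114869753))
(.node (.leaf 0)
(.leaf 150087206690))))
(.node (.node (.node (.leaf 0)
(.leaf 81287281806498661540))
(.node (.leaf 0)
(.leaf 1540994185056517214468064456766363861474441156433059784981032536526096388302196819010545511239928922428617309308000002739048351247)))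
(.node (.node (.leaf 0)
(.leaf 247775691261))
(.leaf 0))))
(.node (.node (.node (.node (.leaf 0)
(.leaf 81336598534))
(.node (.leaf 0)
(.leaf 23569254717233299964)))
(.node (.node (.leaf 0)
(.leaf 223081858202))
(.leaf 0)))
(.node (.node (.node (.leaf 0)
(.leaf 168869823652))
(.node (.leaf 0)
(.leaf 346948011174878963141980345743351646384320762841890216361691755024610229661075146896296544584978052354308850662565423891545003622185352245897942361917379754577077624727313300886340297674162634040726939458237738004166710570194517847731894882656647655410408188814048160286426470632441477654675821073474391758276555561332642185276559421288028330499371524716720109409690573442607582079038836632997333002895777938531622008052586925321564198620198443425758113540185995405673435166887624918096055064542611423653547085063703894719038819081771481350786179426449014855240416609940976035639643596708278437016357648516942435119360628435587934389126744746670721499030602615426455221991014373410082390014934569373582465159541100447411)))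
(.node (.node (.leaf 0)
(.leaf 89932996981580956160))
(.leaf 0))))))
(.node (.node (.node (.node (.node (.node (.leaf 0)
(.leaf 23085842436))
(.node (.leaf 0)
(.leaf 7856987084770312697)))
(.node (.node (.leaf 0)
(.leaf 192223708324))
(.node (.leaf 0)
(.leaf 423065356051))))
(.node (.node (.node (.leaf 0)
(.leaf 75446851960256659965))
(.node (.leaf 0)
(.leaf 107934975140)))
(.node (.node (.leaf 0)
(.leaf 241884136607))
(.leaf 0))))
(.node (.node (.node (.node (.leaf 0)
(.leaf 74625187842))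
(.node (.leaf 0)
(.leaf 5553224450204189042858394106)))
(.node (.node (.leaf 0)
(.leaf 217173787129))
(.leaf 0)))
(.node (.node (.node (.leaf 0)
(.leaf 43601934361244533294))
(.node (.leaf 0)
(.leaf 966424270954943295473275298014682466286546663498524951037589914150952642234228676361083758265806595247443873647678951353631416239108366745743231106633206757699025765006100983232812210087710605323517015836199744524966536204873986093748682870838825965009155713992376)))
(.node (.node (.leaf 0)
(.leaf 1416401880038321184755229545968662667297490281))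
(.leaf 0)))))
(.node (.node (.node (.node (.node (.leaf 0)
(.leaf 46707900418))
(.node (.leaf 0)
(.leaf 77104810121679013014)))
(.node (.node (.leaf 0)
(.leaf 203752276477))
(.leaf 0)))
(.node (.node (.node (.leaf 0)
(.leaf 145233543681))
(.node (.leaf 0)
(.leaf 237298452144)))
(.node (.node (.leaf 0)
(.leaf 257453130238))
(.leaf 0))))
(.node (.node (.node (.node (.leaf 0)
(.leaf 94489804805))
(.node (.leaf 0)
(.leaf 95317787130)))
(.node (.node (.leaf 0)
(.leaf 16561797425653310584773739891))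
(.leaf 0)))
(.node (.node (.node (.leaf 0)
(.leaf 178251104769))
(.node (.leaf 0)
(.leaf 274073716469)))
(.node (.node (.leaf 0)
(.leaf 1371768436716274169))
(.leaf 0)))))))
(.node (.node (.node (.node (.node (.node (.node (.leaf 0)
(.leaf 12885164035))
(.node (.leaf 0)
(.leaf 25779307001)))
(.node (.node (.leaf 0)
(.leaf 188734047396))
(.node (.leaf 0)
(.leaf 212606453513))))
(.node (.node (.node (.leaf 0)
(.leaf 31417251739367374851))
(.node (.leaf 0)
(.leaf 27892675173794710012)))
(.node (.node (.leaf 0)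
(.leaf 238931477668))
(.leaf 0))))
(.node (.node (.node (.node (.leaf 0)
(.leaf 69793349634))
(.node (.leaf 0)
(.leaf 19317856668995420666)))
(.node (.node (.leaf 0)
(.leaf 213164688552))
(.leaf 0)))
(.node (.node (.node (.leaf 0)
(.leaf 43024611410362565166))
(.node (.leaf 0)
(.leaf 5942093468718799141023072504166070274486400174540847546163970814058532389362402605557536481587450382256632401442907883188)))
(.node (.node (.leaf 0)
(.leaf 376459348282701476922835274063982723908604456648179716))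
(.leaf 0)))))
(.node (.node (.node (.node (.node (.leaf 0)
(.leaf 44023808004))
(.node (.leaf 0)
(.leaf 39737950713)))
(.node (.node (.leaf 0)
(.leaf 201067659769))
(.node (.leaf 0)
(.leaf 492866176813))))
(.node (.node (.node (.leaf 0)
(.leaf 139614683652))
(.node (.leaf 0)
(.leaf 87549914081360968414974513313465639683159461611374613821071944342352317524160906798072648266011943808188644317635560387805650789606602925013480646648843027850393400784744227959968546470908163288485123842469075431514627681899202924685580923746929807062846964515406451173196054652423415235214286789693777588810068261064450652821784100)))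
(.node (.node (.leaf 0)
(.leaf 18147322524587285428343211338))
(.leaf 0))))
(.node (.node (.node (.node (.leaf 0)
(.leaf 83483557890))
(.node (.leaf 0)
(.leaf 306308055546)))
(.node (.node (.leaf 0)
(.leaf 226303083674))
(.leaf 0)))
(.node (.node (.node (.leaf 0)
(.leaf 173981368951))
(.node (.leaf 0)
(.leaf 23754632172891983026578458181)))
(.node (.node (.leaf 0)
(.leaf 6246458638382291300466386865560421525))
(.leaf 0))))))
(.node (.node (.node (.node (.node (.node (.leaf 0)
(.leaf 25233326084))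
(.node (.leaf 0)
(.leaf 33027523073)))
(.node (.node (.leaf 0)
(.leaf 195178071209))
(.node (.leaf 0)
(.leaf 150355773210))))
(.node (.node (.node (.leaf 0)
(.leaf 81143166618422542848))
(.node (.leaf 0)
(.leaf 111423914490)))
(.node (.node (.leaf 0)
(.leaf 244568491167))
(.leaf 0))))
(.node (.node (.node (.node (.leaf 0)
(.leaf 79189114886))
(.node (.leaf 0)
(.leaf 22776585997101826556)))
(.node (.node (.leaf 0)
(.leaf 220397241493))
(.leaf 0)))
(.node (.node (.node (.leaf 0)
(.leaf 44750422454849962594))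
(.node (.leaf 0)
(.leaf 80467491766464737455887633212641245202054219640429565326198464)))
(.node (.node (.leaf 0)
(.leaf 2788951512265167963844350016117955691818674133350096004658562264278922060658147347675024728935167749475244801436951070274239070716))
(.leaf 0)))))
(.node (.node (.node (.node (.node (.leaf 0)
(.leaf 56103665670))
(.node (.leaf 0)
(.leaf 58005980324)))
(.node (.node (.leaf 0)
(.leaf 206453933226))
(.leaf 0)))
(.node (.node (.node (.leaf 0)
(.leaf 11122821209737956903960379949))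
(.node (.leaf 0)
(.leaf 212074825395)))
(.node (.node (.leaf 0)
(.leaf 365967776003549891412724254964006159712695477428551683))
(.leaf 0))))
(.node (.node (.node (.node (.leaf 0)
(.leaf 106301095942))
(.node (.leaf 0)
(.leaf 97465401852)))
(.node (.node (.leaf 0)
(.leaf 232208401557))
(.leaf 0)))
(.node (.node (.node (.leaf 0)
(.leaf 182559441404))
(.node (.leaf 0)
(.leaf 424679949389031596474901542595658930089275088430433972)))
(.node (.node (.leaf 0)
(.leaf 639040114235673966198850710))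
(.leaf 2684354561)))))))))
(.node (.node (.node (.node (.node (.node (.node (.node (.node (.leaf 0)
(.leaf 10200809475))
(.node (.leaf 0)
(.leaf 4182014604195463673)))
(.node (.node (.leaf 0)
(.leaf 184710661290))
(.node (.leaf 0)
(.leaf 656732164970668667851454634902170127585318689750381359700265463268881543262244667014275366557125671689302879833263170615548418288407397835102661826560536003036085661429386362004745693056375675851627414142618000237711288563430950625854640952805251670730178136257702243084375002614555161012406794724161925439865533428417542750711820108135071070581100278836803518283296480626951443982106475485654960657811366072823310333338302429850843543021973809923764))))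
(.node (.node (.node (.leaf 0)
(.leaf 30480503016874311683))
(.node (.leaf 0)
(.leaf 307650954404)))
(.node (.node (.leaf 0)
(.leaf 234636510372))
(.leaf 0))))
(.node (.node (.node (.node (.leaf 0)
(.leaf 62814420997))
(.node (.leaf 0)
(.leaf 4392617883793622991733129722)))
(.node (.node (.leaf 0)
(.leaf 208584114685))
(.leaf 0)))
(.node (.node (.node (.leaf 0)
(.leaf 156238938617))
(.node (.leaf 0)
(.leaf 76166865275219216065)))
(.node (.node (.leaf 0)
(.leaf 265492300283))
(.leaf 0)))))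
(.node (.node (.node (.node (.node (.leaf 0)
(.leaf 32212516867))
(.node (.leaf 0)
(.leaf 285087957497)))
(.node (.node (.leaf 0)
(.leaf 197578260989))
(.node (.leaf 0)
(.leaf 2902300451903464629986527007))))
(.node (.node (.node (.leaf 0)
(.leaf 310053044738))
(.node (.leaf 0)
(.leaf 1055094023141147897036320365417763412415964716140389076261837654283667599975184184377872)))
(.node (.node (.leaf 0)
(.leaf 246970122745))
(.leaf 0))))
(.node (.node (.node (.node (.leaf 0)
(.leaf 80799727622))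
(.node (.leaf 0)
(.leaf 87267017897)))
(.node (.node (.leaf 0)
(.leaf 222007854229))
(.leaf 0)))
(.node (.node (.node (.leaf 0)
(.leaf 168332558846))
(.node (.leaf 0)
(.leaf 124294995116458982418583046646549277393536672850390229095687042964175882364664072001084334618732209000974780111345353641393956623126386140218434368550613906249097293486097241426968586772773090569665058539600566347988227032984903537099977488516165820297598062795474537337497718199890262507012779498823724545682778120847800381487774987814209914279634461922439765058526309780394748000054360646427662571082867318245389333247966120723898792926488635505742856034579814886336057190625394313205757440325588173027585217302616240789879329627162186739681285441203)))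
(.node (.node (.leaf 0)
(.leaf 106462563739179601470475156839270716320166254960947065925009914))
(.leaf 0))))))
(.node (.node (.node (.node (.node (.node (.leaf 0)
(.leaf 22548971524))
(.node (.leaf 0)
(.leaf 7713311878244532729)))
(.node (.node (.leaf 0)
(.leaf 190884283558))
(.node (.leaf 0)
(.leaf 410180454163))))
(.node (.node (.node (.leaf 0)
(.leaf 75374794366218600955))
(.node (.leaf 0)
(.leaf 28829423896287642106)))
(.node (.node (.leaf 0)
(.leaf 241080272034))
(.leaf 0))))
(.node (.node (.node (.node (.leaf 0)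
(.leaf 73014575106))
(.node (.leaf 0)
(.leaf 5456472605054496665474564602)))
(.node (.node (.leaf 0)
(.leaf 216639276183))
(.leaf 0)))
(.node (.node (.node (.leaf 0)
(.leaf 161890501796))
(.node (.leaf 0)
(.leaf 388971675139991473315149343450111141376296644)))
(.node (.node (.leaf 0)
(.leaf 379462186131727636985593178478257486801591519983304710))
(.leaf 0)))))
(.node (.node (.node (.node (.node (.leaf 0)
(.leaf 46171029506))
(.node (.leaf 0)
(.leaf 11459866786666840571)))
(.node (.node (.leaf 0)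
(.leaf 203231134889))
(.node (.leaf 0)
(.leaf 683095082910209562047392174924051110018156338))))
(.node (.node (.node (.leaf 0)
(.leaf 144696476157))
(.node (.leaf 0)
(.leaf 456887830191)))
(.node (.node (.leaf 0)
(.leaf 256916522143))
(.leaf 0))))
(.node (.node (.node (.node (.leaf 0)
(.leaf 92610887686))
(.node (.leaf 0)
(.leaf 94780916218)))
(.node (.node (.leaf 0)
(.leaf 228988748952))
(.leaf 0)))
(.node (.node (.node (.leaf 0)
(.leaf 175580447232))
(.node (.leaf 0)
(.leaf 8627056958421297981397837246367026647034444224585327354933010120319017994117305160253617157440824695184565403034290702224471037723289913633514098187126050073586714537499568326185730378560455780196884051821528155825)))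
(.node (.node (.leaf 0)
(.leaf 3499753986))
(.leaf 0)))))))
(.node (.node (.node (.node (.node (.node (.node (.leaf 0)
(.leaf 12348293123))
(.node (.leaf 0)
(.leaf 20679492097)))
(.node (.node (.leaf 0)
(.leaf 187931493542))
(.node (.leaf 0)
(.leaf 421180802825))))
(.node (.node (.node (.leaf 0)
(.leaf 31273136551291518979))
(.node (.leaf 0)
(.leaf 27749439597974324383)))
(.node (.node (.leaf 0)
(.leaf 237860750504))
(.leaf 0))))
(.node (.node (.node (.node (.leaf 0)
(.leaf 64961904645))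
(.node (.leaf 0)
(.leaf 19101648701167501820)))
(.node (.node (.leaf 0)
(.leaf 211550667262))
(.leaf 0)))
(.node (.node (.node (.leaf 0)
(.leaf 159750619694))
(.node (.leaf 0)
(.leaf 13070720831340351826880347605656102233134022707557080390964204920738501498843329884808809449177166766312847635715295055033640445305059056962572844197539940575871372130580981823768331579994229028641495275718001861760546759032692654520462739152946436875154818699024873979958308262346551420862237050545)))
(.node (.node (.leaf 0)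
(.leaf 375708867177985925696496547522504745221158967773102084))
(.leaf 0)))))
(.node (.node (.node (.node (.node (.leaf 0)
(.leaf 41339453444))
(.node (.leaf 0)
(.leaf 286161699321)))
(.node (.node (.leaf 0)
(.leaf 200531051005))
(.node (.leaf 0)
(.leaf 25799371818471768981670026870240923060527383387031167724340961453261111748391733938736118289900052783795843723759872039554017823399469899887763151392596896813418250))))
(.node (.node (.node (.leaf 0)
(.leaf 21917121562257764023779787940))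
(.node (.leaf 0)
(.leaf 1169682184851976998451200420687161052936441675642302497968046327859094355216557095580828547331351048613942724396811834304997837730570855175496500341153428104758154377762921018297543239063938541971788481165524630660333361188892090598223548097320083526011748214615929948386047627742330181104712535635905380823148150595394558004837957394040564956920875879165846625605417628654596750690290267336286881078042903303007509931458025384869281255582609270814543945143433329636963268769514492225867744804)))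
(.node (.node (.leaf 0)
(.leaf 250997441684))
(.leaf 0))))
(.node (.node (.node (.node (.leaf 0)
(.leaf 82947211270))
(.node (.leaf 0)
(.leaf 6655736463205497701977424378)))
(.node (.node (.leaf 0)
(.leaf 224960644245))
(.leaf 0)))
(.node (.node (.node (.leaf 0)
(.leaf 172882067963))
(.node (.leaf 0)
(.leaf 1448161789606295871838877059743102347601643202)))
(.node (.node (.leaf 0)
(.leaf 7814757915781040383981625322949117097))
(.leaf 0))))))
(.node (.node (.node (.node (.node (.node (.leaf 0)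
(.leaf 24696455172))
(.node (.leaf 0)
(.leaf 32490652161)))
(.node (.node (.leaf 0)
(.leaf 194375124139))
(.node (.leaf 0)
(.leaf 2078191536439437525613379767418039055187511064))))
(.node (.node (.node (.leaf 0)
(.leaf 75591037518150566399))
(.node (.leaf 0)
(.leaf 29622937042962154665)))
(.node (.node (.leaf 0)
(.leaf 243766199459))
(.leaf 0))))
(.node (.node (.node (.node (.leaf 0)
(.leaf 78652243974))
(.node (.leaf 0)
(.leaf 22632928208547939487)))
(.node (.node (.leaf 0)
(.leaf 219860632730))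
(.leaf 0)))
(.node (.node (.node (.leaf 0)
(.leaf 166195036770))
(.node (.leaf 0)
(.leaf 6425900637356757781081823374159312356790167331033839817111783802962464246546241180084660250170808171379174049327673445255691223702168983439541019023767721502302897953489396231371341155483703237442374510595884976171991364388097656804285784097234409254907409498994772723341907522919161789235204186878630819034175925570891236504635791405783413247039081417806345164874292240660998526289620699470759320425350268415012801466492646079734106666752710178891384454249234474647425029238505593042966371326093238586328404719176035246343859)))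
(.node (.node (.leaf 0)
(.leaf 1671205309751950375030450957648988068199793153))
(.leaf 0)))))
(.node (.node (.node (.node (.node (.leaf 0)
(.leaf 54492528642))
(.node (.leaf 0)
(.leaf 15355533423450719391)))
(.node (.node (.leaf 0)
(.leaf 205631193595))
(.leaf 0)))
(.node (.node (.node (.leaf 0)
(.leaf 39926170051638526479))
(.node (.leaf 0)
(.leaf 191401887410)))
(.node (.node (.leaf 0)
(.leaf 5053396607058407158814816068527392151))
(.leaf 0))))
(.node (.node (.node (.node (.leaf 0)
(.leaf 103616741382))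
(.node (.leaf 0)
(.leaf 306845057532)))
(.node (.node (.leaf 0)
(.leaf 231673234587))
(.leaf 0)))
(.node (.node (.node (.leaf 0)
(.leaf 182022439418))
(.node (.leaf 0)
(.leaf 3861961017951911236030403339395074233810138235655013684160056579438830397916975352594362998868875494595825167436584539878908661315410638551971167372800560946429308786830451188603638482540366869329400497840)))
(.node (.node (.leaf 0)
(.leaf 600354488007970647699162260))
(.leaf 2147483649))))))))
(.node (.node (.node (.node (.node (.node (.node (.node (.leaf 0)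
(.leaf 11274551299))
(.node (.leaf 0)
(.leaf 5046705732650598905)))
(.node (.node (.leaf 0)
(.leaf 186321142952))
(.node (.leaf 0)
(.leaf 23938919624753126693528097717747045762692975658103192438312169103716931183883371939714559100802548991860597094976271016405297075769801329303752941566953140))))
(.node (.node (.node (.leaf 0)
(.leaf 30912848581101879299))
(.node (.leaf 0)
(.leaf 307919389860)))
(.node (.node (.leaf 0)
(.leaf 236250268842))
(.leaf 0))))
(.node (.node (.node (.node (.leaf 0)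
(.leaf 63888162821))
(.node (.leaf 0)
(.leaf 4489369728943315369117090300)))
(.node (.node (.leaf 0)
(.leaf 210463687828))
(.leaf 0)))
(.node (.node (.node (.leaf 0)
(.leaf 157334569517))
(.node (.leaf 0)
(.leaf 8146821543993169595548130570668738184)))
(.node (.node (.leaf 0)
(.leaf 1387185916885769054749554131127202649007849476))
(.leaf 0)))))
(.node (.node (.node (.node (.node (.leaf 0)
(.leaf 36776050692))
(.node (.leaf 0)
(.leaf 9658426935718642171)))
(.node (.node (.leaf 0)
(.leaf 198920438269))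
(.node (.leaf 0)
(.leaf 2949367893319534416227594680544659238))))
(.node (.node (.node (.leaf 0)
(.leaf 81431432179483477156))
(.node (.leaf 0)
(.leaf 113060494104558109842)))
(.node (.node (.leaf 0)
(.leaf 248312300025))
(.leaf 0))))
(.node (.node (.node (.node (.leaf 0)
(.leaf 81873469446))
(.node (.leaf 0)
(.leaf 23785392313632686586)))
(.node (.node (.leaf 0)
(.leaf 223618466965))
(.leaf 0)))
(.node (.node (.node (.leaf 0)
(.leaf 46119569518935605878))
(.node (.leaf 0)
(.leaf 2435608091392421485576840830386833090)))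
(.node (.node (.leaf 0)
(.leaf 230895154343383277591639746330763619892409544974075105))
(.leaf 0))))))
(.node (.node (.node (.node (.node (.node (.leaf 0)
(.leaf 23622713348))
(.node (.leaf 0)
(.leaf 2244493602683901510208652438)))
(.node (.node (.leaf 0)
(.leaf 192760316416))
(.node (.leaf 0)
(.leaf 213685700371))))
(.node (.node (.node (.leaf 0)
(.leaf 20388019246389839419866939901))
(.node (.leaf 0)
(.leaf 29189747052191547898)))
(.node (.node (.leaf 0)
(.leaf 242422580391))
(.leaf 0))))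
(.node (.node (.node (.node (.leaf 0)
(.leaf 20824679861870788614))
(.node (.leaf 0)
(.leaf 299061019812)))
(.node (.node (.leaf 0)
(.leaf 218518455450))
(.leaf 0)))
(.node (.node (.node (.leaf 0)
(.leaf 162964112543))
(.node (.leaf 0)
(.leaf 5602849600201506156611405236209845956)))
(.node (.node (.leaf 0)
(.leaf 5286951088403698931146370050465138043))
(.leaf 0)))))
(.node (.node (.node (.node (.node (.leaf 0)
(.leaf 47244771330))
(.node (.leaf 0)
(.leaf 3211624813570581516645237910)))
(.node (.node (.leaf 0)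
(.leaf 204288885241))
(.leaf 0)))
(.node (.node (.node (.leaf 0)
(.leaf 147668926991))
(.node (.leaf 0)
(.leaf 184419944113)))
(.node (.node (.leaf 0)
(.leaf 1345341394054041366373055255144210648724537350))
(.leaf 0))))
(.node (.node (.node (.node (.leaf 0)
(.leaf 98516467718))
(.node (.leaf 0)
(.leaf 95854658042)))
(.node (.node (.leaf 0)
(.leaf 230599361688))
(.leaf 0)))
(.node (.node (.node (.leaf 0)
(.leaf 48353319749472682640))
(.node (.leaf 0)
(.leaf 73645007817585788661)))
(.node (.node (.leaf 0)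
(.leaf 1515918809432785403))
(.leaf 0)))))))
(.node (.node (.node (.node (.node (.node (.node (.leaf 0)
(.leaf 15838085124))
(.node (.leaf 0)
(.leaf 7064318365712712187)))
(.node (.node (.leaf 0)
(.leaf 189270655488))
(.node (.leaf 0)
(.leaf 3228199234838481987279931708945435436624092798809774066606955644037010984273588))))
(.node (.node (.node (.leaf 0)
(.leaf 31705482115519086595))
(.node (.leaf 0)
(.leaf 106059072682)))
(.node (.node (.leaf 0)
(.leaf 239468085760))
(.leaf 0))))
(.node (.node (.node (.node (.leaf 0)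
(.leaf 70599180294))
(.node (.leaf 0)
(.leaf 19533994265394938362)))
(.node (.node (.leaf 0)
(.leaf 214507914412))
(.leaf 0)))
(.node (.node (.node (.leaf 0)
(.leaf 160816497152))
(.node (.leaf 0)
(.leaf 44083545278624825258161787899265490056654370302686559923296052469870817816962659087763159263454620741894518150127874290543617153073060529235850068959617608202345869790278936868243696333093531460547107968964582969062632683923266566877191124447034223466844235641397179907088545531995858853122588667412216064960312824434477363082025215913496460287714002179383780509368)))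
(.node (.node (.leaf 0)
(.leaf 5240387747465851180885562181838112170))
(.leaf 0)))))
(.node (.node (.node (.node (.node (.leaf 0)
(.leaf 45097287682))
(.node (.leaf 0)
(.leaf 40811692537)))
(.node (.node (.leaf 0)
(.leaf 201873228285))
(.node (.leaf 0)
(.leaf 79412482895950579503))))
(.node (.node (.node (.leaf 0)
(.leaf 140957516298))
(.node (.leaf 0)
(.leaf 409643189935)))
(.node (.node (.leaf 0)
(.leaf 4897417270083352745061002336176899416))
(.leaf 0))))
(.node (.node (.node (.node (.leaf 0)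
(.leaf 88852660229))
(.node (.leaf 0)
(.leaf 93707174394)))
(.node (.node (.leaf 0)
(.leaf 226839692437))
(.leaf 0)))
(.node (.node (.node (.leaf 0)
(.leaf 174518239863))
(.node (.leaf 0)
(.leaf 10500691310511771241649488505809406656265708921490444389857677656515807564547334435937464343928006496135463943187634390707)))
(.node (.node (.leaf 0)
(.leaf 396603955848342725477595199626579116850304704816087553))
(.leaf 0))))))
(.node (.node (.node (.node (.node (.node (.leaf 0)
(.leaf 27111981057))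
(.node (.leaf 0)
(.leaf 33564525058)))
(.node (.node (.leaf 0)
(.leaf 196236083709))
(.node (.leaf 0)
(.leaf 252131411740))))
(.node (.node (.node (.leaf 0)
(.leaf 80782878648233034911))
(.node (.leaf 0)
(.leaf 111960916476)))
(.node (.node (.leaf 0)
(.leaf 4751809850357994662243977225308013851))
(.leaf 0))))
(.node (.node (.node (.node (.leaf 0)
(.leaf 79725985798))
(.node (.leaf 0)
(.leaf 23065273772775638180)))
(.node (.node (.leaf 0)
(.leaf 220946302116))
(.leaf 0)))
(.node (.node (.node (.leaf 0)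
(.leaf 167268909667))
(.node (.leaf 0)
(.leaf 23002849581659037849679920906557992971699073789159070347874408986496508602410408704168325322942717509238483569790683503424116451886099755834310671207775821177905615681072342875800813619054885011088993730652520142237876476634641847686180045972637363)))
(.node (.node (.leaf 0)
(.leaf 279529845320083929182025703053257127312281049660211574958785127465437840759876433238965126955538))
(.leaf 0)))))
(.node (.node (.node (.node (.node (.leaf 0)
(.leaf 57713754114))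
(.node (.leaf 0)
(.leaf 58545996970)))
(.node (.node (.leaf 0)
(.leaf 206973501949))
(.leaf 0)))
(.node (.node (.node (.leaf 0)
(.leaf 154897154559))
(.node (.leaf 0)
(.leaf 215296050867)))
(.node (.node (.leaf 0)
(.leaf 5099617680437332000697713268491550723))
(.leaf 0))))
(.node (.node (.node (.node (.leaf 0)
(.leaf 108448579590))
(.node (.leaf 0)
(.leaf 307113952415)))
(.node (.node (.leaf 0)
(.leaf 233025766559))
(.leaf 0)))
(.node (.node (.node (.leaf 0)
(.leaf 183096902820))
(.node (.leaf 0)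
(.leaf 21026846899168179235500852991)))
(.node (.node (.leaf 0)
(.leaf 277572223489))
(.leaf 6174015489)))))))))))

def l0 : List Ax := [.Y false,
  .Y true,
  .u1 false,
  .u2 false,
  .u1 true,
  .u2 true,
  .ex2 false 0 1 2 3 5,
  .ex2 false 1 2 0 5 10,
  .ex2 false 2 1 0 3 4,
  .ex2 false 2 1 0 4 5,
  .ex3 false 1 0 2 3 5 10,
  .ex2 false 0 1 5 2 3,
  .ex3 false 1 0 5 3 4 10,
  .ex2 false 0 2 4 5 6,
  .ex2 false 0 4 2 5 10,
  .ex3 false 2 0 5 3 4 10,
  .ex2 false 5 2 0 4 9,
  .ex2 false 5 2 0 4 10,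
  .ex2 false 3 0 5 4 9,
  .ex2 false 3 0 6 4 9,
  .ex2 false 3 0 6 4 10,
  .ex2 false 3 0 8 4 10,
  .ex2 false 0 4 5 1 2,
  .ex2 false 4 0 5 3 9,
  .ex2 false 4 0 5 3 10,
  .ex2 false 4 0 8 3 9,
  .ex2 false 4 0 8 3 10,
  .ex2 false 4 10 0 1 5,
  .ex3 false 0 5 6 2 3 4,
  .ex3 false 0 5 6 3 4 9,
  .ex3 false 0 5 6 3 4 10,
  .ex3 false 7 0 5 3 4 9,
  .ex3 false 0 5 7 3 4 10,
  .ex2 false 9 0 5 3 4,
  .ex3 false 0 7 8 3 4 10,
  .ex2 false 1 2 3 0 6,
  .ex2 false 2 1 3 0 5,
  .ex2 false 2 1 3 0 6,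
  .ex2 false 3 2 1 0 5,
  .ex3 false 2 1 3 0 5 6,
  .ex2 false 1 2 3 5 6,
  .ex2 false 2 1 3 5 6,
  .ex2 false 2 1 3 5 10,
  .ex2 false 3 2 1 4 9,
  .ex2 false 3 2 1 4 10,
  .ex2 false 3 2 1 6 9,
  .ex2 false 3 2 1 6 10,
  .ex3 false 2 1 3 5 6 9,
  .ex2 false 1 2 4 5 10,
  .ex2 false 1 2 5 0 3,
  .ex3 false 2 1 5 0 3 10,
  .ex2 false 1 2 5 3 10,
  .ex2 false 2 1 5 3 6,
  .ex3 false 2 1 5 3 4 9,
  .ex3 false 2 1 5 3 4 10,
  .ex2 false 1 2 6 0 3,
  .ex2 false 1 3 4 0 2,
  .ex2 false 3 1 5 4 9,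
  .ex2 false 3 1 6 2 4,
  .ex2 false 3 1 6 4 9,
  .ex2 false 3 1 6 4 10,
  .ex2 false 3 1 8 4 10,
  .ex2 false 3 9 1 0 4,
  .ex2 false 3 9 1 0 6,
  .ex3 false 9 1 3 0 4 5,
  .ex2 false 1 3 10 0 2,
  .ex2 false 10 1 3 0 2,
  .ex2 false 3 10 1 0 6,
  .ex3 false 1 3 10 2 5 6,
  .ex2 false 4 1 5 3 9,
  .ex2 false 4 1 8 3 9,
  .ex2 false 4 1 8 3 10,
  .ex3 false 1 5 6 2 3 4,
  .ex3 false 1 5 6 3 4 9,
  .ex3 false 7 1 5 3 4 9,
  .ex3 false 1 5 7 3 4 10,
  .ex2 false 9 1 5 3 4,
  .ex2 false 9 1 5 3 10,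
  .ex2 false 5 1 10 0 2,
  .ex2 false 10 1 5 3 9,
  .ex3 false 1 7 8 3 4 10,
  .ex3 false 1 9 10 0 2 5,
  .ex2 false 2 3 4 0 1,
  .ex2 false 3 2 4 1 6,
  .ex2 false 2 3 4 5 6,
  .ex2 false 3 2 4 5 6,
  .ex2 false 3 2 4 5 7,
  .ex2 false 3 2 4 5 8,
  .ex2 false 3 2 4 7 8,
  .ex2 false 4 2 3 5 6,
  .ex2 false 4 2 3 5 7,
  .ex2 false 4 2 3 5 8,
  .ex2 false 4 2 3 7 8,
  .ex3 false 2 3 4 5 6 7,
  .ex3 false 2 3 4 5 6 8,
  .ex2 false 3 2 5 1 4,
  .ex2 false 3 2 5 4 9,
  .ex2 false 3 2 6 4 9,
  .ex2 false 3 2 6 4 10,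
  .ex2 false 3 2 8 4 10,
  .ex2 false 2 3 10 0 1,
  .ex2 false 2 4 5 0 3,
  .ex3 false 4 2 5 0 3 10,
  .ex2 false 5 2 4 0 6,
  .ex2 false 2 4 5 1 3,
  .ex2 false 4 2 5 1 3,
  .ex3 false 2 4 5 1 3 6,
  .ex2 false 4 2 5 3 9,
  .ex2 false 4 2 5 3 10,
  .ex2 false 2 4 6 1 5,
  .ex2 false 4 2 8 3 9,
  .ex2 false 4 2 8 3 10,
  .ex2 false 2 6 5 1 3,
  .ex3 false 2 5 6 3 4 9,
  .ex2 false 2 7 5 3 4,
  .ex3 false 2 5 7 3 4 10,
  .ex3 false 2 7 8 3 4 10,
  .ex2 false 3 4 9 0 2,
  .ex2 false 9 4 3 0 10,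
  .ex2 false 3 4 9 1 2,
  .ex2 false 4 3 9 1 2,
  .ex2 false 9 3 4 5 6,
  .ex2 false 9 4 3 5 6,
  .ex2 false 3 4 10 0 2,
  .ex2 false 4 3 10 0 2,
  .ex2 false 3 4 10 1 2,
  .ex2 false 10 4 3 1 5,
  .ex2 false 10 3 4 5 6,
  .ex2 false 3 9 5 2 4,
  .ex2 false 3 9 5 4 10,
  .ex2 false 3 10 5 4 9,
  .ex2 false 3 9 6 0 1,
  .ex2 false 3 9 6 2 4,
  .ex2 false 3 9 6 4 10,
  .ex3 false 6 3 10 0 2 5,
  .ex2 false 3 10 6 0 4,
  .ex2 false 3 10 6 2 4,
  .ex2 false 3 10 6 4 9,
  .ex2 false 4 5 9 0 2,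
  .ex3 false 4 5 9 1 2 3,
  .ex2 false 4 9 5 2 3,
  .ex2 false 4 9 5 3 10,
  .ex2 false 9 4 5 3 6,
  .ex3 false 4 5 9 6 7 10,
  .ex3 false 4 5 10 0 1 3,
  .ex2 false 5 4 10 0 1,
  .ex2 false 4 5 10 0 2,
  .ex2 false 4 10 5 0 3,
  .ex2 false 5 10 4 0 3,
  .ex2 false 10 4 5 0 3,
  .ex3 false 4 5 10 1 2 3,
  .ex2 false 4 10 5 1 3,
  .ex2 false 10 4 5 1 3,
  .ex2 false 4 10 5 2 3,
  .ex2 false 10 4 5 2 3,
  .ex2 false 10 4 5 2 9,
  .ex2 false 4 10 5 3 9,
  .ex2 false 4 9 6 2 3,
  .ex2 false 4 9 6 3 10,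
  .ex3 false 4 6 10 0 1 3,
  .ex3 false 6 4 10 0 2 5,
  .ex2 false 10 4 6 3 7,
  .ex2 false 9 6 5 3 4,
  .ex3 false 9 5 7 2 3 4,
  .ex3 false 9 5 7 3 4 10,
  .ex3 false 10 5 7 3 4 9,
  .ex2 true 0 1 2 3 9,
  .ex2 true 0 1 2 3 10,
  .ex2 true 0 2 1 3 10,
  .ex2 true 0 1 2 4 5,
  .ex2 true 0 2 1 5 10,
  .ex2 true 1 0 2 5 10,
  .ex2 true 2 1 0 3 4,
  .ex2 true 2 1 0 4 10,
  .ex2 true 2 0 1 5 10,
  .ex3 true 0 1 2 4 5 10,
  .ex3 true 2 0 1 5 9 10,
  .ex2 true 3 0 1 5 10,
  .ex2 true 3 0 1 6 9,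
  .ex3 true 3 0 1 5 9 10,
  .ex2 true 4 1 0 2 5,
  .ex2 true 0 1 5 4 10,
  .ex2 true 1 0 5 9 10,
  .ex2 true 5 0 1 2 10,
  .ex2 true 5 0 1 4 10,
  .ex2 true 5 0 1 9 10,
  .ex2 true 5 1 0 9 10,
  .ex2 true 9 0 1 2 10,
  .ex3 true 9 0 1 3 5 6,
  .ex3 true 0 1 9 3 5 10,
  .ex3 true 1 0 10 2 3 4,
  .ex2 true 10 0 1 2 4,
  .ex2 true 10 0 1 3 5,
  .ex2 true 0 2 3 9 10,
  .ex2 true 4 2 0 6 10,
  .ex3 true 0 2 5 1 4 10,
  .ex2 true 5 0 2 4 7,
  .ex2 true 5 0 2 4 10,
  .ex2 true 5 2 0 9 10,
  .ex2 true 2 0 10 3 4,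
  .ex2 true 10 2 0 3 5,
  .ex2 true 10 2 0 4 5,
  .ex2 true 0 3 4 1 2,
  .ex2 true 3 0 9 1 4,
  .ex2 true 3 0 9 2 4,
  .ex2 true 3 0 9 4 6,
  .ex2 true 0 3 10 2 4,
  .ex2 true 10 3 0 1 5,
  .ex2 true 3 0 10 2 4,
  .ex2 true 3 0 10 4 5,
  .ex2 true 0 4 5 1 2,
  .ex2 true 4 6 0 1 3,
  .ex3 true 0 4 9 1 3 10,
  .ex2 true 4 0 9 3 5,
  .ex2 true 0 10 4 1 2,
  .ex2 true 4 0 10 1 3,
  .ex2 true 10 0 4 1 3,
  .ex2 true 4 0 10 1 9,
  .ex3 true 0 4 10 1 7 9,
  .ex2 true 4 0 10 3 5,
  .ex2 true 4 0 10 3 6,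
  .ex2 true 0 9 5 1 4,
  .ex2 true 0 10 5 1 2,
  .ex2 true 0 5 10 2 4,
  .ex2 true 0 5 10 3 4,
  .ex2 true 10 0 5 1 2,
  .ex3 true 0 7 9 3 4 5,
  .ex3 true 0 7 10 3 4 5,
  .ex2 true 0 9 10 3 4,
  .ex3 true 0 9 10 2 3 4,
  .ex3 true 0 9 10 3 4 5,
  .ex3 true 0 9 10 3 4 6,
  .ex2 true 1 2 3 0 9,
  .ex2 true 3 2 1 0 4,
  .ex3 true 2 1 3 0 4 9,
  .ex3 true 2 1 3 0 4 10,
  .ex2 true 1 2 3 9 10,
  .ex2 true 2 1 3 9 10,
  .ex2 true 3 2 1 4 5,
  .ex2 true 3 2 1 4 6,
  .ex2 true 3 2 1 6 10,
  .ex3 true 2 1 3 5 9 10,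
  .ex3 true 2 1 3 6 9 10,
  .ex2 true 1 2 4 0 10,
  .ex2 true 2 1 4 0 5,
  .ex2 true 4 2 1 5 10,
  .ex2 true 1 2 5 0 9,
  .ex2 true 1 2 5 0 10,
  .ex2 true 2 1 5 4 9,
  .ex2 true 5 2 1 4 10,
  .ex2 true 2 1 10 0 4,
  .ex2 true 10 2 1 0 5,
  .ex2 true 1 2 10 3 5,
  .ex2 true 1 2 10 4 9,
  .ex3 true 2 1 10 3 4 5,
  .ex2 true 10 2 1 3 5,
  .ex2 true 10 2 1 4 5,
  .ex2 true 10 2 1 5 9,
  .ex2 true 1 3 4 9 10,
  .ex2 true 1 3 5 0 2,
  .ex2 true 1 6 3 0 10,
  .ex2 true 3 1 8 2 4,
  .ex2 true 3 1 9 2 4,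
  .ex2 true 3 1 9 4 5,
  .ex2 true 3 1 9 4 6,
  .ex2 true 1 3 10 0 2,
  .ex2 true 3 1 10 2 4,
  .ex2 true 3 1 10 4 5,
  .ex2 true 3 1 10 4 6,
  .ex2 true 1 4 5 0 2,
  .ex2 true 4 1 9 3 5,
  .ex2 true 1 4 10 0 2,
  .ex2 true 10 4 1 0 5,
  .ex2 true 1 4 10 2 5,
  .ex2 true 4 1 10 3 5,
  .ex2 true 4 1 10 3 6,
  .ex2 true 1 5 10 0 2,
  .ex2 true 1 10 5 0 2,
  .ex2 true 1 10 5 2 4,
  .ex2 true 5 1 10 3 4,
  .ex2 true 10 6 1 4 5,
  .ex3 true 1 7 9 3 4 5,
  .ex3 true 1 7 10 3 4 5,
  .ex2 true 1 9 10 0 2,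
  .ex2 true 10 9 1 0 3,
  .ex2 true 1 10 9 3 4,
  .ex3 true 1 9 10 3 4 5,
  .ex3 true 1 9 10 3 4 6,
  .ex2 true 2 3 4 0 1,
  .ex2 true 3 2 4 0 1,
  .ex2 true 3 2 4 0 10,
  .ex2 true 4 3 2 0 5,
  .ex2 true 3 2 4 1 10,
  .ex2 true 4 3 2 1 5,
  .ex2 true 4 2 3 1 10,
  .ex3 true 3 2 4 1 5 10,
  .ex3 true 2 3 4 1 9 10,
  .ex2 true 3 2 4 7 9,
  .ex2 true 3 2 4 7 10,
  .ex2 true 3 2 4 8 9,
  .ex2 true 3 2 4 8 10,
  .ex2 true 3 2 4 9 10,
  .ex2 true 4 2 3 7 8,
  .ex2 true 4 2 3 7 9,
  .ex2 true 4 2 3 7 10,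
  .ex2 true 4 2 3 8 9,
  .ex2 true 4 2 3 8 10,
  .ex2 true 4 2 3 9 10,
  .ex3 true 2 3 4 7 9 10,
  .ex3 true 2 3 4 8 9 10,
  .ex2 true 2 3 5 0 1,
  .ex2 true 3 2 9 0 1,
  .ex2 true 3 2 9 1 4,
  .ex3 true 2 3 9 1 4 10,
  .ex2 true 3 2 9 4 5,
  .ex2 true 3 2 9 4 6,
  .ex2 true 3 2 10 0 1,
  .ex3 true 2 3 10 0 1 9,
  .ex2 true 2 3 10 0 4,
  .ex3 true 2 3 10 0 4 9,
  .ex2 true 2 3 10 1 4,
  .ex2 true 3 2 10 1 4,
  .ex3 true 2 3 10 1 4 9,
  .ex3 true 2 3 10 1 7 9,
  .ex2 true 10 2 3 1 9,
  .ex2 true 3 2 10 4 5,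
  .ex2 true 3 2 10 4 6,
  .ex2 true 2 4 5 0 1,
  .ex3 true 2 4 9 1 3 10,
  .ex2 true 4 2 9 3 5,
  .ex2 true 2 4 10 1 3,
  .ex2 true 10 4 2 1 5,
  .ex2 true 4 2 10 3 5,
  .ex2 true 4 2 10 3 6,
  .ex2 true 2 9 5 4 10,
  .ex2 true 2 10 5 0 1,
  .ex3 true 2 5 10 0 1 3,
  .ex2 true 5 2 10 0 1,
  .ex2 true 2 5 10 0 4,
  .ex2 true 2 10 5 1 4,
  .ex2 true 2 5 10 3 4,
  .ex3 true 2 7 9 3 4 5,
  .ex2 true 2 7 10 3 4,
  .ex3 true 2 7 10 3 4 5,
  .ex2 true 2 9 10 3 4,
  .ex3 true 2 9 10 3 4 5,
  .ex3 true 3 4 5 0 1 2,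
  .ex2 true 4 3 5 0 1,
  .ex2 true 3 4 5 0 2,
  .ex2 true 5 3 4 0 2,
  .ex3 true 3 4 5 0 2 10,
  .ex2 true 3 4 5 1 2,
  .ex2 true 4 3 5 1 2,
  .ex2 true 5 3 4 1 2,
  .ex3 true 3 4 5 1 2 10,
  .ex2 true 5 3 4 1 10,
  .ex2 true 5 3 4 2 10,
  .ex2 true 5 3 4 7 10,
  .ex2 true 5 3 4 9 10,
  .ex2 true 3 4 6 0 2,
  .ex2 true 3 4 6 1 2,
  .ex2 true 6 3 4 9 10,
  .ex2 true 6 4 3 9 10,
  .ex2 true 3 5 7 4 6,
  .ex2 true 3 5 9 0 1,
  .ex3 true 9 3 5 0 2 10,
  .ex2 true 3 5 9 2 4,
  .ex2 true 3 5 9 4 6,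
  .ex3 true 3 5 10 0 1 2,
  .ex2 true 3 5 10 0 1,
  .ex2 true 5 3 10 0 1,
  .ex2 true 10 3 5 0 1,
  .ex2 true 10 3 5 0 2,
  .ex2 true 10 5 3 0 9,
  .ex2 true 3 5 10 1 4,
  .ex2 true 3 5 10 2 4,
  .ex2 true 3 5 10 4 6,
  .ex2 true 3 6 10 1 9,
  .ex2 true 10 6 3 1 4,
  .ex2 true 3 6 10 2 4,
  .ex2 true 3 6 10 4 5,
  .ex2 true 6 3 10 4 9,
  .ex2 true 4 5 9 1 3,
  .ex2 true 9 5 4 1 3,
  .ex3 true 5 4 9 1 3 10,
  .ex2 true 4 5 9 2 3,
  .ex2 true 4 5 9 3 6,
  .ex2 true 5 4 10 0 1,
  .ex2 true 10 4 5 0 1,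
  .ex2 true 4 10 5 0 2,
  .ex2 true 10 4 5 0 2,
  .ex2 true 4 5 10 0 3,
  .ex3 true 4 5 10 1 2 3,
  .ex2 true 5 4 10 1 3,
  .ex2 true 10 5 4 1 9,
  .ex2 true 4 5 10 2 3,
  .ex2 true 4 5 10 3 6,
  .ex3 true 9 4 6 0 2 10,
  .ex2 true 4 6 9 2 3,
  .ex2 true 4 6 9 3 5,
  .ex2 true 4 6 10 0 3,
  .ex2 true 10 6 4 0 3,
  .ex2 true 6 4 10 1 3,
  .ex2 true 4 6 10 2 3,
  .ex2 true 4 6 10 3 5,
  .ex2 true 5 7 10 1 4,
  .ex3 true 5 7 10 2 3 4,
  .ex2 true 5 7 10 3 4,
  .ex3 true 5 7 10 3 4 6,
  .ex2 true 9 10 5 0 1,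
  .ex3 true 5 9 10 1 3 4,
  .ex2 true 5 9 10 1 4,
  .ex2 true 9 10 5 2 4,
  .ex2 true 5 9 10 3 4,
  .ex2 true 5 10 9 3 4,
  .ex3 true 5 9 10 3 4 6,
  .ex2 true 6 7 10 3 4,
  .ex2 true 6 7 10 4 9,
  .ex2 true 6 9 10 3 4,
  .ex2 true 6 10 9 3 4,
  .ch 3 4 9 0 1 2,
  .ch 3 4 10 0 1 2,
  .ch 3 5 9 0 1 2,
  .ch 3 5 10 0 1 2,
  .ch 3 5 9 0 2 1,
  .ch 3 5 10 0 2 1,
  .ch 3 5 9 2 1 0,
  .ch 3 5 10 2 1 0,
  .ch 3 6 9 0 1 2,
  .ch 3 6 10 0 1 2,
  .ch 3 6 9 0 2 1,
  .ch 3 6 10 0 2 1,
  .ch 3 6 10 2 1 0,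
  .ch 3 9 5 0 1 2,
  .ch 3 9 6 0 1 2,
  .ch 3 9 5 0 2 1,
  .ch 3 9 6 0 2 1,
  .ch 3 9 5 2 1 0,
  .ch 3 9 6 2 1 0,
  .ch 3 10 5 0 1 2,
  .ch 3 10 6 0 1 2,
  .ch 3 10 5 0 2 1,
  .ch 3 10 6 0 2 1,
  .ch 3 10 5 2 1 0,
  .ch 3 10 6 2 1 0,
  .ch 4 5 9 0 2 1,
  .ch 4 5 10 0 2 1,
  .ch 4 5 9 1 0 2,
  .ch 4 5 10 1 0 2,
  .ch 4 5 9 1 2 0,
  .ch 4 5 10 1 2 0,
  .ch 4 5 9 2 0 1,
  .ch 4 5 10 2 0 1,
  .ch 4 6 9 1 0 2,
  .ch 4 6 9 1 2 0,
  .ch 4 9 5 0 1 2,
  .ch 4 9 5 0 2 1,
  .ch 4 9 5 1 0 2,
  .ch 4 9 5 1 2 0,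
  .ch 4 10 5 0 2 1,
  .ch 4 10 5 1 0 2,
  .ch 4 10 6 1 0 2,
  .ch 4 10 5 1 2 0,
  .ch 4 10 6 1 2 0,
  .ch 5 4 9 0 1 2,
  .ch 5 4 10 0 1 2,
  .ch 5 4 10 0 2 1,
  .ch 5 4 9 1 0 2,
  .ch 5 4 10 1 0 2,
  .ch 5 4 10 1 2 0,
  .ch 5 4 10 2 0 1,
  .ch 5 4 9 2 1 0,
  .ch 5 4 10 2 1 0,
  .ch 5 7 10 1 0 2,
  .ch 5 9 4 0 1 2,
  .ch 5 9 4 0 2 1,
  .ch 5 9 7 0 2 1,
  .ch 5 9 10 0 2 1,
  .ch 5 9 4 1 2 0,
  .ch 5 9 7 1 2 0,
  .ch 5 9 10 1 2 0,
  .ch 5 9 4 2 0 1,
  .ch 5 9 7 2 0 1,
  .ch 5 9 10 2 0 1,
  .ch 5 9 4 2 1 0,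
  .ch 5 9 7 2 1 0,
  .ch 5 10 4 0 1 2,
  .ch 5 10 4 0 2 1,
  .ch 5 10 7 0 2 1,
  .ch 5 10 4 1 0 2,
  .ch 5 10 4 1 2 0,
  .ch 5 10 4 2 0 1,
  .ch 5 10 7 2 0 1,
  .ch 5 10 4 2 1 0,
  .ch 5 10 7 2 1 0,
  .ch 6 10 4 2 0 1,
  .ch 6 10 4 2 1 0,
  .ch 10 5 4 0 1 2,
  .ch 10 5 4 0 2 1,
  .ch 10 5 7 0 2 1]

theorem a0 : axchk 11 2 2 true (Tr.get ⟨9, 0, 0, 0⟩ v) (Tr.get 0 g) l0 500 0 = true := by
  decide +kernel

def l1 : List Ax := [.ch 10 5 4 1 0 2,
  .ch 10 5 4 1 2 0,
  .ch 10 5 4 2 0 1,
  .ch 10 5 7 2 0 1,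
  .tA false 5,
  .tA true 5,
  .tA false 6,
  .tA true 6,
  .tB false 7,
  .tB true 7,
  .tB false 8,
  .tB true 8,
  .tC false 9,
  .tC false 10,
  .ux false 3,
  .ux true 3,
  .uc 3 7,
  .u4 false 3 7 8,
  .u4 false 3 8 3,
  .u4 true 3 7 3,
  .ux false 4,
  .ux true 4,
  .uc 4 8,
  .u4 false 4 8 4,
  .u4 true 4 8 4,
  .ux false 5,
  .ux true 5,
  .uc 5 3,
  .uc 5 4,
  .uc 5 6,
  .uc 5 7,
  .uc 5 9,
  .uc 5 10,
  .u4 false 5 3 5,
  .u4 false 5 4 5,
  .u4 false 5 4 6,
  .u4 false 5 6 3,
  .u4 false 5 6 5,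
  .u5 false 5 4 7 3 10,
  .u5 false 5 4 9 5 3,
  .u5 false 5 4 9 6 3,
  .u5 false 5 4 10 6 5,
  .u5 false 5 9 10 3 0,
  .u3 true 5 3 4 6,
  .u3 true 5 3 6 7,
  .u3 true 5 3 6 9,
  .u3 true 5 3 6 10,
  .u3 true 5 6 9 10,
  .u4 true 5 3 10,
  .u4 true 5 10 5,
  .u5 true 5 0 10 5 2,
  .u5 true 5 1 10 5 2,
  .u5 true 5 3 6 5 4,
  .u5 true 5 4 6 5 3,
  .u5 true 5 6 10 0 9,
  .u5 true 5 6 10 1 4,
  .ux false 7,
  .ux true 7,
  .uc 7 3,
  .uc 7 4,
  .uc 7 5,
  .uc 7 6,
  .uc 7 8,
  .uc 7 9,
  .uc 7 10,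
  .u3 false 7 3 9 10,
  .u3 false 7 4 9 10,
  .u4 false 7 3 5,
  .u4 false 7 4 5,
  .u4 false 7 5 4,
  .u4 false 7 5 7,
  .u4 false 7 6 3,
  .u4 false 7 6 5,
  .u4 false 7 10 9,
  .u5 false 7 3 4 7 2,
  .u5 false 7 3 8 4 0,
  .u5 false 7 3 8 4 1,
  .u5 false 7 3 8 7 2,
  .u5 false 7 3 8 7 10,
  .u5 false 7 3 10 7 4,
  .u5 false 7 3 10 9 1,
  .u5 false 7 4 5 3 9,
  .u5 false 7 4 8 3 10,
  .u5 false 7 4 10 7 3,
  .u5 false 7 5 9 7 0,
  .u5 false 7 5 9 7 1,
  .u5 false 7 5 9 7 4,
  .u5 false 7 5 10 7 4,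
  .u3 true 7 3 5 6,
  .u3 true 7 4 5 6,
  .u4 true 7 4 9,
  .u4 true 7 4 10,
  .u4 true 7 9 7,
  .u4 true 7 10 4,
  .u4 true 7 10 7,
  .u5 true 7 3 4 7 2,
  .u5 true 7 3 5 7 4,
  .u5 true 7 3 5 10 4,
  .u5 true 7 3 8 4 0,
  .u5 true 7 3 8 4 1,
  .u5 true 7 3 8 4 2,
  .u5 true 7 3 9 4 2,
  .u5 true 7 3 10 4 2,
  .u5 true 7 4 8 7 0,
  .u5 true 7 4 8 7 1,
  .u5 true 7 4 8 7 2,
  .u5 true 7 4 9 3 1,
  .u5 true 7 4 9 3 5,
  .u5 true 7 4 10 3 6,
  .ux false 8,
  .ux true 8,
  .uc 8 3,
  .uc 8 4,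
  .uc 8 7,
  .uc 8 9,
  .uc 8 10,
  .u3 false 8 3 9 10,
  .u4 false 8 3 8,
  .u4 false 8 4 8,
  .u4 false 8 7 8,
  .u5 false 8 3 4 8 1,
  .u5 false 8 3 4 8 2,
  .u4 true 8 3 8,
  .u5 true 8 3 4 8 2,
  .u5 true 8 3 7 4 0,
  .u5 true 8 3 7 4 1,
  .u5 true 8 3 7 4 2,
  .u5 true 8 4 9 3 2,
  .u5 true 8 4 10 3 6,
  .ux false 9,
  .ux true 9,
  .uc 9 3,
  .uc 9 4,
  .uc 9 5,
  .uc 9 6,
  .uc 9 8,
  .uc 9 10,
  .u3 false 9 3 4 10,
  .u3 false 9 4 5 10,
  .u5 false 9 3 10 9 4,
  .u5 false 9 4 5 3 9,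
  .u5 false 9 4 6 3 0,
  .u5 false 9 4 6 3 1,
  .u5 false 9 4 6 3 2,
  .u5 false 9 4 10 9 3,
  .u5 false 9 8 10 3 7,
  .u3 true 9 3 5 6,
  .u4 true 9 3 9,
  .u4 true 9 4 9,
  .u4 true 9 10 9,
  .u5 true 9 3 4 9 2,
  .u5 true 9 3 5 9 4,
  .u5 true 9 3 6 9 5,
  .u5 true 9 3 8 4 0,
  .u5 true 9 3 8 4 2,
  .ux false 10,
  .ux true 10,
  .uc 10 3,
  .uc 10 4,
  .uc 10 5,
  .uc 10 6,
  .uc 10 8,
  .uc 10 9,
  .u3 false 10 3 4 9,
  .u3 false 10 3 5 9,
  .u3 false 10 4 5 9,
  .u3 false 10 4 8 9,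
  .u3 false 10 5 6 9,
  .u4 false 10 3 5,
  .u5 false 10 3 9 10 4,
  .u5 false 10 4 9 10 3,
  .u4 true 10 3 10,
  .u4 true 10 4 10,
  .u4 true 10 8 4,
  .u4 true 10 9 3,
  .u4 true 10 9 4,
  .u5 true 10 3 5 9 4,
  .u5 true 10 4 5 9 3,
  .u5 true 10 4 5 10 3,
  .u5 true 10 4 6 9 3,
  .u5 true 10 4 6 10 3,
  .w2 10 24 10,
  .w2 10 24 9,
  .w2 10 24 8,
  .w2 10 24 7,
  .w1 10 24 6,
  .w1 10 24 5,
  .w2 10 528 10,
  .w2 10 528 8,
  .w2 10 528 7,
  .w1 10 528 6,
  .w1 10 528 5,
  .w2 10 1040 9,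
  .w2 10 1040 8,
  .w2 10 1040 7,
  .w1 10 1040 6,
  .w1 10 1040 5,
  .w2 34 1040 9,
  .w2 34 1040 8,
  .w2 34 1040 7,
  .w1 34 1040 6,
  .w2 34 1040 3,
  .w2 12 24 10,
  .w2 12 24 9,
  .w2 12 24 8,
  .w2 12 24 7,
  .w1 12 24 6,
  .w1 12 24 5,
  .w2 12 1040 9,
  .w2 12 1040 8,
  .w2 12 1040 7,
  .w1 12 1040 6,
  .w1 12 1040 5,
  .w2 12 1040 1,
  .O 2 3 4 10 0,
  .w2 36 24 10,
  .w2 36 24 9,
  .w2 36 24 8,
  .w2 36 24 7,
  .w1 36 24 6,
  .w2 36 24 1,
  .O 2 5 3 4 0,
  .w2 36 1536 8,
  .w2 36 1536 7,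
  .w1 36 1536 6,
  .w2 36 1536 4,
  .w2 36 1536 3,
  .w2 24 10 10,
  .w2 24 10 9,
  .w1 24 10 8,
  .w1 24 10 7,
  .w1 24 10 6,
  .w1 24 10 5,
  .w2 24 514 10,
  .w1 24 514 8,
  .w1 24 514 7,
  .w1 24 514 6,
  .w1 24 514 5,
  .w2 24 1026 9,
  .w1 24 1026 8,
  .w1 24 1026 7,
  .w1 24 1026 6,
  .w1 24 1026 5,
  .w2 24 12 10,
  .w2 24 12 9,
  .w1 24 12 8,
  .w1 24 12 7,
  .w1 24 12 6,
  .w1 24 12 5,
  .w2 24 516 10,
  .w1 24 516 8,
  .w1 24 516 7,
  .w1 24 516 6,
  .w1 24 516 5,
  .w1 24 516 1,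
  .O 3 4 2 9 0,
  .w2 24 1032 9,
  .w1 24 1032 8,
  .w1 24 1032 7,
  .w1 24 1032 6,
  .w1 24 1032 5,
  .w2 24 1032 1,
  .w2 24 528 10,
  .w1 24 528 8,
  .w1 24 528 7,
  .w1 24 528 6,
  .w1 24 528 5,
  .w2 24 528 1,
  .w2 24 1040 9,
  .w1 24 1040 8,
  .w1 24 1040 7,
  .w1 24 1040 6,
  .w1 24 1040 5,
  .w2 24 1040 1,
  .w2 24 1056 9,
  .w1 24 1056 8,
  .w1 24 1056 7,
  .w1 24 1056 6,
  .w2 24 1056 1,
  .w2 40 10 10,
  .w2 40 10 9,
  .w1 40 10 8,
  .w1 40 10 7,
  .w1 40 10 6,
  .w1 40 10 4,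
  .w2 1032 24 9,
  .w2 1032 24 8,
  .w2 1032 24 7,
  .w1 1032 24 6,
  .w1 1032 24 5,
  .w1 1032 24 2,
  .w1 1032 24 1,
  .w2 1032 1040 9,
  .w2 1032 1040 8,
  .w2 1032 1040 7,
  .w1 1032 1040 6,
  .w1 1032 1040 5,
  .w1 1032 1040 1,
  .w2 1032 1536 8,
  .w2 1032 1536 7,
  .w1 1032 1536 6,
  .w1 1032 1536 5,
  .w2 1032 1536 4,
  .w1 1032 1536 2,
  .w2 48 1026 9,
  .w1 48 1026 8,
  .w1 48 1026 7,
  .w1 48 1026 6,
  .w1 48 1026 3,
  .w2 48 1026 2,
  .O 4 5 1 10 0,
  .w2 48 20 10,
  .w2 48 20 9,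
  .w1 48 20 8,
  .w1 48 20 7,
  .w1 48 20 6,
  .w1 48 20 3,
  .w2 48 1028 9,
  .w1 48 1028 8,
  .w1 48 1028 7,
  .w1 48 1028 6,
  .w1 48 1028 3,
  .w2 48 24 10,
  .w2 48 24 9,
  .w1 48 24 8,
  .w1 48 24 7,
  .w1 48 24 6,
  .w1 48 24 1,
  .w2 48 24 1,
  .w2 48 1032 9,
  .w1 48 1032 8,
  .w1 48 1032 7,
  .w1 48 1032 6,
  .w2 48 1032 1,
  .w2 48 1040 9,
  .w1 48 1040 8,
  .w1 48 1040 7,
  .w1 48 1040 6,
  .w1 48 1040 3,
  .w1 48 1040 1,
  .w2 48 1040 1,
  .w2 48 1056 9,
  .w1 48 1056 8,
  .w1 48 1056 7,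
  .w1 48 1056 6,
  .w1 48 1056 3,
  .w2 48 1056 2,
  .w2 48 1056 1,
  .O 4 5 5 10 0,
  .w2 96 12 10,
  .w2 96 12 9,
  .w1 96 12 8,
  .w1 96 12 7,
  .w1 96 12 4,
  .w1 96 12 1,
  .O 5 6 2 3 0,
  .w2 96 1028 9,
  .w1 96 1028 8,
  .w1 96 1028 7,
  .w1 96 1028 4,
  .w1 96 1028 3,
  .w2 96 520 10,
  .w1 96 520 8,
  .w1 96 520 7,
  .w1 96 520 4,
  .w2 96 520 1,
  .w2 5 24 10,
  .w2 5 24 9,
  .w2 5 24 8,
  .w2 5 24 7,
  .w1 5 24 6,
  .w1 5 24 5,
  .O 0 2 3 4 1,
  .w2 9 24 10,
  .w2 9 24 9,
  .w2 9 24 8,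
  .w2 9 24 7,
  .w1 9 24 6,
  .w1 9 24 5,
  .w2 9 528 10,
  .w2 9 528 8,
  .w2 9 528 7,
  .w1 9 528 6,
  .w1 9 528 5,
  .w2 9 1040 9,
  .w2 9 1040 8,
  .w2 9 1040 7,
  .w1 9 1040 6,
  .w1 9 1040 5,
  .w2 33 24 10,
  .w2 33 24 9,
  .w2 33 24 8,
  .w2 33 24 7,
  .w1 33 24 6,
  .w1 33 24 2,
  .O 0 5 3 4 1,
  .w2 33 520 10,
  .w2 33 520 8,
  .w2 33 520 7,
  .w1 33 520 6,
  .w2 33 520 4,
  .w2 33 1032 9,
  .w2 33 1032 8,
  .w2 33 1032 7,
  .w1 33 1032 6,
  .w2 33 1032 4,
  .w2 33 528 10,
  .w2 33 528 8,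
  .w2 33 528 7,
  .w1 33 528 6,
  .w2 33 528 3,
  .w1 12 24 0,
  .O 2 3 3 4 1,
  .w1 36 1536 0,
  .O 2 5 9 10 1,
  .w2 24 513 10,
  .w1 24 513 8,
  .w1 24 513 7,
  .w1 24 513 6,
  .w1 24 513 5,
  .w2 24 1025 9,
  .w1 24 1025 8,
  .w1 24 1025 7,
  .w1 24 1025 6,
  .w1 24 1025 5,
  .w2 24 12 0,
  .O 3 4 2 3 1,
  .w1 24 1032 0,
  .w2 24 528 0,
  .w1 24 1040 0,
  .w2 24 1056 0,
  .w2 40 1025 9,
  .w1 40 1025 8,
  .w1 40 1025 7,
  .w1 40 1025 6,
  .w1 40 1025 4,
  .w1 1032 24 0,
  .O 3 10 3 4 1,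
  .w2 1032 1040 0,
  .w1 1032 1536 0,
  .O 3 10 9 10 1,
  .w2 48 20 0,
  .O 4 5 2 4 1,
  .w1 48 1028 0,
  .O 4 5 2 10 1,
  .w1 48 24 0,
  .w2 48 24 0,
  .w1 48 1032 0,
  .w1 48 1040 0,
  .w2 48 1040 0,
  .w1 48 1056 0,
  .w2 48 1056 0,
  .w1 96 1028 0,
  .O 5 6 2 10 1,
  .w1 96 520 0,
  .w2 3 24 10,
  .w2 3 24 9,
  .w2 3 24 8,
  .w2 3 24 7,
  .w1 3 24 6,
  .w1 3 24 5,
  .O 0 1 3 4 2,
  .w1 9 24 1,
  .w2 9 24 1,
  .O 0 3 3 4 2,
  .w2 9 528 1,
  .O 0 3 4 9 2,
  .w2 9 1040 1,
  .O 0 3 4 10 2,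
  .w2 33 520 1,
  .O 0 5 3 9 2,
  .w2 33 1032 1,
  .O 0 5 3 10 2,
  .w2 33 528 1,
  .O 0 5 4 9 2,
  .w1 10 24 0,
  .w2 10 24 0,
  .O 1 3 3 4 2,
  .w2 10 528 0,
  .O 1 3 4 9 2,
  .w2 10 1040 0,
  .O 1 3 4 10 2,
  .w2 34 1040 0,
  .O 1 5 4 10 2,
  .w2 24 3 10,
  .w2 24 3 9,
  .w1 24 3 8,
  .w1 24 3 7,
  .w1 24 3 6,
  .w1 24 3 5,
  .O 3 4 0 1 2,
  .w1 24 513 1,
  .O 3 4 0 9 2,
  .w2 24 1025 1,
  .O 3 4 0 10 2,
  .w1 24 10 0,
  .w2 24 10 0,
  .O 3 4 1 3 2,
  .w1 24 514 0,
  .O 3 4 1 9 2]

theorem a1 : axchk 11 2 2 true (Tr.get ⟨9, 0, 0, 0⟩ v) (Tr.get 0 g) l1 1000 500 = true := by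
  decide +kernel

def l2 : List Ax := [.w1 24 1026 0,
  .w2 24 1026 0,
  .O 3 4 1 10 2,
  .O 3 4 3 10 2,
  .O 3 4 4 9 2,
  .O 3 4 4 10 2,
  .O 3 4 5 10 2,
  .w1 40 1025 1,
  .O 3 5 0 10 2,
  .w1 40 10 0,
  .O 3 5 1 3 2,
  .O 3 10 3 4 2,
  .O 3 10 4 10 2,
  .O 4 5 3 4 2,
  .O 4 5 3 10 2,
  .O 4 5 4 10 2,
  .O 4 5 5 10 2,
  .O 5 6 3 9 2]

theorem a2 : axchk 11 2 2 true (Tr.get ⟨9, 0, 0, 0⟩ v) (Tr.get 0 g) l2 1018 1000 = true := by
  decide +kernel

theorem t0 : chk (Tr.get 0 g) (Tr.get 0 h) 500 1018 = true := by decide +kernel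

theorem t1 : chk (Tr.get 0 g) (Tr.get 0 h) 327 1518 = true := by decide +kernel

theorem z : Tr.get 0 g 1844 = 0 := by decide +kernel

theorem bad {α : Type*} [DecidableEq α] (c : Cx α) (hn : c.n = 11) (ha : c.a = 2) (hb : c.b = 2)
    (hcl : c.closed = true) : False := by
  have s0 := axchk_sound c hn ha hb hcl (by norm_num) _ _ _ _ _ a0
  have s0 := s0.trans (axchk_sound c hn ha hb hcl (by norm_num) _ _ _ _ _ a1)
  have s0 := s0.trans (axchk_sound c hn ha hb hcl (by norm_num) _ _ _ _ _ a2)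
  have s0 := chk_sound' t0 (e := 1518) rfl s0
  have s0 := chk_sound' t1 (e := 1845) rfl s0
  exact s0.false z

end Pool.Agent.Gabow87.K3.C222
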