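import Pool.Agent.Gabow87.Refute

/-! Certificate; see `Pool/Agent/Gabow87/Refute.lean`. -/

set_option autoImplicit false
set_option maxRecDepth 100000

namespace Pool.Agent.Gabow87.K3.C303

open Pool.Agent.Gabow87.Sat

def v : Tr VC := (.node (.node (.node (.node (.node (.node (.node (.node (.node (.leaf ⟨0, 7, 0, 0⟩)
(.leaf ⟨2, 6, 4, 0⟩))
(.node (.leaf ⟨1, 641, 0, 0⟩)
(.leaf ⟨5, 136, 136, 1⟩)))
(.node (.node (.leaf ⟨0, 532, 0, 0⟩)
(.leaf ⟨5, 10, 10, 7⟩))
(.leaf ⟨1, 392, 0, 0⟩)))
(.node (.node (.node (.leaf ⟨0, 641, 0, 0⟩)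
(.leaf ⟨2, 9, 3, 0⟩))
(.node (.leaf ⟨1, 1538, 0, 0⟩)
(.leaf ⟨5, 10, 3, 4⟩)))
(.node (.node (.leaf ⟨0, 1104, 0, 0⟩)
(.leaf ⟨5, 24, 24, 5⟩))
(.leaf ⟨2, 3, 5, 0⟩))))
(.node (.node (.node (.node (.leaf ⟨0, 131, 0, 0⟩)
(.leaf ⟨2, 7, 6, 0⟩))
(.node (.leaf ⟨1, 1030, 0, 0⟩)
(.leaf ⟨5, 24, 17, 6⟩)))
(.node (.node (.leaf ⟨0, 552, 0, 0⟩)
(.leaf ⟨5, 10, 1280, 9⟩))
(.leaf ⟨1, 656, 0, 0⟩)))
(.node (.node (.node (.leaf ⟨0, 1058, 0, 0⟩)
(.leaf ⟨2, 10, 6, 0⟩))
(.leaf ⟨1, 1284, 0, 0⟩))
(.node (.node (.leaf ⟨1, 73, 0, 0⟩)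
(.leaf ⟨5, 72, 24, 8⟩))
(.leaf ⟨2, 5, 5, 0⟩)))))
(.node (.node (.node (.node (.node (.leaf ⟨0, 21, 0, 0⟩)
(.leaf ⟨3, 7, 0, 0⟩))
(.node (.leaf ⟨1, 74, 0, 0⟩)
(.leaf ⟨5, 136, 528, 8⟩)))
(.node (.node (.leaf ⟨0, 88, 0, 0⟩)
(.leaf ⟨5, 10, 20, 6⟩))
(.leaf ⟨1, 304, 0, 0⟩)))
(.node (.node (.node (.leaf ⟨0, 522, 0, 0⟩)
(.leaf ⟨2, 10, 10, 0⟩))
(.leaf ⟨1, 148, 0, 0⟩))
(.node (.node (.leaf ⟨0, 1216, 0, 0⟩)
(.leaf ⟨5, 24, 1032, 9⟩))
(.leaf ⟨2, 4, 4, 0⟩))))
(.node (.node (.node (.node (.leaf ⟨0, 81, 0, 0⟩)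
(.leaf ⟨3, 8, 3, 0⟩))
(.node (.leaf ⟨1, 1058, 0, 0⟩)
(.leaf ⟨5, 136, 520, 0⟩)))
(.node (.node (.leaf ⟨0, 1160, 0, 0⟩)
(.leaf ⟨5, 24, 10, 7⟩))
(.leaf ⟨1, 1568, 0, 0⟩)))
(.node (.node (.node (.leaf ⟨0, 140, 0, 0⟩)
(.leaf ⟨5, 10, 6, 8⟩))
(.leaf ⟨1, 104, 0, 0⟩))
(.node (.node (.leaf ⟨1, 1029, 0, 0⟩)
(.leaf ⟨5, 136, 24, 5⟩))
(.leaf ⟨3, 5, 6, 0⟩))))))
(.node (.node (.node (.node (.node (.node (.leaf ⟨1, 14, 0, 0⟩)
(.leaf ⟨2, 6, 7, 0⟩))
(.node (.leaf ⟨1, 1537, 0, 0⟩)
(.leaf ⟨5, 136, 520, 5⟩)))
(.node (.node (.leaf ⟨0, 196, 0, 0⟩)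
(.leaf ⟨5, 10, 20, 10⟩))
(.leaf ⟨1, 1288, 0, 0⟩)))
(.node (.node (.node (.leaf ⟨0, 74, 0, 0⟩)
(.leaf ⟨2, 9, 6, 0⟩))
(.node (.leaf ⟨1, 268, 0, 0⟩)
(.leaf ⟨5, 24, 17, 1⟩)))
(.node (.node (.leaf ⟨0, 1552, 0, 0⟩)
(.leaf ⟨5, 24, 520, 7⟩))
(.leaf ⟨2, 3, 7, 0⟩))))
(.node (.node (.node (.node (.leaf ⟨0, 1033, 0, 0⟩)
(.leaf ⟨2, 7, 10, 0⟩))
(.node (.leaf ⟨1, 530, 0, 0⟩)
(.leaf ⟨5, 24, 1032, 0⟩)))
(.node (.node (.leaf ⟨0, 584, 0, 0⟩)
(.leaf ⟨5, 10, 1280, 4⟩))
(.leaf ⟨1, 1552, 0, 0⟩)))
(.node (.node (.node (.leaf ⟨0, 642, 0, 0⟩)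
(.leaf ⟨2, 10, 9, 0⟩))
(.leaf ⟨1, 152, 0, 0⟩))
(.node (.node (.leaf ⟨1, 259, 0, 0⟩)
(.leaf ⟨5, 136, 24, 10⟩))
(.leaf ⟨3, 5, 3, 0⟩)))))
(.node (.node (.node (.node (.node (.leaf ⟨0, 73, 0, 0⟩)
(.leaf ⟨2, 7, 4, 0⟩))
(.node (.leaf ⟨1, 262, 0, 0⟩)
(.leaf ⟨5, 24, 17, 10⟩)))
(.node (.node (.leaf ⟨0, 1048, 0, 0⟩)
(.leaf ⟨5, 10, 24, 8⟩))
(.leaf ⟨1, 336, 0, 0⟩)))
(.node (.node (.node (.leaf ⟨0, 82, 0, 0⟩)
(.leaf ⟨2, 10, 3, 0⟩))
(.leaf ⟨1, 1092, 0, 0⟩))
(.node (.node (.leaf ⟨1, 21, 0, 0⟩)
(.leaf ⟨5, 24, 1032, 5⟩))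
(.leaf ⟨2, 4, 9, 0⟩))))
(.node (.node (.node (.node (.leaf ⟨0, 1041, 0, 0⟩)
(.leaf ⟨3, 8, 10, 0⟩))
(.node (.leaf ⟨1, 642, 0, 0⟩)
(.leaf ⟨5, 10, 3, 8⟩)))
(.node (.node (.leaf ⟨0, 1072, 0, 0⟩)
(.leaf ⟨5, 24, 24, 9⟩))
(.leaf ⟨1, 1664, 0, 0⟩)))
(.node (.node (.node (.leaf ⟨0, 52, 0, 0⟩)
(.leaf ⟨5, 10, 6, 4⟩))
(.leaf ⟨1, 1064, 0, 0⟩))
(.node (.node (.leaf ⟨1, 273, 0, 0⟩)
(.leaf ⟨5, 136, 136, 8⟩))
(.leaf ⟨2, 6, 1, 0⟩)))))))
(.node (.node (.node (.node (.node (.node (.node (.leaf ⟨0, 14, 0, 0⟩)
(.leaf ⟨2, 6, 5, 0⟩))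
(.node (.leaf ⟨1, 769, 0, 0⟩)
(.leaf ⟨5, 136, 520, 8⟩)))
(.node (.node (.leaf ⟨0, 100, 0, 0⟩)
(.leaf ⟨5, 10, 10, 5⟩))
(.leaf ⟨1, 1160, 0, 0⟩)))
(.node (.node (.node (.leaf ⟨0, 26, 0, 0⟩)
(.leaf ⟨2, 9, 4, 0⟩))
(.node (.leaf ⟨1, 76, 0, 0⟩)
(.leaf ⟨5, 10, 24, 0⟩)))
(.node (.node (.leaf ⟨0, 656, 0, 0⟩)
(.leaf ⟨5, 24, 520, 10⟩))
(.leaf ⟨2, 3, 6, 0⟩))))
(.node (.node (.node (.node (.leaf ⟨0, 521, 0, 0⟩)
(.leaf ⟨2, 7, 9, 0⟩))
(.node (.leaf ⟨1, 82, 0, 0⟩)
(.leaf ⟨5, 24, 24, 0⟩)))
(.node (.node (.leaf ⟨0, 200, 0, 0⟩)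
(.leaf ⟨5, 10, 1280, 6⟩))
(.leaf ⟨1, 784, 0, 0⟩)))
(.node (.node (.node (.leaf ⟨0, 322, 0, 0⟩)
(.leaf ⟨2, 10, 8, 0⟩))
(.leaf ⟨1, 56, 0, 0⟩))
(.node (.node (.leaf ⟨1, 137, 0, 0⟩)
(.leaf ⟨5, 72, 24, 5⟩))
(.leaf ⟨3, 5, 5, 0⟩)))))
(.node (.node (.node (.node (.node (.leaf ⟨0, 41, 0, 0⟩)
(.leaf ⟨2, 7, 3, 0⟩))
(.node (.leaf ⟨1, 138, 0, 0⟩)
(.leaf ⟨5, 136, 528, 5⟩)))
(.node (.node (.leaf ⟨0, 280, 0, 0⟩)
(.leaf ⟨5, 10, 24, 10⟩))
(.leaf ⟨1, 1072, 0, 0⟩)))
(.node (.node (.node (.leaf ⟨0, 1030, 0, 0⟩)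
(.leaf ⟨3, 10, 0, 0⟩))
(.leaf ⟨1, 532, 0, 0⟩))
(.node (.node (.leaf ⟨1, 25, 0, 0⟩)
(.leaf ⟨5, 24, 1032, 7⟩))
(.leaf ⟨2, 4, 5, 0⟩))))
(.node (.node (.node (.node (.leaf ⟨0, 273, 0, 0⟩)
(.leaf ⟨3, 8, 9, 0⟩))
(.node (.leaf ⟨1, 578, 0, 0⟩)
(.leaf ⟨5, 10, 3, 10⟩)))
(.node (.node (.leaf ⟨0, 304, 0, 0⟩)
(.leaf ⟨5, 24, 10, 5⟩))
(.leaf ⟨1, 1600, 0, 0⟩)))
(.node (.node (.node (.leaf ⟨0, 524, 0, 0⟩)
(.leaf ⟨5, 10, 6, 6⟩))
(.leaf ⟨1, 296, 0, 0⟩))
(.node (.node (.leaf ⟨1, 81, 0, 0⟩)
(.leaf ⟨5, 136, 136, 10⟩))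
(.leaf ⟨3, 5, 7, 0⟩))))))
(.node (.node (.node (.node (.node (.node (.leaf ⟨0, 25, 0, 0⟩)
(.leaf ⟨2, 7, 7, 0⟩))
(.node (.leaf ⟨1, 22, 0, 0⟩)
(.leaf ⟨5, 136, 520, 1⟩)))
(.node (.node (.leaf ⟨0, 1156, 0, 0⟩)
(.leaf ⟨5, 10, 20, 8⟩))
(.leaf ⟨1, 112, 0, 0⟩)))
(.node (.node (.node (.leaf ⟨0, 138, 0, 0⟩)
(.leaf ⟨2, 9, 10, 0⟩))
(.leaf ⟨1, 1036, 0, 0⟩))
(.node (.node (.leaf ⟨0, 448, 0, 0⟩)
(.leaf ⟨5, 24, 520, 5⟩))
(.leaf ⟨2, 3, 10, 0⟩))))
(.node (.node (.node (.node (.leaf ⟨0, 1027, 0, 0⟩)
(.leaf ⟨3, 8, 8, 0⟩))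
(.node (.leaf ⟨1, 290, 0, 0⟩)
(.leaf ⟨5, 136, 24, 0⟩)))
(.node (.node (.leaf ⟨0, 392, 0, 0⟩)
(.leaf ⟨5, 24, 10, 9⟩))
(.leaf ⟨1, 800, 0, 0⟩)))
(.node (.node (.node (.leaf ⟨0, 44, 0, 0⟩)
(.leaf ⟨5, 10, 6, 10⟩))
(.leaf ⟨1, 536, 0, 0⟩))
(.node (.node (.leaf ⟨1, 515, 0, 0⟩)
(.leaf ⟨5, 136, 24, 8⟩))
(.leaf ⟨3, 5, 4, 0⟩)))))
(.node (.node (.node (.node (.node (.leaf ⟨0, 137, 0, 0⟩)
(.leaf ⟨2, 7, 5, 0⟩))
(.node (.leaf ⟨1, 518, 0, 0⟩)
(.leaf ⟨5, 24, 17, 8⟩)))
(.node (.node (.leaf ⟨0, 168, 0, 0⟩)
(.leaf ⟨5, 10, 24, 6⟩))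
(.leaf ⟨1, 1104, 0, 0⟩)))
(.node (.node (.node (.leaf ⟨0, 98, 0, 0⟩)
(.leaf ⟨2, 10, 4, 0⟩))
(.leaf ⟨1, 1156, 0, 0⟩))
(.node (.node (.leaf ⟨1, 19, 0, 0⟩)
(.leaf ⟨5, 72, 24, 10⟩))
(.leaf ⟨2, 4, 10, 0⟩))))
(.node (.node (.node (.node (.leaf ⟨0, 161, 0, 0⟩)
(.leaf ⟨3, 9, 9, 0⟩))
(.node (.leaf ⟨1, 770, 0, 0⟩)
(.leaf ⟨5, 10, 3, 6⟩)))
(.node (.node (.leaf ⟨0, 336, 0, 0⟩)
(.leaf ⟨5, 24, 24, 7⟩))
(.leaf ⟨2, 3, 3, 0⟩)))
(.node (.node (.node (.leaf ⟨0, 148, 0, 0⟩)
(.leaf ⟨5, 10, 10, 9⟩))
(.leaf ⟨1, 584, 0, 0⟩))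
(.node (.node (.leaf ⟨1, 1041, 0, 0⟩)
(.leaf ⟨5, 136, 136, 5⟩))
(.leaf ⟨2, 6, 3, 0⟩))))))))
(.node (.node (.node (.node (.node (.node (.node (.node (.leaf ⟨1, 7, 0, 0⟩)
(.leaf ⟨3, 6, 4, 0⟩))
(.node (.leaf ⟨1, 1153, 0, 0⟩)
(.leaf ⟨5, 136, 520, 10⟩)))
(.node (.node (.leaf ⟨0, 1044, 0, 0⟩)
(.leaf ⟨5, 10, 10, 6⟩))
(.leaf ⟨1, 648, 0, 0⟩)))
(.node (.node (.node (.leaf ⟨0, 1153, 0, 0⟩)
(.leaf ⟨3, 9, 3, 0⟩))
(.node (.leaf ⟨1, 44, 0, 0⟩)
(.leaf ⟨5, 10, 10, 0⟩)))
(.node (.node (.leaf ⟨0, 400, 0, 0⟩)
(.leaf ⟨5, 24, 24, 1⟩))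
(.leaf ⟨3, 3, 5, 0⟩))))
(.node (.node (.node (.node (.leaf ⟨0, 265, 0, 0⟩)
(.leaf ⟨3, 7, 6, 0⟩))
(.node (.leaf ⟨1, 50, 0, 0⟩)
(.leaf ⟨5, 24, 17, 5⟩)))
(.node (.node (.leaf ⟨0, 1064, 0, 0⟩)
(.leaf ⟨5, 10, 1280, 7⟩))
(.leaf ⟨1, 1168, 0, 0⟩)))
(.node (.node (.node (.leaf ⟨0, 194, 0, 0⟩)
(.leaf ⟨3, 10, 6, 0⟩))
(.leaf ⟨1, 1540, 0, 0⟩))
(.node (.node (.leaf ⟨1, 67, 0, 0⟩)
(.leaf ⟨5, 72, 24, 7⟩))
(.leaf ⟨2, 5, 1, 0⟩)))))
(.node (.node (.node (.node (.node (.leaf ⟨0, 11, 0, 0⟩)
(.leaf ⟨3, 7, 1, 0⟩))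
(.node (.leaf ⟨1, 70, 0, 0⟩)
(.leaf ⟨5, 136, 528, 6⟩)))
(.node (.node (.leaf ⟨0, 152, 0, 0⟩)
(.leaf ⟨5, 10, 20, 5⟩))
(.leaf ⟨1, 560, 0, 0⟩)))
(.node (.node (.node (.leaf ⟨0, 1034, 0, 0⟩)
(.leaf ⟨3, 10, 10, 0⟩))
(.leaf ⟨1, 276, 0, 0⟩))
(.node (.node (.leaf ⟨0, 1600, 0, 0⟩)
(.leaf ⟨5, 24, 1032, 8⟩))
(.leaf ⟨3, 4, 4, 0⟩))))
(.node (.node (.node (.node (.leaf ⟨0, 145, 0, 0⟩)
(.leaf ⟨2, 8, 9, 0⟩))
(.node (.leaf ⟨1, 322, 0, 0⟩)
(.leaf ⟨5, 136, 528, 0⟩)))
(.node (.node (.leaf ⟨0, 1544, 0, 0⟩)
(.leaf ⟨5, 24, 10, 6⟩))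
(.leaf ⟨1, 1216, 0, 0⟩)))
(.node (.node (.node (.leaf ⟨0, 268, 0, 0⟩)
(.leaf ⟨5, 10, 6, 7⟩))
(.leaf ⟨1, 168, 0, 0⟩))
(.node (.node (.leaf ⟨1, 1027, 0, 0⟩)
(.leaf ⟨5, 136, 24, 1⟩))
(.leaf ⟨2, 5, 7, 0⟩))))))
(.node (.node (.node (.node (.node (.node (.leaf ⟨1, 28, 0, 0⟩)
(.leaf ⟨3, 6, 7, 0⟩))
(.node (.leaf ⟨1, 26, 0, 0⟩)
(.leaf ⟨5, 136, 520, 4⟩)))
(.node (.node (.leaf ⟨0, 644, 0, 0⟩)
(.leaf ⟨5, 10, 20, 9⟩))
(.leaf ⟨1, 1544, 0, 0⟩)))
(.node (.node (.node (.leaf ⟨0, 70, 0, 0⟩)
(.leaf ⟨3, 9, 6, 0⟩))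
(.node (.leaf ⟨1, 524, 0, 0⟩)
(.leaf ⟨5, 24, 10, 0⟩)))
(.node (.node (.leaf ⟨0, 1568, 0, 0⟩)
(.leaf ⟨5, 24, 520, 6⟩))
(.leaf ⟨3, 3, 7, 0⟩))))
(.node (.node (.node (.node (.leaf ⟨0, 1029, 0, 0⟩)
(.leaf ⟨3, 7, 10, 0⟩))
(.node (.leaf ⟨1, 1042, 0, 0⟩)
(.leaf ⟨5, 72, 24, 0⟩)))
(.node (.node (.leaf ⟨0, 1096, 0, 0⟩)
(.leaf ⟨5, 24, 10, 10⟩))
(.leaf ⟨1, 1184, 0, 0⟩)))
(.node (.node (.node (.leaf ⟨0, 1154, 0, 0⟩)
(.leaf ⟨3, 10, 9, 0⟩))
(.leaf ⟨1, 280, 0, 0⟩))
(.node (.node (.leaf ⟨1, 521, 0, 0⟩)
(.leaf ⟨5, 136, 24, 9⟩))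
(.leaf ⟨2, 5, 4, 0⟩)))))
(.node (.node (.node (.node (.node (.leaf ⟨0, 67, 0, 0⟩)
(.leaf ⟨3, 7, 4, 0⟩))
(.node (.leaf ⟨1, 522, 0, 0⟩)
(.leaf ⟨5, 24, 17, 9⟩)))
(.node (.node (.leaf ⟨0, 104, 0, 0⟩)
(.leaf ⟨5, 10, 24, 7⟩))
(.leaf ⟨1, 592, 0, 0⟩)))
(.node (.node (.node (.leaf ⟨0, 146, 0, 0⟩)
(.leaf ⟨3, 10, 3, 0⟩))
(.leaf ⟨1, 644, 0, 0⟩))
(.node (.node (.leaf ⟨1, 11, 0, 0⟩)
(.leaf ⟨5, 24, 1032, 1⟩))
(.leaf ⟨3, 4, 9, 0⟩))))
(.node (.node (.node (.node (.leaf ⟨0, 97, 0, 0⟩)
(.leaf ⟨2, 9, 9, 0⟩))
(.node (.leaf ⟨1, 1154, 0, 0⟩)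
(.leaf ⟨5, 10, 3, 7⟩)))
(.node (.node (.leaf ⟨0, 208, 0, 0⟩)
(.leaf ⟨5, 24, 24, 8⟩))
(.leaf ⟨1, 1792, 0, 0⟩)))
(.node (.node (.node (.leaf ⟨0, 84, 0, 0⟩)
(.leaf ⟨5, 10, 10, 10⟩))
(.leaf ⟨1, 328, 0, 0⟩))
(.node (.node (.leaf ⟨1, 529, 0, 0⟩)
(.leaf ⟨5, 136, 136, 6⟩))
(.leaf ⟨3, 6, 6, 0⟩)))))))
(.node (.node (.node (.node (.node (.node (.node (.leaf ⟨0, 28, 0, 0⟩)
(.leaf ⟨3, 6, 5, 0⟩))
(.node (.leaf ⟨1, 1281, 0, 0⟩)
(.leaf ⟨5, 136, 520, 6⟩)))
(.node (.node (.leaf ⟨0, 164, 0, 0⟩)
(.leaf ⟨5, 10, 10, 4⟩))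
(.leaf ⟨1, 776, 0, 0⟩)))
(.node (.node (.node (.leaf ⟨0, 42, 0, 0⟩)
(.leaf ⟨3, 9, 4, 0⟩))
(.node (.leaf ⟨1, 140, 0, 0⟩)
(.leaf ⟨5, 10, 1280, 0⟩)))
(.node (.node (.leaf ⟨0, 1168, 0, 0⟩)
(.leaf ⟨5, 24, 520, 8⟩))
(.leaf ⟨3, 3, 6, 0⟩))))
(.node (.node (.node (.node (.leaf ⟨0, 517, 0, 0⟩)
(.leaf ⟨3, 7, 9, 0⟩))
(.node (.leaf ⟨1, 274, 0, 0⟩)
(.leaf ⟨5, 24, 520, 0⟩)))
(.node (.node (.leaf ⟨0, 328, 0, 0⟩)
(.leaf ⟨5, 10, 1280, 5⟩))
(.leaf ⟨1, 1296, 0, 0⟩)))
(.node (.node (.node (.leaf ⟨0, 1090, 0, 0⟩)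
(.leaf ⟨3, 10, 8, 0⟩))
(.leaf ⟨1, 88, 0, 0⟩))
(.node (.node (.leaf ⟨1, 265, 0, 0⟩)
(.leaf ⟨5, 72, 24, 1⟩))
(.leaf ⟨2, 5, 3, 0⟩)))))
(.node (.node (.node (.node (.node (.leaf ⟨0, 37, 0, 0⟩)
(.leaf ⟨3, 7, 3, 0⟩))
(.node (.leaf ⟨1, 266, 0, 0⟩)
(.leaf ⟨5, 136, 528, 1⟩)))
(.node (.node (.leaf ⟨0, 536, 0, 0⟩)
(.leaf ⟨5, 10, 24, 9⟩))
(.leaf ⟨1, 208, 0, 0⟩)))
(.node (.node (.node (.leaf ⟨0, 50, 0, 0⟩)
(.leaf ⟨3, 10, 1, 0⟩))
(.leaf ⟨1, 1044, 0, 0⟩))
(.node (.node (.leaf ⟨1, 13, 0, 0⟩)
(.leaf ⟨5, 24, 1032, 6⟩))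
(.leaf ⟨2, 4, 7, 0⟩))))
(.node (.node (.node (.node (.leaf ⟨0, 529, 0, 0⟩)
(.leaf ⟨2, 8, 10, 0⟩))
(.node (.leaf ⟨1, 1090, 0, 0⟩)
(.leaf ⟨5, 10, 3, 9⟩)))
(.node (.node (.leaf ⟨0, 560, 0, 0⟩)
(.leaf ⟨5, 24, 24, 10⟩))
(.leaf ⟨1, 1408, 0, 0⟩)))
(.node (.node (.node (.leaf ⟨0, 1036, 0, 0⟩)
(.leaf ⟨5, 10, 6, 5⟩))
(.leaf ⟨1, 552, 0, 0⟩))
(.node (.node (.leaf ⟨1, 145, 0, 0⟩)
(.leaf ⟨5, 136, 136, 9⟩))
(.leaf ⟨2, 6, 6, 0⟩))))))
(.node (.node (.node (.node (.node (.node (.leaf ⟨0, 13, 0, 0⟩)
(.leaf ⟨3, 7, 7, 0⟩))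
(.node (.leaf ⟨1, 42, 0, 0⟩)
(.leaf ⟨5, 136, 528, 10⟩)))
(.node (.node (.leaf ⟨0, 56, 0, 0⟩)
(.leaf ⟨5, 10, 20, 7⟩))
(.leaf ⟨1, 176, 0, 0⟩)))
(.node (.node (.node (.leaf ⟨0, 266, 0, 0⟩)
(.leaf ⟨3, 9, 10, 0⟩))
(.leaf ⟨1, 84, 0, 0⟩))
(.node (.node (.leaf ⟨0, 704, 0, 0⟩)
(.leaf ⟨5, 24, 520, 1⟩))
(.leaf ⟨3, 3, 10, 0⟩))))
(.node (.node (.node (.node (.leaf ⟨0, 49, 0, 0⟩)
(.leaf ⟨2, 8, 3, 0⟩))
(.node (.leaf ⟨1, 546, 0, 0⟩)
(.leaf ⟨5, 136, 136, 0⟩)))
(.node (.node (.leaf ⟨0, 648, 0, 0⟩)
(.leaf ⟨5, 24, 10, 8⟩))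
(.leaf ⟨1, 1312, 0, 0⟩)))
(.node (.node (.node (.leaf ⟨0, 76, 0, 0⟩)
(.leaf ⟨5, 10, 6, 9⟩))
(.leaf ⟨1, 1048, 0, 0⟩))
(.node (.node (.leaf ⟨1, 1033, 0, 0⟩)
(.leaf ⟨5, 136, 24, 6⟩))
(.leaf ⟨2, 5, 6, 0⟩)))))
(.node (.node (.node (.node (.node (.leaf ⟨0, 133, 0, 0⟩)
(.leaf ⟨3, 7, 5, 0⟩))
(.node (.leaf ⟨1, 1034, 0, 0⟩)
(.leaf ⟨5, 24, 17, 7⟩)))
(.node (.node (.leaf ⟨0, 296, 0, 0⟩)
(.leaf ⟨5, 10, 24, 5⟩))
(.leaf ⟨1, 400, 0, 0⟩)))
(.node (.node (.node (.leaf ⟨0, 162, 0, 0⟩)
(.leaf ⟨3, 10, 4, 0⟩))
(.leaf ⟨1, 772, 0, 0⟩))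
(.node (.node (.leaf ⟨1, 41, 0, 0⟩)
(.leaf ⟨5, 72, 24, 9⟩))
(.leaf ⟨3, 4, 10, 0⟩))))
(.node (.node (.node (.node (.leaf ⟨0, 193, 0, 0⟩)
(.leaf ⟨3, 9, 1, 0⟩))
(.node (.leaf ⟨1, 1282, 0, 0⟩)
(.leaf ⟨5, 10, 3, 5⟩)))
(.node (.node (.leaf ⟨0, 592, 0, 0⟩)
(.leaf ⟨5, 24, 24, 6⟩))
(.leaf ⟨3, 3, 3, 0⟩)))
(.node (.node (.node (.leaf ⟨0, 276, 0, 0⟩)
(.leaf ⟨5, 10, 10, 8⟩))
(.leaf ⟨1, 1096, 0, 0⟩))
(.node (.node (.leaf ⟨1, 1089, 0, 0⟩)
(.leaf ⟨5, 136, 136, 4⟩))
(.leaf ⟨3, 6, 3, 0⟩)))))))))

def g : Tr Nat := (.node (.node (.node (.node (.node (.node (.node (.node (.node (.node (.node (.leaf 1)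
(.leaf 716830))
(.leaf 34064451567194654))
(.node (.node (.leaf 25086183587852)
(.leaf 684))
(.leaf 2466713778)))
(.node (.node (.node (.leaf 9965549150380)
(.leaf 1364256))
(.leaf 1159888))
(.node (.leaf 445076693367714070548)
(.leaf 9141250929158))))
(.node (.node (.node (.node (.leaf 12165814263886)
(.leaf 1225023660))
(.leaf 50389665779720794))
(.node (.leaf 25088162316664)
(.leaf 25978714996846)))
(.node (.node (.node (.leaf 25913401434352)
(.leaf 1446320))
(.leaf 873286))
(.node (.leaf 30685651898454466)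
(.leaf 734)))))
(.node (.node (.node (.node (.node (.leaf 10103860265012)
(.leaf 667758))
(.leaf 2298415))
(.node (.node (.leaf 119652089395593560)
(.leaf 163))
(.leaf 4782477634)))
(.node (.node (.node (.leaf 13265728544978)
(.leaf 4883829042))
(.leaf 1741584))
(.node (.leaf 479670532192659677202)
(.leaf 3005653594))))
(.node (.node (.node (.node (.leaf 12165814263922)
(.leaf 1536236))
(.leaf 299666))
(.node (.leaf 433544106945357586438)
(.leaf 156)))
(.node (.node (.node (.leaf 22337605697810)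
(.leaf 5658211253018360311643648025007105198431850816668181901783462130))
(.leaf 1325691040))
(.node (.leaf 112336561393066478)
(.leaf 13542158668))))))
(.node (.node (.node (.node (.node (.node (.leaf 2817985363990)
(.leaf 700490))
(.leaf 93187668848046616))
(.node (.node (.leaf 25775928926540)
(.leaf 15119510290808))
(.leaf 4547719526)))
(.node (.node (.node (.leaf 9965146316994)
(.leaf 1593678))
(.leaf 676592))
(.node (.leaf 449689505835904778260)
(.leaf 23850910749224))))
(.node (.node (.node (.node (.leaf 10102921027592)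
(.leaf 782530))
(.leaf 316020))
(.node (.leaf 25225634824582)
(.leaf 25703770005620)))
(.node (.node (.node (.leaf 22751667945482)
(.leaf 2236625))
(.leaf 69647))
(.node (.leaf 96566468381848032)
(.leaf 778)))))
(.node (.node (.node (.node (.node (.leaf 5704908423174)
(.leaf 268587125))
(.leaf 19589029417536))
(.node (.leaf 22338410160488)
(.leaf 5453713768)))
(.node (.node (.node (.leaf 17390105387250)
(.leaf 4497453432))
(.leaf 119598))
(.node (.leaf 449689507210730618926)
(.leaf 696))))
(.node (.node (.node (.node (.leaf 8041537757336)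
(.leaf 1708284))
(.leaf 1143472))
(.node (.leaf 445076699966091599878)
(.leaf 7766592836042)))
(.node (.node (.node (.leaf 28388041122086)
(.leaf 3691708748))
(.leaf 2466533468))
(.node (.leaf 103888876487082496)
(.leaf 672032)))))))
(.node (.node (.node (.node (.node (.node (.node (.leaf 10979654681518082)
(.leaf 340037))
(.leaf 43632753503248926))
(.node (.node (.leaf 25226173390860)
(.leaf 5437350050))
(.leaf 6125039852)))
(.node (.node (.node (.leaf 12028375302322)
(.leaf 4749132108))
(.leaf 1495776))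
(.node (.leaf 435850513591887241222)
(.leaf 9691241656874))))
(.node (.node (.node (.node (.leaf 25056289902092392)
(.leaf 716978))
(.leaf 19589029524076))
(.node (.leaf 26874064503172)
(.leaf 26253693362250)))
(.node (.node (.node (.leaf 28662146965756)
(.leaf 2187377))
(.leaf 261293463645934977232367330663645192))
(.node (.leaf 468)
(.leaf 752)))))
(.node (.node (.node (.node (.node (.leaf 5291718598662)
(.leaf 790652))
(.leaf 574))
(.node (.leaf 123033777228644708)
(.leaf 6125171110)))
(.node (.node (.node (.leaf 17390239785182)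
(.leaf 28797522219255))
(.leaf 602912))
(.node (.leaf 477364126508437577746)
(.leaf 662))))
(.node (.node (.node (.node (.leaf 8591830450316)
(.leaf 1364208))
(.leaf 291488))
(.node (.leaf 438157481951117746182)
(.leaf 368)))
(.node (.node (.node (.leaf 26600562663708)
(.leaf 70955196495012024))
(.leaf 2466713678))
(.node (.leaf 34627538992984578)
(.leaf 2523489))))))
(.node (.node (.node (.node (.node (.node (.leaf 11753463848986)
(.leaf 53278))
(.leaf 96566468382143020))
(.node (.node (.leaf 26738035171662)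
(.leaf 280))
(.leaf 4782477610)))
(.node (.node (.node (.leaf 13540203790536)
(.leaf 1691992))
(.leaf 602880))
(.node (.leaf 479670532055187169298)
(.leaf 3005538882))))
(.node (.node (.node (.node (.leaf 11066235519086)
(.leaf 561362))
(.leaf 316034))
(.node (.leaf 27837714555308)
(.leaf 26253693403218)))
(.node (.node (.node (.leaf 23438894874910)
(.leaf 1039123620673198474412057))
(.leaf 1157705742))
(.node (.leaf 34064451566965228)
(.leaf 804)))))
(.node (.node (.node (.node (.node (.leaf 11203674480712)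
(.leaf 234967204))
(.leaf 596))
(.node (.leaf 24949046468982)
(.leaf 6158643614)))
(.node (.node (.node (.leaf 26188245795052)
(.leaf 1536388))
(.leaf 316220))
(.node (.leaf 151)
(.leaf 714))))
(.node (.node (.node (.node (.leaf 9828076642468)
(.leaf 1528088))
(.leaf 594624))
(.node (.leaf 449689505148508684308)
(.leaf 9141250929136)))
(.node (.node (.node (.leaf 19726567588152)
(.leaf 15121238556901))
(.leaf 2097614988))
(.node (.leaf 2241057)
(.leaf 1225023514))))))))
(.node (.node (.node (.node (.node (.node (.node (.node (.leaf 9)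
(.leaf 815156))
(.leaf 39695325826437674))
(.node (.node (.leaf 25226139705356)
(.leaf 3691970631))
(.leaf 889047)))
(.node (.node (.node (.leaf 10103658938544)
(.leaf 1650986))
(.leaf 594648))
(.node (.leaf 440463885023563522054)
(.leaf 6830473732))))
(.node (.node (.node (.node (.leaf 12715502968920)
(.leaf 463024))
(.leaf 93750893746664028))
(.node (.leaf 25225634824576)
(.leaf 26116221067376)))
(.node (.node (.node (.leaf 16153054134524)
(.leaf 2203847))
(.leaf 283466))
(.node (.leaf 97130243002528200)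
(.leaf 742)))))
(.node (.node (.node (.node (.node (.leaf 3505179910212)
(.leaf 708722))
(.leaf 92624443949634098))
(.node (.node (.leaf 23576367382874)
(.leaf 0))
(.leaf 5755687202)))
(.node (.node (.node (.leaf 19452294062300)
(.leaf 4917399860))
(.leaf 316184))
(.node (.leaf 475057720411797954578)
(.leaf 23575797944928))))
(.node (.node (.node (.node (.leaf 13677642752126)
(.leaf 4816044312))
(.leaf 1495704))
(.node (.leaf 435850509330474377222)
(.leaf 364)))
(.node (.node (.node (.leaf 26463090155800)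
(.leaf 253692290195834294660))
(.leaf 1996968116))
(.node (.leaf 2109953)
(.leaf 3849615494430431575834738))))))
(.node (.node (.node (.node (.node (.node (.leaf 9965549150234)
(.leaf 815196))
(.leaf 96003380956213800))
(.node (.node (.leaf 25224058593614)
(.leaf 220))
(.leaf 5722386718)))
(.node (.node (.node (.leaf 13677642752198)
(.leaf 3960451414))
(.leaf 1585912))
(.node (.leaf 475057719999380430866)
(.leaf 25499491500568))))
(.node (.node (.node (.node (.leaf 9966723907592)
(.leaf 798920))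
(.leaf 50163635157695730465939583418388))
(.node (.leaf 23025941561754)
(.leaf 26528638402640)))
(.node (.node (.node (.leaf 19727138709514)
(.leaf 19731820147021))
(.leaf 2433151002))
(.node (.leaf 2019819)
(.leaf 788)))))
(.node (.node (.node (.node (.node (.leaf 9691443175510)
(.leaf 956837906))
(.leaf 19864007995984))
(.node (.leaf 23162608525674)
(.leaf 6158602624)))
(.node (.node (.node (.leaf 18214638534892)
(.leaf 4749541656))
(.leaf 1028916))
(.node (.leaf 359)
(.leaf 704))))
(.node (.node (.node (.node (.leaf 9828713922722)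
(.leaf 1134859))
(.leaf 1503928))
(.node (.leaf 447383102488680898566)
(.leaf 23438325428700)))
(.node (.node (.node (.leaf 19589027086640)
(.leaf 61936595763327215))
(.leaf 2466844838))
(.node (.leaf 528)
(.leaf 4256269095523470641481052232)))))))
(.node (.node (.node (.node (.node (.node (.node (.leaf 3505213480994)
(.leaf 667720))
(.leaf 37667335143784))
(.node (.node (.leaf 24400196936012)
(.leaf 1564746))
(.leaf 29074933551368)))
(.node (.node (.node (.leaf 12440625045690)
(.leaf 1585484))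
(.leaf 299752))
(.node (.leaf 442770291257642098694)
(.leaf 4132113097246))))
(.node (.node (.node (.node (.leaf 4741862080520)
(.leaf 235675697))
(.leaf 102754594482209372))
(.node (.leaf 25088162316676)
(.leaf 26803583615090)))
(.node (.node (.node (.leaf 16153054134530)
(.leaf 1152725520910119149584570))
(.leaf 64427103504805867710887774699634))
(.node (.leaf 35190626418758104)
(.leaf 768)))))
(.node (.node (.node (.node (.node (.leaf 5567435866118)
(.leaf 268906531))
(.leaf 2421325))
(.node (.leaf 27561393578342)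
(.leaf 5554426198)))
(.node (.node (.node (.leaf 19452393464046)
(.leaf 4229390567))
(.leaf 873254))
(.node (.leaf 468138506245853102126)
(.leaf 682))))
(.node (.node (.node (.node (.leaf 50955699047465110)
(.leaf 1700090))
(.leaf 291496))
(.node (.leaf 440463884336234536966)
(.leaf 426)))
(.node (.node (.node (.leaf 26325718303008)
(.leaf 61936602842898773))
(.leaf 2399424584))
(.node (.leaf 19423156391371258)
(.leaf 2013937952))))))
(.node (.node (.node (.node (.node (.node (.leaf 11890936340510)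
(.leaf 282714))
(.leaf 104445916901147160))
(.node (.node (.leaf 25086821056854)
(.leaf 331))
(.leaf 4782477622)))
(.node (.node (.node (.leaf 11752758919378)
(.leaf 3692097759))
(.leaf 676616))
(.node (.leaf 472751320501152751634)
(.leaf 22750895714884))))
(.node (.node (.node (.node (.leaf 8179581403248)
(.leaf 19176661086509))
(.leaf 1405578))
(.node (.leaf 419705649748166877190)
(.leaf 26803583639672)))
(.node (.node (.node (.leaf 90374844098011426)
(.leaf 388829316569171558497408519668607684443323979579692815685965668355563155799))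
(.leaf 1896272008))
(.node (.leaf 19985143735157220)
(.leaf 236204177345884514)))))
(.node (.node (.node (.node (.node (.leaf 11753463849034)
(.leaf 651428))
(.leaf 2519653))
(.node (.leaf 26463090155894)
(.leaf 1499288)))
(.node (.node (.node (.leaf 27149009535216)
(.leaf 1405334))
(.leaf 66013137167875301981600438304774))
(.node (.leaf 1847745)
(.leaf 724))))
(.node (.node (.node (.node (.leaf 10928796557476)
(.leaf 1536284))
(.leaf 1602248))
(.node (.leaf 438157478789484945414)
(.leaf 8424186346)))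
(.node (.node (.node (.leaf 19589027086650)
(.leaf 3691708655))
(.leaf 1996828826))
(.node (.leaf 31248739358347798)
(.leaf 700442)))))))))
(.node (.node (.node (.node (.node (.node (.node (.node (.node (.leaf 5)
(.leaf 790578))
(.leaf 34627538993123874))
(.node (.node (.leaf 23575294779404)
(.leaf 15122311704601))
(.leaf 2466762952)))
(.node (.node (.node (.leaf 11616024887468)
(.leaf 1593632))
(.leaf 1610452))
(.node (.leaf 447383106200203730950)
(.leaf 6192923136))))
(.node (.node (.node (.node (.leaf 5841910505556)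
(.leaf 692396))
(.leaf 56586925630726750))
(.node (.leaf 30035596771710)
(.leaf 25841242275912)))
(.node (.node (.node (.leaf 26738035171568)
(.leaf 5088933441776))
(.leaf 78664))
(.node (.leaf 31811964256375242)
(.leaf 738)))))
(.node (.node (.node (.node (.node (.leaf 58841123443548224)
(.leaf 700528))
(.leaf 2331191))
(.node (.node (.leaf 28387302605144)
(.leaf 82))
(.leaf 6124556540)))
(.node (.node (.node (.leaf 16565002362884)
(.leaf 26323621007585))
(.leaf 676628))
(.node (.leaf 475057726597792374802)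
(.leaf 4849611352))))
(.node (.node (.node (.node (.leaf 13265292337276)
(.leaf 1585388))
(.leaf 12750017192143328799552806932))
(.node (.leaf 431237697412140146694)
(.leaf 166)))
(.node (.node (.node (.leaf 25638456418584)
(.leaf 23173282515969857434766127654483632382346580500883688529793764106780))
(.leaf 1392799908))
(.node (.leaf 508)
(.leaf 13609365616))))))
(.node (.node (.node (.node (.node (.node (.leaf 11066235518998)
(.leaf 716878))
(.leaf 96003380956262940))
(.node (.node (.leaf 26600562663756)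
(.leaf 901193))
(.leaf 4749087108)))
(.node (.node (.node (.leaf 12990414414018)
(.leaf 1675604))
(.leaf 316148))
(.node (.leaf 475057726185374851090)
(.leaf 14715281588760))))
(.node (.node (.node (.node (.leaf 10102921084936)
(.leaf 235700275))
(.leaf 291448))
(.node (.leaf 29486948508052)
(.leaf 25703769800784)))
(.node (.node (.node (.leaf 19039776055306)
(.leaf 467228))
(.leaf 2680579756230))
(.node (.leaf 486)
(.leaf 784)))))
(.node (.node (.node (.node (.node (.leaf 8179581403142)
(.leaf 479313))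
(.leaf 96003380956353096))
(.node (.leaf 28386060894568)
(.leaf 6091477366)))
(.node (.node (.node (.leaf 17389736378582)
(.leaf 1364352))
(.leaf 938800))
(.node (.leaf 357)
(.leaf 700))))
(.node (.node (.node (.node (.leaf 9003207827610)
(.leaf 1716478))
(.leaf 594612))
(.node (.leaf 449689511884425830406)
(.leaf 8316516495830)))
(.node (.node (.node (.leaf 25088330088746)
(.leaf 15121241010504))
(.leaf 2433282204))
(.node (.leaf 114585200480010756)
(.leaf 253693416236553556245)))))))
(.node (.node (.node (.node (.node (.node (.node (.leaf 1993217400852)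
(.leaf 651336))
(.leaf 37392390111504))
(.node (.node (.leaf 25638456418634)
(.leaf 1556554))
(.leaf 6125080828)))
(.node (.node (.node (.leaf 8865735319736)
(.leaf 1536332))
(.leaf 676580))
(.node (.leaf 449689512296843354118)
(.leaf 2204182))))
(.node (.node (.node (.node (.leaf 25619514834083948)
(.leaf 741562))
(.leaf 68977047521083990))
(.node (.leaf 111207703158899076)
(.leaf 26528638599282)))
(.node (.node (.node (.leaf 28799619473662)
(.leaf 2953953362))
(.leaf 64109726513869605880879352438792))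
(.node (.leaf 1962461)
(.leaf 764)))))
(.node (.node (.node (.node (.node (.leaf 7767130144774)
(.leaf 815230))
(.leaf 2388549))
(.node (.leaf 22200133189990)
(.leaf 6158733738)))
(.node (.node (.node (.leaf 86433094778126570)
(.leaf 7031456159))
(.leaf 586532))
(.node (.leaf 472751318301693329436)
(.leaf 666))))
(.node (.node (.node (.node (.leaf 7903327092886)
(.leaf 1569008))
(.leaf 316068))
(.node (.leaf 442770293869451976710)
(.leaf 424)))
(.node (.node (.node (.leaf 25225634824480)
(.leaf 1118147091631673504494300102304681563031105254352732540477625))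
(.leaf 1157681172))
(.node (.leaf 34064451567096326)
(.leaf 15128486465835))))))
(.node (.node (.node (.node (.node (.node (.leaf 10103055212574)
(.leaf 282698))
(.leaf 103316031734399512))
(.node (.node (.leaf 28112357589332)
(.leaf 685))
(.leaf 4782477616)))
(.node (.node (.node (.leaf 12990783512782)
(.leaf 1798498))
(.leaf 1618692))
(.node (.leaf 484283343973521399826)
(.leaf 14503066788426))))
(.node (.node (.node (.node (.leaf 9964743614576)
(.leaf 848082))
(.leaf 291462))
(.node (.leaf 119090927825371568)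
(.leaf 25978715037816)))
(.node (.node (.node (.leaf 19726567588130)
(.leaf 23176033292363203836492382310665700283332492495219541302892143784130))
(.leaf 1291923486))
(.node (.leaf 37442563805680112)
(.leaf 16154305064981265375876862587)))))
(.node (.node (.node (.node (.node (.leaf 11478585925706)
(.leaf 1191854172))
(.leaf 2486877))
(.node (.leaf 24950689808758)
(.leaf 29074933551536)))
(.node (.node (.node (.leaf 25224864121072)
(.leaf 4816159110))
(.leaf 291648))
(.node (.leaf 446)
(.leaf 718))))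
(.node (.node (.node (.node (.leaf 9828713922724)
(.leaf 1577240))
(.leaf 283332))
(.node (.leaf 445076700103564107782)
(.leaf 1193181668)))
(.node (.node (.node (.leaf 28387571040568)
(.leaf 3691708436))
(.leaf 1929703574))
(.node (.leaf 2273833)
(.leaf 454682))))))))
(.node (.node (.node (.node (.node (.node (.node (.node (.leaf 1168482795522)
(.leaf 323653))
(.leaf 41387413186126358))
(.node (.node (.leaf 25088700866572)
(.leaf 3691282704))
(.leaf 4749119726)))
(.node (.node (.node (.leaf 12165814263984)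
(.leaf 872700))
(.leaf 1176284))
(.node (.leaf 433544100896836534292)
(.leaf 8591461528090))))
(.node (.node (.node (.node (.leaf 13677642752092)
(.leaf 725168))
(.leaf 18901666984548))
(.node (.leaf 19451555463556)
(.leaf 26391166083184)))
(.node (.node (.node (.leaf 27700074275068)
(.leaf 2751955278))
(.leaf 897868))
(.node (.leaf 120215386470531524)
(.leaf 748)))))
(.node (.node (.node (.node (.node (.leaf 4741962719238)
(.leaf 725106))
(.leaf 93750893746524730))
(.node (.leaf 23574824722786)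
(.leaf 6158725514)))
(.node (.node (.node (.leaf 19452193661148)
(.leaf 5487087832))
(.leaf 1028892))
(.node (.leaf 477364132694431997970)
(.leaf 16227982819932))))
(.node (.node (.node (.node (.leaf 8454357942410)
(.leaf 4816281840))
(.leaf 316060))
(.node (.leaf 433544100071934378004)
(.leaf 392)))
(.node (.node (.node (.leaf 25775928926492)
(.leaf 15121238839378))
(.leaf 2399588424))
(.node (.leaf 2142729)
(.leaf 56294523625586))))))
(.node (.node (.node (.node (.node (.node (.leaf 9966186430490)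
(.leaf 3305828458))
(.leaf 16565472924204))
(.node (.node (.leaf 25913401434446)
(.leaf 74))
(.leaf 6125039900)))
(.node (.node (.node (.leaf 10103860265160)
(.leaf 3960832253))
(.leaf 676604))
(.node (.leaf 481976944200348704786)
(.leaf 22613389636146))))
(.node (.node (.node (.node (.leaf 10104196456456)
(.leaf 2802639037))
(.leaf 1159806))
(.node (.leaf 25225802596766)
(.leaf 26666111123574)))
(.node (.node (.node (.leaf 86433094778126618)
(.leaf 311088028032884426977948974306381754156987503813315649586456605804867182926))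
(.leaf 2466762804))
(.node (.leaf 2052595)
(.leaf 800)))))
(.node (.node (.node (.node (.node (.leaf 10928796557384)
(.leaf 446626))
(.leaf 96566468382323280))
(.node (.leaf 22475916222826)
(.leaf 6158602630)))
(.node (.node (.node (.leaf 25088162316524)
(.leaf 5034324356))
(.leaf 971576))
(.node (.leaf 361)
(.leaf 710))))
(.node (.node (.node (.node (.leaf 4879435251876)
(.leaf 19452411416879))
(.leaf 1487548))
(.node (.leaf 445076693230174453780)
(.leaf 7491614233064)))
(.node (.node (.node (.leaf 19727338479922)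
(.leaf 15121237753872))
(.leaf 1862578314))
(.node (.leaf 2208281)
(.leaf 659478)))))))
(.node (.node (.node (.node (.node (.node (.node (.leaf 2543040765966)
(.leaf 684106))
(.leaf 38217225175424))
(.node (.node (.leaf 27148942442828)
(.leaf 901391))
(.leaf 4749062448)))
(.node (.node (.node (.leaf 8865735319744)
(.leaf 1544526))
(.leaf 1495788))
(.node (.leaf 435850507130948665364)
(.leaf 9129017880))))
(.node (.node (.node (.node (.leaf 9828043096072)
(.leaf 504002))
(.leaf 1167984))
(.node (.leaf 26188245795204)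
(.leaf 26666110902350)))
(.node (.node (.node (.leaf 22887193845770)
(.leaf 5017814315078))
(.leaf 64744519190815396580865720238194))
(.node (.leaf 57153309477036506)
(.leaf 774)))))
(.node (.node (.node (.node (.node (.leaf 5430030499846)
(.leaf 12438628462645))
(.leaf 56587062700466758))
(.node (.leaf 23025136017768)
(.leaf 5554426204)))
(.node (.node (.node (.leaf 19727338479860)
(.leaf 1552758))
(.leaf 54058))
(.node (.leaf 502732907195917090862)
(.leaf 692))))
(.node (.node (.node (.node (.leaf 8040799600792)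
(.leaf 1650940))
(.leaf 1176236))
(.node (.leaf 440463881036895207444)
(.leaf 7491614233026)))
(.node (.node (.node (.leaf 84181157324259620)
(.leaf 15121238700374))
(.leaf 2466533454))
(.node (.leaf 35742787043686)
(.leaf 253693419259471982965))))))
(.node (.node (.node (.node (.node (.node (.leaf 12715502968880)
(.leaf 282718))
(.leaf 85879288743772704))
(.node (.node (.leaf 22750928347478)
(.leaf 114))
(.leaf 4782477626)))
(.node (.node (.node (.leaf 57715223536689362)
(.leaf 1323279))
(.leaf 602892))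
(.node (.leaf 463525690478489870354)
(.leaf 10303693402))))
(.node (.node (.node (.node (.leaf 11890936340594)
(.leaf 4497453292))
(.leaf 1389198))
(.node (.leaf 424318461666501107718)
(.leaf 26391165927508)))
(.node (.node (.node (.leaf 19177282167052)
(.leaf 61944083905626499))
(.leaf 1359237272))
(.node (.leaf 34230589366632)
(.leaf 57942047642283)))))
(.node (.node (.node (.node (.node (.leaf 11890936340558)
(.leaf 235569177))
(.leaf 42203928174742))
(.node (.leaf 25087358058872)
(.leaf 25703769981038)))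
(.node (.node (.node (.leaf 25224864252144)
(.leaf 1405348))
(.leaf 271024265405084725164407313024458758))
(.node (.leaf 1880521)
(.leaf 728))))
(.node (.node (.node (.node (.leaf 9964743614632)
(.leaf 1585436))
(.leaf 594636))
(.node (.leaf 438157478789485805588)
(.leaf 7629086757374)))
(.node (.node (.node (.leaf 19589027086658)
(.leaf 61940987872145695))
(.leaf 2399588516))
(.node (.leaf 35190626419003930)
(.leaf 462878))))))))))
(.node (.node (.node (.node (.node (.node (.node (.node (.node (.node (.leaf 3)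
(.leaf 757808))
(.leaf 31248739358298658))
(.node (.node (.leaf 23300416839692)
(.leaf 732))
(.leaf 2433200322)))
(.node (.node (.node (.leaf 11478585925804)
(.leaf 1569056))
(.leaf 1618642))
(.node (.leaf 433544107495247618054)
(.leaf 8726266368))))
(.node (.node (.node (.node (.leaf 48703074298101840)
(.leaf 684204))
(.leaf 50394476143092314))
(.node (.leaf 19726500479354)
(.leaf 25703769768008)))
(.node (.node (.node (.leaf 26325718302960)
(.leaf 2015417))
(.leaf 66326954212070996134412962283526))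
(.node (.leaf 31248739357938118)
(.leaf 736)))))
(.node (.node (.node (.node (.node (.leaf 13677642752052)
(.leaf 235339801))
(.leaf 2314803))
(.node (.node (.leaf 27837546783064)
(.leaf 161))
(.leaf 4480389340)))
(.node (.node (.node (.leaf 14915733602308)
(.leaf 3658805493))
(.leaf 1725202))
(.node (.leaf 465832102761123913746)
(.leaf 3374752350))))
(.node (.node (.node (.node (.leaf 12715502968954)
(.leaf 1560812))
(.leaf 291476))
(.node (.leaf 435850512904524701702)
(.leaf 158)))
(.node (.node (.node (.leaf 24950689808664)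
(.leaf 23176033292363203836492382310429104192118823171920468369694240383170))
(.leaf 1359245474))
(.node (.leaf 504)
(.leaf 13575762254))))))
(.node (.node (.node (.node (.node (.node (.leaf 10928796557334)
(.leaf 462926))
(.leaf 93750893746500120))
(.node (.node (.leaf 26188245795148)
(.leaf 3691286692))
(.leaf 4648382826)))
(.node (.node (.node (.leaf 9966387757250)
(.leaf 1642836))
(.leaf 643826))
(.node (.leaf 472751320226207735826)
(.leaf 15740453356050))))
(.node (.node (.node (.node (.leaf 9965482123272)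
(.leaf 815302))
(.leaf 299638))
(.node (.leaf 122470414186512774)
(.leaf 26528638607476)))
(.node (.node (.node (.leaf 18627459178506)
(.leaf 5025466294297))
(.leaf 520163454))
(.node (.leaf 482)
(.leaf 780)))))
(.node (.node (.node (.node (.node (.leaf 5704942010374)
(.leaf 12026529316981))
(.leaf 93187668848136772))
(.node (.leaf 28111182971240)
(.leaf 5487284586)))
(.node (.node (.node (.leaf 17114858430678)
(.leaf 1356152))
(.leaf 119600))
(.node (.leaf 144)
(.leaf 698))))
(.node (.node (.node (.node (.leaf 8178305663130)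
(.leaf 1405182))
(.leaf 602802))
(.node (.leaf 447383105925258715142)
(.leaf 22888401793488)))
(.node (.node (.node (.leaf 19589027086634)
(.leaf 17317543092442))
(.leaf 9966723551326))
(.node (.leaf 111770175834980868)
(.leaf 319874)))))))
(.node (.node (.node (.node (.node (.node (.node (.leaf 12106104444862466)
(.leaf 446536))
(.leaf 43637838744527390))
(.node (.node (.leaf 103326405153767436)
(.leaf 253749710748844638281))
(.leaf 6158602480)))
(.node (.node (.node (.leaf 12715502969014)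
(.leaf 5034324300))
(.leaf 1487586))
(.node (.leaf 442770294419342008326)
(.leaf 2204182))))
(.node (.node (.node (.node (.leaf 13540673552490)
(.leaf 757942))
(.leaf 93187668848259692))
(.node (.leaf 110081803252040068)
(.leaf 26391165870154)))
(.node (.node (.node (.leaf 25225802596606)
(.leaf 299296))
(.leaf 63951038018401474965875140640776))
(.node (.leaf 1946073)
(.leaf 754)))))
(.node (.node (.node (.node (.node (.leaf 5292591284230)
(.leaf 807038))
(.leaf 2372161))
(.node (.leaf 18626720416102)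
(.leaf 6158725544)))
(.node (.node (.node (.leaf 84744244917854442)
(.leaf 1339669))
(.leaf 594722))
(.node (.leaf 472751318301693526092)
(.leaf 664))))
(.node (.node (.node (.node (.leaf 8591830450318)
(.leaf 1544432))
(.leaf 1815202))
(.node (.leaf 440463887910284861446)
(.leaf 394)))
(.node (.node (.node (.leaf 25224058593568)
(.leaf 36906016514300))
(.leaf 1426247764))
(.node (.leaf 30685651898716678)
(.leaf 1528930429))))))
(.node (.node (.node (.node (.node (.node (.leaf 2542872461342)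
(.leaf 282696))
(.leaf 64472896795410962))
(.node (.node (.leaf 27562601767252)
(.leaf 688))
(.leaf 6125080874)))
(.node (.node (.node (.leaf 11477847441614)
(.leaf 1716568))
(.leaf 316162))
(.node (.leaf 481976938014354284562)
(.leaf 3374637638))))
(.node (.node (.node (.node (.leaf 11203674480750)
(.leaf 839890))
(.leaf 299652))
(.node (.leaf 29762766168492)
(.leaf 26666110926930)))
(.node (.node (.node (.leaf 85307332377338142)
(.leaf 1198172838456872476293644630278190767276344))
(.leaf 1224814618))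
(.node (.leaf 34627538992951788)
(.leaf 3934689591400343297815349)))))
(.node (.node (.node (.node (.node (.leaf 9966186430538)
(.leaf 1191854150))
(.leaf 2470489))
(.node (.leaf 110081664940491126)
(.leaf 6158643620)))
(.node (.node (.node (.leaf 26600562663660)
(.leaf 1560964))
(.leaf 299838))
(.node (.leaf 153)
(.leaf 716))))
(.node (.node (.node (.node (.leaf 44201399420305572)
(.leaf 1552664))
(.leaf 586434))
(.node (.leaf 431237701398607994886)
(.leaf 9278723445236)))
(.node (.node (.node (.leaf 19727338479928)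
(.leaf 15121237753886))
(.leaf 2097614990))
(.node (.leaf 2257445)
(.leaf 1225113626))))))))
(.node (.node (.node (.node (.node (.node (.node (.node (.leaf 11)
(.leaf 856128))
(.leaf 41377380142522902))
(.node (.node (.leaf 25226173267980)
(.leaf 901360))
(.leaf 4044190030)))
(.node (.node (.node (.leaf 11890936340656)
(.leaf 5236183423))
(.leaf 586458))
(.node (.leaf 447383102901064867846)
(.leaf 7766592836118))))
(.node (.node (.node (.node (.leaf 13265292337242)
(.leaf 708784))
(.leaf 96566468382372448))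
(.node (.leaf 22475111760258)
(.leaf 26253693575280)))
(.node (.node (.node (.leaf 25088330088700)
(.leaf 34987158159523))
(.leaf 66646420736963678122775501709320))
(.node (.leaf 93750893746057680)
(.leaf 746)))))
(.node (.node (.node (.node (.node (.leaf 8177869570054)
(.leaf 716914))
(.leaf 98819505280700982))
(.node (.leaf 22750928347484)
(.leaf 6125171080)))
(.node (.node (.node (.leaf 19727037997276)
(.leaf 4917416248))
(.leaf 1037082))
(.node (.leaf 468138508857763536914)
(.leaf 24263328297576))))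
(.node (.node (.node (.node (.leaf 7629120233610)
(.leaf 4816044316))
(.leaf 1487514))
(.node (.leaf 431237694112767262740)
(.leaf 366)))
(.node (.node (.node (.leaf 25088162316572)
(.leaf 61943947271963011))
(.leaf 8179581120724))
(.node (.leaf 2126341)
(.leaf 56156916858994))))))
(.node (.node (.node (.node (.node (.node (.leaf 46453336706498586)
(.leaf 856164))
(.leaf 97693330428719656))
(.node (.node (.leaf 23575630242126)
(.leaf 844))
(.leaf 6091477272)))
(.node (.node (.node (.leaf 10102618775752)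
(.leaf 4027932923))
(.leaf 1577722))
(.node (.leaf 479670538241181589522)
(.leaf 16226841690648))))
(.node (.node (.node (.node (.leaf 10104162869256)
(.leaf 807112))
(.leaf 1176188))
(.node (.leaf 116272190517617052)
(.leaf 25841242521718)))
(.node (.node (.node (.leaf 23576503009550)
(.leaf 56920043308125133381383180237957175604316753178913))
(.leaf 2466713630))
(.node (.leaf 2036207)
(.leaf 790)))))
(.node (.node (.node (.node (.node (.leaf 9828713922632)
(.leaf 487507))
(.leaf 93750893746598480))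
(.node (.leaf 117961177850388842)
(.leaf 6125040004)))
(.node (.node (.node (.leaf 25087358058732)
(.leaf 4749541672))
(.leaf 996150))
(.node (.leaf 148)
(.leaf 706))))
(.node (.node (.node (.node (.leaf 10928796557474)
(.leaf 19177466392883))
(.leaf 1495738))
(.node (.leaf 449689508447848013830)
(.leaf 23575797944800)))
(.node (.node (.node (.leaf 19726567588146)
(.leaf 61936727278813424))
(.leaf 2466844860))
(.node (.leaf 2191893)
(.leaf 4598530122)))))))
(.node (.node (.node (.node (.node (.node (.node (.leaf 4604893536302)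
(.leaf 454730))
(.leaf 37667402252658))
(.node (.node (.leaf 25087358058828)
(.leaf 2937176227))
(.leaf 5587693810)))
(.node (.node (.node (.leaf 12578064007354)
(.leaf 3591692527))
(.leaf 1503978))
(.node (.leaf 449689509135143444486)
(.leaf 9217354375710))))
(.node (.node (.node (.node (.leaf 10101981306888)
(.leaf 437002289))
(.leaf 1184366))
(.node (.leaf 25775928926596)
(.leaf 26528638394446)))
(.node (.node (.node (.leaf 119090927825371400)
(.leaf 5017814315091))
(.leaf 264543562528142400167368745735716978))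
(.node (.leaf 39132238400287194)
(.leaf 772)))))
(.node (.node (.node (.node (.node (.leaf 5704874827782)
(.leaf 302207103))
(.leaf 50394613212832322))
(.node (.leaf 27836271501670)
(.leaf 5755949402)))
(.node (.node (.node (.leaf 20414433640686)
(.leaf 1347958))
(.leaf 54056))
(.node (.leaf 502732907195917279318)
(.leaf 690))))
(.node (.node (.node (.node (.leaf 7904065249430)
(.leaf 1396988))
(.leaf 1733290))
(.node (.leaf 442770290295401652230)
(.leaf 444)))
(.node (.node (.node (.leaf 26738035171616)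
(.leaf 253722404857181385093))
(.leaf 2432979018))
(.node (.leaf 21685813748212222)
(.leaf 1409958176))))))
(.node (.node (.node (.node (.node (.node (.leaf 12028375302174)
(.leaf 282716))
(.leaf 102754593341080088))
(.node (.node (.leaf 119651951923102038)
(.leaf 375))
(.leaf 4816245048)))
(.node (.node (.node (.leaf 52647161657065682)
(.leaf 3742642392))
(.leaf 643850))
(.node (.leaf 479670538378654097426)
(.leaf 23438325428808))))
(.node (.node (.node (.node (.leaf 10103055212658)
(.leaf 19176661086515))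
(.leaf 1397388))
(.node (.leaf 422012055707333992454)
(.leaf 25978714849364)))
(.node (.node (.node (.leaf 90375118975942946)
(.leaf 1039123620642145071026564))
(.leaf 1325682838))
(.node (.leaf 21685813379023336)
(.leaf 236775238177755354)))))
(.node (.node (.node (.node (.node (.leaf 10103658938446)
(.leaf 659620))
(.leaf 2536041))
(.node (.leaf 19451555463544)
(.leaf 1507482)))
(.node (.node (.node (.leaf 111207840664953072)
(.leaf 1405342))
(.leaf 78660))
(.node (.leaf 1864133)
(.leaf 726))))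
(.node (.node (.node (.node (.leaf 11066235519140)
(.leaf 1560860))
(.leaf 602826))
(.node (.leaf 445076696666986291206)
(.leaf 27425918378478)))
(.node (.node (.node (.leaf 119090927825371456)
(.leaf 901296))
(.leaf 2399588514))
(.node (.leaf 31811964256702998)
(.leaf 1292132382)))))))))
(.node (.node (.node (.node (.node (.node (.node (.node (.node (.leaf 7)
(.leaf 512052))
(.leaf 38568876096672290))
(.node (.node (.leaf 25088700743692)
(.leaf 212611705819935968648093711827775688))
(.leaf 12853310951634)))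
(.node (.node (.node (.leaf 12028375302318)
(.leaf 1397034))
(.leaf 602838))
(.node (.leaf 433544104196108754950)
(.leaf 6662685188))))
(.node (.node (.node (.node (.leaf 49829249183514708)
(.leaf 716974))
(.leaf 19864008077912))
(.node (.leaf 28386362810752)
(.leaf 25978714783816)))
(.node (.node (.node (.leaf 28524674457850)
(.leaf 704800))
(.leaf 16231836917105922853867757574))
(.node (.leaf 39695325826159054)
(.leaf 740)))))
(.node (.node (.node (.node (.node (.leaf 3505179910210)
(.leaf 1292132466))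
(.leaf 39042127429812))
(.node (.node (.leaf 28799619473752)
(.leaf 118))
(.leaf 5688578330)))
(.node (.node (.node (.leaf 16152953643228)
(.leaf 1331473))
(.leaf 643862))
(.node (.leaf 465832096575129493522)
(.leaf 22888401793628))))
(.node (.node (.node (.node (.leaf 13540203790462)
(.leaf 4816158960))
(.leaf 1503894))
(.node (.leaf 433544103371307261958)
(.leaf 188)))
(.node (.node (.node (.leaf 26050773287192)
(.leaf 251341968299882922404))
(.leaf 1392808108))
(.node (.leaf 2093565)
(.leaf 13642969202))))))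
(.node (.node (.node (.node (.node (.node (.leaf 11203674480662)
(.leaf 757848))
(.leaf 96566468382208540))
(.node (.node (.leaf 19726500479310)
(.leaf 901359))
(.leaf 4816195974)))
(.node (.node (.node (.leaf 13127853375682)
(.leaf 3591725307))
(.leaf 1594102))
(.node (.leaf 472751314040213315602)
(.leaf 25498686194200))))
(.node (.node (.node (.node (.leaf 40823699666231304)
(.leaf 512200))
(.leaf 283258))
(.node (.leaf 25225802596758)
(.leaf 26116220878928)))
(.node (.node (.node (.leaf 19452260794378)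
(.leaf 66443075652428120))
(.leaf 2955591905484))
(.node (.leaf 2003431)
(.leaf 786)))))
(.node (.node (.node (.node (.node (.leaf 33503564270485510)
(.leaf 268603511))
(.leaf 18901666886220))
(.node (.leaf 22475111760234)
(.leaf 6125039992)))
(.node (.node (.node (.leaf 25638456418536)
(.leaf 4497453444))
(.leaf 119602))
(.node (.leaf 146)
(.leaf 702))))
(.node (.node (.node (.node (.leaf 8179010265242)
(.leaf 1110283))
(.leaf 586422))
(.node (.leaf 445076696529513783302)
(.leaf 8591461528024)))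
(.node (.node (.node (.leaf 27700074275114)
(.leaf 61936589839860086))
(.leaf 2466836638))
(.node (.leaf 526)
(.leaf 61936869198377038)))))))
(.node (.node (.node (.node (.node (.node (.node (.leaf 1993116950548)
(.leaf 659528))
(.leaf 37392457236838))
(.node (.node (.leaf 19451555463500)
(.leaf 3692097819))
(.leaf 6158643454)))
(.node (.node (.node (.leaf 11202902442170)
(.leaf 1560908))
(.leaf 635622))
(.node (.leaf 435850510430187331590)
(.leaf 1795717997078))))
(.node (.node (.node (.node (.leaf 13678146068588)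
(.leaf 749754))
(.leaf 63358130618516060))
(.node (.leaf 30310541803908)
(.leaf 26666111107186)))
(.node (.node (.node (.leaf 17390038245632)
(.leaf 130042403210694781))
(.leaf 64268415009337736795883562909808))
(.node (.leaf 34064451566899670)
(.leaf 766)))))
(.node (.node (.node (.node (.node (.leaf 5429996904454)
(.leaf 856202))
(.leaf 2404937))
(.node (.leaf 22200937652582)
(.leaf 25226173133244)))
(.node (.node (.node (.leaf 17252532183278)
(.leaf 3591856359))
(.leaf 54054))
(.node (.leaf 468138506245853290582)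
(.leaf 674))))
(.node (.node (.node (.node (.leaf 8728262811798)
(.leaf 1593584))
(.leaf 299686))
(.node (.leaf 438157478377067421702)
(.leaf 396)))
(.node (.node (.node (.leaf 25913401434400)
(.leaf 1118094654247547561484954616812310061399))
(.leaf 2466304030))
(.node (.leaf 37442563805770246)
(.leaf 61927106552668396))))))
(.node (.node (.node (.node (.node (.node (.leaf 10103658938398)
(.leaf 282702))
(.leaf 104442618366263832))
(.node (.node (.leaf 25086820966742)
(.leaf 283))
(.leaf 4816245042)))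
(.node (.node (.node (.leaf 13128256028880)
(.leaf 1790308))
(.leaf 1602310))
(.node (.leaf 463525696664484290578)
(.leaf 4782477888))))
(.node (.node (.node (.node (.leaf 11753463849072)
(.leaf 2869764289))
(.leaf 1094280))
(.node (.leaf 122470412676194746)
(.leaf 26391166115960)))
(.node (.node (.node (.leaf 21376573448482)
(.leaf 1198172838456872476265310431380972895961400))
(.leaf 1292136544))
(.node (.leaf 38005651231609332)
(.leaf 57529462280859)))))
(.node (.node (.node (.node (.node (.leaf 11616024887370)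
(.leaf 446628))
(.leaf 2503265))
(.node (.leaf 26050773287286)
(.leaf 1491094)))
(.node (.node (.node (.leaf 27011570565360)
(.leaf 1364358))
(.leaf 283458))
(.node (.leaf 448)
(.leaf 722))))
(.node (.node (.node (.node (.leaf 12165344452772)
(.leaf 1356060))
(.leaf 1618630))
(.node (.leaf 431237697962030178310)
(.leaf 8357077482)))
(.node (.node (.node (.leaf 90374431781126456)
(.leaf 3691708445))
(.leaf 1963266200))
(.node (.leaf 38079819784394)
(.leaf 692250))))))))
(.node (.node (.node (.node (.node (.node (.node (.node (.leaf 2130589507586)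
(.leaf 331845))
(.leaf 40815667341042198))
(.node (.node (.leaf 25226139828236)
(.leaf 901192))
(.leaf 4816244980)))
(.node (.node (.node (.leaf 10103658938546)
(.leaf 4497453388))
(.leaf 1503966))
(.node (.leaf 447383099601792647188)
(.leaf 9416229515810))))
(.node (.node (.node (.node (.leaf 58841123443548260)
(.leaf 463026))
(.leaf 99382592706785896))
(.node (.leaf 25087358058884)
(.leaf 26116220854346)))
(.node (.node (.node (.leaf 28249830097148)
(.leaf 5019391373845))
(.leaf 66802748832962519599638953107464))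
(.node (.leaf 466)
(.leaf 750)))))
(.node (.node (.node (.node (.node (.leaf 5016840675334)
(.leaf 757882))
(.leaf 572))
(.node (.leaf 123596589709566306)
(.leaf 6158733708)))
(.node (.node (.node (.leaf 80802770476277980)
(.leaf 3658813687))
(.leaf 1020702))
(.node (.leaf 468138502671769116690)
(.leaf 12246981239671809195786031124))))
(.node (.node (.node (.node (.leaf 58841123443548298)
(.leaf 4816290032))
(.leaf 299678))
(.node (.leaf 435850506031101493268)
(.leaf 422)))
(.node (.node (.node (.leaf 26188245795100)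
(.leaf 3691708701))
(.leaf 2433151050))
(.node (.leaf 31248739358175742)
(.leaf 9010155705))))))
(.node (.node (.node (.node (.node (.node (.leaf 11616024887322)
(.leaf 3339391084))
(.leaf 93750893746418220))
(.node (.node (.leaf 26325718303054)
(.leaf 1147043))
(.leaf 6158602528)))
(.node (.node (.node (.leaf 13402764828872)
(.leaf 1659224))
(.leaf 643838))
(.node (.leaf 484283350159515820050)
(.leaf 24125855781430))))
(.node (.node (.node (.node (.leaf 10104196546568)
(.leaf 2836201663))
(.leaf 1143424))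
(.node (.leaf 25225802596772)
(.leaf 25841242325074)))
(.node (.node (.node (.leaf 19451589017886)
(.leaf 4749295710541))
(.leaf 1996550188))
(.node (.leaf 30685651898601960)
(.leaf 802)))))
(.node (.node (.node (.node (.node (.leaf 11066235519048)
(.leaf 651426))
(.leaf 594))
(.node (.leaf 28800425099626)
(.leaf 6158643606)))
(.node (.node (.node (.leaf 25775928926444)
(.leaf 1356164))
(.leaf 955194))
(.node (.leaf 149)
(.leaf 712))))
(.node (.node (.node (.node (.leaf 9827237552292)
(.leaf 1347864))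
(.leaf 602814))
(.node (.leaf 447383099189341569044)
(.leaf 8316516495852)))
(.node (.node (.node (.leaf 19589027086646)
(.leaf 61936589839917442))
(.leaf 2064052362))
(.node (.leaf 2224669)
(.leaf 667670)))))))
(.node (.node (.node (.node (.node (.node (.node (.leaf 2542872461334)
(.leaf 692298))
(.leaf 37667402269070))
(.node (.node (.leaf 111207703158899020)
(.leaf 901404))
(.leaf 5554606432)))
(.node (.node (.node (.leaf 9965146267842)
(.leaf 1569102))
(.leaf 1487598))
(.node (.leaf 442770287958403432468)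
(.leaf 9196126744))))
(.node (.node (.node (.node (.leaf 9965482057736)
(.leaf 774338))
(.leaf 1151602))
(.node (.leaf 25224864121222)
(.leaf 26803583410254)))
(.node (.node (.node (.leaf 19452159787018)
(.leaf 1175994482))
(.leaf 15845500241994692494114513010))
(.node (.leaf 96003380955918812)
(.leaf 776)))))
(.node (.node (.node (.node (.node (.leaf 5567469461510)
(.leaf 471119))
(.leaf 59404561246642762))
(.node (.leaf 107827253685985640)
(.leaf 5420151142)))
(.node (.node (.node (.leaf 90374844098011380)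
(.leaf 1577334))
(.leaf 103212))
(.node (.leaf 449689513396725227606)
(.leaf 694))))
(.node (.node (.node (.node (.leaf 49266161724031128)
(.leaf 1683708))
(.leaf 1159854))
(.node (.leaf 442770286996062322708)
(.leaf 7629086757318)))
(.node (.node (.node (.leaf 27838151074084)
(.leaf 3691708667))
(.leaf 2432979034))
(.node (.leaf 36017732075920)
(.leaf 1039128157754397230756064))))))
(.node (.node (.node (.node (.node (.node (.leaf 13265292337202)
(.leaf 659566))
(.leaf 558))
(.node (.node (.leaf 103321867821891928)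
(.leaf 176))
(.leaf 29074933551424)))
(.node (.node (.node (.leaf 58278173490118866)
(.leaf 4883812654))
(.leaf 1159950))
(.node (.leaf 472751314315158331410)
(.leaf 12302164599386))))
(.node (.node (.node (.node (.leaf 12028375302258)
(.leaf 1356012))
(.leaf 316048))
(.node (.leaf 431237700986190471174)
(.leaf 26803583451220)))
(.node (.node (.node (.leaf 19727071576336)
(.leaf 61936594286092822))
(.leaf 1392791706))
(.node (.leaf 34505467273578)
(.leaf 3297987)))))
(.node (.node (.node (.node (.node (.leaf 12028375302222)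
(.leaf 235585561))
(.leaf 42478873206976))
(.node (.leaf 29760618176888)
(.leaf 25841242488942)))
(.node (.node (.node (.leaf 25225634824432)
(.leaf 6326669740))
(.leaf 78662))
(.node (.leaf 1896909)
(.leaf 730))))
(.node (.node (.node (.node (.leaf 9964743614636)
(.leaf 4832817366))
(.leaf 586446))
(.node (.leaf 431237694662757957652)
(.leaf 8453989011970)))
(.node (.node (.node (.leaf 18351674736652)
(.leaf 288))
(.leaf 2466713776))
(.node (.leaf 30685651898815006)
(.leaf 708638)))))))))))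

def h : Tr Nat := (.node (.node (.node (.node (.node (.node (.node (.node (.node (.node (.node (.leaf 0)
(.leaf 2164366767434170806))
(.leaf 0))
(.node (.node (.leaf 0)
(.leaf 167254099200))
(.leaf 36507615236)))
(.node (.node (.node (.leaf 0)
(.leaf 212624933737))
(.leaf 0))
(.node (.leaf 0)
(.leaf 132103209442))))
(.node (.node (.node (.node (.leaf 0)
(.leaf 34637676980))
(.leaf 0))
(.node (.leaf 0)
(.leaf 25508529028257284099)))
(.node (.node (.node (.leaf 0)
(.leaf 59599071998969971562))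
(.leaf 0))
(.node (.leaf 0)
(.leaf 173970228073)))))
(.node (.node (.node (.node (.node (.leaf 0)
(.leaf 6487857594350109106))
(.leaf 0))
(.node (.node (.leaf 0)
(.leaf 93247488032668321056))
(.leaf 68451172354)))
(.node (.node (.node (.leaf 0)
(.leaf 81090838963))
(.leaf 0))
(.node (.leaf 0)
(.leaf 41651928300247908920))))
(.node (.node (.node (.node (.leaf 0)
(.leaf 13265018684447130035))
(.leaf 0))
(.node (.leaf 0)
(.leaf 54405999297750434228)))
(.node (.node (.node (.leaf 0)
(.leaf 1307905322044025256629356687116132505659813320888213254103236112711035471762491632134126188836905506719200230369146205003843157500400204185475453212988750001865477))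
(.leaf 12616728579))
(.node (.leaf 0)
(.leaf 267204610151333685971964427208815524986470357495316484))))))
(.node (.node (.node (.node (.node (.node (.leaf 0)
(.leaf 4398187367250330036))
(.leaf 0))
(.node (.node (.leaf 0)
(.leaf 12031695244021278290600911748614044336548419699393487720697793160814169037622780132512125069061740803689660511192627955046590782843739222320674346312010590504167893117857893134089719770879051505570522062944273944719941797150825059843499632349197389169849769422360775646319355983121023812566803152332173310245849431154549282159829484736094921293358511421308044809157082977555454035200))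
(.leaf 56371970053)))
(.node (.node (.node (.leaf 0)
(.leaf 20254640491303797175))
(.leaf 0))
(.node (.leaf 0)
(.leaf 143379071477))))
(.node (.node (.node (.node (.leaf 0)
(.leaf 10667162863909536180))
(.leaf 0))
(.node (.leaf 0)
(.leaf 27237911285167554563)))
(.node (.node (.node (.leaf 0)
(.leaf 17486550096073401864057455622))
(.leaf 504508712455503873))
(.node (.leaf 0)
(.leaf 179862045538)))))
(.node (.node (.node (.node (.node (.leaf 0)
(.leaf 29806166457))
(.leaf 0))
(.node (.leaf 0)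
(.leaf 81873338373)))
(.node (.node (.node (.leaf 0)
(.leaf 85654831974))
(.leaf 0))
(.node (.leaf 0)
(.leaf 168869954409))))
(.node (.node (.node (.node (.leaf 0)
(.leaf 14489997783092167095))
(.leaf 0))
(.node (.leaf 0)
(.leaf 121093554619)))
(.node (.node (.node (.leaf 0)
(.leaf 8739660932809956698941180047282884089546493459737610336766238828279865391405587435418982741218373100312723515069943122482171970991439445282125739639558815782221438336991554660064605280715106493218677678882804399719643390610480455115758434281872898731410672))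
(.leaf 22280536068))
(.node (.leaf 0)
(.leaf 14797644060993172621038715322)))))))
(.node (.node (.node (.node (.node (.node (.node (.leaf 0)
(.leaf 197578457530))
(.leaf 0))
(.node (.node (.leaf 0)
(.leaf 59882640500830503991))
(.leaf 49124343814)))
(.node (.node (.node (.leaf 0)
(.leaf 72771896172))
(.leaf 0))
(.node (.leaf 0)
(.leaf 138815537652))))
(.node (.node (.node (.node (.leaf 0)
(.leaf 9874529329492459958))
(.leaf 0))
(.node (.leaf 0)
(.leaf 26301162562674491395)))
(.node (.node (.node (.leaf 0)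
(.leaf 64997304700248065023))
(.leaf 0))
(.node (.leaf 0)
(.leaf 176372908899)))))
(.node (.node (.node (.node (.node (.leaf 0)
(.leaf 7136375940691591604))
(.leaf 0))
(.node (.leaf 0)
(.leaf 70599180294)))
(.node (.node (.node (.leaf 0)
(.leaf 83238584759))
(.leaf 0))
(.node (.leaf 0)
(.leaf 164306551657))))
(.node (.node (.node (.node (.leaf 0)
(.leaf 208866837353))
(.leaf 0))
(.node (.leaf 0)
(.leaf 222811390394)))
(.node (.node (.node (.leaf 0)
(.leaf 2688910783245952115195118703))
(.leaf 16643391492))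
(.node (.leaf 0)
(.leaf 4850009661888494339962704080121824107))))))
(.node (.node (.node (.node (.node (.node (.leaf 0)
(.leaf 200799355318))
(.leaf 0))
(.node (.node (.leaf 0)
(.leaf 401090034686488693109136035648207884721628255829361784))
(.leaf 64961511426)))
(.node (.node (.node (.leaf 0)
(.leaf 20975216431682945461))
(.leaf 0))
(.node (.leaf 0)
(.leaf 40210811604128432680))))
(.node (.node (.node (.node (.leaf 0)
(.leaf 55631752569083462499))
(.leaf 0))
(.node (.leaf 0)
(.leaf 28030544819584761859)))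
(.node (.node (.node (.leaf 0)
(.leaf 113967912611233544545738478093040616304446303388844693965125338577593038709152487607376313951779326400812792008929602365294748007467616511569018221466718020206492569915818751399290996581328112131209500734515967377430384959278826372603074872631744064859212645088758602047245130906437048129764391771114933972640954627212068597837648470172311987381134595885251856257955763680119261520013630520943732026811378917867576199428424661556409714342155286141497495916314507430119220806559827316254696951465801103159364248117456176899604216521386367437892089150757978233586646043164896202929194353512537587876380607784260198885405168761864291198969154844644124635893489506360703751454222317005034888004238769411658547614358065251512))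
(.leaf 10469244931))
(.node (.leaf 0)
(.leaf 183350788530)))))
(.node (.node (.node (.node (.node (.leaf 0)
(.leaf 32221626802))
(.leaf 0))
(.node (.leaf 0)
(.leaf 92074016774)))
(.node (.node (.node (.leaf 0)
(.leaf 24073657790136320435))
(.leaf 0))
(.node (.leaf 0)
(.leaf 171271455158))))
(.node (.node (.node (.node (.leaf 0)
(.leaf 16363460043437506995))
(.leaf 0))
(.node (.leaf 0)
(.leaf 127538364882)))
(.node (.node (.node (.leaf 0)
(.leaf 91302707018465215155))
(.leaf 28186116100))
(.node (.leaf 0)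
(.leaf 5646647732))))))))
(.node (.node (.node (.node (.node (.node (.node (.node (.leaf 0)
(.leaf 2452632328226406838))
(.leaf 0))
(.node (.node (.leaf 0)
(.leaf 177410879316344137375697709920669951925283280421322945172030175832908418288481969781775935823088602518765926120695868225852443172266249508270264427377344769034993132650236886978639587327523972941487917759392895137944961588439437740353463472865355674172506337254133004485717647018144572379275234547226834980805647277140077292100834387177560456655739443386696773855463037535868826342343675921607868120039097602))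
(.leaf 11673506157615513602)))
(.node (.node (.node (.leaf 0)
(.leaf 17588474326722806195))
(.leaf 0))
(.node (.leaf 0)
(.leaf 35963072729778422243))))
(.node (.node (.node (.node (.leaf 0)
(.leaf 206168064438))
(.leaf 0))
(.node (.leaf 0)
(.leaf 26012932186522779651)))
(.node (.node (.node (.leaf 0)
(.leaf 72203908535685940245))
(.leaf 0))
(.node (.leaf 0)
(.leaf 175030076257)))))
(.node (.node (.node (.node (.node (.leaf 0)
(.leaf 6848075195258962358))
(.leaf 0))
(.node (.node (.leaf 0)
(.leaf 77463972229806097699))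
(.leaf 69525438470)))
(.node (.node (.node (.leaf 0)
(.leaf 82164711861))
(.leaf 0))
(.node (.leaf 0)
(.leaf 156268429881))))
(.node (.node (.node (.node (.leaf 0)
(.leaf 50491622250))
(.leaf 0))
(.node (.leaf 0)
(.leaf 222274257336)))
(.node (.node (.node (.leaf 0)
(.leaf 89382913039881859311213858625041954150870210568817732074433532338249176158262899728114789692992152627712258210047466505194279273385219172899036282156890303796554176808864964401275377961274087775497189620399767390433514151192626630962928076774410403111221921610981992008372959471760169143125139216972047000893104978071206318904237437118756201867793329449627778260498932312720344171773602242497027769727758234465113376040117521602743320264493585374441515976643725033205197258280797400695594462239954992201480293697470357964835599965109476778254409925701))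
(.leaf 13690470403))
(.node (.leaf 0)
(.leaf 13891761940950718259100582859))))))
(.node (.node (.node (.node (.node (.node (.leaf 0)
(.leaf 5118763307629740470))
(.leaf 0))
(.node (.node (.leaf 0)
(.leaf 348981757190))
(.leaf 58251149318)))
(.node (.node (.node (.leaf 0)
(.leaf 76528026470))
(.leaf 0))
(.node (.leaf 0)
(.leaf 145258119669))))
(.node (.node (.node (.node (.leaf 0)
(.leaf 10955358055420854710))
(.leaf 0))
(.node (.leaf 0)
(.leaf 27526141661319266307)))
(.node (.node (.node (.leaf 0)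
(.leaf 143897068649))
(.leaf 6174408708))
(.node (.leaf 0)
(.leaf 181204747107)))))
(.node (.node (.node (.node (.node (.leaf 0)
(.leaf 30880039354))
(.leaf 0))
(.node (.leaf 0)
(.leaf 87242178566)))
(.node (.node (.node (.leaf 0)
(.leaf 88340890471))
(.leaf 0))
(.node (.leaf 0)
(.leaf 169929146804))))
(.node (.node (.node (.node (.leaf 0)
(.leaf 211013861815))
(.leaf 0))
(.node (.leaf 0)
(.leaf 124584657353)))
(.node (.node (.node (.leaf 0)
(.leaf 77991243859250766208898593827859534094956410820688614125576318355700550850826229167078691282591360419057))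
(.leaf 23354277892))
(.node (.leaf 0)
(.leaf 1403665785813941816789380802478491716662657894)))))))
(.node (.node (.node (.node (.node (.node (.node (.leaf 0)
(.leaf 4109956991098487218))
(.leaf 0))
(.node (.node (.leaf 0)
(.leaf 6168794752822078187549440618848453646))
(.leaf 55298359302)))
(.node (.node (.node (.leaf 0)
(.leaf 19822259741898834359))
(.leaf 0))
(.node (.leaf 0)
(.leaf 139865031521))))
(.node (.node (.node (.node (.leaf 0)
(.leaf 38664208820))
(.leaf 0))
(.node (.leaf 0)
(.leaf 26733508126902059011)))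
(.node (.node (.node (.leaf 0)
(.leaf 115165102220))
(.leaf 0))
(.node (.leaf 0)
(.leaf 178519212470)))))
(.node (.node (.node (.node (.node (.leaf 0)
(.leaf 28732293560))
(.leaf 0))
(.node (.leaf 0)
(.leaf 77041500165)))
(.node (.node (.node (.leaf 0)
(.leaf 22632963306483811173))
(.leaf 0))
(.node (.leaf 0)
(.leaf 166994576235))))
(.node (.node (.node (.node (.leaf 0)
(.leaf 14129674628262003127))
(.leaf 0))
(.node (.leaf 0)
(.leaf 58445130146228667241)))
(.node (.node (.node (.leaf 0)
(.leaf 15339685622950059849142539286626837259583965177391399834441924423795224418888141868323178261494592899960229674733517353550230924298526647362448851752573179697511146680735721573754873361386824138855729368839467553955296233981973300225665366831056606686731603848807013519984176796381413988602093534147615210630100848025512258564524205583631435))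
(.leaf 21206794244))
(.node (.leaf 0)
(.leaf 4460659642673574524775689006170964841))))))
(.node (.node (.node (.node (.node (.node (.leaf 0)
(.leaf 201872966068))
(.leaf 0))
(.node (.node (.leaf 0)
(.leaf 308182385948))
(.leaf 66572124162)))
(.node (.node (.node (.leaf 0)
(.leaf 80017097139))
(.leaf 0))
(.node (.leaf 0)
(.leaf 150898278953))))
(.node (.node (.node (.node (.leaf 0)
(.leaf 45657358771))
(.leaf 0))
(.node (.leaf 0)
(.leaf 28462890383812329475)))
(.node (.node (.node (.leaf 0)
(.leaf 798195584814732686174140606390593905489113088426628698421522527490721913598282262309215850362512053945724415389927657047394357136933708022043802570487643985920012113503349071593448992073213699039295398623836815258933206350543240307164919635869410941203231136349462013291239880476593441960860827566209189537462743321911992314021350989160317082702487350655468392819336546288772743275771397914261426718991237890438462049463979147777264816633402246818096765160601327722942576432671650363503936509))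
(.leaf 11542986755))
(.node (.leaf 0)
(.leaf 13697927683987389302689759235)))))
(.node (.node (.node (.node (.node (.leaf 0)
(.leaf 9009803016396538290))
(.leaf 0))
(.node (.leaf 0)
(.leaf 1817316577109277165449961415884668931)))
(.node (.node (.node (.leaf 0)
(.leaf 221214868329))
(.leaf 0))
(.node (.leaf 0)
(.leaf 172629754730))))
(.node (.node (.node (.node (.leaf 0)
(.leaf 16651725604229743027))
(.leaf 0))
(.node (.leaf 0)
(.leaf 128872612279)))
(.node (.node (.node (.leaf 0)
(.leaf 34214061475550704489146972511675626363733128352765215453507225767838971))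
(.leaf 31138775043))
(.node (.leaf 0)
(.leaf 1804113981884924340)))))))))
(.node (.node (.node (.node (.node (.node (.node (.node (.node (.leaf 0)
(.leaf 2308517140150419892))
(.leaf 0))
(.node (.node (.leaf 0)
(.leaf 49561763568208416052595006221161518203357024247501150899314999758625865710867736974831849333932581214012679844673383085322559390505274532968134352098480602200613911861992875420324207664851114749438178738827470354935048802611666716526505553101239835945717600336999379482070941407554067596712461939330993912074301610692623269758666555266502802081730981336201534383873616045792601965927940433814579524589784482172579568794466503324530395303595819924553892295527514455336623492055124233190883799383900463598077186))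
(.leaf 40534147076)))
(.node (.node (.node (.leaf 0)
(.leaf 17156163947672895927))
(.leaf 0))
(.node (.leaf 0)
(.leaf 35818887171884646883))))
(.node (.node (.node (.node (.leaf 0)
(.leaf 9442183765264761268))
(.leaf 0))
(.node (.leaf 0)
(.leaf 25652644216333139971)))
(.node (.node (.node (.leaf 0)
(.leaf 5265333819851642482144617276445820010))
(.leaf 0))
(.node (.leaf 0)
(.leaf 174506836837)))))
(.node (.node (.node (.node (.node (.leaf 0)
(.leaf 6631972782426096052))
(.leaf 0))
(.node (.node (.leaf 0)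
(.leaf 16558779827048043247577335074))
(.leaf 68988567558)))
(.node (.node (.node (.leaf 0)
(.leaf 81627840949))
(.leaf 0))
(.node (.leaf 0)
(.leaf 155731558969))))
(.node (.node (.node (.node (.leaf 0)
(.leaf 13409133872523248055))
(.leaf 0))
(.node (.leaf 0)
(.leaf 54550149670735380918)))
(.node (.node (.node (.leaf 0)
(.leaf 17749224204815529750160826637807775937197172301995368658804253988234376560404970938827864516804633600237073767140310197124459967169110200763971698217003017845120548243004994091967989513980205122840969203759507461399093266826063607817534974772439119334419594785506199357647085422286401410832186021566728796773256680548256943542906280770882593424613916143848258471150252355129872811035))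
(.leaf 13153599491))
(.node (.leaf 0)
(.leaf 267955091256049237198303153750293503673915846370656262))))))
(.node (.node (.node (.node (.node (.node (.leaf 0)
(.leaf 4614324964723720630))
(.leaf 0))
(.node (.node (.leaf 0)
(.leaf 76896214443379149800468620160805146779117796046310610139656340961991915643540015424495371467426236531512502631974966183096855075447918371523365763450035338948788746948569088902652738198604364844923027663329424657610738571015732498389954279559251940027302230945793558217717567065598651643923202539604984441986050129035196755540262405346190741508785341517610924903101920056599228977781532470391428018750790232711300352))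
(.leaf 56908840965)))
(.node (.node (.node (.leaf 0)
(.leaf 20398685309561602485))
(.leaf 0))
(.node (.leaf 0)
(.leaf 144710763369))))
(.node (.node (.node (.node (.leaf 0)
(.leaf 40274952630))
(.leaf 0))
(.node (.leaf 0)
(.leaf 27382026473243410435)))
(.node (.node (.node (.leaf 0)
(.leaf 5358537849730086216822316994678096934))
(.leaf 2415919105))
(.node (.leaf 0)
(.leaf 180684915565)))))
(.node (.node (.node (.node (.node (.leaf 0)
(.leaf 205094519225))
(.leaf 0))
(.node (.leaf 0)
(.leaf 84557824006)))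
(.node (.node (.node (.leaf 0)
(.leaf 220409561961))
(.leaf 0))
(.node (.leaf 0)
(.leaf 169406563173))))
(.node (.node (.node (.node (.leaf 0)
(.leaf 14634148156345418167))
(.leaf 0))
(.node (.leaf 0)
(.leaf 123510784456)))
(.node (.node (.node (.leaf 0)
(.leaf 484210875341292721859337368035159803729217488638143281328737317697099061336289179106373809846106866267106305746439476368232080772046718193))
(.leaf 22817406980))
(.node (.leaf 0)
(.leaf 101142523496486868560023990269099880497391886180630031074394982)))))))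
(.node (.node (.node (.node (.node (.node (.node (.leaf 0)
(.leaf 3965771433741582770))
(.leaf 0))
(.node (.node (.leaf 0)
(.leaf 6168860670575673240109952962118157326))
(.leaf 53150875654)))
(.node (.node (.node (.leaf 0)
(.leaf 19678144553822716339))
(.leaf 0))
(.node (.leaf 0)
(.leaf 10039614225516762824180564468))))
(.node (.node (.node (.node (.leaf 0)
(.leaf 10162724521003385266))
(.leaf 0))
(.node (.leaf 0)
(.leaf 26589392938826203139)))
(.node (.node (.node (.leaf 0)
(.leaf 308994573146))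
(.leaf 0))
(.node (.leaf 0)
(.leaf 177983521635)))))
(.node (.node (.node (.node (.node (.leaf 0)
(.leaf 7280491128767578550))
(.leaf 0))
(.node (.leaf 0)
(.leaf 71136051206)))
(.node (.node (.node (.leaf 0)
(.leaf 83775455671))
(.leaf 0))
(.node (.leaf 0)
(.leaf 164843160421))))
(.node (.node (.node (.node (.leaf 0)
(.leaf 13985629810003935669))
(.leaf 0))
(.node (.leaf 0)
(.leaf 58373037367550215017)))
(.node (.node (.node (.leaf 0)
(.leaf 56825977493135544530023065410982899283714134874058171761161996513264496244600775216822794031188459170498694161221728059054672965731486285520315153754014167013713037197560731967626279425067532653003856443606856056853510714497703492347519486082105824399956365658810195370831627476118874497739790358580344812362633000491639915866751531))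
(.leaf 20669923332))
(.node (.leaf 0)
(.leaf 20758603861024768873))))))
(.node (.node (.node (.node (.node (.node (.leaf 0)
(.leaf 201336095156))
(.leaf 0))
(.node (.node (.leaf 0)
(.leaf 19172708844585622549417624858))
(.leaf 65766817794)))
(.node (.node (.node (.leaf 0)
(.leaf 5727328634708430460727853495))
(.leaf 0))
(.node (.leaf 0)
(.leaf 150361276968))))
(.node (.node (.node (.node (.leaf 0)
(.leaf 3095558484966570076559180643))
(.leaf 0))
(.node (.leaf 0)
(.leaf 28318775195736473603)))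
(.node (.node (.node (.leaf 0)
(.leaf 43414377775747605326480199954089206889734372783700723075921281900877313545967223139953036105071729317802438202035664838048346911465623112766011733292342264288614944325757024800673350264216443476407229576624170459520539656762876279219313701260229492126341015708733257050140804958624975019162158238446629898706272530737820808415161726023766090949730917880884678056305617535547))
(.leaf 11006115843))
(.node (.leaf 0)
(.leaf 50656629347494133763)))))
(.node (.node (.node (.node (.node (.leaf 0)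
(.leaf 8793788678310658482))
(.leaf 0))
(.node (.leaf 0)
(.leaf 93147758598)))
(.node (.node (.node (.leaf 0)
(.leaf 90218365801))
(.leaf 0))
(.node (.leaf 0)
(.leaf 171808063922))))
(.node (.node (.node (.node (.leaf 0)
(.leaf 16507575231513625015))
(.leaf 0))
(.node (.leaf 0)
(.leaf 34371542725672632786)))
(.node (.node (.node (.leaf 0)
(.leaf 232250797795651049554445381))
(.leaf 29528162307))
(.node (.leaf 0)
(.leaf 194625208756))))))))
(.node (.node (.node (.node (.node (.node (.node (.node (.leaf 0)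
(.leaf 197041324472))
(.leaf 0))
(.node (.node (.leaf 0)
(.leaf 5791412785663309105511872041581476657970319028438945816882924940113933949703674879950801414544237482524409570900626572544))
(.leaf 46439858181)))
(.node (.node (.node (.leaf 0)
(.leaf 215577592678))
(.leaf 0))
(.node (.leaf 0)
(.leaf 137204924916))))
(.node (.node (.node (.node (.leaf 0)
(.leaf 9730449326057128374))
(.leaf 0))
(.node (.leaf 0)
(.leaf 26157047374598635523)))
(.node (.node (.node (.leaf 0)
(.leaf 230610699407))
(.leaf 0))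
(.node (.leaf 0)
(.leaf 175849145190)))))
(.node (.node (.node (.node (.node (.leaf 0)
(.leaf 6992260752615866806))
(.leaf 0))
(.node (.leaf 0)
(.leaf 70062309382)))
(.node (.node (.node (.leaf 0)
(.leaf 82701713847))
(.leaf 0))
(.node (.leaf 0)
(.leaf 158132405094))))
(.node (.node (.node (.node (.leaf 0)
(.leaf 13697892015867364201))
(.leaf 0))
(.node (.leaf 0)
(.leaf 58084806991398372198)))
(.node (.node (.node (.leaf 0)
(.leaf 468809261646458792577500989692529945302477902646871109))
(.leaf 14495907844))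
(.node (.leaf 0)
(.leaf 3739453933467015016449120140004361171))))))
(.node (.node (.node (.node (.node (.node (.leaf 0)
(.leaf 19874054585))
(.leaf 0))
(.node (.node (.leaf 0)
(.leaf 26721815892320773292022449049380020823355821326838425859237742453130518))
(.leaf 61740810246)))
(.node (.node (.node (.leaf 0)
(.leaf 20832121591471997801))
(.leaf 0))
(.node (.leaf 0)
(.leaf 147407569440))))
(.node (.node (.node (.node (.leaf 0)
(.leaf 41617195448))
(.leaf 0))
(.node (.leaf 0)
(.leaf 27886429631508905987)))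
(.node (.node (.node (.leaf 0)
(.leaf 213990758114561099342644192813281198578028965475634165689052764702575689061572538428258392183995697673860428847940023890317001929771195466899800011454593159803714708157176885273262718442235945839488436126914913426154172847980644599568821634506583270262862239706074278593565))
(.leaf 8858763268))
(.node (.leaf 0)
(.leaf 182814179766)))))
(.node (.node (.node (.node (.node (.leaf 0)
(.leaf 205630931378))
(.leaf 0))
(.node (.leaf 0)
(.leaf 90463404038)))
(.node (.node (.node (.leaf 0)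
(.leaf 23858012775215072102))
(.leaf 0))
(.node (.leaf 0)
(.leaf 170750837612))))
(.node (.node (.node (.node (.leaf 0)
(.leaf 58542260659))
(.leaf 0))
(.node (.leaf 0)
(.leaf 126733058514)))
(.node (.node (.node (.leaf 0)
(.leaf 474815485201221057065005987116203338935893857471694064))
(.leaf 27380678659))
(.node (.leaf 0)
(.leaf 1371733233016701362)))))))
(.node (.node (.node (.node (.node (.node (.node (.leaf 0)
(.leaf 4254001809893425588))
(.leaf 0))
(.node (.node (.leaf 0)
(.leaf 260963497100350072678522917448560044816890639555040505196655319481063216592095157487380220758215647086948337316506728489815103316735493384))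
(.leaf 55835099141)))
(.node (.node (.node (.leaf 0)
(.leaf 20110525303227679155))
(.leaf 0))
(.node (.leaf 0)
(.leaf 140683510195))))
(.node (.node (.node (.node (.leaf 0)
(.leaf 206704804276))
(.leaf 0))
(.node (.leaf 0)
(.leaf 26877623314977914883)))
(.node (.node (.node (.leaf 0)
(.leaf 4684126180193476212581854220556895297))
(.leaf 0))
(.node (.leaf 0)
(.leaf 179340510055)))))
(.node (.node (.node (.node (.node (.leaf 0)
(.leaf 29269164472))
(.leaf 0))
(.node (.leaf 0)
(.leaf 78920548357)))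
(.node (.node (.node (.leaf 0)
(.leaf 22776585912813224373))
(.leaf 0))
(.node (.leaf 0)
(.leaf 168318534068))))
(.node (.node (.node (.node (.leaf 0)
(.leaf 14345882595016049075))
(.leaf 0))
(.node (.leaf 0)
(.leaf 120556683707)))
(.node (.node (.node (.leaf 0)
(.leaf 210333477661576465959185250344121774046175036877979048537730267045028162318165167515058601579318838835924081400877174620743670433919164644899095221))
(.leaf 21743665156))
(.node (.leaf 0)
(.leaf 28655964755982899727784112208324968958075625786874056124852688507112310141346100218997158358911053421502535103073729084328317696410433984515240157510435686))))))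
(.node (.node (.node (.node (.node (.node (.leaf 0)
(.leaf 54333976888621334962))
(.leaf 0))
(.node (.node (.leaf 0)
(.leaf 331536270620))
(.leaf 67914301442)))
(.node (.node (.node (.leaf 0)
(.leaf 219066663347))
(.leaf 0))
(.node (.leaf 0)
(.leaf 154360086968))))
(.node (.node (.node (.node (.leaf 0)
(.leaf 48879174502))
(.leaf 0))
(.node (.leaf 0)
(.leaf 28607005571888185347)))
(.node (.node (.node (.leaf 0)
(.leaf 6608357872307999235183109939954528335793134267929762276539053927834465435452191))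
(.leaf 12079857667))
(.node (.leaf 0)
(.leaf 992618981917293139418681114315641555163414532)))))
(.node (.node (.node (.node (.node (.leaf 0)
(.leaf 34100806068))
(.leaf 0))
(.node (.leaf 0)
(.leaf 25364413840181428227)))
(.node (.node (.node (.leaf 0)
(.leaf 221751739241))
(.leaf 0))
(.node (.leaf 0)
(.leaf 173150372276))))
(.node (.node (.node (.node (.leaf 0)
(.leaf 16795840792305861047))
(.leaf 0))
(.node (.leaf 0)
(.leaf 131029467618)))
(.node (.node (.node (.leaf 0)
(.leaf 4397681680164095280911483706326110246732051755286021134342891030975577859411276100000149192177424957927224709755949701384708087426187742381218919500721329996893496012745132790150360239328335299682080185660714713790))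
(.leaf 33017954308))
(.node (.leaf 0)
(.leaf 194893775286))))))))))
(.node (.node (.node (.node (.node (.node (.node (.node (.node (.node (.leaf 0)
(.leaf 2236459546112360882))
(.leaf 0))
(.node (.node (.leaf 0)
(.leaf 173696550144))
(.leaf 39191969796)))
(.node (.node (.node (.leaf 0)
(.leaf 17084106353634836917))
(.leaf 0))
(.node (.leaf 0)
(.leaf 132898881971))))
(.node (.node (.node (.node (.leaf 0)
(.leaf 9370090986586309044))
(.leaf 0))
(.node (.leaf 0)
(.leaf 25580586622295212035)))
(.node (.node (.node (.leaf 0)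
(.leaf 17176989528099889398087091202))
(.leaf 0))
(.node (.leaf 0)
(.leaf 174238532454)))))
(.node (.node (.node (.node (.node (.leaf 0)
(.leaf 24437129652))
(.leaf 0))
(.node (.node (.leaf 0)
(.leaf 291531523361))
(.leaf 68720132102)))
(.node (.node (.node (.leaf 0)
(.leaf 81359405493))
(.leaf 0))
(.node (.leaf 0)
(.leaf 41723985894285836856))))
(.node (.node (.node (.node (.leaf 0)
(.leaf 13337076278485189045))
(.leaf 0))
(.node (.leaf 0)
(.leaf 54478056891788493238)))
(.node (.node (.node (.leaf 0)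
(.leaf 279023132599673451345318231914390807192090236721717254126457925485737886851099076354230084698885))
(.leaf 12885164035))
(.node (.leaf 0)
(.leaf 267579850703691461585133790479554514330193101932855300))))))
(.node (.node (.node (.node (.node (.node (.leaf 0)
(.leaf 199994048950))
(.leaf 0))
(.node (.node (.leaf 0)
(.leaf 5362576554480838776036703400359727502576398435485664671859250733265905375573450639684913469289487833900787373856287287103437109239712423189067105561497013384754675701949503722103763296179763769763500379439602447643232717738181353323358188786071367154550981901916400745799602675844303721270173419739516851873270499078614678156074562477289053132592806692488606924025405467060642706637501764026114748567576121395126264180370764673778944))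
(.leaf 56640405509)))
(.node (.node (.node (.leaf 0)
(.leaf 20326627715523543475))
(.leaf 0))
(.node (.leaf 0)
(.leaf 144452813301))))
(.node (.node (.node (.node (.leaf 0)
(.leaf 10739255642588119478))
(.leaf 0))
(.node (.leaf 0)
(.leaf 27309968879205482499)))
(.node (.node (.node (.leaf 0)
(.leaf 19246618545629882905405096589))
(.leaf 2147483649))
(.node (.leaf 0)
(.leaf 180129825206)))))
(.node (.node (.node (.node (.node (.leaf 0)
(.leaf 30074601913))
(.leaf 0))
(.node (.leaf 0)
(.leaf 83483951109)))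
(.node (.node (.node (.leaf 0)
(.leaf 220140995430))
(.leaf 0))
(.node (.leaf 0)
(.leaf 169138258790))))
(.node (.node (.node (.node (.leaf 0)
(.leaf 209403708265))
(.leaf 0))
(.node (.leaf 0)
(.leaf 121898992060)))
(.node (.node (.node (.leaf 0)
(.leaf 32137882226932246739187053109164418704645517481630675309896644125787249))
(.leaf 22548971524))
(.node (.leaf 0)
(.leaf 82162725844839736942983548936941246592690477931776327453704630)))))))
(.node (.node (.node (.node (.node (.node (.node (.leaf 0)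
(.leaf 199456915890))
(.leaf 0))
(.node (.node (.leaf 0)
(.leaf 2772066462117865007917761946271703501447942394594091654472003153713166482867454))
(.leaf 51540262918)))
(.node (.node (.node (.leaf 0)
(.leaf 19606614726977323878))
(.leaf 0))
(.node (.leaf 0)
(.leaf 10020271412400360180648051188))))
(.node (.node (.node (.node (.leaf 0)
(.leaf 9946622108170650034))
(.leaf 0))
(.node (.leaf 0)
(.leaf 26373220156712419331)))
(.node (.node (.node (.leaf 0)
(.leaf 7801638683964732539627557617177018582620815780861798246672680966893165303563393))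
(.leaf 0))
(.node (.leaf 0)
(.leaf 176640820066)))))
(.node (.node (.node (.node (.node (.leaf 0)
(.leaf 7208398350089126326))
(.leaf 0))
(.node (.leaf 0)
(.leaf 70867615750)))
(.node (.node (.node (.leaf 0)
(.leaf 219603796407))
(.leaf 0))
(.node (.leaf 0)
(.leaf 164574856038))))
(.node (.node (.node (.node (.leaf 0)
(.leaf 13913572215965876659))
(.leaf 0))
(.node (.leaf 0)
(.leaf 58156864585436431209)))
(.node (.node (.node (.leaf 0)
(.leaf 11350492990219972732204860106054464500728587796025694850134375761445998))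
(.leaf 17985175553))
(.node (.leaf 0)
(.leaf 65068904812899402166))))))
(.node (.node (.node (.node (.node (.node (.leaf 0)
(.leaf 201067528626))
(.leaf 0))
(.node (.node (.leaf 0)
(.leaf 167790445849))
(.leaf 65230471174)))
(.node (.node (.node (.leaf 0)
(.leaf 21047274025721004471))
(.leaf 0))
(.node (.leaf 0)
(.leaf 40282869198166360616))))
(.node (.node (.node (.node (.leaf 0)
(.leaf 3076206227047712676435526499))
(.leaf 0))
(.node (.leaf 0)
(.leaf 28102602413622689795)))
(.node (.node (.node (.leaf 0)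
(.leaf 144881946155076637720685329721529329034361148254666106050251506307296999475172266122277876801972126663503022390035809985383569533796934699982019464303294217530154413950304647972030))
(.leaf 10737680387))
(.node (.leaf 0)
(.leaf 50512408605496705027)))))
(.node (.node (.node (.node (.node (.leaf 0)
(.leaf 32490062258))
(.leaf 0))
(.node (.leaf 0)
(.leaf 92342452230)))
(.node (.node (.node (.leaf 0)
(.leaf 24145715384174379445))
(.leaf 0))
(.node (.leaf 0)
(.leaf 171539759540))))
(.node (.node (.node (.node (.leaf 0)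
(.leaf 16435517637475566005))
(.leaf 0))
(.node (.leaf 0)
(.leaf 127806800338)))
(.node (.node (.node (.leaf 0)
(.leaf 47687441698740808641915202092961291521161355882515793800438303860356114716325800135938155327322259920506619626743))
(.leaf 28454551556))
(.node (.leaf 0)
(.leaf 1588170012274786740))))))))
(.node (.node (.node (.node (.node (.node (.node (.node (.leaf 0)
(.leaf 677716290542335060475183971))
(.leaf 0))
(.node (.node (.leaf 0)
(.leaf 1165269067751166853875744475471836509529638144))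
(.leaf 43755110402)))
(.node (.node (.node (.leaf 0)
(.leaf 67400761781))
(.leaf 0))
(.node (.leaf 0)
(.leaf 136936489460))))
(.node (.node (.node (.node (.leaf 0)
(.leaf 9658321362738151862))
(.leaf 0))
(.node (.leaf 0)
(.leaf 26084989780560707587)))
(.node (.node (.node (.leaf 0)
(.leaf 1022018380476045055371888652574091550650982651861038401680977402585659480929823674991094))
(.leaf 0))
(.node (.leaf 0)
(.leaf 175580840809)))))
(.node (.node (.node (.node (.node (.leaf 0)
(.leaf 6920167973937414582))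
(.leaf 0))
(.node (.leaf 0)
(.leaf 69793873926)))
(.node (.node (.node (.leaf 0)
(.leaf 82433147317))
(.leaf 0))
(.node (.leaf 0)
(.leaf 156805300793))))
(.node (.node (.node (.node (.leaf 0)
(.leaf 50760188780))
(.leaf 0))
(.node (.leaf 0)
(.leaf 222542823865)))
(.node (.node (.node (.leaf 0)
(.leaf 14373271736755148352036430604403549166887698537360469856420979087835911))
(.leaf 13958905859))
(.node (.leaf 0)
(.leaf 1002404822401852599550826380226031477632205774))))))
(.node (.node (.node (.node (.node (.node (.leaf 0)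
(.leaf 1393400375754195531901240163))
(.leaf 0))
(.node (.node (.leaf 0)
(.leaf 190871962901))
(.leaf 60667068422)))
(.node (.node (.node (.leaf 0)
(.leaf 20615948809358082918))
(.leaf 0))
(.node (.leaf 0)
(.leaf 145515938662))))
(.node (.node (.node (.node (.leaf 0)
(.leaf 11027450834099306934))
(.leaf 0))
(.node (.leaf 0)
(.leaf 27814372037470978051)))
(.node (.node (.node (.leaf 0)
(.leaf 213795470448965305343631305868231672927892706908643349312382464551815893635942148738421024018168911136221514813702029360569744519717269989883757408591040151011042336654768967958633220703860390152902455609990090961541038072203379739))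
(.leaf 7516585988))
(.node (.leaf 0)
(.leaf 181472658274)))))
(.node (.node (.node (.node (.node (.leaf 0)
(.leaf 205363085754))
(.leaf 0))
(.node (.leaf 0)
(.leaf 89389662214)))
(.node (.node (.node (.leaf 0)
(.leaf 23785884811090789222))
(.leaf 0))
(.node (.leaf 0)
(.leaf 170197451186))))
(.node (.node (.node (.node (.leaf 0)
(.leaf 57737085365))
(.leaf 0))
(.node (.leaf 0)
(.leaf 124853092809)))
(.node (.node (.node (.leaf 0)
(.leaf 5587062286859257424536442605413336169))
(.leaf 23622713348))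
(.node (.leaf 0)
(.leaf 16287451448548436301665796538)))))))
(.node (.node (.node (.node (.node (.node (.node (.leaf 0)
(.leaf 199725482420))
(.leaf 0))
(.node (.node (.leaf 0)
(.leaf 1664946928311946970155367657924532375180528547817906101857879730166123674943669881537662))
(.leaf 55566663685)))
(.node (.node (.node (.leaf 0)
(.leaf 74380673897))
(.leaf 0))
(.node (.leaf 0)
(.leaf 140133466977))))
(.node (.node (.node (.node (.leaf 0)
(.leaf 38932644276))
(.leaf 0))
(.node (.leaf 0)
(.leaf 26805565720939986947)))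
(.node (.node (.node (.leaf 0)
(.leaf 1257385547141773955349562975020714669314933769))
(.leaf 0))
(.node (.leaf 0)
(.leaf 179072336748)))))
(.node (.node (.node (.node (.node (.leaf 0)
(.leaf 29000729016))
(.leaf 0))
(.node (.leaf 0)
(.leaf 78652243974)))
(.node (.node (.node (.leaf 0)
(.leaf 219872428901))
(.leaf 0))
(.node (.leaf 0)
(.leaf 168050229686))))
(.node (.node (.node (.node (.leaf 0)
(.leaf 209135141734))
(.leaf 0))
(.node (.leaf 0)
(.leaf 15708087974896002668111528809)))
(.node (.node (.node (.leaf 0)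
(.leaf 208452244283200108084512420995794028260130020109845034))
(.leaf 21475229700))
(.node (.leaf 0)
(.leaf 16675280530934379692124210025))))))
(.node (.node (.node (.node (.node (.node (.leaf 0)
(.leaf 202141532598))
(.leaf 0))
(.node (.node (.leaf 0)
(.leaf 308450821404))
(.leaf 67109388293)))
(.node (.node (.node (.leaf 0)
(.leaf 80285532595))
(.leaf 0))
(.node (.leaf 0)
(.leaf 151166714409))))
(.node (.node (.node (.node (.leaf 0)
(.leaf 45925925301))
(.leaf 0))
(.node (.leaf 0)
(.leaf 28534947977850257411)))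
(.node (.node (.node (.leaf 0)
(.leaf 79649537531838757549172015525836376963322340909943279383100849701472444316832991413494130771271345261251469353538826933729172915850684994806227029828107255222057817398900382240486290797590110737012579373280595759079281634421764495297473145011971115249518128053501130597329906556552031054290474084212836438444884082271807406328860175257781061852940741983816522186712824153157))
(.leaf 11811422211))
(.node (.leaf 0)
(.leaf 3687548712048164488064117579448713220)))))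
(.node (.node (.node (.node (.node (.leaf 0)
(.leaf 9081895795074990514))
(.leaf 0))
(.node (.leaf 0)
(.leaf 1822508873967811993078491912213889027)))
(.node (.node (.node (.leaf 0)
(.leaf 221483303785))
(.leaf 0))
(.node (.leaf 0)
(.leaf 172882067894))))
(.node (.node (.node (.node (.leaf 0)
(.leaf 16723783198267802037))
(.leaf 0))
(.node (.leaf 0)
(.leaf 129149239763)))
(.node (.node (.node (.leaf 0)
(.leaf 8641474098835851874523927631360651872711557330736264740569538438538607270560837))
(.leaf 31407341572))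
(.node (.leaf 0)
(.leaf 7257391542)))))))))
(.node (.node (.node (.node (.node (.node (.node (.node (.node (.leaf 0)
(.leaf 195162210742))
(.leaf 0))
(.node (.node (.leaf 0)
(.leaf 208772984134337318842440200460576650502209193205347611793690305078153928458721243724378163098675961784566355613856423468100785996229983716587013362))
(.leaf 42413195268)))
(.node (.node (.node (.leaf 0)
(.leaf 213161673574))
(.leaf 0))
(.node (.leaf 0)
(.leaf 35890944765922574819))))
(.node (.node (.node (.node (.leaf 0)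
(.leaf 9514241359302820278))
(.leaf 0))
(.node (.leaf 0)
(.leaf 25724701810371067907)))
(.node (.node (.node (.leaf 0)
(.leaf 5597446880557182639362452954687472769))
(.leaf 0))
(.node (.leaf 0)
(.leaf 174762296163)))))
(.node (.node (.node (.node (.node (.leaf 0)
(.leaf 25242567094))
(.leaf 0))
(.node (.node (.leaf 0)
(.leaf 16520528658680140252967863586))
(.leaf 69257003014)))
(.node (.node (.node (.leaf 0)
(.leaf 219335229877))
(.leaf 0))
(.node (.leaf 0)
(.leaf 155999994425))))
(.node (.node (.node (.node (.leaf 0)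
(.leaf 50221482857))
(.leaf 0))
(.node (.leaf 0)
(.leaf 54622207264773308854)))
(.node (.node (.node (.leaf 0)
(.leaf 85898580769444921755))
(.leaf 13422034947))
(.node (.leaf 0)
(.leaf 268330331808407012811472517021032493017638590808195078))))))
(.node (.node (.node (.node (.node (.node (.leaf 0)
(.leaf 4974648119553622450))
(.leaf 0))
(.node (.node (.leaf 0)
(.leaf 5791407873301354550433972469678031510795084341937253957684492582476126044868812570633264331251940422936443621076837008640))
(.leaf 57177276421)))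
(.node (.node (.node (.leaf 0)
(.leaf 76259591014))
(.leaf 0))
(.node (.leaf 0)
(.leaf 144989684213))))
(.node (.node (.node (.node (.leaf 0)
(.leaf 206973370806))
(.leaf 0))
(.node (.leaf 0)
(.leaf 27454084067281338371)))
(.node (.node (.node (.leaf 0)
(.leaf 5592175980947536598876759994543113369))
(.leaf 2684354561))
(.node (.leaf 0)
(.leaf 180953088872)))))
(.node (.node (.node (.node (.node (.leaf 0)
(.leaf 30611603898))
(.leaf 0))
(.node (.leaf 0)
(.leaf 86168436742)))
(.node (.node (.node (.leaf 0)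
(.leaf 88070751078))
(.leaf 0))
(.node (.leaf 0)
(.leaf 169660842422))))
(.node (.node (.node (.node (.leaf 0)
(.leaf 210745164211))
(.leaf 0))
(.node (.leaf 0)
(.leaf 123779219912)))
(.node (.node (.node (.leaf 0)
(.leaf 28820413396491825709165854600789870405482747243274236799911041064109296))
(.leaf 23085842436))
(.node (.leaf 0)
(.leaf 731969006649534846459937348578105492330473505069681670494739766873611009885093482883416930512227278487598276298083996177884820731701100985)))))))
(.node (.node (.node (.node (.node (.node (.node (.leaf 0)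
(.leaf 4037864212420034994))
(.leaf 0))
(.node (.node (.leaf 0)
(.leaf 1409998853941046494952684576092348059205706233295009459264656434792831115087009973876943698960112129054368800755099120822342674432134158286256892833402305991483507091650263628170782487763181597671895362654553539046980985649818999554172371738558264269828543748970782953668172491541743467877759325854220034830241436840770522980147531275841594636229492764314483268134141798676790771179253202736600852427068067057309545925923351596875503867200768))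
(.leaf 54224617478)))
(.node (.node (.node (.leaf 0)
(.leaf 19750202147860775349))
(.leaf 0))
(.node (.leaf 0)
(.leaf 139595940276))))
(.node (.node (.node (.node (.leaf 0)
(.leaf 10234817299681837490))
(.leaf 0))
(.node (.leaf 0)
(.leaf 26661450532864131075)))
(.node (.node (.node (.leaf 0)
(.leaf 45398623774791909051744000915868907623809327879109457438901320))
(.leaf 0))
(.node (.leaf 0)
(.leaf 178251432802)))))
(.node (.node (.node (.node (.node (.leaf 0)
(.leaf 2012370395396885669350802275))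
(.leaf 0))
(.node (.leaf 0)
(.leaf 71404486662)))
(.node (.node (.node (.leaf 0)
(.leaf 84044088165))
(.leaf 0))
(.node (.leaf 0)
(.leaf 165922145134))))
(.node (.node (.node (.node (.leaf 0)
(.leaf 14057687404041994679))
(.leaf 0))
(.node (.leaf 0)
(.leaf 58228957364114883433)))
(.node (.node (.node (.leaf 0)
(.leaf 2078715951781754595816490096738074775876949380667462051810643006078718999063421653943410))
(.leaf 20938358788))
(.node (.leaf 0)
(.leaf 7564806105838573602275656550))))))
(.node (.node (.node (.node (.node (.node (.leaf 0)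
(.leaf 201604661686))
(.leaf 0))
(.node (.node (.leaf 0)
(.leaf 167548552475))
(.leaf 66304081925)))
(.node (.node (.node (.leaf 0)
(.leaf 5746680892699380639798264245))
(.leaf 0))
(.node (.leaf 0)
(.leaf 150629843497))))
(.node (.node (.node (.node (.leaf 0)
(.leaf 43228070330))
(.leaf 0))
(.node (.leaf 0)
(.leaf 28390832789774401539)))
(.node (.node (.node (.leaf 0)
(.leaf 10147848259667683433774471202764988672051032280767140392040718168235742375163336319685500268379348967869959395339270896150420150695701404948502165605417732047953165018310244401878419794589268640957))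
(.leaf 11274551299))
(.node (.leaf 0)
(.leaf 984246674535573390857301424717552471161176067)))))
(.node (.node (.node (.node (.node (.leaf 0)
(.leaf 205899366834))
(.leaf 0))
(.node (.leaf 0)
(.leaf 1812124280250742337821430919555448835)))
(.node (.node (.node (.leaf 0)
(.leaf 220946432873))
(.leaf 0))
(.node (.leaf 0)
(.leaf 172361450348))))
(.node (.node (.node (.node (.leaf 0)
(.leaf 212356367206))
(.leaf 0))
(.node (.leaf 0)
(.leaf 128604045749)))
(.node (.node (.node (.leaf 0)
(.leaf 12730273555889487892364699913033924270861638504712857819873622262543754728511286510202046021618407183079511132087522100465))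
(.leaf 30333468675))
(.node (.leaf 0)
(.leaf 1732021203206472116))))))))
(.node (.node (.node (.node (.node (.node (.node (.node (.leaf 0)
(.leaf 197309891001))
(.leaf 0))
(.node (.node (.leaf 0)
(.leaf 30070708907036490258092926391966082548747609155913738205934442834667717354419670736533171715166163321745449160515122156527959108481750690517286530538472704))
(.leaf 46976729093)))
(.node (.node (.node (.leaf 0)
(.leaf 72501494630))
(.leaf 0))
(.node (.leaf 0)
(.leaf 138547102196))))
(.node (.node (.node (.node (.leaf 0)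
(.leaf 206436499894))
(.leaf 0))
(.node (.leaf 0)
(.leaf 26229104968636563459)))
(.node (.node (.node (.leaf 0)
(.leaf 704053411129006186895529010521289029671912483))
(.leaf 0))
(.node (.leaf 0)
(.leaf 176117449573)))))
(.node (.node (.node (.node (.node (.leaf 0)
(.leaf 7064318346653532594))
(.leaf 0))
(.node (.leaf 0)
(.leaf 70330744838)))
(.node (.node (.node (.leaf 0)
(.leaf 82970149303))
(.leaf 0))
(.node (.leaf 0)
(.leaf 160256098306))))
(.node (.node (.node (.node (.leaf 0)
(.leaf 51295224681))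
(.leaf 0))
(.node (.leaf 0)
(.leaf 58300979773512156006)))
(.node (.node (.node (.leaf 0)
(.leaf 1762253008182138647812437505863997926593338927362719948359100252668688106322763906548805))
(.leaf 15569649668))
(.node (.leaf 0)
(.leaf 7424567038076735126102807148553972279096246375719072626002639884169394994467427609170727688477300801766147271563039813557694195031227544895804817078775625601319348))))))
(.node (.node (.node (.node (.node (.node (.leaf 0)
(.leaf 20411056570))
(.leaf 0))
(.node (.node (.leaf 0)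
(.leaf 126283792000230860753118681825515459129630374303653304248449092124519258829065827487598349296156327609623))
(.leaf 63082987526)))
(.node (.node (.node (.leaf 0)
(.leaf 20903158837644886451))
(.leaf 0))
(.node (.leaf 0)
(.leaf 147676004896))))
(.node (.node (.node (.node (.leaf 0)
(.leaf 41885761977))
(.leaf 0))
(.node (.leaf 0)
(.leaf 27958487225546833923)))
(.node (.node (.node (.leaf 0)
(.leaf 17025089914333275533354628276837919372303143054538474720688177368119395400074000203624832574670314253945371690174))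
(.leaf 10200809475))
(.node (.leaf 0)
(.leaf 183082484148)))))
(.node (.node (.node (.node (.node (.leaf 0)
(.leaf 8505399858131042738))
(.leaf 0))
(.node (.leaf 0)
(.leaf 91268710406)))
(.node (.node (.node (.leaf 0)
(.leaf 220677866342))
(.leaf 0))
(.node (.leaf 0)
(.leaf 171019010919))))
(.node (.node (.node (.node (.leaf 0)
(.leaf 212087800677))
(.leaf 0))
(.node (.leaf 0)
(.leaf 127001493970)))
(.node (.node (.node (.leaf 0)
(.leaf 633418672707073725131745962574830484823308733759702869367329536213491780474148220437744))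
(.leaf 27649245188))
(.node (.leaf 0)
(.leaf 1443826011695153586)))))))
(.node (.node (.node (.node (.node (.node (.node (.leaf 0)
(.leaf 4326094588571877812))
(.leaf 0))
(.node (.node (.leaf 0)
(.leaf 320274931335007719498045813281194317383807155858507016))
(.leaf 56103534597)))
(.node (.node (.node (.leaf 0)
(.leaf 20182582897265738165))
(.leaf 0))
(.node (.leaf 0)
(.leaf 140952076725))))
(.node (.node (.node (.node (.leaf 0)
(.leaf 10595070085231083956))
(.leaf 0))
(.node (.leaf 0)
(.leaf 26949680909015842819)))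
(.node (.node (.node (.leaf 0)
(.leaf 4398225333840339826837519879168197670))
(.leaf 0))
(.node (.leaf 0)
(.leaf 179594134371)))))
(.node (.node (.node (.node (.node (.leaf 0)
(.leaf 204825952696))
(.leaf 0))
(.node (.leaf 0)
(.leaf 80531161093)))
(.node (.node (.node (.leaf 0)
(.leaf 22848643506851283383))
(.leaf 0))
(.node (.leaf 0)
(.leaf 168586838450))))
(.node (.node (.node (.node (.leaf 0)
(.leaf 14417940189054108085))
(.leaf 0))
(.node (.leaf 0)
(.leaf 120825119163)))
(.node (.node (.node (.leaf 0)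
(.leaf 1112522272229339740480267599493940172155412822196129174147628655807699756035031113656824347856238662408674734233274551715478320832493177890638670182124954293660810050700625792708927729637397566759188037509566223673487400159644325859833311355134761201455000493817374788201208547687212309339832130511180185798521596303148716737408741242770326562161350617216610709976737277556337474543143543751276385983006355326681115507778482500014748814060538309252330598231494690792954383061691496184975806348777416746604592940955561609593157384668229))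
(.leaf 22012100612))
(.node (.leaf 0)
(.leaf 375047983174505257330977854640651131780289049799345525208906244811600821752184412832184))))))
(.node (.node (.node (.node (.node (.node (.leaf 0)
(.leaf 6415764815671656882))
(.leaf 0))
(.node (.node (.leaf 0)
(.leaf 293407360287))
(.leaf 68183261190)))
(.node (.node (.node (.leaf 0)
(.leaf 80822403507))
(.leaf 0))
(.node (.leaf 0)
(.leaf 154926121528))))
(.node (.node (.node (.node (.leaf 0)
(.leaf 208598270822))
(.leaf 0))
(.node (.leaf 0)
(.leaf 28679063165926113283)))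
(.node (.node (.node (.leaf 0)
(.leaf 125141992532727168515446070203474213997230620284491230128112709))
(.leaf 12348293123))
(.node (.leaf 0)
(.leaf 19227082391959236217484753040084076368430911356400070388288046408007684)))))
(.node (.node (.node (.node (.node (.leaf 0)
(.leaf 34369241524))
(.leaf 0))
(.node (.leaf 0)
(.leaf 25436471434219356163)))
(.node (.node (.node (.leaf 0)
(.leaf 92633563571))
(.leaf 0))
(.node (.leaf 0)
(.leaf 173418676658))))
(.node (.node (.node (.node (.leaf 0)
(.leaf 62837949289))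
(.leaf 0))
(.node (.leaf 0)
(.leaf 131297903074)))
(.node (.node (.node (.leaf 0)
(.leaf 75013222359991256260))
(.leaf 35702308868))
(.node (.leaf 0)
(.leaf 2092273988755718582)))))))))))

def l0 : List Ax := [.Y false,
  .Y true,
  .u1 false,
  .u2 false,
  .u1 true,
  .u2 true,
  .ex2 false 2 1 0 3 4,
  .ex2 false 2 1 0 4 7,
  .ex3 false 1 0 2 4 7 9,
  .ex3 false 1 0 2 5 9 10,
  .ex2 false 0 1 3 5 7,
  .ex2 false 3 1 0 2 7,
  .ex2 false 0 1 7 2 4,
  .ex2 false 10 1 0 3 7,
  .ex2 false 3 4 0 6 9,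
  .ex2 false 0 5 3 2 9,
  .ex2 false 0 5 3 7 10,
  .ex2 false 3 0 5 4 8,
  .ex2 false 3 0 5 4 9,
  .ex2 false 3 0 5 4 10,
  .ex2 false 3 0 6 1 4,
  .ex3 false 0 3 6 1 4 7,
  .ex2 false 3 0 6 2 4,
  .ex2 false 3 0 6 4 9,
  .ex2 false 3 0 6 4 10,
  .ex2 false 0 7 3 2 9,
  .ex2 false 3 0 7 1 4,
  .ex2 false 3 0 7 2 4,
  .ex2 false 3 0 7 4 8,
  .ex2 false 3 0 7 4 9,
  .ex2 false 4 0 5 3 10,
  .ex2 false 4 0 6 3 10,
  .ex2 false 4 0 7 2 3,
  .ex2 false 4 0 7 3 10,
  .ex3 false 0 6 7 3 4 10,
  .ex2 false 0 9 7 3 4,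
  .ex2 false 0 10 7 3 4,
  .ex2 false 2 1 3 0 10,
  .ex2 false 3 2 1 0 4,
  .ex2 false 3 2 1 0 6,
  .ex2 false 3 2 1 0 7,
  .ex2 false 1 2 3 5 7,
  .ex2 false 2 1 3 5 7,
  .ex2 false 3 2 1 4 8,
  .ex2 false 3 2 1 4 9,
  .ex2 false 3 2 1 4 10,
  .ex2 false 3 2 1 5 8,
  .ex2 false 3 2 1 5 9,
  .ex2 false 3 2 1 5 10,
  .ex2 false 3 2 1 6 10,
  .ex2 false 3 1 2 9 10,
  .ex3 false 1 2 3 6 9 10,
  .ex2 false 2 1 10 3 7,
  .ex2 false 3 1 5 2 4,
  .ex2 false 3 1 5 4 8,
  .ex2 false 3 1 5 4 9,
  .ex2 false 3 1 5 4 10,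
  .ex2 false 3 1 6 2 4,
  .ex2 false 3 1 6 4 8,
  .ex2 false 3 1 6 4 9,
  .ex2 false 3 1 6 4 10,
  .ex2 false 3 1 7 2 4,
  .ex2 false 3 1 7 4 8,
  .ex2 false 3 1 7 4 9,
  .ex2 false 3 1 7 4 10,
  .ex3 false 1 3 8 0 2 7,
  .ex2 false 1 3 10 0 2,
  .ex3 false 1 3 10 0 2 7,
  .ex2 false 4 1 5 3 10,
  .ex2 false 4 1 6 3 10,
  .ex2 false 4 1 7 3 10,
  .ex3 false 1 6 7 3 4 10,
  .ex3 false 10 1 6 0 3 4,
  .ex2 false 9 1 7 3 4,
  .ex3 false 10 1 7 0 3 4,
  .ex2 false 10 1 7 3 4,
  .ex2 false 3 2 4 0 1,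
  .ex2 false 3 2 4 0 7,
  .ex2 false 3 2 4 1 5,
  .ex2 false 3 2 4 1 6,
  .ex2 false 3 2 4 1 7,
  .ex2 false 4 2 3 1 6,
  .ex2 false 4 2 3 1 7,
  .ex3 false 2 3 4 1 5 6,
  .ex2 false 3 2 4 5 6,
  .ex2 false 3 2 4 5 7,
  .ex2 false 3 2 4 6 7,
  .ex2 false 4 2 3 6 7,
  .ex2 false 3 2 5 4 9,
  .ex2 false 3 2 5 4 10,
  .ex2 false 3 2 6 0 4,
  .ex2 false 3 2 6 4 10,
  .ex2 false 3 6 2 9 10,
  .ex2 false 3 2 7 1 4,
  .ex2 false 3 2 7 4 8,
  .ex2 false 3 2 7 4 9,
  .ex2 false 3 2 7 4 10,
  .ex2 false 4 2 5 3 10,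
  .ex2 false 4 2 6 3 10,
  .ex2 false 4 2 7 3 9,
  .ex2 false 4 2 7 3 10,
  .ex2 false 2 7 6 1 3,
  .ex2 false 2 7 6 3 4,
  .ex3 false 2 6 7 3 4 10,
  .ex2 false 2 9 7 3 4,
  .ex2 false 2 10 7 3 4,
  .ex2 false 3 4 8 0 2,
  .ex2 false 4 3 8 0 2,
  .ex3 false 3 4 8 0 2 5,
  .ex2 false 3 4 8 1 2,
  .ex2 false 3 4 9 0 2,
  .ex3 false 4 3 9 0 2 7,
  .ex2 false 3 4 9 1 2,
  .ex2 false 3 4 10 0 2,
  .ex2 false 4 3 10 0 2,
  .ex2 false 3 4 10 1 2,
  .ex2 false 3 9 5 2 4,
  .ex2 false 3 9 5 4 8,
  .ex2 false 3 10 5 0 1,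
  .ex2 false 3 10 5 0 4,
  .ex2 false 3 10 5 1 4,
  .ex3 false 10 3 5 1 4 7,
  .ex2 false 3 10 5 2 4,
  .ex2 false 10 5 3 2 7,
  .ex2 false 3 10 5 4 8,
  .ex2 false 3 10 5 4 9,
  .ex2 false 3 8 6 0 4,
  .ex2 false 3 10 6 0 4,
  .ex2 false 3 10 6 1 4,
  .ex2 false 3 10 6 4 8,
  .ex2 false 3 10 6 4 9,
  .ex2 false 3 8 7 4 9,
  .ex2 false 3 9 7 2 4,
  .ex2 false 3 9 7 4 8,
  .ex2 false 3 9 7 4 10,
  .ex2 false 3 10 7 2 4,
  .ex2 false 3 10 7 4 9,
  .ex2 false 4 8 5 3 10,
  .ex2 false 4 5 9 0 2,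
  .ex2 false 10 4 5 1 3,
  .ex2 false 4 10 5 3 8,
  .ex2 false 4 10 5 3 9,
  .ex2 false 4 6 9 0 2,
  .ex2 false 4 10 6 0 3,
  .ex2 false 6 10 4 0 3,
  .ex2 false 4 10 6 2 3,
  .ex2 false 4 10 6 3 8,
  .ex2 false 4 10 6 3 9,
  .ex2 false 4 9 7 3 10,
  .ex2 false 4 10 7 0 3,
  .ex2 false 4 10 7 2 3,
  .ex2 false 4 10 7 3 8,
  .ex2 false 4 10 7 3 9,
  .ex2 false 8 7 6 1 3,
  .ex2 false 8 7 6 3 4,
  .ex2 false 9 7 6 3 4,
  .ex2 false 10 7 6 1 3,
  .ex3 false 10 6 7 2 3 4,
  .ex3 false 10 6 7 3 4 8,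
  .ex3 false 10 6 7 3 4 9,
  .ex2 false 10 7 6 3 4,
  .ex2 true 2 1 0 3 4,
  .ex2 true 2 1 0 3 10,
  .ex2 true 0 1 3 8 9,
  .ex2 true 1 0 3 8 9,
  .ex2 true 3 0 1 5 10,
  .ex2 true 3 0 1 6 9,
  .ex3 true 0 1 3 5 9 10,
  .ex2 true 0 1 4 9 10,
  .ex3 true 0 1 8 3 4 5,
  .ex3 true 0 1 8 3 4 6,
  .ex2 true 0 1 9 3 4,
  .ex2 true 1 0 9 2 3,
  .ex2 true 1 0 9 3 4,
  .ex2 true 1 0 10 2 3,
  .ex3 true 0 1 10 3 6 9,
  .ex2 true 0 2 10 1 4,
  .ex2 true 0 3 4 1 8,
  .ex2 true 0 3 4 1 10,
  .ex2 true 3 0 8 4 5,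
  .ex2 true 0 3 9 1 10,
  .ex2 true 3 0 9 1 4,
  .ex2 true 3 0 9 2 4,
  .ex2 true 3 0 9 4 5,
  .ex2 true 3 0 9 4 6,
  .ex2 true 3 0 9 4 7,
  .ex2 true 3 0 10 1 4,
  .ex2 true 3 0 10 1 8,
  .ex2 true 3 0 10 1 9,
  .ex3 true 0 3 10 1 4 9,
  .ex2 true 10 0 3 1 4,
  .ex2 true 3 0 10 2 4,
  .ex2 true 3 0 10 4 5,
  .ex2 true 3 0 10 4 6,
  .ex2 true 3 0 10 4 7,
  .ex2 true 4 0 8 3 7,
  .ex2 true 0 4 9 1 3,
  .ex2 true 4 0 9 2 3,
  .ex2 true 4 0 9 3 5,
  .ex2 true 4 0 9 3 6,
  .ex2 true 4 0 9 3 7,
  .ex2 true 4 0 10 2 3,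
  .ex2 true 4 0 10 3 7,
  .ex2 true 0 6 10 3 4,
  .ex2 true 0 7 9 1 3,
  .ex3 true 0 8 10 2 3 4,
  .ex2 true 2 1 3 0 10,
  .ex2 true 1 2 3 5 9,
  .ex2 true 2 1 3 8 9,
  .ex2 true 3 2 1 4 5,
  .ex2 true 3 2 1 4 7,
  .ex2 true 3 2 1 7 9,
  .ex2 true 3 2 1 7 10,
  .ex2 true 2 1 4 9 10,
  .ex3 true 2 1 8 3 4 6,
  .ex2 true 1 2 9 0 3,
  .ex2 true 2 1 9 3 4,
  .ex3 true 2 1 9 3 4 5,
  .ex2 true 1 2 10 0 3,
  .ex2 true 1 2 10 3 6,
  .ex3 true 2 1 10 3 6 9,
  .ex3 true 2 1 10 3 7 9,
  .ex2 true 3 4 1 5 8,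
  .ex2 true 3 5 1 6 10,
  .ex2 true 3 1 6 0 2,
  .ex2 true 3 1 8 2 4,
  .ex2 true 3 1 8 4 5,
  .ex2 true 3 1 8 4 6,
  .ex2 true 3 1 8 4 7,
  .ex2 true 3 1 9 2 4,
  .ex2 true 3 1 9 4 5,
  .ex2 true 3 1 9 4 6,
  .ex2 true 3 1 9 4 7,
  .ex2 true 3 1 10 0 4,
  .ex2 true 3 1 10 2 4,
  .ex2 true 3 1 10 4 5,
  .ex2 true 3 1 10 4 6,
  .ex2 true 3 1 10 4 7,
  .ex3 true 5 1 4 3 6 10,
  .ex2 true 5 1 4 9 10,
  .ex2 true 6 1 4 9 10,
  .ex2 true 1 4 9 0 2,
  .ex2 true 4 1 9 2 3,
  .ex2 true 4 1 9 3 5,
  .ex2 true 1 5 9 0 2,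
  .ex2 true 1 5 10 0 3,
  .ex2 true 1 5 10 2 3,
  .ex2 true 1 6 9 0 2,
  .ex2 true 1 6 10 0 3,
  .ex2 true 1 6 10 2 3,
  .ex2 true 6 1 10 3 4,
  .ex3 true 6 1 10 3 5 9,
  .ex2 true 1 7 9 0 2,
  .ex3 true 1 8 10 2 3 4,
  .ex2 true 1 10 9 0 2,
  .ex2 true 3 2 4 0 1,
  .ex2 true 4 2 3 0 9,
  .ex2 true 2 3 4 1 8,
  .ex2 true 2 3 4 1 10,
  .ex2 true 3 2 4 8 9,
  .ex2 true 3 2 4 8 10,
  .ex2 true 3 2 4 9 10,
  .ex2 true 4 2 3 8 9,
  .ex2 true 4 2 3 8 10,
  .ex2 true 4 2 3 9 10,
  .ex3 true 2 3 4 8 9 10,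
  .ex2 true 3 2 8 4 5,
  .ex2 true 3 2 9 0 1,
  .ex2 true 2 3 9 1 10,
  .ex2 true 3 2 9 1 4,
  .ex2 true 3 2 9 1 10,
  .ex3 true 2 3 9 1 4 10,
  .ex2 true 3 2 9 4 5,
  .ex2 true 3 2 9 4 6,
  .ex2 true 3 2 9 4 7,
  .ex2 true 3 2 10 0 1,
  .ex2 true 3 2 10 0 4,
  .ex2 true 2 3 10 1 4,
  .ex2 true 3 2 10 4 5,
  .ex2 true 3 2 10 4 6,
  .ex2 true 3 2 10 4 7,
  .ex2 true 4 2 8 3 5,
  .ex2 true 4 2 8 3 6,
  .ex2 true 4 2 9 0 3,
  .ex2 true 9 2 4 0 3,
  .ex3 true 2 4 9 0 3 10,
  .ex2 true 2 4 9 1 3,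
  .ex3 true 2 4 10 0 1 3,
  .ex3 true 2 4 10 0 3 9,
  .ex2 true 4 2 10 3 5,
  .ex2 true 4 2 10 3 6,
  .ex2 true 4 2 10 3 7,
  .ex2 true 2 6 10 3 4,
  .ex2 true 2 7 9 1 3,
  .ex2 true 2 8 10 0 4,
  .ex3 true 2 8 10 3 4 7,
  .ex3 true 2 9 10 3 4 6,
  .ex2 true 3 4 5 0 1,
  .ex2 true 3 4 5 0 2,
  .ex2 true 3 4 5 1 2,
  .ex2 true 5 3 4 1 8,
  .ex2 true 5 3 4 1 10,
  .ex2 true 4 3 6 0 2,
  .ex3 true 4 3 6 0 2 10,
  .ex2 true 3 4 6 1 2,
  .ex2 true 6 3 4 1 8,
  .ex2 true 6 3 4 1 10,
  .ex2 true 3 4 7 0 2,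
  .ex2 true 4 3 7 0 2,
  .ex3 true 3 4 7 0 2 10,
  .ex2 true 3 4 7 1 2,
  .ex2 true 7 3 4 8 10,
  .ex2 true 3 5 8 0 4,
  .ex3 true 5 3 8 0 4 9,
  .ex2 true 3 5 8 2 4,
  .ex2 true 3 5 8 4 6,
  .ex2 true 3 5 8 4 7,
  .ex2 true 3 5 9 0 1,
  .ex2 true 3 5 9 1 4,
  .ex2 true 5 3 9 1 10,
  .ex2 true 3 5 9 2 4,
  .ex2 true 3 5 10 0 1,
  .ex2 true 6 3 9 1 10,
  .ex2 true 6 3 10 1 4,
  .ex2 true 3 6 10 2 4,
  .ex2 true 3 8 7 0 2,
  .ex2 true 3 7 9 0 1,
  .ex2 true 3 7 9 1 4,
  .ex2 true 3 7 9 1 8,
  .ex3 true 7 3 9 1 4 8,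
  .ex3 true 7 3 9 1 4 10,
  .ex2 true 7 3 9 1 10,
  .ex2 true 3 7 9 2 4,
  .ex2 true 3 7 9 4 5,
  .ex2 true 3 7 9 4 6,
  .ex2 true 3 7 10 1 4,
  .ex2 true 3 7 10 2 4,
  .ex3 true 3 7 10 2 4 6,
  .ex2 true 5 4 9 3 8,
  .ex2 true 4 5 10 2 3,
  .ex2 true 6 8 4 1 2,
  .ex3 true 9 4 6 0 2 10,
  .ex2 true 4 6 10 2 3,
  .ex2 true 4 7 10 2 3,
  .ex2 true 5 7 10 3 4,
  .ex2 true 5 7 10 8 9,
  .ex3 true 5 8 10 2 3 4,
  .ex3 true 9 7 10 0 4 6,
  .ch 3 4 8 0 1 2,
  .ch 3 4 9 0 1 2,
  .ch 3 4 10 0 1 2,
  .ch 3 5 8 0 1 2,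
  .ch 3 5 9 0 1 2,
  .ch 3 5 10 0 1 2,
  .ch 3 5 8 0 2 1,
  .ch 3 5 9 0 2 1,
  .ch 3 5 10 0 2 1,
  .ch 3 5 8 2 1 0,
  .ch 3 5 9 2 1 0,
  .ch 3 5 10 2 1 0,
  .ch 3 6 8 0 1 2,
  .ch 3 6 9 0 1 2,
  .ch 3 6 10 0 1 2,
  .ch 3 6 8 0 2 1,
  .ch 3 6 9 0 2 1,
  .ch 3 6 10 0 2 1,
  .ch 3 6 9 2 1 0,
  .ch 3 6 10 2 1 0,
  .ch 3 7 8 0 1 2,
  .ch 3 7 9 0 1 2,
  .ch 3 7 10 0 1 2,
  .ch 3 7 8 0 2 1,
  .ch 3 7 9 0 2 1,
  .ch 3 7 10 0 2 1,
  .ch 3 7 8 2 1 0,
  .ch 3 7 9 2 1 0,
  .ch 3 7 10 2 1 0,
  .ch 3 8 5 0 1 2,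
  .ch 3 8 7 0 1 2,
  .ch 3 8 5 0 2 1,
  .ch 3 8 6 0 2 1,
  .ch 3 8 7 0 2 1,
  .ch 3 8 6 2 0 1,
  .ch 3 8 5 2 1 0,
  .ch 3 8 7 2 1 0,
  .ch 3 9 5 0 1 2,
  .ch 3 9 7 0 1 2,
  .ch 3 9 5 0 2 1,
  .ch 3 9 6 0 2 1,
  .ch 3 9 7 0 2 1,
  .ch 3 9 5 2 1 0,
  .ch 3 9 7 2 1 0,
  .ch 3 10 5 0 1 2,
  .ch 3 10 6 0 1 2,
  .ch 3 10 7 0 1 2,
  .ch 3 10 5 0 2 1,
  .ch 3 10 6 0 2 1,
  .ch 3 10 7 0 2 1,
  .ch 3 10 5 2 1 0,
  .ch 3 10 6 2 1 0,
  .ch 3 10 7 2 1 0,
  .ch 4 6 8 1 0 2,
  .ch 4 6 9 1 0 2,
  .ch 4 6 8 1 2 0,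
  .ch 4 6 9 1 2 0,
  .ch 4 7 8 1 0 2,
  .ch 4 7 9 1 0 2,
  .ch 4 7 10 1 0 2,
  .ch 4 7 8 1 2 0,
  .ch 4 7 9 1 2 0,
  .ch 4 7 10 1 2 0,
  .ch 4 8 5 1 0 2,
  .ch 4 8 6 1 0 2,
  .ch 4 8 7 1 0 2,
  .ch 4 8 5 1 2 0,
  .ch 4 8 6 1 2 0,
  .ch 4 8 7 1 2 0,
  .ch 4 9 5 1 0 2,
  .ch 4 9 6 1 0 2,
  .ch 4 9 5 1 2 0,
  .ch 4 9 6 1 2 0,
  .ch 4 10 5 1 0 2,
  .ch 4 10 6 1 0 2,
  .ch 4 10 5 1 2 0,
  .ch 4 10 6 1 2 0,
  .ch 6 8 4 0 2 1,
  .ch 6 8 4 2 0 1,
  .ch 10 5 4 0 2 1,
  .ch 10 5 4 2 0 1,
  .ch 10 6 7 0 2 1,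
  .ch 10 6 7 2 0 1,
  .ch 10 7 3 0 1 2,
  .ch 10 7 3 2 1 0,
  .tA false 5,
  .tA true 5,
  .tA false 6,
  .tA true 6,
  .tA false 7,
  .tA true 7,
  .tC false 8,
  .tC false 9,
  .tC false 10,
  .ux false 3,
  .ux true 3,
  .uc 3 5,
  .uc 3 6,
  .uc 3 7,
  .uc 3 10,
  .u4 false 3 5 3,
  .u4 false 3 6 3,
  .u4 false 3 7 3,
  .u4 false 3 10 7,
  .u4 true 3 6 10,
  .u4 true 3 10 3,
  .u5 true 3 5 7 10 3,
  .ux false 4,
  .ux true 4,
  .uc 4 9,
  .uc 4 10,
  .u4 false 4 5 4,
  .u4 false 4 7 4,
  .u4 false 4 9 7,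
  .u5 false 4 9 10 5 4,
  .u4 true 4 9 4,
  .u4 true 4 10 4,
  .ux false 5,
  .ux true 5,
  .uc 5 3,
  .uc 5 4,
  .uc 5 6,
  .uc 5 7,
  .u4 false 5 3 5,
  .u4 false 5 4 5,
  .u4 false 5 4 6,
  .u4 false 5 6 5,
  .u4 false 5 7 5,
  .u5 false 5 1 3 5 2,
  .u5 false 5 3 7 1 10,
  .u3 true 5 3 4 6,
  .u3 true 5 3 4 7,
  .u5 true 5 4 7 5 6,
  .ux false 6,
  .ux true 6,
  .uc 6 3,
  .uc 6 4,
  .uc 6 5,
  .uc 6 7,
  .u4 false 6 3 6,
  .u4 false 6 4 6,
  .u4 false 6 5 3,
  .u4 false 6 5 4,
  .u4 false 6 5 6,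
  .u5 false 6 1 3 4 0,
  .u5 false 6 3 7 1 10,
  .u3 true 6 3 4 5,
  .u3 true 6 4 5 7,
  .u5 true 6 3 5 6 4,
  .u5 true 6 4 5 6 3,
  .u5 true 6 4 7 6 3,
  .ux false 7]

theorem a0 : axchk 11 3 0 true (Tr.get ⟨9, 0, 0, 0⟩ v) (Tr.get 0 g) l0 500 0 = true := by
  decide +kernel

def l1 : List Ax := [.ux true 7,
  .uc 7 3,
  .uc 7 4,
  .uc 7 5,
  .uc 7 6,
  .uc 7 9,
  .uc 7 10,
  .u3 false 7 4 9 10,
  .u4 false 7 3 6,
  .u4 false 7 3 7,
  .u4 false 7 4 7,
  .u4 false 7 5 3,
  .u4 false 7 5 4,
  .u4 false 7 6 3,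
  .u4 false 7 6 4,
  .u4 false 7 6 7,
  .u4 false 7 10 7,
  .u5 false 7 3 4 7 2,
  .u5 false 7 3 4 7 10,
  .u5 false 7 3 6 4 0,
  .u5 false 7 5 6 3 0,
  .u5 false 7 5 6 3 2,
  .u3 true 7 1 3 5,
  .u3 true 7 3 4 5,
  .u3 true 7 3 4 6,
  .u3 true 7 3 5 6,
  .u3 true 7 3 6 10,
  .u3 true 7 4 5 6,
  .u4 true 7 3 9,
  .u4 true 7 3 10,
  .u4 true 7 4 9,
  .u4 true 7 4 10,
  .u4 true 7 9 4,
  .u4 true 7 9 7,
  .u4 true 7 10 0,
  .u4 true 7 10 3,
  .u4 true 7 10 4,
  .u5 true 7 0 3 7 1,
  .u5 true 7 3 4 10 0,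
  .u5 true 7 3 5 7 0,
  .u5 true 7 3 5 7 1,
  .u5 true 7 3 9 4 0,
  .u5 true 7 5 10 1 7,
  .ux true 8,
  .uc 8 3,
  .uc 8 9,
  .uc 8 10,
  .u3 false 8 3 9 10,
  .u4 true 8 3 8,
  .u4 true 8 9 8,
  .u4 true 8 10 3,
  .ux false 9,
  .ux true 9,
  .uc 9 3,
  .uc 9 4,
  .uc 9 6,
  .uc 9 10,
  .u5 false 9 3 10 9 4,
  .u5 false 9 4 10 9 3,
  .u5 false 9 6 10 9 4,
  .u4 true 9 1 9,
  .u4 true 9 3 9,
  .u4 true 9 4 9,
  .u4 true 9 6 1,
  .u4 true 9 10 1,
  .u4 true 9 10 3,
  .u4 true 9 10 4,
  .ux false 10,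
  .ux true 10,
  .uc 10 3,
  .uc 10 4,
  .uc 10 6,
  .uc 10 8,
  .uc 10 9,
  .u3 false 10 3 4 8,
  .u3 false 10 4 6 9,
  .u5 false 10 3 9 10 1,
  .u5 false 10 3 9 10 4,
  .u5 false 10 4 9 10 3,
  .u4 true 10 1 10,
  .u4 true 10 3 10,
  .u4 true 10 4 10,
  .u4 true 10 6 1,
  .u4 true 10 8 10,
  .u4 true 10 9 1,
  .u4 true 10 9 3,
  .u5 true 10 0 6 4 1,
  .u5 true 10 3 6 0 9,
  .u5 true 10 3 9 4 0,
  .w2 10 6 10,
  .w2 10 6 9,
  .w2 10 6 8,
  .w1 10 6 7,
  .w1 10 6 6,
  .w1 10 6 5,
  .w1 10 6 4,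
  .O 1 3 1 2 0,
  .w2 10 10 10,
  .w2 10 10 9,
  .w2 10 10 8,
  .w1 10 10 7,
  .w1 10 10 6,
  .w1 10 10 5,
  .w2 10 10 4,
  .w2 10 20 10,
  .w2 10 20 9,
  .w2 10 20 8,
  .w1 10 20 7,
  .w1 10 20 6,
  .w1 10 20 5,
  .O 1 3 2 4 0,
  .w2 10 24 10,
  .w2 10 24 9,
  .w2 10 24 8,
  .w1 10 24 7,
  .w1 10 24 6,
  .w1 10 24 5,
  .w2 10 1280 9,
  .w1 10 1280 7,
  .w1 10 1280 6,
  .w1 10 1280 5,
  .w2 10 1280 4,
  .w2 24 10 10,
  .w2 24 10 9,
  .w2 24 10 8,
  .w1 24 10 7,
  .w1 24 10 6,
  .w1 24 10 5,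
  .w2 24 24 10,
  .w2 24 24 9,
  .w2 24 24 8,
  .w1 24 24 7,
  .w1 24 24 6,
  .w1 24 24 5,
  .w1 24 24 1,
  .w2 24 520 10,
  .w2 24 520 8,
  .w1 24 520 7,
  .w1 24 520 6,
  .w1 24 520 5,
  .w2 24 520 1,
  .w2 24 1032 9,
  .w2 24 1032 8,
  .w1 24 1032 7,
  .w1 24 1032 6,
  .w1 24 1032 5,
  .w2 24 1032 1,
  .w2 72 24 10,
  .w2 72 24 9,
  .w2 72 24 8,
  .w1 72 24 7,
  .w1 72 24 5,
  .w1 72 24 1,
  .w2 136 24 10,
  .w2 136 24 9,
  .w2 136 24 8,
  .w1 136 24 6,
  .w1 136 24 5,
  .w1 136 24 1,
  .w2 136 136 10,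
  .w2 136 136 9,
  .w2 136 136 8,
  .w1 136 136 6,
  .w1 136 136 5,
  .w1 136 136 4,
  .w1 136 136 1,
  .w2 136 520 10,
  .w2 136 520 8,
  .w1 136 520 6,
  .w1 136 520 5,
  .w1 136 520 4,
  .w2 136 520 1,
  .w2 136 528 10,
  .w2 136 528 8,
  .w1 136 528 6,
  .w1 136 528 5,
  .w1 136 528 1,
  .w2 24 17 10,
  .w2 24 17 9,
  .w2 24 17 8,
  .w1 24 17 7,
  .w1 24 17 6,
  .w1 24 17 5,
  .w1 24 24 0,
  .w2 24 24 0,
  .w1 24 520 0,
  .w1 24 1032 0,
  .w1 72 24 0,
  .w1 136 24 0,
  .w1 136 136 0,
  .w2 136 136 0,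
  .w1 136 520 0,
  .w2 136 528 0,
  .w2 10 3 10,
  .w2 10 3 9,
  .w2 10 3 8,
  .w1 10 3 7,
  .w1 10 3 6,
  .w1 10 3 5,
  .w1 10 3 4,
  .O 1 3 0 1 2,
  .w1 10 10 0,
  .O 1 3 1 3 2,
  .w1 10 24 0,
  .w2 10 24 0,
  .O 1 3 3 4 2,
  .w1 10 1280 0,
  .O 1 3 8 10 2,
  .w1 24 17 1,
  .O 3 4 0 4 2,
  .w2 24 10 0,
  .O 3 4 1 3 2,
  .O 3 4 3 4 2,
  .O 3 4 3 9 2,
  .O 3 4 3 10 2,
  .O 3 6 3 4 2,
  .O 3 7 3 4 2,
  .O 3 7 3 7 2,
  .O 3 7 3 9 2,
  .O 3 7 4 9 2]

theorem a1 : axchk 11 3 0 true (Tr.get ⟨9, 0, 0, 0⟩ v) (Tr.get 0 g) l1 720 500 = true := by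
  decide +kernel

theorem t0 : chk (Tr.get 0 g) (Tr.get 0 h) 500 720 = true := by decide +kernel

theorem t1 : chk (Tr.get 0 g) (Tr.get 0 h) 97 1220 = true := by decide +kernel

theorem z : Tr.get 0 g 1316 = 0 := by decide +kernel

theorem bad {α : Type*} [DecidableEq α] (c : Cx α) (hn : c.n = 11) (ha : c.a = 3) (hb : c.b = 0)
    (hcl : c.closed = true) : False := by
  have s0 := axchk_sound c hn ha hb hcl (by norm_num) _ _ _ _ _ a0
  have s0 := s0.trans (axchk_sound c hn ha hb hcl (by norm_num) _ _ _ _ _ a1)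
  have s0 := chk_sound' t0 (e := 1220) rfl s0
  have s0 := chk_sound' t1 (e := 1317) rfl s0
  exact s0.false z

end Pool.Agent.Gabow87.K3.C303
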