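import Pool.Agent.Gabow87.Refute

/-! Certificate; see `Pool/Agent/Gabow87/Refute.lean`. -/

set_option autoImplicit false
set_option maxRecDepth 100000

namespace Pool.Agent.Gabow87.K3.U030

open Pool.Agent.Gabow87.Sat

def v : Tr VC := (.node (.node (.node (.node (.node (.node (.node (.leaf ⟨0, 28, 0, 0⟩)
(.leaf ⟨3, 4, 3, 0⟩))
(.leaf ⟨1, 49, 0, 0⟩))
(.node (.node (.leaf ⟨0, 76, 0, 0⟩)
(.leaf ⟨3, 6, 3, 0⟩))
(.leaf ⟨1, 104, 0, 0⟩)))
(.node (.node (.node (.leaf ⟨0, 97, 0, 0⟩)
(.leaf ⟨3, 5, 3, 0⟩))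
(.leaf ⟨1, 44, 0, 0⟩))
(.node (.node (.leaf ⟨0, 168, 0, 0⟩)
(.leaf ⟨3, 7, 3, 0⟩))
(.leaf ⟨3, 3, 4, 0⟩))))
(.node (.node (.node (.node (.leaf ⟨0, 41, 0, 0⟩)
(.leaf ⟨3, 4, 6, 0⟩))
(.leaf ⟨1, 74, 0, 0⟩))
(.node (.node (.leaf ⟨0, 56, 0, 0⟩)
(.leaf ⟨3, 6, 5, 0⟩))
(.leaf ⟨1, 224, 0, 0⟩)))
(.node (.node (.node (.leaf ⟨0, 50, 0, 0⟩)
(.leaf ⟨3, 5, 6, 0⟩))
(.leaf ⟨1, 100, 0, 0⟩))
(.node (.node (.leaf ⟨0, 208, 0, 0⟩)
(.leaf ⟨3, 7, 5, 0⟩))
(.leaf ⟨3, 3, 6, 0⟩)))))
(.node (.node (.node (.node (.node (.leaf ⟨1, 28, 0, 0⟩)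
(.leaf ⟨3, 4, 5, 0⟩))
(.leaf ⟨1, 97, 0, 0⟩))
(.node (.node (.leaf ⟨0, 84, 0, 0⟩)
(.leaf ⟨3, 6, 4, 0⟩))
(.leaf ⟨1, 176, 0, 0⟩)))
(.node (.node (.node (.leaf ⟨0, 42, 0, 0⟩)
(.leaf ⟨3, 5, 4, 0⟩))
(.leaf ⟨1, 52, 0, 0⟩))
(.node (.node (.leaf ⟨0, 112, 0, 0⟩)
(.leaf ⟨3, 7, 4, 0⟩))
(.leaf ⟨3, 3, 5, 0⟩))))
(.node (.node (.node (.node (.leaf ⟨0, 49, 0, 0⟩)
(.leaf ⟨3, 5, 5, 0⟩))
(.leaf ⟨1, 82, 0, 0⟩))
(.node (.node (.leaf ⟨0, 152, 0, 0⟩)
(.leaf ⟨3, 7, 7, 0⟩))
(.leaf ⟨3, 3, 3, 0⟩)))
(.node (.node (.node (.leaf ⟨0, 98, 0, 0⟩)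
(.leaf ⟨3, 6, 6, 0⟩))
(.leaf ⟨1, 88, 0, 0⟩))
(.node (.node (.leaf ⟨1, 41, 0, 0⟩)
(.leaf ⟨3, 7, 6, 0⟩))
(.leaf ⟨3, 4, 4, 0⟩))))))
(.node (.node (.node (.node (.node (.node (.leaf ⟨1, 14, 0, 0⟩)
(.leaf ⟨2, 4, 5, 0⟩))
(.leaf ⟨1, 81, 0, 0⟩))
(.node (.node (.leaf ⟨0, 52, 0, 0⟩)
(.leaf ⟨2, 6, 4, 0⟩))
(.leaf ⟨1, 112, 0, 0⟩)))
(.node (.node (.node (.leaf ⟨0, 26, 0, 0⟩)
(.leaf ⟨2, 5, 4, 0⟩))
(.leaf ⟨1, 76, 0, 0⟩))
(.node (.node (.leaf ⟨0, 200, 0, 0⟩)
(.leaf ⟨2, 7, 4, 0⟩))
(.leaf ⟨2, 3, 5, 0⟩))))
(.node (.node (.node (.node (.leaf ⟨0, 73, 0, 0⟩)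
(.leaf ⟨2, 5, 5, 0⟩))
(.leaf ⟨1, 50, 0, 0⟩))
(.node (.node (.leaf ⟨0, 88, 0, 0⟩)
(.leaf ⟨2, 7, 7, 0⟩))
(.leaf ⟨2, 3, 3, 0⟩)))
(.node (.node (.node (.leaf ⟨0, 82, 0, 0⟩)
(.leaf ⟨2, 6, 6, 0⟩))
(.leaf ⟨1, 56, 0, 0⟩))
(.node (.node (.leaf ⟨0, 224, 0, 0⟩)
(.leaf ⟨2, 7, 6, 0⟩))
(.leaf ⟨2, 4, 4, 0⟩)))))
(.node (.node (.node (.node (.node (.leaf ⟨0, 25, 0, 0⟩)
(.leaf ⟨2, 4, 6, 0⟩))
(.leaf ⟨1, 42, 0, 0⟩))
(.node (.node (.leaf ⟨0, 100, 0, 0⟩)
(.leaf ⟨2, 6, 5, 0⟩))
(.leaf ⟨1, 208, 0, 0⟩)))
(.node (.node (.node (.leaf ⟨0, 74, 0, 0⟩)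
(.leaf ⟨2, 5, 6, 0⟩))
(.leaf ⟨1, 84, 0, 0⟩))
(.node (.node (.leaf ⟨0, 176, 0, 0⟩)
(.leaf ⟨2, 7, 5, 0⟩))
(.leaf ⟨2, 3, 6, 0⟩))))
(.node (.node (.node (.node (.leaf ⟨0, 81, 0, 0⟩)
(.leaf ⟨2, 5, 3, 0⟩))
(.leaf ⟨1, 98, 0, 0⟩))
(.node (.node (.leaf ⟨0, 104, 0, 0⟩)
(.leaf ⟨2, 7, 3, 0⟩))
(.leaf ⟨2, 3, 4, 0⟩)))
(.node (.node (.node (.leaf ⟨0, 44, 0, 0⟩)
(.leaf ⟨2, 6, 3, 0⟩))
(.leaf ⟨1, 152, 0, 0⟩))
(.node (.leaf ⟨1, 73, 0, 0⟩)
(.leaf ⟨2, 4, 3, 0⟩)))))))

def g : Tr Nat := (.node (.node (.node (.node (.node (.node (.node (.node (.node (.leaf 1)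
(.leaf 2202161348784))
(.leaf 13230151610122416))
(.node (.node (.leaf 14920924608888964)
(.leaf 753840))
(.leaf 1426395226)))
(.node (.node (.node (.leaf 5842514501722)
(.leaf 5088278732978))
(.leaf 28433511036461238))
(.node (.leaf 14919138439495844)
(.leaf 2130656137360))))
(.node (.node (.node (.node (.leaf 3093064548354)
(.leaf 269205684))
(.leaf 16609088079904952))
(.node (.leaf 13231662700265616)
(.leaf 671580276)))
(.node (.node (.node (.leaf 22804353220268150)
(.leaf 622631))
(.leaf 721588272))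
(.node (.leaf 725167)
(.leaf 5979886596262)))))
(.node (.node (.node (.node (.node (.leaf 1855811829790)
(.leaf 965210767540))
(.leaf 15482913295138996))
(.node (.node (.leaf 594063)
(.leaf 0))
(.leaf 58)))
(.node (.node (.node (.leaf 110)
(.leaf 6050418516150))
(.leaf 28997972818387126))
(.node (.leaf 25618486257164450)
(.leaf 614546))))
(.node (.node (.node (.node (.leaf 5705075892228)
(.leaf 745650))
(.leaf 25619860915200178))
(.node (.leaf 659615)
(.leaf 369639552)))
(.node (.node (.node (.leaf 544899)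
(.leaf 3188441269))
(.leaf 1392840794))
(.node (.leaf 12103564575588528)
(.leaf 5912576827558))))))
(.node (.node (.node (.node (.node (.node (.leaf 1030976733202)
(.leaf 827704721584))
(.leaf 14919138976432308))
(.node (.node (.leaf 26182947367854210)
(.leaf 368820))
(.leaf 100)))
(.node (.node (.node (.leaf 94)
(.leaf 1275830454))
(.leaf 27871385918103734))
(.node (.leaf 23930528072372390)
(.leaf 403275920))))
(.node (.node (.node (.node (.leaf 3642417537064)
(.leaf 504086712))
(.leaf 26177588322590898))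
(.node (.leaf 25056702924116122)
(.leaf 1510449270)))
(.node (.node (.node (.leaf 27309259323056246)
(.leaf 52930080280248349))
(.leaf 755142712))
(.node (.leaf 9290254964682940)
(.leaf 4950571262114)))))
(.node (.node (.node (.node (.node (.leaf 2955625562114)
(.leaf 436961460))
(.leaf 16045176053809332))
(.node (.leaf 9853342390464660)
(.leaf 106)))
(.node (.node (.node (.leaf 8727167538475124)
(.leaf 1175183546))
(.leaf 3642920955922))
(.node (.leaf 25619448262729894)
(.leaf 235569316))))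
(.node (.node (.node (.node (.leaf 6392438472710)
(.leaf 4263779213490))
(.leaf 26181573918056626))
(.node (.leaf 8727167538688168)
(.leaf 5842414080134)))
(.node (.node (.node (.leaf 11541163304042624)
(.leaf 778426))
(.leaf 1560653924))
(.node (.leaf 13231526066749616)
(.leaf 3138076848)))))))
(.node (.node (.node (.node (.node (.node (.node (.leaf 5)
(.leaf 369852592))
(.leaf 14356875949359280))
(.node (.node (.leaf 25056702924099718)
(.leaf 184))
(.leaf 54)))
(.node (.node (.node (.leaf 92)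
(.leaf 5913046655158))
(.leaf 28434885425995958))
(.node (.leaf 14920650267984036)
(.leaf 2680546201752))))
(.node (.node (.node (.node (.leaf 12669329577590786)
(.leaf 638304436))
(.leaf 25056702924312762))
(.node (.leaf 23367440646344858)
(.leaf 5704941564026)))
(.node (.node (.node (.leaf 23367440646197370)
(.leaf 216801608827897237521))
(.leaf 755150900))
(.node (.leaf 757943)
(.leaf 680098)))))
(.node (.node (.node (.node (.node (.leaf 12106241614618626)
(.leaf 2477039255732))
(.leaf 14919276348293300))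
(.node (.leaf 626839)
(.leaf 102)))
(.node (.node (.node (.leaf 479347)
(.leaf 1309401270))
(.leaf 29560373015994554))
(.node (.leaf 25619860646699170)
(.leaf 2680546201768))))
(.node (.node (.node (.node (.leaf 5980020908038)
(.leaf 4950839763122))
(.leaf 27308023714914482))
(.node (.leaf 692391)
(.leaf 1239081844868)))
(.node (.node (.node (.leaf 9853342390399108)
(.leaf 12853495615672))
(.leaf 1459966042))
(.node (.leaf 13230014238261424)
(.leaf 1377460502704))))))
(.node (.node (.node (.node (.node (.node (.leaf 12106241614618644)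
(.leaf 403423408))
(.leaf 14920650804920500))
(.node (.node (.leaf 140)
(.leaf 70))
(.leaf 56)))
(.node (.node (.node (.leaf 96)
(.leaf 4676028981430))
(.leaf 28996598428852406))
(.node (.leaf 25056702924181674)
(.leaf 5567469047954))))
(.node (.node (.node (.node (.leaf 3642618912808)
(.leaf 3104530610))
(.leaf 25618486525665458))
(.node (.leaf 156)
(.leaf 2543073685640)))
(.node (.node (.node (.leaf 126)
(.leaf 12784658075830))
(.leaf 3093098041404))
(.node (.leaf 11541851505639600)
(.leaf 4538187292838)))))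
(.node (.node (.node (.node (.node (.leaf 3093098086402)
(.leaf 1102582628532))
(.leaf 16046687882297524))
(.node (.leaf 13230150871777424)
(.leaf 2268128653432)))
(.node (.node (.node (.leaf 14919137835303024)
(.leaf 1510727866))
(.leaf 2955625394194))
(.node (.leaf 172)
(.leaf 604668068))))
(.node (.node (.node (.node (.leaf 6529910996998)
(.leaf 5638168748210))
(.leaf 26182948307591346))
(.node (.leaf 10979517242388648)
(.leaf 1409851522)))
(.node (.node (.node (.leaf 11542675132530816)
(.leaf 187))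
(.leaf 1594216552))
(.node (.leaf 13793788556968112)
(.leaf 690332860592))))))))
(.node (.node (.node (.node (.node (.node (.node (.node (.leaf 3)
(.leaf 168526000))
(.leaf 14356051315638448))
(.node (.node (.leaf 23930528072192134)
(.leaf 753844))
(.leaf 48)))
(.node (.node (.node (.leaf 42)
(.leaf 5775473500338))
(.leaf 28434198231228598))
(.node (.leaf 14919963073216676)
(.leaf 2405601169556))))
(.node (.node (.node (.node (.leaf 3093098110978)
(.leaf 470532276))
(.leaf 16609775274672312))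
(.node (.leaf 22804353220399250)
(.leaf 5567469047926)))
(.node (.node (.node (.leaf 25056702924034166)
(.leaf 52365959679234230))
(.leaf 755142706))
(.node (.leaf 741555)
(.leaf 6117359112362)))))
(.node (.node (.node (.node (.node (.leaf 14921404235391006)
(.leaf 1789844488372))
(.leaf 15483600489906356))
(.node (.leaf 610451)
(.leaf 60)))
(.node (.node (.node (.leaf 462959)
(.leaf 1141629110))
(.leaf 29559685821227194))
(.node (.leaf 25619173451931810)
(.leaf 2268128653472))))
(.node (.node (.node (.node (.leaf 27872689976795216)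
(.leaf 4263644995762))
(.leaf 27307336520147122))
(.node (.leaf 676003)
(.leaf 537411712)))
(.node (.node (.node (.leaf 561287)
(.leaf 778428))
(.leaf 6804855951440))
(.node (.leaf 12666514260574384)
(.leaf 552826781872))))))
(.node (.node (.node (.node (.node (.node (.leaf 14921404235390994)
(.leaf 202096816))
(.leaf 14919963610153140))
(.node (.node (.leaf 27872209544978566)
(.leaf 90))
(.leaf 50)))
(.node (.node (.node (.leaf 46)
(.leaf 1443602614))
(.leaf 27872073112871094))
(.node (.leaf 24493615498252454)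
(.leaf 571048080))))
(.node (.node (.node (.node (.leaf 3230302044200)
(.leaf 671858872))
(.leaf 26740538007576754))
(.node (.leaf 25614637563732114)
(.leaf 2405601169540)))
(.node (.node (.node (.leaf 124)
(.leaf 13059855458322))
(.leaf 755150906))
(.node (.leaf 11541026871918768)
(.leaf 5637766029474)))))
(.node (.node (.node (.node (.node (.leaf 3093064523778)
(.leaf 604733620))
(.leaf 16046000687530164))
(.node (.leaf 10979517242323096)
(.leaf 2130656137332)))
(.node (.node (.node (.leaf 9290254964404344)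
(.leaf 1342955706))
(.leaf 3642920955934))
(.node (.leaf 25620135457497254)
(.leaf 436895908))))
(.node (.node (.node (.node (.leaf 6529877434374)
(.leaf 4950973980850))
(.leaf 26182261112823986))
(.node (.leaf 9853342390562984)
(.leaf 5979886596234)))
(.node (.node (.node (.leaf 11541987937763456)
(.leaf 190))
(.leaf 1594208358))
(.node (.leaf 13792963923247280)
(.leaf 737456)))))))
(.node (.node (.node (.node (.node (.node (.node (.leaf 756065312776)
(.leaf 537624752))
(.leaf 14357563144126640))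
(.node (.node (.leaf 24493615498121354)
(.leaf 185))
(.leaf 98)))
(.node (.node (.node (.leaf 44)
(.leaf 1108058294))
(.leaf 27870698723336374))
(.node (.leaf 23367440646394018)
(.leaf 201949328))))
(.node (.node (.node (.node (.leaf 3230100668456)
(.leaf 302760120))
(.leaf 25614638302060722))
(.node (.leaf 24493615498219674)
(.leaf 1476894834)))
(.node (.node (.node (.leaf 26183221977260146)
(.leaf 52930079994486965))
(.leaf 721588278))
(.node (.leaf 774331)
(.leaf 4263376494754)))))
(.node (.node (.node (.node (.node (.leaf 12106241815994370)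
(.leaf 235634868))
(.leaf 14920100982014132))
(.node (.leaf 8727167538606224)
(.leaf 104)))
(.node (.node (.node (.leaf 495735)
(.leaf 1477173430))
(.leaf 29561060210761914))
(.node (.leaf 25618761067962534)
(.leaf 671904))))
(.node (.node (.node (.node (.leaf 6392438464518)
(.leaf 5638034530482))
(.leaf 27308710909681842))
(.node (.leaf 9290254964600992)
(.leaf 671645828)))
(.node (.node (.node (.leaf 10416429816328328)
(.leaf 778422))
(.leaf 1560653922))
(.node (.leaf 13230838871982256)
(.leaf 3070967984))))))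
(.node (.node (.node (.node (.node (.node (.leaf 3642417537054)
(.leaf 571195568))
(.leaf 15482088661418164))
(.node (.node (.leaf 142)
(.leaf 80))
(.leaf 52)))
(.node (.node (.node (.leaf 108)
(.leaf 5363223748790))
(.leaf 28997285623619766))
(.node (.leaf 26177587785654434)
(.leaf 6117359112346))))
(.node (.node (.node (.node (.leaf 27872689976795206)
(.leaf 3171639474))
(.leaf 25619173720432818))
(.node (.leaf 158)
(.leaf 168312960)))
(.node (.node (.node (.leaf 528511)
(.leaf 3188441274))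
(.leaf 6804855951430))
(.node (.leaf 11540614555058352)
(.leaf 5225382060198)))))
(.node (.node (.node (.node (.node (.leaf 2955625586690)
(.leaf 1927216349364))
(.leaf 16608263446184120))
(.node (.leaf 13230975505498256)
(.leaf 964069638256)))
(.node (.node (.node (.leaf 13232074480124020)
(.leaf 3154739384))
(.leaf 2955625443358))
(.node (.leaf 174)
(.leaf 5704941564066))))
(.node (.node (.node (.node (.leaf 26746515226009606)
(.leaf 4401083965618))
(.leaf 27871935741010102))
(.node (.leaf 12103564038652064)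
(.leaf 1510514822)))
(.node (.node (.node (.leaf 13230562987245700)
(.leaf 696409))
(.leaf 6529910943850))
(.node (.leaf 13794475751735472)
(.leaf 1514966581424)))))))))

def h : Tr Nat := (.node (.node (.node (.node (.node (.node (.node (.node (.node (.leaf 0)
(.leaf 33557512386))
(.leaf 0))
(.node (.node (.leaf 0)
(.leaf 41563803163262716627052400403494468263347439847240210634068470806011099241517285083960417275440417564510765303164436545315469690246814501629985087))
(.leaf 8858632195)))
(.node (.node (.node (.leaf 0)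
(.leaf 42418896933))
(.leaf 0))
(.node (.leaf 0)
(.leaf 20410204231))))
(.node (.node (.node (.node (.leaf 0)
(.leaf 10161123567919104111))
(.leaf 0))
(.node (.leaf 0)
(.leaf 3459591398648119336)))
(.node (.node (.node (.leaf 0)
(.leaf 1178688152120542264833193130862117059))
(.leaf 3489660929))
(.node (.leaf 0)
(.leaf 27390705752)))))
(.node (.node (.node (.node (.node (.leaf 0)
(.leaf 35705389251))
(.leaf 0))
(.node (.node (.leaf 0)
(.leaf 204918383335078093496867452144040224854704455))
(.leaf 13115238588569419814)))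
(.node (.node (.node (.leaf 0)
(.leaf 44566773957))
(.leaf 0))
(.node (.leaf 0)
(.leaf 1663911665661757042996346952))))
(.node (.node (.node (.node (.leaf 0)
(.leaf 2901870594701299172630134896))
(.leaf 0))
(.node (.leaf 0)
(.leaf 4468292119114219574)))
(.node (.node (.node (.leaf 0)
(.leaf 169378975909613135555438528573703882753009004416830903351283055810134324117736387680802150242343701491016811409402593141046011662855373112))
(.leaf 6711017474))
(.node (.leaf 0)
(.leaf 29533863971))))))
(.node (.node (.node (.node (.node (.node (.leaf 0)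
(.leaf 34631254210))
(.leaf 0))
(.node (.node (.leaf 0)
(.leaf 16425338765768335638115297801913999249636395477585952032648575574217952209474329727493439990421924859086153970180690727068676752142067016846695531332593378651649186607203495581773882634065279582527))
(.leaf 13620486171499757605)))
(.node (.node (.node (.leaf 0)
(.leaf 11675107099438547056))
(.leaf 0))
(.node (.leaf 0)
(.leaf 5765434407863910471))))
(.node (.node (.node (.node (.leaf 0)
(.leaf 10449389128711340143))
(.leaf 0))
(.node (.leaf 0)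
(.leaf 3820758978676981801)))
(.node (.node (.node (.leaf 0)
(.leaf 12604134952551884303767640000893694729084166307111270176816693269632201389382767819052103640966879314115))
(.leaf 4563402753))
(.node (.leaf 0)
(.leaf 28460122147)))))
(.node (.node (.node (.node (.node (.leaf 0)
(.leaf 9872858006858432623))
(.leaf 0))
(.node (.leaf 0)
(.leaf 3714259300606779579437088807)))
(.node (.node (.node (.leaf 0)
(.leaf 12251638221023019120))
(.leaf 1610612737))
(.node (.leaf 0)
(.leaf 6990519059894435927))))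
(.node (.node (.node (.node (.leaf 0)
(.leaf 41345417412))
(.leaf 0))
(.node (.leaf 0)
(.leaf 17724932151)))
(.node (.node (.node (.leaf 0)
(.leaf 15974644887918579611958473435575961660490519836920499900113244939339536216855359145915685903505813041859208604652090890452012414040949551626108103453638972))
(.leaf 7784890371))
(.node (.leaf 0)
(.leaf 8719725352252866561)))))))
(.node (.node (.node (.node (.node (.node (.node (.leaf 0)
(.leaf 9152176513094451311))
(.leaf 0))
(.node (.node (.leaf 0)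
(.leaf 158954402102013415821738419849113018499399998))
(.leaf 12971088215584473124)))
(.node (.node (.node (.leaf 0)
(.leaf 42956161221))
(.leaf 0))
(.node (.leaf 0)
(.leaf 20947075143))))
(.node (.node (.node (.node (.leaf 0)
(.leaf 10305238755994959983))
(.leaf 0))
(.node (.leaf 0)
(.leaf 13697351721)))
(.node (.node (.node (.leaf 0)
(.leaf 3825174343998753917332753917131222799552892495377680296137741252963723232371220572190984199462432741794635277535538815917561210907910604127799362838266050))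
(.leaf 4026531841))
(.node (.leaf 0)
(.leaf 2012091746587851172679057496)))))
(.node (.node (.node (.node (.node (.leaf 0)
(.leaf 36242260163))
(.leaf 0))
(.node (.leaf 0)
(.leaf 13692543765537816615)))
(.node (.node (.node (.leaf 0)
(.leaf 12107487848306638960))
(.leaf 0))
(.node (.leaf 0)
(.leaf 25511526487))))
(.node (.node (.node (.node (.leaf 0)
(.leaf 40808153123))
(.leaf 0))
(.node (.leaf 0)
(.leaf 17182949570)))
(.node (.node (.node (.leaf 0)
(.leaf 7891846206110162448905625711806158796143015045334395944785468068143471296393447885567458397561654969892119642202))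
(.leaf 7248019459))
(.node (.leaf 0)
(.leaf 31946506274))))))
(.node (.node (.node (.node (.node (.node (.leaf 0)
(.leaf 9440442074155122799))
(.leaf 0))
(.node (.node (.leaf 0)
(.leaf 3559545141424324905348432198))
(.leaf 13043145809622532134)))
(.node (.node (.node (.leaf 0)
(.leaf 44029903045))
(.leaf 0))
(.node (.leaf 0)
(.leaf 22020948040))))
(.node (.node (.node (.node (.leaf 0)
(.leaf 10666124815938879491))
(.leaf 0))
(.node (.leaf 0)
(.leaf 16114188342)))
(.node (.node (.node (.leaf 0)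
(.leaf 9043023336388842173779985706605188436998598485475450081902683))
(.leaf 5100273665))
(.node (.leaf 0)
(.leaf 28996993059)))))
(.node (.node (.node (.node (.node (.leaf 0)
(.leaf 37316001987))
(.leaf 0))
(.node (.leaf 0)
(.leaf 12355043368)))
(.node (.node (.node (.leaf 0)
(.leaf 12395753409098874992))
(.leaf 2952790017))
(.node (.leaf 0)
(.leaf 7134634247970291799))))
(.node (.node (.node (.node (.leaf 0)
(.leaf 41882288324))
(.leaf 0))
(.node (.leaf 0)
(.leaf 4973610071859462199)))
(.node (.node (.node (.leaf 0)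
(.leaf 31150899518))
(.leaf 8321761283))
(.node (.leaf 0)
(.leaf 33020641474))))))))
(.node (.node (.node (.node (.node (.node (.node (.node (.leaf 0)
(.leaf 9080118919056523375))
(.leaf 0))
(.node (.node (.leaf 0)
(.leaf 43710767447425709668241559779388562310293139420432266897232951127162853682833344719251054925883776280383464780332193639151003929029507911180222783))
(.leaf 12754915433470689316)))
(.node (.node (.node (.leaf 0)
(.leaf 42687332389))
(.leaf 0))
(.node (.leaf 0)
(.leaf 20678639687))))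
(.node (.node (.node (.node (.leaf 0)
(.leaf 10233181161957032047))
(.leaf 0))
(.node (.leaf 0)
(.leaf 13160480809)))
(.node (.node (.node (.leaf 0)
(.leaf 1548781039640654278789296322770787964546772885257359468284818038803631467528283))
(.leaf 3758096385))
(.node (.leaf 0)
(.leaf 27659141208)))))
(.node (.node (.node (.node (.node (.leaf 0)
(.leaf 35973824707))
(.leaf 0))
(.node (.leaf 0)
(.leaf 3539937864185192292406853670)))
(.node (.node (.node (.leaf 0)
(.leaf 12035430254268711024))
(.leaf 0))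
(.node (.leaf 0)
(.leaf 24706220119))))
(.node (.node (.node (.node (.leaf 0)
(.leaf 40539717667))
(.leaf 0))
(.node (.leaf 0)
(.leaf 4540349713152147510)))
(.node (.node (.node (.leaf 0)
(.leaf 53084602955944933010590411223044028949095310967069008907153248472315079466444610648254447087076007621061823580429772112524282055454425400))
(.leaf 6979584003))
(.node (.leaf 0)
(.leaf 31678070818))))))
(.node (.node (.node (.node (.node (.node (.leaf 0)
(.leaf 9368384480117194863))
(.leaf 0))
(.node (.node (.leaf 0)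
(.leaf 4075928345960370621692382619087542703243514999349447426631253926404133600268476266958012787855163716129394867979098230864574222517098514965647014858004460657483074361107929908603770932222208187443885965630))
(.leaf 12826973027508748326)))
(.node (.node (.node (.leaf 0)
(.leaf 11747164693476474992))
(.leaf 0))
(.node (.leaf 0)
(.leaf 5837492001901838407))))
(.node (.node (.node (.node (.leaf 0)
(.leaf 10521446722749268079))
(.leaf 0))
(.node (.leaf 0)
(.leaf 15845752886)))
(.node (.node (.node (.leaf 0)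
(.leaf 22285490626282584727725084722197192735283780231725884650488107326866283579451985107946888133445854943452329258577745627003341079465089039711123737270075226557864111978527063534835073009817888699341810850355955717297168238136674801869848612))
(.leaf 4831838209))
(.node (.leaf 0)
(.leaf 28728557603)))))
(.node (.node (.node (.node (.node (.leaf 0)
(.leaf 9944915600896360559))
(.leaf 0))
(.node (.leaf 0)
(.leaf 12086607912)))
(.node (.node (.node (.leaf 0)
(.leaf 12323695815060947056))
(.leaf 2684354561))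
(.node (.leaf 0)
(.leaf 7062576653932363863))))
(.node (.node (.node (.node (.leaf 0)
(.leaf 41613852868))
(.leaf 0))
(.node (.leaf 0)
(.leaf 18261803063)))
(.node (.node (.node (.leaf 0)
(.leaf 4331019510386501278772267491011478307332180038188782503214159419727083072110245541309719090325870798850673075615257609191284677778565703858053977915357120760668771791048185778405076562427526435728422273338))
(.leaf 8053325827))
(.node (.leaf 0)
(.leaf 2360035709117673856781975663)))))))
(.node (.node (.node (.node (.node (.node (.node (.leaf 0)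
(.leaf 9224234107132379247))
(.leaf 0))
(.node (.node (.leaf 0)
(.leaf 30882070851))
(.leaf 13548428577461829669)))
(.node (.node (.node (.leaf 0)
(.leaf 11603049505400619120))
(.leaf 0))
(.node (.leaf 0)
(.leaf 5693376813825982535))))
(.node (.node (.node (.node (.leaf 0)
(.leaf 10377331534673412207))
(.leaf 0))
(.node (.leaf 0)
(.leaf 3748630973213638697)))
(.node (.node (.node (.leaf 0)
(.leaf 736701781160900151546496874718520101856968182817720816847099825110590439217735148665766451117103178417366260711632207906))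
(.leaf 4294967297))
(.node (.leaf 0)
(.leaf 28191686691)))))
(.node (.node (.node (.node (.node (.leaf 0)
(.leaf 9800800412820504687))
(.leaf 0))
(.node (.leaf 0)
(.leaf 13764636544484704295)))
(.node (.node (.node (.leaf 0)
(.leaf 12179545442344566896))
(.leaf 0))
(.node (.leaf 0)
(.leaf 1857113123280907192736874583))))
(.node (.node (.node (.node (.leaf 0)
(.leaf 41076588579))
(.leaf 0))
(.node (.leaf 0)
(.leaf 4684676050678644790)))
(.node (.node (.node (.leaf 0)
(.leaf 4288161085502609555998858994682950408053885509320817253505114821441669999695006450264771570812894203478860897753379838740415228870145262401224618630184281138987322))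
(.leaf 7516454915))
(.node (.leaf 0)
(.leaf 8647632573305978881))))))
(.node (.node (.node (.node (.node (.node (.leaf 0)
(.leaf 9512499668193050735))
(.leaf 0))
(.node (.node (.leaf 0)
(.leaf 3598230767651993038939029830))
(.leaf 12899065806455636006)))
(.node (.node (.node (.leaf 0)
(.leaf 44298338501))
(.leaf 0))
(.node (.leaf 0)
(.leaf 22826254408))))
(.node (.node (.node (.node (.leaf 0)
(.leaf 10738217594885767171))
(.leaf 0))
(.node (.leaf 0)
(.leaf 4396234525076291638)))
(.node (.node (.node (.leaf 0)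
(.leaf 384176136205938982158520615397971202319085103263880635471871416878900060301557491890959959748203481014105659792636826259001792444952864869399195825947573395806375789278614134322498158136586680344349978453347074084))
(.leaf 6442713091))
(.node (.leaf 0)
(.leaf 29265428515)))))
(.node (.node (.node (.node (.node (.leaf 0)
(.leaf 37584437443))
(.leaf 0))
(.node (.leaf 0)
(.leaf 12619940035)))
(.node (.node (.node (.leaf 0)
(.leaf 4391002769165686468993155348))
(.leaf 3221225473))
(.node (.leaf 0)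
(.leaf 26853834840))))
(.node (.node (.node (.node (.leaf 0)
(.leaf 42150461477))
(.leaf 0))
(.node (.leaf 0)
(.leaf 5045773261963329591)))
(.node (.node (.node (.leaf 0)
(.leaf 1256635987760935411947856578314698949))
(.leaf 8590196739))
(.node (.leaf 0)
(.leaf 33289076930)))))))))

def l0 : List Ax := [.u2 false,
  .u1 true,
  .u2 true,
  .ex2 false 0 4 3 5 6,
  .ex2 false 0 5 6 3 4,
  .ex3 false 0 5 6 2 3 4,
  .ex3 false 1 3 4 0 5 6,
  .ex2 false 5 1 6 0 4,
  .ex2 false 1 5 6 3 4,
  .ex3 false 1 5 6 2 3 4,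
  .ex3 false 2 3 4 0 5 6,
  .ex3 false 2 3 4 1 5 6,
  .ex2 false 3 2 4 5 6,
  .ex2 false 3 2 4 5 7,
  .ex2 false 3 2 4 6 7,
  .ex2 false 4 2 3 5 6,
  .ex2 false 4 2 3 5 7,
  .ex2 false 4 2 3 6 7,
  .ex3 false 2 3 4 5 6 7,
  .ex2 false 6 2 5 0 3,
  .ex2 false 5 2 6 0 4,
  .ex2 false 6 2 5 1 3,
  .ex2 false 5 2 6 1 4,
  .ex3 true 0 5 6 2 3 4,
  .ex2 true 2 1 3 5 6,
  .ex3 true 1 5 6 2 3 4,
  .ex2 true 2 3 4 5 6,
  .ex2 true 3 2 4 5 6,
  .ex2 true 4 2 3 5 6,
  .ex2 true 4 2 3 5 7,
  .ex2 true 4 2 3 6 7,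
  .ex3 true 2 3 4 5 6 7,
  .ex2 true 2 6 5 3 4,
  .tB false 5,
  .tB true 5,
  .tB false 6,
  .tB true 6,
  .tB false 7,
  .tB true 7,
  .ux false 3,
  .ux true 3,
  .uc 3 4,
  .uc 3 5,
  .uc 3 6,
  .u4 false 3 5 3,
  .u4 false 3 6 3,
  .u5 false 3 4 5 6 0,
  .u5 false 3 5 6 3 2,
  .u4 true 3 5 3,
  .u4 true 3 5 6,
  .u4 true 3 6 3,
  .u5 true 3 4 6 3 2,
  .u5 true 3 5 6 3 2,
  .ux false 4,
  .ux true 4,
  .uc 4 3,
  .uc 4 5,
  .uc 4 6,
  .u4 false 4 5 4,
  .u4 false 4 6 4,
  .u5 false 4 3 5 4 0,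
  .u5 false 4 3 5 4 1,
  .u5 false 4 3 5 4 2,
  .u5 false 4 5 6 3 0,
  .u5 false 4 5 6 4 2,
  .u4 true 4 5 4,
  .u4 true 4 5 6,
  .u4 true 4 6 4,
  .u5 true 4 3 6 4 2,
  .u5 true 4 5 6 4 2,
  .ux false 5,
  .ux true 5,
  .uc 5 3,
  .uc 5 4,
  .uc 5 6,
  .u4 false 5 3 5,
  .u4 false 5 4 5,
  .u4 false 5 6 5,
  .u5 false 5 3 6 5 0,
  .u5 false 5 3 6 5 1,
  .u5 false 5 3 6 5 2,
  .u4 true 5 3 5,
  .u4 true 5 6 3,
  .u4 true 5 6 4,
  .u4 true 5 6 5,
  .u5 true 5 3 4 5 2,
  .ux false 6,
  .ux true 6,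
  .uc 6 3,
  .uc 6 4,
  .uc 6 5,
  .u4 false 6 3 6,
  .u4 false 6 5 3,
  .u4 false 6 5 4,
  .u4 false 6 5 6,
  .u5 false 6 3 4 6 2,
  .u5 false 6 4 5 6 0,
  .u5 false 6 4 5 6 1,
  .u5 false 6 4 5 6 2,
  .u4 true 6 3 6,
  .u4 true 6 4 5,
  .u4 true 6 4 6,
  .u4 true 6 5 6,
  .u5 true 6 3 4 6 2,
  .u5 true 6 3 5 4 0,
  .u5 true 6 3 5 4 1,
  .u5 true 6 3 5 4 2,
  .u5 true 6 4 5 3 0,
  .u5 true 6 4 5 3 1,
  .u5 true 6 4 5 3 2,
  .ux false 7,
  .ux true 7,
  .uc 7 3,
  .uc 7 4,
  .uc 7 5,
  .uc 7 6,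
  .u4 false 7 6 3,
  .u5 false 7 3 4 5 0,
  .u5 false 7 3 4 5 1,
  .u5 false 7 3 4 5 2,
  .u5 false 7 3 4 6 2,
  .u5 false 7 3 4 7 2,
  .u5 false 7 3 5 6 0,
  .u5 false 7 3 5 6 1,
  .u5 false 7 3 5 6 2,
  .u5 false 7 3 5 7 0,
  .u5 false 7 3 5 7 1,
  .u5 false 7 3 5 7 2,
  .u5 false 7 3 6 5 0,
  .u5 false 7 3 6 7 0,
  .u5 false 7 3 6 7 1,
  .u5 false 7 3 6 7 2,
  .u5 false 7 4 5 6 0,
  .u5 false 7 4 5 6 1,
  .u5 false 7 4 5 6 2,
  .u5 false 7 4 5 7 0,
  .u5 false 7 4 5 7 1,
  .u5 false 7 4 5 7 2,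
  .u5 false 7 4 6 5 0,
  .u5 false 7 4 6 5 1,
  .u5 false 7 4 6 7 0,
  .u5 false 7 4 6 7 1,
  .u5 false 7 4 6 7 2,
  .u5 false 7 5 6 7 0,
  .u5 false 7 5 6 7 1,
  .u5 false 7 5 6 7 2,
  .u4 true 7 5 6,
  .u5 true 7 3 4 5 2,
  .u5 true 7 3 4 6 2,
  .u5 true 7 3 4 7 2,
  .u5 true 7 3 5 4 0,
  .u5 true 7 3 5 4 1,
  .u5 true 7 3 5 4 2,
  .u5 true 7 3 5 6 0,
  .u5 true 7 3 5 6 1,
  .u5 true 7 3 5 6 2,
  .u5 true 7 3 6 4 0,
  .u5 true 7 3 6 4 1,
  .u5 true 7 3 6 4 2,
  .u5 true 7 4 5 6 2,
  .u5 true 7 4 5 7 0,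
  .u5 true 7 4 5 7 1,
  .u5 true 7 4 5 7 2,
  .u5 true 7 4 6 5 0,
  .u5 true 7 4 6 5 1,
  .u5 true 7 4 6 5 2,
  .u5 true 7 4 6 7 0,
  .u5 true 7 4 6 7 1,
  .u5 true 7 4 6 7 2,
  .u5 true 7 5 6 7 0,
  .u5 true 7 5 6 7 1,
  .u5 true 7 5 6 7 2]

theorem a0 : axchk 8 0 3 false (Tr.get ⟨9, 0, 0, 0⟩ v) (Tr.get 0 g) l0 172 0 = true := by
  decide +kernel

theorem t0 : chk (Tr.get 0 g) (Tr.get 0 h) 157 172 = true := by decide +kernel

theorem z : Tr.get 0 g 328 = 0 := by decide +kernel

theorem bad {α : Type*} [DecidableEq α] (c : Cx α) (hn : c.n = 8) (ha : c.a = 0) (hb : c.b = 3)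
    (hcl : c.closed = false) : False := by
  have s0 := axchk_sound c hn ha hb hcl (by norm_num) _ _ _ _ _ a0
  have s0 := chk_sound' t0 (e := 329) rfl s0
  exact s0.false z

end Pool.Agent.Gabow87.K3.U030
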