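import Pool.Agent.Gabow87.Refute

/-! Certificate; see `Pool/Agent/Gabow87/Refute.lean`. -/

set_option autoImplicit false
set_option maxRecDepth 100000

namespace Pool.Agent.Gabow87.K3.U320

open Pool.Agent.Gabow87.Sat

def v : Tr VC := (.node (.node (.node (.node (.node (.node (.node (.node (.leaf ⟨0, 14, 0, 0⟩)
(.leaf ⟨1, 416, 0, 0⟩))
(.node (.leaf ⟨0, 168, 0, 0⟩)
(.leaf ⟨2, 7, 6, 0⟩)))
(.node (.node (.leaf ⟨0, 162, 0, 0⟩)
(.leaf ⟨2, 5, 4, 0⟩))
(.leaf ⟨1, 530, 0, 0⟩)))
(.node (.node (.node (.leaf ⟨0, 193, 0, 0⟩)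
(.leaf ⟨2, 3, 9, 0⟩))
(.node (.leaf ⟨0, 608, 0, 0⟩)
(.leaf ⟨2, 8, 9, 0⟩)))
(.node (.node (.leaf ⟨0, 532, 0, 0⟩)
(.leaf ⟨2, 6, 5, 0⟩))
(.leaf ⟨1, 296, 0, 0⟩))))
(.node (.node (.node (.node (.leaf ⟨0, 521, 0, 0⟩)
(.leaf ⟨2, 3, 4, 0⟩))
(.node (.leaf ⟨0, 304, 0, 0⟩)
(.leaf ⟨2, 8, 3, 0⟩)))
(.node (.node (.leaf ⟨0, 76, 0, 0⟩)
(.leaf ⟨2, 5, 9, 0⟩))
(.leaf ⟨1, 772, 0, 0⟩)))
(.node (.node (.node (.leaf ⟨0, 138, 0, 0⟩)
(.leaf ⟨2, 4, 7, 0⟩))
(.node (.leaf ⟨1, 521, 0, 0⟩)
(.leaf ⟨2, 9, 5, 0⟩)))
(.node (.node (.leaf ⟨0, 388, 0, 0⟩)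
(.leaf ⟨2, 7, 7, 0⟩))
(.leaf ⟨1, 176, 0, 0⟩)))))
(.node (.node (.node (.node (.node (.leaf ⟨0, 41, 0, 0⟩)
(.leaf ⟨1, 832, 0, 0⟩))
(.node (.leaf ⟨0, 392, 0, 0⟩)
(.leaf ⟨2, 7, 9, 0⟩)))
(.node (.node (.leaf ⟨0, 578, 0, 0⟩)
(.leaf ⟨2, 5, 7, 0⟩))
(.leaf ⟨1, 524, 0, 0⟩)))
(.node (.node (.node (.leaf ⟨0, 769, 0, 0⟩)
(.leaf ⟨2, 4, 3, 0⟩))
(.node (.leaf ⟨0, 704, 0, 0⟩)
(.leaf ⟨2, 9, 3, 0⟩)))
(.node (.node (.leaf ⟨0, 548, 0, 0⟩)
(.leaf ⟨2, 6, 8, 0⟩))
(.leaf ⟨1, 584, 0, 0⟩))))
(.node (.node (.node (.node (.leaf ⟨0, 273, 0, 0⟩)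
(.leaf ⟨2, 3, 7, 0⟩))
(.node (.leaf ⟨0, 400, 0, 0⟩)
(.leaf ⟨2, 8, 5, 0⟩)))
(.node (.node (.leaf ⟨0, 52, 0, 0⟩)
(.leaf ⟨2, 6, 3, 0⟩))
(.leaf ⟨1, 280, 0, 0⟩)))
(.node (.node (.node (.leaf ⟨0, 82, 0, 0⟩)
(.leaf ⟨2, 5, 5, 0⟩))
(.node (.leaf ⟨1, 769, 0, 0⟩)
(.leaf ⟨2, 9, 7, 0⟩)))
(.node (.node (.leaf ⟨0, 152, 0, 0⟩)
(.leaf ⟨2, 7, 4, 0⟩))
(.leaf ⟨1, 592, 0, 0⟩))))))
(.node (.node (.node (.node (.node (.node (.leaf ⟨1, 28, 0, 0⟩)
(.leaf ⟨1, 800, 0, 0⟩))
(.node (.leaf ⟨0, 200, 0, 0⟩)
(.leaf ⟨2, 7, 8, 0⟩)))
(.node (.node (.leaf ⟨0, 194, 0, 0⟩)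
(.leaf ⟨2, 5, 6, 0⟩))
(.leaf ⟨1, 770, 0, 0⟩)))
(.node (.node (.node (.leaf ⟨0, 577, 0, 0⟩)
(.leaf ⟨2, 4, 4, 0⟩))
(.node (.leaf ⟨0, 800, 0, 0⟩)
(.leaf ⟨2, 9, 9, 0⟩)))
(.node (.node (.leaf ⟨0, 164, 0, 0⟩)
(.leaf ⟨2, 6, 7, 0⟩))
(.leaf ⟨1, 200, 0, 0⟩))))
(.node (.node (.node (.node (.leaf ⟨0, 81, 0, 0⟩)
(.leaf ⟨2, 3, 5, 0⟩))
(.node (.leaf ⟨0, 208, 0, 0⟩)
(.leaf ⟨2, 8, 4, 0⟩)))
(.node (.node (.leaf ⟨0, 268, 0, 0⟩)
(.leaf ⟨2, 6, 6, 0⟩))
(.leaf ⟨1, 88, 0, 0⟩)))
(.node (.node (.node (.leaf ⟨0, 522, 0, 0⟩)
(.leaf ⟨2, 4, 8, 0⟩))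
(.node (.leaf ⟨1, 529, 0, 0⟩)
(.leaf ⟨2, 9, 6, 0⟩)))
(.node (.node (.leaf ⟨0, 56, 0, 0⟩)
(.leaf ⟨2, 7, 3, 0⟩))
(.leaf ⟨1, 208, 0, 0⟩)))))
(.node (.node (.node (.node (.node (.leaf ⟨0, 137, 0, 0⟩)
(.leaf ⟨2, 3, 3, 0⟩))
(.node (.leaf ⟨0, 112, 0, 0⟩)
(.leaf ⟨2, 8, 8, 0⟩)))
(.node (.node (.leaf ⟨0, 770, 0, 0⟩)
(.leaf ⟨2, 5, 8, 0⟩))
(.leaf ⟨1, 532, 0, 0⟩)))
(.node (.node (.node (.leaf ⟨0, 42, 0, 0⟩)
(.leaf ⟨2, 4, 5, 0⟩))
(.node (.leaf ⟨0, 896, 0, 0⟩)
(.leaf ⟨2, 9, 4, 0⟩)))
(.node (.node (.leaf ⟨0, 324, 0, 0⟩)
(.leaf ⟨2, 6, 9, 0⟩))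
(.leaf ⟨1, 776, 0, 0⟩))))
(.node (.node (.node (.node (.leaf ⟨0, 161, 0, 0⟩)
(.leaf ⟨2, 3, 8, 0⟩))
(.node (.leaf ⟨0, 224, 0, 0⟩)
(.leaf ⟨2, 8, 6, 0⟩)))
(.node (.node (.leaf ⟨0, 148, 0, 0⟩)
(.leaf ⟨2, 6, 4, 0⟩))
(.leaf ⟨1, 104, 0, 0⟩)))
(.node (.node (.node (.leaf ⟨0, 274, 0, 0⟩)
(.leaf ⟨2, 5, 3, 0⟩))
(.node (.leaf ⟨1, 522, 0, 0⟩)
(.leaf ⟨2, 9, 8, 0⟩)))
(.node (.node (.leaf ⟨0, 536, 0, 0⟩)
(.leaf ⟨2, 7, 5, 0⟩))
(.leaf ⟨1, 784, 0, 0⟩)))))))
(.node (.node (.node (.node (.node (.node (.node (.leaf ⟨0, 28, 0, 0⟩)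
(.leaf ⟨1, 672, 0, 0⟩))
(.node (.leaf ⟨0, 296, 0, 0⟩)
(.leaf ⟨3, 7, 6, 0⟩)))
(.node (.node (.leaf ⟨0, 290, 0, 0⟩)
(.leaf ⟨3, 5, 4, 0⟩))
(.leaf ⟨1, 162, 0, 0⟩)))
(.node (.node (.node (.leaf ⟨0, 321, 0, 0⟩)
(.leaf ⟨3, 3, 9, 0⟩))
(.node (.leaf ⟨0, 416, 0, 0⟩)
(.leaf ⟨3, 8, 9, 0⟩)))
(.node (.node (.leaf ⟨0, 100, 0, 0⟩)
(.leaf ⟨3, 6, 5, 0⟩))
(.leaf ⟨1, 552, 0, 0⟩))))
(.node (.node (.node (.node (.leaf ⟨0, 49, 0, 0⟩)
(.leaf ⟨3, 3, 4, 0⟩))
(.node (.leaf ⟨0, 560, 0, 0⟩)
(.leaf ⟨3, 8, 3, 0⟩)))
(.node (.node (.leaf ⟨0, 140, 0, 0⟩)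
(.leaf ⟨3, 5, 9, 0⟩))
(.leaf ⟨1, 56, 0, 0⟩)))
(.node (.node (.node (.leaf ⟨0, 266, 0, 0⟩)
(.leaf ⟨3, 4, 7, 0⟩))
(.node (.leaf ⟨1, 273, 0, 0⟩)
(.leaf ⟨3, 9, 5, 0⟩)))
(.node (.node (.leaf ⟨0, 772, 0, 0⟩)
(.leaf ⟨3, 7, 7, 0⟩))
(.leaf ⟨1, 304, 0, 0⟩)))))
(.node (.node (.node (.node (.node (.leaf ⟨0, 73, 0, 0⟩)
(.leaf ⟨1, 896, 0, 0⟩))
(.node (.leaf ⟨0, 776, 0, 0⟩)
(.leaf ⟨3, 7, 9, 0⟩)))
(.node (.node (.leaf ⟨0, 386, 0, 0⟩)
(.leaf ⟨3, 5, 7, 0⟩))
(.leaf ⟨1, 276, 0, 0⟩)))
(.node (.node (.node (.leaf ⟨0, 26, 0, 0⟩)
(.leaf ⟨3, 4, 3, 0⟩))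
(.node (.leaf ⟨0, 832, 0, 0⟩)
(.leaf ⟨3, 9, 3, 0⟩)))
(.node (.node (.leaf ⟨0, 196, 0, 0⟩)
(.leaf ⟨3, 6, 8, 0⟩))
(.leaf ⟨1, 392, 0, 0⟩))))
(.node (.node (.node (.node (.leaf ⟨0, 97, 0, 0⟩)
(.leaf ⟨3, 3, 7, 0⟩))
(.node (.leaf ⟨0, 784, 0, 0⟩)
(.leaf ⟨3, 8, 5, 0⟩)))
(.node (.node (.leaf ⟨0, 84, 0, 0⟩)
(.leaf ⟨3, 6, 3, 0⟩))
(.leaf ⟨1, 536, 0, 0⟩)))
(.node (.node (.node (.leaf ⟨0, 146, 0, 0⟩)
(.leaf ⟨3, 5, 5, 0⟩))
(.node (.leaf ⟨1, 266, 0, 0⟩)
(.leaf ⟨3, 9, 7, 0⟩)))
(.node (.node (.leaf ⟨0, 280, 0, 0⟩)
(.leaf ⟨3, 7, 4, 0⟩))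
(.leaf ⟨1, 400, 0, 0⟩))))))
(.node (.node (.node (.node (.node (.node (.leaf ⟨0, 25, 0, 0⟩)
(.leaf ⟨1, 448, 0, 0⟩))
(.node (.leaf ⟨0, 328, 0, 0⟩)
(.leaf ⟨3, 7, 8, 0⟩)))
(.node (.node (.leaf ⟨0, 322, 0, 0⟩)
(.leaf ⟨3, 5, 6, 0⟩))
(.leaf ⟨1, 268, 0, 0⟩)))
(.node (.node (.node (.leaf ⟨0, 385, 0, 0⟩)
(.leaf ⟨3, 4, 4, 0⟩))
(.node (.leaf ⟨0, 448, 0, 0⟩)
(.leaf ⟨3, 9, 9, 0⟩)))
(.node (.node (.leaf ⟨0, 292, 0, 0⟩)
(.leaf ⟨3, 6, 7, 0⟩))
(.leaf ⟨1, 328, 0, 0⟩))))
(.node (.node (.node (.node (.leaf ⟨0, 145, 0, 0⟩)
(.leaf ⟨3, 3, 5, 0⟩))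
(.node (.leaf ⟨0, 592, 0, 0⟩)
(.leaf ⟨3, 8, 4, 0⟩)))
(.node (.node (.leaf ⟨0, 524, 0, 0⟩)
(.leaf ⟨3, 6, 6, 0⟩))
(.leaf ⟨1, 152, 0, 0⟩)))
(.node (.node (.node (.leaf ⟨0, 50, 0, 0⟩)
(.leaf ⟨3, 4, 8, 0⟩))
(.node (.leaf ⟨1, 161, 0, 0⟩)
(.leaf ⟨3, 9, 6, 0⟩)))
(.node (.node (.leaf ⟨0, 88, 0, 0⟩)
(.leaf ⟨3, 7, 3, 0⟩))
(.leaf ⟨1, 336, 0, 0⟩)))))
(.node (.node (.node (.node (.node (.leaf ⟨0, 265, 0, 0⟩)
(.leaf ⟨3, 3, 3, 0⟩))
(.node (.leaf ⟨0, 176, 0, 0⟩)
(.leaf ⟨3, 8, 8, 0⟩)))
(.node (.node (.leaf ⟨0, 44, 0, 0⟩)
(.leaf ⟨3, 5, 8, 0⟩))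
(.leaf ⟨1, 164, 0, 0⟩)))
(.node (.node (.node (.leaf ⟨0, 74, 0, 0⟩)
(.leaf ⟨3, 4, 5, 0⟩))
(.node (.leaf ⟨1, 265, 0, 0⟩)
(.leaf ⟨3, 9, 4, 0⟩)))
(.node (.node (.leaf ⟨0, 580, 0, 0⟩)
(.leaf ⟨3, 6, 9, 0⟩))
(.leaf ⟨1, 112, 0, 0⟩))))
(.node (.node (.node (.node (.leaf ⟨0, 289, 0, 0⟩)
(.leaf ⟨3, 3, 8, 0⟩))
(.node (.leaf ⟨0, 352, 0, 0⟩)
(.leaf ⟨3, 8, 6, 0⟩)))
(.node (.node (.leaf ⟨0, 276, 0, 0⟩)
(.leaf ⟨3, 6, 4, 0⟩))
(.leaf ⟨1, 168, 0, 0⟩)))
(.node (.node (.node (.leaf ⟨0, 98, 0, 0⟩)
(.leaf ⟨3, 5, 3, 0⟩))
(.node (.leaf ⟨1, 274, 0, 0⟩)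
(.leaf ⟨3, 9, 8, 0⟩)))
(.node (.node (.leaf ⟨0, 104, 0, 0⟩)
(.leaf ⟨3, 7, 5, 0⟩))
(.leaf ⟨1, 352, 0, 0⟩))))))))

def g : Tr Nat := (.node (.node (.node (.node (.node (.node (.node (.node (.node (.node (.leaf 1)
(.leaf 71229943758717360))
(.node (.leaf 48137586859237738)
(.leaf 694595297706)))
(.node (.node (.leaf 1192225)
(.leaf 7354141774182))
(.node (.leaf 1782193)
(.leaf 7484412007))))
(.node (.node (.node (.leaf 45889836426502258)
(.leaf 144))
(.node (.leaf 34625689002467706)
(.leaf 7566543020470)))
(.node (.node (.leaf 71794403728228680)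
(.leaf 1548662))
(.node (.leaf 39694301174391214)
(.leaf 85)))))
(.node (.node (.node (.node (.leaf 8454459113476)
(.leaf 1627779188))
(.node (.leaf 372)
(.leaf 337322414)))
(.node (.node (.leaf 57152548696650040)
(.leaf 5228469854566))
(.node (.leaf 36878726974874026)
(.leaf 7517970785))))
(.node (.node (.node (.leaf 15465523790024)
(.leaf 15327934136600))
(.node (.leaf 67850044142256508)
(.leaf 1835269)))
(.node (.node (.leaf 33495802828939610)
(.leaf 14228203991424))
(.leaf 48700400716210618)))))
(.node (.node (.node (.node (.node (.leaf 39696700750708800)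
(.leaf 9691577331740))
(.node (.leaf 66723456906363228)
(.leaf 5917141361066)))
(.node (.node (.leaf 294)
(.leaf 3854080287070))
(.node (.leaf 28996527328006590)
(.leaf 8667668060270747366113653167))))
(.node (.node (.node (.leaf 11340005785716)
(.leaf 140))
(.node (.leaf 26394655949012)
(.leaf 2954625452)))
(.node (.node (.leaf 26181227670557022)
(.leaf 4267001274746))
(.node (.leaf 44756727653720498)
(.leaf 6091637084)))))
(.node (.node (.node (.node (.leaf 34629739155701764)
(.leaf 8317053653150))
(.node (.leaf 31811826984882566)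
(.leaf 4542818918834)))
(.node (.node (.leaf 28433439901585738)
(.leaf 4111892832))
(.node (.leaf 39128602240606634)
(.leaf 7249318280))))
(.node (.node (.node (.leaf 118)
(.leaf 6804285272390))
(.node (.leaf 26744315096650134)
(.leaf 126131445903532390)))
(.node (.node (.leaf 39694162191589726)
(.leaf 3717648228754))
(.leaf 58841810974962112))))))
(.node (.node (.node (.node (.node (.node (.leaf 41948913015472162)
(.leaf 71794130931155380))
(.node (.leaf 25294875820300)
(.leaf 5642263421354)))
(.node (.node (.leaf 56026373844693280)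
(.leaf 169222490))
(.node (.leaf 25055052818993586)
(.leaf 516632988793854935480))))
(.node (.node (.node (.leaf 46452923852431476)
(.leaf 138))
(.node (.leaf 44756726781075838)
(.leaf 7450853804)))
(.node (.node (.leaf 1487209)
(.leaf 3717178368374))
(.node (.leaf 44198450691793330)
(.leaf 1067288278154992403161108)))))
(.node (.node (.node (.node (.leaf 8591898132484)
(.leaf 1996968078))
(.node (.leaf 23365790540960118)
(.leaf 4130434949550)))
(.node (.node (.leaf 1323329)
(.leaf 15536760471900))
(.node (.leaf 38565515250868650)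
(.leaf 7516602812))))
(.node (.node (.node (.leaf 17252230201588)
(.leaf 1104629948714))
(.node (.leaf 398)
(.leaf 2116125266431271883739380)))
(.node (.node (.leaf 36876801285726554)
(.leaf 13338140000636))
(.leaf 30518831415542)))))
(.node (.node (.node (.node (.node (.leaf 8040296259588)
(.leaf 10241433841734))
(.node (.leaf 71225682144199008)
(.leaf 3855624118702)))
(.node (.node (.leaf 32938074750247210)
(.leaf 6602993607006))
(.node (.leaf 35748016570442154)
(.leaf 126130621235114023))))
(.node (.node (.node (.leaf 73482358926164154)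
(.leaf 336683282))
(.node (.leaf 27219491045642)
(.leaf 14025938960816)))
(.node (.node (.leaf 31811826984849766)
(.leaf 7153286406526))
(.leaf 47576699832607158))))
(.node (.node (.node (.node (.leaf 8041101713498)
(.leaf 8591998685358))
(.node (.leaf 38567987876749686)
(.leaf 538698162)))
(.node (.node (.leaf 23095315529964)
(.leaf 17527863689572))
(.node (.leaf 40815253480219054)
(.leaf 429))))
(.node (.node (.node (.leaf 126)
(.leaf 3742679360))
(.node (.leaf 28594216190174)
(.leaf 125568150975836598)))
(.node (.node (.leaf 44756726042763618)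
(.leaf 7266296234))
(.leaf 66725107180765612)))))))
(.node (.node (.node (.node (.node (.node (.node (.leaf 1305821085724)
(.leaf 63349606550602164))
(.node (.leaf 25019863662836)
(.leaf 3168563569066)))
(.node (.node (.leaf 32936425080054034)
(.leaf 1433946))
(.node (.leaf 23928877967200682)
(.leaf 512021021369170297261))))
(.node (.node (.node (.leaf 45889837030629490)
(.leaf 132))
(.node (.leaf 43072274698887546)
(.leaf 672915898)))
(.node (.node (.leaf 1421657)
(.leaf 270033270))
(.node (.leaf 40257388566782382)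
(.leaf 404)))))
(.node (.node (.node (.node (.leaf 8591998763012)
(.leaf 2030530694))
(.node (.leaf 1585537)
(.leaf 3992995979694)))
(.node (.node (.leaf 62783218475286832)
(.leaf 1310122346))
(.node (.leaf 36311241334694314)
(.leaf 499243188545972724094))))
(.node (.node (.node (.leaf 73482358926164178)
(.leaf 6529373802806))
(.node (.leaf 71227331881517436)
(.leaf 5923844321)))
(.node (.node (.leaf 35748014959501658)
(.leaf 13750255518072))
(.leaf 30518764290272)))))
(.node (.node (.node (.node (.node (.leaf 43075087900885068)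
(.leaf 10653851398186))
(.node (.leaf 68976218457145696)
(.leaf 270262698)))
(.node (.node (.leaf 1257777)
(.leaf 1511399774))
(.node (.leaf 33495804439880106)
(.leaf 7518020017))))
(.node (.node (.node (.leaf 15465523790000)
(.leaf 174))
(.node (.leaf 26944478888180)
(.leaf 16568827986352)))
(.node (.node (.leaf 27870352475771234)
(.leaf 1075323262))
(.node (.leaf 46448051146711474)
(.leaf 180)))))
(.node (.node (.node (.node (.leaf 35192826581663748)
(.leaf 8591998668966))
(.node (.leaf 36876801755603318)
(.leaf 7016854299058)))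
(.node (.node (.leaf 32932852405641534)
(.leaf 12513036403040))
(.node (.leaf 39694163802530222)
(.leaf 7249203563))))
(.node (.node (.node (.leaf 122)
(.leaf 4265927303490))
(.node (.leaf 34621703675535762)
(.leaf 1826931)))
(.node (.node (.leaf 40820474616652126)
(.leaf 1671572))
(.leaf 65599619590750636))))))
(.node (.node (.node (.node (.node (.node (.leaf 3505515708418)
(.leaf 66164768634569148))
(.node (.leaf 66725518557757788)
(.leaf 969540346282)))
(.node (.node (.leaf 62783218005426456)
(.leaf 3579336630618))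
(.node (.leaf 27870352476148150)
(.leaf 2116125266426737690943919))))
(.node (.node (.node (.leaf 11751718535284)
(.leaf 148))
(.node (.leaf 47574362497786242)
(.leaf 7501185452)))
(.node (.node (.leaf 23365790540910938)
(.leaf 6191213699450))
(.node (.leaf 44198588063654322)
(.leaf 5940613554)))))
(.node (.node (.node (.node (.leaf 8591998828548)
(.leaf 2030530710))
(.node (.leaf 25055052818780542)
(.leaf 1612439982)))
(.node (.node (.leaf 1388881)
(.leaf 13062792216924))
(.node (.leaf 38000228701036970)
(.leaf 448))))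
(.node (.node (.node (.leaf 16702608589062)
(.leaf 13953258959160))
(.node (.leaf 1683865)
(.leaf 8667686958915577835297325494)))
(.node (.node (.leaf 32936426355433822)
(.leaf 6529373802902))
(.leaf 56026373845414316)))))
(.node (.node (.node (.node (.node (.leaf 6529843888132)
(.leaf 8454525710376))
(.node (.leaf 71794129320198500)
(.leaf 6192153436590)))
(.node (.node (.leaf 38565650340471082)
(.leaf 538354018))
(.node (.leaf 36313440492134826)
(.leaf 7517970874))))
(.node (.node (.node (.leaf 17664647766212)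
(.leaf 13678313926944))
(.node (.leaf 63346444850430328)
(.leaf 17801433301428)))
(.node (.node (.leaf 30685652132909418)
(.leaf 7977853034886))
(.leaf 48134701983719862))))
(.node (.node (.node (.node (.leaf 45328398704500836)
(.leaf 3675099390))
(.node (.leaf 32933952924148090)
(.leaf 1176215990)))
(.node (.node (.leaf 62220681107243328)
(.leaf 6941757788542))
(.node (.leaf 41380676932149678)
(.leaf 96))))
(.node (.node (.node (.leaf 1126673)
(.leaf 17665403191628))
(.node (.leaf 422)
(.leaf 516634402416607248461)))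
(.node (.node (.leaf 38567300279214438)
(.leaf 1761706))
(.leaf 61093271251452336))))))))
(.node (.node (.node (.node (.node (.node (.node (.node (.leaf 5)
(.leaf 72915495084081588))
(.node (.leaf 25019863646434)
(.leaf 5504958669226)))
(.node (.node (.leaf 23928877966479646)
(.leaf 5923791194))
(.node (.leaf 1814969)
(.leaf 30656286859702))))
(.node (.node (.node (.leaf 45890935938170994)
(.leaf 150))
(.node (.leaf 40818138624319866)
(.leaf 1209786806)))
(.node (.node (.leaf 342)
(.leaf 3579806507382))
(.node (.leaf 40252578203410862)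
(.leaf 311)))))
(.node (.node (.node (.node (.leaf 8454492684292)
(.leaf 2030522498))
(.node (.leaf 1552761)
(.leaf 1511727534)))
(.node (.node (.leaf 62781569207845168)
(.leaf 1914085734))
(.node (.leaf 35750627843465642)
(.leaf 1835442))))
(.node (.node (.node (.leaf 16977352286412)
(.leaf 3323085088))
(.node (.leaf 71225682614075772)
(.leaf 2116072237671629582749922)))
(.node (.node (.leaf 32935739227775322)
(.leaf 12100988076408))
(.leaf 30243819274454)))))
(.node (.node (.node (.node (.node (.leaf 40822875602567236)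
(.leaf 10241433841698))
(.node (.leaf 67287093718958432)
(.leaf 3580746260906)))
(.node (.node (.leaf 1225001)
(.leaf 336994654))
(.node (.leaf 32374914411024830)
(.leaf 509713201438284759397))))
(.node (.node (.node (.leaf 11889761632372)
(.leaf 166))
(.node (.leaf 26944478871778)
(.leaf 3357278636)))
(.node (.node (.leaf 22239615689003362)
(.leaf 1612210554))
(.node (.leaf 44761675456045490)
(.leaf 225)))))
(.node (.node (.node (.node (.leaf 34629739189272580)
(.leaf 8591931560098))
(.node (.leaf 34058753252237686)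
(.leaf 2069051974066)))
(.node (.node (.leaf 31811826984718670)
(.leaf 17048588960096))
(.node (.leaf 39689353439158702)
(.leaf 1769863))))
(.node (.node (.node (.leaf 120)
(.leaf 1319230))
(.node (.leaf 28996527327859098)
(.leaf 126131445902492012)))
(.node (.node (.leaf 40815664253280606)
(.leaf 13953258959256))
(.leaf 61643439315026348))))))
(.node (.node (.node (.node (.node (.node (.leaf 1718238609450)
(.leaf 65039006166679992))
(.node (.leaf 64472618829775196)
(.leaf 3443240182186)))
(.node (.node (.leaf 62781568737984792)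
(.leaf 1343627610))
(.node (.leaf 28433439902110130)
(.leaf 7518020028))))
(.node (.node (.node (.leaf 46454023364100212)
(.leaf 164))
(.node (.leaf 44761674583400830)
(.leaf 14090731475376)))
(.node (.node (.leaf 22239615689036122)
(.leaf 1380649001338))
(.node (.leaf 44193640261329330)
(.leaf 68695430859743520)))))
(.node (.node (.node (.node (.leaf 8591931703300)
(.leaf 2064076946))
(.node (.leaf 26181227670606202)
(.leaf 438034862)))
(.node (.node (.leaf 1356105)
(.leaf 16223955239260))
(.node (.leaf 36876802628247978)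
(.leaf 7516602800))))
(.node (.node (.node (.leaf 16977352286460)
(.leaf 1746100526))
(.node (.leaf 1651089)
(.leaf 30793810035130)))
(.node (.node (.leaf 38005037453451610)
(.leaf 17665302757760))
(.leaf 30793776447746)))))
(.node (.node (.node (.node (.node (.leaf 35192824702083076)
(.leaf 10653851398222))
(.node (.leaf 71227331411640672)
(.leaf 1381790065070)))
(.node (.node (.leaf 34627336927404330)
(.leaf 1108762978))
(.node (.leaf 35752826933813674)
(.leaf 30793608699979))))
(.node (.node (.node (.leaf 16702474371264)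
(.leaf 1645355282))
(.node (.leaf 57152548697043324)
(.leaf 17049595937200)))
(.node (.node (.leaf 26744315096453482)
(.leaf 1243128194))
(.leaf 47011276313584054))))
(.node (.node (.node (.node (.leaf 8727826571364)
(.leaf 1594183796))
(.node (.leaf 35188089267200374)
(.leaf 1746657714)))
(.node (.node (.leaf 57152548696813892)
(.leaf 5704538706294))
(.node (.leaf 40820063843590574)
(.leaf 26))))
(.node (.node (.node (.leaf 270)
(.leaf 4044669252))
(.node (.leaf 58841810974863780)
(.leaf 8667686869059737654965010865)))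
(.node (.node (.leaf 45324761237479778)
(.leaf 7400513962))
(.leaf 70101982267539888)))))))
(.node (.node (.node (.node (.node (.node (.node (.leaf 45328399308636188)
(.leaf 68416156198502836))
(.node (.leaf 25294808695044)
(.leaf 831900049834)))
(.node (.node (.leaf 36880373288919318)
(.leaf 3166952628570))
(.node (.leaf 25055052819009966)
(.leaf 30793808622005))))
(.node (.node (.node (.leaf 45890936542298226)
(.leaf 136))
(.node (.leaf 44195975582458238)
(.leaf 1914429882)))
(.node (.node (.leaf 1454433)
(.leaf 1444438390))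
(.node (.leaf 43632889062744494)
(.leaf 17323248738654)))))
(.node (.node (.node (.node (.leaf 8317020209156)
(.leaf 2064093322))
(.node (.leaf 1618313)
(.leaf 974873006)))
(.node (.node (.leaf 316)
(.leaf 15467973853532))
(.node (.leaf 36316051698065834)
(.leaf 73764108848292221))))
(.node (.node (.node (.leaf 16152718573794)
(.leaf 1410539818))
(.node (.leaf 72357079743496576)
(.leaf 2116132205888267520250243)))
(.node (.node (.leaf 35752825322873178)
(.leaf 16980272234876))
(.leaf 30243886399728)))))
(.node (.node (.node (.node (.node (.leaf 4192743899214)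
(.leaf 9691577331776))
(.node (.leaf 71230217696756064)
(.leaf 1444667818)))
(.node (.node (.leaf 28433439901552942)
(.leaf 1792630235486))
(.node (.leaf 34621704480940458)
(.leaf 7467671665))))
(.node (.node (.node (.leaf 16977352286388)
(.leaf 254))
(.node (.leaf 26944546013440)
(.leaf 12376671519152)))
(.node (.node (.leaf 23365790540861798)
(.leaf 2205484081534))
(.node (.leaf 47571614591328694)
(.leaf 204)))))
(.node (.node (.node (.node (.leaf 8040497586266)
(.leaf 8591965122730))
(.node (.leaf 38563177513378166)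
(.leaf 4680257888690)))
(.node (.node (.leaf 34625688062714178)
(.leaf 14162303844704))
(.node (.leaf 40254777360851374)
(.leaf 1769825))))
(.node (.node (.node (.leaf 124)
(.leaf 14228203991372))
(.node (.leaf 35188089737060754)
(.leaf 144770459238276633319935964926607794)))
(.node (.node (.leaf 44196112551534946)
(.leaf 7629086806454))
(.leaf 66722495840649644))))))
(.node (.node (.node (.node (.node (.node (.leaf 45328398100373568)
(.leaf 70668643206955452))
(.node (.leaf 66721807638921564)
(.leaf 1106777989546)))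
(.node (.node (.leaf 66723180484641056)
(.leaf 1444323674))
(.node (.leaf 28433439902077370)
(.leaf 7518020022))))
(.node (.node (.node (.leaf 46452924456558708)
(.leaf 162))
(.node (.leaf 46451349010293126)
(.leaf 15603114656172)))
(.node (.node (.leaf 25055052818682206)
(.leaf 4266867057018))
(.node (.leaf 45884964156973490)
(.leaf 17323248746600)))))
(.node (.node (.node (.node (.leaf 34629601716731908)
(.leaf 2064093338))
(.node (.leaf 28433439901815166)
(.leaf 1679516082)))
(.node (.node (.leaf 25055052818518338)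
(.leaf 16086449193308))
(.node (.leaf 38005039064408490)
(.leaf 115))))
(.node (.node (.node (.leaf 75171208786444550)
(.leaf 5429593674046))
(.node (.leaf 1716641)
(.leaf 2116134511453998494945636)))
(.node (.node (.leaf 39689351828218206)
(.leaf 1663378))
(.leaf 57152548697272752)))))
(.node (.node (.node (.node (.node (.leaf 8179581190148)
(.leaf 8591998365774))
(.node (.leaf 74046341450744168)
(.leaf 3855758336430)))
(.node (.node (.leaf 43073510374072626)
(.leaf 1779884386))
(.node (.leaf 36873916611502506)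
(.leaf 7148626314))))
(.node (.node (.node (.leaf 15053207035910)
(.leaf 15327531483416))
(.node (.leaf 61092995568009592)
(.leaf 17801835954612)))
(.node (.node (.leaf 32932853076844890)
(.leaf 6444007800))
(.leaf 48139787224998326))))
(.node (.node (.node (.node (.leaf 7217273585764)
(.leaf 142))
(.node (.leaf 39694162929901946)
(.leaf 2481301742006)))
(.node (.node (.leaf 66725243142881600)
(.leaf 7766559322502))
(.node (.leaf 39689490811019694)
(.leaf 310))))
(.node (.node (.node (.leaf 1159449)
(.leaf 6254428770654))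
(.node (.leaf 1749417)
(.leaf 2097238126040622114615725)))
(.node (.node (.leaf 47014160853541222)
(.leaf 3168429351338))
(.leaf 61096844664242608)))))))))
(.node (.node (.node (.node (.node (.node (.node (.node (.node (.leaf 3)
(.leaf 72914670450360756))
(.node (.leaf 48140198199353706)
(.leaf 3168496460202)))
(.node (.node (.leaf 28433439901438234)
(.leaf 7491614290282))
(.node (.leaf 1798581)
(.leaf 2116134512316491847958965))))
(.node (.node (.node (.leaf 9415222689906)
(.leaf 134))
(.node (.leaf 40815664723157370)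
(.leaf 605807030)))
(.node (.node (.leaf 72357491120603468)
(.leaf 1105905344886))
(.node (.leaf 42506714277962158)
(.leaf 97)))))
(.node (.node (.node (.node (.leaf 8317053722628)
(.leaf 1996968064))
(.node (.leaf 1536373)
(.leaf 941302190)))
(.node (.node (.leaf 61095605498511660)
(.leaf 7839809970534))
(.node (.leaf 35748153942303146)
(.leaf 1450083))))
(.node (.node (.node (.leaf 16702474371276)
(.leaf 3121758496))
(.node (.leaf 69539031777034620)
(.leaf 8667431885502994770942980340)))
(.node (.node (.leaf 32933265326612826)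
(.leaf 15468443730296))
(.leaf 48703012056326586)))))
(.node (.node (.node (.node (.node (.leaf 45328399308636224)
(.leaf 9966522363936))
(.node (.leaf 66725655929618780)
(.leaf 1106845098410)))
(.node (.node (.leaf 296)
(.leaf 6190542496094))
(.node (.leaf 31811826985177534)
(.leaf 2116129897527037931180459))))
(.node (.node (.node (.leaf 11752322662516)
(.leaf 156))
(.node (.leaf 26669533855958)
(.leaf 3155952044)))
(.node (.node (.leaf 26744315096502622)
(.leaf 6603463483770))
(.node (.leaf 44759201554882994)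
(.leaf 363)))))
(.node (.node (.node (.node (.leaf 35192826548084740)
(.leaf 8454492606624))
(.node (.leaf 32932853546721654)
(.leaf 7016720081330)))
(.node (.node (.leaf 23928877966676302)
(.leaf 16773711053152))
(.node (.leaf 39130938702815658)
(.leaf 1769853))))
(.node (.node (.node (.leaf 211)
(.leaf 6941757788490))
(.node (.leaf 22239615689232794)
(.leaf 516634402416607281507)))
(.node (.node (.leaf 40257387224260958)
(.leaf 6054110437778))
(.leaf 61080489764258220))))))
(.node (.node (.node (.node (.node (.node (.leaf 43075087900885032)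
(.leaf 72357080951685556))
(.node (.leaf 63346444380553564)
(.leaf 969339019690)))
(.node (.node (.leaf 61096842046341396)
(.leaf 773202266))
(.node (.leaf 27870352476164530)
(.leaf 2116132205628376483283375))))
(.node (.node (.node (.leaf 9552695197812)
(.leaf 154))
(.node (.leaf 44759200682238334)
(.leaf 13815786443180)))
(.node (.node (.leaf 1503597)
(.leaf 6053640577398))
(.node (.leaf 45324350263091634)
(.leaf 1067288278154992403161144)))))
(.node (.node (.node (.node (.leaf 8317053788164)
(.leaf 2030522512))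
(.node (.leaf 25055052818796922)
(.leaf 6466897158574)))
(.node (.node (.leaf 1339717)
(.leaf 15949077332316))
(.node (.leaf 36874328727085482)
(.leaf 115361690729663922558))))
(.node (.node (.node (.leaf 16702474371320)
(.leaf 3578531111210))
(.node (.leaf 400)
(.leaf 2116129876142225123328226)))
(.node (.node (.leaf 36879137747935578)
(.leaf 14162773721468))
(.leaf 30793709338880)))))
(.node (.node (.node (.node (.node (.leaf 34629737309700100)
(.leaf 10516378882124))
(.node (.leaf 71226506777919840)
(.leaf 6192086327726)))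
(.node (.node (.leaf 34064249535013162)
(.leaf 504783202))
(.node (.leaf 35750490471604650)
(.leaf 126130621235114416))))
(.node (.node (.node (.leaf 15465523790012)
(.leaf 940663058))
(.node (.leaf 56026373845184888)
(.leaf 16774718030256)))
(.node (.node (.leaf 23928877966791018)
(.leaf 639148418))
(.leaf 47008802412421558))))
(.node (.node (.node (.node (.leaf 40258962771353690)
(.leaf 1560621164))
(.node (.leaf 35185615366037878)
(.leaf 1142677938)))
(.node (.node (.leaf 23095315546364)
(.leaf 18077720166760))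
(.node (.leaf 40817727381381550)
(.leaf 426))))
(.node (.node (.node (.leaf 220)
(.leaf 15673662456128))
(.node (.leaf 57152548697076120)
(.leaf 8667686869059735943655395681)))
(.node (.node (.leaf 44761673845088610)
(.leaf 7333405098))
(.leaf 67850045350429104)))))))
(.node (.node (.node (.node (.node (.node (.node (.leaf 39696700750708764)
(.leaf 63349881428509108))
(.node (.leaf 25019930771708)
(.leaf 5505025778090)))
(.node (.node (.leaf 35191111111811346)
(.leaf 693051466074))
(.node (.leaf 24491965393031594)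
(.leaf 30793810034788))))
(.node (.node (.node (.leaf 9415826817138)
(.leaf 146))
(.node (.leaf 44193501681295742)
(.leaf 1276895674)))
(.node (.node (.leaf 1438045)
(.leaf 874013046))
(.node (.leaf 43630415161581998)
(.leaf 401)))))
(.node (.node (.node (.node (.leaf 8179581247492)
(.leaf 2064085128))
(.node (.leaf 1601925)
(.leaf 6329458188718)))
(.node (.node (.leaf 314)
(.leaf 1947656554))
(.node (.leaf 36313715235856810)
(.leaf 30788005118383))))
(.node (.node (.node (.leaf 15877840658658)
(.leaf 1343414570))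
(.node (.leaf 71794130058510720)
(.leaf 35502766514045531652721740231093)))
(.node (.node (.leaf 35750488860664154)
(.leaf 4044882300))
(.leaf 30518831399142)))))
(.node (.node (.node (.node (.node (.leaf 46454023364100174)
(.leaf 855838796))
(.node (.leaf 71229942818849120)
(.leaf 874242474)))
(.node (.node (.leaf 1274165)
(.leaf 6465554637150))
(.node (.leaf 34058754460410282)
(.leaf 1835454))))
(.node (.node (.node (.leaf 16702474371252)
(.leaf 238))
(.node (.leaf 26944545997048)
(.leaf 4179329456)))
(.node (.node (.leaf 28996527327711586)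
(.leaf 1679303038))
(.node (.leaf 46450525047873970)
(.leaf 192)))))
(.node (.node (.node (.node (.leaf 35192826615226372)
(.leaf 8454526169256))
(.node (.leaf 36879138217812342)
(.leaf 2206356726194)))
(.node (.node (.leaf 34623214161551682)
(.leaf 13337670123872))
(.node (.leaf 40252303459688878)
(.leaf 1179873))))
(.node (.node (.node (.leaf 215)
(.leaf 1611981122))
(.node (.leaf 35185615835898258)
(.leaf 8588468774728265811176595885)))
(.node (.node (.leaf 44193638650372450)
(.leaf 5979483738538))
(.leaf 66721671206928812))))))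
(.node (.node (.node (.node (.node (.node (.leaf 35192824702083116)
(.leaf 70668368329048508))
(.node (.leaf 66725793435664732)
(.leaf 3443441508778)))
(.node (.node (.leaf 66722355850920224)
(.leaf 5915798839642))
(.node (.leaf 31248739559166390)
(.leaf 505082101136887582978))))
(.node (.node (.node (.leaf 11889157505140)
(.leaf 152))
(.node (.leaf 47576973837902210)
(.leaf 1769900)))
(.node (.node (.leaf 23928877966856538)
(.leaf 1792965894522))
(.node (.leaf 45882490255810994)
(.leaf 16771345424742)))))
(.node (.node (.node (.node (.leaf 34066651763302404)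
(.leaf 2097639576))
(.node (.leaf 27870352475951486)
(.leaf 6879348220338)))
(.node (.node (.leaf 22239615688872254)
(.leaf 13887425937756))
(.node (.leaf 38002702602199466)
(.leaf 445))))
(.node (.node (.node (.leaf 74608258833015046)
(.leaf 3792929068))
(.node (.leaf 1700253)
(.leaf 2116134489798360937746658)))
(.node (.node (.leaf 32938762817642846)
(.leaf 7079230304666))
(.leaf 56589461271245228)))))
(.node (.node (.node (.node (.node (.leaf 6667383554052)
(.leaf 8591998218282))
(.node (.leaf 72357216913899880)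
(.leaf 1381857173934)))
(.node (.node (.leaf 40821023365620014)
(.leaf 1746313570))
(.node (.leaf 36315776954343850)
(.leaf 260562796409640935805))))
(.node (.node (.node (.leaf 73482358926164166)
(.leaf 4094820628))
(.node (.leaf 61092170934288760)
(.leaf 17801634628020)))
(.node (.node (.leaf 31811826984833386)
(.leaf 1947771270))
(.leaf 48137175884882358))))
(.node (.node (.node (.node (.leaf 7079431856228)
(.leaf 128))
(.node (.leaf 32936426825310586)
(.leaf 1813750198)))
(.node (.node (.leaf 62783768499634496)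
(.leaf 7354141774210))
(.node (.leaf 41383013394358702)
(.leaf 427))))
(.node (.node (.node (.leaf 1143061)
(.leaf 5567066190170))
(.node (.leaf 424)
(.leaf 8588416880577582611356352554)))
(.node (.node (.leaf 38569911619330406)
(.leaf 694528188842))
(.leaf 61094095885173168))))))))
(.node (.node (.node (.node (.node (.node (.node (.node (.leaf 1031010418696)
(.leaf 72916319717802420))
(.node (.leaf 25019930755308)
(.leaf 694662406570)))
(.node (.node (.leaf 32933951178891538)
(.leaf 135651674))
(.node (.leaf 1831357)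
(.leaf 126131445902491726))))
(.node (.node (.node (.leaf 11201929150578)
(.leaf 158))
(.node (.leaf 40820475086528890)
(.leaf 1847321014)))
(.node (.node (.leaf 344)
(.leaf 5916268716406))
(.node (.leaf 40255052104573358)
(.leaf 407)))))
(.node (.node (.node (.node (.leaf 8454526246916)
(.leaf 2064076932))
(.node (.leaf 1569149)
(.leaf 1519094817198)))
(.node (.node (.leaf 62782393841566000)
(.leaf 706142570))
(.node (.leaf 35752964305674666)
(.leaf 121908220701184378))))
(.node (.node (.node (.leaf 17664647766224)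
(.leaf 3524411680))
(.node (.leaf 71226507247796604)
(.leaf 516633839334113948032)))
(.node (.node (.leaf 32938075689984346)
(.leaf 12925621797240))
(.leaf 30518697181400)))))
(.node (.node (.node (.node (.node (.leaf 41948913015472198)
(.leaf 10516378882088))
(.node (.leaf 68415055545647456)
(.leaf 5917208469930)))
(.node (.node (.leaf 1241389)
(.leaf 940974430))
(.node (.leaf 32932854419349930)
(.leaf 30793809989996))))
(.node (.node (.node (.leaf 6529776369780)
(.leaf 172))
(.node (.leaf 26944545980648)
(.leaf 3793486252)))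
(.node (.node (.leaf 25055052818665826)
(.leaf 471343486))
(.node (.leaf 46445577245548978)
(.leaf 244)))))
(.node (.node (.node (.node (.leaf 35192689142702084)
(.leaf 8454526161060))
(.node (.leaf 36874327854440822)
(.leaf 4542953136562)))
(.node (.node (.leaf 24491965392605522)
(.leaf 17323466867040))
(.node (.leaf 39691827340321198)
(.leaf 16773475606892))))
(.node (.node (.node (.leaf 213)
(.leaf 1792026140994))
(.node (.leaf 27870352476049822)
(.leaf 7484121454)))
(.node (.node (.leaf 40818138154443102)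
(.leaf 14365676507556))
(.leaf 63910357413609900))))))
(.node (.node (.node (.node (.node (.node (.leaf 43638175326814250)
(.leaf 69542605861159352))
(.node (.leaf 66725106240897372)
(.leaf 5779702391210)))
(.node (.node (.leaf 62782393371705624)
(.leaf 1105435468122))
(.node (.leaf 28996527328055730)
(.leaf 8667649091283917582104572331))))
(.node (.node (.node (.leaf 11339401658484)
(.leaf 168))
(.node (.leaf 47571888596623746)
(.leaf 14365676507584)))
(.node (.node (.leaf 22802703114916186)
(.leaf 3854550163834))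
(.node (.leaf 44196114162491826)
(.leaf 33453026452551975345)))))
(.node (.node (.node (.node (.leaf 8454526312452)
(.leaf 2097631380))
(.node (.leaf 22239615689118078)
(.leaf 1042014638)))
(.node (.node (.leaf 1372493)
(.leaf 12238158496092))
(.node (.leaf 36879139090457002)
(.leaf 1835108))))
(.node (.node (.node (.leaf 16702608589056)
(.leaf 1913872690))
(.node (.leaf 1667477)
(.leaf 516611315426874036468)))
(.node (.node (.leaf 32933952454271326)
(.leaf 18077686727044))
(.leaf 30793776464136)))))
(.node (.node (.node (.node (.node (.leaf 35192825306210308)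
(.leaf 1962962954))
(.node (.leaf 71230355068617056)
(.leaf 3855691227566)))
(.node (.node (.leaf 38563176439308586)
(.leaf 1712742754))
(.node (.leaf 36310966590972330)
(.leaf 30793608450478))))
(.node (.node (.node (.leaf 16977352286400)
(.leaf 1746002198))
(.node (.leaf 58278723548819840)
(.leaf 4095476144)))
(.node (.node (.leaf 28996527327678826)
(.leaf 1880662402))
(.leaf 47013887653700022))))
(.node (.node (.node (.node (.leaf 45328398100373604)
(.leaf 3675099374))
(.node (.leaf 35190425729409398)
(.leaf 572236214)))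
(.node (.node (.leaf 58278723548590412)
(.leaf 6391901286778))
(.node (.leaf 41378203030987182)
(.leaf 62))))
(.node (.node (.node (.leaf 272)
(.leaf 17527930683720))
(.node (.leaf 61080488958853524)
(.leaf 8588246833879025138282168750)))
(.node (.node (.leaf 38564826378051942)
(.leaf 7467622826))
(.leaf 61092446617731504)))))))
(.node (.node (.node (.node (.node (.node (.node (.leaf 40822875602567200)
(.leaf 68416431076409780))
(.node (.leaf 25294875803910)
(.leaf 3305801212330)))
(.node (.node (.leaf 19795975176450)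
(.leaf 5503414837594))
(.node (.leaf 22239615689331122)
(.leaf 2116128722099629815726507))))
(.node (.node (.node (.leaf 11202533277810)
(.leaf 160))
(.node (.leaf 44198449483620734)
(.leaf 7383744940)))
(.node (.node (.leaf 1470821)
(.leaf 1243277205878))
(.node (.leaf 43635225524953518)
(.leaf 1412395813382685290885139)))))
(.node (.node (.node (.node (.leaf 8454459170820)
(.leaf 2097655948))
(.node (.leaf 22239615689150838)
(.leaf 1656533787054)))
(.node (.node (.leaf 1306941)
(.leaf 3843457372))
(.node (.leaf 38563041349706154)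
(.leaf 69552225765560711))))
(.node (.node (.node (.leaf 16977352286452)
(.leaf 1444110634))
(.node (.leaf 74046204481667460)
(.leaf 302175799067482177635)))
(.node (.node (.leaf 36874327384564058)
(.leaf 12513506279804))
(.leaf 30518764306674)))))
(.node (.node (.node (.node (.node (.leaf 43638175326814286)
(.leaf 9966522363972))
(.node (.leaf 71230492574663008)
(.leaf 1381722956206)))
(.node (.node (.leaf 26744315096224054)
(.leaf 4266531397982))
(.node (.leaf 35184654031708586)
(.leaf 516631020386803331502))))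
(.node (.node (.node (.leaf 17664647766200)
(.leaf 5842011222302))
(.node (.leaf 27219491029254)
(.leaf 13201305239984)))
(.node (.node (.leaf 30122564706980198)
(.leaf 4679385244030))
(.node (.leaf 47574088492491190)
(.leaf 0)))))
(.node (.node (.node (.node (.leaf 40258962167226458)
(.leaf 8591998677164))
(.node (.leaf 38565651414540662)
(.leaf 7154159051186)))
(.node (.node (.leaf 40820473945448770)
(.leaf 17185960821088))
(.node (.leaf 40257113823060398)
(.leaf 432))))
(.node (.node (.node (.leaf 218)
(.leaf 3709108544))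
(.node (.leaf 35190426199269778)
(.leaf 2116134512298423289696297)))
(.node (.node (.leaf 44198586452697442)
(.leaf 7904031838654))
(.leaf 66723320474370476))))))
(.node (.node (.node (.node (.node (.node (.leaf 3780326375488)
(.leaf 74046343061701052))
(.node (.leaf 66722632272642396)
(.leaf 3580679152042)))
(.node (.node (.leaf 66724005118361888)
(.leaf 1380179124574))
(.node (.leaf 31811826985193914)
(.leaf 35502768374868981211601353888171))))
(.node (.node (.node (.leaf 46454023968227444)
(.leaf 170))
(.node (.leaf 48703148622651782)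
(.leaf 16015532196268)))
(.node (.node (.leaf 25618140244562270)
(.leaf 1793100112250))
(.node (.leaf 45887438058135986)
(.leaf 4094566754)))))
(.node (.node (.node (.node (.leaf 35192551670161412)
(.leaf 2097655964))
(.node (.leaf 30122564707094914)
(.leaf 2068917756338)))
(.node (.node (.leaf 27870352475656518)
(.leaf 4011213152))
(.node (.leaf 39126128339444138)
(.leaf 1769719))))
(.node (.node (.node (.leaf 16977587167498)
(.leaf 6116956254530))
(.node (.leaf 25055052818911638)
(.leaf 6393721057)))
(.node (.node (.leaf 39691825729380702)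
(.leaf 1243747066258))
(.leaf 57715636123103664)))))
(.node (.node (.node (.node (.node (.leaf 8317020151812)
(.leaf 1594200168))
(.node (.leaf 370)
(.leaf 6192220545454)))
(.node (.node (.leaf 21170700337376)
(.leaf 2754568692070))
(.node (.leaf 36876390512665002)
(.leaf 7517970864))))
(.node (.node (.node (.leaf 15053207101446)
(.leaf 15327732810008))
(.node (.leaf 61093820201730424)
(.leaf 1466475)))
(.node (.node (.leaf 33496077706846554)
(.leaf 6511116664))
(.leaf 48697926815048122))))
(.node (.node (.node (.node (.leaf 6392303861868)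
(.leaf 130))
(.node (.leaf 34623215101305210)
(.leaf 4955202904502)))
(.node (.node (.leaf 67850318080426308)
(.leaf 6393667958))
(.node (.leaf 39691964712182190)
(.leaf 406))))
(.node (.node (.node (.leaf 1175837)
(.leaf 6804285272418))
(.node (.leaf 1765805)
(.leaf 8667686962448069134263210418)))
(.node (.node (.leaf 48135112958075242)
(.leaf 5504891560362))
(.leaf 61097119542149552))))))))))

def h : Tr Nat := (.node (.node (.node (.node (.node (.node (.node (.node (.node (.node (.leaf 0)
(.leaf 0))
(.node (.leaf 0)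
(.leaf 110603862592)))
(.node (.node (.leaf 0)
(.leaf 58004406467))
(.node (.leaf 0)
(.leaf 2082195983230575430979487640857936454))))
(.node (.node (.node (.leaf 0)
(.leaf 39921965413120409717))
(.node (.leaf 0)
(.leaf 127786222156)))
(.node (.node (.leaf 0)
(.leaf 5938815040722259420598305056))
(.node (.leaf 0)
(.leaf 41146891958006776765)))))
(.node (.node (.node (.node (.leaf 0)
(.leaf 8053194754))
(.node (.leaf 0)
(.leaf 31996157962324607357)))
(.node (.node (.leaf 0)
(.leaf 67923149385))
(.node (.leaf 0)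
(.leaf 24428094458325141242413212738677078638117036905952543179605619678708637))))
(.node (.node (.node (.leaf 0)
(.leaf 37867159676))
(.node (.leaf 0)
(.leaf 315796980774242333218448400573202929032435324446114390)))
(.node (.node (.leaf 0)
(.leaf 93439852833))
(.leaf 0)))))
(.node (.node (.node (.node (.node (.leaf 0)
(.leaf 1610743810))
(.node (.leaf 0)
(.leaf 114898960965)))
(.node (.node (.leaf 0)
(.leaf 63626870897))
(.node (.leaf 0)
(.leaf 1998068354199748782334536973152955343547115589100287280435566628341504995941342123877951202525046870766232962585754730614))))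
(.node (.node (.node (.leaf 0)
(.leaf 39777955779771695225))
(.node (.leaf 0)
(.leaf 36177081715684475262)))
(.node (.node (.leaf 0)
(.leaf 86714155590))
(.node (.leaf 0)
(.leaf 4372168765927033110050376847616246718)))))
(.node (.node (.node (.node (.leaf 0)
(.leaf 12348162050))
(.node (.leaf 0)
(.leaf 123490599492)))
(.node (.node (.leaf 0)
(.leaf 19963718308017406148))
(.node (.leaf 0)
(.leaf 612953742829042496364967025204588374919030950211970460767008616533637715967066281818103929913681105184279163230873775522709106940644268628192931282686865768571928704756210571609005))))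
(.node (.node (.node (.leaf 0)
(.leaf 47265153190))
(.node (.leaf 0)
(.leaf 332755733119360164854115923151514815914253553890108197554035066613680451309094453329937716657167713268980908859671522826362370716020623208977283091095364351354560693462532080733660434840692629263251747135073535613238719653231386961687443421166829278240312441307254)))
(.node (.node (.leaf 0)
(.leaf 100671488121))
(.leaf 0))))))
(.node (.node (.node (.node (.node (.node (.leaf 0)
(.leaf 0))
(.node (.leaf 0)
(.leaf 112751215166)))
(.node (.node (.leaf 0)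
(.leaf 16503423396417437891))
(.node (.leaf 0)
(.leaf 143975998321540930834917186495817311726423290899307964732586696194387571897811429208498192657875431861419444068409861426876149045902180468))))
(.node (.node (.node (.leaf 0)
(.leaf 39705863000824676471))
(.node (.leaf 0)
(.leaf 129936785526)))
(.node (.node (.leaf 0)
(.leaf 84565360761))
(.node (.leaf 0)
(.leaf 123123818785050954661278821164659910696210059980528357357961479389174203848539211284395009637706394323569048973825887209167816725141520692930151353)))))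
(.node (.node (.node (.node (.leaf 0)
(.leaf 10200678402))
(.node (.leaf 0)
(.leaf 121342198337)))
(.node (.node (.leaf 0)
(.leaf 71956234838))
(.node (.leaf 0)
(.leaf 25321011349211291820984546216579768770107940232838251654772552865301178280500761828855580078082626679545863004340865461751351748336426904207591365117193878191089030462819595646381164317011830481016975524990983908360317746876637536551630084859822679))))
(.node (.node (.node (.leaf 0)
(.leaf 41884910153))
(.node (.leaf 0)
(.leaf 239086597255107931962512164097920088438832013207602012)))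
(.node (.node (.leaf 0)
(.leaf 95579603543))
(.leaf 0)))))
(.node (.node (.node (.node (.node (.leaf 0)
(.leaf 5368840194))
(.node (.leaf 0)
(.leaf 117047099967)))
(.node (.node (.leaf 0)
(.leaf 65776190022))
(.node (.leaf 0)
(.leaf 9016463013007315787099836136132459646093258792881979253490210719442703723641820157143766895098983138667401302083173128303322877138178448698168894036448854756525046345470906369474213789335266011098402884789853280624150852133392046438286797309437861661205381840032992883914140498236135032562462610001860253370003534121016293908304117642101321))))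
(.node (.node (.node (.leaf 0)
(.leaf 9513660729124520059))
(.node (.leaf 0)
(.leaf 136916303992)))
(.node (.node (.leaf 0)
(.leaf 88862556744))
(.leaf 0))))
(.node (.node (.node (.node (.leaf 0)
(.leaf 14495645698))
(.node (.leaf 0)
(.leaf 33725856880194290045)))
(.node (.node (.leaf 0)
(.leaf 76526584004))
(.node (.leaf 0)
(.leaf 103107462072))))
(.node (.node (.node (.leaf 0)
(.leaf 13694707626715840679))
(.node (.leaf 0)
(.leaf 46262893144237605695)))
(.node (.node (.leaf 0)
(.leaf 29113326307423420418))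
(.leaf 0)))))))
(.node (.node (.node (.node (.node (.node (.node (.leaf 0)
(.leaf 0))
(.node (.leaf 0)
(.leaf 111677735493)))
(.node (.node (.leaf 0)
(.leaf 4352694920510785016015683779))
(.node (.leaf 0)
(.leaf 276091164520540669115226903271299809882800512))))
(.node (.node (.node (.leaf 0)
(.leaf 39489619848892973175))
(.node (.leaf 0)
(.leaf 34590688746674651517)))
(.node (.node (.leaf 0)
(.leaf 22412322032342597920))
(.node (.leaf 0)
(.leaf 203232248772)))))
(.node (.node (.node (.node (.leaf 0)
(.leaf 9126936578))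
(.node (.leaf 0)
(.leaf 120268325439)))
(.node (.node (.leaf 0)
(.leaf 18521810091570954435))
(.node (.leaf 0)
(.leaf 312895220396486861824827230075989751575475804661028393218479295199193507683711228810693097620182))))
(.node (.node (.node (.leaf 0)
(.leaf 40821391505))
(.node (.leaf 0)
(.leaf 6052357499499727903950023930068646546816691822268657542749726746698169876310388848409261957908516532726959207231620972664)))
(.node (.node (.leaf 0)
(.leaf 94503501944))
(.leaf 0)))))
(.node (.node (.node (.node (.node (.leaf 0)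
(.leaf 3221356546))
(.node (.leaf 0)
(.leaf 31131326097454858621)))
(.node (.node (.leaf 0)
(.leaf 17368360815745630403))
(.node (.leaf 0)
(.leaf 3881594809266878444924451626532777410833740579681869318499917126831331266905282476371080055952155228839396820669028253246215817412818918923801448106266042257710999824190318213460926812589057214124503270283))))
(.node (.node (.node (.leaf 0)
(.leaf 11006641521425959349326250105))
(.node (.leaf 0)
(.leaf 135842103410)))
(.node (.node (.leaf 0)
(.leaf 23565595379328155936))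
(.node (.leaf 0)
(.leaf 1664506689967118131645318100)))))
(.node (.node (.node (.node (.leaf 0)
(.leaf 13421903874))
(.node (.leaf 0)
(.leaf 124564734539)))
(.node (.node (.leaf 0)
(.leaf 75446944343))
(.node (.leaf 0)
(.leaf 2282714187687457770486751342366838440150916204933164654130597898231664040205017193629149179776202512017353245748242001226712941485))))
(.node (.node (.node (.leaf 0)
(.leaf 49131749495))
(.node (.leaf 0)
(.leaf 3946243232008656495138595209742058066)))
(.node (.node (.leaf 0)
(.leaf 7351293745430709749351907690))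
(.leaf 0))))))
(.node (.node (.node (.node (.node (.node (.leaf 0)
(.leaf 0))
(.node (.leaf 0)
(.leaf 113825612361)))
(.node (.node (.leaf 0)
(.leaf 62554047045))
(.node (.leaf 0)
(.leaf 5340366628643541978697806917606839107031181961212296922187258387366273))))
(.node (.node (.node (.leaf 0)
(.leaf 40066080601196527737))
(.node (.leaf 0)
(.leaf 35888499367472267267)))
(.node (.node (.leaf 0)
(.leaf 85640151615))
(.node (.leaf 0)
(.leaf 1111282111735099523349124135408894894)))))
(.node (.node (.node (.node (.leaf 0)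
(.leaf 11274420226))
(.node (.leaf 0)
(.leaf 32860989829610275197)))
(.node (.node (.leaf 0)
(.leaf 73029976662))
(.node (.leaf 0)
(.leaf 148050764248447905428930637910774363401278209532499461609995177291774478951833754001170734365136540630215750319599778588251197467441260572360882389993733581473454178218324847143773737501126944276563072180204572322464824783221941796781625594726761891788936803676313669322597195436637539674902942293233216500285164379817443926))))
(.node (.node (.node (.leaf 0)
(.leaf 43237441682))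
(.node (.leaf 0)
(.leaf 28839618907277326028051548100863436948322830126658199183614877743881752308548844264005846788956549677170)))
(.node (.node (.leaf 0)
(.leaf 99078701417))
(.leaf 0)))))
(.node (.node (.node (.node (.node (.leaf 0)
(.leaf 6979452930))
(.node (.leaf 0)
(.leaf 118120972865)))
(.node (.node (.leaf 0)
(.leaf 17945138229813772483))
(.node (.leaf 0)
(.leaf 84566076676503277677731712679584715646202715824064645469781433739009330834657831456936079606416049467585107107408173658230451070367406862524942354419896279930600598104596144260924589084065884680884591180822378500224939700810978945613274687717764215242087122360487307445142))))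
(.node (.node (.node (.leaf 0)
(.leaf 36793417852))
(.node (.leaf 0)
(.leaf 138003546494)))
(.node (.node (.leaf 0)
(.leaf 89936691795))
(.leaf 0))))
(.node (.node (.node (.node (.leaf 0)
(.leaf 25770065923))
(.node (.leaf 0)
(.leaf 34014157624284873085)))
(.node (.node (.leaf 0)
(.leaf 81360126240))
(.node (.leaf 0)
(.leaf 58590635136333382585))))
(.node (.node (.node (.leaf 0)
(.leaf 52097122471))
(.node (.leaf 0)
(.leaf 389842651241006910377281101961617417379851707833306871893645697911390974748285976836246680173397191689295470196654676850146992772056404888888036239893165329060289070617038326087035507399621064592866863859108619563282479807277870231127978108450499099337691244462674)))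
(.node (.node (.leaf 0)
(.leaf 7892458054973662021659459965))
(.leaf 0))))))))
(.node (.node (.node (.node (.node (.node (.node (.node (.leaf 0)
(.leaf 0))
(.node (.leaf 0)
(.leaf 111140733504)))
(.node (.node (.leaf 0)
(.leaf 16070901786558464002))
(.node (.leaf 0)
(.leaf 238643774272))))
(.node (.node (.node (.leaf 0)
(.leaf 40138173380143153269))
(.node (.leaf 0)
(.leaf 34446538373958271357)))
(.node (.node (.leaf 0)
(.leaf 82955141701))
(.node (.leaf 0)
(.leaf 40285569983)))))
(.node (.node (.node (.node (.leaf 0)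
(.leaf 8590065666))
(.node (.leaf 0)
(.leaf 32140273150400463229)))
(.node (.node (.leaf 0)
(.leaf 18377624532603437251))
(.node (.leaf 0)
(.leaf 20431269701437142671202774965109196470641020685978291243108498189311621214933258164930129624948097253824695909010982535169336818219583119800010945277091701070120080439565700395766544143114945742981322283464078027296379135697478627655428254398152820))))
(.node (.node (.node (.leaf 0)
(.leaf 10308405456058384508))
(.node (.leaf 0)
(.leaf 29730291180502000035797457239236342157664479809274930155684692)))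
(.node (.node (.leaf 0)
(.leaf 93966631032))
(.leaf 0)))))
(.node (.node (.node (.node (.node (.leaf 0)
(.leaf 2416050178))
(.node (.leaf 0)
(.leaf 115436094023)))
(.node (.node (.leaf 0)
(.leaf 17224245627669774531))
(.node (.leaf 0)
(.leaf 4200641699951498362249328101258036114))))
(.node (.node (.node (.leaf 0)
(.leaf 10929270268970552712327135353))
(.node (.leaf 0)
(.leaf 36321196903760331134)))
(.node (.node (.leaf 0)
(.leaf 23421409824118735136))
(.node (.leaf 0)
(.leaf 49518657990841344939350247737744737006754943395123290927857784)))))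
(.node (.node (.node (.node (.leaf 0)
(.leaf 12885032962))
(.node (.leaf 0)
(.leaf 124027863627)))
(.node (.node (.leaf 0)
(.leaf 74910073431))
(.node (.leaf 0)
(.leaf 2282714188201890365303288417645944838041368400832662435869800629910869471085135363954526133112240037427604008207721759897487868845))))
(.node (.node (.node (.leaf 0)
(.leaf 3501601698625005149654417574))
(.node (.leaf 0)
(.leaf 5500327444464319520543884147108691868982963602863682091029027331466184783102827)))
(.node (.node (.leaf 0)
(.leaf 101494751594))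
(.leaf 0))))))
(.node (.node (.node (.node (.node (.node (.leaf 0)
(.leaf 0))
(.node (.leaf 0)
(.leaf 113288217152)))
(.node (.node (.leaf 0)
(.leaf 16647538584493293763))
(.node (.leaf 0)
(.leaf 1444934734328959215081193597622101821276111854601978406768537118886125468838504522130201659040269794238845856012151488730975587562442907136501521186733475783709790923240437981026317043736621166075048409310781038809786734719286370604837246837063944758493302))))
(.node (.node (.node (.leaf 0)
(.leaf 10909918010979637718165422199))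
(.node (.leaf 0)
(.leaf 133171708286)))
(.node (.node (.leaf 0)
(.leaf 85101707377))
(.node (.leaf 0)
(.leaf 46890159737606268016981969188388574637433168405906533986017574656240667009491276535432399149733515295525806235376488891500706393285026118917731404540488640545673937702414797426413454568682226292908718305883594686803391498413796401532526933964839968716795946932425493690011760891445540861438955672115524878552613875897688534873522252629522034715322463678926553439236003333059)))))
(.node (.node (.node (.node (.leaf 0)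
(.leaf 10737549314))
(.node (.leaf 0)
(.leaf 32716874641534419325)))
(.node (.node (.leaf 0)
(.leaf 72493105750))
(.node (.leaf 0)
(.leaf 106221214043337473930164305135540530783580930781143210983296729000792514377127358280514981896294627788583617375464541029233889168328819496073023133822885553535398512007131916364082325218588315605615870218621541418985933282691465461470921746983474783375823223123911241429783542563415))))
(.node (.node (.node (.leaf 0)
(.leaf 11387650881217691793))
(.node (.leaf 0)
(.leaf 594299374507506348867873223217401082883683900779415261321267510818175112381905750552319509836564945296792994954382840641039496634112864094271592729938448011823398564569723175254389944802026634446486194668317749911924158488645494318553749874048669348311830509222402161407896381174071283706178915859571966823003062388)))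
(.node (.node (.leaf 0)
(.leaf 96392642849))
(.leaf 0)))))
(.node (.node (.node (.node (.node (.leaf 0)
(.leaf 6442582018))
(.node (.leaf 0)
(.leaf 117584101953)))
(.node (.node (.leaf 0)
(.leaf 17800987856292085955))
(.node (.leaf 0)
(.leaf 128785972431479159055693698176325835606235511356227524225988525656756066373350558224875881706720841630283))))
(.node (.node (.node (.leaf 0)
(.leaf 9657916656836214907))
(.node (.leaf 0)
(.leaf 137453174904)))
(.node (.node (.leaf 0)
(.leaf 23998152053009482016))
(.leaf 0))))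
(.node (.node (.node (.node (.leaf 0)
(.leaf 22548709378))
(.node (.leaf 0)
(.leaf 33869972068270145917)))
(.node (.node (.leaf 0)
(.leaf 79749513504))
(.node (.leaf 0)
(.leaf 58446519948257526713))))
(.node (.node (.node (.leaf 0)
(.leaf 13838822814791696551))
(.node (.leaf 0)
(.leaf 2082241621244120614511600000091816137)))
(.node (.node (.leaf 0)
(.leaf 29257511865317195778))
(.leaf 0)))))))
(.node (.node (.node (.node (.node (.node (.node (.leaf 0)
(.leaf 0))
(.node (.leaf 0)
(.leaf 112214344254)))
(.node (.node (.leaf 0)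
(.leaf 60942516337))
(.node (.leaf 0)
(.leaf 1452277046785979813941617607158960583185122171804048638395545833307769872205563824562122559303284132573338329261538457834785873329877645024204139344441765364767614300030270761021607812800005439919420858208332122897406898653406480169182822054696749541294664))))
(.node (.node (.node (.leaf 0)
(.leaf 39633770221877788791))
(.node (.leaf 0)
(.leaf 34734803934750507389)))
(.node (.node (.leaf 0)
(.leaf 22556437220418453792))
(.node (.leaf 0)
(.leaf 702264753536148994533497105633941420349034299326508357106349629085792326478106553826884481088401557295158935136472458401535847229250997028164641944971138038223029298725821)))))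
(.node (.node (.node (.node (.leaf 0)
(.leaf 9663807490))
(.node (.leaf 0)
(.leaf 32428573895564788093)))
(.node (.node (.leaf 0)
(.leaf 71417593970))
(.node (.leaf 0)
(.leaf 16526611929733615969749617906907338615821498069918735672255049277243684))))
(.node (.node (.node (.leaf 0)
(.leaf 11098998167778427025))
(.node (.leaf 0)
(.leaf 98272457805694846915956555451926243675962049004058285487516358332133506373302925714295379618835869270719)))
(.node (.node (.leaf 0)
(.leaf 95040045172))
(.leaf 0)))))
(.node (.node (.node (.node (.node (.leaf 0)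
(.leaf 4563533826))
(.node (.leaf 0)
(.leaf 31275441285530714493)))
(.node (.node (.leaf 0)
(.leaf 65239319110))
(.node (.leaf 0)
(.leaf 2077013827615565834489920951173055050))))
(.node (.node (.node (.leaf 0)
(.leaf 41292818920330952826))
(.node (.leaf 0)
(.leaf 136379433080)))
(.node (.node (.leaf 0)
(.leaf 88325685832))
(.node (.leaf 0)
(.leaf 1896620447333126933188903892)))))
(.node (.node (.node (.node (.leaf 0)
(.leaf 13958774786))
(.node (.leaf 0)
(.leaf 125101343304)))
(.node (.node (.leaf 0)
(.leaf 75983815255))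
(.node (.leaf 0)
(.leaf 2567124927094064654417865329176377957847971494063974650042859488839309233170996171953064746933831813523768809948605055127948230770))))
(.node (.node (.node (.leaf 0)
(.leaf 50486509735))
(.node (.leaf 0)
(.leaf 38453058553691705781532399380396429021406830165868945441054829347954439958070823408070096952588389742908019423922608571641485224004739918574846545)))
(.node (.node (.leaf 0)
(.leaf 106864902525))
(.leaf 0))))))
(.node (.node (.node (.node (.node (.node (.leaf 0)
(.leaf 0))
(.node (.leaf 0)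
(.leaf 114362090053)))
(.node (.node (.leaf 0)
(.leaf 16935909700549279939))
(.node (.leaf 0)
(.leaf 24855797341355972715173104747253751226622214077036225449232941728100550072266130747006210805902921098970769826581053666662464003176171549822570864860876768144629122384257093151305942550847324530288206727618958428857319710313535323948648049449238646))))
(.node (.node (.node (.leaf 0)
(.leaf 10890565752988722724003971193))
(.node (.leaf 0)
(.leaf 134245450110)))
(.node (.node (.leaf 0)
(.leaf 86175842423))
(.node (.leaf 0)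
(.leaf 98057808443469839123829187218224754837853923801236413)))))
(.node (.node (.node (.node (.leaf 0)
(.leaf 11811291138))
(.node (.leaf 0)
(.leaf 33005210569997091197)))
(.node (.node (.leaf 0)
(.leaf 73566847574))
(.node (.leaf 0)
(.leaf 237594477486))))
(.node (.node (.node (.leaf 0)
(.leaf 46728282278))
(.node (.leaf 0)
(.leaf 781292235702693633842093313616427519671688733764877459389348896620904140787913170179664289410496086981080574638105300086775171517146140227578722903037585102898447063842930)))
(.node (.node (.leaf 0)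
(.leaf 7215450151112388756456145257))
(.leaf 0)))))
(.node (.node (.node (.node (.node (.leaf 0)
(.leaf 7516323842))
(.node (.leaf 0)
(.leaf 118657974854)))
(.node (.node (.leaf 0)
(.leaf 18089288604140765379))
(.node (.leaf 0)
(.leaf 3935871318182638098462526021123506881))))
(.node (.node (.node (.leaf 0)
(.leaf 37330288764))
(.node (.leaf 0)
(.leaf 138540417406)))
(.node (.node (.leaf 0)
(.leaf 90476511346))
(.leaf 0))))
(.node (.node (.node (.node (.leaf 0)
(.leaf 39849907819082350707))
(.node (.leaf 0)
(.leaf 127249351244)))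
(.node (.node (.leaf 0)
(.leaf 81896997152))
(.node (.leaf 0)
(.leaf 11857432572023237955148514237))))
(.node (.node (.node (.leaf 0)
(.leaf 55856922819))
(.node (.leaf 0)
(.leaf 276091164520540669134569716385767192959779200)))
(.node (.node (.leaf 0)
(.leaf 110066860606))
(.leaf 0)))))))))
(.node (.node (.node (.node (.node (.node (.node (.node (.node (.leaf 0)
(.leaf 0))
(.node (.leaf 0)
(.leaf 110872298048)))
(.node (.node (.leaf 0)
(.leaf 59346583747))
(.node (.leaf 0)
(.leaf 747567973419338611609984872108577692101238872968599728825478179082043416067009881433374650972508244813814688746951437866292764591108960313272430638998127445485701864030327))))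
(.node (.node (.node (.leaf 0)
(.leaf 39561712627839729781))
(.node (.leaf 0)
(.leaf 34374480779920343421)))
(.node (.node (.leaf 0)
(.leaf 82686706245))
(.node (.leaf 0)
(.leaf 39273394513020650429)))))
(.node (.node (.node (.node (.leaf 0)
(.leaf 8321630210))
(.node (.leaf 0)
(.leaf 32068215556362535293)))
(.node (.node (.leaf 0)
(.leaf 68191584841))
(.node (.leaf 0)
(.leaf 3323149861798636618628776766691148351))))
(.node (.node (.node (.leaf 0)
(.leaf 10236347862020456572))
(.node (.leaf 0)
(.leaf 111503167618238524926234641960706719433805900664472412)))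
(.node (.node (.leaf 0)
(.leaf 93697736818))
(.leaf 0)))))
(.node (.node (.node (.node (.node (.leaf 0)
(.leaf 2147614722))
(.node (.leaf 0)
(.leaf 115167658567)))
(.node (.node (.leaf 0)
(.leaf 63895306353))
(.node (.leaf 0)
(.leaf 17640877011907424192763003263))))
(.node (.node (.node (.leaf 0)
(.leaf 40354416532075118713))
(.node (.leaf 0)
(.leaf 36249139309722403198)))
(.node (.node (.leaf 0)
(.leaf 86982591046))
(.node (.leaf 0)
(.leaf 98132138296618709966491281397280681144174070767978254314505134)))))
(.node (.node (.node (.node (.leaf 0)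
(.leaf 12616597506))
(.node (.leaf 0)
(.leaf 123759034948)))
(.node (.node (.leaf 0)
(.leaf 74641637975))
(.node (.leaf 0)
(.leaf 612761424027644260272194804690307649150480873541506520666780681482205910449851888766646969888177041223062928614141391377190361163544593325))))
(.node (.node (.node (.leaf 0)
(.leaf 47533588646))
(.node (.leaf 0)
(.leaf 2204341372069247461992763308469629264018384464864286322060706543934273242708866757545983343853961489490436416498977374609979342966)))
(.node (.node (.leaf 0)
(.leaf 100939923577))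
(.leaf 0))))))
(.node (.node (.node (.node (.node (.node (.leaf 0)
(.leaf 0))
(.node (.leaf 0)
(.leaf 113019781696)))
(.node (.node (.leaf 0)
(.leaf 16575480990455365827))
(.node (.leaf 0)
(.leaf 143975998321540930845004100082094298404766725165453992746108515307558237956759356380467049303874634766804252130175598974980234590605934710))))
(.node (.node (.node (.leaf 0)
(.leaf 40282323753128099959))
(.node (.leaf 0)
(.leaf 132634837374)))
(.node (.node (.leaf 0)
(.leaf 84833796217))
(.node (.leaf 0)
(.leaf 123123818785050954661278821164659910696210059980528357357961479389174203848539211284395009637706394323570442770405987669972697535162091711853495225)))))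
(.node (.node (.node (.node (.leaf 0)
(.leaf 10469113858))
(.node (.leaf 0)
(.leaf 121610633793)))
(.node (.node (.leaf 0)
(.leaf 72224670294))
(.node (.leaf 0)
(.leaf 6578398249084600554025452246))))
(.node (.node (.node (.leaf 0)
(.leaf 42153345609))
(.node (.leaf 0)
(.leaf 20590929137983706682556269354344705599655366123556286226957140)))
(.node (.node (.leaf 0)
(.leaf 95848038999))
(.leaf 0)))))
(.node (.node (.node (.node (.node (.leaf 0)
(.leaf 5637275650))
(.node (.leaf 0)
(.leaf 117315535423)))
(.node (.node (.leaf 0)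
(.leaf 17728930262254158019))
(.node (.leaf 0)
(.leaf 6093628022535759266528763612741404552321200540155200901816760575311259085821068916980444836114126133558062845255996122194826529626234089106484496379935918365023462597949459309180227969789245052230776859951581361662722425869192716710817961228290928761369187142772908995689911657037019284041))))
(.node (.node (.node (.leaf 0)
(.leaf 9585718323162447995))
(.node (.leaf 0)
(.leaf 137184739448)))
(.node (.node (.leaf 0)
(.leaf 23926094458971554080))
(.leaf 0))))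
(.node (.node (.node (.node (.leaf 0)
(.leaf 17180000258))
(.node (.leaf 0)
(.leaf 33797914474232217981)))
(.node (.node (.leaf 0)
(.leaf 77063454916))
(.node (.leaf 0)
(.leaf 205381174201))))
(.node (.node (.node (.leaf 0)
(.leaf 51286704726))
(.node (.leaf 0)
(.leaf 536353716722343341531285112603021894090872191047285630969258836280058264007151466585106776245680591673957208899250311807838650487)))
(.node (.node (.leaf 0)
(.leaf 29185419086370308098))
(.leaf 0)))))))
(.node (.node (.node (.node (.node (.node (.node (.leaf 0)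
(.leaf 0))
(.node (.leaf 0)
(.leaf 111946170949)))
(.node (.node (.leaf 0)
(.leaf 60674080881))
(.node (.leaf 0)
(.leaf 65115615883624212802209464678090365038405369793558537131626473971775498062516050698056051364824727542670630622509717992701446944950236540122588441536631232329326308242275084382282753676875066049107))))
(.node (.node (.node (.leaf 0)
(.leaf 39994023007158468727))
(.node (.leaf 0)
(.leaf 34662746340712579453)))
(.node (.node (.leaf 0)
(.leaf 22484379626380525856))
(.node (.leaf 0)
(.leaf 97468482501)))))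
(.node (.node (.node (.node (.leaf 0)
(.leaf 9395372034))
(.node (.leaf 0)
(.leaf 120536760895)))
(.node (.node (.leaf 0)
(.leaf 18593867685608882371))
(.node (.leaf 0)
(.leaf 14639729182126006080292041602741119667094095726898165868040480992504042483152500715989654796293642908412742457327824478186869455741258227880606954355651507177413399012825162865451003327196153684641749270646))))
(.node (.node (.node (.leaf 0)
(.leaf 11026870203922579601))
(.node (.leaf 0)
(.leaf 200673749805624339999211730453329363491054740626248095239613694349452322262581103592763140505799373369884415476698441556212668197177115434004913681149682737802781560712118744973952)))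
(.node (.node (.leaf 0)
(.leaf 25440025085083844897))
(.leaf 0)))))
(.node (.node (.node (.node (.node (.leaf 0)
(.leaf 3489660929))
(.node (.leaf 0)
(.leaf 31203383691492786557)))
(.node (.node (.leaf 0)
(.leaf 64970752577))
(.node (.leaf 0)
(.leaf 803466661137113910445023184474927254840893301231516568877055822819257190714838652882925845179696941618518747154353856951602181481273301628085098169722556873955898625328937377595506))))
(.node (.node (.node (.leaf 0)
(.leaf 41220761326293024890))
(.node (.leaf 0)
(.leaf 36536929751837114750)))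
(.node (.node (.leaf 0)
(.leaf 23637652973366083872))
(.node (.leaf 0)
(.leaf 1761220755536288465621812180)))))
(.node (.node (.node (.node (.leaf 0)
(.leaf 13690339330))
(.node (.leaf 0)
(.leaf 124832907848)))
(.node (.node (.leaf 0)
(.leaf 75715379799))
(.node (.leaf 0)
(.leaf 843314644514346301975349118105091201151074424))))
(.node (.node (.node (.leaf 0)
(.leaf 13261148326205128870))
(.node (.leaf 0)
(.leaf 276091164520540669153912529500199261741908352)))
(.node (.node (.leaf 0)
(.leaf 104717418877))
(.leaf 0))))))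
(.node (.node (.node (.node (.node (.node (.leaf 0)
(.leaf 0))
(.node (.leaf 0)
(.leaf 114094047817)))
(.node (.node (.leaf 0)
(.leaf 62822482501))
(.node (.leaf 0)
(.leaf 4024042759435770312760789608971502477))))
(.node (.node (.node (.leaf 0)
(.leaf 40210230974181343353))
(.node (.leaf 0)
(.leaf 9653097950854044625360322942)))
(.node (.node (.leaf 0)
(.leaf 85907406967))
(.node (.leaf 0)
(.leaf 2632156963391225281956439127832725759861677976010192030991727297639663750640552500658576750937756876338344836495397527424737869942)))))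
(.node (.node (.node (.node (.leaf 0)
(.leaf 11542855682))
(.node (.leaf 0)
(.leaf 122685293124)))
(.node (.node (.leaf 0)
(.leaf 73298412118))
(.node (.leaf 0)
(.leaf 104182252461))))
(.node (.node (.node (.leaf 0)
(.leaf 11677147770747551890))
(.node (.leaf 0)
(.leaf 20691411808600539335330518197104347386187323683735442417189716)))
(.node (.node (.leaf 0)
(.leaf 99615572329))
(.leaf 0)))))
(.node (.node (.node (.node (.node (.leaf 0)
(.leaf 7247888386))
(.node (.leaf 0)
(.leaf 118389539398)))
(.node (.node (.leaf 0)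
(.leaf 18017195823851700419))
(.node (.leaf 0)
(.leaf 1190901093177361768840804445015149661517574740405484775359011935480108881242333483237668))))
(.node (.node (.node (.leaf 0)
(.leaf 9947765513835708540))
(.node (.leaf 0)
(.leaf 138271981950)))
(.node (.node (.leaf 0)
(.leaf 24214395205209620768))
(.leaf 0))))
(.node (.node (.node (.node (.leaf 0)
(.leaf 39345504660816855155))
(.node (.leaf 0)
(.leaf 34086215218322801021)))
(.node (.node (.leaf 0)
(.leaf 81628561696))
(.node (.leaf 0)
(.leaf 102838633402))))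
(.node (.node (.node (.leaf 0)
(.leaf 54783180995))
(.node (.leaf 0)
(.leaf 33733415483575842088191104557973478322091877193109327958955085177351168276701074455028394876893513186007530658539300542024743583968097859668050408208400505)))
(.node (.node (.leaf 0)
(.leaf 109798425150))
(.leaf 0))))))))
(.node (.node (.node (.node (.node (.node (.node (.node (.leaf 0)
(.leaf 0))
(.node (.leaf 0)
(.leaf 111409300037)))
(.node (.node (.leaf 0)
(.leaf 16142994565527568579))
(.node (.leaf 0)
(.leaf 90190917992475096261714717708163633090014624028286754706489935))))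
(.node (.node (.node (.leaf 0)
(.leaf 10851880126761054590413111413))
(.node (.leaf 0)
(.leaf 34518595967996199293)))
(.node (.node (.leaf 0)
(.leaf 83223577157))
(.node (.leaf 0)
(.leaf 97737049024)))))
(.node (.node (.node (.node (.leaf 0)
(.leaf 8858501122))
(.node (.leaf 0)
(.leaf 119999889983)))
(.node (.node (.leaf 0)
(.leaf 18449752497533026499))
(.node (.leaf 0)
(.leaf 2030300906459594699541312768673383105))))
(.node (.node (.node (.leaf 0)
(.leaf 10380463050096312444))
(.node (.leaf 0)
(.leaf 215678939563138651074252961455099218167669151037041904942573728453471125276468392074646096991018931752735113539629721076137617940949808127117823334686399345602674464683787510016760574247026)))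
(.node (.node (.leaf 0)
(.leaf 94235066488))
(.leaf 0)))))
(.node (.node (.node (.node (.node (.leaf 0)
(.leaf 2684485634))
(.node (.leaf 0)
(.leaf 115704529479)))
(.node (.node (.leaf 0)
(.leaf 17296303221707702467))
(.node (.leaf 0)
(.leaf 665120783275457924046149408695572080795197359487095767865494146096064391611910143864244352005873072963740244989386132697247328511620088719))))
(.node (.node (.node (.leaf 0)
(.leaf 10987298708312090097621991545))
(.node (.leaf 0)
(.leaf 36393254497798259070)))
(.node (.node (.leaf 0)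
(.leaf 23493537785290228000))
(.node (.leaf 0)
(.leaf 18338653897617728721614013395)))))
(.node (.node (.node (.node (.leaf 0)
(.leaf 13153468418))
(.node (.leaf 0)
(.leaf 124296299083)))
(.node (.node (.leaf 0)
(.leaf 75178508887))
(.node (.leaf 0)
(.leaf 896329616958148757694318066682530428595863751))))
(.node (.node (.node (.leaf 0)
(.leaf 48863314039))
(.node (.leaf 0)
(.leaf 14701081087515824311400727204)))
(.node (.node (.leaf 0)
(.leaf 101763187050))
(.leaf 0))))))
(.node (.node (.node (.node (.node (.node (.leaf 0)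
(.leaf 0))
(.node (.leaf 0)
(.leaf 113556652608)))
(.node (.node (.leaf 0)
(.leaf 62285611589))
(.node (.leaf 0)
(.leaf 19793884284060234162052906537604910170949967384755822373503361))))
(.node (.node (.node (.leaf 0)
(.leaf 10948603637207341036664979575))
(.node (.leaf 0)
(.leaf 133440143742)))
(.node (.node (.leaf 0)
(.leaf 85370142833))
(.node (.leaf 0)
(.leaf 1708686236320975753186233121660129314603188353218290493395724165375884097920180871782983981004950996232002226090346355070466786222)))))
(.node (.node (.node (.node (.leaf 0)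
(.leaf 11005984770))
(.node (.leaf 0)
(.leaf 32788932235572347261)))
(.node (.node (.leaf 0)
(.leaf 72761541206))
(.node (.leaf 0)
(.leaf 129286254231496464078804361583149567538231010804601695675164967418655249137941987503754787879673085596393554443013560317237625725831512781387283927241869443276646188556271248896712447688193050137547511772574588041180514278859931768))))
(.node (.node (.node (.leaf 0)
(.leaf 11459849213817716881))
(.node (.leaf 0)
(.leaf 15611671383389861619312821084)))
(.node (.node (.leaf 0)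
(.leaf 96661078305))
(.leaf 0)))))
(.node (.node (.node (.node (.node (.leaf 0)
(.leaf 6711017474))
(.node (.leaf 0)
(.leaf 117852537409)))
(.node (.node (.leaf 0)
(.leaf 17873045450330013891))
(.node (.leaf 0)
(.leaf 17795647852458251384241587094))))
(.node (.node (.node (.leaf 0)
(.leaf 9730079927470719099))
(.node (.leaf 0)
(.leaf 36969996725346828670)))
(.node (.node (.leaf 0)
(.leaf 24070209647047409952))
(.leaf 0))))
(.node (.node (.node (.node (.leaf 0)
(.leaf 25501630467))
(.node (.leaf 0)
(.leaf 33942100030246945149)))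
(.node (.node (.leaf 0)
(.leaf 80286384416))
(.node (.leaf 0)
(.leaf 58518577542295454649))))
(.node (.node (.node (.leaf 0)
(.leaf 51828687015))
(.node (.leaf 0)
(.leaf 5313393522057564372769225938677474526151073177105290716741949671735682)))
(.node (.node (.leaf 0)
(.leaf 29329604644264083458))
(.leaf 0)))))))
(.node (.node (.node (.node (.node (.node (.node (.leaf 0)
(.leaf 0))
(.node (.leaf 0)
(.leaf 112482779710)))
(.node (.node (.leaf 0)
(.leaf 61210951793))
(.node (.leaf 0)
(.leaf 1987971589886425911991895785585802905758311565513784164872361749851914947752230671996501305279898080444080779339890950260))))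
(.node (.node (.node (.leaf 0)
(.leaf 10871222939874888657208541303))
(.node (.leaf 0)
(.leaf 129668218996)))
(.node (.node (.leaf 0)
(.leaf 84296925305))
(.node (.leaf 0)
(.leaf 17235370366655393528753401274953786916217242495066367263022318686254753484357578720455894321109499017567530632604033689969105507614314532002366116433282439261675889832950204814813945953328015287812424025999865881312334074107994250215061168688398913)))))
(.node (.node (.node (.node (.leaf 0)
(.leaf 9932242946))
(.node (.leaf 0)
(.leaf 121073762881)))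
(.node (.node (.leaf 0)
(.leaf 19243142367638126788))
(.node (.leaf 0)
(.leaf 51517171089537679449054686278943955051092838893543307044904298512695405889581424337284261179929862996261))))
(.node (.node (.node (.leaf 0)
(.leaf 11171090946725314705))
(.node (.leaf 0)
(.leaf 2482741710973016836315399325363836798576824562710886364674174053624584885568063)))
(.node (.node (.leaf 0)
(.leaf 95311168087))
(.leaf 0)))))
(.node (.node (.node (.node (.node (.leaf 0)
(.leaf 5100404738))
(.node (.leaf 0)
(.leaf 116778664511)))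
(.node (.node (.leaf 0)
(.leaf 65507754566))
(.node (.leaf 0)
(.leaf 47747888835702873846124909017903442721985364184200091904577536120677102983596606841866192044234170826866))))
(.node (.node (.node (.leaf 0)
(.leaf 35182674043))
(.node (.leaf 0)
(.leaf 136647868536)))
(.node (.node (.leaf 0)
(.leaf 88594121288))
(.node (.leaf 0)
(.leaf 3224809339464229779816043234443592663)))))
(.node (.node (.node (.node (.leaf 0)
(.leaf 14227210242))
(.node (.leaf 0)
(.leaf 125369778760)))
(.node (.node (.leaf 0)
(.leaf 76252250711))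
(.node (.leaf 0)
(.leaf 13816630629682831039459438270658672691809108611695035396460641718727826432630796803962187088736954313999568709329306374288703788756731517100419711445686761775688692302784512138611481322412125318039268688813))))
(.node (.node (.node (.leaf 0)
(.leaf 13622614847768952999))
(.node (.leaf 0)
(.leaf 55323740487618772602913663345750572502480470708063782170431111266974096777109012641366677413952055456911257417933375396760190635029424010493469070513094134594406157441181415380336484098152978093141438111759818565009528855784051438069341944197615274584486432782861792359232823021341149630442031473499536064951193089838642954749571977195051021216034468814029200158362871005300)))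
(.node (.node (.leaf 0)
(.leaf 108207079805))
(.leaf 0))))))
(.node (.node (.node (.node (.node (.node (.leaf 0)
(.leaf 0))
(.node (.leaf 0)
(.leaf 114630525509)))
(.node (.node (.leaf 0)
(.leaf 63358435441))
(.node (.leaf 0)
(.leaf 7405771277701777497309487724224374436223868257671911424931646317755162358959300554171300449486274393348974706806))))
(.node (.node (.node (.leaf 0)
(.leaf 10967946450321175103460409465))
(.node (.leaf 0)
(.leaf 134513885566)))
(.node (.node (.leaf 0)
(.leaf 86445720134))
(.node (.leaf 0)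
(.leaf 18765019615069037135181929937173024560039546754451384547891133288364731200077545071841573687881547216547445359473159955480762927836554899734840506225667170225583283206026098072671864904756420951894182618167955324385391706495498237562953004844580980)))))
(.node (.node (.node (.node (.leaf 0)
(.leaf 12079726594))
(.node (.leaf 0)
(.leaf 123222164036)))
(.node (.node (.leaf 0)
(.leaf 19819532750123630788))
(.node (.leaf 0)
(.leaf 185220030422646508951454003315476934872648540084568184))))
(.node (.node (.node (.leaf 0)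
(.leaf 46996717734))
(.node (.leaf 0)
(.leaf 6052357501528868703025754371975232329935263003586707912143739211170750573561921225219844444304677574479607325188253352056)))
(.node (.node (.leaf 0)
(.leaf 100403052665))
(.leaf 0)))))
(.node (.node (.node (.node (.node (.leaf 0)
(.leaf 7784759298))
(.node (.leaf 0)
(.leaf 118926410310)))
(.node (.node (.leaf 0)
(.leaf 67654713929))
(.node (.leaf 0)
(.leaf 27884180168003586949200595077576369019071793557007500606368488851117053502428212108581957139865210817029484276589021695600787500756466560579641818620962548986804298673806655907364560001749434937351433995526664960619197281642795317513886695332469866152490890058517818667266134902193890107609857904499076296074026935198408408179489102536775779585106095998732675538294236512372))))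
(.node (.node (.node (.leaf 0)
(.leaf 37598724220))
(.node (.leaf 0)
(.leaf 3328349764599486776204502336967868995)))
(.node (.node (.leaf 0)
(.leaf 90745077876))
(.leaf 0))))
(.node (.node (.node (.node (.leaf 0)
(.leaf 39417562254854914165))
(.node (.leaf 0)
(.leaf 127517786700)))
(.node (.node (.leaf 0)
(.leaf 22051682091706482690))
(.node (.leaf 0)
(.leaf 14488055155504671039309153213))))
(.node (.node (.node (.leaf 0)
(.leaf 57199100099))
(.node (.leaf 0)
(.leaf 53595741306878575971935681871166015156281967436043795709865274109485145913377983894682150831025272389088334139987054432967149886581305781672131520653925163631455183903317933212061004398711)))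
(.node (.node (.leaf 0)
(.leaf 110335296062))
(.leaf 0))))))))))

def l0 : List Ax := [.u1 false,
  .u2 false,
  .u2 true,
  .ex2 false 0 4 3 7 8,
  .ex2 false 0 6 5 3 4,
  .ex3 false 0 5 6 2 3 4,
  .ex3 false 0 5 6 2 8 9,
  .ex3 false 0 5 8 2 3 4,
  .ex3 false 0 6 7 2 3 4,
  .ex3 false 0 7 8 2 3 4,
  .ex2 false 0 9 8 3 4,
  .ex3 false 0 8 9 2 3 4,
  .ex2 false 1 2 3 7 8,
  .ex3 false 1 3 4 0 8 9,
  .ex3 false 1 5 6 0 8 9,
  .ex2 false 1 6 5 3 4,
  .ex3 false 1 5 6 2 3 4,
  .ex3 false 1 5 6 2 8 9,
  .ex3 false 1 5 8 2 3 4,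
  .ex3 false 1 6 7 2 3 4,
  .ex3 false 1 7 8 2 3 4,
  .ex3 false 1 8 9 0 4 5,
  .ex2 false 1 9 8 3 4,
  .ex3 false 1 8 9 2 3 4,
  .ex2 false 3 2 4 0 5,
  .ex3 false 2 3 4 0 7 8,
  .ex3 false 2 3 4 0 8 9,
  .ex3 false 2 3 4 1 8 9,
  .ex2 false 2 3 4 5 8,
  .ex2 false 2 3 4 8 9,
  .ex2 false 3 2 4 5 6,
  .ex2 false 3 2 4 5 7,
  .ex2 false 3 2 4 5 8,
  .ex2 false 3 2 4 6 7,
  .ex2 false 3 2 4 6 8,
  .ex2 false 3 2 4 7 8,
  .ex2 false 3 2 4 8 9,
  .ex2 false 4 2 3 5 6,
  .ex2 false 4 2 3 5 7,
  .ex2 false 4 2 3 5 8,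
  .ex2 false 4 2 3 5 9,
  .ex2 false 4 2 3 6 7,
  .ex2 false 4 2 3 6 9,
  .ex2 false 4 2 3 7 8,
  .ex2 false 4 2 3 8 9,
  .ex3 false 2 3 4 5 6 7,
  .ex3 false 2 3 4 5 6 8,
  .ex3 false 2 3 4 5 6 9,
  .ex3 false 2 3 4 5 7 8,
  .ex3 false 2 3 4 5 8 9,
  .ex3 false 2 3 4 6 7 8,
  .ex3 false 2 3 4 6 7 9,
  .ex3 false 2 3 4 6 8 9,
  .ex3 false 2 3 4 7 8 9,
  .ex2 false 5 2 4 0 3,
  .ex3 false 2 4 5 0 3 7,
  .ex2 false 5 2 4 1 3,
  .ex3 false 2 4 5 1 3 7,
  .ex2 false 5 2 6 0 3,
  .ex3 false 2 5 6 0 8 9,
  .ex3 false 2 5 6 1 8 9,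
  .ex2 false 2 6 5 3 8,
  .ex2 false 2 6 5 8 9,
  .ex2 false 2 6 7 3 4,
  .ex3 false 2 7 8 0 3 5,
  .ex2 false 8 2 7 0 3,
  .ex3 false 2 7 8 0 4 5,
  .ex2 false 8 2 7 0 5,
  .ex3 false 2 7 8 1 3 5,
  .ex2 false 8 2 7 1 3,
  .ex3 false 2 7 8 1 4 5,
  .ex2 false 8 2 7 1 5,
  .ex3 false 2 8 9 0 3 5,
  .ex2 false 8 2 9 0 3,
  .ex3 false 2 8 9 0 4 5,
  .ex2 false 8 2 9 0 5,
  .ex2 false 8 2 9 0 6,
  .ex2 false 8 2 9 0 7,
  .ex3 false 2 8 9 1 3 5,
  .ex3 false 2 8 9 1 4 5,
  .ex2 false 8 2 9 1 5,
  .ex2 false 8 2 9 1 6,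
  .ex2 false 8 2 9 1 7,
  .ex2 false 2 9 8 3 4,
  .ex2 true 3 0 8 4 5,
  .ex2 true 4 0 8 3 5,
  .ex2 true 4 0 8 3 6,
  .ex2 true 5 0 7 3 8,
  .ex3 true 0 8 9 3 4 5,
  .ex2 true 3 1 8 4 5,
  .ex2 true 4 1 8 3 5,
  .ex2 true 4 1 8 3 6,
  .ex2 true 5 1 7 3 8,
  .ex3 true 1 8 9 3 4 5,
  .ex2 true 3 2 4 8 9,
  .ex2 true 4 2 3 8 9,
  .ex2 true 3 2 8 4 5,
  .ex2 true 4 2 8 3 5,
  .ex2 true 4 2 8 3 6,
  .ex2 true 5 2 7 3 8,
  .ex3 true 2 8 9 3 4 5,
  .ex2 true 3 5 8 4 6,
  .ex2 true 3 5 8 4 7,
  .ex2 true 4 5 8 3 6,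
  .ex2 true 4 5 8 3 7,
  .ex2 true 4 6 8 3 5,
  .ex2 true 4 7 8 3 6,
  .ex2 true 5 6 8 3 4,
  .ex2 true 5 9 8 3 4,
  .ex3 true 5 8 9 3 4 6,
  .ex3 true 5 8 9 3 4 7,
  .ex2 true 6 9 8 3 4,
  .tA false 5,
  .tA true 5,
  .tA false 6,
  .tA true 6,
  .tA false 7,
  .tA true 7,
  .tB false 8,
  .tB true 8,
  .tB false 9,
  .tB true 9,
  .ux false 3,
  .ux true 3,
  .uc 3 4,
  .uc 3 5,
  .uc 3 7,
  .uc 3 8,
  .uc 3 9,
  .u4 false 3 7 5,
  .u4 false 3 8 3,
  .u5 false 3 4 5 3 0,
  .u5 false 3 4 5 3 1,
  .u5 false 3 4 9 3 2,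
  .u5 false 3 5 8 3 2,
  .u3 true 3 5 7 8,
  .u4 true 3 8 3,
  .u5 true 3 4 8 3 5,
  .u5 true 3 5 7 3 0,
  .u5 true 3 5 7 3 1,
  .u5 true 3 5 7 3 2,
  .u5 true 3 8 9 3 0,
  .u5 true 3 8 9 3 1,
  .u5 true 3 8 9 3 2,
  .ux false 4,
  .ux true 4,
  .uc 4 3,
  .uc 4 5,
  .uc 4 7,
  .uc 4 8,
  .u4 false 4 5 7,
  .u4 false 4 8 4,
  .u5 false 4 3 5 4 2,
  .u5 false 4 3 7 4 2,
  .u5 false 4 3 8 4 2,
  .u5 false 4 3 8 7 0,
  .u5 false 4 3 8 7 1,
  .u5 false 4 5 8 4 2,
  .u5 false 4 7 8 4 2,
  .u3 true 4 3 5 7,
  .u4 true 4 8 4,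
  .u5 true 4 3 8 4 5,
  .u5 true 4 5 7 3 0,
  .u5 true 4 5 7 3 1,
  .u5 true 4 5 7 3 2,
  .ux false 5,
  .ux true 5,
  .uc 5 3,
  .uc 5 4,
  .uc 5 6,
  .uc 5 7,
  .uc 5 8,
  .uc 5 9,
  .u4 false 5 3 5,
  .u4 false 5 4 5,
  .u4 false 5 6 5,
  .u4 false 5 7 5,
  .u4 false 5 8 3,
  .u4 false 5 8 7,
  .u4 false 5 9 3,
  .u5 false 5 3 4 5 2,
  .u5 false 5 4 8 3 0,
  .u5 false 5 4 8 3 1,
  .u5 false 5 4 8 5 2,
  .u3 true 5 3 7 8,
  .u3 true 5 4 7 8,
  .u4 true 5 4 8,
  .u4 true 5 7 5,
  .u5 true 5 3 6 5 4,
  .u5 true 5 3 7 5 4,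
  .u5 true 5 3 9 8 5,
  .u5 true 5 4 7 5 3,
  .u5 true 5 6 8 5 9,
  .u5 true 5 7 8 5 9,
  .ux false 6,
  .ux true 6,
  .uc 6 3,
  .uc 6 4,
  .uc 6 5,
  .uc 6 7,
  .uc 6 8,
  .uc 6 9,
  .u4 false 6 3 5,
  .u4 false 6 3 6,
  .u4 false 6 3 7,
  .u4 false 6 3 8,
  .u4 false 6 4 5,
  .u4 false 6 4 6,
  .u4 false 6 4 7,
  .u4 false 6 4 8,
  .u4 false 6 5 3,
  .u4 false 6 5 4,
  .u4 false 6 5 6,
  .u4 false 6 5 8,
  .u4 false 6 7 3,
  .u4 false 6 7 6,
  .u4 false 6 7 8,
  .u4 false 6 8 3,
  .u4 false 6 8 4,
  .u4 false 6 8 5,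
  .u4 false 6 8 6,
  .u4 false 6 8 7,
  .u5 false 6 3 4 5 2,
  .u5 false 6 3 4 6 0,
  .u5 false 6 3 4 6 2,
  .u5 false 6 3 5 4 0,
  .u5 false 6 3 5 4 1,
  .u5 false 6 3 5 4 2,
  .u5 false 6 3 5 6 0,
  .u5 false 6 3 5 6 1,
  .u5 false 6 3 5 6 2,
  .u5 false 6 3 8 5 0,
  .u5 false 6 3 8 5 1,
  .u5 false 6 3 8 5 2,
  .u5 false 6 3 8 6 2,
  .u5 false 6 4 5 3 0,
  .u5 false 6 4 5 3 1,
  .u5 false 6 4 5 3 2,
  .u5 false 6 4 5 6 0,
  .u5 false 6 4 5 6 1,
  .u5 false 6 4 5 6 2,
  .u5 false 6 4 7 5 2,
  .u5 false 6 4 8 5 0,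
  .u5 false 6 4 8 5 1,
  .u5 false 6 4 8 5 2,
  .u5 false 6 5 7 6 0,
  .u5 false 6 5 7 6 1,
  .u5 false 6 5 7 6 2,
  .u5 false 6 5 8 6 0,
  .u5 false 6 5 8 6 2,
  .u5 false 6 5 9 6 2,
  .u5 false 6 7 8 3 0,
  .u5 false 6 7 8 3 1,
  .u5 false 6 7 8 3 2,
  .u5 false 6 7 8 6 2,
  .u5 false 6 8 9 6 0,
  .u5 false 6 8 9 6 1,
  .u5 false 6 8 9 6 2,
  .u3 true 6 3 5 8,
  .u3 true 6 3 7 8,
  .u3 true 6 4 5 8,
  .u3 true 6 4 7 8,
  .u3 true 6 5 7 9,
  .u3 true 6 5 8 9,
  .u3 true 6 7 8 9,
  .u5 true 6 3 5 8 4,
  .u5 true 6 3 7 6 4,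
  .u5 true 6 3 8 9 5,
  .u5 true 6 3 8 9 6,
  .u5 true 6 3 8 9 7,
  .u5 true 6 3 9 8 0,
  .u5 true 6 3 9 8 1,
  .u5 true 6 3 9 8 2,
  .u5 true 6 3 9 8 6,
  .u5 true 6 4 5 6 3,
  .u5 true 6 4 5 8 7,
  .u5 true 6 4 7 6 3,
  .u5 true 6 4 8 9 5,
  .u5 true 6 4 8 9 6,
  .u5 true 6 4 8 9 7,
  .u5 true 6 4 9 8 0,
  .u5 true 6 4 9 8 1,
  .u5 true 6 4 9 8 2,
  .u5 true 6 4 9 8 6,
  .u5 true 6 5 8 6 9,
  .u5 true 6 7 8 5 6,
  .u5 true 6 7 8 6 9,
  .ux false 7,
  .ux true 7,
  .uc 7 3,
  .uc 7 4,
  .uc 7 5,
  .uc 7 6,
  .uc 7 8,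
  .uc 7 9,
  .u4 false 7 3 5,
  .u4 false 7 3 7,
  .u4 false 7 4 5,
  .u4 false 7 4 7,
  .u4 false 7 5 3,
  .u4 false 7 5 4,
  .u4 false 7 5 6,
  .u4 false 7 5 7,
  .u4 false 7 6 7,
  .u4 false 7 8 7,
  .u5 false 7 3 4 5 2,
  .u5 false 7 3 4 7 2,
  .u5 false 7 3 8 5 0,
  .u5 false 7 3 8 5 1,
  .u5 false 7 3 8 5 2,
  .u5 false 7 3 8 7 0,
  .u5 false 7 3 8 7 1,
  .u5 false 7 3 8 7 2,
  .u5 false 7 3 9 4 0,
  .u5 false 7 3 9 4 1,
  .u5 false 7 3 9 4 2,
  .u5 false 7 4 5 3 0,
  .u5 false 7 4 5 3 1,
  .u5 false 7 4 5 6 2,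
  .u5 false 7 4 8 3 0,
  .u5 false 7 4 8 3 1,
  .u5 false 7 4 8 5 0,
  .u5 false 7 4 8 5 1,
  .u5 false 7 4 8 5 2,
  .u5 false 7 4 8 7 2,
  .u5 false 7 5 6 7 0,
  .u5 false 7 5 6 7 1,
  .u5 false 7 5 6 7 2,
  .u5 false 7 5 8 6 0,
  .u5 false 7 5 8 6 1,
  .u5 false 7 5 8 6 2,
  .u5 false 7 6 9 7 0,
  .u5 false 7 6 9 7 1,
  .u5 false 7 6 9 7 2,
  .u5 false 7 8 9 5 2,
  .u5 false 7 8 9 7 2,
  .u3 true 7 3 4 5,
  .u3 true 7 3 4 6,
  .u3 true 7 3 5 8,
  .u3 true 7 3 6 8,
  .u3 true 7 4 5 8,
  .u3 true 7 4 6 8,
  .u3 true 7 5 6 8,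
  .u3 true 7 5 8 9,
  .u3 true 7 6 8 9,
  .u4 true 7 3 8,
  .u4 true 7 4 8,
  .u4 true 7 5 7,
  .u5 true 7 3 5 8 4,
  .u5 true 7 3 8 4 0,
  .u5 true 7 3 8 4 1,
  .u5 true 7 3 8 4 2,
  .u5 true 7 4 5 7 3,
  .u5 true 7 4 6 8 3,
  .u5 true 7 4 9 8 0,
  .u5 true 7 4 9 8 1,
  .u5 true 7 4 9 8 2,
  .u5 true 7 5 8 6 9,
  .u5 true 7 5 8 7 9,
  .u5 true 7 6 8 7 9,
  .ux false 8,
  .ux true 8,
  .uc 8 3,
  .uc 8 4,
  .uc 8 5,
  .uc 8 6,
  .uc 8 9,
  .u4 false 8 4 5,
  .u4 false 8 4 8,
  .u4 false 8 5 3,
  .u4 false 8 5 8,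
  .u4 false 8 6 5,
  .u5 false 8 3 4 8 2,
  .u5 false 8 3 9 4 0,
  .u5 false 8 3 9 4 1,
  .u5 false 8 3 9 4 2,
  .u3 true 8 3 5 6,
  .u4 true 8 4 8,
  .u4 true 8 9 8,
  .u5 true 8 3 4 8 2,
  .ux false 9,
  .ux true 9,
  .uc 9 3,
  .uc 9 4,
  .uc 9 5,
  .uc 9 6,
  .uc 9 7,
  .uc 9 8,
  .u4 false 9 3 8,
  .u4 false 9 3 9,
  .u4 false 9 4 5,
  .u4 false 9 5 3,
  .u4 false 9 5 4,
  .u4 false 9 5 6,
  .u4 false 9 5 7,
  .u4 false 9 5 8,
  .u4 false 9 6 5,
  .u4 false 9 6 9,
  .u4 false 9 7 5,
  .u4 false 9 7 8,
  .u4 false 9 8 5,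
  .u4 false 9 8 7,
  .u4 false 9 8 9,
  .u5 false 9 3 4 5 2,
  .u5 false 9 3 4 6 2,
  .u5 false 9 3 4 7 2,
  .u5 false 9 3 4 8 2,
  .u5 false 9 3 4 9 2,
  .u5 false 9 3 5 6 0,
  .u5 false 9 3 5 6 1,
  .u5 false 9 3 5 6 2,
  .u5 false 9 3 5 7 0,
  .u5 false 9 3 5 7 1,
  .u5 false 9 3 5 7 2,
  .u5 false 9 3 5 8 0,
  .u5 false 9 3 5 8 1,
  .u5 false 9 3 5 8 2,
  .u5 false 9 3 6 5 0,
  .u5 false 9 3 6 5 1,
  .u5 false 9 3 6 5 2,
  .u5 false 9 3 7 5 0,
  .u5 false 9 3 7 5 1,
  .u5 false 9 3 7 5 2,
  .u5 false 9 3 7 8 0,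
  .u5 false 9 3 7 8 1,
  .u5 false 9 3 8 5 0,
  .u5 false 9 3 8 5 1,
  .u5 false 9 3 8 5 2,
  .u5 false 9 3 8 6 0,
  .u5 false 9 3 8 6 1,
  .u5 false 9 3 8 6 2,
  .u5 false 9 3 8 9 0,
  .u5 false 9 3 8 9 1,
  .u5 false 9 3 8 9 2,
  .u5 false 9 4 5 6 0,
  .u5 false 9 4 5 6 1,
  .u5 false 9 4 5 6 2,
  .u5 false 9 4 5 7 0,
  .u5 false 9 4 5 7 1,
  .u5 false 9 4 5 7 2,
  .u5 false 9 4 5 8 0,
  .u5 false 9 4 5 8 1,
  .u5 false 9 4 5 8 2,
  .u5 false 9 4 5 9 0,
  .u5 false 9 4 5 9 1,
  .u5 false 9 4 5 9 2,
  .u5 false 9 4 6 5 0,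
  .u5 false 9 4 6 5 1,
  .u5 false 9 4 6 5 2,
  .u5 false 9 4 6 9 1,
  .u5 false 9 4 7 5 0,
  .u5 false 9 4 7 5 1,
  .u5 false 9 4 7 5 2,
  .u5 false 9 4 8 9 0,
  .u5 false 9 4 8 9 1,
  .u5 false 9 4 8 9 2,
  .u5 false 9 5 6 7 2,
  .u5 false 9 5 6 9 2,
  .u5 false 9 5 7 6 0,
  .u5 false 9 5 7 6 1,
  .u5 false 9 5 7 6 2,
  .u5 false 9 5 7 8 0,
  .u5 false 9 5 7 8 1,
  .u5 false 9 5 7 8 2,
  .u5 false 9 5 8 6 0,
  .u5 false 9 5 8 6 1,
  .u5 false 9 5 8 6 2,
  .u5 false 9 5 8 9 0,
  .u5 false 9 5 8 9 1,
  .u5 false 9 5 8 9 2,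
  .u5 false 9 6 7 9 0,
  .u5 false 9 6 7 9 1,
  .u5 false 9 6 7 9 2,
  .u5 false 9 6 8 7 0,
  .u5 false 9 6 8 7 1,
  .u5 false 9 6 8 7 2,
  .u5 false 9 6 8 9 0,
  .u5 false 9 6 8 9 1,
  .u5 false 9 6 8 9 2,
  .u5 false 9 7 8 9 0,
  .u5 false 9 7 8 9 1,
  .u5 false 9 7 8 9 2,
  .u3 true 9 3 4 6,
  .u3 true 9 3 4 7,
  .u3 true 9 3 5 7,
  .u3 true 9 3 6 7,
  .u3 true 9 4 5 6,
  .u3 true 9 4 5 7,
  .u3 true 9 4 6 7,
  .u3 true 9 5 6 8,
  .u3 true 9 5 7 8,
  .u3 true 9 6 7 8,
  .u4 true 9 3 8,
  .u4 true 9 3 9,
  .u4 true 9 4 8,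
  .u4 true 9 4 9,
  .u4 true 9 8 9,
  .u5 true 9 3 4 8 2,
  .u5 true 9 3 4 9 2,
  .u5 true 9 3 5 9 8]

theorem a0 : axchk 10 3 2 false (Tr.get ⟨9, 0, 0, 0⟩ v) (Tr.get 0 g) l0 500 0 = true := by
  decide +kernel

def l1 : List Ax := [.u5 true 9 3 6 9 8,
  .u5 true 9 3 8 9 0,
  .u5 true 9 3 8 9 1,
  .u5 true 9 3 8 9 2,
  .u5 true 9 3 8 9 5,
  .u5 true 9 4 5 7 3,
  .u5 true 9 4 6 9 3,
  .u5 true 9 4 8 3 0,
  .u5 true 9 4 8 3 1,
  .u5 true 9 4 8 3 2,
  .u5 true 9 4 8 3 5,
  .u5 true 9 4 8 3 6,
  .u5 true 9 4 8 9 5,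
  .u5 true 9 5 7 9 0,
  .u5 true 9 5 7 9 1,
  .u5 true 9 5 7 9 2,
  .u5 true 9 5 8 3 7,
  .u5 true 9 5 8 3 9,
  .u5 true 9 5 8 4 7,
  .u5 true 9 5 8 4 9,
  .u5 true 9 5 8 6 9,
  .u5 true 9 5 8 7 9,
  .u5 true 9 6 8 3 9,
  .u5 true 9 6 8 4 9,
  .u5 true 9 7 8 3 6,
  .u5 true 9 7 8 4 6,
  .u5 true 9 7 8 4 9,
  .u5 true 9 7 8 6 9]

theorem a1 : axchk 10 3 2 false (Tr.get ⟨9, 0, 0, 0⟩ v) (Tr.get 0 g) l1 528 500 = true := by
  decide +kernel

theorem t0 : chk (Tr.get 0 g) (Tr.get 0 h) 456 528 = true := by decide +kernel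

theorem z : Tr.get 0 g 983 = 0 := by decide +kernel

theorem bad {α : Type*} [DecidableEq α] (c : Cx α) (hn : c.n = 10) (ha : c.a = 3) (hb : c.b = 2)
    (hcl : c.closed = false) : False := by
  have s0 := axchk_sound c hn ha hb hcl (by norm_num) _ _ _ _ _ a0
  have s0 := s0.trans (axchk_sound c hn ha hb hcl (by norm_num) _ _ _ _ _ a1)
  have s0 := chk_sound' t0 (e := 984) rfl s0
  exact s0.false z

end Pool.Agent.Gabow87.K3.U320
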